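import Mathlib

/-! Filtered complexes given by submodules of chains and of null chains. -/

namespace KH

/-- A complex: chains `C q`, null chains `Z`, differential `D`. -/
structure Cx1 (R M : Type*) [Ring R] [AddCommGroup M] [Module R M] where
  C : ℕ → Submodule R M
  Z : Submodule R M
  D : M →ₗ[R] M
  ZC : ∀ q, Z ≤ C q
  DZ : ∀ x ∈ Z, D x ∈ Z
  DD : ∀ q, ∀ x ∈ C q, D (D x) ∈ Z
  DC : ∀ q, ∀ x ∈ C (q + 1), D x ∈ C q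
  D0 : ∀ x ∈ C 0, D x ∈ Z

/-- A family of complexes with a Lefschetz operator. -/
structure Cx (R M : Type*) [Ring R] [AddCommGroup M] [Module R M] where
  C : ℕ → ℕ → Submodule R M
  Z : Submodule R M
  D : M →ₗ[R] M
  L : Module.End R M
  ZC : ∀ p q, Z ≤ C p q
  DZ : ∀ x ∈ Z, D x ∈ Z
  DD : ∀ p q, ∀ x ∈ C p q, D (D x) ∈ Z
  DC : ∀ p q, ∀ x ∈ C p (q + 1), D x ∈ C p q
  D0 : ∀ p, ∀ x ∈ C p 0, D x ∈ Z
  LZ : ∀ x ∈ Z, L x ∈ Z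
  LC : ∀ p q, ∀ x ∈ C (p + 1) (q + 1), L x ∈ C p q
  DL : ∃ s : ℤˣ, ∀ p q, ∀ x ∈ C (p + 1) (q + 1), D (L x) - s • L (D x) ∈ Z

variable {R R' M M' : Type*} [Ring R] [Ring R'] [AddCommGroup M] [Module R M] [AddCommGroup M']

/-- Cycles. -/
def Cx1.Cy (A : Cx1 R M) (q : ℕ) : Submodule R M := A.C q ⊓ A.Z.comap A.D

/-- Boundaries. -/
def Cx1.Bd (A : Cx1 R M) (q : ℕ) : Submodule R M := (A.C (q + 1)).map A.D ⊔ A.Z

/-- The complex of weight `p`. -/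
def Cx.row (A : Cx R M) (p : ℕ) : Cx1 R M :=
  ⟨A.C p, A.Z, A.D, A.ZC p, A.DZ, A.DD p, A.DC p, A.D0 p⟩

/-- Hard Lefschetz in dimension `d`. -/
def Cx.HL (A : Cx R M) (d : ℕ) : Prop :=
  ∀ p q j, p + q + j = d →
    (∀ z ∈ (A.row (p + j)).Cy (q + j), (A.L ^ j) z ∈ (A.row p).Bd q →
      z ∈ (A.row (p + j)).Bd (q + j)) ∧
    ∀ z ∈ (A.row p).Cy q, ∃ y ∈ (A.row (p + j)).Cy (q + j), z - (A.L ^ j) y ∈ (A.row p).Bd q

theorem Cx1.mem_Cy {A : Cx1 R M} {q : ℕ} {x : M} : x ∈ A.Cy q ↔ x ∈ A.C q ∧ A.D x ∈ A.Z := Iff.rfl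

theorem mem_map_sup {S T : Submodule R M} {D : M →ₗ[R] M} {x : M} :
    x ∈ S.map D ⊔ T ↔ ∃ y ∈ S, x - D y ∈ T := by
  constructor
  · intro h
    obtain ⟨_, ⟨y, hy, rfl⟩, z, hz, rfl⟩ := Submodule.mem_sup.mp h
    exact ⟨y, hy, by simpa using hz⟩
  · rintro ⟨y, hy, h⟩
    exact Submodule.mem_sup.mpr ⟨_, ⟨y, hy, rfl⟩, _, h, by abel⟩

theorem Cx1.mem_Bd {A : Cx1 R M} {q : ℕ} {x : M} :
    x ∈ A.Bd q ↔ ∃ y ∈ A.C (q + 1), x - A.D y ∈ A.Z := mem_map_sup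

theorem Cx1.D_mem_Bd (A : Cx1 R M) {q : ℕ} {y : M} (hy : y ∈ A.C (q + 1)) : A.D y ∈ A.Bd q :=
  Cx1.mem_Bd.mpr ⟨y, hy, by simp⟩

theorem Cx1.D_mem_Cy (A : Cx1 R M) {q : ℕ} {y : M} (hy : y ∈ A.C (q + 1)) : A.D y ∈ A.Cy q :=
  ⟨A.DC q y hy, A.DD _ y hy⟩

theorem Cx1.Z_le_Bd (A : Cx1 R M) (q : ℕ) : A.Z ≤ A.Bd q := le_sup_right

theorem Cx1.Bd_le_Cy (A : Cx1 R M) (q : ℕ) : A.Bd q ≤ A.Cy q := by
  refine sup_le ?_ fun z hz => ⟨A.ZC q hz, A.DZ z hz⟩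
  rintro _ ⟨y, hy, rfl⟩
  exact A.D_mem_Cy hy

theorem sgn_mem {S : Submodule R M} (s : ℤˣ) {x : M} (h : x ∈ S) : s • x ∈ S := by
  rcases Int.units_eq_one_or s with rfl | rfl <;> simpa using h

theorem sgn_sgn (s : ℤˣ) (x : M) : s • s • x = x := by
  rcases Int.units_eq_one_or s with rfl | rfl <;> simp

theorem sgn_mem_iff {S : Submodule R M} (s : ℤˣ) {x : M} : s • x ∈ S ↔ x ∈ S :=
  ⟨fun h => by simpa [sgn_sgn] using sgn_mem s h, sgn_mem s⟩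

theorem map_sgn {F : Type*} [FunLike F M M'] [AddMonoidHomClass F M M'] (f : F) (s : ℤˣ) (x : M) :
    f (s • x) = s • f x := by
  rcases Int.units_eq_one_or s with rfl | rfl <;> simp

theorem mem_of_eq {S : Submodule R M} {x y : M} (h : x ∈ S) (e : y = x) : y ∈ S := e ▸ h

theorem Cx.L_Cy (A : Cx R M) {p q : ℕ} {z : M} (hz : z ∈ (A.row (p + 1)).Cy (q + 1)) :
    A.L z ∈ (A.row p).Cy q := by
  obtain ⟨s, hs⟩ := A.DL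
  refine ⟨A.LC p q z hz.1, ?_⟩
  change A.D (A.L z) ∈ A.Z
  exact mem_of_eq (add_mem (hs p q z hz.1) (sgn_mem s (A.LZ _ hz.2))) (sub_add_cancel _ _).symm

theorem Cx.L_Bd (A : Cx R M) {p q : ℕ} {z : M} (hz : z ∈ (A.row (p + 1)).Bd (q + 1)) :
    A.L z ∈ (A.row p).Bd q := by
  obtain ⟨s, hs⟩ := A.DL
  obtain ⟨y, hy, h⟩ := Cx1.mem_Bd.mp hz
  refine Cx1.mem_Bd.mpr ⟨s • A.L y, sgn_mem s (A.LC p (q + 1) y hy), ?_⟩
  refine mem_of_eq (sub_mem (A.LZ _ h) (sgn_mem s (hs p (q + 1) y hy))) ?_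
  change A.L z - A.D (s • A.L y) = A.L (z - A.D y) - _
  rw [map_sgn, smul_sub, sgn_sgn, map_sub]; abel

theorem Cx.pow_Bd (A : Cx R M) (j : ℕ) {p q : ℕ} {z : M} (hz : z ∈ (A.row (p + j)).Bd (q + j)) :
    (A.L ^ j) z ∈ (A.row p).Bd q := by
  induction j generalizing z with
  | zero => simpa using hz
  | succ j ih => rw [pow_succ, Module.End.mul_apply]; exact ih (A.L_Bd hz)

section Two

variable [Module R' M']

theorem Cx.HL_of_rel_aux (A : Cx R M) (B : Cx R' M') (G : ℕ → ℕ → AddSubgroup (M × M'))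
    (h1 : ∀ p q, ∀ z ∈ G p q, z.1 ∈ (A.row p).Cy q ∧ z.2 ∈ (B.row p).Cy q)
    (h2 : ∀ p q, ∀ x ∈ (A.row p).Cy q, ∃ z ∈ G p q, x - z.1 ∈ (A.row p).Bd q)
    (h3 : ∀ p q, ∀ y ∈ (B.row p).Cy q, ∃ z ∈ G p q, y - z.2 ∈ (B.row p).Bd q)
    (h4 : ∀ p q, ∀ z ∈ G p q, z.1 ∈ (A.row p).Bd q ↔ z.2 ∈ (B.row p).Bd q)
    (h5 : ∀ p q, ∃ s t : ℤˣ, ∀ z ∈ G (p + 1) (q + 1), ∃ z' ∈ G p q,
      s • A.L z.1 - z'.1 ∈ (A.row p).Bd q ∧ t • B.L z.2 - z'.2 ∈ (B.row p).Bd q) (d : ℕ)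
    (H : A.HL d) : B.HL d := by
  have key : ∀ j p q, ∃ s t : ℤˣ, ∀ z ∈ G (p + j) (q + j), ∃ z' ∈ G p q,
      s • (A.L ^ j) z.1 - z'.1 ∈ (A.row p).Bd q ∧ t • (B.L ^ j) z.2 - z'.2 ∈ (B.row p).Bd q := by
    intro j p q
    induction j with
    | zero => exact ⟨1, 1, fun z hz => ⟨z, hz, by simp, by simp⟩⟩
    | succ j ih =>
      obtain ⟨s, t, ih⟩ := ih
      obtain ⟨s', t', h⟩ := h5 (p + j) (q + j)
      refine ⟨s * s', t * t', fun z hz => ?_⟩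
      obtain ⟨u, hu, a1, a2⟩ := h z hz
      obtain ⟨v, hv, b1, b2⟩ := ih u hu
      refine ⟨v, hv, mem_of_eq (add_mem (sgn_mem s (A.pow_Bd j a1)) b1) ?_,
        mem_of_eq (add_mem (sgn_mem t (B.pow_Bd j a2)) b2) ?_⟩ <;>
      · rw [map_sub, map_sgn, smul_sub, mul_smul, pow_succ, Module.End.mul_apply]; abel
  intro p q j hd
  obtain ⟨Hi, Hs⟩ := H p q j hd
  obtain ⟨s, t, hk⟩ := key j p q
  constructor
  · intro y hy hy'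
    obtain ⟨z, hz, a⟩ := h3 _ _ y hy
    obtain ⟨u, hu, b1, b2⟩ := hk z hz
    have c1 : (B.L ^ j) z.2 ∈ (B.row p).Bd q :=
      mem_of_eq (sub_mem hy' (B.pow_Bd j a)) (by rw [map_sub]; abel)
    have c2 : u.2 ∈ (B.row p).Bd q := mem_of_eq (sub_mem (sgn_mem t c1) b2) (by abel)
    have c3 : s • (A.L ^ j) z.1 ∈ (A.row p).Bd q :=
      mem_of_eq (add_mem b1 ((h4 _ _ u hu).mpr c2)) (by abel)
    have c4 := (h4 _ _ z hz).mp (Hi _ (h1 _ _ z hz).1 ((sgn_mem_iff s).mp c3))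
    exact mem_of_eq (add_mem a c4) (by abel)
  · intro y hy
    obtain ⟨z, hz, a⟩ := h3 _ _ y hy
    obtain ⟨x, hx, b⟩ := Hs _ (sgn_mem s (h1 _ _ z hz).1)
    obtain ⟨u, hu, c⟩ := h2 _ _ x hx
    obtain ⟨v, hv, e1, e2⟩ := hk u hu
    have f1 : (z - v).1 ∈ (A.row p).Bd q := by
      refine mem_of_eq (add_mem (add_mem (sgn_mem s b) (sgn_mem s (A.pow_Bd j c))) e1) ?_
      rw [map_sub, smul_sub, smul_sub, sgn_sgn, Prod.fst_sub]; abel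
    have f2 := (h4 _ _ _ (sub_mem hz hv)).mp f1
    refine ⟨t • u.2, sgn_mem t (h1 _ _ u hu).2, mem_of_eq (sub_mem (add_mem a f2) e2) ?_⟩
    rw [map_sgn, Prod.snd_sub]; abel

/-- Transfer of hard Lefschetz along a relation that identifies the homologies. -/
theorem Cx.HL_of_rel (A : Cx R M) (B : Cx R' M') (G : ℕ → ℕ → AddSubgroup (M × M'))
    (h1 : ∀ p q, ∀ z ∈ G p q, z.1 ∈ (A.row p).Cy q ∧ z.2 ∈ (B.row p).Cy q)
    (h2 : ∀ p q, ∀ x ∈ (A.row p).Cy q, ∃ z ∈ G p q, x - z.1 ∈ (A.row p).Bd q)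
    (h3 : ∀ p q, ∀ y ∈ (B.row p).Cy q, ∃ z ∈ G p q, y - z.2 ∈ (B.row p).Bd q)
    (h4 : ∀ p q, ∀ z ∈ G p q, z.1 ∈ (A.row p).Bd q ↔ z.2 ∈ (B.row p).Bd q)
    (h5 : ∀ p q, ∃ s : ℤˣ, ∀ z ∈ G (p + 1) (q + 1), ∃ z' ∈ G p q,
      A.L z.1 - z'.1 ∈ (A.row p).Bd q ∧ s • B.L z.2 - z'.2 ∈ (B.row p).Bd q) (d : ℕ) :
    A.HL d ↔ B.HL d := by
  constructor
  · refine A.HL_of_rel_aux B G h1 h2 h3 h4 (fun p q => ?_) d
    obtain ⟨s, hs⟩ := h5 p q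
    exact ⟨1, s, by simpa using hs⟩
  · refine B.HL_of_rel_aux A
      (fun p q => (G p q).comap (AddEquiv.prodComm : M' × M ≃+ M × M').toAddMonoidHom)
      (fun p q z hz => (h1 p q z.swap hz).symm) (fun p q x hx => ?_) (fun p q x hx => ?_)
      (fun p q z hz => (h4 p q z.swap hz).symm) (fun p q => ?_) d
    · obtain ⟨z, hz, h⟩ := h3 p q x hx
      exact ⟨z.swap, hz, h⟩
    · obtain ⟨z, hz, h⟩ := h2 p q x hx
      exact ⟨z.swap, hz, h⟩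
    · obtain ⟨s, hs⟩ := h5 p q
      refine ⟨s, 1, fun z hz => ?_⟩
      obtain ⟨u, hu, a, b⟩ := hs z.swap hz
      exact ⟨u.swap, hu, b, by rw [one_smul]; exact a⟩

/-- `f` induces an isomorphism in homology in degree `q`. -/
def QI (A : Cx1 R M) (B : Cx1 R' M') (f : M →+ M') (q : ℕ) : Prop :=
  (∀ x ∈ A.Cy q, f x ∈ B.Bd q → x ∈ A.Bd q) ∧ ∀ y ∈ B.Cy q, ∃ x ∈ A.Cy q, y - f x ∈ B.Bd q

/-- `f` is a chain map up to signs. -/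
structure Mor (A : Cx1 R M) (B : Cx1 R' M') (f : M →+ M') : Prop where
  hC : ∀ q, ∀ x ∈ A.C q, f x ∈ B.C q
  hZ : ∀ x ∈ A.Z, f x ∈ B.Z
  hD : ∀ q, ∃ s : ℤˣ, ∀ x ∈ A.C q, f (A.D x) - s • B.D (f x) ∈ B.Z

theorem Mor.map_Cy {A : Cx1 R M} {B : Cx1 R' M'} {f : M →+ M'} (h : Mor A B f) {q : ℕ} {x : M}
    (hx : x ∈ A.Cy q) : f x ∈ B.Cy q := by
  obtain ⟨s, hs⟩ := h.hD q
  refine Cx1.mem_Cy.mpr ⟨h.hC q x hx.1, (sgn_mem_iff s).mp ?_⟩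
  exact mem_of_eq (sub_mem (h.hZ _ hx.2) (hs x hx.1)) (by abel)

theorem Mor.map_Bd {A : Cx1 R M} {B : Cx1 R' M'} {f : M →+ M'} (h : Mor A B f) {q : ℕ} {x : M}
    (hx : x ∈ A.Bd q) : f x ∈ B.Bd q := by
  obtain ⟨s, hs⟩ := h.hD (q + 1)
  obtain ⟨y, hy, a⟩ := Cx1.mem_Bd.mp hx
  refine Cx1.mem_Bd.mpr ⟨s • f y, sgn_mem s (h.hC _ y hy),
    mem_of_eq (add_mem (h.hZ _ a) (hs y hy)) ?_⟩
  rw [map_sgn, map_sub]; abel

/-- Transfer of hard Lefschetz along a quasi-isomorphism. -/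
theorem Cx.HL_of_qi (A : Cx R M) (B : Cx R' M') (f : M →+ M')
    (hm : ∀ p, Mor (A.row p) (B.row p) f) (hq : ∀ p q, QI (A.row p) (B.row p) f q)
    (hL : ∀ p q, ∃ s : ℤˣ, ∀ x ∈ (A.row (p + 1)).Cy (q + 1),
      f (A.L x) - s • B.L (f x) ∈ (B.row p).Bd q) (d : ℕ) : A.HL d ↔ B.HL d := by
  let G : ℕ → ℕ → AddSubgroup (M × M') := fun p q =>
    { carrier := {z | z.1 ∈ (A.row p).Cy q ∧ z.2 ∈ (B.row p).Cy q ∧ z.2 - f z.1 ∈ (B.row p).Bd q}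
      zero_mem' := ⟨zero_mem _, zero_mem _, by simp⟩
      add_mem' := fun ha hb => ⟨add_mem ha.1 hb.1, add_mem ha.2.1 hb.2.1,
        mem_of_eq (add_mem ha.2.2 hb.2.2) (by rw [Prod.fst_add, Prod.snd_add, map_add]; abel)⟩
      neg_mem' := fun ha => ⟨neg_mem ha.1, neg_mem ha.2.1,
        mem_of_eq (neg_mem ha.2.2) (by rw [Prod.fst_neg, Prod.snd_neg, map_neg]; abel)⟩ }
  have hG : ∀ p q, ∀ x ∈ (A.row p).Cy q, (x, f x) ∈ G p q := fun p q x hx =>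
    ⟨hx, (hm p).map_Cy hx, by simp⟩
  refine A.HL_of_rel B G (fun p q z hz => ⟨hz.1, hz.2.1⟩)
    (fun p q x hx => ⟨_, hG p q x hx, by simp⟩) (fun p q y hy => ?_) (fun p q z hz => ⟨?_, ?_⟩)
    (fun p q => ?_) d
  · obtain ⟨x, hx, h⟩ := (hq p q).2 y hy
    exact ⟨_, hG p q x hx, h⟩
  · intro h
    exact mem_of_eq (add_mem hz.2.2 ((hm p).map_Bd h)) (by abel)
  · intro h
    exact (hq p q).1 _ hz.1 (mem_of_eq (sub_mem h hz.2.2) (by abel))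
  · obtain ⟨s, hs⟩ := hL p q
    refine ⟨s, fun z hz => ⟨_, hG p q _ (A.L_Cy hz.1), by simp, ?_⟩⟩
    refine mem_of_eq (sub_mem (sgn_mem s (B.L_Bd hz.2.2)) (hs _ hz.1)) ?_
    rw [map_sub, smul_sub]; abel

/-- An increasing filtration that starts with the null chains and exhausts the chains. -/
structure Fil (A : Cx1 R M) (W : ℕ → Submodule R M) : Prop where
  mono : Monotone W
  ZW : A.Z ≤ W 0
  lo : ∀ q, A.C q ⊓ W 0 ≤ A.Z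
  hi : ∃ m, ∀ q, A.C q ≤ W m
  DW : ∀ q m, ∀ x ∈ A.C q ⊓ W m, A.D x ∈ W m

/-- A filtered chain map that is a quasi-isomorphism on the graded pieces. -/
theorem filt_qi {A : Cx1 R M} {B : Cx1 R' M'} {f : M →+ M'} (hm : Mor A B f)
    {W : ℕ → Submodule R M} {W' : ℕ → Submodule R' M'} (hW : Fil A W) (hW' : Fil B W')
    (hf : ∀ q m, ∀ x ∈ A.C q ⊓ W m, f x ∈ W' m)
    (gi : ∀ q m, ∀ x ∈ A.C q ⊓ W (m + 1), A.D x ∈ W m →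
      f x ∈ (B.C (q + 1) ⊓ W' (m + 1)).map B.D ⊔ W' m →
      x ∈ (A.C (q + 1) ⊓ W (m + 1)).map A.D ⊔ W m)
    (gs : ∀ q m, ∀ y ∈ B.C q ⊓ W' (m + 1), B.D y ∈ W' m → ∃ x ∈ A.C q ⊓ W (m + 1),
      A.D x ∈ W m ∧ y - f x ∈ (B.C (q + 1) ⊓ W' (m + 1)).map B.D ⊔ W' m) (q : ℕ) :
    QI A B f q := by
  have ZW : ∀ m, A.Z ≤ W m := fun m => hW.ZW.trans (hW.mono (Nat.zero_le m))
  have ZW' : ∀ m, B.Z ≤ W' m := fun m => hW'.ZW.trans (hW'.mono (Nat.zero_le m))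
  have up : ∀ m, W m ≤ W (m + 1) := fun m => hW.mono (Nat.le_succ m)
  have up' : ∀ m, W' m ≤ W' (m + 1) := fun m => hW'.mono (Nat.le_succ m)
  have key : ∀ m, (∀ q, ∀ x ∈ A.Cy q, x ∈ W m → (∃ y ∈ B.C (q + 1) ⊓ W' m, f x - B.D y ∈ B.Z) →
      ∃ y ∈ A.C (q + 1) ⊓ W m, x - A.D y ∈ A.Z) ∧ ∀ q, ∀ y ∈ B.Cy q, y ∈ W' m →
      ∃ x ∈ A.Cy q, x ∈ W m ∧ ∃ u ∈ B.C (q + 1) ⊓ W' m, y - f x - B.D u ∈ B.Z := by
    intro m
    induction m with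
    | zero =>
      exact ⟨fun q x hx hx' _ => ⟨0, zero_mem _, by simpa using hW.lo q ⟨hx.1, hx'⟩⟩,
        fun q y hy hy' => ⟨0, zero_mem _, zero_mem _, 0, zero_mem _,
          by simpa using hW'.lo q ⟨hy.1, hy'⟩⟩⟩
    | succ m ih =>
      obtain ⟨I, S⟩ := ih
      constructor
      · rintro q x hx hx' ⟨y, hy, h⟩
        obtain ⟨s, hs⟩ := hm.hD (q + 1)
        obtain ⟨x1, a1, a2⟩ := mem_map_sup.mp (gi q m x ⟨hx.1, hx'⟩ (ZW m hx.2)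
          (mem_map_sup.mpr ⟨y, hy, ZW' m h⟩))
        have r1 : x - A.D x1 ∈ A.Cy q := sub_mem hx (A.D_mem_Cy a1.1)
        have y2 : y - s • f x1 ∈ B.C (q + 1) ⊓ W' (m + 1) :=
          sub_mem hy (sgn_mem s ⟨hm.hC _ _ a1.1, hf _ _ _ a1⟩)
        have e1 : f (x - A.D x1) - B.D (y - s • f x1) ∈ B.Z := by
          refine mem_of_eq (sub_mem h (hs x1 a1.1)) ?_
          rw [map_sub, map_sub, map_sgn]; abel
        obtain ⟨x3, b1, b2, b3⟩ := gs (q + 1) m _ y2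
          (mem_of_eq (sub_mem (hf q m _ ⟨r1.1, a2⟩) (ZW' m e1)) (by abel))
        obtain ⟨y3, c1, c2⟩ := mem_map_sup.mp b3
        obtain ⟨x4, d1, d2⟩ := I q (x - A.D x1 - s • A.D x3)
          (sub_mem r1 (sgn_mem s (A.D_mem_Cy b1.1))) (sub_mem a2 (sgn_mem s b2))
          ⟨_, ⟨sub_mem (sub_mem y2.1 (hm.hC _ _ b1.1)) (B.DC _ _ c1.1), c2⟩, by
            refine mem_of_eq (add_mem (sub_mem e1 (sgn_mem s (hs x3 b1.1))) (B.DD _ _ c1.1)) ?_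
            rw [map_sub f _ (s • A.D x3), map_sgn, smul_sub, sgn_sgn, map_sub B.D _ (B.D y3),
              map_sub B.D _ (f x3)]
            abel⟩
        refine ⟨x1 + s • x3 + x4, add_mem (add_mem a1 (sgn_mem s b1)) ⟨d1.1, up m d1.2⟩,
          mem_of_eq d2 ?_⟩
        rw [map_add, map_add, map_sgn]; abel
      · intro q y hy hy'
        obtain ⟨x, a1, a2, a3⟩ := gs q m y ⟨hy.1, hy'⟩ (ZW' m hy.2)
        obtain ⟨y1, b1, b2⟩ := mem_map_sup.mp a3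
        have r1 : y - f x - B.D y1 ∈ B.C q :=
          sub_mem (sub_mem hy.1 (hm.hC _ _ a1.1)) (B.DC _ _ b1.1)
        obtain ⟨x1, c1, c2⟩ : ∃ x1 ∈ A.C q ⊓ W m, A.D x - A.D x1 ∈ A.Z := by
          cases q with
          | zero => exact ⟨0, zero_mem _, by simpa using A.D0 x a1.1⟩
          | succ q =>
            obtain ⟨s, hs⟩ := hm.hD (q + 1)
            refine I q _ (A.D_mem_Cy a1.1) a2 ⟨-(s • (y - f x - B.D y1)),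
              neg_mem (sgn_mem s ⟨r1, b2⟩), ?_⟩
            refine mem_of_eq (add_mem (hs x a1.1)
              (sgn_mem s (sub_mem (show B.D y ∈ B.Z from hy.2) (B.DD _ _ b1.1)))) ?_
            rw [map_neg, map_sgn, map_sub, map_sub, smul_sub, smul_sub, smul_sub]; abel
        have x' : x - x1 ∈ A.Cy q :=
          Cx1.mem_Cy.mpr ⟨sub_mem a1.1 c1.1, mem_of_eq c2 (map_sub _ _ _)⟩
        obtain ⟨x2, d1, d2, u, d3, d4⟩ := S q (y - f (x - x1) - B.D y1)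
          (sub_mem (sub_mem hy (hm.map_Cy x')) (B.D_mem_Cy b1.1))
          (mem_of_eq (add_mem b2 (hf q m x1 c1)) (by rw [map_sub]; abel))
        refine ⟨x - x1 + x2, add_mem x' d1, add_mem (sub_mem a1.2 (up m c1.2)) (up m d2), y1 + u,
          add_mem b1 ⟨d3.1, up' m d3.2⟩, mem_of_eq d4 ?_⟩
        rw [map_add, map_add]; abel
  obtain ⟨m, h1⟩ := hW.hi
  obtain ⟨m', h2⟩ := hW'.hi
  have g1 : ∀ q, A.C q ≤ W (m + m') := fun q => (h1 q).trans (hW.mono (by omega))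
  have g2 : ∀ q, B.C q ≤ W' (m + m') := fun q => (h2 q).trans (hW'.mono (by omega))
  obtain ⟨I, S⟩ := key (m + m')
  constructor
  · intro x hx h
    obtain ⟨y, hy, h⟩ := Cx1.mem_Bd.mp h
    obtain ⟨u, hu, h⟩ := I q x hx (g1 q hx.1) ⟨y, ⟨hy, g2 _ hy⟩, h⟩
    exact Cx1.mem_Bd.mpr ⟨u, hu.1, h⟩
  · intro y hy
    obtain ⟨x, hx, -, u, hu, h⟩ := S q y hy (g2 q hy.1)
    exact ⟨x, hx, Cx1.mem_Bd.mpr ⟨u, hu.1, h⟩⟩

end Two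

/-- A complex with a finite decreasing filtration whose graded pieces are exact in degree `q`. -/
theorem filt_acyc (A : Cx1 R M) (q : ℕ) (W : ℕ → Submodule R M) (ZW : ∀ m, A.Z ≤ W m)
    (lo : A.C q ≤ W 0) (hi : ∃ m, A.C q ⊓ W m ≤ A.Z)
    (h : ∀ m, ∀ x ∈ A.C q ⊓ W m, A.D x ∈ W (m + 1) → x ∈ (A.C (q + 1)).map A.D ⊔ W (m + 1)) :
    A.Cy q ≤ A.Bd q := by
  intro x hx
  have key : ∀ m, ∃ y ∈ A.C (q + 1), x - A.D y ∈ W m := by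
    intro m
    induction m with
    | zero => exact ⟨0, zero_mem _, by simpa using lo hx.1⟩
    | succ m ih =>
      obtain ⟨y, hy, a⟩ := ih
      have b := sub_mem hx (A.D_mem_Cy hy)
      obtain ⟨u, hu, c⟩ := mem_map_sup.mp (h m _ ⟨b.1, a⟩ (ZW _ b.2))
      exact ⟨y + u, add_mem hy hu, mem_of_eq c (by rw [map_add]; abel)⟩
  obtain ⟨m, hm⟩ := hi
  obtain ⟨y, hy, a⟩ := key m
  exact Cx1.mem_Bd.mpr ⟨y, hy, hm ⟨sub_mem hx.1 (A.DC q y hy), a⟩⟩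

variable [Module R M']

/-- The graded pieces of the filtration `W` have homology only in degree `q = c - r`, and
the triple `E`, `Z'`, `d` is the first page. -/
structure Conc (A : Cx1 R M) (W : ℤ → Submodule R M) (c : ℤ) (E : ℕ → Submodule R M')
    (Z' : Submodule R M') (d : M' →ₗ[R] M') (ι : M' →ₗ[R] M) : Prop where
  anti : Antitone W
  ZW : ∀ r, A.Z ≤ W r
  DW : ∀ q r, ∀ x ∈ A.C q ⊓ W r, A.D x ∈ W r
  lo : ∃ a, ∀ q, A.C q ≤ W a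
  hi : ∃ b, ∀ q, A.C q ⊓ W b ≤ A.Z
  ZE : ∀ q, Z' ≤ E q
  dZ : ∀ w ∈ Z', d w ∈ Z'
  dE : ∀ q, ∀ w ∈ E (q + 1), d w ∈ E q
  d0 : ∀ w ∈ E 0, d w ∈ Z'
  iZ : ∀ w ∈ Z', ι w ∈ A.Z
  iC : ∀ q, ∀ w ∈ E q, ι w ∈ A.C q ⊓ W (c - q)
  conc : ∀ (q : ℕ) (r : ℤ), r ≠ c - q → ∀ x ∈ A.C q ⊓ W r, A.D x ∈ W (r + 1) →
    x ∈ (A.C (q + 1) ⊓ W r).map A.D ⊔ W (r + 1)
  surj : ∀ q : ℕ, ∀ x ∈ A.C q ⊓ W (c - q), A.D x ∈ W (c - q + 1) →
    ∃ w ∈ E q, x - ι w ∈ (A.C (q + 1) ⊓ W (c - q)).map A.D ⊔ W (c - q + 1)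
  inj : ∀ q : ℕ, ∀ w ∈ E q, ι w ∈ (A.C (q + 1) ⊓ W (c - q)).map A.D ⊔ W (c - q + 1) → w ∈ Z'
  comm : ∀ q : ℕ, ∀ w ∈ E q,
    A.D (ι w) - ι (d w) ∈ (A.C q ⊓ W (c - q + 1)).map A.D ⊔ W (c - q + 2)

section Conc

variable {A : Cx1 R M} {W : ℤ → Submodule R M} {c : ℤ} {E : ℕ → Submodule R M'}
  {Z' : Submodule R M'} {d : M' →ₗ[R] M'} {ι : M' →ₗ[R] M}

theorem Conc.push (h : Conc A W c E Z' d ι) {q : ℕ} {r t : ℤ} (hrt : r ≤ t)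
    (hc : c - q < r ∨ t ≤ c - q) {x : M} (hx : x ∈ A.C q ⊓ W r) (hD : A.D x ∈ W t) :
    ∃ y ∈ A.C (q + 1) ⊓ W r, x - A.D y ∈ W t := by
  have key : ∀ n : ℕ, r + n ≤ t → ∃ y ∈ A.C (q + 1) ⊓ W r, x - A.D y ∈ W (r + n) := by
    intro n
    induction n with
    | zero => exact fun _ => ⟨0, zero_mem _, by simpa using hx.2⟩
    | succ n ih =>
      intro hn
      push_cast at hn ⊢
      obtain ⟨y, hy, a⟩ := ih (by omega)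
      obtain ⟨u, hu, b⟩ := mem_map_sup.mp (h.conc q (r + n) (by omega) _
        ⟨sub_mem hx.1 (A.DC q y hy.1), a⟩ (by
          rw [map_sub]
          exact sub_mem (h.anti (by omega) hD) (h.ZW _ (A.DD _ y hy.1))))
      refine ⟨y + u, add_mem hy ⟨hu.1, h.anti (by omega) hu.2⟩, ?_⟩
      rw [← add_assoc]
      exact mem_of_eq b (by rw [map_add]; abel)
  obtain ⟨n, rfl⟩ := Int.le.dest hrt
  exact key n le_rfl

theorem Conc.kill (h : Conc A W c E Z' d ι) {q : ℕ} {x : M} (hx : x ∈ A.Cy q)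
    (hx' : x ∈ W (c - q + 1)) : ∃ y ∈ A.C (q + 1) ⊓ W (c - q + 1), x - A.D y ∈ A.Z := by
  obtain ⟨b, hb⟩ := h.hi
  obtain ⟨y, hy, a⟩ := h.push (t := max b (c - q + 1)) (le_max_right _ _) (.inl (by omega))
    ⟨hx.1, hx'⟩ (h.ZW _ hx.2)
  exact ⟨y, hy, hb q ⟨sub_mem hx.1 (A.DC q y hy.1), h.anti (le_max_left _ _) a⟩⟩

theorem Conc.lift (h : Conc A W c E Z' d ι) {q : ℕ} {x : M} (hx : x ∈ A.C q)
    (hD : A.D x ∈ W (c - q + 1)) :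
    ∃ y ∈ A.C (q + 1), ∃ w ∈ E q, x - A.D y - ι w ∈ W (c - q + 1) := by
  obtain ⟨a, ha⟩ := h.lo
  obtain ⟨y, hy, b⟩ := h.push (r := min a (c - q)) (min_le_right _ _) (.inr le_rfl)
    ⟨hx, h.anti (min_le_left _ _) (ha q hx)⟩ (h.anti (by omega) hD)
  obtain ⟨w, hw, e⟩ := h.surj q _ ⟨sub_mem hx (A.DC q y hy.1), b⟩ (by
    rw [map_sub]; exact sub_mem hD (h.ZW _ (A.DD _ y hy.1)))
  obtain ⟨u, hu, f⟩ := mem_map_sup.mp e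
  exact ⟨y + u, add_mem hy.1 hu.1, w, hw, mem_of_eq f (by rw [map_add]; abel)⟩

theorem Conc.comm' (h : Conc A W c E Z' d ι) {q : ℕ} {w : M'} (hw : w ∈ E (q + 1)) :
    ∃ y ∈ A.C (q + 1) ⊓ W (c - q), A.D (ι w) - ι (d w) - A.D y ∈ W (c - q + 1) := by
  have := mem_map_sup.mp (h.comm (q + 1) w hw)
  rwa [show c - ((q + 1 : ℕ) : ℤ) + 1 = c - q by push_cast; ring,
    show c - ((q + 1 : ℕ) : ℤ) + 2 = c - q + 1 by push_cast; ring] at this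

theorem Conc.d_mem (h : Conc A W c E Z' d ι) {q : ℕ} {x : M} {w : M'} (hx : x ∈ A.Cy q)
    (hw : w ∈ E q) (hxw : x - ι w ∈ W (c - q + 1)) : d w ∈ Z' := by
  cases q with
  | zero => exact h.d0 w hw
  | succ q =>
    rw [show c - ((q + 1 : ℕ) : ℤ) + 1 = c - q by push_cast; ring] at hxw
    obtain ⟨y, hy, a⟩ := h.comm' hw
    refine h.inj q _ (h.dE q w hw) (mem_map_sup.mpr ⟨-(x - ι w) - y,
      sub_mem (neg_mem ⟨sub_mem hx.1 (h.iC _ w hw).1, hxw⟩) hy, ?_⟩)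
    refine mem_of_eq (sub_mem (h.ZW _ (show A.D x ∈ A.Z from hx.2)) a) ?_
    rw [map_sub, map_neg, map_sub]; abel

theorem Conc.dd (h : Conc A W c E Z' d ι) {q : ℕ} {w : M'} (hw : w ∈ E q) : d (d w) ∈ Z' := by
  cases q with
  | zero => exact h.dZ _ (h.d0 w hw)
  | succ q =>
    obtain ⟨y, hy, a⟩ := h.comm' hw
    exact h.d_mem (A.D_mem_Cy (sub_mem (h.iC _ w hw).1 hy.1)) (h.dE q w hw)
      (mem_of_eq a (by rw [map_sub]; abel))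

theorem Conc.down (h : Conc A W c E Z' d ι) {q : ℕ} {x : M} (hx : x ∈ A.Cy q) :
    ∃ x' ∈ A.Cy q, ∃ w ∈ E q, d w ∈ Z' ∧ x' - ι w ∈ W (c - q + 1) ∧ x - x' ∈ A.Bd q := by
  obtain ⟨y, hy, w, hw, a⟩ := h.lift hx.1 (h.ZW _ hx.2)
  have b := sub_mem hx (A.D_mem_Cy hy)
  exact ⟨_, b, w, hw, h.d_mem b hw a, a, mem_of_eq (A.D_mem_Bd hy) (by abel)⟩

theorem Conc.up (h : Conc A W c E Z' d ι) {q : ℕ} {w : M'} (hw : w ∈ E q) (hd : d w ∈ Z') :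
    ∃ x ∈ A.Cy q, x - ι w ∈ W (c - q + 1) := by
  cases q with
  | zero => exact ⟨ι w, ⟨(h.iC _ w hw).1, A.D0 _ (h.iC _ w hw).1⟩, by simp⟩
  | succ q =>
    rw [show c - ((q + 1 : ℕ) : ℤ) + 1 = c - q by push_cast; ring]
    obtain ⟨y, hy, a⟩ := h.comm' hw
    have b := sub_mem (h.iC _ w hw).1 hy.1
    obtain ⟨u, hu, e⟩ := h.kill (A.D_mem_Cy b)
      (mem_of_eq (add_mem a (h.ZW _ (h.iZ _ hd))) (by rw [map_sub]; abel))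
    refine ⟨ι w - y - u, Cx1.mem_Cy.mpr ⟨sub_mem b hu.1, mem_of_eq e (map_sub _ _ _)⟩, ?_⟩
    exact mem_of_eq (neg_mem (add_mem hy.2 (h.anti (by omega) hu.2))) (by abel)

theorem Conc.bd_iff (h : Conc A W c E Z' d ι) {q : ℕ} {x : M} {w : M'} (hx : x ∈ A.Cy q)
    (hw : w ∈ E q) (hxw : x - ι w ∈ W (c - q + 1)) :
    x ∈ A.Bd q ↔ w ∈ (E (q + 1)).map d ⊔ Z' := by
  constructor
  · intro hb
    obtain ⟨y, hy, a⟩ := Cx1.mem_Bd.mp hb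
    have e : c - ((q + 1 : ℕ) : ℤ) + 1 = c - q := by push_cast; ring
    have hxW : x ∈ W (c - q) :=
      mem_of_eq (add_mem (h.anti (by omega) hxw) (h.iC q w hw).2) (by abel)
    obtain ⟨y', hy', v, hv, b⟩ := h.lift hy (by
      rw [e]; exact mem_of_eq (sub_mem hxW (h.ZW _ a)) (by abel))
    rw [e] at b
    obtain ⟨u, hu, f⟩ := h.comm' hv
    refine mem_map_sup.mpr ⟨v, hv, h.inj q _ (sub_mem hw (h.dE q v hv)) (mem_map_sup.mpr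
      ⟨y - A.D y' - ι v + u,
        add_mem ⟨sub_mem (sub_mem hy (A.DC _ _ hy')) (h.iC _ v hv).1, b⟩ hu, ?_⟩)⟩
    refine mem_of_eq (add_mem (sub_mem f hxw) (h.ZW _ (add_mem a (A.DD _ _ hy')))) ?_
    rw [map_add, map_sub, map_sub, map_sub]; abel
  · intro hb
    obtain ⟨v, hv, a⟩ := mem_map_sup.mp hb
    obtain ⟨u, hu, f⟩ := h.comm' hv
    have b := sub_mem (h.iC _ v hv).1 hu.1
    obtain ⟨y, hy, e⟩ := h.kill (sub_mem hx (A.D_mem_Cy b)) (by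
      refine mem_of_eq (add_mem (sub_mem hxw f) (h.ZW _ (h.iZ _ a))) ?_
      rw [map_sub, map_sub]; abel)
    exact Cx1.mem_Bd.mpr ⟨ι v - u + y, add_mem b hy.1, mem_of_eq e (by rw [map_add]; abel)⟩

end Conc

/-- Transfer of hard Lefschetz from the first page. -/
theorem Cx.HL_of_conc (A : Cx R M) (B : Cx R M') (W : ℤ → Submodule R M) (ι : M' →ₗ[R] M)
    (h : ∀ p : ℕ, Conc (A.row p) W p (B.C p) B.Z B.D ι)
    (LW : ∀ p q r, ∀ x ∈ A.C (p + 1) (q + 1) ⊓ W r, A.L x ∈ W r)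
    (hL : ∀ p q : ℕ, ∀ w ∈ B.C (p + 1) (q + 1), A.L (ι w) - ι (B.L w) ∈
      (A.C p (q + 1) ⊓ W ((p : ℤ) - q)).map A.D ⊔ W ((p : ℤ) - q + 1)) (d : ℕ) :
    A.HL d ↔ B.HL d := by
  let G : ℕ → ℕ → AddSubgroup (M × M') := fun p q =>
    { carrier := {z | z.1 ∈ (A.row p).Cy q ∧ z.2 ∈ (B.row p).Cy q ∧
        z.1 - ι z.2 ∈ W ((p : ℤ) - q + 1)}
      zero_mem' := ⟨zero_mem _, zero_mem _, by simp⟩
      add_mem' := fun ha hb => ⟨add_mem ha.1 hb.1, add_mem ha.2.1 hb.2.1,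
        mem_of_eq (add_mem ha.2.2 hb.2.2) (by rw [Prod.fst_add, Prod.snd_add, map_add]; abel)⟩
      neg_mem' := fun ha => ⟨neg_mem ha.1, neg_mem ha.2.1,
        mem_of_eq (neg_mem ha.2.2) (by rw [Prod.fst_neg, Prod.snd_neg, map_neg]; abel)⟩ }
  refine A.HL_of_rel B G (fun p q z hz => ⟨hz.1, hz.2.1⟩) (fun p q x hx => ?_)
    (fun p q y hy => ?_) (fun p q z hz => (h p).bd_iff hz.1 hz.2.1.1 hz.2.2) (fun p q => ?_) d
  · obtain ⟨x', a, w, b, e, f, g⟩ := (h p).down hx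
    exact ⟨(x', w), ⟨a, ⟨b, e⟩, f⟩, g⟩
  · obtain ⟨x, a, b⟩ := (h p).up hy.1 hy.2
    exact ⟨(x, y), ⟨a, hy, b⟩, by simp⟩
  · refine ⟨1, fun z hz => ?_⟩
    obtain ⟨a, b, e⟩ := hz
    rw [show ((p + 1 : ℕ) : ℤ) - ((q + 1 : ℕ) : ℤ) + 1 = (p : ℤ) - q + 1 by push_cast; ring] at e
    obtain ⟨y, hy, f⟩ := mem_map_sup.mp (hL p q z.2 b.1)
    have g := LW p q _ _ ⟨sub_mem a.1 ((h (p + 1)).iC _ _ b.1).1, e⟩
    refine ⟨(A.L z.1 - A.D y, B.L z.2), ⟨sub_mem (A.L_Cy a) ((A.row p).D_mem_Cy hy.1), B.L_Cy b,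
      mem_of_eq (add_mem g f) (by
        change A.L z.1 - A.D y - ι (B.L z.2) = _
        rw [map_sub]; abel)⟩,
      mem_of_eq ((A.row p).D_mem_Bd hy.1) (sub_sub_cancel _ _), by simp⟩

end KH
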