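import Pool.Agent.Lib.MP_e9c0f3_ag.K2.Cube

/-! The double complex resolves the cubical complex of the special fibre. -/

open ExteriorAlgebra KH
open scoped Classical

noncomputable section

namespace K2

variable {N : Type} [AddCommGroup N] [Module ℝ N] {De : Finset (Finset N)} {t : Module.Dual ℝ N}
  {d : ℕ} {hh : N → ℝ} {φ : Finset N → Module.Dual ℝ (Po N)} {μ : Finset N → Module.Dual ℝ N}

/-- A chosen vertex at height one. -/
def augV (t : Module.Dual ℝ N) (S : Finset N) : N :=
  if h : (fp t S).Nonempty then h.choose else 0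

theorem augV_mem {S : Finset N} (h : (fp t S).Nonempty) : augV t S ∈ fp t S := by
  rw [augV, dif_pos h]
  exact h.choose_spec

/-- The contracting homotopy: multiplication by a vertex at height one. -/
def augS (t : Module.Dual ℝ N) : Kc N →ₗ[ℝ] Kc N :=
  Finsupp.lsum ℝ fun i => Finsupp.lsingle i ∘ₗ LinearMap.mulLeft ℝ (ev (augV t i.1))

theorem augS_single (i : Ix N) (w : Om N) :
    augS t (Finsupp.single i w) = Finsupp.single i (ev (augV t i.1) * w) := by
  rw [augS, Finsupp.lsum_single]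
  rfl

theorem augS_Cub {p q : ℕ} {z : Kc N} (hz : z ∈ Cub De t p q) :
    augS t z ∈ Cub De t (p + 1) q := by
  refine map_mem_of_Pw (augS t) (fun i a ha => ?_) hz
  rw [augS_single]
  refine single_mem_Pw ?_
  by_cases hi : Ok De t i ∧ (i.2 \ i.1).card = q
  · rw [if_pos hi] at ha ⊢
    exact ev_Co (hi.1.1 (Finset.mem_filter.1 (augV_mem hi.1.2.2)).1) ha
  · rw [if_neg hi] at ha ⊢
    rw [(Submodule.mem_bot ℝ).1 ha, mul_zero]
    exact Submodule.zero_mem _

theorem augS_ZK {z : Kc N} (hz : z ∈ ZK De t) : augS t z ∈ ZK De t := by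
  refine map_mem_of_Pw (augS t) (fun i a ha => ?_) hz
  rw [augS_single]
  refine single_mem_Pw ?_
  by_cases hi : Ok De t i
  · rw [if_pos hi] at ha ⊢
    exact mul_mem_Vp _ ha
  · rw [if_neg hi] at ha ⊢
    rw [(Submodule.mem_bot ℝ).1 ha, mul_zero]
    exact Submodule.zero_mem _

theorem augS_VV {k : ℕ} {z : Kc N} (hz : z ∈ VV De t k) : augS t z ∈ VV De t (k + 1) := by
  refine map_mem_of_Pw (augS t) (fun i a ha => ?_) hz
  rw [augS_single]
  refine single_mem_Pw ?_
  by_cases hi : Ok De t i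
  · rw [if_pos hi] at ha ⊢
    obtain ⟨b, hb, c, hc, rfl⟩ := Submodule.mem_sup.1 ha
    rw [mul_add]
    exact Submodule.add_mem_sup (ev_mul_Vp (augV_mem hi.2.2) hb) (mul_mem_Vp _ hc)
  · rw [if_neg hi] at ha ⊢
    rw [(Submodule.mem_bot ℝ).1 ha, mul_zero]
    exact Submodule.zero_mem _

theorem augS_hom {p q : ℕ} {z : Kc N} (hz : z ∈ Cub De t p q) :
    co (kx t) (augS t z) = z - augS t (co (kx t) z) := by
  have key : (co (kx t) ∘ₗ augS t + augS t ∘ₗ co (kx t) - LinearMap.id : Kc N →ₗ[ℝ] Kc N) z ∈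
      (⊥ : Submodule ℝ (Kc N)) := by
    refine map_mem_of_Pw _ (fun i a ha => ?_) hz
    rw [Submodule.mem_bot]
    by_cases hi : Ok De t i ∧ (i.2 \ i.1).card = q
    · have h1 : t (augV t i.1) = 1 := (Finset.mem_filter.1 (augV_mem hi.1.2.2)).2
      rw [LinearMap.sub_apply, LinearMap.add_apply, LinearMap.comp_apply, LinearMap.comp_apply,
        LinearMap.id_apply, augS_single, co_single, co_single, augS_single, kx_ev_mul, h1,
        one_smul, ← Finsupp.single_add, sub_add_cancel, sub_self]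
    · rw [if_neg hi] at ha
      rw [(Submodule.mem_bot ℝ).1 ha, Finsupp.single_zero, map_zero]
  rw [Submodule.mem_bot, LinearMap.sub_apply, LinearMap.add_apply, LinearMap.comp_apply,
    LinearMap.comp_apply, LinearMap.id_apply, sub_eq_zero] at key
  exact eq_sub_of_add_eq key

theorem aug_kk (z : Kc N) : co (kx t) (co (kx t) z) = 0 := by
  ext1 i
  rw [co_apply, co_apply, kx_kx]
  rfl

theorem aug_apply (x : Tc N) : aug t x = co (kx t) (x 0) := rfl

/-- The recursive solution of the equation `DT w = x` with given first component. -/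
def augF (t : Module.Dual ℝ N) (x : ℕ → Kc N) (a : Kc N) : ℕ → Kc N
  | 0 => a
  | j + 1 => augS t (x j - bd (augF t x a j))

theorem aug_solve (h : Pre De t) (p n : ℕ) (x : ℕ → Kc N) (a : Kc N)
    (hx : ∀ j, j < n → x j ∈ Cub De t (p + j + 1) (n - (j + 1)) ⊓ VV De t (j + 1))
    (hx0 : ∀ j, n ≤ j → x j = 0)
    (ha : a ∈ Cub De t (p + 1) n ⊓ VV De t 1)
    (h0 : co (kx t) (x 0 - bd a) ∈ ZK De t)
    (hD : ∀ j, bd (x j) + co (kx t) (x (j + 1)) ∈ ZK De t) :
    ∃ w ∈ TC De t p n, w 0 = a ∧ ∀ j, x j - DT t w j ∈ ZK De t := by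
  have step : ∀ j, j < n → augF t x a j ∈ Cub De t (p + j + 1) (n - j) ⊓ VV De t (j + 1) →
      x j - bd (augF t x a j) ∈ Cub De t (p + j + 1) (n - (j + 1)) ⊓ VV De t (j + 1) := by
    intro j hj hf
    refine sub_mem (hx j hj) ⟨bd_Cub h.fan ?_, bd_VV h.fan hf.2⟩
    rw [show n - (j + 1) + 1 = n - j by omega]
    exact hf.1
  have hle : ∀ j, j ≤ n → augF t x a j ∈ Cub De t (p + j + 1) (n - j) ⊓ VV De t (j + 1) := by
    intro j
    induction j with
    | zero => exact fun _ => ha
    | succ j ih =>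
      intro hj
      have := step j hj (ih (by omega))
      exact ⟨augS_Cub this.1, augS_VV this.2⟩
  have hge : ∀ j, n ≤ j → x j - bd (augF t x a j) = 0 := by
    intro j hj
    induction j, hj using Nat.le_induction with
    | base =>
      have := (hle n le_rfl).1
      rw [Nat.sub_self] at this
      rw [hx0 n le_rfl, bd_Cub0 this, sub_zero]
    | succ j hj ih => rw [hx0 _ (by omega), augF, ih, map_zero, map_zero, sub_zero]
  have hgt : ∀ j, n < j → augF t x a j = 0 := by
    intro j hj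
    obtain ⟨j, rfl⟩ : ∃ i, j = i + 1 := ⟨j - 1, by omega⟩
    rw [augF, hge j (by omega), map_zero]
  have hom : ∀ j, co (kx t) (augF t x a (j + 1)) =
      x j - bd (augF t x a j) - augS t (co (kx t) (x j - bd (augF t x a j))) := by
    intro j
    rw [augF]
    by_cases hj : j < n
    · exact augS_hom (step j hj (hle j hj.le)).1
    · rw [hge j (by omega)]
      simp only [map_zero, sub_zero]
  have hk : ∀ j, co (kx t) (x j - bd (augF t x a j)) ∈ ZK De t := by
    intro j
    induction j with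
    | zero => exact h0
    | succ j ih =>
      refine mem_of_eq (sub_mem (hD j) (bd_ZK h.fan (augS_ZK ih))) ?_
      have e := bd_kx t (augF t x a (j + 1))
      rw [hom j, map_sub, map_sub, bd_bd, sub_zero] at e
      rw [map_sub (co (kx t)) (x (j + 1)), sub_eq_add_neg (co (kx t) (x (j + 1))), ← e]
      abel
  let w : Tc N := Finsupp.onFinset (Finset.range (n + 1)) (augF t x a) fun j hj => by
    rw [Finset.mem_range]
    by_contra hc
    exact hj (hgt j (by omega))
  have hw : ∀ j, w j = augF t x a j := fun _ => rfl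
  refine ⟨w, Submodule.mem_sup_left (mem_Pw.2 fun j => ?_), rfl, fun j => ?_⟩
  · rw [hw]
    by_cases hj : j ≤ n
    · rw [if_pos hj]
      exact hle j hj
    · rw [if_neg hj, hgt j (by omega)]
      exact Submodule.zero_mem _
  · rw [DT_apply, hw, hw, hom]
    exact mem_of_eq (augS_ZK (hk j)) (by abel)

theorem aug_mor (h : Pre De t) (hμ : Loc De hh μ) (p : ℕ) :
    Mor ((cxT h hμ).row p) ((cxK h hμ).row p) (aug t).toAddMonoidHom := by
  refine ⟨fun q x hx => ?_, fun x hx => kx_ZK h (mem_Pw.1 hx 0), fun q => ⟨-1, fun x _ => ?_⟩⟩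
  · obtain ⟨a, ha, b, hb, rfl⟩ := Submodule.mem_sup.1 (show x ∈ TC De t p q from hx)
    have h1 := mem_Pw.1 ha 0
    rw [if_pos (Nat.zero_le q)] at h1
    change co (kx t) (a 0 + b 0) ∈ KC De t p q
    rw [map_add]
    exact Submodule.add_mem_sup ⟨kx_Cub t h1.1, aug_kk _⟩ (kx_ZK h (mem_Pw.1 hb 0))
  · change co (kx t) (DT t x 0) - (-1 : ℤˣ) • bd (co (kx t) (x 0)) ∈ ZK De t
    rw [DT_apply, map_add, aug_kk, add_zero, bd_kx, Units.neg_smul, one_smul, neg_neg, sub_self]
    exact Submodule.zero_mem _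

theorem aug_qi (h : Pre De t) (hμ : Loc De hh μ) (p q : ℕ) :
    QI ((cxT h hμ).row p) ((cxK h hμ).row p) (aug t).toAddMonoidHom q := by
  constructor
  · intro x hx hb
    obtain ⟨y, hy, hxy⟩ := Cx1.mem_Bd.1 hb
    obtain ⟨y1, hy1, y2, hy2, rfl⟩ := Submodule.mem_sup.1 (show y ∈ KC De t p (q + 1) from hy)
    obtain ⟨a, ha, b, hb', rfl⟩ := Submodule.mem_sup.1 (show x ∈ TC De t p q from hx.1)
    have hb0 : ∀ j, b j ∈ ZK De t := mem_Pw.1 hb'
    have hD : DT t (a + b) ∈ ZT De t := hx.2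
    have hxy' : co (kx t) (a 0 + b 0) - bd (y1 + y2) ∈ ZK De t := hxy
    have hk : co (kx t) y1 = 0 := hy1.2
    obtain ⟨w, hw, -, hw'⟩ := aug_solve h p (q + 1) a (-augS t y1)
      (fun j hj => by
        have := mem_Pw.1 ha j
        rw [if_pos (by omega)] at this
        rwa [Nat.add_sub_add_right])
      (fun j hj => by
        have := mem_Pw.1 ha j
        rwa [if_neg (by omega), Submodule.mem_bot] at this)
      (neg_mem ⟨augS_Cub hy1.1, augS_VV (Cub_le_VV _ _ hy1.1)⟩)
      (by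
        have e := bd_kx t (augS t y1)
        rw [augS_hom hy1.1, hk, map_zero, sub_zero] at e
        refine mem_of_eq (add_mem (sub_mem hxy' (kx_ZK h (hb0 0))) (bd_ZK h.fan hy2)) ?_
        rw [map_neg, sub_neg_eq_add, map_add, map_add, map_add, e]
        abel)
      (fun j => by
        have h1 := mem_Pw.1 hD j
        rw [DT_apply, Finsupp.add_apply, Finsupp.add_apply, map_add, map_add] at h1
        exact mem_of_eq (sub_mem (sub_mem h1 (bd_ZK h.fan (hb0 j))) (kx_ZK h (hb0 (j + 1))))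
          (by abel))
    refine Cx1.mem_Bd.2 ⟨w, hw, mem_Pw.2 fun j => ?_⟩
    change (a j + b j) - DT t w j ∈ ZK De t
    exact mem_of_eq (add_mem (hw' j) (hb0 j)) (by abel)
  · intro y hy
    obtain ⟨y1, hy1, y2, hy2, rfl⟩ := Submodule.mem_sup.1 (show y ∈ KC De t p q from hy.1)
    have hD : bd (y1 + y2) ∈ ZK De t := hy.2
    have hk : co (kx t) y1 = 0 := hy1.2
    have e0 : co (kx t) (augS t y1) = y1 := by rw [augS_hom hy1.1, hk, map_zero, sub_zero]
    obtain ⟨w, hw, hw0, hw'⟩ := aug_solve h p q (fun _ => 0) (augS t y1)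
      (fun _ _ => Submodule.zero_mem _) (fun _ _ => rfl)
      ⟨augS_Cub hy1.1, augS_VV (Cub_le_VV _ _ hy1.1)⟩
      (by
        have e := bd_kx t (augS t y1)
        rw [e0] at e
        refine mem_of_eq (sub_mem hD (bd_ZK h.fan hy2)) ?_
        rw [zero_sub, map_neg, ← e, map_add]
        abel)
      (fun j => by
        rw [map_zero, map_zero, add_zero]
        exact Submodule.zero_mem _)
    refine ⟨w, ⟨hw, mem_Pw.2 fun j => ?_⟩, Cx1.Z_le_Bd _ q ?_⟩
    · have := neg_mem (hw' j)
      rwa [zero_sub, neg_neg] at this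
    · change y1 + y2 - co (kx t) (w 0) ∈ ZK De t
      rw [hw0, e0, add_sub_cancel_left]
      exact hy2

theorem aug_HL (h : Pre De t) (hμ : Loc De hh μ) (d : ℕ) :
    (cxT h hμ).HL d ↔ (cxK h hμ).HL d := by
  refine Cx.HL_of_qi _ _ (aug t).toAddMonoidHom (aug_mor h hμ) (aug_qi h hμ)
    (fun p q => ⟨1, fun x _ => ?_⟩) d
  have e : co (kx t) (LK μ (x 0)) - (1 : ℤˣ) • LK μ (co (kx t) (x 0)) = 0 := by
    rw [kx_LK, one_smul, sub_self]
  exact mem_of_eq (Submodule.zero_mem _) e

end K2
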