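import Pool.Agent.Lib.MP_e9c0f3_ag.K2.Yhom

/-! Local vanishing for the cubical complex of the special fibre. -/

open ExteriorAlgebra KH
open scoped Classical

noncomputable section

namespace K2

variable {N : Type} [AddCommGroup N] [Module ℝ N] {De : Finset (Finset N)} {t : Module.Dual ℝ N}
  {d : ℕ} {hh : N → ℝ} {φ : Finset N → Module.Dual ℝ (Po N)} {μ : Finset N → Module.Dual ℝ N}

/-- Chains on the cubes with bottom face `γ` whose top face contains `δ`. -/
def BC (De : Finset (Finset N)) (δ γ : Finset N) (P q : ℕ) : Submodule ℝ (Kc N) :=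
  Pw fun i => if i.1 = γ ∧ δ ⊆ i.2 ∧ i.2 ∈ De ∧ (i.2 \ γ).card = q then
    Co De i.2 (i.2 \ γ) P else ⊥

/-- Chains that lie in the ideal of `S` on those cubes and are arbitrary elsewhere. -/
def BN (δ γ S : Finset N) : Submodule ℝ (Kc N) :=
  Pw fun i => if i.1 = γ ∧ δ ⊆ i.2 then Jd S else ⊤

/-- Move the components with bottom face `γ` to the bottom face `γ'`. -/
def bmSh (γ γ' : Finset N) (f : Om N →ₗ[ℝ] Om N) : Kc N →ₗ[ℝ] Kc N :=
  Finsupp.lsum ℝ fun i => if i.1 = γ then Finsupp.lsingle (γ', i.2) ∘ₗ f else 0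

theorem bmSh_eq (γ γ' η : Finset N) (f : Om N →ₗ[ℝ] Om N) (w : Om N) :
    bmSh γ γ' f (Finsupp.single (γ, η) w) = Finsupp.single (γ', η) (f w) := by
  simp [bmSh]

theorem bmSh_ne {γ g : Finset N} (h : g ≠ γ) (γ' η : Finset N) (f : Om N →ₗ[ℝ] Om N) (w : Om N) :
    bmSh γ γ' f (Finsupp.single (g, η) w) = 0 := by
  simp [bmSh, h]

omit [AddCommGroup N] [Module ℝ N] in
theorem bm_insert_ne {γ η : Finset N} {y : N} (h : y ∈ η \ γ) : insert y γ ≠ γ :=
  Finset.insert_ne_self.2 (Finset.mem_sdiff.1 h).2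

theorem bmSh_bd (γ γ' η : Finset N) (f : Om N →ₗ[ℝ] Om N) (w : Om N) :
    bmSh γ γ' f (bd (Finsupp.single (γ, η) w)) =
      ∑ y ∈ η \ γ, Finsupp.single (γ', η.erase y) (f (cx y w)) := by
  rw [bd_single, map_sum]
  exact Finset.sum_congr rfl fun y hy => by
    rw [map_sub, bmSh_eq, bmSh_ne (bm_insert_ne hy), sub_zero]

theorem bmSh_id (γ : Finset N) (z : Kc N) (i : Ix N) :
    bmSh γ γ LinearMap.id z i = if i.1 = γ then z i else 0 := by
  induction z using Finsupp.induction_linear with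
  | zero => simp
  | add a b ha hb => rw [map_add, Finsupp.add_apply, ha, hb]; split_ifs <;> simp
  | single j w =>
    obtain ⟨g, η⟩ := j
    by_cases e : g = γ
    · subst e
      rw [bmSh_eq, LinearMap.id_apply]
      split_ifs with h
      · rfl
      · exact Finsupp.single_eq_of_ne fun e => h (by rw [e])
    · rw [bmSh_ne e, Finsupp.zero_apply]
      split_ifs with h
      · exact (Finsupp.single_eq_of_ne fun e' => e (by rw [← h, e'])).symm
      · rfl

theorem bm_BN {δ γ S g η : Finset N} {w : Om N} (h : g = γ → δ ⊆ η → w ∈ Jd S) :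
    Finsupp.single (g, η) w ∈ BN δ γ S := by
  refine single_mem_Pw ?_
  split_ifs with e
  · exact h e.1 e.2
  · exact Submodule.mem_top

theorem bm_mem_BN {δ γ S : Finset N} {z : Kc N} :
    z ∈ BN δ γ S ↔ ∀ η, δ ⊆ η → z (γ, η) ∈ Jd S := by
  refine mem_Pw.trans ⟨fun h η hη => by simpa [hη] using h (γ, η), fun h i => ?_⟩
  split_ifs with e
  · obtain ⟨g, η⟩ := i
    obtain rfl : g = γ := e.1
    exact h η e.2
  · exact Submodule.mem_top

theorem bm_of_BC {M : Type} [AddCommGroup M] [Module ℝ M] {δ γ : Finset N} {P q : ℕ}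
    (f : Kc N →ₗ[ℝ] M) {T : Submodule ℝ M}
    (h : ∀ η, δ ⊆ η → η ∈ De → (η \ γ).card = q → ∀ w ∈ Co De η (η \ γ) P,
      f (Finsupp.single (γ, η) w) ∈ T) {z : Kc N} (hz : z ∈ BC De δ γ P q) : f z ∈ T := by
  refine map_mem_of_Pw f (fun i w hw => ?_) hz
  obtain ⟨g, η⟩ := i
  split_ifs at hw with e
  · obtain rfl : g = γ := e.1
    exact h η e.2.1 e.2.2.1 e.2.2.2 w hw
  · rw [(Submodule.mem_bot ℝ).1 hw, Finsupp.single_zero, map_zero]
    exact T.zero_mem

theorem bm_BC {δ γ η : Finset N} {P q : ℕ} {w : Om N} (h1 : δ ⊆ η) (h2 : η ∈ De)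
    (h3 : (η \ γ).card = q) (hw : w ∈ Co De η (η \ γ) P) :
    Finsupp.single (γ, η) w ∈ BC De δ γ P q :=
  single_mem_Pw (by rw [if_pos ⟨rfl, h1, h2, h3⟩]; exact hw)

theorem bm_zero (h : Fn De) {δ γ : Finset N} (hδ : δ ∉ De) {P q : ℕ} {x : Kc N}
    (hx : x ∈ BC De δ γ P q) : x = 0 :=
  (Submodule.mem_bot ℝ).1 (bm_of_BC LinearMap.id
    (fun η h1 h2 _ _ _ => absurd (h.down η h2 δ h1) hδ) hx)

/-- Chains whose bottom faces satisfy `Q`. -/
def bmUp (Q : Finset N → Prop) : Submodule ℝ (Kc N) := Pw fun i => if Q i.1 then ⊤ else ⊥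

theorem bmUp_single {Q : Finset N → Prop} {g : Finset N} (h : Q g) (η : Finset N) (w : Om N) :
    Finsupp.single (g, η) w ∈ bmUp Q := single_mem_Pw (by rw [if_pos h]; exact Submodule.mem_top)

theorem bmUp_apply {Q : Finset N → Prop} {z : Kc N} (hz : z ∈ bmUp Q) {i : Ix N} (h : ¬ Q i.1) :
    z i = 0 := by
  simpa [h] using mem_Pw.1 hz i

theorem bmUp_bd {Q : Finset N → Prop} (hQ : ∀ g y, Q g → Q (insert y g)) {z : Kc N}
    (hz : z ∈ bmUp Q) : bd z ∈ bmUp Q := by
  refine map_mem_of_Pw bd (fun i w hw => ?_) hz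
  obtain ⟨g, η⟩ := i
  split_ifs at hw with e
  · rw [bd_single]
    exact sum_mem fun y _ => sub_mem (bmUp_single e _ _) (bmUp_single (hQ g y e) _ _)
  · rw [(Submodule.mem_bot ℝ).1 hw, Finsupp.single_zero, map_zero]
    exact Submodule.zero_mem _

theorem bm_YC_apply {δ : Finset N} {P q : ℕ} {z : Kc N} (hz : z ∈ YC De δ P q) {i : Ix N}
    (h : ¬ OkY De δ i) : z i = 0 := by
  simpa [h] using mem_Pw.1 hz i

theorem bm_BC_YC {δ γ : Finset N} (hγ : δ ⊆ γ) {P q : ℕ} {z : Kc N} (hz : z ∈ BC De γ γ P q) :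
    z ∈ YC De δ P q :=
  bm_of_BC LinearMap.id (fun η h1 h2 h3 w hw => single_mem_Pw (by
    rw [if_pos ⟨⟨hγ, h1, h2⟩, h3⟩]; exact hw)) hz

theorem bm_YC_BC {δ : Finset N} (γ : Finset N) {P q : ℕ} {z : Kc N} (hz : z ∈ YC De δ P q) :
    bmSh γ γ LinearMap.id z ∈ BC De γ γ P q := by
  refine map_mem_of_Pw _ (fun i w hw => ?_) hz
  obtain ⟨g, η⟩ := i
  split_ifs at hw with e
  · by_cases e' : g = γ
    · subst e'
      rw [bmSh_eq]
      exact bm_BC e.1.2.1 e.1.2.2 e.2 hw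
    · rw [bmSh_ne e']
      exact Submodule.zero_mem _
  · rw [(Submodule.mem_bot ℝ).1 hw, Finsupp.single_zero, map_zero]
    exact Submodule.zero_mem _

theorem bm_low {γ : Finset N} {z : Kc N} (h0 : ∀ η, z (γ, η) = 0)
    (h1 : ∀ i : Ix N, i.1.card < γ.card → z i ∈ Jd i.1) : bd z ∈ BN γ γ γ := by
  refine map_mem_of_Pw (G := fun i : Ix N => if i.1 = γ then ⊥ else
    if i.1.card < γ.card then Jd i.1 else ⊤) bd (fun i w hw => ?_) (mem_Pw.2 fun i => ?_)
  · obtain ⟨g, η⟩ := i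
    by_cases e : g = γ
    · rw [if_pos e] at hw
      rw [(Submodule.mem_bot ℝ).1 hw, Finsupp.single_zero, map_zero]
      exact Submodule.zero_mem _
    rw [if_neg e] at hw
    rw [bd_single]
    refine sum_mem fun y hy => sub_mem (bm_BN fun e' => absurd e' e) (bm_BN fun e' _ => ?_)
    have h2 : g ⊂ γ := e' ▸ Finset.ssubset_insert (Finset.mem_sdiff.1 hy).2
    rw [if_pos (Finset.card_lt_card h2)] at hw
    exact Vp_mono h2.subset 1 (cx_Vp y hw)
  · obtain ⟨g, η⟩ := i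
    split_ifs with e e'
    · obtain rfl : g = γ := e
      exact h0 η
    · exact h1 _ e'
    · exact Submodule.mem_top

/-- A chain whose boundary is null outside an upper set of faces is corrected to a cycle. -/
theorem bm_ext (h : Fn De) {δ : Finset N} {P q : ℕ}
    (ih : ∀ γ ∈ De, δ ⊂ γ → ∀ x ∈ BC De γ γ P q, bd x ∈ BN γ γ γ →
      x ∈ (BC De γ γ P (q + 1)).map bd ⊔ BN γ γ γ) (T : Finset (Finset N)) :
    (∀ g ∈ T, g ∈ De ∧ δ ⊂ g) → (∀ g ∈ T, ∀ g' ∈ De, g ⊆ g' → g' ∈ T) →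
    ∀ x ∈ YC De δ P (q + 1), (∀ i : Ix N, i.1 ∉ T → bd x i ∈ Jd i.1) →
      ∃ x' ∈ YC De δ P (q + 1), x - x' ∈ bmUp (δ ⊂ ·) ∧ bd x' ∈ YZ De δ := by
  induction T using Finset.strongInduction with
  | H T IH =>
    intro h1 h2 x hx hb
    have hu := bd_YC h hx
    rcases T.eq_empty_or_nonempty with rfl | hT
    · refine ⟨x, hx, by rw [sub_self]; exact Submodule.zero_mem _, mem_Pw.2 fun i => ?_⟩
      split_ifs with e
      · exact hb i (Finset.notMem_empty _)
      · exact bm_YC_apply hu e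
    obtain ⟨γ, hγ, hm⟩ := T.exists_min_image Finset.card hT
    have h3 : bd (bmSh γ γ LinearMap.id (bd x)) ∈ BN γ γ γ := by
      have h4 := bm_low (γ := γ) (z := bd x - bmSh γ γ LinearMap.id (bd x))
        (fun η => by rw [Finsupp.sub_apply, bmSh_id, if_pos rfl, sub_self]) fun i hi => by
          rw [Finsupp.sub_apply, bmSh_id, if_neg fun e => by rw [e] at hi; omega, sub_zero]
          exact hb i fun hi' => (hm _ hi').not_gt hi
      rwa [map_sub, bd_bd, zero_sub, neg_mem_iff] at h4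
    obtain ⟨v, hv, h4⟩ := mem_map_sup.1 (ih γ (h1 γ hγ).1 (h1 γ hγ).2 _ (bm_YC_BC γ hu) h3)
    have hv' := bm_BC_YC (h1 γ hγ).2.subset hv
    have h5 : ∀ Q : Finset N → Prop, Q γ → v ∈ bmUp Q := fun Q hQ =>
      bm_of_BC LinearMap.id (fun η _ _ _ w _ => bmUp_single hQ η w) hv
    obtain ⟨x', hx', h6, h7⟩ := IH (T.erase γ) (Finset.erase_ssubset hγ)
      (fun g hg => h1 g (Finset.mem_of_mem_erase hg)) (fun g hg g' hg' e => by
        obtain ⟨e1, e2⟩ := Finset.mem_erase.1 hg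
        refine Finset.mem_erase.2 ⟨?_, h2 g e2 g' hg' e⟩
        rintro rfl
        exact e1 (Finset.eq_of_subset_of_card_le e (hm g e2))) (x - v) (sub_mem hx hv') (by
      rintro ⟨g, η⟩ hi
      by_cases e : OkY De δ (g, η)
      · rw [map_sub, Finsupp.sub_apply]
        by_cases e' : g = γ
        · subst e'
          have h8 := bm_mem_BN.1 h4 η e.2.1
          rwa [Finsupp.sub_apply, bmSh_id, if_pos rfl] at h8
        · have h8 : g ∉ T := fun h8 => hi (Finset.mem_erase.2 ⟨e', h8⟩)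
          rw [bmUp_apply (bmUp_bd (fun g y h => h.trans (Finset.subset_insert y g))
            (h5 (γ ⊆ ·) subset_rfl)) fun h9 => h8 (h2 γ hγ g (h.down η e.2.2 g e.2.1) h9), sub_zero]
          exact hb _ h8
      · rw [bm_YC_apply (bd_YC h (sub_mem hx hv')) e]
        exact Submodule.zero_mem _)
    exact ⟨x', hx', mem_of_eq (add_mem h6 (h5 _ (h1 γ hγ).2)) (by abel), h7⟩

theorem bm_Up_BN {δ S : Finset N} {z : Kc N} (hz : z ∈ bmUp (δ ⊂ ·)) : z ∈ BN δ δ S :=
  bm_mem_BN.2 fun η _ => by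
    rw [bmUp_apply hz (lt_irrefl δ)]
    exact Submodule.zero_mem _

/-- Borel-Moore vanishing for the star of `δ`. -/
theorem bm_star (h : Fn De) {δ : Finset N} (hr : ∀ β ∈ De, δ ⊆ β → Res De β) {P q : ℕ}
    (hq : q < P) {x : Kc N} (hx : x ∈ BC De δ δ P q) (hb : bd x ∈ BN δ δ δ) :
    x ∈ (BC De δ δ P (q + 1)).map bd ⊔ BN δ δ δ := by
  induction hk : De.sup Finset.card - δ.card using Nat.strong_induction_on generalizing δ q x with
  | _ k ih =>
    by_cases hδ : δ ∈ De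
    swap
    · rw [bm_zero h hδ hx]
      exact Submodule.zero_mem _
    have hx' := bm_BC_YC subset_rfl hx
    obtain ⟨x', h1, h2, h3⟩ : ∃ x' ∈ YC De δ P q, x - x' ∈ bmUp (δ ⊂ ·) ∧ bd x' ∈ YZ De δ := by
      cases q with
      | zero =>
        exact ⟨x, hx', by rw [sub_self]; exact Submodule.zero_mem _, by
          rw [bd_YC0 hx']; exact Submodule.zero_mem _⟩
      | succ q =>
        refine bm_ext h (fun γ hγ e x hx hb => ih _ ?_ (fun β hβ e' => hr β hβ (e.subset.trans e'))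
          (by omega) hx hb rfl) (De.filter (δ ⊂ ·)) (fun g hg => Finset.mem_filter.1 hg)
          (fun g hg g' hg' e => Finset.mem_filter.2 ⟨hg', (Finset.mem_filter.1 hg).2.trans_subset e⟩)
          x hx' ?_
        · have h1 := Finset.card_lt_card e
          have h2 := Finset.le_sup (f := Finset.card) hγ
          omega
        · rintro ⟨g, η⟩ hi
          by_cases e : OkY De δ (g, η)
          · obtain rfl : δ = g := by_contra fun e' => hi (Finset.mem_filter.2
              ⟨h.down η e.2.2 g e.2.1, Finset.ssubset_iff_subset_ne.2 ⟨e.1, e'⟩⟩)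
            exact bm_mem_BN.1 hb η e.2.1
          · rw [bm_YC_apply (bd_YC h hx') e]
            exact Submodule.zero_mem _
    obtain ⟨y, hy', h4⟩ := Cx1.mem_Bd.1 (y_ne h (hr δ hδ subset_rfl) hq.ne
      (show x' ∈ (cxY h δ P).Cy q from ⟨Submodule.mem_sup_left h1, h3⟩))
    obtain ⟨y, hy, z, hz, rfl⟩ := Submodule.mem_sup.1 hy'
    have h5 : ∀ z ∈ YZ De δ, z ∈ BN δ δ δ := fun z hz => bm_mem_BN.2 fun η _ => by
      have h6 := mem_Pw.1 hz (δ, η)
      split_ifs at h6
      · exact h6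
      · rw [(Submodule.mem_bot ℝ).1 h6]
        exact Submodule.zero_mem _
    have h6 : y - bmSh δ δ LinearMap.id y ∈ bmUp (δ ⊂ ·) := mem_Pw.2 fun i => by
      split_ifs with e
      · exact Submodule.mem_top
      · rw [Submodule.mem_bot, Finsupp.sub_apply, bmSh_id]
        split_ifs with e'
        · exact sub_self _
        · rw [bm_YC_apply hy fun e'' => e (Finset.ssubset_iff_subset_ne.2 ⟨e''.1, Ne.symm e'⟩),
            sub_zero]
    refine mem_map_sup.2 ⟨_, bm_YC_BC δ hy, mem_of_eq (add_mem (add_mem (add_mem (bm_Up_BN h2)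
      (h5 _ h4)) (h5 _ (bd_YZ h hz))) (bm_Up_BN (bmUp_bd
        (fun g y h => h.trans_subset (Finset.subset_insert y g)) h6))) ?_⟩
    change _ = x - x' + (x' - bd (y + z)) + bd z + _
    rw [map_add, map_sub]
    abel

theorem bm_co_BN {δ γ S S' : Finset N} (f : Om N →ₗ[ℝ] Om N) (hf : ∀ w ∈ Jd S, f w ∈ Jd S')
    {z : Kc N} (hz : z ∈ BN δ γ S) : co f z ∈ BN δ γ S' :=
  bm_mem_BN.2 fun η hη => by rw [co_apply]; exact hf _ (bm_mem_BN.1 hz η hη)

theorem bm_co_BC {δ γ : Finset N} {P P' q : ℕ} (f : Om N →ₗ[ℝ] Om N)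
    (hf : ∀ η S, δ ⊆ η → ∀ w ∈ Co De η S P, f w ∈ Co De η S P') {z : Kc N}
    (hz : z ∈ BC De δ γ P q) : co f z ∈ BC De δ γ P' q :=
  bm_of_BC _ (fun η h1 h2 h3 w hw => by rw [co_single]; exact bm_BC h1 h2 h3 (hf η _ h1 w hw)) hz

theorem bm_bd_ev (a : N) (z : Kc N) : bd (co (LinearMap.mulLeft ℝ (ev a)) z) =
    -co (LinearMap.mulLeft ℝ (ev a)) (bd z) := by
  induction z using Finsupp.induction_linear with
  | zero => simp
  | add a b ha hb => rw [map_add, map_add, ha, hb, map_add, map_add, neg_add]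
  | single j w =>
    obtain ⟨g, η⟩ := j
    rw [co_single, bd_single, bd_single, map_sum, ← Finset.sum_neg_distrib]
    refine Finset.sum_congr rfl fun y _ => ?_
    rw [map_sub, co_single, co_single, LinearMap.mulLeft_apply, LinearMap.mulLeft_apply, cx_ev_mul,
      Finsupp.single_neg, Finsupp.single_neg]
    abel

theorem bm_ideal (h : Fn De) {δ : Finset N} (hr : ∀ β ∈ De, δ ⊆ β → Res De β) {S : Finset N}
    (hS : S ⊆ δ) {P q : ℕ} (hq : q + (δ \ S).card < P) {x : Kc N} (hx : x ∈ BC De δ δ P q)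
    (hb : bd x ∈ BN δ δ S) : x ∈ (BC De δ δ P (q + 1)).map bd ⊔ BN δ δ S := by
  by_cases hδ : δ ∈ De
  swap
  · rw [bm_zero h hδ hx]
    exact Submodule.zero_mem _
  induction hk : (δ \ S).card generalizing S P x with
  | zero =>
    obtain rfl : S = δ := hS.antisymm (Finset.sdiff_eq_empty_iff_subset.1 (Finset.card_eq_zero.1 hk))
    exact bm_star h hr (by omega) hx hb
  | succ k ih =>
    obtain ⟨a, ha⟩ := Finset.card_pos.1 (show 0 < (δ \ S).card by omega)
    obtain ⟨ha1, ha2⟩ := Finset.mem_sdiff.1 ha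
    obtain ⟨m, hm⟩ := h.dual hδ a
    have hS' : insert a S ⊆ δ := Finset.insert_subset ha1 hS
    have hk' : (δ \ insert a S).card = k := by
      rw [Finset.sdiff_insert, Finset.card_erase_of_mem ha, hk, Nat.add_sub_cancel]
    obtain ⟨P, rfl⟩ : ∃ P', P = P' + 1 := ⟨P - 1, by omega⟩
    have m1 : m a = 1 := by rw [hm a ha1, if_pos rfl]
    have hJ : ∀ w ∈ Jd S, w ∈ Jd (insert a S) := fun w hw => Vp_mono (Finset.subset_insert a S) 1 hw
    have hp : ∀ w ∈ Jd (insert a S), kx m (ev a * w) ∈ Jd S := fun w hw => by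
      have h1 := proj_Jd m1 (fun v hv e => by rw [hm v (hS' hv), if_neg e]) hw
      rwa [Finset.erase_insert ha2] at h1
    have hw : ∀ w, w = ev a * kx m w + kx m (ev a * w) := fun w => by
      rw [kx_ev_mul, m1, one_smul, add_sub_cancel]
    obtain ⟨y₁, hy₁, h1⟩ := mem_map_sup.1 (ih hS' (P := P) (x := co (kx m) x) (by omega)
      (bm_co_BC _ (fun _ _ _ _ hw => kx_Co m hw) hx) (by
        rw [bd_kx, neg_mem_iff]
        exact bm_co_BN _ (fun w hw => hJ _ (kx_Vp_of_zero (fun v hv => by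
          rw [hm v (hS hv), if_neg fun e : v = a => ha2 (e ▸ hv)]) hw)) hb) hk')
    obtain ⟨y₂, hy₂, h2⟩ := mem_map_sup.1 (ih hS' (by omega) hx
      (bm_mem_BN.2 fun η hη => hJ _ (bm_mem_BN.1 hb η hη)) hk')
    have hE : ∀ {P : ℕ} {y : Kc N}, y ∈ BC De δ δ P (q + 1) →
        co (LinearMap.mulLeft ℝ (ev a)) y ∈ BC De δ δ (P + 1) (q + 1) := fun hy =>
      bm_co_BC _ (fun _ _ e _ hw => ev_Co (e ha1) hw) hy
    have h3 := bm_co_BN (S' := S) (LinearMap.mulLeft ℝ (ev a)) (fun w hw' => by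
      rw [LinearMap.mulLeft_apply, hw w, mul_add, ← mul_assoc, ev_sq, zero_mul, zero_add]
      exact mul_mem_Vp _ (hp w hw')) h1
    have h4 : co (kx m) (co (LinearMap.mulLeft ℝ (ev a)) (x - bd y₂)) ∈ BN δ δ S :=
      bm_mem_BN.2 fun η hη => by
        rw [co_apply, co_apply]
        exact hp _ (bm_mem_BN.1 h2 η hη)
    have h5 : x = co (LinearMap.mulLeft ℝ (ev a)) (co (kx m) x) +
        co (kx m) (co (LinearMap.mulLeft ℝ (ev a)) x) := Finsupp.ext fun i => by
      rw [Finsupp.add_apply, co_apply, co_apply, co_apply, co_apply]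
      exact hw _
    refine mem_map_sup.2 ⟨_, sub_mem (bm_co_BC (kx m) (fun _ _ _ _ hw => kx_Co m hw) (hE hy₂))
      (hE hy₁), mem_of_eq (add_mem h3 h4) ?_⟩
    rw [map_sub, map_sub, map_sub, map_sub, bd_kx, bm_bd_ev, bm_bd_ev, map_neg]
    nth_rewrite 1 [h5]
    abel

theorem bmSh_BN {δ γ γ' S : Finset N} (f : Om N →ₗ[ℝ] Om N) (hf : ∀ w ∈ Jd S, f w ∈ Jd S)
    {z : Kc N} (hz : z ∈ BN δ γ S) : bmSh γ γ' f z ∈ BN δ γ' S := by
  refine map_mem_of_Pw _ (fun i w hw => ?_) hz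
  obtain ⟨g, η⟩ := i
  by_cases e : g = γ
  · subst e
    rw [bmSh_eq]
    exact bm_BN fun _ e => hf w (by rwa [if_pos ⟨rfl, e⟩] at hw)
  · rw [bmSh_ne e]
    exact Submodule.zero_mem _

theorem bm_shift (h : Fn De) {δ : Finset N} (hr : ∀ β ∈ De, δ ⊆ β → Res De β) {S γ : Finset N}
    (hS : S ⊆ δ) (hγ : γ ⊆ δ) {P q : ℕ} (hq : q + (δ \ S).card < P + (δ \ γ).card) {x : Kc N}
    (hx : x ∈ BC De δ γ P q) (hb : bd x ∈ BN δ γ S) :
    x ∈ (BC De δ γ P (q + 1)).map bd ⊔ BN δ γ S := by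
  induction hk : (δ \ γ).card generalizing γ q x with
  | zero =>
    obtain rfl : γ = δ := hγ.antisymm (Finset.sdiff_eq_empty_iff_subset.1 (Finset.card_eq_zero.1 hk))
    exact bm_ideal h hr hS (by omega) hx hb
  | succ k ih =>
    obtain ⟨a, ha⟩ := Finset.card_pos.1 (show 0 < (δ \ γ).card by omega)
    obtain ⟨ha1, ha2⟩ := Finset.mem_sdiff.1 ha
    have hk' : (δ \ insert a γ).card = k := by
      rw [Finset.sdiff_insert, Finset.card_erase_of_mem ha, hk, Nat.add_sub_cancel]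
    have hη : ∀ η, δ ⊆ η → a ∈ η \ γ := fun η e => Finset.mem_sdiff.2 ⟨e ha1, ha2⟩
    cases q with
    | zero =>
      have h0 : x = 0 := (Submodule.mem_bot ℝ).1 (bm_of_BC LinearMap.id (fun η h1 _ h3 _ _ =>
        absurd (Finset.card_eq_zero.1 h3) (Finset.ne_empty_of_mem (hη η h1))) hx)
      rw [h0]
      exact Submodule.zero_mem _
    | succ q =>
      have h1 : bmSh γ (insert a γ) (cx a) x ∈ BC De δ (insert a γ) P q :=
        bm_of_BC _ (fun η e1 e2 e3 w hw => by
          rw [bmSh_eq]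
          refine bm_BC e1 e2 ?_ ?_ <;> rw [Finset.sdiff_insert]
          · rw [Finset.card_erase_of_mem (hη η e1), e3, Nat.add_sub_cancel]
          · exact cx_Co (hη η e1) hw) hx
      have h2 : (bd ∘ₗ bmSh γ (insert a γ) (cx a) + bmSh γ (insert a γ) (cx a) ∘ₗ bd) x ∈
          BN δ (insert a γ) S := bm_of_BC _ (fun η e1 _ _ w _ => by
        rw [LinearMap.add_apply, LinearMap.comp_apply, LinearMap.comp_apply, bmSh_eq, bmSh_bd,
          bd_single, ← Finset.add_sum_erase _ _ (hη η e1), cx_cx, Finsupp.single_zero, zero_add,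
          ← Finset.sdiff_insert, ← Finset.sum_add_distrib]
        refine sum_mem fun y hy => ?_
        rw [cx_comm a y, Finsupp.single_neg, sub_add_eq_add_sub, add_neg_cancel, zero_sub,
          neg_mem_iff]
        exact bm_BN fun e => absurd e (bm_insert_ne hy)) hx
      obtain ⟨y, hy, h3⟩ := mem_map_sup.1 (ih (Finset.insert_subset ha1 hγ) (by omega) h1
        (mem_of_eq (sub_mem h2 (bmSh_BN (cx a) (fun w hw => cx_Vp a hw) hb))
          (add_sub_cancel_right _ _).symm) hk')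
      have h4 : bmSh (insert a γ) γ (LinearMap.mulLeft ℝ (ep a)) y ∈ BC De δ γ P (q + 1 + 1) :=
        bm_of_BC _ (fun η e1 e2 e3 w hw => by
          rw [bmSh_eq]
          rw [Finset.sdiff_insert] at e3 hw
          refine bm_BC e1 e2 ?_ ?_
          · rw [← e3, Finset.card_erase_add_one (hη η e1)]
          · have h5 := ep_Co (Finset.notMem_erase a _) hw
            rwa [Finset.insert_erase (hη η e1)] at h5) hy
      have h5 : (bd ∘ₗ bmSh (insert a γ) γ (LinearMap.mulLeft ℝ (ep a)) +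
          bmSh (insert a γ) γ (LinearMap.mulLeft ℝ (ep a)) ∘ₗ bd) y ∈ BN δ γ S :=
        bm_of_BC _ (fun η e1 _ _ w _ => by
          rw [LinearMap.add_apply, LinearMap.comp_apply, LinearMap.comp_apply, bmSh_eq, bmSh_bd,
            bd_single, Finset.sum_sub_distrib, ← Finset.add_sum_erase _ _ (hη η e1),
            Finset.sdiff_insert, sub_add_eq_add_sub, add_assoc, ← Finset.sum_add_distrib]
          refine sub_mem (add_mem (bm_BN fun _ e => absurd (e ha1) (Finset.notMem_erase a η))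
            (sum_mem fun y hy => ?_)) (sum_mem fun y hy => bm_BN fun e => absurd e (bm_insert_ne hy))
          rw [LinearMap.mulLeft_apply, LinearMap.mulLeft_apply, cx_ep_mul,
            if_neg (Finset.ne_of_mem_erase hy), zero_sub, Finsupp.single_neg, neg_add_cancel]
          exact Submodule.zero_mem _) hy
      have h6 : (bmSh (insert a γ) γ (LinearMap.mulLeft ℝ (ep a)) ∘ₗ bmSh γ (insert a γ) (cx a) -
          LinearMap.id : Kc N →ₗ[ℝ] Kc N) x ∈ (⊥ : Submodule ℝ (Kc N)) := bm_of_BC _ (fun η e1 _ _ w hw => by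
        rw [LinearMap.sub_apply, LinearMap.comp_apply, bmSh_eq, bmSh_eq, LinearMap.mulLeft_apply,
          ep_cx_Co (hη η e1) hw, LinearMap.id_apply, sub_self]
        exact Submodule.zero_mem _) hx
      rw [Submodule.mem_bot, LinearMap.sub_apply, LinearMap.comp_apply, LinearMap.id_apply,
        sub_eq_zero] at h6
      refine mem_map_sup.2 ⟨_, neg_mem h4, mem_of_eq (add_mem h5 (bmSh_BN (γ' := γ)
        (LinearMap.mulLeft ℝ (ep a)) (fun w hw => mul_mem_Vp _ hw) h3)) ?_⟩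
      rw [LinearMap.add_apply, LinearMap.comp_apply, LinearMap.comp_apply, map_sub, h6, map_neg]
      abel

end K2
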