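import Pool.Agent.Lib.MP_e9c0f3_ag.K2.Om

/-! The coefficient spaces and the ideals. -/

open ExteriorAlgebra
open scoped Classical

noncomputable section

namespace K2

variable {N : Type} [AddCommGroup N] [Module ℝ N] {De : Finset (Finset N)}

theorem Fn.dual (h : Fn De) {s : Finset N} (hs : s ∈ De) (x : N) :
    ∃ m : Module.Dual ℝ N, ∀ v ∈ s, m v = if v = x then 1 else 0 := h.onto s hs _

theorem mem_vx {v : N} : v ∈ vx De ↔ ∃ s ∈ De, v ∈ s := by simp [vx]

theorem coe_wg_le {s θ : Finset N} (hθ : θ ∈ De) (h : s ⊆ θ) (p : ℕ) :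
    wg (Submodule.span ℝ (θ : Set N)) p ≤ FF De p s :=
  le_iSup_of_le θ (le_iSup_of_le hθ (le_iSup_of_le h le_rfl))

theorem coe_FF_map {M : Type*} [AddCommGroup M] [Module ℝ M] (f : Ex N →ₗ[ℝ] M)
    {P : Submodule ℝ M} {s : Finset N} {p : ℕ}
    (h : ∀ θ ∈ De, s ⊆ θ → ∀ b ∈ wg (Submodule.span ℝ (θ : Set N)) p, f b ∈ P) {b : Ex N}
    (hb : b ∈ FF De p s) : f b ∈ P :=
  (show FF De p s ≤ P.comap f from iSup_le fun θ => iSup_le fun hθ => iSup_le fun e => h θ hθ e) hb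

theorem FF_anti {s s' : Finset N} (h : s ⊆ s') (p : ℕ) : FF De p s' ≤ FF De p s :=
  iSup_le fun _ => iSup_le fun hθ => iSup_le fun e => coe_wg_le hθ (h.trans e) p

theorem ι_mul_FF {s : Finset N} {x : N} (hx : x ∈ s) {p : ℕ} {b : Ex N} (h : b ∈ FF De p s) :
    ι ℝ x * b ∈ FF De (p + 1) s :=
  coe_FF_map (LinearMap.mulLeft ℝ (ι ℝ x))
    (fun _ hθ e _ hb => coe_wg_le hθ e _ (om_wg_mul (Submodule.subset_span (e hx)) hb)) h

theorem coe_FF_mul_ι {s : Finset N} {x : N} (hx : x ∈ s) {p : ℕ} {b : Ex N} (h : b ∈ FF De p s) :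
    b * ι ℝ x ∈ FF De (p + 1) s :=
  coe_FF_map (LinearMap.mulRight ℝ (ι ℝ x)) (fun _ hθ e _ hb => coe_wg_le hθ e _ (by
    rw [wg, pow_succ]
    exact Submodule.mul_mem_mul hb ⟨x, Submodule.subset_span (e hx), rfl⟩)) h

theorem ct_FF (m : Module.Dual ℝ N) {s : Finset N} {p : ℕ} {b : Ex N}
    (h : b ∈ FF De (p + 1) s) : ct m b ∈ FF De p s :=
  coe_FF_map (ct m) (fun _ hθ e _ hb => coe_wg_le hθ e _ (wg_mono inf_le_left _ (ct_wg m hb))) h

theorem FF_zero_le (s : Finset N) : FF De 0 s ≤ Submodule.span ℝ {1} :=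
  iSup_le fun _ => iSup_le fun _ => iSup_le fun _ => by rw [wg, pow_zero, Submodule.one_eq_span]

theorem FF_zero {s : Finset N} (hs : s ∈ De) : FF De 0 s = Submodule.span ℝ {1} := by
  refine (FF_zero_le s).antisymm (le_trans ?_ (coe_wg_le hs subset_rfl 0))
  rw [wg, pow_zero, Submodule.one_eq_span]

theorem coe_JE_mem {S : Finset N} {x : N} (hx : x ∈ S) (b : Ex N) : ι ℝ x * b ∈ JE S :=
  (le_iSup₂_of_le (f := fun x (_ : x ∈ S) => LinearMap.range (LinearMap.mulLeft ℝ (ι ℝ x))) x hx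
    le_rfl) ⟨b, rfl⟩

theorem coe_JE_map {M : Type*} [AddCommGroup M] [Module ℝ M] (f : Ex N →ₗ[ℝ] M)
    {P : Submodule ℝ M} {S : Finset N} (h : ∀ x ∈ S, ∀ b, f (ι ℝ x * b) ∈ P) {b : Ex N}
    (hb : b ∈ JE S) : f b ∈ P :=
  (show JE S ≤ P.comap f from iSup₂_le fun x hx => by rintro _ ⟨c, rfl⟩; exact h x hx c) hb

theorem ι_mul_JE {S : Finset N} {x : N} (hx : x ∈ Submodule.span ℝ (S : Set N)) (b : Ex N) :
    ι ℝ x * b ∈ JE S :=
  (Submodule.span_le (p := (JE S).comap (LinearMap.mulRight ℝ b ∘ₗ ι ℝ))).2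
    (fun _ hv => coe_JE_mem hv b) hx

theorem coe_swap {V : Type} [AddCommGroup V] [Module ℝ V] (v : V) (a : ExteriorAlgebra ℝ V) :
    ∃ a', a * ι ℝ v = ι ℝ v * a' := by
  induction a using om_ind with
  | h0 r => exact ⟨r • 1, by simp⟩
  | h1 x y hx hy =>
    obtain ⟨a, ha⟩ := hx
    obtain ⟨b, hb⟩ := hy
    exact ⟨a + b, by rw [add_mul, mul_add, ha, hb]⟩
  | h2 x m hx =>
    obtain ⟨a, ha⟩ := hx
    exact ⟨-(ι ℝ m * a), by rw [mul_assoc, ha, ← mul_assoc, om_swap, neg_mul, mul_neg, mul_assoc]⟩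

theorem mul_mem_JE {S : Finset N} (a : Ex N) {b : Ex N} (h : b ∈ JE S) : a * b ∈ JE S :=
  coe_JE_map (LinearMap.mulLeft ℝ a) (fun x hx c => by
    obtain ⟨a', e⟩ := coe_swap x a
    rw [LinearMap.mulLeft_apply, ← mul_assoc, e, mul_assoc]
    exact coe_JE_mem hx _) h

theorem JE_mono {S S' : Finset N} (h : S ⊆ S') : JE S ≤ JE S' :=
  fun _ hb => coe_JE_map LinearMap.id (fun _ hx c => coe_JE_mem (h hx) c) hb

theorem ct_JE {m : Module.Dual ℝ N} {S : Finset N} (hm : ∀ v ∈ S, m v = 0) {b : Ex N}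
    (h : b ∈ JE S) : ct m b ∈ JE S :=
  coe_JE_map (ct m) (fun x hx c => by
    rw [ct_mul, hm x hx, zero_smul, zero_sub]
    exact neg_mem (coe_JE_mem hx _)) h

theorem smul_one_JE {S : Finset N} {c : ℝ} (h : c • (1 : Ex N) ∈ JE S) : c = 0 := by
  have := coe_JE_map (P := ⊥) (algebraMapInv (R := ℝ) (M := N)).toLinearMap
    (fun x _ b => by simp [algebraMapInv]) h
  simpa using this

/-- A vector in the ideal of a face lies in the span of the face. -/
theorem mem_span_of_JE {S : Finset N} {x : N} (h : ι ℝ x ∈ JE S) :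
    x ∈ Submodule.span ℝ (S : Set N) := by
  by_contra hx
  obtain ⟨m, h1, h2⟩ := Submodule.exists_dual_map_eq_bot_of_notMem hx inferInstance
  have := ct_JE (m := m) (fun v hv => (Submodule.mem_bot ℝ).1
    (h2 ▸ Submodule.mem_map_of_mem (Submodule.subset_span hv))) h
  rw [← mul_one (ι ℝ x), ct_mul, ct_one, mul_zero, sub_zero] at this
  exact h1 (smul_one_JE this)

theorem mem_Co {η S : Finset N} {p : ℕ} {w : Om N} :
    w ∈ Co De η S p ↔ ∃ b ∈ FF De p η, w = eps S * emb b :=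
  ⟨fun ⟨b, h, e⟩ => ⟨b, h, e.symm⟩, fun ⟨b, h, e⟩ => ⟨b, h, e.symm⟩⟩

theorem Co_anti {η η' : Finset N} (h : η ⊆ η') (S : Finset N) (p : ℕ) :
    Co De η' S p ≤ Co De η S p := Submodule.map_mono (FF_anti h p)

variable {η S : Finset N} {p i : ℕ} {w : Om N} {x : N}

theorem coe_Co {b : Ex N} (h : b ∈ FF De p η) (S : Finset N) : eps S * emb b ∈ Co De η S p :=
  mem_Co.2 ⟨b, h, rfl⟩

theorem coe_cx_eps (hx : x ∉ S) (b : Ex N) : cx x (eps S * emb b) = 0 := by
  rw [cx_mul_emb, cx_eps_not hx, zero_mul]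

theorem coe_cx_insert (hx : x ∉ S) (b : Ex N) :
    cx x (eps (insert x S) * emb b) = sg S x • (eps S * emb b) := by
  rw [eps_insert_sg hx, smul_mul_assoc, map_smul, mul_assoc, cx_ep_mul, if_pos rfl, coe_cx_eps hx,
    mul_zero, sub_zero]

theorem cx_Co (hx : x ∈ S) (h : w ∈ Co De η S p) : cx x w ∈ Co De η (S.erase x) p := by
  obtain ⟨b, hb, rfl⟩ := mem_Co.1 h
  have := coe_cx_insert (S.notMem_erase x) b
  rw [Finset.insert_erase hx] at this
  rw [this]
  exact Submodule.smul_mem _ _ (coe_Co hb _)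

theorem cx_Co_not (hx : x ∉ S) (h : w ∈ Co De η S p) : cx x w = 0 := by
  obtain ⟨b, -, rfl⟩ := mem_Co.1 h
  exact coe_cx_eps hx b

theorem ep_Co (hx : x ∉ S) (h : w ∈ Co De η S p) : ep x * w ∈ Co De η (insert x S) p := by
  obtain ⟨b, hb, rfl⟩ := mem_Co.1 h
  have := Submodule.smul_mem _ (sg S x) (coe_Co hb (insert x S))
  rwa [eps_insert_sg hx, smul_mul_assoc, smul_smul, sg_sq, one_smul, mul_assoc] at this

theorem ep_cx_Co (hx : x ∈ S) (h : w ∈ Co De η S p) : ep x * cx x w = w := by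
  obtain ⟨b, -, rfl⟩ := mem_Co.1 h
  obtain ⟨T, hT, rfl⟩ : ∃ T, x ∉ T ∧ S = insert x T :=
    ⟨_, S.notMem_erase x, (Finset.insert_erase hx).symm⟩
  rw [coe_cx_insert hT, eps_insert_sg hT, mul_smul_comm, smul_mul_assoc, mul_assoc]

theorem ev_Co (hx : x ∈ η) (h : w ∈ Co De η S p) : ev x * w ∈ Co De η S (p + 1) := by
  obtain ⟨b, hb, rfl⟩ := mem_Co.1 h
  rw [← mul_assoc, ev_mul_eps, smul_mul_assoc, mul_assoc, ← emb_ι, ← map_mul]
  exact Submodule.smul_mem _ _ (coe_Co (ι_mul_FF hx hb) _)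

theorem coe_Co_ev (hx : x ∈ η) (h : w ∈ Co De η S p) : w * ev x ∈ Co De η S (p + 1) := by
  obtain ⟨b, hb, rfl⟩ := mem_Co.1 h
  rw [mul_assoc, ← emb_ι, ← map_mul]
  exact coe_Co (coe_FF_mul_ι hx hb) _

theorem kx_Co (m : Module.Dual ℝ N) (h : w ∈ Co De η S (p + 1)) : kx m w ∈ Co De η S p := by
  obtain ⟨b, hb, rfl⟩ := mem_Co.1 h
  rw [kx_eps_mul, kx_emb]
  exact Submodule.smul_mem _ _ (coe_Co (ct_FF m hb) _)

theorem kx_Co_zero (m : Module.Dual ℝ N) (h : w ∈ Co De η S 0) : kx m w = 0 := by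
  obtain ⟨b, hb, rfl⟩ := mem_Co.1 h
  obtain ⟨c, rfl⟩ := Submodule.mem_span_singleton.1 (FF_zero_le _ hb)
  rw [kx_eps_mul, kx_emb, map_smul, ct_one, smul_zero, map_zero, mul_zero, smul_zero]

theorem pis_Co (hS : S ⊆ η) {b : Ex N} (h : b ∈ FF De p η) :
    pis S * emb b ∈ Co De η S (p + S.card) := by
  induction S using Finset.induction_on with
  | empty =>
    rw [pis_empty, ← eps_empty]
    exact coe_Co h _
  | insert a S ha ih =>
    rw [Finset.insert_subset_iff] at hS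
    rw [pis_insert ha, Finset.card_insert_of_notMem ha, mul_assoc, mul_assoc]
    exact ep_Co ha (ev_Co hS.1 (ih hS.2))

theorem mul_evs_Co {β : Finset N} (hβ : β ⊆ η) (h : w ∈ Co De η S p) :
    w * evs β ∈ Co De η S (p + β.card) := by
  induction β using Finset.induction_on generalizing w p with
  | empty => rwa [evs_empty, mul_one]
  | insert a β ha ih =>
    rw [Finset.insert_subset_iff] at hβ
    rw [evs_insert ha, Finset.card_insert_of_notMem ha, mul_smul_comm, ← mul_assoc, add_comm β.card,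
      ← add_assoc]
    exact Submodule.smul_mem _ _ (ih hβ.2 (coe_Co_ev hβ.1 h))

theorem ev_mul_Vp (hx : x ∈ S) (h : w ∈ Vp S i) : ev x * w ∈ Vp S (i + 1) :=
  (le_iSup₂_of_le (f := fun x (_ : x ∈ S) => (Vp S i).map (LinearMap.mulLeft ℝ (ev x))) x hx
    le_rfl) ⟨w, h, rfl⟩

theorem coe_Vp_map {M : Type*} [AddCommGroup M] [Module ℝ M] (f : Om N →ₗ[ℝ] M)
    {P : Submodule ℝ M} (h : ∀ x ∈ S, ∀ u ∈ Vp S i, f (ev x * u) ∈ P) (hw : w ∈ Vp S (i + 1)) :
    f w ∈ P :=
  (show Vp S (i + 1) ≤ P.comap f from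
    iSup₂_le fun x hx => by rintro _ ⟨c, hc, rfl⟩; exact h x hx c hc) hw

theorem Vp_mono {S S' : Finset N} (h : S ⊆ S') (i : ℕ) : Vp S i ≤ Vp S' i := by
  induction i with
  | zero => exact le_rfl
  | succ i ih =>
    exact fun _ hw => coe_Vp_map LinearMap.id (fun _ hx _ hu => ev_mul_Vp (h hx) (ih hu)) hw

theorem mul_mem_Vp (a : Om N) (h : w ∈ Vp S i) : a * w ∈ Vp S i := by
  induction i generalizing a w with
  | zero => trivial
  | succ i ih =>
    refine coe_Vp_map (LinearMap.mulLeft ℝ a) (fun x hx u hu => ?_) h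
    obtain ⟨a', e⟩ : ∃ a', a * ev x = ev x * a' := coe_swap _ a
    rw [LinearMap.mulLeft_apply, ← mul_assoc, e, mul_assoc]
    exact ev_mul_Vp hx (ih a' hu)

theorem Vp_anti (S : Finset N) {i j : ℕ} (h : i ≤ j) : Vp S j ≤ Vp S i := by
  induction h with
  | refl => exact le_rfl
  | step _ ih =>
    exact le_trans (fun _ hw => coe_Vp_map LinearMap.id (fun _ _ _ hu => mul_mem_Vp _ hu) hw) ih

theorem mul_mem_Vp' (a : Om N) (h : w ∈ Vp S i) : w * a ∈ Vp S i := by
  induction i generalizing w with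
  | zero => trivial
  | succ i ih =>
    refine coe_Vp_map (LinearMap.mulRight ℝ a) (fun x hx u hu => ?_) h
    rw [LinearMap.mulRight_apply, mul_assoc]
    exact ev_mul_Vp hx (ih hu)

theorem cx_Vp (x : N) (h : w ∈ Vp S i) : cx x w ∈ Vp S i := by
  induction i generalizing w with
  | zero => trivial
  | succ i ih =>
    refine coe_Vp_map (cx x) (fun y hy u hu => ?_) h
    rw [cx_ev_mul]
    exact neg_mem (ev_mul_Vp hy (ih hu))

theorem kx_Vp (m : Module.Dual ℝ N) (h : w ∈ Vp S (i + 1)) : kx m w ∈ Vp S i := by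
  induction i generalizing w with
  | zero => trivial
  | succ i ih =>
    refine coe_Vp_map (kx m) (fun y hy u hu => ?_) h
    rw [kx_ev_mul]
    exact sub_mem (Submodule.smul_mem _ _ hu) (ev_mul_Vp hy (ih hu))

theorem kx_Vp_of_zero {m : Module.Dual ℝ N} (hm : ∀ v ∈ S, m v = 0) (h : w ∈ Vp S i) :
    kx m w ∈ Vp S i := by
  induction i generalizing w with
  | zero => trivial
  | succ i ih =>
    refine coe_Vp_map (kx m) (fun y hy u hu => ?_) h
    rw [kx_ev_mul, hm y hy, zero_smul, zero_sub]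
    exact neg_mem (ev_mul_Vp hy (ih hu))

theorem coe_ev_swap (x y : N) (w : Om N) : ev x * (ev y * w) = -(ev y * (ev x * w)) := by
  rw [← mul_assoc, ev_ev, neg_mul, mul_assoc]

theorem coe_ev_erase (x : N) (h : w ∈ Vp S i) :
    ev x * w ∈ (Vp (S.erase x) i).map (LinearMap.mulLeft ℝ (ev x)) := by
  induction i generalizing w with
  | zero => exact ⟨w, trivial, rfl⟩
  | succ i ih =>
    refine coe_Vp_map (LinearMap.mulLeft ℝ (ev x)) (fun y hy u hu => ?_) h
    rw [LinearMap.mulLeft_apply]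
    by_cases e : y = x
    · rw [e, ← mul_assoc, ev_sq, zero_mul]
      exact zero_mem _
    · obtain ⟨u', h1, h2⟩ := ih hu
      refine ⟨_, ev_mul_Vp (Finset.mem_erase.2 ⟨e, hy⟩) h1, ?_⟩
      rw [LinearMap.mulLeft_apply] at h2 ⊢
      rw [coe_ev_swap, h2, ← coe_ev_swap]

theorem Vp_eq_bot (h : S.card < i) : Vp S i = ⊥ := by
  induction i generalizing S with
  | zero => omega
  | succ i ih =>
    refine eq_bot_iff.2 fun w hw => coe_Vp_map LinearMap.id (fun x hx u hu => ?_) hw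
    have := coe_ev_erase x hu
    have h0 := Finset.card_erase_add_one hx
    rwa [ih (by omega), Submodule.map_bot] at this

theorem coe_Vp_ev (hx : x ∈ S) (h : w ∈ Vp S i) : w * ev x ∈ Vp S (i + 1) := by
  induction i generalizing w with
  | zero =>
    obtain ⟨a', e⟩ : ∃ a', w * ev x = ev x * a' := coe_swap _ w
    rw [e]
    exact ev_mul_Vp hx trivial
  | succ i ih =>
    refine coe_Vp_map (LinearMap.mulRight ℝ (ev x)) (fun y hy u hu => ?_) h
    rw [LinearMap.mulRight_apply, mul_assoc]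
    exact ev_mul_Vp hy (ih hu)

theorem mul_evs_Vp {β : Finset N} (hβ : β ⊆ S) (h : w ∈ Vp S i) :
    w * evs β ∈ Vp S (i + β.card) := by
  induction β using Finset.induction_on generalizing w i with
  | empty => rwa [evs_empty, mul_one]
  | insert a β ha ih =>
    rw [Finset.insert_subset_iff] at hβ
    rw [evs_insert ha, Finset.card_insert_of_notMem ha, mul_smul_comm, ← mul_assoc, add_comm β.card,
      ← add_assoc]
    exact Submodule.smul_mem _ _ (ih hβ.2 (coe_Vp_ev hβ.1 h))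

theorem coe_Jd_mem (hx : x ∈ S) (w : Om N) : ev x * w ∈ Jd S := ev_mul_Vp hx trivial

theorem coe_Jd_map {M : Type*} [AddCommGroup M] [Module ℝ M] (f : Om N →ₗ[ℝ] M)
    {P : Submodule ℝ M} (h : ∀ x ∈ S, ∀ u, f (ev x * u) ∈ P) (hw : w ∈ Jd S) : f w ∈ P :=
  coe_Vp_map f (fun x hx u _ => h x hx u) hw

theorem ev_mul_Jd (hx : x ∈ Submodule.span ℝ (S : Set N)) (w : Om N) : ev x * w ∈ Jd S := by
  induction hx using Submodule.span_induction with
  | mem v hv => exact coe_Jd_mem hv w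
  | zero => rw [← zero_smul ℝ (0 : N), ev_smul, zero_smul, zero_mul]; exact zero_mem _
  | add a b _ _ ha hb => rw [ev_add, add_mul]; exact add_mem ha hb
  | smul c a _ ha => rw [ev_smul, smul_mul_assoc]; exact Submodule.smul_mem _ _ ha

theorem Jd_union (S T : Finset N) : Jd (S ∪ T) = Jd S ⊔ Jd T := Finset.iSup_union

theorem Jd_empty : Jd (∅ : Finset N) = ⊥ := Vp_eq_bot (by simp)

theorem emb_JE {b : Ex N} (h : b ∈ JE S) : emb b ∈ Jd S :=
  coe_JE_map emb.toLinearMap (fun x hx c => by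
    rw [AlgHom.toLinearMap_apply, map_mul, emb_ι]
    exact coe_Jd_mem hx _) h

theorem sc_Jd (h : w ∈ Jd S) : sc w ∈ JE S :=
  coe_Jd_map sc.toLinearMap (fun x hx c => by
    rw [AlgHom.toLinearMap_apply, map_mul, sc_ev]
    exact coe_JE_mem hx _) h

/-- The projector that kills the multiples of `ev x` maps the ideal of `S` to that of
`S.erase x`. -/
theorem proj_Jd {m : Module.Dual ℝ N} (h1 : m x = 1) (h0 : ∀ v ∈ S, v ≠ x → m v = 0)
    (h : w ∈ Jd S) : kx m (ev x * w) ∈ Jd (S.erase x) := by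
  have _ := h1
  obtain ⟨u, hu, e⟩ := coe_ev_erase x h
  rw [← e]
  exact kx_Vp_of_zero (fun v hv => h0 v (Finset.mem_of_mem_erase hv) (Finset.ne_of_mem_erase hv))
    (mul_mem_Vp _ hu)

/-- Coefficients in the ideal of a face are sums of multiples inside the coefficient spaces. -/
theorem Co_inf_Jd (hF : Fn De) (hη : η ∈ De) {γ : Finset N} (hγ : γ ⊆ η)
    (h : w ∈ Co De η S (p + 1)) (h' : w ∈ Jd γ) :
    w ∈ ⨆ x ∈ γ, (Co De η S p).map (LinearMap.mulLeft ℝ (ev x)) := by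
  induction γ using Finset.induction_on generalizing w with
  | empty =>
    rw [Jd_empty] at h'
    exact bot_le (a := ⨆ x ∈ (∅ : Finset N), (Co De η S p).map (LinearMap.mulLeft ℝ (ev x))) h'
  | insert x γ hx ih =>
    obtain ⟨m, hm⟩ := hF.dual hη x
    have hx' := hγ (Finset.mem_insert_self x γ)
    have h1 : m x = 1 := by rw [hm x hx', if_pos rfl]
    have h2 := proj_Jd h1 (fun v hv e => by rw [hm v (hγ hv), if_neg e]) h'
    rw [Finset.erase_insert hx] at h2
    have e : w = ev x * kx m w + kx m (ev x * w) := by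
      rw [kx_ev_mul, h1, one_smul, add_sub_cancel]
    rw [Finset.iSup_insert, e]
    exact Submodule.add_mem_sup ⟨_, kx_Co m h, rfl⟩
      (ih ((Finset.subset_insert x γ).trans hγ) (kx_Co m (ev_Co hx' h)) h2)

theorem eps_mul_Jd {γ : Finset N} {b : Ex N} (h : eps S * emb b ∈ Jd γ) : b ∈ JE γ := by
  induction S using Finset.induction_on with
  | empty => simpa only [eps_empty, one_mul, sc_emb] using sc_Jd h
  | insert a S ha ih =>
    have := Submodule.smul_mem _ (sg S a) (cx_Vp a h)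
    rw [coe_cx_insert ha, smul_smul, sg_sq, one_smul] at this
    exact ih this

theorem Co_zero_Jd {γ : Finset N} (h : w ∈ Co De η S 0) (h' : w ∈ Jd γ) : w = 0 := by
  obtain ⟨b, hb, rfl⟩ := mem_Co.1 h
  obtain ⟨c, rfl⟩ := Submodule.mem_span_singleton.1 (FF_zero_le _ hb)
  rw [smul_one_JE (eps_mul_Jd h'), zero_smul, map_zero, mul_zero]

theorem coe_pis_Jd (hF : Fn De) {β : Finset N} (hη : η ∈ De) (hβ : β ⊆ η) (hS : S ⊆ η \ β)
    {b : Ex N} (h : pis S * emb b ∈ Jd β) : b ∈ JE (S ∪ β) := by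
  induction S using Finset.induction_on generalizing b with
  | empty => simpa only [pis_empty, one_mul, sc_emb, Finset.empty_union] using sc_Jd h
  | insert a S ha ih =>
    rw [Finset.insert_subset_iff] at hS
    obtain ⟨h1, h2⟩ := Finset.mem_sdiff.1 hS.1
    have h3 := cx_Vp a h
    rw [cx_pis_mul, if_pos (Finset.mem_insert_self a S), Finset.erase_insert ha, cx_emb, mul_zero,
      add_zero, ← pis_comm, mul_assoc, ← emb_ι, ← map_mul] at h3
    obtain ⟨m, hm⟩ := hF.dual hη a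
    have h4 := ct_JE (m := m) (fun v hv => ?_) (ih hS.2 h3)
    · rw [ct_mul, hm a h1, if_pos rfl, one_smul] at h4
      rw [← sub_add_cancel b (ι ℝ a * ct m b), Finset.insert_union]
      exact add_mem (JE_mono (Finset.subset_insert _ _) h4) (coe_JE_mem (Finset.mem_insert_self _ _) _)
    · rcases Finset.mem_union.1 hv with hv | hv
      · rw [hm v (Finset.mem_sdiff.1 (hS.2 hv)).1, if_neg fun e : v = a => ha (e ▸ hv)]
      · rw [hm v (hβ hv), if_neg fun e : v = a => h2 (e ▸ hv)]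

theorem pis_mul_Jd (hF : Fn De) {β : Finset N} (hη : η ∈ De) (hβ : β ⊆ η) {b : Ex N}
    (h : pis (η \ β) * emb b ∈ Jd β) : b ∈ JE η := by
  simpa only [Finset.sdiff_union_of_subset hβ] using coe_pis_Jd hF hη hβ subset_rfl h

theorem pis_mul_JE {β : Finset N} {b : Ex N} (h : b ∈ JE η) : pis (η \ β) * emb b ∈ Jd β := by
  refine coe_JE_map (LinearMap.mulLeft ℝ (pis (η \ β)) ∘ₗ emb.toLinearMap) (fun x hx c => ?_) h
  change pis (η \ β) * emb (ι ℝ x * c) ∈ _
  rw [map_mul, emb_ι, ← mul_assoc, pis_comm]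
  by_cases e : x ∈ β
  · rw [mul_assoc]
    exact coe_Jd_mem e _
  · rw [ev_mul_pis (Finset.mem_sdiff.2 ⟨hx, e⟩), zero_mul]
    exact zero_mem _

end K2
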