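import Pool.Agent.Lib.MP_e9c0f3_ag.K2.Defs
import Pool.Agent.Lib.MP_e9c0f3_ag.KH.K9
import Pool.Agent.Lib.MP_e9c0f3_ag.KH.Alg

/-! Minkowski weights and functionals on Chow rings. -/

open scoped Classical

noncomputable section

namespace K2

variable {N : Type} [AddCommGroup N] [Module ℝ N] {De : Finset (Finset N)} {β : Finset N} {s : ℕ}

/-- The weight `w` on the faces with `s` vertices outside `β` is balanced. -/
def Bal (De : Finset (Finset N)) (β : Finset N) (s : ℕ) (w : Finset N → ℝ) : Prop :=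
  ∀ τ ∈ De, β ⊆ τ → (τ \ β).card + 1 = s →
    ∑ x ∈ (vx De \ τ).filter (insert · τ ∈ De), w (insert x τ) • x ∈
      Submodule.span ℝ (τ : Set N)

theorem mem_Md {ψ : Module.Dual ℝ (Po N)} :
    ψ ∈ Md De β s ↔ (∀ a ∈ Ic De β, ψ a = 0) ∧ Hom ψ s := Iff.rfl

@[simp] theorem mx_apply (a b : Po N) (ψ : Module.Dual ℝ (Po N)) : mx a ψ b = ψ (a * b) := rfl

theorem xs_insert {S : Finset N} {x : N} (h : x ∉ S) :
    xs (insert x S) = MvPolynomial.X x * xs S := Finset.prod_insert h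

theorem xs_hom (S : Finset N) : (xs S).IsHomogeneous S.card := by
  have := MvPolynomial.IsHomogeneous.prod S (fun v => (MvPolynomial.X v : Po N)) (fun _ => 1)
    fun v _ => MvPolynomial.isHomogeneous_X ℝ v
  simpa [xs] using this

theorem lin_hom (l : N → ℝ) : (lin De l).IsHomogeneous 1 :=
  (MvPolynomial.homogeneousSubmodule N ℝ 1).sum_mem fun v _ =>
    Submodule.smul_mem _ _ (MvPolynomial.isHomogeneous_X ℝ v)

theorem mw_xs_mem {S : Finset N} (h : S ∪ β ∉ De) : xs S ∈ Ic De β :=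
  Ideal.subset_span (Or.inl ⟨S, h, rfl⟩)

theorem mw_lin_mem (m : Module.Dual ℝ N) : lin De m ∈ Ic De β :=
  Ideal.subset_span (Or.inr ⟨m, rfl⟩)

open Pool.Agent.MP_e9c0f3_ag.KH in
theorem mw_Ic_eq : Ic De β = K9.Ic (· ∈ De) (De.biUnion id)
    ((⊤ : Submodule ℝ (Module.Dual ℝ N)).map K9.coeL) β := by
  have h : ∀ m : N → ℝ, lin De m = K9.lin (De.biUnion id) m := fun m =>
    Finset.sum_congr rfl fun v _ => MvPolynomial.smul_eq_C_mul _ _
  unfold Ic K9.Ic
  congr 2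
  ext a
  constructor
  · rintro ⟨m, rfl⟩
    exact ⟨m, ⟨m, trivial, rfl⟩, h m⟩
  · rintro ⟨_, ⟨m, -, rfl⟩, rfl⟩
    exact ⟨m, (h m).symm⟩

open Pool.Agent.MP_e9c0f3_ag.KH in
theorem mw_ctx (h : Fn De) : K9.Ctx (· ∈ De) (De.biUnion id)
    ((⊤ : Submodule ℝ (Module.Dual ℝ N)).map K9.coeL) :=
  K9.ctx_of h.down fun t ht f => (h.onto t ht f).imp fun _ hm => ⟨trivial, hm⟩

theorem mw_mem_span {τ : Finset N} {x : N} : x ∈ Submodule.span ℝ (τ : Set N) ↔
    ∀ m : Module.Dual ℝ N, (∀ v ∈ τ, m v = 0) → m x = 0 := by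
  rw [← Subspace.forall_mem_dualAnnihilator_apply_eq_zero_iff]
  refine forall_congr' fun m => imp_congr_left ?_
  rw [Submodule.mem_dualAnnihilator]
  exact ⟨fun h v hv => h v (Submodule.subset_span hv), fun h w hw =>
    (Submodule.span_le (p := LinearMap.ker m)).2 (fun v hv => h v hv) hw⟩

open Pool.Agent.MP_e9c0f3_ag.KH in
theorem mw_bal_iff {w : Finset N → ℝ} : Bal De β s w ↔ K9.Bal (· ∈ De) (De.biUnion id)
    ((⊤ : Submodule ℝ (Module.Dual ℝ N)).map K9.coeL) β s fun S => w (S ∪ β) := by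
  have key : ∀ (S : Finset N) (m : Module.Dual ℝ N),
      m (∑ x ∈ (vx De \ (S ∪ β)).filter (insert · (S ∪ β) ∈ De), w (insert x (S ∪ β)) • x) =
      ∑ v ∈ (De.biUnion id).filter (fun v => v ∉ S ∪ β ∧ insert v S ∪ β ∈ De),
        m v * w (insert v S ∪ β) := by
    intro S m
    rw [map_sum]
    refine Finset.sum_congr ?_ fun v _ => ?_
    · ext v
      simp only [vx, Finset.mem_filter, Finset.mem_sdiff, Finset.insert_union, and_assoc]
    · rw [map_smul, smul_eq_mul, mul_comm, Finset.insert_union]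
  constructor
  · rintro h S hd hS hc _ ⟨m, -, rfl⟩ h0
    have := mw_mem_span.1 (h _ hS Finset.subset_union_right
      (by rwa [Finset.union_sdiff_cancel_right hd])) m h0
    rw [key] at this
    convert this
    rfl
  · intro h τ hτ hβ hc
    have e : τ \ β ∪ β = τ := Finset.sdiff_union_of_subset hβ
    rw [mw_mem_span, ← e]
    intro m h0
    rw [key]
    convert h (τ \ β) Finset.sdiff_disjoint (e.symm ▸ hτ) hc m ⟨m, trivial, rfl⟩ h0

omit [AddCommGroup N] [Module ℝ N] in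
theorem mw_ext_hom {ψ ψ' : Module.Dual ℝ (Po N)}
    (h : ∀ j, ∀ a : Po N, a.IsHomogeneous j → ψ a = ψ' a) : ψ = ψ' := by
  refine LinearMap.ext fun a => ?_
  induction a using KH.gr_mv.induction with
  | h j a ha => exact h j a ha
  | h0 => rw [map_zero, map_zero]
  | ha a b ha hb => rw [map_add, map_add, ha, hb]

theorem Ic_mono (h : Fn De) {β β' : Finset N} (hβ : β ⊆ β') : Ic De β ≤ Ic De β' := by
  refine Ideal.span_le.2 ?_
  rintro _ (⟨S, hS, rfl⟩ | ⟨m, rfl⟩)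
  · exact mw_xs_mem fun h' => hS (h.down _ h' _ (Finset.union_subset_union_right hβ))
  · exact mw_lin_mem m

theorem X_mul_Ic {x : N} {a : Po N} (hx : x ∉ β) (h : a ∈ Ic De (insert x β)) :
    MvPolynomial.X x * a ∈ Ic De β := by
  have : Ic De (insert x β) ≤ (Ic De β).colon {MvPolynomial.X x} := by
    refine Ideal.span_le.2 ?_
    rintro _ (⟨S, hS, rfl⟩ | ⟨m, rfl⟩) <;>
      rw [SetLike.mem_coe, Submodule.mem_colon_singleton, smul_eq_mul]
    · by_cases hS' : x ∈ S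
      · refine Ideal.mul_mem_right _ _ (mw_xs_mem ?_)
        rwa [Finset.union_insert, Finset.insert_eq_of_mem (Finset.mem_union_left _ hS')] at hS
      · rw [mul_comm, ← xs_insert hS']
        refine mw_xs_mem ?_
        rwa [Finset.union_insert, ← Finset.insert_union] at hS
    · exact Ideal.mul_mem_right _ _ (mw_lin_mem m)
  have := this h
  rwa [Submodule.mem_colon_singleton, smul_eq_mul, mul_comm] at this

/-- Restriction to a smaller star. -/
theorem mx_X_Md (h : Fn De) {x : N} {ψ : Module.Dual ℝ (Po N)} (hψ : ψ ∈ Md De β (s + 1))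
    (hx : x ∉ β) : mx (MvPolynomial.X x) ψ ∈ Md De (insert x β) s :=
  ⟨fun _ ha => hψ.1 _ (X_mul_Ic hx ha), fun j hj _ ha =>
    hψ.2 (1 + j) (by omega) _ ((MvPolynomial.isHomogeneous_X ℝ x).mul ha)⟩

/-- The Gysin map. -/
theorem Md_anti (h : Fn De) {β β' : Finset N} (hβ : β ⊆ β') : Md De β' s ≤ Md De β s :=
  fun _ hψ => ⟨fun a ha => hψ.1 a (Ic_mono h hβ ha), hψ.2⟩

theorem mx_Md {a : Po N} {k : ℕ} (ha : a.IsHomogeneous k) {ψ : Module.Dual ℝ (Po N)}
    (hψ : ψ ∈ Md De β (s + k)) : mx a ψ ∈ Md De β s :=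
  ⟨fun _ hb => hψ.1 _ (Ideal.mul_mem_left _ _ hb), fun j hj _ hb =>
    hψ.2 (k + j) (by omega) _ (ha.mul hb)⟩

theorem mx_Md_lt {a : Po N} {k : ℕ} (ha : a.IsHomogeneous k) {ψ : Module.Dual ℝ (Po N)}
    (hψ : ψ ∈ Md De β s) (h : s < k) : mx a ψ = 0 :=
  mw_ext_hom fun j _ hb => hψ.2 (k + j) (by omega) _ (ha.mul hb)

theorem mw_exists (h : Fn De) (hβ : β ∈ De) {w : Finset N → ℝ} (hw : Bal De β s w) :
    ∃ ψ ∈ Md De β s, ∀ η ∈ De, β ⊆ η → (η \ β).card = s → ψ (xs (η \ β)) = w η := by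
  obtain ⟨ψ, h1, h2, h3⟩ :=
    Pool.Agent.MP_e9c0f3_ag.KH.K9.exists_functional (mw_ctx h) (mw_bal_iff.1 hw)
  refine ⟨ψ, ⟨fun a ha => h2 a (mw_Ic_eq (De := De) (β := β) ▸ ha), h1⟩, fun η hη hβη hc => ?_⟩
  have e : η \ β ∪ β = η := Finset.sdiff_union_of_subset hβη
  have := h3 (η \ β) Finset.sdiff_disjoint (e.symm ▸ hη) hc
  rwa [e] at this

theorem mw_bal (h : Fn De) {ψ : Module.Dual ℝ (Po N)} (hψ : ψ ∈ Md De β s) :
    Bal De β s fun η => ψ (xs (η \ β)) := by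
  rw [mw_bal_iff]
  intro S hd hS hc m hm h0
  rw [← Pool.Agent.MP_e9c0f3_ag.KH.K9.bal_of_functional s (φ := ψ)
    (fun q hq => hψ.1 q (mw_Ic_eq (De := De) (β := β) ▸ hq)) S hd hS hc m hm h0]
  refine Finset.sum_congr rfl fun v hv => ?_
  simp only [Finset.mem_filter] at hv
  have hv' : v ∉ β := fun h' => hv.2.1 (Finset.mem_union_right _ h')
  beta_reduce
  rw [Finset.union_sdiff_cancel_right (Finset.disjoint_insert_left.2 ⟨hv', hd⟩)]
  rfl

theorem mw_ext (h : Fn De) {ψ : Module.Dual ℝ (Po N)} (hψ : ψ ∈ Md De β s)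
    (h0 : ∀ η ∈ De, β ⊆ η → (η \ β).card = s → ψ (xs (η \ β)) = 0) : ψ = 0 := by
  refine mw_ext_hom fun j a ha => ?_
  by_cases hj : j = s
  · subst hj
    refine Pool.Agent.MP_e9c0f3_ag.KH.K9.eq_zero_of_xS (mw_ctx h)
      (fun q hq => hψ.1 q (mw_Ic_eq (De := De) (β := β) ▸ hq)) (fun S hd hS hc => ?_) ha
    have := h0 _ hS Finset.subset_union_right (by rwa [Finset.union_sdiff_cancel_right hd])
    rwa [Finset.union_sdiff_cancel_right hd] at this
  · exact hψ.2 j hj a ha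

theorem Md_finite (h : Fn De) (β : Finset N) (s : ℕ) : FiniteDimensional ℝ (Md De β s) := by
  let f : Md De β s →ₗ[ℝ] (De → ℝ) :=
    { toFun := fun ψ η => ψ.1 (xs (η.1 \ β))
      map_add' := fun _ _ => rfl
      map_smul' := fun _ _ => rfl }
  refine FiniteDimensional.of_injective f ((injective_iff_map_eq_zero f).2 fun ψ hψ => ?_)
  exact Subtype.ext (mw_ext h ψ.2 fun η hη _ _ => congrFun hψ ⟨η, hη⟩)

/-- Poincare duality: every functional is represented by a homogeneous polynomial. -/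
theorem md_rep (h : Fn De) {φ : Module.Dual ℝ (Po N)} {k : ℕ} (hk : Hom φ (s + k))
    (pd : ∀ a, Ann φ a ↔ a ∈ Ic De β) {ψ : Module.Dual ℝ (Po N)} (hψ : ψ ∈ Md De β s) :
    ∃ a : Po N, a.IsHomogeneous k ∧ ψ = mx a φ := by
  have D : KH.Dat (MvPolynomial.homogeneousSubmodule N ℝ) φ (s + k) :=
    KH.dat_mv (vx De) (fun v hv => (pd _).2 (by
      have : xs {v} ∈ Ic De β := mw_xs_mem fun h' => hv (Finset.mem_biUnion.2 ⟨_, h', by simp⟩)
      simpa [xs] using this)) hk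
  obtain ⟨n, σ, s1, -, s3⟩ := D.frame k
  obtain ⟨n', τ, t1, t2, t3⟩ := D.frame s
  have hinj : Function.Injective (KH.bil φ σ τ).flip := by
    rw [injective_iff_map_eq_zero]
    intro y hy
    refine t2 y (D.ann_of_pair (t1 y) fun j hj b hb => ?_)
    obtain rfl : j = k := by omega
    obtain ⟨x, hx⟩ := s3 b hb
    have : φ (σ x * τ y) = 0 := LinearMap.congr_fun hy x
    rw [← this, mul_comm (σ x)]
    apply KH.deg_congr
    rw [← mul_sub]
    exact Ideal.mul_mem_left _ _ hx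
  obtain ⟨x, hx⟩ := LinearMap.flip_injective_iff₁.1 hinj (ψ ∘ₗ τ)
  refine ⟨σ x, s1 x, mw_ext_hom fun j b hb => ?_⟩
  by_cases hj : j = s
  · subst hj
    obtain ⟨y, hy⟩ := t3 b hb
    have e1 : φ (σ x * τ y) = ψ (τ y) := LinearMap.congr_fun hx y
    have e2 := hψ.1 _ ((pd _).1 hy)
    rw [map_sub, sub_eq_zero] at e2
    rw [e2, ← e1, mx_apply]
    symm
    apply KH.deg_congr
    rw [← mul_sub]
    exact Ideal.mul_mem_left _ _ hy
  · rw [hψ.2 j hj b hb, mx_apply, hk (k + j) (by omega) _ (MvPolynomial.IsHomogeneous.mul (s1 x) hb)]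

theorem md_high {φ : Module.Dual ℝ (Po N)} {k : ℕ} (hk : Hom φ k)
    (pd : ∀ a, Ann φ a ↔ a ∈ Ic De β) (hs : k < s) : Md De β s = ⊥ := by
  refine (Submodule.eq_bot_iff _).2 fun ψ hψ => mw_ext_hom fun j a ha => ?_
  by_cases hj : j = s
  · subst hj
    exact hψ.1 a ((pd a).1 (KH.ann_of_pair KH.gr_mv hk ha fun i hi => absurd hi (by omega)))
  · exact hψ.2 j hj a ha

/-- The Hodge-Riemann relations imply hard Lefschetz. -/
theorem HR.hl {φ : Module.Dual ℝ (Po N)} {d k : ℕ} {l a : Po N} (h : HR φ d l)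
    (ha : a.IsHomogeneous k) (hk : 2 * k ≤ d) (h0 : Ann φ (l ^ (d - 2 * k) * a)) : Ann φ a := by
  by_contra hn
  have := h k a ha hk (fun b => by
    rw [← h0 (l * b)]
    congr 1
    ring) hn
  rw [mul_comm (a * a), ← mul_assoc, h0 a, mul_zero] at this
  exact lt_irrefl _ this

end K2
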