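import Pool.Agent.Lib.MP_e9c0f3_ag.K2.Yloc
import Pool.Agent.Lib.MP_e9c0f3_ag.K2.MW

/-! The homology of a compactified star. -/

open ExteriorAlgebra KH
open scoped Classical

noncomputable section

namespace K2

variable {N : Type} [AddCommGroup N] [Module ℝ N] {De : Finset (Finset N)} {t : Module.Dual ℝ N}

variable {β : Finset N} {s q : ℕ} {ψ : Module.Dual ℝ (Po N)}

theorem io_apply (β : Finset N) (ψ : Module.Dual ℝ (Po N)) : io De β ψ =
    ∑ η ∈ De.filter (β ⊆ ·), ψ (xs (η \ β)) • Finsupp.single (β, η) (pis (η \ β)) := by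
  rw [io, LinearMap.sum_apply]
  rfl

theorem yh_zero (hψ : ψ ∈ Md De β s) {η : Finset N} (h : (η \ β).card ≠ s) :
    ψ (xs (η \ β)) = 0 := (mem_Md.1 hψ).2 _ h _ (xs_hom _)

theorem yh_one {η : Finset N} (hη : η ∈ De) : (1 : Ex N) ∈ FF De 0 η := by
  rw [FF_zero hη]
  exact Submodule.mem_span_singleton_self _

theorem io_YC (hψ : ψ ∈ Md De β s) : io De β ψ ∈ YC De β s s := by
  rw [io_apply]
  refine Submodule.sum_mem _ fun η hη => ?_
  obtain ⟨h1, h2⟩ := Finset.mem_filter.1 hη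
  by_cases e : (η \ β).card = s
  · refine Submodule.smul_mem _ _ (single_mem_Pw ?_)
    rw [if_pos ⟨⟨subset_rfl, h2, h1⟩, e⟩]
    have := pis_Co (S := η \ β) Finset.sdiff_subset (yh_one h1)
    rwa [map_one, mul_one, zero_add, e] at this
  · rw [yh_zero hψ e, zero_smul]
    exact Submodule.zero_mem _

/-- The residue chain of a functional. -/
def yhW (De : Finset (Finset N)) (β : Finset N) (ψ : Module.Dual ℝ (Po N)) : Finset N →₀ Ex N :=
  ∑ η ∈ De.filter (β ⊆ ·), Finsupp.single η (ψ (xs (η \ β)) • 1)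

theorem yhW_apply (η : Finset N) :
    yhW De β ψ η = if η ∈ De ∧ β ⊆ η then ψ (xs (η \ β)) • 1 else 0 := by
  rw [yhW, Finsupp.finsetSum_apply]
  simp only [Finsupp.single_apply, Finset.sum_ite_eq', Finset.mem_filter]

theorem rs_yhW : rs β (yhW De β ψ) = io De β ψ := by
  rw [yhW, map_sum, io_apply]
  refine Finset.sum_congr rfl fun η _ => ?_
  rw [rs_single, map_smul, map_one, mul_smul_comm, mul_one, Finsupp.smul_single]

theorem yhW_RC (hψ : ψ ∈ Md De β s) : yhW De β ψ ∈ RC De β s s := by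
  refine mem_Pw.2 fun η => ?_
  rw [yhW_apply]
  by_cases h : η ∈ De ∧ β ⊆ η
  · rw [if_pos h]
    by_cases e : (η \ β).card = s
    · rw [if_pos ⟨h.1, h.2, e, le_rfl⟩, Nat.sub_self]
      exact Submodule.smul_mem _ _ (yh_one h.1)
    · rw [yh_zero hψ e, zero_smul]
      exact Submodule.zero_mem _
  · rw [if_neg h]
    exact Submodule.zero_mem _

theorem yh_RC_bot (h : s < q) {w : Finset N →₀ Ex N} (hw : w ∈ RC De β s q) : w = 0 := by
  ext η
  have := mem_Pw.1 hw η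
  rwa [if_neg (fun k => absurd k.2.2.2 (not_le.2 h)), Submodule.mem_bot] at this

theorem yh_bd_rs (_h : Fn De) {w : Finset N →₀ Ex N} (hw : w ∈ RC De β s q) :
    bd (rs β w) - rs β (rd β w) ∈ YZ De β := by
  refine map_mem_of_Pw (bd ∘ₗ rs β - rs β ∘ₗ rd β) (fun η b hb => ?_) hw
  by_cases hη : η ∈ De ∧ β ⊆ η ∧ (η \ β).card = q ∧ q ≤ s
  swap
  · rw [if_neg hη, Submodule.mem_bot] at hb
    rw [hb, Finsupp.single_zero, map_zero]
    exact Submodule.zero_mem _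
  rw [LinearMap.sub_apply, LinearMap.comp_apply, LinearMap.comp_apply, rs_single, rd_single,
    bd_single, map_sum, ← Finset.sum_sub_distrib]
  refine Submodule.sum_mem _ fun x hx => ?_
  have e1 : η.erase x \ β = (η \ β).erase x := by
    ext y
    simp only [Finset.mem_sdiff, Finset.mem_erase]
    tauto
  rw [cx_pis_mul, if_pos hx, cx_emb, mul_zero, add_zero, rs_single, map_mul, emb_ι, e1,
    ← mul_assoc, pis_comm, sub_sub_cancel_left]
  refine Submodule.neg_mem _ (single_mem_Pw ?_)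
  rw [if_pos ⟨Finset.subset_insert _ _,
    Finset.insert_subset (Finset.mem_sdiff.1 hx).1 hη.2.1, hη.1⟩, mul_assoc]
  exact ev_mul_Jd (Submodule.subset_span (by simp)) _

theorem yh_rd_apply {w : Finset N →₀ Ex N} (hw : w ∈ RC De β s q) {τ : Finset N} (hτ : β ⊆ τ) :
    rd β w τ = ∑ x ∈ (vx De \ τ).filter (insert · τ ∈ De), ι ℝ x * w (insert x τ) := by
  have := map_mem_of_Pw (S := ⊥) (Finsupp.lapply τ ∘ₗ rd β -
    ∑ x ∈ (vx De \ τ).filter (insert · τ ∈ De),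
      LinearMap.mulLeft ℝ (ι ℝ x) ∘ₗ Finsupp.lapply (insert x τ)) (fun η b hb => ?_) hw
  · rw [Submodule.mem_bot, LinearMap.sub_apply, sub_eq_zero, LinearMap.sum_apply] at this
    exact this
  by_cases hη : η ∈ De ∧ β ⊆ η ∧ (η \ β).card = q ∧ q ≤ s
  swap
  · rw [if_neg hη, Submodule.mem_bot] at hb
    rw [hb, Finsupp.single_zero, map_zero]
    exact Submodule.zero_mem _
  rw [Submodule.mem_bot, LinearMap.sub_apply, sub_eq_zero, LinearMap.sum_apply,
    LinearMap.comp_apply, rd_single, map_sum]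
  simp only [LinearMap.comp_apply, Finsupp.lapply_apply, Finsupp.single_apply,
    LinearMap.mulLeft_apply, mul_ite, mul_zero]
  rw [← Finset.sum_filter, ← Finset.sum_filter]
  refine Finset.sum_congr ?_ fun _ _ => rfl
  ext x
  simp only [Finset.mem_filter, Finset.mem_sdiff]
  constructor
  · rintro ⟨⟨a1, -⟩, rfl⟩
    rw [Finset.insert_erase a1]
    exact ⟨⟨⟨mem_vx.2 ⟨η, hη.1, a1⟩, Finset.notMem_erase _ _⟩, hη.1⟩, rfl⟩
  · rintro ⟨⟨⟨-, a2⟩, -⟩, rfl⟩
    exact ⟨⟨Finset.mem_insert_self _ _, fun k => a2 (hτ k)⟩, Finset.erase_insert a2⟩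

theorem yh_split (h : Fn De) {x : Kc N} (hx : x ∈ (cxY h β s).Cy q) :
    ∃ x' ∈ (cxY h β s).Cy q, ∃ w ∈ RC De β s q, rd β w ∈ RZ De β ∧
      x' - rs β w ∈ WY De β (0 - q + 1) ∧ x - x' ∈ (cxY h β s).Bd q := by
  have hc := concY h β s
  obtain ⟨x', a1, w, a2, a3, a4, a5⟩ := hc.down hx
  obtain ⟨u, hu, v, hv, rfl⟩ := Submodule.mem_sup.1 a2
  refine ⟨x', a1, u, hu, mem_of_eq (sub_mem a3 (hc.dZ v hv)) (by rw [map_add]; abel),
    mem_of_eq (add_mem a4 (hc.ZW _ (hc.iZ v hv))) (by rw [map_add]; abel), a5⟩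

theorem y_ne (h : Fn De) (hr : Res De β) (hq : q ≠ s) :
    (cxY h β s).Cy q ≤ (cxY h β s).Bd q := by
  intro x hx
  obtain ⟨x', a1, w, a2, a3, a4, a5⟩ := yh_split h hx
  have b : x' ∈ (cxY h β s).Bd q := by
    refine ((concY h β s).bd_iff a1 (Submodule.mem_sup_left a2) a4).2 ?_
    rcases lt_or_gt_of_ne hq with k | k
    · obtain ⟨y, hy, e⟩ := mem_map_sup.1 (hr s q k w a2 a3)
      exact mem_map_sup.2 ⟨y, Submodule.mem_sup_left hy, e⟩
    · rw [yh_RC_bot k a2]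
      exact Submodule.zero_mem _
  exact mem_of_eq (add_mem a5 b) (by abel)

theorem y_surj (h : Fn De) (hβ : β ∈ De) {x : Kc N} (hx : x ∈ (cxY h β s).Cy s) :
    ∃ ψ ∈ Md De β s, x - io De β ψ ∈ (cxY h β s).Bd s := by
  have hc := concY h β s
  obtain ⟨x', a1, w, a2, a3, a4, a5⟩ := yh_split h hx
  have b1 : ∀ η, ∃ c : ℝ, c • (1 : Ex N) = w η := fun η => by
    have := mem_Pw.1 a2 η
    split_ifs at this with k
    · rw [Nat.sub_self] at this
      exact Submodule.mem_span_singleton.1 (FF_zero_le _ this)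
    · exact ⟨0, by rw [zero_smul, (Submodule.mem_bot ℝ).1 this]⟩
  choose c b1 using b1
  have b2 : Bal De β s c := fun τ hτ h1 _ => by
    have := mem_Pw.1 a3 τ
    rw [if_pos ⟨hτ, h1⟩, yh_rd_apply a2 h1] at this
    refine mem_span_of_JE (mem_of_eq this ?_)
    rw [map_sum]
    exact Finset.sum_congr rfl fun x _ => by rw [← b1, map_smul, mul_smul_comm, mul_one]
  obtain ⟨ψ, b3, b4⟩ := mw_exists h hβ b2
  have b5 : w = yhW De β ψ := by
    ext η
    have k1 := mem_Pw.1 a2 η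
    have k2 := mem_Pw.1 (yhW_RC b3) η
    by_cases k : η ∈ De ∧ β ⊆ η ∧ (η \ β).card = s ∧ s ≤ s
    · rw [yhW_apply, if_pos ⟨k.1, k.2.1⟩, b4 η k.1 k.2.1 k.2.2.1, b1]
    · rw [if_neg k, Submodule.mem_bot] at k1 k2
      rw [k1, k2]
  have b6 : rs β w ∈ (cxY h β s).Cy s :=
    Cx1.mem_Cy.2 ⟨(hc.iC s w (Submodule.mem_sup_left a2)).1,
      mem_of_eq (add_mem (yh_bd_rs h a2) (hc.iZ _ a3)) (sub_add_cancel _ _).symm⟩
  have b7 : x' - rs β w ∈ (cxY h β s).Bd s :=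
    (hc.bd_iff (w := 0) (sub_mem a1 b6) (zero_mem _) (by rwa [map_zero, sub_zero])).2 (zero_mem _)
  refine ⟨ψ, b3, mem_of_eq (add_mem a5 b7) ?_⟩
  rw [← rs_yhW, ← b5]
  abel

theorem y_inj (h : Fn De) (hψ : ψ ∈ Md De β s) (h0 : io De β ψ ∈ (cxY h β s).Bd s) : ψ = 0 := by
  have hc := concY h β s
  have a1 := (hc.bd_iff ((cxY h β s).Bd_le_Cy s h0) (Submodule.mem_sup_left (yhW_RC hψ))
    (by rw [rs_yhW, sub_self]; exact zero_mem _)).1 h0
  obtain ⟨y, hy, a2⟩ := mem_map_sup.1 a1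
  obtain ⟨u, hu, v, hv, rfl⟩ := Submodule.mem_sup.1 hy
  rw [yh_RC_bot (Nat.lt_succ_self s) hu, zero_add] at a2
  have a3 : yhW De β ψ ∈ RZ De β := mem_of_eq (add_mem a2 (hc.dZ v hv)) (sub_add_cancel _ _).symm
  refine mw_ext h hψ fun η h1 h2 _ => ?_
  have := mem_Pw.1 a3 η
  rw [if_pos ⟨h1, h2⟩, yhW_apply, if_pos ⟨h1, h2⟩] at this
  exact smul_one_JE this

end K2
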