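import Pool.Agent.Lib.MP_e9c0f3_ag.K2.Dec
import Pool.Agent.Lib.MP_e9c0f3_ag.K2.Yhom

/-! Restriction, Gysin map and Lefschetz operator on the cycles of Minkowski weights. -/

open ExteriorAlgebra KH
open scoped Classical

noncomputable section

namespace K2

variable {N : Type} [AddCommGroup N] [Module ℝ N] {De : Finset (Finset N)} {t : Module.Dual ℝ N}

variable {β : Finset N} {s : ℕ} {ψ : Module.Dual ℝ (Po N)}

theorem cm_sum1 {M : Type*} [AddCommMonoid M] (h : Fn De) (β : Finset N) (F : Finset N → N → M) :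
    ∑ η ∈ De.filter (β ⊆ ·), ∑ x ∈ η \ β, F η x =
      ∑ τ ∈ De.filter (β ⊆ ·), ∑ x ∈ (vx De \ τ).filter (insert · τ ∈ De), F (insert x τ) x := by
  rw [Finset.sum_sigma', Finset.sum_sigma']
  refine Finset.sum_bij' (fun a _ => ⟨a.1.erase a.2, a.2⟩) (fun a _ => ⟨insert a.2 a.1, a.2⟩)
    ?_ ?_ ?_ ?_ ?_
  · rintro ⟨η, x⟩ ha
    simp only [Finset.mem_sigma, Finset.mem_filter, Finset.mem_sdiff] at ha ⊢
    obtain ⟨⟨h1, h2⟩, h3, h4⟩ := ha
    refine ⟨⟨h.down _ h1 _ (Finset.erase_subset _ _), Finset.subset_erase.2 ⟨h2, h4⟩⟩,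
      ⟨mem_vx.2 ⟨η, h1, h3⟩, Finset.notMem_erase _ _⟩, ?_⟩
    rwa [Finset.insert_erase h3]
  · rintro ⟨τ, x⟩ ha
    simp only [Finset.mem_sigma, Finset.mem_filter, Finset.mem_sdiff] at ha ⊢
    obtain ⟨⟨-, h2⟩, ⟨-, h3⟩, h4⟩ := ha
    exact ⟨⟨h4, h2.trans (Finset.subset_insert _ _)⟩, Finset.mem_insert_self _ _,
      fun h5 => h3 (h2 h5)⟩
  · rintro ⟨η, x⟩ ha
    simp only [Finset.mem_sigma, Finset.mem_filter, Finset.mem_sdiff] at ha
    simp only [Finset.insert_erase ha.2.1]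
  · rintro ⟨τ, x⟩ ha
    simp only [Finset.mem_sigma, Finset.mem_filter, Finset.mem_sdiff] at ha
    simp only [Finset.erase_insert ha.2.1.2]
  · rintro ⟨η, x⟩ ha
    simp only [Finset.mem_sigma, Finset.mem_filter, Finset.mem_sdiff] at ha
    simp only [Finset.insert_erase ha.2.1]

theorem cm_sum2 {M : Type*} [AddCommMonoid M] (h : Fn De) (β : Finset N) (F : Finset N → N → M) :
    ∑ η ∈ De.filter (β ⊆ ·), ∑ x ∈ η \ β, F η x =
      ∑ x ∈ (vx De \ β).filter (insert · β ∈ De), ∑ η ∈ De.filter (insert x β ⊆ ·), F η x := by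
  refine Finset.sum_comm' fun η x => ?_
  simp only [Finset.mem_filter, Finset.mem_sdiff, Finset.insert_subset_iff]
  exact ⟨fun ⟨⟨h1, h2⟩, h3, h4⟩ => ⟨⟨h1, h3, h2⟩, ⟨mem_vx.2 ⟨η, h1, h3⟩, h4⟩,
    h.down _ h1 _ (Finset.insert_subset_iff.2 ⟨h3, h2⟩)⟩,
    fun ⟨⟨h1, h3, h2⟩, ⟨_, h4⟩, _⟩ => ⟨⟨h1, h2⟩, h3, h4⟩⟩

theorem cm_mr_io (β γ : Finset N) (ψ : Module.Dual ℝ (Po N)) : mr β (io De γ ψ) =
    ∑ η ∈ De.filter (γ ⊆ ·), Finsupp.single (γ, η) (ψ (xs (η \ γ)) • (pis (η \ γ) * evs β)) := by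
  rw [io_apply, map_sum]
  refine Finset.sum_congr rfl fun η _ => ?_
  rw [map_smul, mr, co_single, Finsupp.smul_single]
  rfl

theorem cm_xs {γ S : Finset N} (hψ : ψ ∈ Md De γ s) (h : S ∪ γ ∉ De) (a : Po N) :
    ψ (xs S * a) = 0 :=
  hψ.1 _ (Ideal.mul_mem_right _ _ (Ideal.subset_span (Or.inl ⟨S, h, rfl⟩)))

theorem cm_lin {γ : Finset N} (hψ : ψ ∈ Md De γ s) (m : Module.Dual ℝ N) (a : Po N) :
    ψ (lin De m * a) = 0 :=
  hψ.1 _ (Ideal.mul_mem_right _ _ (Ideal.subset_span (Or.inr ⟨m, rfl⟩)))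

theorem cm_sdiff {γ τ : Finset N} {y : N} (hγ : γ ⊆ τ) (hy : y ∉ τ) :
    insert y τ \ γ = insert y (τ \ γ) ∧ y ∉ τ \ γ :=
  ⟨Finset.insert_sdiff_of_notMem _ fun h => hy (hγ h), fun h => hy (Finset.mem_sdiff.1 h).1⟩

theorem cm_sdiff' {γ η : Finset N} {x : N} (hx : x ∉ γ) (h : insert x γ ⊆ η) :
    η \ γ = insert x (η \ insert x γ) ∧ x ∉ η \ insert x γ ∧
      (η \ γ).erase x = η \ insert x γ := by
  have h1 : x ∈ η \ γ := Finset.mem_sdiff.2 ⟨h (Finset.mem_insert_self _ _), hx⟩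
  rw [Finset.sdiff_insert]
  exact ⟨(Finset.insert_erase h1).symm, Finset.notMem_erase _ _, rfl⟩

/-- The balancing condition with explicit coefficients. -/
theorem cm_bal {γ τ : Finset N} (hψ : ψ ∈ Md De γ s) (hτ : τ ∈ De) (hγ : γ ⊆ τ) :
    ∑ y ∈ (vx De \ τ).filter (insert · τ ∈ De), ψ (xs (insert y τ \ γ)) • ev y =
      -∑ u ∈ τ, ψ (MvPolynomial.X u * xs (τ \ γ)) • ev u := by
  have h0 : ∑ v ∈ vx De, ψ (MvPolynomial.X v * xs (τ \ γ)) • v = 0 := by
    refine (Module.forall_dual_apply_eq_zero_iff ℝ _).1 fun m => ?_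
    rw [← cm_lin hψ m (xs (τ \ γ)), lin, Finset.sum_mul, map_sum, map_sum]
    refine Finset.sum_congr rfl fun v _ => ?_
    rw [map_smul, smul_mul_assoc, map_smul, smul_eq_mul, smul_eq_mul, mul_comm]
  have h1 : τ ⊆ vx De := fun v hv => mem_vx.2 ⟨τ, hτ, hv⟩
  have h2 := congrArg ev h0
  rw [ev_sum, ← Finset.sum_sdiff h1, show ev (0 : N) = 0 by simpa using ev_smul (0 : ℝ) (0 : N)]
    at h2
  simp only [ev_smul] at h2
  rw [← eq_neg_of_add_eq_zero_left h2, Finset.sum_filter]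
  refine Finset.sum_congr rfl fun y hy => ?_
  obtain ⟨e1, e2⟩ := cm_sdiff hγ (Finset.mem_sdiff.1 hy).2
  rw [← xs_insert e2, ← e1]
  split_ifs with h3
  · rfl
  · have := cm_xs (S := insert y τ \ γ) hψ
      (by rwa [Finset.sdiff_union_of_subset (hγ.trans (Finset.subset_insert _ _))]) 1
    rw [mul_one] at this
    rw [this, zero_smul]

theorem cm_kill {S : Finset N} {u : N} (hu : u ∈ S ∨ u ∈ β) : ev u * (pis S * evs β) = 0 := by
  rcases hu with h | h
  · rw [← mul_assoc, ev_mul_pis h, zero_mul]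
  · rw [← mul_assoc, ← pis_comm, mul_assoc, ev_mul_evs h, mul_zero]

theorem cm_cx {S : Finset N} {x : N} (hx : x ∈ S) (β : Finset N) :
    cx x (pis S * evs β) = ev x * (pis (S.erase x) * evs β) := by
  have h := cx_pis_mul x S 1
  rw [if_pos hx, mul_one, mul_one, show cx x (1 : Om N) = 0 from ct_one _, mul_zero, add_zero] at h
  rw [cx_mul_evs, h, mul_assoc]

theorem cm_cx_not {S : Finset N} {x : N} (hx : x ∉ S) (β : Finset N) :
    cx x (pis S * evs β) = 0 := by
  have h := cx_pis_mul x S 1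
  rw [if_neg hx, mul_one, show cx x (1 : Om N) = 0 from ct_one _, mul_zero, add_zero] at h
  rw [cx_mul_evs, h, zero_mul]

theorem cm_fp (hβ : Fi De t β) {γ : Finset N} (h : β ⊆ γ) : β ⊆ fp t γ :=
  fun v hv => Finset.mem_filter.2 ⟨h hv, hβ.2.2 v hv⟩

theorem cm_ok (hβ : Fi De t β) {γ η : Finset N} (h : β ⊆ γ) (h1 : γ ⊆ η) (h2 : η ∈ De) :
    Ok De t (γ, η) := ⟨h1, h2, hβ.2.1.mono (cm_fp hβ h)⟩

theorem cm_VV (hβ : Fi De t β) {η : Finset N} {y : N} (h1 : insert y β ⊆ η) (h2 : η ∈ De)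
    (a b : Om N) :
    Finsupp.single (insert y β, η) (a * (ev y * (b * evs β))) ∈ VV De t (β.card + 1) := by
  refine single_mem_Pw ?_
  rw [if_pos (cm_ok hβ (Finset.subset_insert _ _) h1 h2)]
  by_cases hy : t y = 1
  · refine Submodule.mem_sup_left (mul_mem_Vp a (ev_mul_Vp
      (Finset.mem_filter.2 ⟨Finset.mem_insert_self _ _, hy⟩) ?_))
    have := mul_evs_Vp (i := 0) (w := b) (cm_fp hβ (Finset.subset_insert y β)) Submodule.mem_top
    rwa [zero_add] at this
  · exact Submodule.mem_sup_right (mul_mem_Vp a (ev_mul_Vp (i := 0)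
      (Finset.mem_filter.2 ⟨Finset.mem_insert_self _ _, hy⟩) Submodule.mem_top))

theorem cm_single_sum {ι' : Type*} (i : Ix N) (S : Finset ι') (f : ι' → Om N) :
    ∑ x ∈ S, Finsupp.single i (f x) = Finsupp.single i (∑ x ∈ S, f x) :=
  (map_sum (Finsupp.lsingle (R := ℝ) i) f S).symm

theorem cm_bd (h : Fn De) (hψ : ψ ∈ Md De β s) : bd (mr β (io De β ψ)) =
    -∑ x ∈ (vx De \ β).filter (insert · β ∈ De),
      sg β x • mr (insert x β) (io De (insert x β) (mx (MvPolynomial.X x) ψ)) := by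
  rw [cm_mr_io, map_sum]
  simp only [bd_single, Finset.sum_sub_distrib]
  rw [cm_sum1 h, cm_sum2 h, Finset.sum_eq_zero, zero_sub]
  · refine congrArg _ (Finset.sum_congr rfl fun x hx => ?_)
    have hx' := (Finset.mem_sdiff.1 (Finset.mem_filter.1 hx).1).2
    rw [cm_mr_io, Finset.smul_sum]
    refine Finset.sum_congr rfl fun η hη => ?_
    obtain ⟨e1, e2, e3⟩ := cm_sdiff' hx' (Finset.mem_filter.1 hη).2
    rw [Finsupp.smul_single, map_smul, cm_cx (e1 ▸ Finset.mem_insert_self _ _), e3, mx_apply,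
      ← xs_insert e2, ← e1, evs_insert hx', mul_smul_comm, smul_comm (sg β x), smul_smul (sg β x),
      sg_sq, one_smul, ← mul_assoc, ← pis_comm, mul_assoc]
  · intro τ hτ
    obtain ⟨h1, h2⟩ := Finset.mem_filter.1 hτ
    have e : ∀ x ∈ (vx De \ τ).filter (insert · τ ∈ De),
        Finsupp.single (β, (insert x τ).erase x)
          (cx x (ψ (xs (insert x τ \ β)) • (pis (insert x τ \ β) * evs β))) =
        Finsupp.single (β, τ) ((ψ (xs (insert x τ \ β)) • ev x) * (pis (τ \ β) * evs β)) := by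
      intro x hx
      have hx' := (Finset.mem_sdiff.1 (Finset.mem_filter.1 hx).1).2
      obtain ⟨e1, e2⟩ := cm_sdiff h2 hx'
      rw [Finset.erase_insert hx', map_smul, cm_cx (e1 ▸ Finset.mem_insert_self _ _), e1,
        Finset.erase_insert e2, smul_mul_assoc]
    rw [Finset.sum_congr rfl e, cm_single_sum, ← Finset.sum_mul, cm_bal hψ h1 h2, neg_mul,
      Finset.sum_mul, Finset.sum_eq_zero, neg_zero, Finsupp.single_zero]
    intro u hu
    rw [smul_mul_assoc, cm_kill, smul_zero]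
    by_cases h3 : u ∈ β
    · exact Or.inr h3
    · exact Or.inl (Finset.mem_sdiff.2 ⟨hu, h3⟩)

theorem bd_io (h : Pre De t) (hβ : Fi De t β) (hψ : ψ ∈ Md De β s) :
    bd (mr β (io De β ψ)) + ∑ x ∈ (fp t (vx De) \ β).filter (insert · β ∈ De),
      sg β x • mr (insert x β) (io De (insert x β) (mx (MvPolynomial.X x) ψ)) ∈ ZK De t := by
  have hsub : (fp t (vx De) \ β).filter (insert · β ∈ De) ⊆
      (vx De \ β).filter (insert · β ∈ De) :=
    Finset.filter_subset_filter _ (Finset.sdiff_subset_sdiff (Finset.filter_subset _ _) le_rfl)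
  rw [cm_bd h.fan hψ, ← Finset.sum_sdiff hsub, neg_add, neg_add_cancel_right]
  refine neg_mem (Submodule.sum_mem _ fun x hx => Submodule.smul_mem _ _ ?_)
  obtain ⟨h1, h2⟩ := Finset.mem_sdiff.1 hx
  obtain ⟨h3, h4⟩ := Finset.mem_filter.1 h1
  obtain ⟨h5, h6⟩ := Finset.mem_sdiff.1 h3
  have h7 : t x ≠ 1 := fun h7 => h2 (Finset.mem_filter.2
    ⟨Finset.mem_sdiff.2 ⟨Finset.mem_filter.2 ⟨h5, h7⟩, h6⟩, h4⟩)
  rw [cm_mr_io]
  refine Submodule.sum_mem _ fun η hη => single_mem_Pw ?_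
  obtain ⟨h8, h9⟩ := Finset.mem_filter.1 hη
  rw [if_pos (cm_ok hβ (Finset.subset_insert _ _) h9 h8), evs_insert h6]
  exact Submodule.smul_mem _ _ (mul_mem_Vp _ (Submodule.smul_mem _ _ (ev_mul_Vp (i := 0)
    (Finset.mem_filter.2 ⟨Finset.mem_insert_self _ _, h7⟩) Submodule.mem_top)))

theorem cm_T1 (h : Fn De) {x : N} (hx : x ∉ β) (hψ : ψ ∈ Md De (insert x β) s) :
    ∑ η ∈ De.filter (insert x β ⊆ ·), Finsupp.single (β, η.erase x)
        (ψ (xs (η \ insert x β)) • (pis (η \ insert x β) * evs β)) =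
      ∑ τ ∈ (De.filter (β ⊆ ·)).filter (x ∉ ·),
        Finsupp.single (β, τ) (ψ (xs (τ \ β)) • (pis (τ \ β) * evs β)) := by
  rw [← Finset.sum_filter_of_ne (p := fun τ => insert x τ ∈ De)
    (s := (De.filter (β ⊆ ·)).filter (x ∉ ·))]
  · refine Finset.sum_bij' (fun η _ => η.erase x) (fun τ _ => insert x τ) ?_ ?_ ?_ ?_ ?_
    · intro η hη
      simp only [Finset.mem_filter, Finset.insert_subset_iff] at hη ⊢
      refine ⟨⟨⟨h.down _ hη.1 _ (Finset.erase_subset _ _), Finset.subset_erase.2 ⟨hη.2.2, hx⟩⟩,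
        Finset.notMem_erase _ _⟩, ?_⟩
      rw [Finset.insert_erase hη.2.1]
      exact hη.1
    · intro τ hτ
      simp only [Finset.mem_filter] at hτ ⊢
      exact ⟨hτ.2, Finset.insert_subset_insert _ hτ.1.1.2⟩
    · intro η hη
      simp only [Finset.mem_filter, Finset.insert_subset_iff] at hη
      exact Finset.insert_erase hη.2.1
    · intro τ hτ
      simp only [Finset.mem_filter] at hτ
      exact Finset.erase_insert hτ.1.2
    · intro η _
      rw [Finset.erase_sdiff_comm, Finset.sdiff_insert]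
  · intro τ hτ h0
    by_contra h1
    have h2 := (Finset.mem_filter.1 (Finset.mem_filter.1 hτ).1).2
    have := cm_xs (S := τ \ β) hψ
      (by rwa [Finset.union_insert, Finset.sdiff_union_of_subset h2]) 1
    rw [mul_one] at this
    exact h0 (by rw [this, zero_smul, Finsupp.single_zero])

theorem cm_T3 (h : Fn De) {x : N} (hx : x ∉ β) (hψ : ψ ∈ Md De (insert x β) s) :
    ∑ η ∈ De.filter (insert x β ⊆ ·), ∑ y ∈ η \ insert x β, Finsupp.single (β, η.erase y)
        (-ep x * (ev y * (ψ (xs (η \ insert x β)) • pis ((η \ insert x β).erase y) * evs β))) =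
      ∑ τ ∈ (De.filter (β ⊆ ·)).filter (x ∈ ·),
        Finsupp.single (β, τ) (ψ (xs (τ \ β)) • (pis (τ \ β) * evs β)) := by
  rw [cm_sum1 h]
  refine Finset.sum_congr (by
    ext τ
    simp only [Finset.mem_filter, Finset.insert_subset_iff]
    tauto) fun τ hτ => ?_
  obtain ⟨h1, h3⟩ := Finset.mem_filter.1 hτ
  obtain ⟨h1, h2⟩ := Finset.mem_filter.1 h1
  have h4 : insert x β ⊆ τ := Finset.insert_subset_iff.2 ⟨h3, h2⟩
  have e : ∀ y ∈ (vx De \ τ).filter (insert · τ ∈ De),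
      Finsupp.single (β, (insert y τ).erase y) (-ep x * (ev y * (ψ (xs (insert y τ \ insert x β)) •
        pis ((insert y τ \ insert x β).erase y) * evs β))) =
      Finsupp.single (β, τ) (-ep x * ((ψ (xs (insert y τ \ insert x β)) • ev y) *
        (pis (τ \ insert x β) * evs β))) := by
    intro y hy
    have hy' := (Finset.mem_sdiff.1 (Finset.mem_filter.1 hy).1).2
    obtain ⟨e1, e2⟩ := cm_sdiff h4 hy'
    rw [Finset.erase_insert hy', e1, Finset.erase_insert e2, smul_mul_assoc, smul_mul_assoc,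
      mul_smul_comm]
  obtain ⟨e1, e2, -⟩ := cm_sdiff' hx h4
  rw [Finset.sum_congr rfl e, cm_single_sum, ← Finset.mul_sum, ← Finset.sum_mul,
    cm_bal hψ h1 h4, neg_mul, neg_mul, mul_neg, neg_neg, Finset.sum_mul,
    Finset.sum_eq_single_of_mem x h3, e1, xs_insert e2, pis_insert e2, smul_mul_assoc,
    mul_smul_comm, mul_assoc, mul_assoc]
  intro u hu hux
  rw [smul_mul_assoc, cm_kill, smul_zero]
  by_cases h5 : u ∈ β
  · exact Or.inr h5
  · exact Or.inl (Finset.mem_sdiff.2 ⟨hu, fun h6 => (Finset.mem_insert.1 h6).elim hux h5⟩)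

/-- The cycle at infinity is homologous to the cycle of the Gysin image. -/
theorem gysin (h : Pre De t) (hβ : Fi De t β) {x : N} (hx : x ∉ β) (hx' : insert x β ∈ De)
    (hψ : ψ ∈ Md De (insert x β) s) : mr β (io De (insert x β) ψ) - mr β (io De β ψ) ∈
      (Cub De t (s + β.card) (s + 1) ⊓ VV De t β.card).map bd ⊔ VV De t (β.card + 1) := by
  have hH : ∑ η ∈ De.filter (insert x β ⊆ ·), Finsupp.single (β, η)
      (ψ (xs (η \ insert x β)) • (ep x * pis (η \ insert x β))) ∈ YC De β s (s + 1) := by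
    refine Submodule.sum_mem _ fun η hη => ?_
    obtain ⟨h1, h2⟩ := Finset.mem_filter.1 hη
    obtain ⟨e1, e2, -⟩ := cm_sdiff' hx h2
    by_cases hc : (η \ insert x β).card = s
    · refine single_mem_Pw ?_
      rw [if_pos ⟨⟨le_rfl, (Finset.subset_insert _ _).trans h2, h1⟩,
        by rw [e1, Finset.card_insert_of_notMem e2, hc]⟩]
      refine Submodule.smul_mem _ _ ?_
      have h3 := pis_Co (De := De) (η := η) (S := η \ insert x β) (p := 0) (b := 1)
        Finset.sdiff_subset (by rw [FF_zero h1]; exact Submodule.mem_span_singleton_self _)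
      rw [map_one, mul_one, zero_add, hc] at h3
      have h4 := ep_Co e2 h3
      rwa [← e1] at h4
    · rw [hψ.2 _ hc _ (xs_hom _), zero_smul, Finsupp.single_zero]
      exact zero_mem _
  have hB := Submodule.mem_map_of_mem (f := bd) (mr_YC hβ hH)
  have hT4 : ∑ η ∈ De.filter (insert x β ⊆ ·), ∑ y ∈ η \ insert x β,
      Finsupp.single (insert y β, η) (-ep x * (ev y * (ψ (xs (η \ insert x β)) •
        pis ((η \ insert x β).erase y) * evs β))) ∈ VV De t (β.card + 1) := by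
    refine Submodule.sum_mem _ fun η hη => Submodule.sum_mem _ fun y hy => ?_
    obtain ⟨h1, h2⟩ := Finset.mem_filter.1 hη
    exact cm_VV hβ (Finset.insert_subset_iff.2
      ⟨(Finset.mem_sdiff.1 hy).1, (Finset.subset_insert _ _).trans h2⟩) h1 _ _
  have e : bd (mr β (∑ η ∈ De.filter (insert x β ⊆ ·), Finsupp.single (β, η)
      (ψ (xs (η \ insert x β)) • (ep x * pis (η \ insert x β))))) =
      ∑ η ∈ De.filter (insert x β ⊆ ·), (Finsupp.single (β, η.erase x)
        (ψ (xs (η \ insert x β)) • (pis (η \ insert x β) * evs β)) -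
        Finsupp.single (insert x β, η)
          (ψ (xs (η \ insert x β)) • (pis (η \ insert x β) * evs β)) +
        ∑ y ∈ η \ insert x β, (Finsupp.single (β, η.erase y) (-ep x * (ev y *
          (ψ (xs (η \ insert x β)) • pis ((η \ insert x β).erase y) * evs β))) -
          Finsupp.single (insert y β, η) (-ep x * (ev y *
          (ψ (xs (η \ insert x β)) • pis ((η \ insert x β).erase y) * evs β))))) := by
    rw [map_sum, map_sum]
    refine Finset.sum_congr rfl fun η hη => ?_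
    obtain ⟨e1, e2, -⟩ := cm_sdiff' hx (Finset.mem_filter.1 hη).2
    rw [mr, co_single, LinearMap.mulRight_apply, bd_single, e1, Finset.sum_insert e2,
      smul_mul_assoc, mul_assoc, map_smul, cx_ep_mul, if_pos rfl, cm_cx_not e2, mul_zero, sub_zero]
    refine congrArg _ (Finset.sum_congr rfl fun y hy => ?_)
    rw [map_smul, cx_ep_mul, if_neg fun h1 : y = x => e2 (h1 ▸ hy), cm_cx hy, zero_sub,
      smul_mul_assoc, mul_smul_comm, mul_smul_comm, neg_mul]
  simp only [Finset.sum_add_distrib, Finset.sum_sub_distrib] at e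
  rw [e, cm_T1 h.fan hx hψ, cm_T3 h.fan hx hψ, ← cm_mr_io] at hB
  have h5 := sub_mem (neg_mem (Submodule.mem_sup_left (T := VV De t (β.card + 1)) hB))
    (Submodule.mem_sup_right hT4)
  rw [cm_mr_io β β, ← Finset.sum_filter_add_sum_filter_not (De.filter (β ⊆ ·)) (x ∈ ·)]
  refine (congrArg (· ∈ _) ?_).mp h5
  abel

theorem kx_io (h : Pre De t) (hβ : Fi De t β) (ψ : Module.Dual ℝ (Po N)) :
    co (kx t) (mr β (io De β ψ)) -
      ∑ y ∈ β, sg (β.erase y) y • mr (β.erase y) (io De β ψ) ∈ VV De t β.card := by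
  simp only [cm_mr_io, map_sum, co_single, Finset.smul_sum, Finsupp.smul_single]
  rw [Finset.sum_comm, ← Finset.sum_sub_distrib]
  refine Submodule.sum_mem _ fun η hη => ?_
  obtain ⟨h1, h2⟩ := Finset.mem_filter.1 hη
  rw [cm_single_sum, ← Finsupp.single_sub]
  refine single_mem_Pw ?_
  rw [if_pos (cm_ok hβ le_rfl h2 h1), map_smul, kx_pis_mul, kx_evs, Finset.mul_sum, smul_sub,
    Finset.smul_sum, sub_right_comm, ← Finset.sum_sub_distrib, Finset.sum_eq_zero, zero_sub]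
  · refine Submodule.mem_sup_left (neg_mem (Submodule.smul_mem _ _
      (Submodule.sum_mem _ fun u _ => Submodule.smul_mem _ _ ?_)))
    have := mul_evs_Vp (i := 0) (w := ep u * pis ((η \ β).erase u)) (cm_fp hβ le_rfl)
      Submodule.mem_top
    rwa [zero_add] at this
  · intro y hy
    rw [hβ.2.2 y hy, one_mul, mul_smul_comm, smul_comm, sub_self]

theorem cm_mx (hψ : ψ ∈ Md De β s) {hh : N → ℝ} {m : Module.Dual ℝ N}
    (hm : ∀ v ∈ β, m v = hh v) : mx (lin De hh) ψ =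
      ∑ x ∈ (vx De \ β).filter (insert · β ∈ De), (hh x - m x) • mx (MvPolynomial.X x) ψ := by
  refine LinearMap.ext fun a => ?_
  have h1 := cm_lin hψ m a
  rw [mx_apply, ← sub_zero (ψ _), ← h1, lin, lin, Finset.sum_mul, Finset.sum_mul, map_sum, map_sum,
    ← Finset.sum_sub_distrib, LinearMap.sum_apply]
  symm
  refine Finset.sum_subset_zero_on_sdiff
    ((Finset.filter_subset _ _).trans Finset.sdiff_subset) (fun v hv => ?_) fun v _ => ?_
  · obtain ⟨h2, h3⟩ := Finset.mem_sdiff.1 hv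
    rw [smul_mul_assoc, smul_mul_assoc, map_smul, map_smul, ← sub_smul]
    by_cases h4 : v ∈ β
    · rw [hm v h4, sub_self, zero_smul]
    · have h5 := cm_xs (S := {v}) hψ (fun h5 => h3 (Finset.mem_filter.2
        ⟨Finset.mem_sdiff.2 ⟨h2, h4⟩, by rwa [Finset.insert_eq]⟩)) a
      rw [xs, Finset.prod_singleton] at h5
      rw [h5, smul_zero]
  · rw [smul_mul_assoc, smul_mul_assoc, map_smul, map_smul, ← sub_smul]
    rfl

theorem LK_io (h : Pre De t) {hh : N → ℝ} {μ : Finset N → Module.Dual ℝ N} (hμ : Loc De hh μ)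
    (hβ : Fi De t β) (hψ : ψ ∈ Md De β (s + 1)) :
    LK μ (mr β (io De β ψ)) - mr β (io De β (mx (lin De hh) ψ)) ∈
      (Cub De t (s + β.card) (s + 1) ⊓ VV De t β.card).map bd ⊔ VV De t (β.card + 1) := by
  rw [cm_mx hψ (hμ β hβ.1), cm_mr_io β β ψ, map_sum, map_sum, map_sum]
  simp only [LK_single]
  rw [cm_sum2 h.fan, ← Finset.sum_sub_distrib]
  refine Submodule.sum_mem _ fun x hx => ?_
  obtain ⟨h1, h2⟩ := Finset.mem_filter.1 hx
  have hx' := (Finset.mem_sdiff.1 h1).2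
  rw [map_smul, map_smul, ← sub_add_sub_cancel _
    ((hh x - μ β x) • mr β (io De (insert x β) (mx (MvPolynomial.X x) ψ))), ← smul_sub]
  refine add_mem (Submodule.mem_sup_right ?_)
    (Submodule.smul_mem _ _ (gysin h hβ hx' h2 (mx_X_Md h.fan hψ hx')))
  rw [cm_mr_io, Finset.smul_sum, ← Finset.sum_sub_distrib]
  refine Submodule.sum_mem _ fun η hη => ?_
  obtain ⟨h3, h4⟩ := Finset.mem_filter.1 hη
  obtain ⟨e1, e2, e3⟩ := cm_sdiff' hx' h4
  have h5 : kx (μ (insert x β) - μ β) (evs β) = 0 := by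
    rw [kx_evs]
    refine Finset.sum_eq_zero fun y hy => ?_
    rw [LinearMap.sub_apply, hμ _ h2 y (Finset.mem_insert_of_mem hy), hμ _ hβ.1 y hy, sub_self,
      zero_mul, zero_smul]
  have h6 : kx (μ (insert x β) - μ β) (pis (η \ insert x β) * evs β) =
      kx (μ (insert x β) - μ β) (pis (η \ insert x β)) * evs β := om_ct_mul_of_zero _ h5 _
  rw [map_smul, cm_cx (e1 ▸ Finset.mem_insert_self _ _), e3, map_smul, kx_ev_mul, h6,
    LinearMap.sub_apply, hμ _ h2 x (Finset.mem_insert_self _ _), mx_apply, ← xs_insert e2, ← e1,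
    Finsupp.smul_single, ← Finsupp.single_sub, smul_sub, smul_comm (hh x - μ β x),
    sub_sub_cancel_left, ← neg_smul, ← Finsupp.smul_single, ← one_mul (ev x * _)]
  exact Submodule.smul_mem _ _ (cm_VV hβ h4 h3 _ _)

end K2
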