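import Pool.Agent.Lib.MP_e9c0f3_ag.K2.Coe
import Pool.Agent.Lib.MP_e9c0f3_ag.K2.AF

/-! The cubical complexes. -/

open ExteriorAlgebra KH
open scoped Classical

noncomputable section

namespace K2

variable {N : Type} [AddCommGroup N] [Module ℝ N] {De : Finset (Finset N)} {t : Module.Dual ℝ N}

theorem cb_ext {ι' E M : Type*} [AddCommMonoid E] [Module ℝ E] [AddCommMonoid M] [Module ℝ M]
    {f g : (ι' →₀ E) →ₗ[ℝ] M} (h : ∀ i w, f (Finsupp.single i w) = g (Finsupp.single i w))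
    (z : ι' →₀ E) : f z = g z :=
  DFunLike.congr_fun (Finsupp.lhom_ext h) z

theorem cb_anti {α M : Type*} [AddCommGroup M] [Module ℝ M] (s : Finset α) (F : α → α → M)
    (h : ∀ x y, F x y = -F y x) : ∑ x ∈ s, ∑ y ∈ s, F x y = 0 := by
  have e : ∑ x ∈ s, ∑ y ∈ s, F x y = -∑ x ∈ s, ∑ y ∈ s, F x y := by
    conv_lhs => rw [Finset.sum_comm]
    rw [← Finset.sum_neg_distrib]
    refine Finset.sum_congr rfl fun x _ => ?_
    rw [← Finset.sum_neg_distrib]
    exact Finset.sum_congr rfl fun y _ => h y x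
  have e2 : (2 : ℝ) • ∑ x ∈ s, ∑ y ∈ s, F x y = 0 := by
    rw [two_smul]
    exact eq_neg_iff_add_eq_zero.1 e
  exact (smul_eq_zero.1 e2).resolve_left two_ne_zero

theorem cb_e1 {α : Type*} (γ η : Finset α) (x : α) : η.erase x \ γ = (η \ γ).erase x := by
  ext y
  simp only [Finset.mem_sdiff, Finset.mem_erase]
  tauto

theorem cb_e2 {α : Type*} (γ η : Finset α) (x : α) : η \ insert x γ = (η \ γ).erase x := by
  ext y
  simp only [Finset.mem_sdiff, Finset.mem_erase, Finset.mem_insert]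
  tauto

theorem bd_single (γ η : Finset N) (w : Om N) : bd (Finsupp.single (γ, η) w) =
    ∑ x ∈ η \ γ, (Finsupp.single (γ, η.erase x) (cx x w) -
      Finsupp.single (insert x γ, η) (cx x w)) := by
  rw [bd, Finsupp.lsum_single, LinearMap.sum_apply]
  rfl

theorem LK_single (μ : Finset N → Module.Dual ℝ N) (γ η : Finset N) (w : Om N) :
    LK μ (Finsupp.single (γ, η) w) = ∑ x ∈ η \ γ,
      Finsupp.single (insert x γ, η) (kx (μ (insert x γ) - μ γ) (cx x w)) := by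
  rw [LK, Finsupp.lsum_single, LinearMap.sum_apply]
  rfl

theorem bd_bd (z : Kc N) : bd (bd z) = 0 := by
  refine cb_ext (f := bd ∘ₗ bd) (g := 0) (fun ⟨γ, η⟩ w => ?_) z
  rw [LinearMap.comp_apply, LinearMap.zero_apply, bd_single, map_sum]
  refine Eq.trans ?_ (cb_anti (η \ γ) (fun x y =>
    (Finsupp.single (γ, (η.erase x).erase y) (cx y (cx x w)) -
      Finsupp.single (insert y γ, η.erase x) (cx y (cx x w)) -
    (Finsupp.single (insert x γ, η.erase y) (cx y (cx x w)) -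
      Finsupp.single (insert y (insert x γ), η) (cx y (cx x w))) : Kc N)) fun x y => ?_)
  · refine Finset.sum_congr rfl fun x _ => ?_
    rw [map_sub, bd_single, bd_single, cb_e1, cb_e2, ← Finset.sum_sub_distrib]
    refine Finset.sum_erase _ ?_
    simp only [cx_cx, Finsupp.single_zero, sub_zero]
  · simp only [cx_comm x y w, Finsupp.single_neg]
    rw [Finset.erase_right_comm (a := x), Finset.insert_comm x y]
    abel

theorem bd_kx (m : Module.Dual ℝ N) (z : Kc N) : bd (co (kx m) z) = -co (kx m) (bd z) := by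
  refine cb_ext (f := bd ∘ₗ co (kx m)) (g := -(co (kx m) ∘ₗ bd)) (fun ⟨γ, η⟩ w => ?_) z
  rw [LinearMap.comp_apply, LinearMap.neg_apply, LinearMap.comp_apply, co_single, bd_single,
    bd_single, map_sum, ← Finset.sum_neg_distrib]
  refine Finset.sum_congr rfl fun x _ => ?_
  rw [map_sub, co_single, co_single, cx_kx, Finsupp.single_neg, Finsupp.single_neg]
  abel

theorem bd_mr (β : Finset N) (z : Kc N) : bd (mr β z) = mr β (bd z) := by
  refine cb_ext (f := bd ∘ₗ mr β) (g := mr β ∘ₗ bd) (fun ⟨γ, η⟩ w => ?_) z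
  rw [LinearMap.comp_apply, LinearMap.comp_apply, mr, co_single, bd_single, bd_single, map_sum]
  refine Finset.sum_congr rfl fun x _ => ?_
  rw [map_sub, co_single, co_single, LinearMap.mulRight_apply, LinearMap.mulRight_apply,
    cx_mul_evs]

/-- Contraction with a form that depends on the cube. -/
def Th (m : Ix N → Module.Dual ℝ N) : Kc N →ₗ[ℝ] Kc N :=
  Finsupp.lsum ℝ fun i => Finsupp.lsingle i ∘ₗ kx (m i)

theorem Th_single (m : Ix N → Module.Dual ℝ N) (i : Ix N) (w : Om N) :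
    Th m (Finsupp.single i w) = Finsupp.single i (kx (m i) w) := by
  rw [Th, Finsupp.lsum_single]
  rfl

theorem LK_eq (μ : Finset N → Module.Dual ℝ N) (z : Kc N) :
    LK μ z = -(bd (Th (fun i => μ i.1) z) + Th (fun i => μ i.1) (bd z)) := by
  refine cb_ext (f := LK μ)
    (g := -(bd ∘ₗ Th (fun i => μ i.1) + Th (fun i => μ i.1) ∘ₗ bd)) (fun ⟨γ, η⟩ w => ?_) z
  rw [LinearMap.neg_apply, LinearMap.add_apply, LinearMap.comp_apply, LinearMap.comp_apply,
    LK_single, Th_single, bd_single, bd_single, map_sum, ← Finset.sum_add_distrib,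
    ← Finset.sum_neg_distrib]
  refine Finset.sum_congr rfl fun x _ => ?_
  rw [map_sub, Th_single, Th_single, cx_kx, kx_sub, Finsupp.single_neg, Finsupp.single_neg,
    Finsupp.single_sub]
  abel

theorem bd_LK (μ : Finset N → Module.Dual ℝ N) (z : Kc N) : bd (LK μ z) = LK μ (bd z) := by
  rw [LK_eq, LK_eq, map_neg, map_add, bd_bd, bd_bd, map_zero, zero_add, add_zero]

theorem kx_LK (μ : Finset N → Module.Dual ℝ N) (m : Module.Dual ℝ N) (z : Kc N) :
    co (kx m) (LK μ z) = LK μ (co (kx m) z) := by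
  refine cb_ext (f := co (kx m) ∘ₗ LK μ) (g := LK μ ∘ₗ co (kx m)) (fun ⟨γ, η⟩ w => ?_) z
  rw [LinearMap.comp_apply, LinearMap.comp_apply, co_single, LK_single, LK_single, map_sum]
  refine Finset.sum_congr rfl fun x _ => ?_
  rw [co_single, cx_kx, map_neg, kx_comm m]

variable {z : Kc N} {β : Finset N} {p q s k : ℕ} {hh : N → ℝ} {μ : Finset N → Module.Dual ℝ N}

theorem cb_ite {P : Prop} {_ : Decidable P} {E : Type*} [AddCommGroup E] [Module ℝ E]
    {A : Submodule ℝ E} {w : E} (h : w ∈ if P then A else ⊥) : w = 0 ∨ P ∧ w ∈ A := by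
  split_ifs at h with hP
  · exact Or.inr ⟨hP, h⟩
  · exact Or.inl h

theorem cb_ite' {P : Prop} {_ : Decidable P} {E : Type*} [AddCommGroup E] [Module ℝ E]
    {A : Submodule ℝ E} {w : E} (hP : P) (h : w ∈ A) : w ∈ if P then A else ⊥ := by
  rwa [if_pos hP]

/-- The boundary maps one family of coefficient spaces into another. -/
theorem cb_bd {G H : Ix N → Submodule ℝ (Om N)}
    (h : ∀ γ η, ∀ w ∈ G (γ, η), w = 0 ∨ ∀ x ∈ η, x ∉ γ →
      cx x w ∈ H (γ, η.erase x) ∧ cx x w ∈ H (insert x γ, η)) (hz : z ∈ Pw G) : bd z ∈ Pw H := by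
  refine map_mem_of_Pw bd (fun ⟨γ, η⟩ w hw => ?_) hz
  rcases h γ η w hw with rfl | h
  · rw [Finsupp.single_zero, map_zero]
    exact Submodule.zero_mem _
  · rw [bd_single]
    refine Submodule.sum_mem _ fun x hx => ?_
    obtain ⟨h1, h2⟩ := h x (Finset.mem_sdiff.1 hx).1 (Finset.mem_sdiff.1 hx).2
    exact Submodule.sub_mem _ (single_mem_Pw h1) (single_mem_Pw h2)

theorem cb_LK {G H : Ix N → Submodule ℝ (Om N)} (μ : Finset N → Module.Dual ℝ N)
    (h : ∀ γ η, ∀ w ∈ G (γ, η), w = 0 ∨ ∀ x ∈ η, x ∉ γ →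
      kx (μ (insert x γ) - μ γ) (cx x w) ∈ H (insert x γ, η)) (hz : z ∈ Pw G) :
    LK μ z ∈ Pw H := by
  refine map_mem_of_Pw (LK μ) (fun ⟨γ, η⟩ w hw => ?_) hz
  rcases h γ η w hw with rfl | h
  · rw [Finsupp.single_zero, map_zero]
    exact Submodule.zero_mem _
  · rw [LK_single]
    exact Submodule.sum_mem _ fun x hx =>
      single_mem_Pw (h x (Finset.mem_sdiff.1 hx).1 (Finset.mem_sdiff.1 hx).2)

theorem cb_sup {E : Type*} [AddCommGroup E] [Module ℝ E] (f : E →ₗ[ℝ] E) {A B C : Submodule ℝ E}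
    (hA : ∀ x ∈ A, f x ∈ C) (hB : ∀ x ∈ B, f x ∈ C) {x : E} (hx : x ∈ A ⊔ B) : f x ∈ C := by
  obtain ⟨a, ha, b, hb, rfl⟩ := Submodule.mem_sup.1 hx
  rw [map_add]
  exact C.add_mem (hA a ha) (hB b hb)

theorem cb_sub {α : Type*} {γ η : Finset α} {x : α} (h : γ ⊆ η) (hx : x ∉ γ) : γ ⊆ η.erase x :=
  fun _ hy => Finset.mem_erase.2 ⟨fun e => hx (e ▸ hy), h hy⟩

theorem cb_card {α : Type*} {γ η : Finset α} {x : α} (hx : x ∈ η) (hx' : x ∉ γ)
    (h : (η \ γ).card = q + 1) : ((η \ γ).erase x).card = q := by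
  rw [Finset.card_erase_of_mem (Finset.mem_sdiff.2 ⟨hx, hx'⟩), h]
  rfl

theorem cb_fp {γ γ' : Finset N} (h : γ ⊆ γ') : fp t γ ⊆ fp t γ' := Finset.filter_subset_filter _ h

theorem cb_ip {γ γ' : Finset N} (h : γ ⊆ γ') : ip t γ ⊆ ip t γ' := Finset.filter_subset_filter _ h

theorem cb_OkY1 {γ η : Finset N} {x : N} (h : Fn De) (o : OkY De β (γ, η)) (hx' : x ∉ γ) :
    OkY De β (γ, η.erase x) :=
  ⟨o.1, cb_sub o.2.1 hx', h.down _ o.2.2 _ (Finset.erase_subset _ _)⟩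

omit [AddCommGroup N] [Module ℝ N] in
theorem cb_OkY2 {γ η : Finset N} {x : N} (o : OkY De β (γ, η)) (hx : x ∈ η) :
    OkY De β (insert x γ, η) :=
  ⟨o.1.trans (Finset.subset_insert _ _), Finset.insert_subset hx o.2.1, o.2.2⟩

theorem cb_Ok1 {γ η : Finset N} {x : N} (h : Fn De) (o : Ok De t (γ, η)) (hx' : x ∉ γ) :
    Ok De t (γ, η.erase x) :=
  ⟨cb_sub o.1 hx', h.down _ o.2.1 _ (Finset.erase_subset _ _), o.2.2⟩

theorem cb_Ok2 {γ η : Finset N} {x : N} (o : Ok De t (γ, η)) (hx : x ∈ η) :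
    Ok De t (insert x γ, η) :=
  ⟨Finset.insert_subset hx o.1, o.2.1, o.2.2.mono (cb_fp (Finset.subset_insert _ _))⟩

theorem cb_Co1 {γ η : Finset N} {x : N} {w : Om N} (hx : x ∈ η) (hx' : x ∉ γ)
    (h : w ∈ Co De η (η \ γ) p) : cx x w ∈ Co De (η.erase x) (η.erase x \ γ) p := by
  rw [cb_e1]
  exact Co_anti (Finset.erase_subset _ _) _ _ (cx_Co (Finset.mem_sdiff.2 ⟨hx, hx'⟩) h)

theorem cb_Co2 {γ η : Finset N} {x : N} {w : Om N} (hx : x ∈ η) (hx' : x ∉ γ)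
    (h : w ∈ Co De η (η \ γ) p) : cx x w ∈ Co De η (η \ insert x γ) p := by
  rw [cb_e2]
  exact cx_Co (Finset.mem_sdiff.2 ⟨hx, hx'⟩) h

theorem cb_zero {G : Ix N → Submodule ℝ (Om N)} (f : Kc N →ₗ[ℝ] Kc N)
    (hf : ∀ γ η w, η \ γ = ∅ → f (Finsupp.single (γ, η) w) = 0)
    (h : ∀ γ η, ∀ w ∈ G (γ, η), w = 0 ∨ (η \ γ).card = 0) (hz : z ∈ Pw G) : f z = 0 := by
  refine (Submodule.mem_bot ℝ).1 (map_mem_of_Pw f (fun ⟨γ, η⟩ w hw => ?_) hz)
  rcases h γ η w hw with rfl | h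
  · rw [Finsupp.single_zero, map_zero]
    exact Submodule.zero_mem _
  · rw [hf γ η w (Finset.card_eq_zero.1 h)]
    exact Submodule.zero_mem _

theorem bd_YC (h : Fn De) (hz : z ∈ YC De β s (q + 1)) : bd z ∈ YC De β s q := by
  refine cb_bd (fun γ η w hw => (cb_ite hw).imp_right fun ⟨o, hw⟩ x hx hx' => ⟨?_, ?_⟩) hz
  · exact cb_ite' ⟨cb_OkY1 h o.1 hx', by rw [cb_e1]; exact cb_card hx hx' o.2⟩ (cb_Co1 hx hx' hw)
  · exact cb_ite' ⟨cb_OkY2 o.1 hx, by rw [cb_e2]; exact cb_card hx hx' o.2⟩ (cb_Co2 hx hx' hw)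

theorem bd_YC0 (hz : z ∈ YC De β s 0) : bd z = 0 :=
  cb_zero bd (fun γ η w e => by rw [bd_single, e, Finset.sum_empty])
    (fun _ _ _ hw => (cb_ite hw).imp_right fun h => h.1.2) hz

theorem bd_YZ (h : Fn De) (hz : z ∈ YZ De β) : bd z ∈ YZ De β := by
  refine cb_bd (fun γ η w hw => (cb_ite hw).imp_right fun ⟨o, hw⟩ x hx hx' => ⟨?_, ?_⟩) hz
  · exact cb_ite' (cb_OkY1 h o hx') (cx_Vp x hw)
  · exact cb_ite' (cb_OkY2 o hx) (Vp_mono (Finset.subset_insert _ _) 1 (cx_Vp x hw))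

theorem bd_Cub (h : Fn De) (hz : z ∈ Cub De t p (q + 1)) : bd z ∈ Cub De t p q := by
  refine cb_bd (fun γ η w hw => (cb_ite hw).imp_right fun ⟨o, hw⟩ x hx hx' => ⟨?_, ?_⟩) hz
  · exact cb_ite' ⟨cb_Ok1 h o.1 hx', by rw [cb_e1]; exact cb_card hx hx' o.2⟩ (cb_Co1 hx hx' hw)
  · exact cb_ite' ⟨cb_Ok2 o.1 hx, by rw [cb_e2]; exact cb_card hx hx' o.2⟩ (cb_Co2 hx hx' hw)

theorem bd_Cub0 (hz : z ∈ Cub De t p 0) : bd z = 0 :=
  cb_zero bd (fun γ η w e => by rw [bd_single, e, Finset.sum_empty])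
    (fun _ _ _ hw => (cb_ite hw).imp_right fun h => h.1.2) hz

theorem bd_ZK (h : Fn De) (hz : z ∈ ZK De t) : bd z ∈ ZK De t := by
  refine cb_bd (fun γ η w hw => (cb_ite hw).imp_right fun ⟨o, hw⟩ x hx hx' => ⟨?_, ?_⟩) hz
  · exact cb_ite' (cb_Ok1 h o hx') (cx_Vp x hw)
  · exact cb_ite' (cb_Ok2 o hx) (Vp_mono (cb_ip (Finset.subset_insert _ _)) 1 (cx_Vp x hw))

theorem cb_VJ {γ γ' : Finset N} (h : γ ⊆ γ') (k : ℕ) :
    Vp (fp t γ) k ⊔ Jd (ip t γ) ≤ Vp (fp t γ') k ⊔ Jd (ip t γ') :=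
  sup_le_sup (Vp_mono (cb_fp h) k) (Vp_mono (cb_ip h) 1)

theorem cb_cxVJ {γ : Finset N} {w : Om N} (x : N) (h : w ∈ Vp (fp t γ) k ⊔ Jd (ip t γ)) :
    cx x w ∈ Vp (fp t γ) k ⊔ Jd (ip t γ) :=
  cb_sup (cx x) (fun _ h => Submodule.mem_sup_left (cx_Vp x h))
    (fun _ h => Submodule.mem_sup_right (cx_Vp x h)) h

theorem bd_VV (h : Fn De) (hz : z ∈ VV De t k) : bd z ∈ VV De t k := by
  refine cb_bd (fun γ η w hw => (cb_ite hw).imp_right fun ⟨o, hw⟩ x hx hx' => ⟨?_, ?_⟩) hz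
  · exact cb_ite' (cb_Ok1 h o hx') (cb_cxVJ x hw)
  · exact cb_ite' (cb_Ok2 o hx) (cb_VJ (Finset.subset_insert _ _) k (cb_cxVJ x hw))

theorem cb_co {ι' E : Type*} [AddCommGroup E] [Module ℝ E] (f : E →ₗ[ℝ] E)
    {G H : ι' → Submodule ℝ E} (h : ∀ i, ∀ w ∈ G i, w = 0 ∨ f w ∈ H i) {y : ι' →₀ E}
    (hy : y ∈ Pw G) : co f y ∈ Pw H := by
  refine mem_Pw.2 fun i => ?_
  rw [co_apply]
  rcases h i _ (mem_Pw.1 hy i) with e | e
  · rw [e, map_zero]
    exact Submodule.zero_mem _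
  · exact e

theorem cb_le {ι' E : Type*} [AddCommGroup E] [Module ℝ E] {G H : ι' → Submodule ℝ E}
    (h : ∀ i, ∀ w ∈ G i, w = 0 ∨ w ∈ H i) : Pw G ≤ Pw H :=
  Pw_mono fun i w hw => (h i w hw).elim (fun e => e ▸ Submodule.zero_mem _) id

theorem ZK_le_VV (k : ℕ) : ZK De t ≤ VV De t k :=
  cb_le fun _ _ hw => (cb_ite hw).imp_right fun h => cb_ite' h.1 (Submodule.mem_sup_right h.2)

theorem VV_anti {k k' : ℕ} (h : k ≤ k') : VV De t k' ≤ VV De t k :=
  cb_le fun _ _ hw => (cb_ite hw).imp_right fun o =>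
    cb_ite' o.1 (sup_le_sup_right (Vp_anti _ h) _ o.2)

theorem Cub_le_VV (p q : ℕ) : Cub De t p q ≤ VV De t 0 :=
  cb_le fun _ _ hw => (cb_ite hw).imp_right fun o =>
    cb_ite' o.1.1 (Submodule.mem_sup_left Submodule.mem_top)

theorem VV_le_ZK (h : Fn De) (hk : ∀ s ∈ De, s.card < k) : VV De t k ≤ ZK De t := by
  refine cb_le fun i w hw => (cb_ite hw).imp_right fun ⟨o, hw⟩ => cb_ite' o ?_
  rwa [Vp_eq_bot (hk _ (h.down _ o.2.1 (fp t i.1) ((Finset.filter_subset _ _).trans o.1))),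
    bot_sup_eq] at hw

theorem kx_Cub (m : Module.Dual ℝ N) (hz : z ∈ Cub De t (p + 1) q) :
    co (kx m) z ∈ Cub De t p q :=
  cb_co _ (fun _ _ hw => (cb_ite hw).imp_right fun o => cb_ite' o.1 (kx_Co m o.2)) hz

theorem cb_t0 (h : Pre De t) {i : Ix N} (o : Ok De t i) : ∀ v ∈ ip t i.1, t v = 0 := fun v hv =>
  (h.t01 _ o.2.1 v (o.1 (Finset.mem_filter.1 hv).1)).resolve_right (Finset.mem_filter.1 hv).2

theorem kx_ZK (h : Pre De t) (hz : z ∈ ZK De t) : co (kx t) z ∈ ZK De t :=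
  cb_co _ (fun _ _ hw => (cb_ite hw).imp_right fun o =>
    cb_ite' o.1 (kx_Vp_of_zero (cb_t0 h o.1) o.2)) hz

theorem kx_VV (h : Pre De t) (hz : z ∈ VV De t (k + 1)) : co (kx t) z ∈ VV De t k :=
  cb_co _ (fun _ _ hw => (cb_ite hw).imp_right fun o => cb_ite' o.1
    (cb_sup (kx t) (fun _ e => Submodule.mem_sup_left (kx_Vp t e))
      (fun _ e => Submodule.mem_sup_right (kx_Vp_of_zero (cb_t0 h o.1) e)) o.2)) hz

theorem LK_Cub (μ : Finset N → Module.Dual ℝ N) (hz : z ∈ Cub De t (p + 1) (q + 1)) :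
    LK μ z ∈ Cub De t p q := by
  refine cb_LK μ (fun γ η w hw => (cb_ite hw).imp_right fun ⟨o, hw⟩ x hx hx' => ?_) hz
  exact cb_ite' ⟨cb_Ok2 o.1 hx, by rw [cb_e2]; exact cb_card hx hx' o.2⟩
    (kx_Co _ (cb_Co2 hx hx' hw))

theorem LK_Cub0 (μ : Finset N → Module.Dual ℝ N) (hz : z ∈ Cub De t p 0) : LK μ z = 0 :=
  cb_zero (LK μ) (fun γ η w e => by rw [LK_single, e, Finset.sum_empty])
    (fun _ _ _ hw => (cb_ite hw).imp_right fun h => h.1.2) hz

theorem cb_loc (h : Fn De) (hμ : Loc De hh μ) {γ η : Finset N} {x : N} (o : Ok De t (γ, η))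
    (hx : x ∈ η) {S : Finset N} (hS : S ⊆ γ) : ∀ v ∈ S, (μ (insert x γ) - μ γ) v = 0 := by
  intro v hv
  rw [LinearMap.sub_apply, hμ _ (h.down _ o.2.1 _ o.1) v (hS hv),
    hμ _ (h.down _ o.2.1 _ (Finset.insert_subset hx o.1)) v (Finset.mem_insert_of_mem (hS hv)),
    sub_self]

theorem LK_ZK (h : Fn De) (hμ : Loc De hh μ) (hz : z ∈ ZK De t) : LK μ z ∈ ZK De t := by
  refine cb_LK μ (fun γ η w hw => (cb_ite hw).imp_right fun ⟨o, hw⟩ x hx _ => ?_) hz
  exact cb_ite' (cb_Ok2 o hx) (Vp_mono (cb_ip (Finset.subset_insert _ _)) 1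
    (kx_Vp_of_zero (cb_loc h hμ o hx (Finset.filter_subset _ _)) (cx_Vp x hw)))

theorem LK_VV (h : Fn De) (hμ : Loc De hh μ) (hz : z ∈ VV De t k) : LK μ z ∈ VV De t k := by
  refine cb_LK μ (fun γ η w hw => (cb_ite hw).imp_right fun ⟨o, hw⟩ x hx _ => ?_) hz
  refine cb_ite' (cb_Ok2 o hx) (cb_VJ (Finset.subset_insert _ _) k (cb_sup (kx _) ?_ ?_
    (cb_cxVJ x hw)))
  · exact fun _ e => Submodule.mem_sup_left
      (kx_Vp_of_zero (cb_loc h hμ o hx (Finset.filter_subset _ _)) e)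
  · exact fun _ e => Submodule.mem_sup_right
      (kx_Vp_of_zero (cb_loc h hμ o hx (Finset.filter_subset _ _)) e)

theorem DT_single_zero (a : Kc N) :
    DT t (Finsupp.single 0 a) = Finsupp.single 0 (bd a) := by
  rw [DT, LinearMap.add_apply, co_single, Finsupp.lsum_single]
  exact add_zero _

theorem DT_single_succ (j : ℕ) (a : Kc N) : DT t (Finsupp.single (j + 1) a) =
    Finsupp.single (j + 1) (bd a) + Finsupp.single j (co (kx t) a) := by
  rw [DT, LinearMap.add_apply, co_single, Finsupp.lsum_single]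
  rfl

theorem DT_apply (x : Tc N) (j : ℕ) : DT t x j = bd (x j) + co (kx t) (x (j + 1)) := by
  refine cb_ext (f := Finsupp.lapply j ∘ₗ DT t)
    (g := bd ∘ₗ Finsupp.lapply j + co (kx t) ∘ₗ Finsupp.lapply (j + 1)) (fun i a => ?_) x
  change DT t (Finsupp.single i a) j =
    bd (Finsupp.single i a j) + co (kx t) (Finsupp.single i a (j + 1))
  cases i with
  | zero =>
    rw [DT_single_zero, Finsupp.single_eq_of_ne (Nat.succ_ne_zero j), map_zero, add_zero,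
      Finsupp.single_apply, Finsupp.single_apply, apply_ite bd, map_zero]
  | succ i =>
    rw [DT_single_succ, Finsupp.add_apply]
    simp only [Finsupp.single_apply, apply_ite bd, apply_ite (co (kx t)), map_zero,
      add_left_inj]

theorem DT_DT (x : Tc N) : DT t (DT t x) = 0 := by
  refine Finsupp.ext fun j => ?_
  have e : ∀ y : Kc N, co (kx t) (co (kx t) y) = 0 := fun y =>
    Finsupp.ext fun i => by rw [co_apply, co_apply, kx_kx, Finsupp.zero_apply]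
  rw [DT_apply, DT_apply, DT_apply, map_add bd, map_add (co (kx t)), bd_bd, bd_kx, e,
    Finsupp.zero_apply]
  abel

theorem cb_DT_LK (μ : Finset N → Module.Dual ℝ N) (x : Tc N) :
    DT t (co (LK μ) x) = co (LK μ) (DT t x) := by
  refine Finsupp.ext fun j => ?_
  rw [DT_apply, co_apply, co_apply, co_apply, DT_apply, map_add (LK μ), bd_LK, kx_LK]

theorem cb_DT_ZT (h : Pre De t) {x : Tc N} (hx : x ∈ ZT De t) : DT t x ∈ ZT De t := by
  refine mem_Pw.2 fun j => ?_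
  rw [DT_apply]
  exact Submodule.add_mem _ (bd_ZK h.fan (mem_Pw.1 hx j)) (kx_ZK h (mem_Pw.1 hx (j + 1)))

theorem cb_KC (h : Pre De t) (hz : z ∈ KC De t p (q + 1)) : bd z ∈ KC De t p q := by
  refine cb_sup bd (fun x hx => Submodule.mem_sup_left
    (Submodule.mem_inf.2 ⟨bd_Cub h.fan (Submodule.mem_inf.1 hx).1, ?_⟩))
    (fun _ hx => Submodule.mem_sup_right (bd_ZK h.fan hx)) hz
  have e := bd_kx t x
  rw [LinearMap.mem_ker.1 hx.2, map_zero] at e
  exact neg_eq_zero.1 e.symm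

theorem cb_KC0 (h : Pre De t) (hz : z ∈ KC De t p 0) : bd z ∈ ZK De t :=
  cb_sup bd (fun _ hx => by rw [bd_Cub0 hx.1]; exact Submodule.zero_mem _)
    (fun _ hx => bd_ZK h.fan hx) hz

/-- The cubical complex of the compactified star of `β` in weight `s`. -/
def cxY (h : Fn De) (β : Finset N) (s : ℕ) : Cx1 ℝ (Kc N) where
  C q := YC De β s q ⊔ YZ De β
  Z := YZ De β
  D := bd
  ZC _ := le_sup_right
  DZ _ hx := bd_YZ h hx
  DD _ x _ := by rw [bd_bd]; exact Submodule.zero_mem _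
  DC _ _ hx := cb_sup bd (fun _ e => Submodule.mem_sup_left (bd_YC h e))
    (fun _ e => Submodule.mem_sup_right (bd_YZ h e)) hx
  D0 _ hx := cb_sup bd (fun _ e => by rw [bd_YC0 e]; exact Submodule.zero_mem _)
    (fun _ e => bd_YZ h e) hx

/-- The cubical complex of the special fibre. -/
def cxK (h : Pre De t) (hμ : Loc De hh μ) : Cx ℝ (Kc N) where
  C := KC De t
  Z := ZK De t
  D := bd
  L := LK μ
  ZC _ _ := le_sup_right
  DZ _ hx := bd_ZK h.fan hx
  DD _ _ x _ := by rw [bd_bd]; exact Submodule.zero_mem _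
  DC _ _ _ hx := cb_KC h hx
  D0 _ _ hx := cb_KC0 h hx
  LZ _ hx := LK_ZK h.fan hμ hx
  LC _ _ _ hx := cb_sup (LK μ) (fun x e => Submodule.mem_sup_left (Submodule.mem_inf.2
      ⟨LK_Cub μ (Submodule.mem_inf.1 e).1, LinearMap.mem_ker.2
        (by rw [kx_LK, LinearMap.mem_ker.1 (Submodule.mem_inf.1 e).2, map_zero])⟩))
    (fun _ e => Submodule.mem_sup_right (LK_ZK h.fan hμ e)) hx
  DL := ⟨1, fun _ _ x _ => by rw [one_smul, bd_LK, sub_self]; exact Submodule.zero_mem _⟩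

theorem cb_TC (h : Pre De t) {x : Tc N} (hx : x ∈ Pw fun j =>
      if j ≤ q + 1 then Cub De t (p + j + 1) (q + 1 - j) ⊓ VV De t (j + 1) else ⊥) :
    DT t x ∈ Pw fun j => if j ≤ q then Cub De t (p + j + 1) (q - j) ⊓ VV De t (j + 1) else ⊥ := by
  refine mem_Pw.2 fun j => ?_
  rw [DT_apply]
  refine Submodule.add_mem _ ?_ ?_
  · rcases cb_ite (mem_Pw.1 hx j) with e | ⟨hj, e⟩
    · rw [e, map_zero]
      exact Submodule.zero_mem _
    · by_cases hq : j ≤ q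
      · rw [Nat.succ_sub hq] at e
        exact cb_ite' hq ⟨bd_Cub h.fan e.1, bd_VV h.fan e.2⟩
      · rw [show q + 1 - j = 0 by omega] at e
        rw [bd_Cub0 e.1]
        exact Submodule.zero_mem _
  · rcases cb_ite (mem_Pw.1 hx (j + 1)) with e | ⟨hj, e⟩
    · rw [e, map_zero]
      exact Submodule.zero_mem _
    · rw [Nat.add_sub_add_right] at e
      exact cb_ite' (by omega) ⟨kx_Cub t e.1, kx_VV h e.2⟩

theorem cb_TC0 {x : Tc N} (hx : x ∈ Pw fun j =>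
      if j ≤ 0 then Cub De t (p + j + 1) (0 - j) ⊓ VV De t (j + 1) else ⊥) : DT t x = 0 := by
  refine Finsupp.ext fun j => ?_
  have e1 : bd (x j) = 0 := by
    rcases cb_ite (mem_Pw.1 hx j) with e | ⟨_, e⟩
    · rw [e, map_zero]
    · rw [Nat.zero_sub] at e
      exact bd_Cub0 e.1
  have e2 : x (j + 1) = 0 := (cb_ite (mem_Pw.1 hx (j + 1))).resolve_right fun e => by omega
  rw [DT_apply, e1, e2, map_zero, add_zero, Finsupp.zero_apply]

theorem cb_LT (h : Pre De t) (hμ : Loc De hh μ) {x : Tc N} (hx : x ∈ Pw fun j =>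
      if j ≤ q + 1 then Cub De t (p + 1 + j + 1) (q + 1 - j) ⊓ VV De t (j + 1) else ⊥) :
    co (LK μ) x ∈
      Pw fun j => if j ≤ q then Cub De t (p + j + 1) (q - j) ⊓ VV De t (j + 1) else ⊥ := by
  refine cb_co _ (fun j w hw => (cb_ite hw).imp_right fun ⟨hj, e⟩ => ?_) hx
  by_cases hq : j ≤ q
  · rw [Nat.succ_sub hq, Nat.add_right_comm p 1 j] at e
    exact cb_ite' hq ⟨LK_Cub μ e.1, LK_VV h.fan hμ e.2⟩
  · rw [show q + 1 - j = 0 by omega] at e
    rw [LK_Cub0 μ e.1]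
    exact Submodule.zero_mem _

/-- The double complex. -/
def cxT (h : Pre De t) (hμ : Loc De hh μ) : Cx ℝ (Tc N) where
  C := TC De t
  Z := ZT De t
  D := DT t
  L := co (LK μ)
  ZC _ _ := le_sup_right
  DZ _ hx := cb_DT_ZT h hx
  DD _ _ x _ := by rw [DT_DT]; exact Submodule.zero_mem _
  DC _ _ _ hx := cb_sup (DT t) (fun _ e => Submodule.mem_sup_left (cb_TC h e))
    (fun _ e => Submodule.mem_sup_right (cb_DT_ZT h e)) hx
  D0 _ _ hx := cb_sup (DT t) (fun _ e => by rw [cb_TC0 e]; exact Submodule.zero_mem _)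
    (fun _ e => cb_DT_ZT h e) hx
  LZ _ hx := cb_co _ (fun _ _ e => Or.inr (LK_ZK h.fan hμ e)) hx
  LC _ _ _ hx := cb_sup (co (LK μ)) (fun _ e => Submodule.mem_sup_left (cb_LT h hμ e))
    (fun _ e => Submodule.mem_sup_right (cb_co _ (fun _ _ e => Or.inr (LK_ZK h.fan hμ e)) e)) hx
  DL := ⟨1, fun _ _ x _ => by rw [one_smul, cb_DT_LK, sub_self]; exact Submodule.zero_mem _⟩

/-- Cubes whose top face does not contain `A`. -/
def KA (A : Finset N) : Submodule ℝ (Kc N) := Pw fun i => if A ⊆ i.2 then ⊥ else ⊤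

theorem KA_empty : KA (∅ : Finset N) = ⊥ := by
  refine eq_bot_iff.2 fun y hy => (Submodule.mem_bot ℝ).2 (Finsupp.ext fun i => ?_)
  have e := mem_Pw.1 hy i
  rwa [if_pos (Finset.empty_subset _)] at e

theorem bd_KA {A : Finset N} (hz : z ∈ KA A) : bd z ∈ KA A := by
  refine cb_bd (fun γ η w hw => ?_) hz
  by_cases hA : A ⊆ η
  · rw [if_pos hA] at hw
    exact Or.inl hw
  · refine Or.inr fun x _ _ => ⟨?_, ?_⟩
    · rw [if_neg fun e => hA (e.trans (Finset.erase_subset _ _))]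
      exact Submodule.mem_top
    · rw [if_neg hA]
      exact Submodule.mem_top

/-- The cubical complex of the special fibre, localised at `A`. -/
def cxKA (h : Pre De t) (A : Finset N) (p : ℕ) : Cx1 ℝ (Kc N) where
  C q := KC De t p q ⊔ KA A
  Z := ZK De t ⊔ KA A
  D := bd
  ZC _ := sup_le_sup_right le_sup_right _
  DZ _ hx := cb_sup bd (fun _ e => Submodule.mem_sup_left (bd_ZK h.fan e))
    (fun _ e => Submodule.mem_sup_right (bd_KA e)) hx
  DD _ x _ := by rw [bd_bd]; exact Submodule.zero_mem _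
  DC _ _ hx := cb_sup bd (fun _ e => Submodule.mem_sup_left (cb_KC h e))
    (fun _ e => Submodule.mem_sup_right (bd_KA e)) hx
  D0 _ hx := cb_sup bd (fun _ e => Submodule.mem_sup_left (cb_KC0 h e))
    (fun _ e => Submodule.mem_sup_right (bd_KA e)) hx

end K2
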