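import Pool.Agent.Lib.MP_e9c0f3_ag.K2.Cube

/-! The graded pieces of the vanishing filtration are sums over the strata. -/

open ExteriorAlgebra KH
open scoped Classical

noncomputable section

namespace K2

variable {N : Type} [AddCommGroup N] [Module ℝ N] {De : Finset (Finset N)} {t : Module.Dual ℝ N}

theorem dec_ex {ι M M' : Type*} [AddCommGroup M] [Module ℝ M] [AddCommGroup M'] [Module ℝ M']
    {s : Finset ι} {G : ι → Submodule ℝ M} {f : ι → M →ₗ[ℝ] M'} {Z : Submodule ℝ M'} {x : M'}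
    (h : x ∈ (⨆ i ∈ s, (G i).map (f i)) ⊔ Z) :
    ∃ y : ι → M, (∀ i, y i ∈ G i) ∧ x - ∑ i ∈ s, f i (y i) ∈ Z := by
  obtain ⟨a, ha, b, hb, rfl⟩ := Submodule.mem_sup.1 h
  obtain ⟨μ, rfl⟩ := (Submodule.mem_iSup_finset_iff_exists_sum _ _).1 ha
  choose y h1 h2 using fun i => (μ i).2
  exact ⟨y, h1, by simpa [h2] using hb⟩

theorem dec_sup {ι M : Type*} [AddCommGroup M] [Module ℝ M] {s : Finset ι} {G T : Submodule ℝ M}
    {f : ι → M →ₗ[ℝ] M} (g : M →ₗ[ℝ] M) {x : M} (h : x ∈ ⨆ i ∈ s, G.map (f i))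
    (H : ∀ i ∈ s, ∀ z ∈ G, g (f i z) ∈ T) : g x ∈ T :=
  iSup₂_le (a := T.comap g) (fun i hi _ ⟨z, hz, e⟩ => e ▸ H i hi z hz) h

theorem dec_inv {V : Type} [AddCommGroup V] [Module ℝ V] (v : V) (a : ExteriorAlgebra ℝ V) :
    a * ι ℝ v = ι ℝ v * CliffordAlgebra.involute a := by
  induction a using om_ind with
  | h0 r => simp
  | h1 x y hx hy => rw [add_mul, map_add, mul_add, hx, hy]
  | h2 x m hx =>
    rw [mul_assoc, hx, map_mul, CliffordAlgebra.involute_ι, ← mul_assoc, ← mul_assoc, om_swap m v,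
      mul_neg]

theorem dec_inv_Jd {C : Finset N} {w : Om N} (h : w ∈ Jd C) :
    CliffordAlgebra.involute w ∈ Jd C := by
  have : Jd C ≤ (Jd C).comap (CliffordAlgebra.involute : Om N →ₐ[ℝ] Om N).toLinearMap := by
    refine iSup₂_le fun x hx => ?_
    rintro _ ⟨a, -, rfl⟩
    change CliffordAlgebra.involute (ev x * a) ∈ Jd C
    rw [map_mul, ev, CliffordAlgebra.involute_ι, neg_mul]
    exact neg_mem (ev_mul_Jd (Submodule.subset_span hx) _)
  exact this h

theorem dec_one (h : Fn De) {η C : Finset N} (hη : η ∈ De) {x : N} (hx : x ∈ η) (hC : C ⊆ η)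
    (hxC : x ∉ C) {y : Om N} (hy : y * ev x ∈ Jd C) : y ∈ Jd (insert x C) := by
  obtain ⟨m, hm⟩ := h.dual hη x
  have h1 : kx m (y * ev x) ∈ Jd C :=
    kx_Vp_of_zero (fun v hv => by rw [hm v (hC hv), if_neg fun e : v = x => hxC (e ▸ hv)]) hy
  rw [ev, dec_inv, ← ev, kx_ev_mul, hm x hx, if_pos rfl, one_smul] at h1
  have h2 := add_mem (Vp_mono (Finset.subset_insert x C) 1 h1)
    (ev_mul_Jd (S := insert x C) (Submodule.subset_span (Finset.mem_insert_self x C))
      (kx m (CliffordAlgebra.involute y)))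
  rw [sub_add_cancel] at h2
  simpa using dec_inv_Jd h2

theorem dec_evs (h : Fn De) {η C : Finset N} (hη : η ∈ De) (hC : C ⊆ η) {β : Finset N}
    (hβ : β ⊆ η) (hd : Disjoint β C) {y : Om N} (hy : y * evs β ∈ Jd C) : y ∈ Jd (β ∪ C) := by
  induction β using Finset.induction_on generalizing y with
  | empty => simpa [evs_empty] using hy
  | insert x β hx ih =>
    rw [Finset.insert_subset_iff] at hβ
    rw [Finset.disjoint_insert_left] at hd
    have h1 := Submodule.smul_mem _ (sg β x) hy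
    rw [evs_insert hx, mul_smul_comm, smul_smul, sg_sq, one_smul, ← mul_assoc] at h1
    rw [Finset.insert_union]
    exact dec_one h hη hβ.1 (Finset.union_subset hβ.2 hC) (by simp [hx, hd.1]) (ih hβ.2 hd.2 h1)

theorem dec_Vp (A β : Finset N) (k : ℕ) : Vp A k ≤ Vp β k ⊔ Jd (A \ β) := by
  induction k with
  | zero => exact le_sup_left.trans' le_top
  | succ k ih =>
    refine iSup₂_le fun x hx => ?_
    rintro _ ⟨a, ha, rfl⟩
    change ev x * a ∈ _
    by_cases hb : x ∈ β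
    · obtain ⟨b, h1, c, h2, rfl⟩ := Submodule.mem_sup.1 (ih ha)
      rw [mul_add]
      exact Submodule.add_mem_sup (ev_mul_Vp hb h1) (mul_mem_Vp _ h2)
    · exact Submodule.mem_sup_right
        (ev_mul_Jd (Submodule.subset_span (Finset.mem_coe.2 (Finset.mem_sdiff.2 ⟨hx, hb⟩))) a)

theorem dec_FF {s : Finset N} {p : ℕ} {b : Ex N} (h : b ∈ FF De p s) (x : N) :
    ι ℝ x * b = (-1 : ℝ) ^ p • (b * ι ℝ x) := by
  have : FF De p s ≤ LinearMap.eqLocus (LinearMap.mulLeft ℝ (ι ℝ x))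
      ((-1 : ℝ) ^ p • LinearMap.mulRight ℝ (ι ℝ x)) := by
    refine iSup₂_le fun θ _ => iSup_le fun _ b hb => ?_
    change ι ℝ x * b = (-1 : ℝ) ^ p • (b * ι ℝ x)
    clear h
    induction hb using Submodule.pow_induction_on_left' with
    | algebraMap r => rw [pow_zero, one_smul, Algebra.commutes]
    | add a b i _ _ h1 h2 => rw [mul_add, add_mul, smul_add, h1, h2]
    | mem_mul m hm i a _ ih =>
      obtain ⟨v, -, rfl⟩ := hm
      rw [← mul_assoc, om_swap, neg_mul, mul_assoc, ih, pow_succ, mul_neg_one, neg_smul,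
        mul_smul_comm, mul_assoc]
  exact this h

theorem dec_Co {η S : Finset N} {p : ℕ} {w : Om N} (h : w ∈ Co De η S p) (x : N) :
    ∃ c : ℝ, ev x * w = c • (w * ev x) := by
  obtain ⟨b, hb, rfl⟩ := mem_Co.1 h
  refine ⟨(-1) ^ S.card * (-1) ^ p, ?_⟩
  rw [← mul_assoc, ev_mul_eps, smul_mul_assoc, mul_assoc, ← emb_ι, ← map_mul, dec_FF hb, map_smul,
    map_mul, mul_smul_comm, smul_smul, mul_assoc]

theorem dec_b (h : Fn De) {η A B : Finset N} (hη : η ∈ De) (hA : A ⊆ η) (hB : B ⊆ η)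
    (hd : Disjoint A B) {i : ℕ} {y : Finset N → Om N}
    (hv : ∑ β ∈ A.powersetCard i, y β * evs β ∈ Vp A (i + 1) ⊔ Jd B) :
    ∀ β ∈ A.powersetCard i, y β ∈ Jd (A ∪ B) := by
  intro β hβ
  obtain ⟨h1, h2⟩ := Finset.mem_powersetCard.1 hβ
  have l1 : Jd (A \ β) ≤ Jd (A \ β ∪ B) := Vp_mono Finset.subset_union_left 1
  have l2 : Vp A (i + 1) ⊔ Jd B ≤ Jd (A \ β ∪ B) := by
    refine sup_le ((dec_Vp A β _).trans ?_) (Vp_mono Finset.subset_union_right 1)
    rw [Vp_eq_bot (by omega), bot_sup_eq]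
    exact l1
  have h3 : ∑ γ ∈ (A.powersetCard i).erase β, y γ * evs γ ∈ Jd (A \ β ∪ B) := by
    refine Submodule.sum_mem _ fun γ hγ => l1 ?_
    obtain ⟨a1, a2⟩ := Finset.mem_erase.1 hγ
    obtain ⟨a3, a4⟩ := Finset.mem_powersetCard.1 a2
    obtain ⟨x, x1, x2⟩ := Finset.not_subset.1 fun c : γ ⊆ β =>
      a1 (Finset.eq_of_subset_of_card_le c (by omega))
    rw [om_evs_erase x1]
    exact mul_mem_Vp _ (Submodule.smul_mem _ _ (ev_mul_Jd
      (Submodule.subset_span (Finset.mem_coe.2 (Finset.mem_sdiff.2 ⟨a3 x1, x2⟩))) _))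
  have h4 := sub_mem (l2 hv) h3
  rw [← Finset.add_sum_erase _ _ hβ, add_sub_cancel_right] at h4
  have h5 := dec_evs h hη (Finset.union_subset (Finset.sdiff_subset.trans hA) hB) (h1.trans hA)
    (Finset.disjoint_union_right.2 ⟨Finset.disjoint_sdiff, hd.mono_left h1⟩) h4
  rwa [← Finset.union_assoc, Finset.union_sdiff_of_subset h1] at h5

theorem dec_a (h : Fn De) {η A B S : Finset N} (hη : η ∈ De) (hA : A ⊆ η) (hB : B ⊆ η)
    (hd : Disjoint A B) {P i : ℕ} {w : Om N} (hw : w ∈ Co De η S P) (hv : w ∈ Vp A i ⊔ Jd B) :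
    ∃ y : Finset N → Om N, (∀ β, y β ∈ if i ≤ P then Co De η S (P - i) else ⊥) ∧
      w - ∑ β ∈ A.powersetCard i, y β * evs β ∈ Jd B := by
  induction i with
  | zero => exact ⟨fun _ => w, fun _ => by simpa using hw, by simp [evs_empty]⟩
  | succ i ih =>
    obtain ⟨y, h1, h2⟩ := ih (sup_le_sup_right (Vp_anti A (Nat.le_succ i)) _ hv)
    have h3 := dec_b h hη hA hB hd (y := y) (i := i) (by
      simpa using sub_mem hv (Submodule.mem_sup_right h2))
    refine dec_ex (f := fun β => LinearMap.mulRight ℝ (evs β)) ?_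
    rw [← sub_add_cancel w (∑ β ∈ A.powersetCard i, y β * evs β)]
    refine add_mem (Submodule.mem_sup_right h2) (Submodule.sum_mem _ fun β hβ => ?_)
    obtain ⟨b1, b2⟩ := Finset.mem_powersetCard.1 hβ
    by_cases hP : i + 1 ≤ P
    · have h4 := h1 β
      rw [if_pos (by omega), show P - i = P - (i + 1) + 1 by omega] at h4
      refine dec_sup (LinearMap.mulRight ℝ (evs β))
        (Co_inf_Jd h hη (Finset.union_subset hA hB) h4 (h3 β hβ)) fun x hx z hz => ?_
      rw [LinearMap.mulRight_apply, LinearMap.mulLeft_apply]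
      rcases Finset.mem_union.1 hx with hx | hx
      · obtain ⟨c, hc⟩ := dec_Co hz x
        rw [hc, smul_mul_assoc, mul_assoc]
        by_cases hb : x ∈ β
        · rw [ev_mul_evs hb, mul_zero, smul_zero]; exact zero_mem _
        · refine Submodule.smul_mem _ _ (Submodule.mem_sup_left (Submodule.mem_iSup_of_mem
            (insert x β) (Submodule.mem_iSup_of_mem (Finset.mem_powersetCard.2
              ⟨Finset.insert_subset hx b1, by rw [Finset.card_insert_of_notMem hb, b2]⟩)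
            ⟨sg β x • z, by rw [if_pos hP]; exact Submodule.smul_mem _ _ hz, ?_⟩)))
          rw [LinearMap.mulRight_apply, evs_insert hb, smul_mul_smul_comm, sg_sq, one_smul]
      · rw [mul_assoc]
        exact Submodule.mem_sup_right (ev_mul_Jd (Submodule.subset_span hx) _)
    · have h4 := h1 β
      have h5 : y β = 0 := by
        split_ifs at h4 with c
        · rw [show P - i = 0 by omega] at h4
          exact Co_zero_Jd h4 (h3 β hβ)
        · exact h4
      rw [h5, zero_mul]; exact zero_mem _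

/-- The faces at height one with `i` vertices. -/
def Fb (De : Finset (Finset N)) (t : Module.Dual ℝ N) (i : ℕ) : Finset (Finset N) :=
  De.filter fun β => Fi De t β ∧ β.card = i

theorem dec_mr (β : Finset N) (y : Kc N) (j : Ix N) : mr β y j = y j * evs β := co_apply _ _ _

theorem dec_fp {β : Finset N} (hβ : Fi De t β) {j : Ix N} (hj : OkY De β j) : β ⊆ fp t j.1 :=
  fun v hv => Finset.mem_filter.2 ⟨hj.1 hv, hβ.2.2 v hv⟩

theorem dec_ok {β : Finset N} (hβ : Fi De t β) {j : Ix N} (hj : OkY De β j) : Ok De t j :=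
  ⟨hj.2.1, hj.2.2, hβ.2.1.mono (dec_fp hβ hj)⟩

theorem dec_fb (h : Fn De) {i : ℕ} (hi : 1 ≤ i) {j : Ix N} (hj : Ok De t j) {β : Finset N}
    (hβ : β ∈ (fp t j.1).powersetCard i) : β ∈ Fb De t i ∧ OkY De β j := by
  obtain ⟨h1, h2⟩ := Finset.mem_powersetCard.1 hβ
  have h3 : β ⊆ j.1 := h1.trans (Finset.filter_subset _ _)
  have h4 : β ∈ De := h.down _ hj.2.1 _ (h3.trans hj.1)
  exact ⟨Finset.mem_filter.2 ⟨h4, ⟨h4, Finset.card_pos.1 (by omega),
    fun v hv => (Finset.mem_filter.1 (h1 hv)).2⟩, h2⟩, h3, hj.1, hj.2.1⟩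

theorem dec_union (S : Finset N) : fp t S ∪ ip t S = S := Finset.filter_union_filter_not_eq _ _

theorem dec_disj (S : Finset N) : Disjoint (fp t S) (ip t S) :=
  Finset.disjoint_filter_filter_not _ _ _

theorem decA (h : Fn De) {P q i : ℕ} (hi : 1 ≤ i) {x : Kc N} (hx : x ∈ Cub De t P q ⊓ VV De t i) :
    ∃ y : Finset N → Kc N, (∀ β, y β ∈ if i ≤ P then YC De β (P - i) q else ⊥) ∧
      x - ∑ β ∈ Fb De t i, mr β (y β) ∈ ZK De t := by
  refine dec_ex ?_
  rw [Cub, VV, ← Pw_inf] at hx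
  refine Pw_le (fun j a ha => ?_) hx
  obtain ⟨a1, a2⟩ := ha
  by_cases hj : Ok De t j ∧ (j.2 \ j.1).card = q
  · rw [if_pos hj] at a1
    rw [if_pos hj.1] at a2
    obtain ⟨y, h1, h2⟩ := dec_a h hj.1.2.1 ((Finset.filter_subset _ _).trans hj.1.1)
      ((Finset.filter_subset _ _).trans hj.1.1) (dec_disj j.1) a1 a2
    rw [← add_sub_cancel (∑ β ∈ (fp t j.1).powersetCard i, y β * evs β) a, Finsupp.single_add,
      Finsupp.single_finsetSum]
    refine Submodule.add_mem_sup (Submodule.sum_mem _ fun β hβ => ?_)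
      (single_mem_Pw (by rwa [if_pos hj.1]))
    obtain ⟨b1, b2⟩ := dec_fb h hi hj.1 hβ
    refine Submodule.mem_iSup_of_mem β (Submodule.mem_iSup_of_mem b1
      ⟨Finsupp.single j (y β), ?_, co_single _ _ _⟩)
    have h3 := h1 β
    split_ifs at h3 ⊢
    · exact single_mem_Pw (by rwa [if_pos ⟨b2, hj.2⟩])
    · rw [(Submodule.mem_bot ℝ).1 h3, Finsupp.single_zero]; exact zero_mem _
  · rw [if_neg hj] at a1
    rw [(Submodule.mem_bot ℝ).1 a1, Finsupp.single_zero]; exact zero_mem _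

theorem decB (h : Fn De) {i : ℕ} {y : Finset N → Kc N}
    (hy : ∀ β ∈ Fb De t i, y β ∈ Pw fun j => if OkY De β j then (⊤ : Submodule ℝ (Om N)) else ⊥)
    (hv : ∑ β ∈ Fb De t i, mr β (y β) ∈ VV De t (i + 1)) : ∀ β ∈ Fb De t i, y β ∈ YZ De β := by
  intro β hβ
  obtain ⟨-, b1, b2⟩ := Finset.mem_filter.1 hβ
  refine mem_Pw.2 fun j => ?_
  by_cases hj : OkY De β j
  · have ho := dec_ok b1 hj
    have hi : 1 ≤ i := b2 ▸ Finset.card_pos.2 b1.2.1
    have h1 := mem_Pw.1 hv j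
    rw [if_pos ho, Finsupp.finsetSum_apply,
      ← Finset.sum_subset (fun γ hγ => (dec_fb h hi ho hγ).1) fun γ g1 g2 => ?_] at h1
    · simp only [dec_mr] at h1
      rw [if_pos hj, ← dec_union (t := t) j.1]
      exact dec_b (y := fun γ => y γ j) h ho.2.1 ((Finset.filter_subset _ _).trans ho.1)
        ((Finset.filter_subset _ _).trans ho.1) (dec_disj j.1) h1 β
        (Finset.mem_powersetCard.2 ⟨dec_fp b1 hj, b2⟩)
    · obtain ⟨-, c1, c2⟩ := Finset.mem_filter.1 g1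
      have h2 := mem_Pw.1 (hy γ g1) j
      rw [if_neg fun c => g2 (Finset.mem_powersetCard.2 ⟨dec_fp c1 c, c2⟩)] at h2
      rw [dec_mr, (Submodule.mem_bot ℝ).1 h2, zero_mul]
  · simpa only [if_neg hj] using mem_Pw.1 (hy β hβ) j

theorem mr_YZ {β : Finset N} (hβ : Fi De t β) {y : Kc N} (hy : y ∈ YZ De β) :
    mr β y ∈ VV De t (β.card + 1) := by
  refine mem_Pw.2 fun j => ?_
  have h1 := mem_Pw.1 hy j
  rw [dec_mr]
  by_cases hj : OkY De β j
  · rw [if_pos hj, ← dec_union (t := t) j.1, Jd_union] at h1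
    obtain ⟨a, ha, b, hb, e⟩ := Submodule.mem_sup.1 h1
    rw [if_pos (dec_ok hβ hj), ← e, add_mul, add_comm β.card]
    exact Submodule.add_mem_sup (mul_evs_Vp (dec_fp hβ hj) ha) (mul_mem_Vp' _ hb)
  · rw [if_neg hj] at h1
    rw [(Submodule.mem_bot ℝ).1 h1, zero_mul]; exact zero_mem _

theorem mr_YC {β : Finset N} (hβ : Fi De t β) {s q : ℕ} {y : Kc N} (hy : y ∈ YC De β s q) :
    mr β y ∈ Cub De t (s + β.card) q ⊓ VV De t β.card := by
  rw [Cub, VV, ← Pw_inf]
  refine mem_Pw.2 fun j => ?_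
  have h1 := mem_Pw.1 hy j
  rw [dec_mr]
  by_cases hj : OkY De β j ∧ (j.2 \ j.1).card = q
  · rw [if_pos hj] at h1
    rw [if_pos ⟨dec_ok hβ hj.1, hj.2⟩, if_pos (dec_ok hβ hj.1)]
    refine ⟨mul_evs_Co (hj.1.1.trans hj.1.2.1) h1, Submodule.mem_sup_left ?_⟩
    simpa using mul_evs_Vp (i := 0) (w := y j) (dec_fp hβ hj.1) Submodule.mem_top
  · rw [if_neg hj] at h1
    rw [(Submodule.mem_bot ℝ).1 h1, zero_mul]; exact zero_mem _

end K2
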