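import Mathlib

/-! Cubical chains, the Steenbrink double complex and its first page for a simplicial fan. -/

open ExteriorAlgebra
open scoped Classical

noncomputable section

namespace K2

section Pw

variable {R ι E M : Type*} [Ring R] [AddCommGroup E] [Module R E] [AddCommGroup M] [Module R M]

/-- Finitely supported families whose component at `i` lies in `G i`. -/
def Pw (G : ι → Submodule R E) : Submodule R (ι →₀ E) := ⨅ i, (G i).comap (Finsupp.lapply i)

theorem mem_Pw {G : ι → Submodule R E} {z : ι →₀ E} : z ∈ Pw G ↔ ∀ i, z i ∈ G i := by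
  simp [Pw, Submodule.mem_iInf]

theorem single_mem_Pw {G : ι → Submodule R E} {i : ι} {a : E} (h : a ∈ G i) :
    Finsupp.single i a ∈ Pw G := by
  rw [mem_Pw]
  intro j
  by_cases e : i = j
  · subst e; simpa using h
  · simp [e]

theorem Pw_mono {G H : ι → Submodule R E} (h : ∀ i, G i ≤ H i) : Pw G ≤ Pw H :=
  fun _ hz => mem_Pw.2 fun i => h i (mem_Pw.1 hz i)

/-- To map `Pw G` into a submodule it is enough to check single components. -/
theorem map_mem_of_Pw {G : ι → Submodule R E} (f : (ι →₀ E) →ₗ[R] M) {S : Submodule R M}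
    (h : ∀ i, ∀ a ∈ G i, f (Finsupp.single i a) ∈ S) {z : ι →₀ E} (hz : z ∈ Pw G) : f z ∈ S := by
  rw [← Finsupp.sum_single z, Finsupp.sum, map_sum]
  exact S.sum_mem fun i _ => h i _ (mem_Pw.1 hz i)

theorem Pw_le {G : ι → Submodule R E} {S : Submodule R (ι →₀ E)}
    (h : ∀ i, ∀ a ∈ G i, Finsupp.single i a ∈ S) : Pw G ≤ S :=
  fun _ hz => map_mem_of_Pw LinearMap.id h hz

theorem Pw_sup (G H : ι → Submodule R E) : Pw (fun i => G i ⊔ H i) = Pw G ⊔ Pw H := by
  refine le_antisymm (Pw_le fun i a ha => ?_)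
    (sup_le (Pw_mono fun _ => le_sup_left) (Pw_mono fun _ => le_sup_right))
  obtain ⟨b, hb, c, hc, rfl⟩ := Submodule.mem_sup.1 ha
  rw [Finsupp.single_add]
  exact Submodule.add_mem_sup (single_mem_Pw hb) (single_mem_Pw hc)

theorem Pw_inf (G H : ι → Submodule R E) : Pw (fun i => G i ⊓ H i) = Pw G ⊓ Pw H := by
  ext z
  simp only [mem_Pw, Submodule.mem_inf, forall_and]

end Pw

/-- Apply a linear map to all coefficients. -/
def co {ι E E' : Type*} [AddCommGroup E] [Module ℝ E] [AddCommGroup E'] [Module ℝ E']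
    (f : E →ₗ[ℝ] E') : (ι →₀ E) →ₗ[ℝ] (ι →₀ E') := Finsupp.mapRange.linearMap f

@[simp] theorem co_apply {ι E E' : Type*} [AddCommGroup E] [Module ℝ E] [AddCommGroup E']
    [Module ℝ E'] (f : E →ₗ[ℝ] E') (z : ι →₀ E) (i : ι) : co f z i = f (z i) := by
  simp [co]

@[simp] theorem co_single {ι E E' : Type*} [AddCommGroup E] [Module ℝ E] [AddCommGroup E']
    [Module ℝ E'] (f : E →ₗ[ℝ] E') (i : ι) (a : E) :
    co f (Finsupp.single i a) = Finsupp.single i (f a) := by
  simp [co]

/-- Contraction with a linear form. -/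
def ct {V : Type} [AddCommGroup V] [Module ℝ V] (f : Module.Dual ℝ V) :
    ExteriorAlgebra ℝ V →ₗ[ℝ] ExteriorAlgebra ℝ V := CliffordAlgebra.contractLeft f

/-- The `p`-th exterior power of a subspace. -/
def wg {V : Type} [AddCommGroup V] [Module ℝ V] (T : Submodule ℝ V) (p : ℕ) :
    Submodule ℝ (ExteriorAlgebra ℝ V) := (T.map (ι ℝ)) ^ p

/-- Multivectors. -/
abbrev Ex (N : Type) [AddCommGroup N] [Module ℝ N] := ExteriorAlgebra ℝ N

/-- Multivectors together with orientation symbols, one for every vertex. -/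
abbrev Om (N : Type) [AddCommGroup N] [Module ℝ N] := ExteriorAlgebra ℝ ((N →₀ ℝ) × N)

/-- One additive structure on `Om N`, so that instances agree. -/
instance omGroup (N : Type) [AddCommGroup N] [Module ℝ N] : AddCommGroup (Om N) :=
  Ring.toAddCommGroup

instance omMonoid (N : Type) [AddCommGroup N] [Module ℝ N] : AddCommMonoid (Om N) :=
  (omGroup N).toAddCommMonoid

instance omZero (N : Type) [AddCommGroup N] [Module ℝ N] : Zero (Om N) :=
  (omMonoid N).toAddMonoid.toZero

instance omModule (N : Type) [AddCommGroup N] [Module ℝ N] : Module ℝ (Om N) := Algebra.toModule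

/-- Polynomials in the vertices. -/
abbrev Po (N : Type) := MvPolynomial N ℝ

/-- One additive structure on functionals, so that instances agree. -/
instance fuGroup (N : Type) : AddCommGroup (Module.Dual ℝ (Po N)) := LinearMap.addCommGroup

instance fuMonoid (N : Type) : AddCommMonoid (Module.Dual ℝ (Po N)) := (fuGroup N).toAddCommMonoid

instance fuZero (N : Type) : Zero (Module.Dual ℝ (Po N)) := (fuMonoid N).toAddMonoid.toZero

instance fuModule (N : Type) : Module ℝ (Module.Dual ℝ (Po N)) := LinearMap.module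

/-- Cubes: pairs of faces. -/
abbrev Ix (N : Type) := Finset N × Finset N

/-- Cubical chains. -/
abbrev Kc (N : Type) [AddCommGroup N] [Module ℝ N] := Ix N →₀ Om N

/-- Chains of the double complex. -/
abbrev Tc (N : Type) [AddCommGroup N] [Module ℝ N] := ℕ →₀ Kc N

/-- Elements of the first page. -/
abbrev Ec (N : Type) := (ℕ × Finset N) →₀ Module.Dual ℝ (Po N)

variable {N : Type} [AddCommGroup N] [Module ℝ N]

/-- A simplicial fan: the vertices are vectors, the faces are linearly independent. -/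
structure Fn (De : Finset (Finset N)) : Prop where
  down : ∀ t ∈ De, ∀ s ⊆ t, s ∈ De
  onto : ∀ t ∈ De, ∀ f : N → ℝ, ∃ m : Module.Dual ℝ N, ∀ v ∈ t, m v = f v

/-- The vertices. -/
def vx (De : Finset (Finset N)) : Finset N := De.biUnion id

/-- The multi-tangent space of the fan at the face `s`. -/
def FF (De : Finset (Finset N)) (p : ℕ) (s : Finset N) : Submodule ℝ (Ex N) :=
  ⨆ θ ∈ De, ⨆ _ : s ⊆ θ, wg (Submodule.span ℝ (θ : Set N)) p

/-- The ideal of multivectors generated by the vectors of `S`. -/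
def JE (S : Finset N) : Submodule ℝ (Ex N) :=
  ⨆ x ∈ S, LinearMap.range (LinearMap.mulLeft ℝ (ι ℝ x))

/-- The differential of the residue complex at the face `β`. -/
def rd (β : Finset N) : (Finset N →₀ Ex N) →ₗ[ℝ] (Finset N →₀ Ex N) :=
  Finsupp.lsum ℝ fun s => ∑ v ∈ s \ β, Finsupp.lsingle (s.erase v) ∘ₗ LinearMap.mulLeft ℝ (ι ℝ v)

/-- Chains of the residue complex. -/
def RC (De : Finset (Finset N)) (β : Finset N) (p q : ℕ) : Submodule ℝ (Finset N →₀ Ex N) :=
  Pw fun s => if s ∈ De ∧ β ⊆ s ∧ (s \ β).card = q ∧ q ≤ p then FF De (p - q) s else ⊥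

/-- Null chains of the residue complex. -/
def RZ (De : Finset (Finset N)) (β : Finset N) : Submodule ℝ (Finset N →₀ Ex N) :=
  Pw fun s => if s ∈ De ∧ β ⊆ s then JE s else ⊥

/-- The residue complex at `β` is exact in the degrees `q < p`. -/
def Res (De : Finset (Finset N)) (β : Finset N) : Prop :=
  ∀ p q, q < p → ∀ z ∈ RC De β p q, rd β z ∈ RZ De β →
    z ∈ (RC De β p (q + 1)).map (rd β) ⊔ RZ De β

/-- The monomial of a set of vertices. -/
def xs (S : Finset N) : Po N := ∏ v ∈ S, MvPolynomial.X v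

/-- The divisor class of a function on the vertices. -/
def lin (De : Finset (Finset N)) (l : N → ℝ) : Po N := ∑ v ∈ vx De, l v • MvPolynomial.X v

/-- The ideal of the closed star of `β`. -/
def Ic (De : Finset (Finset N)) (β : Finset N) : Ideal (Po N) :=
  Ideal.span ({a | ∃ S, S ∪ β ∉ De ∧ a = xs S} ∪ {a | ∃ m : Module.Dual ℝ N, a = lin De m})

/-- `φ` lives in degree `k`. -/
def Hom (φ : Module.Dual ℝ (Po N)) (k : ℕ) : Prop :=
  ∀ j, j ≠ k → ∀ a : Po N, a.IsHomogeneous j → φ a = 0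

/-- The radical of the pairing given by `φ`. -/
def Ann (φ : Module.Dual ℝ (Po N)) (a : Po N) : Prop := ∀ b, φ (a * b) = 0

/-- The Hodge-Riemann relations. -/
def HR (φ : Module.Dual ℝ (Po N)) (d : ℕ) (l : Po N) : Prop :=
  ∀ (k : ℕ) (a : Po N), a.IsHomogeneous k → 2 * k ≤ d → Ann φ (l ^ (d - 2 * k + 1) * a) →
    ¬ Ann φ a → 0 < (-1) ^ k * φ (a * a * l ^ (d - 2 * k))

/-- Functionals of degree `s` on the Chow ring of the star of `β`. -/
def Md (De : Finset (Finset N)) (β : Finset N) (s : ℕ) : Submodule ℝ (Module.Dual ℝ (Po N)) where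
  carrier := {ψ | (∀ a ∈ Ic De β, ψ a = 0) ∧ Hom ψ s}
  add_mem' := fun ha hb => ⟨fun a h => by simp [ha.1 a h, hb.1 a h],
    fun j hj a h => by simp [ha.2 j hj a h, hb.2 j hj a h]⟩
  zero_mem' := ⟨fun _ _ => rfl, fun _ _ _ _ => rfl⟩
  smul_mem' := fun c _ ha => ⟨fun a h => by simp [ha.1 a h], fun j hj a h => by simp [ha.2 j hj a h]⟩

/-- Precomposition with a multiplication. -/
def mx (a : Po N) : Module.Dual ℝ (Po N) →ₗ[ℝ] Module.Dual ℝ (Po N) :=
  (LinearMap.mulLeft ℝ a).dualMap

/-- The orientation symbol of a vertex. -/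
def ep (v : N) : Om N := ι ℝ (Finsupp.single v 1, 0)

/-- A vector. -/
def ev (x : N) : Om N := ι ℝ (0, x)

/-- Multivectors without orientation symbols. -/
def emb : Ex N →ₐ[ℝ] Om N := ExteriorAlgebra.map (LinearMap.inr ℝ (N →₀ ℝ) N)

/-- Set the orientation symbols to zero. -/
def sc : Om N →ₐ[ℝ] Ex N := ExteriorAlgebra.map (LinearMap.snd ℝ (N →₀ ℝ) N)

/-- Remove the orientation symbol of `v`. -/
def cx (v : N) : Om N →ₗ[ℝ] Om N := ct (Finsupp.lapply v ∘ₗ LinearMap.fst ℝ (N →₀ ℝ) N)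

/-- Contraction with a linear form on `N`. -/
def kx (m : Module.Dual ℝ N) : Om N →ₗ[ℝ] Om N := ct (m ∘ₗ LinearMap.snd ℝ (N →₀ ℝ) N)

/-- The product of the orientation symbols of `S`, in some order. -/
def eps (S : Finset N) : Om N := (S.toList.map ep).prod

/-- The product of the vectors of `S`, in some order. -/
def evs (S : Finset N) : Om N := (S.toList.map ev).prod

/-- The product of the central elements `ep x * ev x`. -/
def pis (S : Finset N) : Om N := (S.toList.map fun x => ep x * ev x).prod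

/-- The sign that compares the orders. -/
def sg (β : Finset N) (x : N) : ℝ := if eps (insert x β) = ep x * eps β then 1 else -1

/-- Coefficients of a cube with top face `η` and directions `S`. -/
def Co (De : Finset (Finset N)) (η S : Finset N) (p : ℕ) : Submodule ℝ (Om N) :=
  (FF De p η).map (LinearMap.mulLeft ℝ (eps S) ∘ₗ emb.toLinearMap)

/-- The powers of the ideal generated by the vectors of `S`. -/
def Vp (S : Finset N) : ℕ → Submodule ℝ (Om N)
  | 0 => ⊤
  | i + 1 => ⨆ x ∈ S, (Vp S i).map (LinearMap.mulLeft ℝ (ev x))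

/-- The ideal generated by the vectors of `S`. -/
def Jd (S : Finset N) : Submodule ℝ (Om N) := Vp S 1

/-- The cubical boundary. -/
def bd : Kc N →ₗ[ℝ] Kc N :=
  Finsupp.lsum ℝ fun i => ∑ x ∈ i.2 \ i.1,
    (Finsupp.lsingle (i.1, i.2.erase x) - Finsupp.lsingle (insert x i.1, i.2)) ∘ₗ cx x

/-- Cubes of the compactified star of `β`. -/
def OkY (De : Finset (Finset N)) (β : Finset N) (i : Ix N) : Prop :=
  β ⊆ i.1 ∧ i.1 ⊆ i.2 ∧ i.2 ∈ De

/-- Chains of the compactified star of `β`, weight `s`, dimension `q`. -/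
def YC (De : Finset (Finset N)) (β : Finset N) (s q : ℕ) : Submodule ℝ (Kc N) :=
  Pw fun i => if OkY De β i ∧ (i.2 \ i.1).card = q then Co De i.2 (i.2 \ i.1) s else ⊥

/-- Null chains of the compactified star of `β`. -/
def YZ (De : Finset (Finset N)) (β : Finset N) : Submodule ℝ (Kc N) :=
  Pw fun i => if OkY De β i then Jd i.1 else ⊥

/-- From residue chains to cubical chains. -/
def rs (β : Finset N) : (Finset N →₀ Ex N) →ₗ[ℝ] Kc N :=
  Finsupp.lsum ℝ fun η =>
    Finsupp.lsingle (β, η) ∘ₗ LinearMap.mulLeft ℝ (pis (η \ β)) ∘ₗ emb.toLinearMap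

/-- The cycle of a Minkowski weight. -/
def io (De : Finset (Finset N)) (β : Finset N) : Module.Dual ℝ (Po N) →ₗ[ℝ] Kc N :=
  ∑ η ∈ De.filter (β ⊆ ·), LinearMap.toSpanSingleton ℝ (Kc N)
    (Finsupp.single (β, η) (pis (η \ β))) ∘ₗ LinearMap.applyₗ (xs (η \ β))

/-- Right multiplication by the product of the vectors of `β`. -/
def mr (β : Finset N) : Kc N →ₗ[ℝ] Kc N := co (LinearMap.mulRight ℝ (evs β))

/-- The vertices at height one. -/
def fp (t : Module.Dual ℝ N) (S : Finset N) : Finset N := S.filter (t · = 1)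

/-- The vertices at height zero. -/
def ip (t : Module.Dual ℝ N) (S : Finset N) : Finset N := S.filter (t · ≠ 1)

/-- Nonempty faces all of whose vertices are at height one. -/
def Fi (De : Finset (Finset N)) (t : Module.Dual ℝ N) (β : Finset N) : Prop :=
  β ∈ De ∧ β.Nonempty ∧ ∀ v ∈ β, t v = 1

/-- Cubes of the special fibre. -/
def Ok (De : Finset (Finset N)) (t : Module.Dual ℝ N) (i : Ix N) : Prop :=
  i.1 ⊆ i.2 ∧ i.2 ∈ De ∧ (fp t i.1).Nonempty

/-- Cubical chains with coefficients in the total space. -/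
def Cub (De : Finset (Finset N)) (t : Module.Dual ℝ N) (p q : ℕ) : Submodule ℝ (Kc N) :=
  Pw fun i => if Ok De t i ∧ (i.2 \ i.1).card = q then Co De i.2 (i.2 \ i.1) p else ⊥

/-- Null chains. -/
def ZK (De : Finset (Finset N)) (t : Module.Dual ℝ N) : Submodule ℝ (Kc N) :=
  Pw fun i => if Ok De t i then Jd (ip t i.1) else ⊥

/-- The filtration by the order of vanishing along the vertices at height one. -/
def VV (De : Finset (Finset N)) (t : Module.Dual ℝ N) (k : ℕ) : Submodule ℝ (Kc N) :=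
  Pw fun i => if Ok De t i then Vp (fp t i.1) k ⊔ Jd (ip t i.1) else ⊥

/-- Cubical chains of bidegree `(p, q)` of the special fibre. -/
def KC (De : Finset (Finset N)) (t : Module.Dual ℝ N) (p q : ℕ) : Submodule ℝ (Kc N) :=
  Cub De t p q ⊓ LinearMap.ker (co (kx t)) ⊔ ZK De t

/-- The Lefschetz operator on cubical chains. -/
def LK (μ : Finset N → Module.Dual ℝ N) : Kc N →ₗ[ℝ] Kc N :=
  Finsupp.lsum ℝ fun i => ∑ x ∈ i.2 \ i.1,
    Finsupp.lsingle (insert x i.1, i.2) ∘ₗ kx (μ (insert x i.1) - μ i.1) ∘ₗ cx x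

/-- The differential of the double complex. -/
def DT (t : Module.Dual ℝ N) : Tc N →ₗ[ℝ] Tc N :=
  co bd + Finsupp.lsum ℝ fun j => match j with
    | 0 => 0
    | j + 1 => Finsupp.lsingle j ∘ₗ co (kx t)

/-- Null chains of the double complex. -/
def ZT (De : Finset (Finset N)) (t : Module.Dual ℝ N) : Submodule ℝ (Tc N) := Pw fun _ => ZK De t

/-- Chains of the double complex. -/
def TC (De : Finset (Finset N)) (t : Module.Dual ℝ N) (p q : ℕ) : Submodule ℝ (Tc N) :=
  (Pw fun j => if j ≤ q then Cub De t (p + j + 1) (q - j) ⊓ VV De t (j + 1) else ⊥) ⊔ ZT De t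

/-- The weight filtration. -/
def WT (De : Finset (Finset N)) (t : Module.Dual ℝ N) (r : ℤ) : Submodule ℝ (Tc N) :=
  Pw fun j : ℕ => VV De t (r + 2 * j + 1).toNat

/-- The augmentation. -/
def aug (t : Module.Dual ℝ N) : Tc N →ₗ[ℝ] Kc N := co (kx t) ∘ₗ Finsupp.lapply 0

/-- The bigraded pieces of the first page. -/
def EA (De : Finset (Finset N)) (t : Module.Dual ℝ N) (d : ℕ) (a b : ℤ) : Submodule ℝ (Ec N) :=
  Pw fun i => if Fi De t i.2 ∧ i.1 < i.2.card ∧ (i.2.card : ℤ) - 1 - 2 * i.1 = a then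
    ⨆ s : ℕ, ⨆ _ : (d : ℤ) + 1 - i.2.card - 2 * s = b, Md De i.2 s else ⊥

/-- The differential of the first page: restriction and Gysin maps. -/
def dE (De : Finset (Finset N)) (t : Module.Dual ℝ N) : Ec N →ₗ[ℝ] Ec N :=
  Finsupp.lsum ℝ fun i =>
    (∑ x ∈ (fp t (vx De) \ i.2).filter (insert · i.2 ∈ De),
      (-sg i.2 x) • Finsupp.lsingle (i.1, insert x i.2) ∘ₗ mx (MvPolynomial.X x)) +
    match i.1 with
    | 0 => 0
    | j + 1 => ∑ y ∈ i.2, sg (i.2.erase y) y • Finsupp.lsingle (j, i.2.erase y)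

/-- The monodromy operator of the first page. -/
def NE : Ec N →ₗ[ℝ] Ec N :=
  Finsupp.lsum ℝ fun i => match i.1 with
    | 0 => 0
    | j + 1 => Finsupp.lsingle (j, i.2)

/-- The Lefschetz operator of the first page. -/
def LE (De : Finset (Finset N)) (h : N → ℝ) : Ec N →ₗ[ℝ] Ec N := co (mx (lin De h))

/-- From the first page to the double complex. -/
def iE (De : Finset (Finset N)) : Ec N →ₗ[ℝ] Tc N :=
  Finsupp.lsum ℝ fun i => Finsupp.lsingle i.1 ∘ₗ mr i.2 ∘ₗ io De i.2

/-- A simplicial fan over a compactified complex, with exact residue complexes. -/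
structure Pre (De : Finset (Finset N)) (t : Module.Dual ℝ N) : Prop where
  fan : Fn De
  t01 : ∀ s ∈ De, ∀ v ∈ s, t v = 0 ∨ t v = 1
  res : ∀ β ∈ De, (fp t β).Nonempty → Res De β

/-- The Kaehler package at the faces at height one. -/
structure Dat (De : Finset (Finset N)) (t : Module.Dual ℝ N) (d : ℕ) (h : N → ℝ)
    (φ : Finset N → Module.Dual ℝ (Po N)) : Prop extends Pre De t where
  card_le : ∀ s ∈ De, s.card ≤ d + 1
  hom : ∀ β, Fi De t β → Hom (φ β) (d + 1 - β.card)
  pd : ∀ β, Fi De t β → ∀ a, Ann (φ β) a ↔ a ∈ Ic De β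
  comp : ∀ β x, Fi De t β → Fi De t (insert x β) → x ∉ β →
    φ (insert x β) = mx (MvPolynomial.X x) (φ β)
  hr : ∀ β, Fi De t β → HR (φ β) (d + 1 - β.card) (lin De h)

/-- `μ γ` is a linear form that agrees with `h` on the face `γ`. -/
def Loc (De : Finset (Finset N)) (h : N → ℝ) (μ : Finset N → Module.Dual ℝ N) : Prop :=
  ∀ γ ∈ De, ∀ v ∈ γ, μ γ v = h v

end K2
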