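import Pool.Agent.Lib.MP_e9c0f3_ag.K2.RDef
import Pool.Agent.Lib.MP_e9c0f3_ag.H5T.Flags

/-! Descent from real to rational coefficients. -/

open ExteriorAlgebra H5T Matrix KH
open scoped Classical TensorProduct

noncomputable section

namespace K2

variable {n : ℕ} {X : TropCx n} {m : Set (Pt n) → Fin n → ℚ} {h : (Fin n → ℚ) → ℚ}

/-- The directions of a cell are spanned by rational vectors. -/
theorem vectorSpan_eq {σ : Set (Pt n)} (hσ : σ ∈ X.cells) :
    vectorSpan ℝ σ = Submodule.span ℝ (rv '' (tang σ : Set (Fin n → ℚ))) := by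
  refine le_antisymm (fun w hw => ?_) (Submodule.span_le.2 ?_)
  swap
  · rintro _ ⟨v, hv, rfl⟩
    exact hv
  obtain ⟨S, hS⟩ := X.poly σ hσ
  have hmem : ∀ x, x ∈ σ ↔ ∀ h ∈ S, h.2 ≤ rv h.1 ⬝ᵥ x := fun x => by rw [hS]; rfl
  have hp := X.pt_mem σ hσ
  obtain ⟨r, xs, c, hc⟩ := G33.coords (Finset.univ.image w)
  have e : w = ∑ a ∈ Finset.range r, xs a • rv fun i => c a (w i) := by
    ext i
    rw [Finset.sum_apply]
    refine (hc (w i) (Finset.mem_image_of_mem w (Finset.mem_univ i))).trans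
      (Finset.sum_congr rfl fun a _ => ?_)
    rw [Pi.smul_apply, G33.rv_apply, smul_eq_mul, mul_comm]
  rw [e]
  refine Submodule.sum_mem _ fun a _ => Submodule.smul_mem _ _ (Submodule.subset_span ⟨_, ?_, rfl⟩)
  have h1 := G33.mem_dir S (w := rv fun i => c a (w i)) ((hmem _).1 (intrinsicInterior_subset hp))
    fun g hg e' => by
      rw [G33.rv_dot, ← G33.map_dot,
        G33.kill (G33.tight hp (fun x hx => (hmem x).1 hx g hg) e') w hw, map_zero, Rat.cast_zero]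
  rw [← hS] at h1
  exact h1

/-- A rational vector as a vector of the cone. -/
def dsR (n : ℕ) : (Fin n → ℚ) →ₗ[ℚ] Nn n := (LinearMap.inr ℝ ℝ (Pt n)).restrictScalars ℚ ∘ₗ rv

theorem dsR_apply (v : Fin n → ℚ) : dsR n v = rr v := rfl

/-- Rational multivectors as real multivectors. -/
def dsJ (n : ℕ) : Mv n →ₐ[ℚ] Ex (Nn n) :=
  ExteriorAlgebra.lift ℚ ⟨(ι ℝ).restrictScalars ℚ ∘ₗ dsR n, fun _ => ι_sq_zero _⟩

theorem dsJ_ι (v : Fin n → ℚ) : dsJ n (ι ℚ v) = ι ℝ (rr v) := lift_ι_apply _ _ _ _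

/-- The coordinates of a real vector. -/
def dsG (n : ℕ) : Nn n →ₗ[ℝ] ℝ ⊗[ℚ] Mv n :=
  ∑ i, ((LinearMap.proj i : Pt n →ₗ[ℝ] ℝ) ∘ₗ LinearMap.snd ℝ ℝ (Pt n)).smulRight
    ((1 : ℝ) ⊗ₜ[ℚ] ι ℚ (Pi.single i 1))

theorem dsG_apply (y : Nn n) : dsG n y = ∑ i, y.2 i ⊗ₜ[ℚ] ι ℚ (Pi.single i 1) := by
  simp [dsG, TensorProduct.smul_tmul']

theorem dsG_rr (v : Fin n → ℚ) : dsG n (rr v) = 1 ⊗ₜ[ℚ] ι ℚ v := by
  rw [dsG_apply]
  conv_rhs => rw [pi_eq_sum_univ' v, map_sum, TensorProduct.tmul_sum]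
  refine Finset.sum_congr rfl fun i _ => ?_
  rw [map_smul, ← TensorProduct.smul_tmul]
  simp [rr, G33.rv_apply]

theorem dsG_sq (y : Nn n) : dsG n y * dsG n y = 0 := by
  have h : dsG n y * dsG n y + dsG n y * dsG n y = 0 := by
    rw [dsG_apply, Finset.sum_mul_sum]
    nth_rewrite 2 [Finset.sum_comm]
    rw [← Finset.sum_add_distrib]
    refine Finset.sum_eq_zero fun i _ => ?_
    rw [← Finset.sum_add_distrib]
    refine Finset.sum_eq_zero fun j _ => ?_
    rw [Algebra.TensorProduct.tmul_mul_tmul, Algebra.TensorProduct.tmul_mul_tmul, mul_comm (y.2 j),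
      ← TensorProduct.tmul_add, ι_add_mul_swap, TensorProduct.tmul_zero]
  rw [← two_smul ℝ] at h
  exact (smul_eq_zero.1 h).resolve_left two_ne_zero

theorem ds_exists (n : ℕ) : ∃ (π : Ex (Nn n) →ₗ[ℚ] Mv n) (g : ℝ →ₗ[ℚ] ℚ), g 1 = 1 ∧
    (∀ r : ℝ, π (r • 1) = g r • 1) ∧ (∀ u c, π (ι ℝ (rr u) * c) = ι ℚ u * π c) ∧
    ∀ c, π (ι ℝ (1, 0) * c) = 0 := by
  obtain ⟨g, hg⟩ := LinearMap.exists_leftInverse_of_injective (Algebra.linearMap ℚ ℝ)
    (LinearMap.ker_eq_bot.2 (algebraMap ℚ ℝ).injective)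
  let ψ : Ex (Nn n) →ₐ[ℝ] ℝ ⊗[ℚ] Mv n := ExteriorAlgebra.lift ℝ ⟨dsG n, dsG_sq⟩
  have hψ : ∀ y, ψ (ι ℝ y) = dsG n y := fun y => lift_ι_apply _ _ _ _
  refine ⟨fl34_ev g ∘ₗ ψ.toLinearMap.restrictScalars ℚ, g,
    by simpa using LinearMap.congr_fun hg 1, fun r => ?_, fun u c => ?_, fun c => ?_⟩
  · change fl34_ev g (ψ (r • 1)) = _
    rw [map_smul, map_one, Algebra.TensorProduct.one_def, TensorProduct.smul_tmul', fl34_ev_tmul,
      smul_eq_mul, mul_one]
  · change fl34_ev g (ψ _) = _ * fl34_ev g (ψ c)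
    rw [map_mul, hψ, dsG_rr]
    induction ψ c using TensorProduct.induction_on with
    | zero => simp
    | tmul r b =>
      rw [Algebra.TensorProduct.tmul_mul_tmul, fl34_ev_tmul, fl34_ev_tmul, one_mul, mul_smul_comm]
    | add a b ha hb => rw [mul_add, map_add, map_add, mul_add, ha, hb]
  · change fl34_ev g (ψ _) = 0
    rw [map_mul, hψ, dsG_apply]
    simp

theorem ds_dv (v u : Fin n → ℚ) : dv v (rr u) = ((dq v u : ℚ) : ℝ) := G33.rv_dot v u

theorem ds_ctr (φ : Module.Dual ℚ (Fin n → ℚ)) (v : Fin n → ℚ) (x : Mv n) :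
    ctr φ (ι ℚ v * x) = φ v • x - ι ℚ v * ctr φ x := CliffordAlgebra.contractLeft_ι_mul φ v x

theorem ds_top : Submodule.span ℝ (insert ((1, 0) : Nn n) (Set.range rr)) = ⊤ := by
  refine eq_top_iff.2 fun y _ => ?_
  have e : y = y.1 • ((1, 0) : Nn n) + ∑ i, y.2 i • rr (Pi.single i 1) := by
    refine Prod.ext (by simp [rr, Prod.fst_sum]) (funext fun j => ?_)
    simp [rr, Prod.snd_sum, G33.rv_apply, Pi.single_apply, apply_ite]
  rw [e]
  exact add_mem (Submodule.smul_mem _ _ (Submodule.subset_span (Or.inl rfl)))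
    (Submodule.sum_mem _ fun i _ => Submodule.smul_mem _ _
      (Submodule.subset_span (Or.inr ⟨_, rfl⟩)))

theorem ds_wedge_sup (T U : Submodule ℚ (Fin n → ℚ)) (p : ℕ) :
    wedge (T ⊔ U) p ≤ wedge T p ⊔ U.map (ι ℚ) * ⊤ := by
  intro w hw
  rw [wedge] at hw ⊢
  induction hw using Submodule.pow_induction_on_left' with
  | algebraMap r => exact Submodule.mem_sup_left (Submodule.algebraMap_mem r)
  | add x y i _ _ h1 h2 => exact add_mem h1 h2
  | mem_mul a ha i x _ ih =>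
    obtain ⟨v, hv, rfl⟩ := ha
    obtain ⟨a, ha, b, hb, rfl⟩ := Submodule.mem_sup.1 hv
    obtain ⟨y, hy, z, hz, rfl⟩ := Submodule.mem_sup.1 ih
    rw [map_add, add_mul, mul_add, add_assoc, pow_succ']
    exact Submodule.add_mem_sup (Submodule.mul_mem_mul ⟨a, ha, rfl⟩ hy)
      (add_mem (coef_mul_ideal a U hz) (Submodule.mul_mem_mul ⟨b, hb, rfl⟩ trivial))

theorem ds_UR {τ : Set (Pt n)} (hτ : τ ∈ X.cells) :
    UR X τ ≤ Submodule.span ℝ (rr '' ((tang τ ⊔ X.sed τ : Submodule ℚ _) : Set (Fin n → ℚ))) := by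
  rw [UR, vectorSpan_eq hτ, Submodule.map_le_iff_le_comap]
  refine sup_le (Submodule.span_le.2 ?_) (Submodule.span_le.2 ?_)
  · rintro _ ⟨v, hv, rfl⟩
    exact Submodule.subset_span ⟨v, Submodule.mem_sup_left hv, rfl⟩
  · rintro _ ⟨v, hv, rfl⟩
    exact Submodule.subset_span ⟨v, Submodule.mem_sup_right (Submodule.subset_span hv), rfl⟩

/-- An embedding of rational into real multivectors and a retraction. -/
theorem exists_retr (X : TropCx n) : ∃ (j : Mv n →ₗ[ℚ] Ex (Nn n)) (π : Ex (Nn n) →ₗ[ℚ] Mv n),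
    (∀ b, π (j b) = b) ∧ (∀ v b, j (ctr (dq v) b) = ct (dv v) (j b)) ∧
    (∀ v b, π (ct (dv v) b) = ctr (dq v) (π b)) ∧
    (∀ p σ, ∀ b ∈ X.F p σ, j b ∈ GR X p σ) ∧ (∀ σ, ∀ b ∈ X.I σ, j b ∈ IR X σ) ∧
    (∀ p, ∀ σ ∈ X.cells, ∀ b ∈ GR X p σ, π b ∈ X.F p σ ⊔ X.I σ) ∧
    ∀ σ, ∀ b ∈ IR X σ, π b ∈ X.I σ := by
  obtain ⟨π, g, g1, h1, h2, h3⟩ := ds_exists n
  refine ⟨(dsJ n).toLinearMap, π, fun b => ?_, fun v b => ?_, fun v b => ?_, fun p σ => ?_,
    fun σ b hb => ?_, fun p σ hσ => ?_, fun σ => ?_⟩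
  · change π (dsJ n b) = b
    induction b using CliffordAlgebra.left_induction with
    | algebraMap r =>
      have := h1 1
      rw [one_smul, g1, one_smul] at this
      rw [Algebra.algebraMap_eq_smul_one, map_smul, map_smul, map_one, this]
    | add x y hx hy => rw [map_add, map_add, hx, hy]
    | ι_mul x u hx =>
      change π (dsJ n (ι ℚ u * x)) = ι ℚ u * x
      rw [map_mul, dsJ_ι, h2, hx]
  · change dsJ n _ = ct _ (dsJ n b)
    induction b using CliffordAlgebra.left_induction with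
    | algebraMap r =>
      rw [coef_ctr_one, map_zero, Algebra.algebraMap_eq_smul_one, map_smul, map_one,
        ← Rat.cast_smul_eq_qsmul ℝ, map_smul, ct_one, smul_zero]
    | add x y hx hy => simp only [map_add, hx, hy]
    | ι_mul x u hx =>
      change dsJ n (ctr _ (ι ℚ u * x)) = ct _ (dsJ n (ι ℚ u * x))
      rw [ds_ctr, map_sub, map_smul, map_mul, map_mul, dsJ_ι, ct_mul, hx, ds_dv,
        Rat.cast_smul_eq_qsmul]
  · suffices H : ∀ r : ℝ, π (ct (dv v) (r • b)) = ctr (dq v) (π (r • b)) by simpa using H 1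
    induction b using om_ind with
    | h0 s =>
      intro r
      rw [smul_smul, h1, map_smul, ct_one, smul_zero, map_zero, ← Algebra.algebraMap_eq_smul_one,
        coef_ctr_one]
    | h1 x y hx hy => intro r; simp only [smul_add, map_add, hx, hy]
    | h2 x y hx =>
      have hy : y ∈ Submodule.span ℝ (insert ((1, 0) : Nn n) (Set.range rr)) :=
        ds_top ▸ Submodule.mem_top
      induction hy using Submodule.span_induction with
      | mem y hy =>
        intro r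
        rw [← mul_smul_comm, ct_mul, map_sub]
        rcases hy with rfl | ⟨u, rfl⟩
        · have : dv v ((1, 0) : Nn n) = 0 := by simp [dv]
          rw [this, h3, h3, zero_smul, map_zero, map_zero, sub_zero]
        · rw [h2, h2, ds_ctr, hx, ds_dv, Rat.cast_smul_eq_qsmul, map_smul]
      | zero => intro r; simp
      | add a b _ _ ha hb => intro r; simp only [map_add, add_mul, smul_add, ha, hb]
      | smul a y _ hy => intro r; rw [map_smul (ι ℝ), smul_mul_assoc, smul_smul, hy]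
  · change X.F p σ ≤ ((GR X p σ).restrictScalars ℚ).comap (dsJ n).toLinearMap
    refine iSup₂_le fun τ hτ => iSup_le fun hs w hw => ?_
    have key : dsJ n w ∈ wg (UR X τ) p := by
      rw [wedge] at hw
      induction hw using Submodule.pow_induction_on_left' with
      | algebraMap r =>
        rw [Algebra.algebraMap_eq_smul_one, map_smul, map_one, ← Rat.cast_smul_eq_qsmul ℝ,
          ← Algebra.algebraMap_eq_smul_one]
        exact Submodule.algebraMap_mem _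
      | add x y i _ _ h1 h2 => rw [map_add]; exact add_mem h1 h2
      | mem_mul a ha i x _ ih =>
        obtain ⟨v, hv, rfl⟩ := ha
        rw [map_mul, dsJ_ι]
        exact om_wg_mul (Submodule.mem_map_of_mem (f := LinearMap.inr ℝ ℝ (Pt n))
          (Submodule.mem_sup_left hv)) ih
    exact Submodule.mem_iSup_of_mem τ (Submodule.mem_iSup_of_mem hτ
      (Submodule.mem_iSup_of_mem hs key))
  · change dsJ n b ∈ _
    refine Submodule.mul_induction_on hb ?_ fun x y hx hy => by rw [map_add]; exact add_mem hx hy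
    rintro _ ⟨v, hv, rfl⟩ y -
    induction hv using Submodule.span_induction with
    | mem u hu =>
      rw [map_mul, dsJ_ι]
      exact Submodule.mem_iSup_of_mem (rr u) (Submodule.mem_iSup_of_mem
        (Finset.mem_image_of_mem _ hu) ⟨_, rfl⟩)
    | zero => simp
    | add a b _ _ ha hb => rw [map_add, add_mul, map_add]; exact add_mem ha hb
    | smul a u _ hu =>
      rw [map_smul, smul_mul_assoc, map_smul, ← Rat.cast_smul_eq_qsmul ℝ]
      exact Submodule.smul_mem _ _ hu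
  · have key : ∀ τ ∈ X.cells, ∀ w ∈ ((UR X τ).map (ι ℝ)) ^ p, ∀ r : ℝ,
        π (r • w) ∈ ((tang τ ⊔ X.sed τ).map (ι ℚ)) ^ p := by
      intro τ hτ w hw
      induction hw using Submodule.pow_induction_on_left' with
      | algebraMap s =>
        intro r
        rw [Algebra.algebraMap_eq_smul_one, smul_smul, h1, ← Algebra.algebraMap_eq_smul_one]
        exact Submodule.algebraMap_mem _
      | add x y i _ _ h1 h2 => intro r; rw [smul_add, map_add]; exact add_mem (h1 r) (h2 r)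
      | mem_mul a ha i x _ ih =>
        obtain ⟨y, hy, rfl⟩ := ha
        have hy' := ds_UR hτ hy
        clear hy
        induction hy' using Submodule.span_induction with
        | mem y hy =>
          obtain ⟨u, hu, rfl⟩ := hy
          intro r
          rw [← mul_smul_comm, h2, pow_succ']
          exact Submodule.mul_mem_mul ⟨u, hu, rfl⟩ (ih r)
        | zero => intro r; simp
        | add a b _ _ ha hb =>
          intro r
          rw [map_add, add_mul, smul_add, map_add]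
          exact add_mem (ha r) (hb r)
        | smul a y _ hy => intro r; rw [map_smul (ι ℝ), smul_mul_assoc, smul_smul]; exact hy _
    intro b hb
    refine Submodule.iSup_induction _ (motive := fun b => π b ∈ X.F p σ ⊔ X.I σ) hb
      (fun τ b hb => ?_) (by simp) fun x y hx hy => by rw [map_add]; exact add_mem hx hy
    by_cases hτ : τ ∈ X.cells ∧ σ ⊆ τ
    · rw [iSup_pos hτ.1, iSup_pos hτ.2] at hb
      have h4 := ds_wedge_sup _ _ p (key τ hτ.1 b hb 1)
      rw [one_smul] at h4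
      have h5 : wedge (tang τ) p ≤ X.F p σ :=
        le_iSup₂_of_le τ hτ.1 (le_iSup (fun _ : σ ⊆ τ => wedge (tang τ) p) hτ.2)
      exact sup_le_sup h5 (TropCx.I_anti hτ.1 hσ hτ.2) h4
    · have : b = 0 := by
        by_cases h5 : τ ∈ X.cells
        · rwa [iSup_pos h5, iSup_neg fun h6 => hτ ⟨h5, h6⟩] at hb
        · rwa [iSup_neg h5] at hb
      rw [this, map_zero]
      exact zero_mem _
  · change (IR X σ).restrictScalars ℚ ≤ (X.I σ).comap π
    intro b hb
    refine Submodule.iSup_induction _ (motive := fun b => π b ∈ X.I σ) hb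
      (fun y b hb => ?_) (by simp) fun x y hx hy => by rw [map_add]; exact add_mem hx hy
    by_cases hy : y ∈ (X.ray σ).image rr
    · rw [iSup_pos hy] at hb
      obtain ⟨u, hu, rfl⟩ := Finset.mem_image.1 hy
      obtain ⟨c, rfl⟩ := hb
      rw [LinearMap.mulLeft_apply, h2]
      exact Submodule.mul_mem_mul ⟨u, Submodule.subset_span hu, rfl⟩ trivial
    · rw [iSup_neg hy] at hb
      rw [(Submodule.mem_bot _).1 hb, map_zero]
      exact zero_mem _

section

variable {j : Mv n →ₗ[ℚ] Ex (Nn n)} {π : Ex (Nn n) →ₗ[ℚ] Mv n}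

theorem ds_C {p q : ℕ} (h : ∀ σ ∈ X.cells, ∀ b ∈ GR X p σ, π b ∈ X.F p σ ⊔ X.I σ) {z : Fc n}
    (hz : z ∈ FC X p q) : H5T.co π z ∈ X.C X.Flag (X.F p) q ⊔ X.Z X.Flag X.I := by
  refine map_mem_of_Ch (H5T.co π) (fun l => ?_) hz
  change _ ≤ (X.C X.Flag (X.F p) q ⊔ X.Z X.Flag X.I).comap (H5T.co π ∘ₗ Finsupp.lsingle l)
  refine iSup₂_le fun σ hσ => iSup_le fun hl b hb => ?_
  obtain ⟨a, ha, c, hc, e⟩ := Submodule.mem_sup.1 (h σ hσ b hb)
  change H5T.co π (Finsupp.single l b) ∈ X.C X.Flag (X.F p) q ⊔ X.Z X.Flag X.I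
  rw [H5T.co_single, ← e, Finsupp.single_add]
  refine Submodule.add_mem_sup (single_mem_Ch (Submodule.mem_iSup_of_mem σ
    (Submodule.mem_iSup_of_mem hσ (Submodule.mem_iSup_of_mem hl ha)))) (single_mem_Ch ?_)
  split_ifs
  · trivial
  · exact TropCx.le_cf hσ hl.1 hc

theorem ds_cap {E E' : Type} [AddCommGroup E] [Module ℚ E] [AddCommGroup E'] [Module ℚ E']
    {f : E →ₗ[ℚ] E'} {a : Set (Pt n) → Set (Pt n) → E →ₗ[ℚ] E}
    {a' : Set (Pt n) → Set (Pt n) → E' →ₗ[ℚ] E'} (h : ∀ σ ρ b, f (a σ ρ b) = a' σ ρ (f b))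
    (k : ℕ) (z : List (Set (Pt n)) →₀ E) :
    H5T.co f (((cap a : Module.End ℚ _) ^ k) z) = ((cap a' : Module.End ℚ _) ^ k) (H5T.co f z) := by
  have h1 : ∀ z : List (Set (Pt n)) →₀ E, H5T.co f (cap a z) = cap a' (H5T.co f z) := by
    intro z
    induction z using Finsupp.induction_linear with
    | zero => simp
    | add x y hx hy => simp only [map_add, hx, hy]
    | single l b => rcases l with _ | ⟨σ, _ | ⟨ρ, l⟩⟩ <;> simp [h]
  induction k generalizing z with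
  | zero => rfl
  | succ k ih => rw [pow_succ, pow_succ, Module.End.mul_apply, Module.End.mul_apply, ih, h1]

theorem ds_co (h : ∀ b, π (j b) = b) (z : List (Set (Pt n)) →₀ Mv n) :
    H5T.co π (H5T.co j z) = z := by
  ext1 l
  simp [h]

end

theorem desc_HL (hm : Slo X m h) {d : ℕ} (hd : ∀ σ ∈ X.cells, Module.finrank ℚ (tang σ) ≤ d)
    (H : (cxF hm).HL d) : X.HardLef d fun σ => dq (m σ) := by
  obtain ⟨j, π, h1, h2, h3, h4, h5, h6, h7⟩ := exists_retr X
  have jL : ∀ k z, H5T.co j ((lef (fun σ => dq (m σ)) ^ k) z) = (lefR m ^ k) (H5T.co j z) :=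
    ds_cap fun σ ρ b => by
      rw [ctr_sub_vec, map_sub, h2, h2, LinearMap.restrictScalars_apply, ct_sub]
  have pL : ∀ k z, H5T.co π ((lefR m ^ k) z) = (lef (fun σ => dq (m σ)) ^ k) (H5T.co π z) :=
    ds_cap fun σ ρ b => by
      rw [ctr_sub_vec, LinearMap.restrictScalars_apply, ct_sub, map_sub, h3, h3]
  have jZ : ∀ z ∈ X.Z X.Flag X.I, H5T.co j z ∈ FZ X := fun z hz => fl34_Z j h5 hz
  have pZ : ∀ z ∈ FZ X, H5T.co π z ∈ X.Z X.Flag X.I := fun z hz => fl34_Z π h7 hz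
  have pC : ∀ p q, ∀ z ∈ FC X p q ⊔ FZ X,
      H5T.co π z ∈ X.C X.Flag (X.F p) q ⊔ X.Z X.Flag X.I := fun p q z hz => by
    obtain ⟨a, ha, b, hb, rfl⟩ := Submodule.mem_sup.1 hz
    rw [map_add]
    exact add_mem (ds_C (h6 p) ha) (Submodule.mem_sup_right (pZ b hb))
  have jCy : ∀ p q, ∀ z ∈ X.Cyc p q, H5T.co j z ∈ ((cxF hm).row p).Cy q := fun p q z hz =>
    ⟨Submodule.mem_sup_left (fl34_C j (h4 p) hz.1), by
      change H5T.bd (H5T.co j z) ∈ FZ X
      rw [bd_co]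
      exact jZ _ hz.2⟩
  have jB : ∀ p q, ∀ z ∈ X.B X.Flag p q, H5T.co j z ∈ ((cxF hm).row p).Bd q := fun p q z hz => by
    obtain ⟨_, ⟨y, hy, rfl⟩, w, hw, rfl⟩ := Submodule.mem_sup.1 hz
    rw [map_add, ← bd_co]
    exact Submodule.add_mem_sup
      (Submodule.mem_map_of_mem (Submodule.mem_sup_left (fl34_C j (h4 p) hy))) (jZ w hw)
  have pB : ∀ p q, ∀ z ∈ ((cxF hm).row p).Bd q, H5T.co π z ∈ X.B X.Flag p q := fun p q z hz => by
    obtain ⟨_, ⟨y, hy, rfl⟩, w, hw, rfl⟩ := Submodule.mem_sup.1 hz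
    obtain ⟨a, ha, b, hb, e⟩ := Submodule.mem_sup.1 (pC p _ y hy)
    change H5T.co π (H5T.bd y + w) ∈ _
    rw [map_add, ← bd_co, ← e, map_add, add_assoc]
    exact Submodule.add_mem_sup (Submodule.mem_map_of_mem ha) (add_mem (FG.bd_Z hb) (pZ w hw))
  have LZ : ∀ k, ∀ z ∈ FZ X, (lefR m ^ k) z ∈ FZ X := fun k => by
    induction k with
    | zero => exact fun z hz => hz
    | succ k ih => exact fun z hz => ih _ (lefR_FZ hm hz)
  refine ⟨hd, fun σ hσ ρ hρ hs v hv => ?_, fun p q k e => ⟨fun z hz hb => ?_, fun z hz => ?_⟩⟩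
  · induction hv using Submodule.span_induction with
    | mem u hu => exact (hm σ hσ u hu).trans (hm ρ hρ u (X.ray_anti σ hσ ρ hρ hs hu)).symm
    | zero => simp
    | add a b _ _ ha hb => rw [map_add, map_add, ha, hb]
    | smul a u _ hu => rw [map_smul, map_smul, hu]
  · have a1 := jB _ _ _ hb
    rw [jL] at a1
    have a2 := pB _ _ _ ((H p q k e).1 _ (jCy _ _ z hz) a1)
    rwa [ds_co h1] at a2
  · obtain ⟨y, hy, a1⟩ := (H p q k e).2 _ (jCy _ _ z hz)
    obtain ⟨a, ha, b, hb, e'⟩ := Submodule.mem_sup.1 (pC _ _ y hy.1)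
    have a2 := pB _ _ _ a1
    have a3 := pZ _ (LZ k _ (jZ b hb))
    have a4 := pZ _ hy.2
    change H5T.co π (H5T.bd y) ∈ _ at a4
    change H5T.co π (_ - (lefR m ^ k) y) ∈ _ at a2
    rw [map_sub, ds_co h1, pL, ← e', map_add] at a2
    rw [pL, ds_co h1] at a3
    rw [← bd_co, ← e', map_add] at a4
    refine ⟨a, ⟨ha, (Submodule.add_mem_iff_left _ (FG.bd_Z hb)).1 a4⟩, ?_⟩
    have a5 := add_mem a2 (Submodule.mem_sup_right a3)
    rwa [← sub_sub, sub_add_cancel] at a5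

theorem desc_LV (H : ∀ φ : List (Set (Pt n)), φ ≠ [] → (∀ ρ ∈ φ, ρ ∈ X.cells) → ∀ p q, q < p →
    (cxF1 X p φ).Cy q ≤ (cxF1 X p φ).Bd q) : X.LocVan := by
  obtain ⟨j, π, h1, -, -, h4, h5, h6, h7⟩ := exists_retr X
  intro φ h0 p q hq z hz hb
  by_cases hc : ∀ ρ ∈ φ, ρ ∈ X.cells
  swap
  · refine Submodule.mem_sup_right (Finsupp.supported_mono ?_ (TropCx.C_supported hz))
    rintro l ⟨⟨σ, -, hl⟩, -⟩ hs
    exact hc fun ρ hρ => (hl.2 ρ (hs hρ)).1
  have pZ : ∀ z ∈ FZ X ⊔ FA φ, H5T.co π z ∈ X.Z X.Flag X.I ⊔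
      Finsupp.supported _ ℚ {l | ¬φ ⊆ l} := fun z hz => by
    obtain ⟨a, ha, b, hb, rfl⟩ := Submodule.mem_sup.1 hz
    rw [map_add]
    exact Submodule.add_mem_sup (fl34_Z π h7 ha) (co_supported π hb)
  have a1 : H5T.co j z ∈ (cxF1 X p φ).Cy q := ⟨Submodule.mem_sup_left (fl34_C j (h4 p) hz), by
    change H5T.bd (H5T.co j z) ∈ FZ X ⊔ FA φ
    obtain ⟨a, ha, b, hb, e⟩ := Submodule.mem_sup.1 hb
    rw [bd_co, ← e, map_add]
    exact Submodule.add_mem_sup (fl34_Z j h5 ha) (co_supported j hb)⟩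
  obtain ⟨_, ⟨y, hy, rfl⟩, w, hw, e⟩ := Submodule.mem_sup.1 (H φ h0 hc p q hq a1)
  obtain ⟨y₁, hy₁, y₂, hy₂, rfl⟩ := Submodule.mem_sup.1 hy
  obtain ⟨a, ha, b, hb', e'⟩ := Submodule.mem_sup.1 (ds_C (h6 p) hy₁)
  have a2 := pZ _ (add_mem ((cxF1 X p φ).DZ _ hy₂) hw)
  change H5T.bd (y₁ + y₂) + w = _ at e
  change H5T.co π (H5T.bd y₂ + w) ∈ _ at a2
  rw [← ds_co h1 z, ← e, map_add H5T.bd, add_assoc, map_add, ← bd_co, ← e', map_add, TropCx.B,
    sup_assoc, add_assoc]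
  exact Submodule.add_mem_sup (Submodule.mem_map_of_mem ha)
    (add_mem (Submodule.mem_sup_left (FG.bd_Z hb')) a2)

end K2
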