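import Pool.Agent.Lib.MP_e9c0f3_ag.K2.Defs

/-! Calculus in the exterior algebra with orientation symbols. -/

open ExteriorAlgebra
open scoped Classical

noncomputable section

namespace K2

variable {N : Type} [AddCommGroup N] [Module ℝ N] {De : Finset (Finset N)}

theorem ct_mul {V : Type} [AddCommGroup V] [Module ℝ V] (f : Module.Dual ℝ V) (v : V)
    (w : ExteriorAlgebra ℝ V) : ct f (ι ℝ v * w) = f v • w - ι ℝ v * ct f w := CliffordAlgebra.contractLeft_ι_mul f v w

theorem ct_ct {V : Type} [AddCommGroup V] [Module ℝ V] (f : Module.Dual ℝ V)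
    (w : ExteriorAlgebra ℝ V) : ct f (ct f w) = 0 := CliffordAlgebra.contractLeft_contractLeft f w

theorem ct_comm {V : Type} [AddCommGroup V] [Module ℝ V] (f g : Module.Dual ℝ V)
    (w : ExteriorAlgebra ℝ V) : ct f (ct g w) = -ct g (ct f w) := CliffordAlgebra.contractLeft_comm f g w

theorem ct_one {V : Type} [AddCommGroup V] [Module ℝ V] (f : Module.Dual ℝ V) :
    ct f (1 : ExteriorAlgebra ℝ V) = 0 := CliffordAlgebra.contractLeft_one _ f

theorem ct_sub {V : Type} [AddCommGroup V] [Module ℝ V] (f g : Module.Dual ℝ V)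
    (w : ExteriorAlgebra ℝ V) : ct (f - g) w = ct f w - ct g w := by
  rw [ct, map_sub]; rfl

section om
variable {V W : Type} [AddCommGroup V] [Module ℝ V] [AddCommGroup W] [Module ℝ W]

theorem om_ind {P : ExteriorAlgebra ℝ V → Prop} (h0 : ∀ r : ℝ, P (r • 1))
    (h1 : ∀ x y, P x → P y → P (x + y)) (h2 : ∀ x m, P x → P (ι ℝ m * x))
    (w : ExteriorAlgebra ℝ V) : P w := by
  induction w using CliffordAlgebra.left_induction with
  | algebraMap r => rw [Algebra.algebraMap_eq_smul_one]; exact h0 r
  | add x y hx hy => exact h1 x y hx hy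
  | ι_mul x m hx => exact h2 x m hx

theorem om_swap (a b : V) : ι ℝ a * ι ℝ b = -(ι ℝ b * ι ℝ a) :=
  eq_neg_of_add_eq_zero_left (ι_add_mul_swap a b)

theorem om_ct_zero (w : ExteriorAlgebra ℝ V) : ct (0 : Module.Dual ℝ V) w = 0 := by
  rw [ct, map_zero]; rfl

theorem om_ct_map (F : V →ₗ[ℝ] W) (f : Module.Dual ℝ W) (b : ExteriorAlgebra ℝ V) :
    ct f (ExteriorAlgebra.map F b) = ExteriorAlgebra.map F (ct (f ∘ₗ F) b) := by
  induction b using om_ind with
  | h0 r => simp only [map_smul, map_one, ct_one, map_zero]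
  | h1 x y hx hy => simp only [map_add, hx, hy]
  | h2 x m hx =>
    rw [map_mul, map_apply_ι, ct_mul, ct_mul, hx, map_sub, map_smul, map_mul, map_apply_ι]; rfl

theorem om_ct_mul_of_zero (f : Module.Dual ℝ V) {z : ExteriorAlgebra ℝ V} (hz : ct f z = 0)
    (w : ExteriorAlgebra ℝ V) : ct f (w * z) = ct f w * z := by
  induction w using om_ind with
  | h0 r => simp only [smul_mul_assoc, one_mul, map_smul, ct_one, hz, zero_mul]
  | h1 x y hx hy => simp only [add_mul, map_add, hx, hy]
  | h2 x m hx => rw [mul_assoc, ct_mul, ct_mul, hx, sub_mul, smul_mul_assoc, mul_assoc]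

theorem om_central (a b : V) (w : ExteriorAlgebra ℝ V) :
    ι ℝ a * ι ℝ b * w = w * (ι ℝ a * ι ℝ b) := by
  induction w using om_ind with
  | h0 r => simp
  | h1 x y hx hy => rw [mul_add, add_mul, hx, hy]
  | h2 x m hx =>
    rw [mul_assoc (ι ℝ m), ← hx, ← mul_assoc, ← mul_assoc, ← mul_assoc, mul_assoc (ι ℝ a),
      om_swap b m, om_swap m a]
    noncomm_ring

theorem om_wg_mul {T : Submodule ℝ V} {p : ℕ} {v : V} (hv : v ∈ T) {w : ExteriorAlgebra ℝ V}
    (hw : w ∈ wg T p) : ι ℝ v * w ∈ wg T (p + 1) := by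
  rw [wg, pow_succ']
  exact Submodule.mul_mem_mul ⟨v, hv, rfl⟩ hw

theorem om_list_anti {A β : Type*} [Ring A] [Algebra ℝ A] {a : A} {f : β → A}
    (h : ∀ y, a * f y = -(f y * a)) (l : List β) :
    a * (l.map f).prod = (-1 : ℝ) ^ l.length • ((l.map f).prod * a) := by
  induction l with
  | nil => simp
  | cons y l ih =>
    rw [List.map_cons, List.prod_cons, ← mul_assoc, h, neg_mul, mul_assoc, ih, List.length_cons,
      pow_succ, mul_neg_one, neg_smul, mul_smul_comm, mul_assoc]

end om

/-- Contraction maps the exterior powers of `T` into those of `T ⊓ ker f`. -/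
theorem ct_wg {V : Type} [AddCommGroup V] [Module ℝ V] (f : Module.Dual ℝ V) {T : Submodule ℝ V}
    {p : ℕ} {w : ExteriorAlgebra ℝ V} (h : w ∈ wg T (p + 1)) :
    ct f w ∈ wg (T ⊓ LinearMap.ker f) p := by
  obtain ⟨u, hu⟩ : ∃ u, ∀ v ∈ T, v - f v • u ∈ T ⊓ LinearMap.ker f := by
    by_cases h0 : ∀ v ∈ T, f v = 0
    · exact ⟨0, fun v hv => by simpa using ⟨hv, h0 v hv⟩⟩
    · push Not at h0
      obtain ⟨u, h1, h2⟩ := h0
      refine ⟨(f u)⁻¹ • u, fun v hv => ⟨sub_mem hv (T.smul_mem _ (T.smul_mem _ h1)), ?_⟩⟩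
      simp [h2]
  have key : ∀ n (w : ExteriorAlgebra ℝ V), w ∈ (T.map (ι ℝ)) ^ n →
      ct f (ι ℝ u * w) ∈ wg (T ⊓ LinearMap.ker f) n ∧ (n = 0 → ct f w = 0) ∧
        ∀ p, n = p + 1 → ct f w ∈ wg (T ⊓ LinearMap.ker f) p := by
    intro n w hw
    induction hw using Submodule.pow_induction_on_left' with
    | algebraMap r =>
      have h0 : ct f (algebraMap ℝ _ r) = 0 := CliffordAlgebra.contractLeft_algebraMap _ f r
      refine ⟨?_, fun _ => h0, fun p hp => by omega⟩
      rw [ct_mul, h0, mul_zero, sub_zero]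
      exact Submodule.smul_mem _ _ (Submodule.algebraMap_mem r)
    | add x y i hx hy h1 h2 =>
      rw [mul_add, map_add, map_add]
      exact ⟨add_mem h1.1 h2.1, fun h => by rw [h1.2.1 h, h2.2.1 h, add_zero],
        fun p h => add_mem (h1.2.2 p h) (h2.2.2 p h)⟩
    | mem_mul m hm i x hx ih =>
      obtain ⟨v, hv, rfl⟩ := hm
      have h0 := hu v hv
      have h1 : f (v - f v • u) = 0 := h0.2
      have e : ι ℝ v = ι ℝ (v - f v • u) + f v • ι ℝ u := by rw [map_sub, map_smul, sub_add_cancel]
      generalize v - f v • u = v₀ at h0 h1 e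
      refine ⟨?_, fun h => by omega, fun p hp => ?_⟩
      · rw [e, ← mul_assoc, mul_add, mul_smul_comm, ι_sq_zero, smul_zero, add_zero, om_swap,
          neg_mul, mul_assoc, map_neg, ct_mul, h1, zero_smul, zero_sub, neg_neg]
        exact om_wg_mul h0 ih.1
      · obtain rfl : i = p := by omega
        rw [e, add_mul, map_add, smul_mul_assoc, map_smul, ct_mul f v₀, h1, zero_smul, zero_sub]
        refine add_mem (neg_mem ?_) (Submodule.smul_mem _ _ ih.1)
        cases i with
        | zero => rw [ih.2.1 rfl, mul_zero]; exact zero_mem _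
        | succ q => exact om_wg_mul h0 (ih.2.2 q rfl)
  exact (key _ w h).2.2 p rfl

theorem wg_mono {V : Type} [AddCommGroup V] [Module ℝ V] {T T' : Submodule ℝ V} (h : T ≤ T')
    (p : ℕ) : wg T p ≤ wg T' p := pow_le_pow_left' (Submodule.map_mono h) p

theorem kx_sub (m m' : Module.Dual ℝ N) (w : Om N) : kx (m - m') w = kx m w - kx m' w := by
  rw [kx, LinearMap.sub_comp, ct_sub]; rfl

theorem cx_ep_mul (x y : N) (w : Om N) :
    cx x (ep y * w) = (if x = y then w else 0) - ep y * cx x w := by
  rw [ep, cx, ct_mul]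
  by_cases h : x = y <;> simp [h]

theorem cx_ev_mul (x y : N) (w : Om N) : cx x (ev y * w) = -(ev y * cx x w) := by
  rw [ev, cx, ct_mul]; simp

theorem kx_ep_mul (m : Module.Dual ℝ N) (y : N) (w : Om N) :
    kx m (ep y * w) = -(ep y * kx m w) := by
  rw [ep, kx, ct_mul]; simp

theorem kx_ev_mul (m : Module.Dual ℝ N) (y : N) (w : Om N) :
    kx m (ev y * w) = m y • w - ev y * kx m w := ct_mul _ _ _

theorem cx_cx (x : N) (w : Om N) : cx x (cx x w) = 0 := ct_ct _ _

theorem cx_comm (x y : N) (w : Om N) : cx x (cx y w) = -cx y (cx x w) := ct_comm _ _ _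

theorem kx_kx (m : Module.Dual ℝ N) (w : Om N) : kx m (kx m w) = 0 := ct_ct _ _

theorem kx_comm (m m' : Module.Dual ℝ N) (w : Om N) : kx m (kx m' w) = -kx m' (kx m w) := ct_comm _ _ _

theorem cx_kx (x : N) (m : Module.Dual ℝ N) (w : Om N) : cx x (kx m w) = -kx m (cx x w) := ct_comm _ _ _

theorem ep_ep (x y : N) : ep x * ep y = -(ep y * ep x) := om_swap _ _

theorem ep_ev (x y : N) : ep x * ev y = -(ev y * ep x) := om_swap _ _

theorem ev_ev (x y : N) : ev x * ev y = -(ev y * ev x) := om_swap _ _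

theorem ep_sq (x : N) : ep x * ep x = 0 := ι_sq_zero _

theorem ev_sq (x : N) : ev x * ev x = 0 := ι_sq_zero _

theorem ev_add (x y : N) : ev (x + y) = ev x + ev y := by
  rw [ev, ev, ev, ← map_add, Prod.mk_add_mk, add_zero]

theorem ev_smul (c : ℝ) (x : N) : ev (c • x) = c • ev x := by
  rw [ev, ev, ← map_smul, Prod.smul_mk, smul_zero]

theorem ev_sum {ι' : Type*} (s : Finset ι') (f : ι' → N) :
    ev (∑ i ∈ s, f i) = ∑ i ∈ s, ev (f i) := by
  induction s using Finset.induction_on with
  | empty => simp [ev, Prod.mk_zero_zero]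
  | insert a s ha ih => rw [Finset.sum_insert ha, Finset.sum_insert ha, ev_add, ih]

theorem emb_ι (x : N) : emb (ι ℝ x) = ev x := map_apply_ι _ _

theorem cx_emb (x : N) (b : Ex N) : cx x (emb b) = 0 := by
  have : (Finsupp.lapply x ∘ₗ LinearMap.fst ℝ (N →₀ ℝ) N) ∘ₗ LinearMap.inr ℝ (N →₀ ℝ) N = 0 := by
    ext; simp
  rw [cx, emb, om_ct_map, this, om_ct_zero, map_zero]

theorem kx_emb (m : Module.Dual ℝ N) (b : Ex N) : kx m (emb b) = emb (ct m b) := by
  rw [kx, emb, om_ct_map]; rfl

theorem sc_emb (b : Ex N) : sc (emb b) = b := by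
  induction b using om_ind with
  | h0 r => simp only [map_smul, map_one]
  | h1 x y hx hy => simp only [map_add, hx, hy]
  | h2 x m hx => rw [map_mul, map_mul, hx, emb_ι, ev, sc, map_apply_ι]; rfl

theorem sc_ep (x : N) : sc (ep x) = 0 := by
  rw [ep, sc, map_apply_ι]; simp

theorem sc_ev (x : N) : sc (ev x) = ι ℝ x := map_apply_ι _ _

theorem sc_kx (m : Module.Dual ℝ N) (w : Om N) : sc (kx m w) = ct m (sc w) := (om_ct_map _ _ _).symm

theorem cx_mul_emb (x : N) (w : Om N) (b : Ex N) : cx x (w * emb b) = cx x w * emb b := om_ct_mul_of_zero _ (cx_emb x b) w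

theorem cx_mul_evs (x : N) (w : Om N) (β : Finset N) : cx x (w * evs β) = cx x w * evs β := by
  refine om_ct_mul_of_zero _ ?_ w
  change cx x (evs β) = 0
  rw [evs]
  induction β.toList with
  | nil => exact ct_one _
  | cons y l ih => rw [List.map_cons, List.prod_cons, cx_ev_mul, ih, mul_zero, neg_zero]

/-- The product over a list does not depend on the order, up to a sign. -/
theorem prod_perm {A V : Type*} [Ring A] {l l' : List V} (h : l.Perm l') :
    ∃ s : ℤˣ, ∀ f : V → A, (∀ x y, f x * f y = -(f y * f x)) →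
      (l.map f).prod = s • (l'.map f).prod := by
  induction h with
  | nil => exact ⟨1, fun _ _ => (one_smul _ _).symm⟩
  | cons x _ ih =>
    obtain ⟨s, hs⟩ := ih
    exact ⟨s, fun f hf => by
      rw [List.map_cons, List.map_cons, List.prod_cons, List.prod_cons, hs f hf, mul_smul_comm]⟩
  | swap x y l =>
    exact ⟨-1, fun f hf => by
      simp only [List.map_cons, List.prod_cons, ← mul_assoc, hf y x, neg_mul, Units.neg_smul,
        one_smul]⟩
  | trans _ _ h1 h2 =>
    obtain ⟨s, hs⟩ := h1
    obtain ⟨s', hs'⟩ := h2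
    exact ⟨s * s', fun f hf => by rw [hs f hf, hs' f hf, mul_smul]⟩

theorem eps_empty : eps (∅ : Finset N) = 1 := by simp [eps]

theorem evs_empty : evs (∅ : Finset N) = 1 := by simp [evs]

theorem pis_empty : pis (∅ : Finset N) = 1 := by simp [pis]

theorem om_cx_list {l : List N} {x : N} (h : x ∉ l) : cx x (l.map ep).prod = 0 := by
  induction l with
  | nil => exact ct_one _
  | cons y l ih =>
    rw [List.mem_cons, not_or] at h
    rw [List.map_cons, List.prod_cons, cx_ep_mul, if_neg h.1, ih h.2, mul_zero, sub_zero]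

theorem om_list_ne {l : List N} (h : l.Nodup) : (l.map ep).prod ≠ 0 := by
  induction l with
  | nil => exact one_ne_zero
  | cons y l ih =>
    rw [List.nodup_cons] at h
    intro h0
    have := congrArg (cx y) h0
    rw [List.map_cons, List.prod_cons, cx_ep_mul, if_pos rfl, om_cx_list h.1, mul_zero, sub_zero,
      map_zero] at this
    exact ih h.2 this

theorem eps_ne_zero (S : Finset N) : eps S ≠ 0 := om_list_ne S.nodup_toList

theorem om_insert {S : Finset N} {x : N} (h : x ∉ S) :
    eps (insert x S) = sg S x • (ep x * eps S) ∧ evs (insert x S) = sg S x • (ev x * evs S) := by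
  obtain ⟨s, hs⟩ := prod_perm (A := Om N) (Finset.toList_insert h)
  have h1 : eps (insert x S) = s • (ep x * eps S) := hs ep ep_ep
  have h2 : evs (insert x S) = s • (ev x * evs S) := hs ev ev_ev
  rcases Int.units_eq_one_or s with rfl | rfl
  · rw [one_smul] at h1 h2
    rw [sg, if_pos h1, one_smul, one_smul]
    exact ⟨h1, h2⟩
  · rw [Units.neg_smul, one_smul] at h1 h2
    have : eps (insert x S) ≠ ep x * eps S := fun h0 => by
      have h3 : (2 : ℝ) • eps (insert x S) = 0 := by
        rw [two_smul]; nth_rewrite 1 [h1]; rw [h0, neg_add_cancel]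
      exact eps_ne_zero _ ((smul_eq_zero.mp h3).resolve_left two_ne_zero)
    rw [sg, if_neg this, neg_smul, neg_smul, one_smul, one_smul]
    exact ⟨h1, h2⟩

theorem eps_insert_sg {S : Finset N} {x : N} (h : x ∉ S) :
    eps (insert x S) = sg S x • (ep x * eps S) := (om_insert h).1

theorem om_sg_sq (β : Finset N) (x : N) : sg β x * sg β x = 1 := by
  unfold sg; split_ifs <;> norm_num

theorem sg_swap {S : Finset N} {x y : N} (hx : x ∉ S) (hy : y ∉ S) (h : x ≠ y) :
    sg (insert y S) x * sg S y = -(sg (insert x S) y * sg S x) := by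
  have h1 := eps_insert_sg (S := insert y S) (x := x) (by simp [hx, h])
  have h2 := eps_insert_sg (S := insert x S) (x := y) (by simp [hy, h.symm])
  have h0 := eps_ne_zero (insert x (insert y S))
  rw [Finset.insert_comm, h1] at h2
  rw [h1] at h0
  rw [eps_insert_sg hy, mul_smul_comm, smul_smul] at h0 h2
  rw [eps_insert_sg hx, mul_smul_comm, smul_smul, ← mul_assoc (ep y), ep_ep y x, neg_mul, smul_neg,
    ← neg_smul, mul_assoc (ep x)] at h2
  exact smul_left_injective ℝ (right_ne_zero_of_smul h0) h2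

theorem eps_insert {S : Finset N} {x : N} (h : x ∉ S) :
    ∃ s : ℝ, s * s = 1 ∧ eps (insert x S) = s • (ep x * eps S) := ⟨sg S x, om_sg_sq S x, eps_insert_sg h⟩

theorem eps_list {l : List N} (h : l.Nodup) :
    ∃ s : ℝ, s * s = 1 ∧ eps l.toFinset = s • (l.map ep).prod := by
  obtain ⟨s, hs⟩ := prod_perm (A := Om N) (List.toFinset_toList h)
  have h1 : eps l.toFinset = s • (l.map ep).prod := hs ep ep_ep
  rcases Int.units_eq_one_or s with rfl | rfl
  · exact ⟨1, by norm_num, by rw [h1, one_smul, one_smul]⟩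
  · exact ⟨-1, by norm_num, by rw [h1, Units.neg_smul, neg_smul, one_smul, one_smul]⟩

theorem sg_sq (β : Finset N) (x : N) : sg β x * sg β x = 1 := om_sg_sq β x

theorem evs_insert {β : Finset N} {x : N} (h : x ∉ β) :
    evs (insert x β) = sg β x • (ev x * evs β) := (om_insert h).2

theorem om_pi_comm (x : N) (w : Om N) : ep x * ev x * w = w * (ep x * ev x) := om_central _ _ w

theorem pis_insert {S : Finset N} {x : N} (h : x ∉ S) :
    pis (insert x S) = ep x * ev x * pis S := by
  have := List.Perm.prod_eq' ((Finset.toList_insert h).map fun x => ep x * ev x)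
    (List.pairwise_map.mpr (List.pairwise_of_forall fun a b => om_pi_comm a _))
  rwa [List.map_cons, List.prod_cons] at this

theorem pis_comm (S : Finset N) (w : Om N) : pis S * w = w * pis S := by
  induction S using Finset.induction_on with
  | empty => simp [pis_empty]
  | insert a S ha ih => rw [pis_insert ha, mul_assoc, ih, ← mul_assoc, om_pi_comm, mul_assoc]

theorem om_ev_mul_eps (x : N) (S : Finset N) :
    ev x * eps S = (-1 : ℝ) ^ S.card • (eps S * ev x) := by
  rw [← Finset.length_toList]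
  exact om_list_anti (fun y => by rw [ep_ev, neg_neg]) _

theorem om_pis_erase {S : Finset N} {x : N} (h : x ∈ S) :
    pis S = ep x * ev x * pis (S.erase x) := by
  rw [← pis_insert (S.notMem_erase x), Finset.insert_erase h]

theorem om_evs_erase {S : Finset N} {x : N} (h : x ∈ S) :
    evs S = sg (S.erase x) x • (ev x * evs (S.erase x)) := by
  rw [← evs_insert (S.notMem_erase x), Finset.insert_erase h]

theorem pis_eq (S : Finset N) : ∃ s : ℝ, s * s = 1 ∧ pis S = s • (eps S * evs S) := by
  induction S using Finset.induction_on with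
  | empty => exact ⟨1, by norm_num, by simp [pis_empty, eps_empty, evs_empty]⟩
  | insert a S ha ih =>
    obtain ⟨s, h1, h2⟩ := ih
    refine ⟨s * (-1) ^ S.card, ?_, ?_⟩
    · rw [mul_mul_mul_comm, h1, ← mul_pow]; simp
    · rw [pis_insert ha, h2, eps_insert_sg ha, evs_insert ha, smul_mul_smul_comm, sg_sq, one_smul,
        mul_smul_comm, mul_assoc (ep a), ← mul_assoc (ev a), om_ev_mul_eps, smul_mul_assoc,
        mul_smul_comm, smul_smul]
      simp only [mul_assoc]

theorem ev_mul_pis {S : Finset N} {x : N} (h : x ∈ S) : ev x * pis S = 0 := by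
  rw [om_pis_erase h, ← mul_assoc, ← om_pi_comm, mul_assoc (ep x), ev_sq, mul_zero, zero_mul]

theorem ev_mul_evs {S : Finset N} {x : N} (h : x ∈ S) : ev x * evs S = 0 := by
  rw [om_evs_erase h, mul_smul_comm, ← mul_assoc, ev_sq, zero_mul, smul_zero]

theorem cx_pis_mul (x : N) (S : Finset N) (w : Om N) : cx x (pis S * w) =
    (if x ∈ S then ev x * pis (S.erase x) * w else 0) + pis S * cx x w := by
  have key : ∀ S : Finset N, x ∉ S → cx x (pis S * w) = pis S * cx x w := by
    intro S hx
    induction S using Finset.induction_on with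
    | empty => simp [pis_empty]
    | insert a S ha ih =>
      rw [Finset.mem_insert, not_or] at hx
      rw [pis_insert ha, mul_assoc, mul_assoc, cx_ep_mul, if_neg hx.1, cx_ev_mul, ih hx.2]
      noncomm_ring
  split_ifs with h
  · conv_lhs => rw [om_pis_erase h]
    rw [mul_assoc, mul_assoc, cx_ep_mul, if_pos rfl, cx_ev_mul, key _ (S.notMem_erase x),
      om_pis_erase h]
    noncomm_ring
  · rw [key S h, zero_add]

theorem kx_pis_mul (m : Module.Dual ℝ N) (S : Finset N) (w : Om N) : kx m (pis S * w) =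
    pis S * kx m w - ∑ x ∈ S, m x • (ep x * pis (S.erase x) * w) := by
  induction S using Finset.induction_on with
  | empty => simp [pis_empty]
  | insert a S ha ih =>
    have e : ∑ x ∈ S, m x • (ep x * pis ((insert a S).erase x) * w) =
        ep a * ev a * ∑ x ∈ S, m x • (ep x * pis (S.erase x) * w) := by
      rw [Finset.mul_sum]
      refine Finset.sum_congr rfl fun x hx => ?_
      rw [Finset.erase_insert_of_ne fun h : a = x => ha (h ▸ hx),
        pis_insert fun h => ha (Finset.mem_of_mem_erase h), mul_smul_comm, ← mul_assoc (ep x),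
        ← om_pi_comm]
      simp only [mul_assoc]
    rw [Finset.sum_insert ha, Finset.erase_insert ha, e, pis_insert ha, mul_assoc, mul_assoc,
      kx_ep_mul, kx_ev_mul, ih, mul_sub, mul_smul_comm]
    noncomm_ring

theorem kx_evs (m : Module.Dual ℝ N) (β : Finset N) :
    kx m (evs β) = ∑ y ∈ β, (m y * sg (β.erase y) y) • evs (β.erase y) := by
  induction β using Finset.induction_on with
  | empty => rw [evs_empty, Finset.sum_empty]; exact ct_one _
  | insert a S ha ih =>
    rw [Finset.sum_insert ha, Finset.erase_insert ha, evs_insert ha, map_smul, kx_ev_mul, ih,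
      smul_sub, smul_smul, mul_comm, sub_eq_add_neg, Finset.mul_sum, Finset.smul_sum,
      ← Finset.sum_neg_distrib]
    refine congrArg _ (Finset.sum_congr rfl fun y hy => ?_)
    have hay : a ≠ y := fun h => ha (h ▸ hy)
    have ha' : a ∉ S.erase y := fun h => ha (Finset.mem_of_mem_erase h)
    have h1 := sg_swap ha' (S.notMem_erase y) hay
    rw [Finset.insert_erase hy] at h1
    rw [Finset.erase_insert_of_ne hay, evs_insert ha', mul_smul_comm, smul_smul, smul_smul,
      ← neg_smul]
    congr 1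
    linear_combination (-m y) * h1

theorem cx_eps_not {S : Finset N} {x : N} (h : x ∉ S) : cx x (eps S) = 0 := om_cx_list (by simpa using h)

theorem kx_eps_mul (m : Module.Dual ℝ N) (S : Finset N) (w : Om N) :
    kx m (eps S * w) = (-1 : ℝ) ^ S.card • (eps S * kx m w) := by
  rw [← Finset.length_toList, eps]
  induction S.toList with
  | nil => simp
  | cons y l ih =>
    rw [List.map_cons, List.prod_cons, mul_assoc, kx_ep_mul, ih, List.length_cons, pow_succ,
      mul_neg_one, neg_smul, mul_smul_comm, mul_assoc]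

theorem ev_mul_eps (x : N) (S : Finset N) :
    ev x * eps S = (-1 : ℝ) ^ S.card • (eps S * ev x) := om_ev_mul_eps x S

end K2
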