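import Pool.Agent.Lib.MP_e9c0f3_ag.K2.MW
import Pool.Agent.Lib.MP_e9c0f3_ag.K2.Om

/-! The operators of the first page. -/

open ExteriorAlgebra
open scoped Classical

noncomputable section

namespace K2

variable {N : Type} [AddCommGroup N] [Module ℝ N] {De : Finset (Finset N)} {t : Module.Dual ℝ N}
  {d : ℕ} {hh : N → ℝ} {a b : ℤ} {x : Ec N}

theorem dE_single_zero (β : Finset N) (ψ : Module.Dual ℝ (Po N)) :
    dE De t (Finsupp.single (0, β) ψ) = ∑ x ∈ (fp t (vx De) \ β).filter (insert · β ∈ De),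
      (-sg β x) • Finsupp.single (0, insert x β) (mx (MvPolynomial.X x) ψ) := by
  rw [dE, Finsupp.lsum_single]
  simp only [add_zero, LinearMap.sum_apply, LinearMap.smul_apply, LinearMap.comp_apply,
    Finsupp.lsingle_apply]

theorem dE_single_succ (j : ℕ) (β : Finset N) (ψ : Module.Dual ℝ (Po N)) :
    dE De t (Finsupp.single (j + 1, β) ψ) =
      ∑ x ∈ (fp t (vx De) \ β).filter (insert · β ∈ De),
        (-sg β x) • Finsupp.single (j + 1, insert x β) (mx (MvPolynomial.X x) ψ) +
      ∑ y ∈ β, sg (β.erase y) y • Finsupp.single (j, β.erase y) ψ := by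
  rw [dE, Finsupp.lsum_single]
  simp only [LinearMap.add_apply, LinearMap.sum_apply, LinearMap.smul_apply, LinearMap.comp_apply,
    Finsupp.lsingle_apply]

theorem NE_single_zero (β : Finset N) (ψ : Module.Dual ℝ (Po N)) :
    NE (Finsupp.single (0, β) ψ) = 0 := by
  rw [NE, Finsupp.lsum_single]; rfl

theorem NE_single_succ (j : ℕ) (β : Finset N) (ψ : Module.Dual ℝ (Po N)) :
    NE (Finsupp.single (j + 1, β) ψ) = Finsupp.single (j, β) ψ := by
  rw [NE, Finsupp.lsum_single]; rfl

theorem eb_ind {P : Ec N → Prop} (h0 : P 0) (h1 : ∀ x y, P x → P y → P (x + y))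
    (h2 : ∀ β ψ, P (Finsupp.single (0, β) ψ)) (h3 : ∀ j β ψ, P (Finsupp.single (j + 1, β) ψ))
    (x : Ec N) : P x := by
  induction x using Finsupp.induction_linear with
  | zero => exact h0
  | add x y hx hy => exact h1 x y hx hy
  | single i ψ =>
    obtain ⟨_ | j, β⟩ := i
    · exact h2 β ψ
    · exact h3 j β ψ

theorem NE_apply (x : Ec N) (j : ℕ) (β : Finset N) : NE x (j, β) = x (j + 1, β) := by
  induction x using eb_ind with
  | h0 => simp
  | h1 x y hx hy => rw [map_add, Finsupp.add_apply, Finsupp.add_apply, hx, hy]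
  | h2 γ ψ => rw [NE_single_zero, Finsupp.single_eq_of_ne (by simp)]; rfl
  | h3 i γ ψ => simp [NE_single_succ, Finsupp.single_apply]

/-- To map `EA` into a submodule it is enough to check single functionals. -/
theorem map_mem_of_EA {M : Type*} [AddCommGroup M] [Module ℝ M] (f : Ec N →ₗ[ℝ] M)
    {S : Submodule ℝ M} (h : ∀ (j : ℕ) (β : Finset N) (s : ℕ) (ψ : Module.Dual ℝ (Po N)),
      Fi De t β → j < β.card → (β.card : ℤ) - 1 - 2 * j = a →
      (d : ℤ) + 1 - β.card - 2 * s = b → ψ ∈ Md De β s → f (Finsupp.single (j, β) ψ) ∈ S)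
    (hx : x ∈ EA De t d a b) : f x ∈ S := by
  refine map_mem_of_Pw f (fun ⟨j, β⟩ ψ hψ => ?_) hx
  split_ifs at hψ with hc
  · have : (⨆ s : ℕ, ⨆ _ : (d : ℤ) + 1 - β.card - 2 * s = b, Md De β s) ≤
        S.comap (f ∘ₗ Finsupp.lsingle (j, β)) :=
      iSup₂_le fun s hs ψ hψ => h j β s ψ hc.1 hc.2.1 hc.2.2 hs hψ
    exact this hψ
  · rw [(Submodule.mem_bot ℝ).mp hψ, Finsupp.single_zero, map_zero]; exact zero_mem _

theorem single_mem_EA {j s : ℕ} {β : Finset N} {ψ : Module.Dual ℝ (Po N)} (hβ : Fi De t β)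
    (hj : j < β.card) (ha : (β.card : ℤ) - 1 - 2 * j = a) (hb : (d : ℤ) + 1 - β.card - 2 * s = b)
    (hψ : ψ ∈ Md De β s) : Finsupp.single (j, β) ψ ∈ EA De t d a b := by
  refine single_mem_Pw ?_
  rw [if_pos ⟨hβ, hj, ha⟩]
  exact Submodule.mem_iSup_of_mem s (Submodule.mem_iSup_of_mem hb hψ)

theorem EA_apply (hx : x ∈ EA De t d a b) (j : ℕ) (β : Finset N) : x (j, β) = 0 ∨
    (Fi De t β ∧ j < β.card ∧ (β.card : ℤ) - 1 - 2 * j = a ∧
      ∃ s : ℕ, (d : ℤ) + 1 - β.card - 2 * s = b ∧ x (j, β) ∈ Md De β s) := by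
  have h := mem_Pw.mp hx (j, β)
  split_ifs at h with hc
  · by_cases hs : ∃ s : ℕ, (d : ℤ) + 1 - β.card - 2 * s = b
    · obtain ⟨s, hs⟩ := hs
      have : (⨆ s : ℕ, ⨆ _ : (d : ℤ) + 1 - β.card - 2 * s = b, Md De β s) ≤ Md De β s :=
        iSup₂_le fun s' hs' => by rw [show s' = s by omega]
      exact .inr ⟨hc.1, hc.2.1, hc.2.2, s, hs, this h⟩
    · have : (⨆ s : ℕ, ⨆ _ : (d : ℤ) + 1 - β.card - 2 * s = b, Md De β s) ≤ ⊥ :=
        iSup₂_le fun s' hs' => (hs ⟨s', hs'⟩).elim
      exact .inl (this h)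
  · exact .inl h

theorem NE_EA (hx : x ∈ EA De t d a b) : NE x ∈ EA De t d (a + 2) b := by
  refine map_mem_of_EA NE (fun j β s ψ h1 h2 h3 h4 h5 => ?_) hx
  cases j with
  | zero => rw [NE_single_zero]; exact zero_mem _
  | succ j =>
    rw [NE_single_succ]
    exact single_mem_EA h1 (by omega) (by push_cast at h3; omega) h4 h5

theorem LE_EA (hx : x ∈ EA De t d a b) : LE De hh x ∈ EA De t d a (b + 2) := by
  refine map_mem_of_EA (LE De hh) (fun j β s ψ h1 h2 h3 h4 h5 => ?_) hx
  rw [LE, co_single]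
  cases s with
  | zero => rw [mx_Md_lt (lin_hom hh) h5 one_pos, Finsupp.single_zero]; exact zero_mem _
  | succ s => exact single_mem_EA h1 h2 h3 (by push_cast at h4; omega) (mx_Md (lin_hom hh) h5)

theorem dE_EA (h : Fn De) (hx : x ∈ EA De t d a b) :
    dE De t x ∈ EA De t d (a + 1) (b + 1) := by
  refine map_mem_of_EA (dE De t) (fun j β s ψ h1 h2 h3 h4 h5 => ?_) hx
  have k1 : ∑ x ∈ (fp t (vx De) \ β).filter (insert · β ∈ De),
      (-sg β x) • Finsupp.single (j, insert x β) (mx (MvPolynomial.X x) ψ) ∈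
        EA De t d (a + 1) (b + 1) := by
    refine Submodule.sum_mem _ fun y hy => Submodule.smul_mem _ _ ?_
    obtain ⟨y1, y2⟩ := Finset.mem_filter.mp hy
    obtain ⟨y3, y4⟩ := Finset.mem_sdiff.mp y1
    have hc := Finset.card_insert_of_notMem y4
    cases s with
    | zero =>
      rw [mx_Md_lt (MvPolynomial.isHomogeneous_X ℝ y) h5 one_pos, Finsupp.single_zero]
      exact zero_mem _
    | succ s =>
      refine single_mem_EA ⟨y2, Finset.insert_nonempty _ _, fun v hv => ?_⟩ (by omega)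
        (by omega) (by push_cast at h4; omega) (mx_X_Md h h5 y4)
      rcases Finset.mem_insert.mp hv with rfl | hv
      · exact (Finset.mem_filter.mp y3).2
      · exact h1.2.2 v hv
  cases j with
  | zero => rw [dE_single_zero]; exact k1
  | succ j =>
    rw [dE_single_succ]
    refine add_mem k1 (Submodule.sum_mem _ fun y hy => Submodule.smul_mem _ _ ?_)
    have hc := Finset.card_erase_add_one hy
    exact single_mem_EA ⟨h.down _ h1.1 _ (Finset.erase_subset _ _), Finset.card_pos.mp (by omega),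
      fun v hv => h1.2.2 v (Finset.mem_of_mem_erase hv)⟩ (by omega) (by push_cast at h3; omega)
      (by omega) (Md_anti h (Finset.erase_subset _ _) h5)

theorem NE_LE (x : Ec N) : NE (LE De hh x) = LE De hh (NE x) := by
  ext ⟨j, β⟩ : 1
  rw [NE_apply, LE, co_apply, co_apply, NE_apply]

theorem dE_NE (x : Ec N) : dE De t (NE x) = NE (dE De t x) := by
  induction x using eb_ind with
  | h0 => simp only [map_zero]
  | h1 x y hx hy => simp only [map_add, hx, hy]
  | h2 β ψ =>
    simp only [NE_single_zero, dE_single_zero, map_zero, map_sum, map_smul, smul_zero,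
      Finset.sum_const_zero]
  | h3 j β ψ =>
    cases j with
    | zero =>
      simp only [NE_single_succ, NE_single_zero, dE_single_zero, dE_single_succ, map_add, map_sum,
        map_smul, smul_zero, Finset.sum_const_zero, add_zero]
    | succ j => simp only [NE_single_succ, dE_single_succ, map_add, map_sum, map_smul]

theorem eb_mx_comm (p q : Po N) (ψ : Module.Dual ℝ (Po N)) : mx p (mx q ψ) = mx q (mx p ψ) := by
  refine LinearMap.ext fun c => ?_
  rw [mx_apply, mx_apply, mx_apply, mx_apply, mul_left_comm]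

theorem dE_LE (x : Ec N) : dE De t (LE De hh x) = LE De hh (dE De t x) := by
  induction x using eb_ind with
  | h0 => simp only [map_zero]
  | h1 x y hx hy => simp only [map_add, hx, hy]
  | h2 β ψ =>
    simp only [LE, co_single, dE_single_zero, map_sum, map_smul, eb_mx_comm (lin De hh)]
  | h3 j β ψ =>
    simp only [LE, co_single, dE_single_succ, map_add, map_sum, map_smul, eb_mx_comm (lin De hh)]

/-- In homological degree zero the differential vanishes. -/
theorem dE_zero {p : ℕ} (hx : x ∈ EA De t d p (d - p)) : dE De t x = 0 := by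
  refine (Submodule.mem_bot ℝ).mp (map_mem_of_EA (dE De t) (fun j β s ψ _ _ h3 h4 h5 => ?_) hx)
  obtain rfl : j = 0 := by omega
  obtain rfl : s = 0 := by omega
  rw [dE_single_zero]
  refine Submodule.sum_mem _ fun y _ => Submodule.smul_mem _ _ ?_
  rw [mx_Md_lt (MvPolynomial.isHomogeneous_X ℝ y) h5 one_pos, Finsupp.single_zero]
  exact zero_mem _

/-- A nonzero piece has a bidegree. -/
theorem EA_deg (hx : x ∈ EA De t d a b) (h0 : x ≠ 0) :
    ∃ p q : ℕ, a = p - q ∧ b = d - p - q := by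
  obtain ⟨⟨j, β⟩, hi⟩ := Finsupp.ne_iff.mp h0
  obtain ⟨-, h2, h3, s, h4, -⟩ := (EA_apply hx j β).resolve_left hi
  exact ⟨β.card - 1 - j + s, j + s, by omega, by omega⟩

theorem eb_Md_bot (h : Fn De) (β : Finset N) {s : ℕ} (hs : (vx De).card < s) : Md De β s = ⊥ := by
  refine eq_bot_iff.mpr fun ψ hψ => mw_ext h hψ fun η h1 _ h3 => ?_
  have := Finset.card_le_card (Finset.sdiff_subset.trans
    (Finset.subset_biUnion_of_mem id h1) : η \ β ⊆ vx De)
  omega

theorem EA_finite (h : Fn De) : FiniteDimensional ℝ ↥(⨆ a, ⨆ b, EA De t d a b) := by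
  have := fun β s => Md_finite h β s
  let n := (vx De).card + 1
  let U : Submodule ℝ (Ec N) := (Finset.range n ×ˢ De ×ˢ Finset.range n).sup fun i =>
    (Md De i.2.1 i.2.2).map (Finsupp.lsingle (i.1, i.2.1))
  have hU : (⨆ a, ⨆ b, EA De t d a b) ≤ U := by
    refine iSup₂_le fun a b x hx =>
      map_mem_of_EA LinearMap.id (fun j β s ψ h1 h2 _ _ h5 => ?_) hx
    by_cases hs : s < n
    · have hc : β.card ≤ (vx De).card :=
        Finset.card_le_card (Finset.subset_biUnion_of_mem id h1.1)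
      refine Finset.le_sup (f := fun i : ℕ × Finset N × ℕ =>
        (Md De i.2.1 i.2.2).map (Finsupp.lsingle (i.1, i.2.1))) (b := (j, β, s)) ?_ ⟨ψ, h5, rfl⟩
      simp only [Finset.mem_product, Finset.mem_range]
      exact ⟨by omega, h1.1, hs⟩
    · rw [eb_Md_bot h β (by omega)] at h5
      rw [(Submodule.mem_bot ℝ).mp h5, Finsupp.single_zero, map_zero]; exact zero_mem _
  exact Submodule.finiteDimensional_of_le hU

theorem NE_pow_apply (a : ℕ) (x : Ec N) (j : ℕ) (β : Finset N) :
    (NE ^ a : Module.End ℝ _) x (j, β) = x (j + a, β) := by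
  induction a generalizing j with
  | zero => rfl
  | succ a ih => rw [pow_succ', Module.End.mul_apply, NE_apply, ih, add_right_comm, add_assoc]

theorem NE_pow_single (a j : ℕ) (β : Finset N) (ψ : Module.Dual ℝ (Po N)) :
    (NE ^ a : Module.End ℝ _) (Finsupp.single (j + a, β) ψ) = Finsupp.single (j, β) ψ := by
  induction a with
  | zero => rfl
  | succ a ih => rw [pow_succ, Module.End.mul_apply, ← add_assoc, NE_single_succ, ih]

theorem NE_inj (a : ℕ) (b : ℤ) (hx : x ∈ EA De t d (-a) b) (h0 : (NE ^ a : Module.End ℝ _) x = 0) :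
    x = 0 := by
  ext ⟨j, β⟩ : 1
  rcases EA_apply hx j β with h | ⟨-, h2, h3, -⟩
  · exact h
  · obtain ⟨i, rfl⟩ : ∃ i, j = i + a := ⟨j - a, by omega⟩
    rw [← NE_pow_apply, h0]; rfl

theorem NE_surj (a : ℕ) (b : ℤ) (hx : x ∈ EA De t d a b) :
    ∃ y ∈ EA De t d (-a) b, (NE ^ a : Module.End ℝ _) y = x :=
  map_mem_of_EA LinearMap.id (S := (EA De t d (-a) b).map (NE ^ a : Module.End ℝ _))
    (fun j β s ψ h1 h2 h3 h4 h5 => ⟨_, single_mem_EA (j := j + a) h1 (by omega)
      (by push_cast; omega) h4 h5, NE_pow_single a j β ψ⟩) hx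

end K2
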