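import Mathlib

noncomputable section Weil

set_option linter.unusedSectionVars false

/-! The Weil element of an `sl₂`-triple in a `ℚ`-algebra. -/

open IsNilpotent


namespace HL2

variable {A : Type*} [Ring A] [Algebra ℚ A]

/-- Conjugation by `exp X` when the third commutator vanishes. -/
theorem exp_conj {X y z t : A} (hX : IsNilpotent X) (h1 : X * y - y * X = z)
    (h2 : X * z - z * X = t) (h3 : X * t - t * X = 0) :
    exp X * y = (y + z + (2 : ℚ)⁻¹ • t) * exp X := by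
  obtain ⟨k, hk⟩ := hX
  set L : Module.End ℚ A := LinearMap.mulLeft ℚ X with hL
  set R : Module.End ℚ A := LinearMap.mulRight ℚ X with hR
  have hLp : ∀ (i : ℕ) (a : A), (L ^ i) a = X ^ i * a := fun i a => by
    rw [hL, LinearMap.pow_mulLeft]; rfl
  have hRp : ∀ (i : ℕ) (a : A), (R ^ i) a = a * X ^ i := fun i a => by
    rw [hR, LinearMap.pow_mulRight]; rfl
  have hL0 : L ^ k = 0 := by ext a; simp [hLp, hk]
  have hR0 : R ^ k = 0 := by ext a; simp [hRp, hk]
  have hc : Commute L R := by ext a; simp [hL, hR, mul_assoc]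
  have hD : IsNilpotent (L - R) := hc.isNilpotent_sub ⟨k, hL0⟩ ⟨k, hR0⟩
  have eL : ∀ a : A, exp L a = exp X * a := fun a => by
    rw [exp_eq_sum hL0, exp_eq_sum hk]; simp [hLp, Finset.sum_mul]
  have eR : ∀ a : A, exp R a = a * exp X := fun a => by
    rw [exp_eq_sum hR0, exp_eq_sum hk]; simp [hRp, Finset.mul_sum]
  have hD1 : ∀ a : A, (L - R) a = X * a - a * X := fun a => by simp [hL, hR]
  have e3 : exp (L - R) y = y + z + (2 : ℚ)⁻¹ • t := by
    have h0 : ((L - R) ^ 3) • y = 0 := by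
      simp only [Module.End.smul_def, _root_.pow_succ, pow_zero, one_mul, Module.End.mul_apply, hD1,
        h1, h2, h3]
    have := exp_smul_eq_sum h0 hD
    simp only [Module.End.smul_def] at this
    rw [this]
    simp [Finset.sum_range_succ, _root_.pow_succ, hD1, h1, h2, Nat.factorial]
  have e : exp L = exp R * exp (L - R) := by
    rw [← exp_add_of_commute ((hc.symm).sub_right (Commute.refl R)) ⟨k, hR0⟩ hD]
    congr 1; abel
  rw [← eL, e, Module.End.mul_apply, e3, eR]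

theorem mul_exp_neg {X y z t : A} (hX : IsNilpotent X) (h1 : X * y - y * X = z)
    (h2 : X * z - z * X = t) (h3 : X * t - t * X = 0) :
    y * exp (-X) = exp (-X) * (y + z + (2 : ℚ)⁻¹ • t) := by
  have := exp_conj hX h1 h2 h3
  calc y * exp (-X) = (exp (-X) * exp X) * y * exp (-X) := by
        rw [exp_neg_mul_exp_self hX, one_mul]
    _ = exp (-X) * ((y + z + (2 : ℚ)⁻¹ • t) * (exp X * exp (-X))) := by
        rw [mul_assoc (exp (-X)), this]; simp only [mul_assoc]
    _ = _ := by rw [exp_mul_exp_neg_self hX, mul_one]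

theorem mul_exp {X y z t : A} (hX : IsNilpotent X) (h1 : y * X - X * y = z)
    (h2 : z * X - X * z = t) (h3 : t * X - X * t = 0) :
    y * exp X = exp X * (y + z + (2 : ℚ)⁻¹ • t) := by
  have := mul_exp_neg (X := -X) (y := y) (z := z) (t := t) hX.neg
    (by rw [← h1]; noncomm_ring) (by rw [← h2]; noncomm_ring) (by rw [← h3]; noncomm_ring)
  rwa [neg_neg] at this

theorem comm_exp {X y : A} (hX : IsNilpotent X) (h : y * X = X * y) :
    y * exp X = exp X * y := by
  simpa using mul_exp (y := y) (z := 0) (t := 0) hX (by rw [h, sub_self]) (by simp) (by simp)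

/-- The Weil element. -/
def weil (N M : A) : A := exp (-M) * exp N * exp (-M)

theorem comm_weil {N M y : A} (hN : IsNilpotent N) (hM : IsNilpotent M) (h1 : y * N = N * y)
    (h2 : y * M = M * y) : y * weil N M = weil N M * y := by
  have a := comm_exp hN h1
  have b := comm_exp (y := y) hM.neg (by simp [h2])
  simp only [weil, ← mul_assoc, b]
  rw [mul_assoc _ y, a, ← mul_assoc, mul_assoc _ y, b, ← mul_assoc]

theorem mul_weil {N M y y1 y2 y3 : A} (h1 : y * exp (-M) = exp (-M) * y1)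
    (h2 : y1 * exp N = exp N * y2) (h3 : y2 * exp (-M) = exp (-M) * y3) :
    y * weil N M = weil N M * y3 := by
  simp only [weil, ← mul_assoc, h1]
  rw [mul_assoc _ y1, h2, ← mul_assoc, mul_assoc _ y2, h3, ← mul_assoc]

/-- A highest weight vector `d` of weight one is carried to `[M, d]`. -/
theorem hw_weil {N M d e : A} (hN : IsNilpotent N) (hM : IsNilpotent M) (h0 : N * d = d * N)
    (h1 : M * d - d * M = e) (h2 : M * e = e * M) (h3 : N * e - e * N = d) :
    d * weil N M = weil N M * e := by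
  refine mul_weil (y1 := d + e) (y2 := e) ?_ ?_ (comm_exp hM.neg (by simp [h2]))
  · simpa using mul_exp_neg (t := 0) hM h1 (by rw [h2, sub_self]) (by simp)
  · have := mul_exp (y := d + e) (z := -d) (t := 0) hN
      (by rw [add_mul, mul_add, ← h0, ← h3]; abel) (by simp [h0]) (by simp)
    rw [this]; congr 1; simp

/-- And `[M, d]` is carried to `-d`. -/
theorem lw_weil {N M d e : A} (hN : IsNilpotent N) (hM : IsNilpotent M) (h0 : N * d = d * N)
    (h1 : M * d - d * M = e) (h2 : M * e = e * M) (h3 : N * e - e * N = d) :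
    e * weil N M = weil N M * (-d) := by
  have a := comm_exp (y := e) hM.neg (by simp [h2])
  refine mul_weil (y1 := e) (y2 := e - d) a ?_ ?_
  · have := mul_exp (y := e) (z := -d) (t := 0) hN (by rw [← h3]; abel) (by simp [h0]) (by simp)
    rw [this]; congr 1; simp [sub_eq_add_neg]
  · have := mul_exp_neg (t := 0) hM h1 (by rw [h2, sub_self]) (by simp)
    rw [sub_mul, a, this, ← mul_sub]; congr 1; simp

theorem half_two (x : A) : (2 : ℚ)⁻¹ • (2 * x) = x := by
  rw [two_mul, ← two_smul ℚ x, smul_smul]; simp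

variable {N M h : A} (hN : IsNilpotent N) (hM : IsNilpotent M) (c1 : N * M - M * N = h)
  (c2 : h * N - N * h = 2 * N) (c3 : h * M - M * h = -(2 * M))
include hN hM c1 c2 c3

theorem N_exp : N * exp (-M) = exp (-M) * (N - h - M) := by
  have := mul_exp_neg (y := N) (z := -h) (t := -(2 * M)) hM (by rw [← c1]; abel)
    (by rw [← c3]; noncomm_ring) (by noncomm_ring)
  rw [this, smul_neg, half_two]; congr 1; abel

theorem h_exp : h * exp (-M) = exp (-M) * (h + 2 * M) := by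
  have := mul_exp_neg (y := h) (z := 2 * M) (t := 0) hM (by rw [← neg_sub, c3, neg_neg])
    (by noncomm_ring) (by simp)
  simpa using this

theorem M_exp : M * exp N = exp N * (M - h - N) := by
  have := mul_exp (y := M) (z := -h) (t := -(2 * N)) hN (by rw [← c1]; abel)
    (by rw [← c2]; noncomm_ring) (by noncomm_ring)
  rw [this, smul_neg, half_two]; congr 1; abel

theorem h_exp' : h * exp N = exp N * (h + 2 * N) := by
  have := mul_exp (y := h) (z := 2 * N) (t := 0) hN c2 (by noncomm_ring) (by simp)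
  simpa using this

theorem N_weil : N * weil N M = weil N M * (-M) := by
  refine mul_weil (N_exp hN hM c1 c2 c3) (y2 := -M) ?_ (comm_exp hM.neg rfl)
  rw [sub_mul, sub_mul, comm_exp hN rfl, h_exp' hN hM c1 c2 c3, M_exp hN hM c1 c2 c3]
  noncomm_ring

theorem M_weil : M * weil N M = weil N M * (-N) := by
  refine mul_weil (y1 := M) (comm_exp hM.neg (by simp)) (M_exp hN hM c1 c2 c3) ?_
  rw [sub_mul, sub_mul, comm_exp (y := M) hM.neg (by simp), h_exp hN hM c1 c2 c3,
    N_exp hN hM c1 c2 c3]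
  noncomm_ring

theorem h_weil : h * weil N M = weil N M * (-h) := by
  rw [← c1, sub_mul, mul_assoc, M_weil hN hM c1 c2 c3, ← mul_assoc, N_weil hN hM c1 c2 c3,
    mul_assoc M, N_weil hN hM c1 c2 c3, ← mul_assoc, M_weil hN hM c1 c2 c3]
  noncomm_ring

end HL2

end Weil

noncomputable section Lef

set_option linter.unusedSectionVars false

/-! A graded space with a Lefschetz operator carries an `sl₂`-triple. -/

open Module


namespace HL2

variable {K V : Type*} [Field K] [CharZero K] [AddCommGroup V] [Module K V]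

/-- `h` is diagonalisable with integer eigenvalues and `N` is a Lefschetz operator for the grading
by the eigenspaces of `h`. -/
structure Lef (h N : End K V) : Prop where
  span : ⨆ k : ℤ, h.eigenspace (k : K) = ⊤
  comm : h * N - N * h = 2 * N
  inj : ∀ (a : ℕ) (x : V), h x = -(a : K) • x → (N ^ a) x = 0 → x = 0
  surj : ∀ (a : ℕ) (x : V), h x = (a : K) • x → ∃ y, h y = -(a : K) • y ∧ (N ^ a) y = x

theorem deg_apply {h f : End K V} {r c : K} (hf : h * f - f * h = r • f) {x : V}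
    (hx : h x = c • x) : h (f x) = (c + r) • f x := by
  have := LinearMap.congr_fun hf x
  simp only [LinearMap.sub_apply, End.mul_apply, hx, map_smul, LinearMap.smul_apply] at this
  rw [add_smul, ← this]; abel

theorem deg_pow {h f : End K V} {r c : K} (hf : h * f - f * h = r • f) {x : V}
    (hx : h x = c • x) (i : ℕ) : h ((f ^ i) x) = (c + i * r) • (f ^ i) x := by
  induction i with
  | zero => simpa using hx
  | succ i ih =>
    rw [pow_succ', End.mul_apply, deg_apply hf ih]; congr 1; push_cast; ring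

theorem two_mul_eq (f : End K V) : 2 * f = (2 : K) • f := by rw [two_mul, two_smul]

theorem pow_comm_apply {f g : End K V} (hc : f * g = g * f) (i : ℕ) (x : V) :
    f ((g ^ i) x) = (g ^ i) (f x) :=
  LinearMap.congr_fun ((show Commute f g from hc).pow_right i).eq x

theorem comm_apply {f g : End K V} (hc : f * g = g * f) (x : V) : f (g x) = g (f x) :=
  LinearMap.congr_fun hc x

theorem exists_comm (h N R : End K V) (r : K) (hN : h * N - N * h = (2 : K) • N)
    (hR : h * R - R * h = r • R) (k : ℕ) : ∃ S : End K V,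
    N * S - S * N = N ^ k * R - R * N ^ k ∧ h * S - S * h = (r + 2 * k - 2) • S := by
  have hp : ∀ k : ℕ, h * N ^ k - N ^ k * h = (2 * k : K) • N ^ k := fun k => by
    induction k with
    | zero => simp
    | succ k ih =>
      have : h * N ^ (k + 1) - N ^ (k + 1) * h =
          (h * N ^ k - N ^ k * h) * N + N ^ k * (h * N - N * h) := by
        rw [pow_succ]; noncomm_ring
      rw [this, ih, hN, pow_succ, smul_mul_assoc, mul_smul_comm, ← add_smul]
      congr 1; push_cast; ring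
  induction k with
  | zero => exact ⟨0, by simp, by simp⟩
  | succ k ih =>
    obtain ⟨S, h1, h2⟩ := ih
    refine ⟨N * S + R * N ^ k, ?_, ?_⟩
    · have : N * (N * S + R * N ^ k) - (N * S + R * N ^ k) * N =
          N * (N * S - S * N) + N * R * N ^ k - R * (N ^ k * N) := by noncomm_ring
      rw [this, h1, ← pow_succ, pow_succ']; noncomm_ring
    · have : h * (N * S + R * N ^ k) - (N * S + R * N ^ k) * h =
          ((h * N - N * h) * S + N * (h * S - S * h)) +
            ((h * R - R * h) * N ^ k + R * (h * N ^ k - N ^ k * h)) := by noncomm_ring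
      rw [this, hN, h2, hR, hp, smul_mul_assoc, smul_mul_assoc, mul_smul_comm, mul_smul_comm,
        ← add_smul, ← add_smul, smul_add]
      congr 2 <;> (push_cast; ring)

namespace Lef

variable {h N : End K V} (L : Lef h N)
include L

theorem comm' : h * N - N * h = (2 : K) • N := by rw [L.comm, two_mul_eq]

theorem deg {c : K} {x : V} (hx : h x = c • x) (i : ℕ) :
    h ((N ^ i) x) = (c + i * 2) • (N ^ i) x := deg_pow L.comm' hx i

theorem eq_top {Q : Submodule K V} (hQ : ∀ (k : ℤ) (x : V), h x = (k : K) • x → x ∈ Q) :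
    Q = ⊤ := by
  rw [eq_top_iff, ← L.span]
  exact iSup_le fun k x hx => hQ k x (End.mem_eigenspace_iff.1 hx)

theorem ext {W : Type*} [AddCommGroup W] [Module K W] {f g : V →ₗ[K] W}
    (hfg : ∀ (k : ℤ) (x : V), h x = (k : K) • x → f x = g x) : f = g := by
  rw [← LinearMap.eqLocus_eq_top]
  exact L.eq_top hfg

/-- An inverse of `N ^ a` on the extreme weight spaces. -/
theorem exists_inv (a : ℕ) : ∃ R : End K V, h * R - R * h = (-(2 * a) : K) • R ∧
    ∀ (k : ℤ) (x : V), h x = (k : K) • x → (N ^ a * R - R * N ^ a) x =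
      (if k = a then x else 0) - (if k = -a then x else 0) := by
  set P := h.eigenspace (a : K)
  set P' := h.eigenspace (-(a : K))
  set Q := ⨆ μ, ⨆ _ : μ ≠ (a : K), h.eigenspace μ
  have hc : IsCompl P Q := by
    refine ⟨h.eigenspaces_iSupIndep (a : K), codisjoint_iff.2 (L.eq_top fun k x hx => ?_)⟩
    by_cases hk : (k : K) = a
    · exact Submodule.mem_sup_left (End.mem_eigenspace_iff.2 (hk ▸ hx))
    · exact Submodule.mem_sup_right (Submodule.mem_iSup_of_mem (k : K)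
        (Submodule.mem_iSup_of_mem hk (End.mem_eigenspace_iff.2 hx)))
  have hm : ∀ x ∈ P', (N ^ a) x ∈ P := fun x hx => by
    have := L.deg (End.mem_eigenspace_iff.1 hx) a
    rw [End.mem_eigenspace_iff, this]; congr 1; ring
  have hb : Function.Bijective ((N ^ a).restrict hm) := by
    refine ⟨(injective_iff_map_eq_zero _).2 fun x hx => Subtype.ext
      (L.inj a x (End.mem_eigenspace_iff.1 x.2) (congrArg Subtype.val hx)), fun x => ?_⟩
    obtain ⟨y, hy, e⟩ := L.surj a x (End.mem_eigenspace_iff.1 x.2)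
    exact ⟨⟨y, End.mem_eigenspace_iff.2 hy⟩, Subtype.ext e⟩
  set e := LinearEquiv.ofBijective _ hb
  set R : End K V := P'.subtype ∘ₗ e.symm.toLinearMap ∘ₗ P.projectionOnto Q hc with hR
  have r0 : ∀ (c : K) (x : V), h x = c • x → c ≠ a → R x = 0 := fun c x hx hk => by
    have : P.projectionOnto Q hc x = 0 := Submodule.projectionOnto_apply_of_mem_right hc
      (Submodule.mem_iSup_of_mem c (Submodule.mem_iSup_of_mem hk (End.mem_eigenspace_iff.2 hx)))
    simp [hR, this]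
  have r1 : ∀ x, h (R x) = -(a : K) • R x := fun x => End.mem_eigenspace_iff.1 (e.symm _).2
  have r2 : ∀ x, h x = (a : K) • x → (N ^ a) (R x) = x := fun x hx => by
    have h1 := Submodule.projectionOnto_apply_of_mem_left hc (End.mem_eigenspace_iff.2 hx)
    have h2 := congrArg Subtype.val (e.apply_symm_apply ⟨x, End.mem_eigenspace_iff.2 hx⟩)
    simp only [hR, LinearMap.comp_apply, h1]
    exact h2
  have r3 : ∀ x, h x = -(a : K) • x → R ((N ^ a) x) = x := fun x hx => by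
    have h1 := End.mem_eigenspace_iff.1 (hm x (End.mem_eigenspace_iff.2 hx))
    have := L.inj a (R ((N ^ a) x) - x) (by rw [map_sub, r1, hx, smul_sub])
      (by rw [map_sub, r2 _ h1, sub_self])
    exact sub_eq_zero.1 this
  refine ⟨R, L.ext fun k x hx => ?_, fun k x hx => ?_⟩
  · simp only [LinearMap.sub_apply, End.mul_apply, r1, hx, map_smul, LinearMap.smul_apply]
    by_cases hk : (k : K) = a
    · rw [hk, ← sub_smul]; congr 1; ring
    · simp [r0 _ x hx hk]
  · simp only [LinearMap.sub_apply, End.mul_apply]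
    congr 1
    · split_ifs with hk
      · exact r2 x (by simpa [hk] using hx)
      · rw [r0 _ x hx (by exact_mod_cast hk), map_zero]
    · split_ifs with hk
      · exact r3 x (by simpa [hk] using hx)
      · refine r0 _ _ (L.deg hx a) fun e => hk ?_
        have : ((k + a * 2 : ℤ) : K) = ((a : ℤ) : K) := by push_cast; exact e
        have := Int.cast_injective this
        omega

variable [FiniteDimensional K V]

omit L in
theorem bound (h : End K V) : ∃ n : ℕ, ∀ (k : ℤ) (x : V), n ≤ k.natAbs → h x = (k : K) • x →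
    x = 0 := by
  have h1 : Set.Finite {k : ℤ | h.HasEigenvalue (k : K)} :=
    (End.finite_hasEigenvalue h).preimage (f := fun k : ℤ => (k : K))
      Int.cast_injective.injOn
  obtain ⟨n, hn⟩ := (h1.image Int.natAbs).bddAbove
  refine ⟨n + 1, fun k x hk hx => by_contra fun h0 => ?_⟩
  have := hn ⟨k, End.hasEigenvalue_of_hasEigenvector ⟨End.mem_eigenspace_iff.2 hx, h0⟩, rfl⟩
  omega

theorem nilp {f : End K V} {r : ℤ} (hr : r ≠ 0) (hf : h * f - f * h = (r : K) • f) :
    IsNilpotent f := by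
  obtain ⟨n, hn⟩ := bound h
  refine ⟨2 * n, L.ext fun k x hx => ?_⟩
  by_cases hk : n ≤ k.natAbs
  · simp [hn k x hk hx]
  · refine hn (k + (2 * n : ℕ) * r) _ ?_ (by rw [deg_pow hf hx]; congr 1; push_cast; ring)
    have : 2 * n ≤ (((2 * n : ℕ) : ℤ) * r).natAbs := by
      rw [Int.natAbs_mul, Int.natAbs_natCast]
      exact Nat.le_mul_of_pos_right _ (Int.natAbs_pos.2 hr)
    omega

/-- The lowering operator. -/
theorem exists_M : ∃ M : End K V, N * M - M * N = h ∧ h * M - M * h = -(2 * M) := by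
  obtain ⟨n, hn⟩ := bound h
  choose R hR1 hR2 using L.exists_inv
  choose S hS1 hS2 using fun a => exists_comm h N (R a) _ L.comm' (hR1 a) a
  refine ⟨∑ a ∈ Finset.range n, (a : K) • S a, L.ext fun k x hx => ?_, ?_⟩
  · rw [Finset.mul_sum, Finset.sum_mul, ← Finset.sum_sub_distrib]
    simp only [mul_smul_comm, smul_mul_assoc, ← smul_sub, hS1, LinearMap.sum_apply,
      LinearMap.smul_apply, hR2 _ k x hx]
    by_cases hk : n ≤ k.natAbs
    · simp [hn k x hk hx]
    rw [Finset.sum_eq_single k.natAbs, hx]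
    · rcases lt_trichotomy k 0 with h0 | h0 | h0
      · rw [if_neg (by omega), if_pos (by omega), zero_sub, smul_neg, ← neg_smul]
        congr 1
        have : k = -(k.natAbs : ℤ) := by omega
        conv_rhs => rw [this]
        rw [Int.cast_neg, Int.cast_natCast]
      · simp [h0]
      · rw [if_pos (by omega), if_neg (by omega), sub_zero]
        congr 1
        have : k = (k.natAbs : ℤ) := by omega
        conv_rhs => rw [this]
        exact (Int.cast_natCast _).symm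
    · intro b _ hb
      rw [if_neg (by omega), if_neg (by omega), sub_zero, smul_zero]
    · intro hb
      exact absurd (Finset.mem_range.2 (by omega)) hb
  · rw [Finset.mul_sum, Finset.sum_mul, ← Finset.sum_sub_distrib, two_mul_eq, Finset.smul_sum,
      ← Finset.sum_neg_distrib]
    refine Finset.sum_congr rfl fun a _ => ?_
    rw [mul_smul_comm, smul_mul_assoc, ← smul_sub, hS2, smul_comm, ← neg_smul]
    congr 1; ring

/-- Induction along the Lefschetz decomposition, inside a subspace `U`. -/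
theorem ind {U Q : Submodule K V} (hU1 : ∀ x ∈ U, N x ∈ U)
    (hU2 : ∀ (a : ℕ) (y : V), h y = -(a : K) • y → (N ^ a) y ∈ U → y ∈ U)
    (hQ1 : ∀ x ∈ Q, N x ∈ Q)
    (hQ2 : ∀ (a : ℕ), ∀ p ∈ U, h p = -(a : K) • p → (N ^ (a + 1)) p = 0 → p ∈ Q)
    (k : ℤ) (x : V) (hxU : x ∈ U) (hx : h x = (k : K) • x) : x ∈ Q := by
  obtain ⟨n, hn⟩ := bound h
  have pw : ∀ {T : Submodule K V}, (∀ x ∈ T, N x ∈ T) → ∀ (i : ℕ), ∀ x ∈ T, (N ^ i) x ∈ T :=
    fun hT i x hx => by
      induction i with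
      | zero => exact hx
      | succ i ih => rw [pow_succ']; exact hT _ ih
  have neg : ∀ (m a : ℕ), n ≤ a + m → ∀ x ∈ U, h x = -(a : K) • x → x ∈ Q := fun m => by
    induction m with
    | zero =>
      intro a ha x _ hx
      rw [hn (-a) x (by omega) (by simpa using hx)]; exact Q.zero_mem
    | succ m ih =>
      intro a ha x hxU hx
      obtain ⟨y, hy, e⟩ := L.surj (a + 2) ((N ^ (a + 1)) x)
        (by rw [L.deg hx]; congr 1; push_cast; ring)
      have yU : y ∈ U := hU2 _ y hy (e ▸ pw hU1 _ x hxU)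
      have h1 : h (N y) = -(a : K) • N y := by
        rw [deg_apply L.comm' hy]; congr 1; push_cast; ring
      have h2 : x - N y ∈ Q := hQ2 a _ (U.sub_mem hxU (hU1 y yU))
        (by rw [map_sub, hx, h1, smul_sub])
        (by rw [map_sub, ← End.mul_apply, ← pow_succ, e, sub_self])
      simpa using Q.add_mem h2 (hQ1 y (ih (a + 2) (by omega) y yU hy))
  rcases le_total k 0 with h0 | h0
  · obtain ⟨a, rfl⟩ := Int.exists_eq_neg_ofNat h0
    exact neg n a (by omega) x hxU (by simpa using hx)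
  · obtain ⟨a, rfl⟩ := Int.eq_ofNat_of_zero_le h0
    obtain ⟨y, hy, rfl⟩ := L.surj a x (by simpa using hx)
    exact pw hQ1 a y (neg n a (by omega) y (hU2 a y hy hxU) hy)

theorem ind_top {Q : Submodule K V} (hQ1 : ∀ x ∈ Q, N x ∈ Q)
    (hQ2 : ∀ (a : ℕ) (p : V), h p = -(a : K) • p → (N ^ (a + 1)) p = 0 → p ∈ Q) : Q = ⊤ :=
  L.eq_top fun k x hx => L.ind (U := ⊤) (fun _ _ => trivial) (fun _ _ _ _ => trivial) hQ1
    (fun a p _ => hQ2 a p) k x trivial hx

/-- An operator of negative degree that commutes with `N` vanishes. -/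
theorem eq_zero {f : End K V} (r : ℕ) (hf : h * f - f * h = -((r + 1 : ℕ) : K) • f)
    (hc : N * f = f * N) : f = 0 := by
  rw [← LinearMap.ker_eq_top]
  refine L.ind_top (fun x hx => ?_) fun a p hp h0 => ?_
  · rw [LinearMap.mem_ker] at hx ⊢
    rw [← comm_apply hc, hx, map_zero]
  · refine L.inj (r + (a + 1)) (f p) (by rw [deg_apply hf hp]; congr 1; push_cast; ring) ?_
    rw [← pow_comm_apply hc.symm, pow_add, End.mul_apply, h0, map_zero, map_zero]

end Lef

end HL2

end Lef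

noncomputable section Tri

set_option linter.unusedSectionVars false

/-! The Weil element of the `sl₂`-triple of a Lefschetz operator. -/

open Module


namespace HL2

variable {K V : Type*} [Field K] [CharZero K] [AddCommGroup V] [Module K V]

/-- A Lefschetz operator with its lowering operator. -/
structure Tri (h N M : End K V) : Prop extends Lef h N where
  c1 : N * M - M * N = h
  c3 : h * M - M * h = -(2 * M)

namespace Tri

variable [FiniteDimensional K V] {h N M : End K V} (T : Tri h N M)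
include T

theorem c3' : h * M - M * h = (-2 : K) • M := by rw [T.c3, two_mul_eq, neg_smul]

theorem nilN : IsNilpotent N := T.toLef.nilp (r := 2) (by norm_num) (by simpa using T.toLef.comm')

theorem nilM : IsNilpotent M := T.toLef.nilp (r := -2) (by norm_num) (by simpa using T.c3')

theorem M_N (x : V) : M (N x) = N (M x) - h x := by
  have := LinearMap.congr_fun T.c1 x
  simp only [LinearMap.sub_apply, End.mul_apply] at this
  rw [← this]; abel

theorem M_pow {c : K} {x : V} (hx : h x = c • x) (k : ℕ) :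
    M ((N ^ (k + 1)) x) = (N ^ (k + 1)) (M x) - ((k + 1) * (c + k)) • (N ^ k) x := by
  induction k with
  | zero => simp [T.M_N, hx]
  | succ k ih =>
    rw [pow_succ' N (k + 1), End.mul_apply, T.M_N, ih, T.toLef.deg hx, map_sub, map_smul,
      End.mul_apply, ← End.mul_apply N (N ^ k), ← pow_succ', sub_sub, ← add_smul]
    congr 2; push_cast; ring

theorem prim {a : ℕ} {p : V} (hp : h p = -(a : K) • p) (h0 : (N ^ (a + 1)) p = 0) : M p = 0 := by
  refine T.inj (a + 2) _ (by rw [deg_apply T.c3' hp]; congr 1; push_cast; ring) ?_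
  have := T.M_pow hp (a + 1)
  rw [h0, smul_zero, sub_zero, pow_succ' N (a + 1), End.mul_apply, h0, map_zero, map_zero] at this
  rw [pow_succ' N (a + 1)]
  exact this.symm

/-- What commutes with `h` and `N` commutes with `M`. -/
theorem comm_M {f : End K V} (h1 : h * f = f * h) (h2 : N * f = f * N) : M * f = f * M := by
  rw [← sub_eq_zero]
  refine T.toLef.eq_zero 1 ?_ ?_
  · have : h * (M * f - f * M) - (M * f - f * M) * h =
        (h * M - M * h) * f - f * (h * M - M * h) + M * (h * f - f * h) - (h * f - f * h) * M := by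
      noncomm_ring
    rw [this, h1, T.c3', sub_self, mul_zero, zero_mul, add_zero, sub_zero, smul_mul_assoc,
      mul_smul_comm, ← smul_sub]
    congr 1
  · have : N * (M * f - f * M) - (M * f - f * M) * N =
        (N * M - M * N) * f - f * (N * M - M * N) + M * (N * f - f * N) - (N * f - f * N) * M := by
      noncomm_ring
    rw [← sub_eq_zero, this, T.c1, h1, h2]; simp

theorem N_br {d : End K V} (h1 : h * d - d * h = d) (h2 : N * d = d * N) :
    N * (M * d - d * M) - (M * d - d * M) * N = d := by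
  have : N * (M * d - d * M) - (M * d - d * M) * N =
      (N * M - M * N) * d - d * (N * M - M * N) + M * (N * d - d * N) - (N * d - d * N) * M := by
    noncomm_ring
  rw [this, T.c1, h1, h2]; simp

theorem h_br {d : End K V} {r : K} (h1 : h * d - d * h = r • d) :
    h * (M * d - d * M) - (M * d - d * M) * h = (r - 2) • (M * d - d * M) := by
  have : h * (M * d - d * M) - (M * d - d * M) * h =
      (h * M - M * h) * d - d * (h * M - M * h) + (M * (h * d - d * h) - (h * d - d * h) * M) := by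
    noncomm_ring
  rw [this, h1, T.c3', smul_mul_assoc, mul_smul_comm, smul_mul_assoc, mul_smul_comm, ← smul_sub,
    ← smul_sub, ← add_smul]
  congr 1; ring

theorem M_br {d : End K V} (h1 : h * d - d * h = d) (h2 : N * d = d * N) :
    M * (M * d - d * M) = (M * d - d * M) * M := by
  set e := M * d - d * M with he
  have e1 : h * e - e * h = ((1 : K) - 2) • e := T.h_br (by rw [h1, one_smul])
  rw [← sub_eq_zero]
  refine T.toLef.eq_zero 2 (by rw [T.h_br e1]; congr 1; norm_num) ?_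
  have : N * (M * e - e * M) - (M * e - e * M) * N =
      (N * M - M * N) * e - e * (N * M - M * N) +
        (M * (N * e - e * N) - (N * e - e * N) * M) := by noncomm_ring
  rw [← sub_eq_zero, this, T.c1, e1, T.N_br h1 h2, ← he]
  norm_num

/-- `M` is skew for a pairing for which `h` and `N` are skew. -/
theorem skew {ψ : V →ₗ[K] V →ₗ[K] K} (h1 : ∀ x y, ψ (h x) y = -ψ x (h y))
    (h2 : ∀ x y, ψ (N x) y = -ψ x (N y)) (x y : V) : ψ (M x) y = -ψ x (M y) := by
  set β : V →ₗ[K] V →ₗ[K] K := ψ ∘ₗ M + ψ.compl₂ M with hβ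
  have b0 : ∀ x y, β x y = ψ (M x) y + ψ x (M y) := fun x y => rfl
  have b1 : ∀ x y, β (N x) y = -β x (N y) := fun x y => by
    rw [b0, b0, T.M_N, T.M_N, map_sub, map_sub, LinearMap.sub_apply, h1, h2, h2]; ring
  have b2 : ∀ (i : ℕ) x y, β ((N ^ i) x) y = (-1) ^ i * β x ((N ^ i) y) := fun i => by
    induction i with
    | zero => simp
    | succ i ih =>
      intro x y
      rw [pow_succ' N, End.mul_apply, b1, ih, ← End.mul_apply (N ^ i), ← pow_succ, ← pow_succ']
      ring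
  have b3 : ∀ x y, β (h x) y + β x (h y) = 2 * β x y := fun x y => by
    have e : ∀ x, M (h x) = h (M x) + (2 : K) • M x := fun x => by
      have := LinearMap.congr_fun T.c3' x
      simp only [LinearMap.sub_apply, End.mul_apply, LinearMap.smul_apply, neg_smul,
        LinearMap.neg_apply] at this
      rw [← sub_eq_iff_eq_add', ← neg_sub, this, neg_neg]
    simp only [b0, e, map_add, map_smul, LinearMap.add_apply, LinearMap.smul_apply, h1,
      smul_eq_mul]
    ring
  have : β = 0 := by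
    rw [← LinearMap.ker_eq_top]
    refine T.toLef.ind_top (fun x hx => ?_) fun a p hp h0 => ?_
    · rw [LinearMap.mem_ker] at hx ⊢
      ext y
      simp [b1, hx]
    · refine T.toLef.ext fun k y hy => ?_
      rw [LinearMap.zero_apply]
      by_cases hk : (k : K) = (a + 2 : ℕ)
      · obtain ⟨z, -, rfl⟩ := T.surj (a + 2) y (hk ▸ hy)
        have := b2 (a + 2) p z
        rw [pow_succ' N (a + 1), End.mul_apply, h0, map_zero, map_zero, LinearMap.zero_apply,
          ← pow_succ'] at this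
        exact (mul_eq_zero.1 this.symm).resolve_left (pow_ne_zero _ (by norm_num))
      · have := b3 p y
        rw [hp, hy, map_smul, map_smul, LinearMap.smul_apply, smul_eq_mul, smul_eq_mul] at this
        have h3 : ((k : K) - (a + 2 : ℕ)) * β p y = 0 := by push_cast; linear_combination this
        exact (mul_eq_zero.1 h3).resolve_left (sub_ne_zero.2 hk)
  have h4 := b0 x y
  rw [this] at h4
  exact eq_neg_of_add_eq_zero_left h4.symm

variable [Module ℚ V]

theorem N_w : N * weil N M = weil N M * (-M) := N_weil T.nilN T.nilM T.c1 T.comm T.c3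

theorem M_w : M * weil N M = weil N M * (-N) := M_weil T.nilN T.nilM T.c1 T.comm T.c3

theorem h_w : h * weil N M = weil N M * (-h) := h_weil T.nilN T.nilM T.c1 T.comm T.c3

theorem comm_w {f : End K V} (h1 : h * f = f * h) (h2 : N * f = f * N) :
    f * weil N M = weil N M * f :=
  comm_weil T.nilN T.nilM h2.symm (T.comm_M h1 h2).symm

theorem d_w {d : End K V} (h1 : h * d - d * h = d) (h2 : N * d = d * N) :
    d * weil N M = weil N M * (M * d - d * M) :=
  hw_weil T.nilN T.nilM h2 rfl (T.M_br h1 h2) (T.N_br h1 h2)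

theorem e_w {d : End K V} (h1 : h * d - d * h = d) (h2 : N * d = d * N) :
    (M * d - d * M) * weil N M = weil N M * (-d) :=
  lw_weil T.nilN T.nilM h2 rfl (T.M_br h1 h2) (T.N_br h1 h2)

/-- The Weil element on a primitive vector. -/
theorem w_prim {a : ℕ} {p : V} (hp : h p = -(a : K) • p) (h0 : (N ^ (a + 1)) p = 0) :
    weil N M p = (a.factorial : K)⁻¹ • (N ^ a) p := by
  set F : ℕ → Submodule K V := fun s => ⨆ j : ℕ, h.eigenspace ((a : K) - (j + s : ℕ)) with hF
  have mem : ∀ (s j : ℕ) (x : V), h x = ((a : K) - (j + s : ℕ)) • x → x ∈ F s := fun s j x hx =>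
    Submodule.mem_iSup_of_mem j (End.mem_eigenspace_iff.2 hx)
  have f1 : F 1 ≤ F 0 := iSup_le fun j x hx => mem 0 (j + 1) x (End.mem_eigenspace_iff.1 hx)
  have f2 : ∀ x ∈ F 0, (-M) x ∈ F 1 := fun x hx => by
    refine (F 1).neg_mem ((iSup_le fun j y hy => ?_ : F 0 ≤ (F 1).comap M) hx)
    refine mem 1 (j + 1) _ ?_
    rw [deg_apply T.c3' (End.mem_eigenspace_iff.1 hy)]; congr 1; push_cast; ring
  have f3 : ∀ (i : ℕ), ∀ x ∈ F 0, ((-M) ^ (i + 1)) x ∈ F 1 := fun i x hx => by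
    induction i with
    | zero => simpa using f2 x hx
    | succ i ih => rw [pow_succ']; exact f2 _ (f1 ih)
  have f4 : ∀ x ∈ F 0, IsNilpotent.exp (-M) x - x ∈ F 1 := fun x hx => by
    obtain ⟨k, hk⟩ := T.nilM.neg
    rw [IsNilpotent.exp_eq_sum (k := k + 1) (by rw [pow_succ, hk, zero_mul]),
      Finset.sum_range_succ']
    simp only [Nat.factorial_zero, Nat.cast_one, inv_one, pow_zero, one_smul, LinearMap.add_apply,
      End.one_apply, add_sub_cancel_right, LinearMap.sum_apply, LinearMap.smul_apply]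
    exact Submodule.sum_mem _ fun i _ => (F 1).smul_of_tower_mem _ (f3 i x hx)
  have e1 : IsNilpotent.exp (-M) p = p := by
    have := IsNilpotent.exp_smul_eq_sum (a := -M) (m := p) (k := 1)
      (by simp [T.prim hp h0]) T.nilM.neg
    simpa using this
  have top : h ((a.factorial : K)⁻¹ • (N ^ a) p) = (a : K) • (a.factorial : K)⁻¹ • (N ^ a) p := by
    rw [map_smul, T.toLef.deg hp, smul_comm]; congr 1; ring
  have e2 : IsNilpotent.exp N p - (a.factorial : K)⁻¹ • (N ^ a) p ∈ F 1 := by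
    have := IsNilpotent.exp_smul_eq_sum (a := N) (m := p) (k := a + 1) h0 T.nilN
    simp only [End.smul_def] at this
    rw [this, Finset.sum_range_succ, ← Rat.cast_smul_eq_qsmul K (a.factorial : ℚ)⁻¹, Rat.cast_inv,
      Rat.cast_natCast, add_sub_cancel_right]
    refine Submodule.sum_mem _ fun i hi => (F 1).smul_of_tower_mem _ ?_
    obtain ⟨j, rfl⟩ := Nat.exists_eq_add_of_lt (Finset.mem_range.1 hi)
    refine mem 1 (2 * j + 1) _ ?_
    rw [T.toLef.deg hp]; congr 1; push_cast; ring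
  have e3 : IsNilpotent.exp N p ∈ F 0 := by
    have := (F 0).add_mem (f1 e2) (mem 0 0 _ (by rw [top]; simp))
    rwa [sub_add_cancel] at this
  have e4 : weil N M p - (a.factorial : K)⁻¹ • (N ^ a) p ∈ F 1 := by
    have := (F 1).add_mem (f4 _ e3) e2
    simpa [weil, e1] using this
  have e5 : h (weil N M p) = (a : K) • weil N M p := by
    rw [← End.mul_apply, T.h_w]; simp [hp]
  rw [← sub_eq_zero]
  refine (Submodule.disjoint_def.1 (h.eigenspaces_iSupIndep (a : K))) _
    (End.mem_eigenspace_iff.2 (by rw [map_sub, e5, top, smul_sub])) ?_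
  refine (iSup_le fun j => ?_ : F 1 ≤ _) e4
  refine le_iSup₂_of_le ((a : K) - (j + 1 : ℕ)) ?_ le_rfl
  rw [Ne, sub_eq_self]
  exact Nat.cast_ne_zero.2 (Nat.succ_ne_zero j)

end Tri

end HL2

end Tri

noncomputable section Hodge

set_option linter.unusedSectionVars false

/-! Harmonic elements for a differential on a polarised bigraded Lefschetz structure. -/

open Module


namespace HL2

variable {K V : Type*} [Field K] [LinearOrder K] [IsStrictOrderedRing K] [AddCommGroup V]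
  [Module K V] [FiniteDimensional K V]

theorem pos_of_orth {ι : Type*} (φ : V →ₗ[K] V →ₗ[K] K) (S : ι → Submodule K V)
    (hS : ⨆ i, S i = ⊤) (ho : ∀ i j, i ≠ j → ∀ x ∈ S i, ∀ y ∈ S j, φ x y = 0)
    (hp : ∀ i, ∀ x ∈ S i, x ≠ 0 → 0 < φ x x) (x : V) (hx : x ≠ 0) : 0 < φ x x := by
  classical
  obtain ⟨s, hs⟩ := Submodule.mem_iSup_iff_exists_finset.1 (hS ▸ Submodule.mem_top : x ∈ ⨆ i, S i)
  induction s using Finset.induction_on generalizing x with
  | empty => exact absurd (by simpa using hs) hx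
  | insert i s hi ih =>
    rw [Finset.iSup_insert] at hs
    obtain ⟨y, hy, z, hz, rfl⟩ := Submodule.mem_sup.1 hs
    have h1 : φ y z = 0 := (iSup₂_le fun j hj w hw => ho i j (fun e => hi (e ▸ hj)) y hy w hw :
      ⨆ j ∈ s, S j ≤ LinearMap.ker (φ y)) hz
    have h2 : φ z y = 0 := (iSup₂_le fun j hj w hw => ho j i (fun e => hi (e ▸ hj)) w hw y hy :
      ⨆ j ∈ s, S j ≤ LinearMap.ker (φ.flip y)) hz
    simp only [map_add, LinearMap.add_apply, h1, h2, add_zero, zero_add]
    by_cases y0 : y = 0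
    · subst y0
      simpa using ih z (by simpa using hx) hz
    by_cases z0 : z = 0
    · subst z0
      simpa using hp i y hy y0
    exact add_pos (hp i y hy y0) (ih z z0 hz)

/-- `M` is adjoint to `N` and `h` is self-adjoint for `φ`. -/
structure Adj (φ : V →ₗ[K] V →ₗ[K] K) (h N M : End K V) : Prop extends Tri h N M where
  aN : ∀ x y, φ (N x) y = φ x (M y)
  aM : ∀ x y, φ (M x) y = φ x (N y)
  ah : ∀ x y, φ (h x) y = φ x (h y)

namespace Adj

variable {φ : V →ₗ[K] V →ₗ[K] K} {h N M : End K V} (T : Adj φ h N M)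
include T

theorem step {a : ℕ} {q : V} (hq : h q = -(a : K) • q) (q0 : (N ^ (a + 1)) q = 0) (i : ℕ) (x : V) :
    φ (N x) ((N ^ (i + 1)) q) = ((i + 1) * (a - i)) * φ x ((N ^ i) q) := by
  rw [T.aN, T.toTri.M_pow hq, T.toTri.prim hq q0, map_zero, zero_sub, map_neg, map_smul,
    smul_eq_mul]
  ring

theorem orth {a b : ℕ} {p q : V} (hp : h p = -(a : K) • p) (p0 : (N ^ (a + 1)) p = 0)
    (hq : h q = -(b : K) • q) (q0 : (N ^ (b + 1)) q = 0) (i j : ℕ) (hne : ¬(a = b ∧ i = j)) :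
    φ ((N ^ i) p) ((N ^ j) q) = 0 := by
  induction i generalizing j with
  | zero =>
    cases j with
    | zero =>
      have := T.ah p q
      rw [hp, hq, map_smul, map_smul, LinearMap.smul_apply, smul_eq_mul, smul_eq_mul] at this
      exact (mul_eq_mul_right_iff.1 this).resolve_left fun e =>
        hne ⟨by exact_mod_cast neg_injective e, rfl⟩
    | succ j =>
      rw [pow_zero, End.one_apply, pow_succ', End.mul_apply, ← T.aM, T.toTri.prim hp p0, map_zero,
        LinearMap.zero_apply]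
  | succ i ih =>
    rw [pow_succ', End.mul_apply]
    cases j with
    | zero => rw [pow_zero, End.one_apply, T.aN, T.toTri.prim hq q0, map_zero]
    | succ j => rw [T.step hq q0, ih j (by omega), mul_zero]

theorem norm {a : ℕ} {p : V} (hp : h p = -(a : K) • p) (p0 : (N ^ (a + 1)) p = 0)
    (h0 : 0 < φ p p) (i : ℕ) (hi : (N ^ i) p ≠ 0) : 0 < φ ((N ^ i) p) ((N ^ i) p) := by
  have ia : i ≤ a := by
    by_contra hlt
    obtain ⟨k, rfl⟩ := Nat.exists_eq_add_of_lt (not_le.1 hlt)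
    exact hi (by rw [show a + k + 1 = k + (a + 1) by ring, pow_add, End.mul_apply, p0, map_zero])
  clear hi
  induction i with
  | zero => simpa using h0
  | succ i ih =>
    have := T.step hp p0 i ((N ^ i) p)
    rw [← End.mul_apply, ← pow_succ'] at this
    rw [this]
    have h1 : (i : K) < a := by exact_mod_cast ia
    exact mul_pos (mul_pos (by positivity) (sub_pos.2 h1)) (ih (by omega))

end Adj

/-- Hodge decomposition for a positive form. -/
theorem hodge {φ : V →ₗ[K] V →ₗ[K] K} (hφ : ∀ x, x ≠ 0 → 0 < φ x x) {d e : End K V} {s : K}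
    (hs : s ≠ 0) (dd : d * d = 0) (h1 : ∀ x y, φ (d x) y = s * φ x (e y))
    (h2 : ∀ x y, φ (e x) y = s * φ x (d y)) :
    (∀ x, (d * e + e * d) x = 0 → d x = 0) ∧ (∀ y, (d * e + e * d) (d y) = 0 → d y = 0) ∧
    ∀ U : Submodule K V, (∀ x ∈ U, (d * e + e * d) x ∈ U) → ∀ z ∈ U, d z = 0 →
      ∃ y ∈ U, (d * e + e * d) (z - d (e y)) = 0 ∧ z - d (e y) ∈ U := by
  set D := d * e + e * d with hD
  have z0 : ∀ x, φ x x = 0 → x = 0 := fun x hx => by_contra fun h => (hφ x h).ne' hx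
  have nn : ∀ x, 0 ≤ φ x x := fun x => by
    by_cases h : x = 0
    · simp [h]
    · exact (hφ x h).le
  have Da : ∀ x, D x = d (e x) + e (d x) := fun x => rfl
  have d2 : ∀ x, d (d x) = 0 := fun x => LinearMap.congr_fun dd x
  have k : ∀ x, D x = 0 → d x = 0 ∧ e x = 0 := fun x hx => by
    have h3 : s * (φ (e x) (e x) + φ (d x) (d x)) = 0 := by
      rw [mul_add, ← h1, ← h2, ← LinearMap.add_apply, ← map_add, ← Da, hx]; simp
    have h4 := (mul_eq_zero.1 h3).resolve_left hs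
    exact ⟨z0 _ (by linarith [nn (e x), nn (d x)]), z0 _ (by linarith [nn (e x), nn (d x)])⟩
  have k2 : ∀ x, D (D x) = 0 → D x = 0 := fun x hx => z0 _ (by
    have : φ (d (e x) + e (d x)) (D x) = 0 := by
      rw [map_add, LinearMap.add_apply, h1, (k _ hx).2, h2 (d x), (k _ hx).1]; simp
    exact this)
  refine ⟨fun x hx => (k x hx).1, fun y hy => z0 _ (by rw [h1, (k _ hy).2]; simp),
    fun U hU z hz dz => ?_⟩
  have hm : ∀ x ∈ U.map D, D x ∈ U.map D := by
    rintro _ ⟨x, hx, rfl⟩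
    exact ⟨_, hU x hx, rfl⟩
  have hi : Function.Injective (D.restrict hm) := (injective_iff_map_eq_zero _).2 (by
    rintro ⟨_, x, hx, rfl⟩ h0
    exact Subtype.ext (k2 x (congrArg Subtype.val h0)))
  obtain ⟨⟨_, y, hy, rfl⟩, h0⟩ := LinearMap.surjective_of_injective hi ⟨D z, z, hz, rfl⟩
  have h3 : D (z - D y) = 0 := by
    rw [map_sub, sub_eq_zero]; exact (congrArg Subtype.val h0).symm
  have h4 : e (d y) = 0 := z0 _ (by
    have := (k _ h3).1
    rw [map_sub, dz, Da, map_add, d2, zero_add, zero_sub, neg_eq_zero] at this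
    rw [h2, this]; simp)
  have h5 : D y = d (e y) := by rw [Da, h4, add_zero]
  exact ⟨y, hy, h5 ▸ h3, h5 ▸ U.sub_mem hz (hU y hy)⟩

/-- A polarised bigraded Lefschetz structure; the gradings are given by `h₁` and `h₂`. -/
structure Pol (h₁ h₂ N₁ N₂ : End K V) (ψ : V →ₗ[K] V →ₗ[K] K) : Prop where
  L₁ : Lef h₁ N₁
  L₂ : Lef h₂ N₂
  span : ⨆ k : ℤ × ℤ, h₁.eigenspace (k.1 : K) ⊓ h₂.eigenspace (k.2 : K) = ⊤
  hh : h₁ * h₂ = h₂ * h₁
  hN₁ : h₁ * N₂ = N₂ * h₁
  hN₂ : h₂ * N₁ = N₁ * h₂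
  NN : N₁ * N₂ = N₂ * N₁
  sh₁ : ∀ x y, ψ (h₁ x) y = -ψ x (h₁ y)
  sh₂ : ∀ x y, ψ (h₂ x) y = -ψ x (h₂ y)
  sN₁ : ∀ x y, ψ (N₁ x) y = -ψ x (N₁ y)
  sN₂ : ∀ x y, ψ (N₂ x) y = -ψ x (N₂ y)
  pos : ∀ (a b : ℕ) (p : V), h₁ p = -(a : K) • p → h₂ p = -(b : K) • p →
    (N₁ ^ (a + 1)) p = 0 → (N₂ ^ (b + 1)) p = 0 → p ≠ 0 → 0 < ψ p ((N₁ ^ a) ((N₂ ^ b) p))

theorem pos_of_adj {h₁ h₂ N₁ N₂ M₁ M₂ : End K V} {ψ φ : V →ₗ[K] V →ₗ[K] K}
    (P : Pol h₁ h₂ N₁ N₂ ψ) (A₁ : Adj φ h₁ N₁ M₁) (A₂ : Adj φ h₂ N₂ M₂)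
    (hp : ∀ (a b : ℕ) (p : V), h₁ p = -(a : K) • p → h₂ p = -(b : K) • p →
      (N₁ ^ (a + 1)) p = 0 → (N₂ ^ (b + 1)) p = 0 → p ≠ 0 → 0 < φ p p) (x : V) (hx : x ≠ 0) :
    0 < φ x x := by
  set Pr : ℕ → ℕ → Submodule K V := fun a b => (h₁.eigenspace (-(a : K)) ⊓
    LinearMap.ker (N₁ ^ (a + 1))) ⊓ (h₂.eigenspace (-(b : K)) ⊓ LinearMap.ker (N₂ ^ (b + 1)))
  set S : (ℕ × ℕ) × ℕ × ℕ → Submodule K V := fun t =>
    (Pr t.1.1 t.2.1).map (N₁ ^ t.1.2 * N₂ ^ t.2.2)
  have cp : ∀ i j x, (N₁ ^ i) ((N₂ ^ j) x) = (N₂ ^ j) ((N₁ ^ i) x) := fun i j x =>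
    LinearMap.congr_fun ((show Commute N₁ N₂ from P.NN).pow_pow i j).eq x
  have p1 : ∀ {a b p} j, p ∈ Pr a b → h₁ ((N₂ ^ j) p) = -(a : K) • (N₂ ^ j) p ∧
      (N₁ ^ (a + 1)) ((N₂ ^ j) p) = 0 := fun j hp =>
    ⟨by rw [pow_comm_apply P.hN₁, End.mem_eigenspace_iff.1 hp.1.1, map_smul],
      by rw [cp, LinearMap.mem_ker.1 hp.1.2, map_zero]⟩
  have p2 : ∀ {a b p} j, p ∈ Pr a b → h₂ ((N₁ ^ j) p) = -(b : K) • (N₁ ^ j) p ∧
      (N₂ ^ (b + 1)) ((N₁ ^ j) p) = 0 := fun j hp =>
    ⟨by rw [pow_comm_apply P.hN₂, End.mem_eigenspace_iff.1 hp.2.1, map_smul],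
      by rw [← cp, LinearMap.mem_ker.1 hp.2.2, map_zero]⟩
  refine pos_of_orth φ S ?_ ?_ ?_ x hx
  · have s1 : ∀ x ∈ ⨆ t, S t, N₁ x ∈ ⨆ t, S t := fun x hx =>
      (iSup_le (by
        rintro ⟨⟨a, i⟩, b, j⟩ _ ⟨p, hp, rfl⟩
        exact Submodule.mem_iSup_of_mem ((a, i + 1), b, j) ⟨p, hp, by simp [pow_succ']⟩) :
        ⨆ t, S t ≤ (⨆ t, S t).comap N₁) hx
    have s2 : ∀ x ∈ ⨆ t, S t, N₂ x ∈ ⨆ t, S t := fun x hx =>
      (iSup_le (by
        rintro ⟨⟨a, i⟩, b, j⟩ _ ⟨p, hp, rfl⟩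
        exact Submodule.mem_iSup_of_mem ((a, i), b, j + 1) ⟨p, hp, by
          simp [pow_succ', pow_comm_apply P.NN.symm]⟩) :
        ⨆ t, S t ≤ (⨆ t, S t).comap N₂) hx
    rw [eq_top_iff, ← P.span]
    refine iSup_le fun k x hx => P.L₁.ind (U := h₂.eigenspace (k.2 : K)) (fun x hx => ?_)
      (fun a y hy h0 => ?_) s1 (fun a p hp ha p0 => ?_) k.1 x hx.2 (End.mem_eigenspace_iff.1 hx.1)
    · rw [End.mem_eigenspace_iff] at hx ⊢
      rw [comm_apply P.hN₂, hx, map_smul]
    · rw [End.mem_eigenspace_iff] at h0 ⊢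
      rw [← sub_eq_zero]
      refine P.L₁.inj a _ ?_ ?_
      · rw [map_sub, comm_apply P.hh, map_smul, hy, map_smul, smul_sub, smul_comm]
      · rw [map_sub, ← pow_comm_apply P.hN₂, h0, map_smul, sub_self]
    · refine P.L₂.ind (U := h₁.eigenspace (-(a : K)) ⊓ LinearMap.ker (N₁ ^ (a + 1)))
        (fun x hx => ⟨?_, ?_⟩) (fun b y hy h0 => ⟨?_, ?_⟩) s2 (fun b q hq hb q0 => ?_) k.2 p
        ⟨End.mem_eigenspace_iff.2 ha, p0⟩ (End.mem_eigenspace_iff.1 hp)
      · refine End.mem_eigenspace_iff.2 ?_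
        rw [comm_apply P.hN₁, End.mem_eigenspace_iff.1 hx.1, map_smul]
      · refine LinearMap.mem_ker.2 ?_
        rw [← pow_comm_apply P.NN.symm, LinearMap.mem_ker.1 hx.2, map_zero]
      · refine End.mem_eigenspace_iff.2 (sub_eq_zero.1 (P.L₂.inj b _ ?_ ?_))
        · rw [map_sub, ← comm_apply P.hh, map_smul, hy, map_smul, smul_sub, smul_comm (-(a : K))]
        · rw [map_sub, ← pow_comm_apply P.hN₁, End.mem_eigenspace_iff.1 h0.1, map_smul, sub_self]
      · refine LinearMap.mem_ker.2 (P.L₂.inj b _ ?_ ?_)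
        · rw [pow_comm_apply P.hN₂, hy, map_smul]
        · rw [← cp]; exact h0.2
      · exact Submodule.mem_iSup_of_mem ((a, 0), b, 0)
          ⟨q, ⟨hq, End.mem_eigenspace_iff.2 hb, q0⟩, by simp⟩
  · rintro ⟨⟨a, i⟩, b, j⟩ ⟨⟨a', i'⟩, b', j'⟩ hne _ ⟨p, hp, rfl⟩ _ ⟨q, hq, rfl⟩
    simp only [End.mul_apply]
    by_cases e : a = a' ∧ i = i'
    · rw [cp, cp i']
      exact A₂.orth (p2 i hp).1 (p2 i hp).2 (p2 i' hq).1 (p2 i' hq).2 j j'
        fun e' => hne (by rw [e.1, e.2, show b = b' from e'.1, e'.2])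
    · exact A₁.orth (p1 j hp).1 (p1 j hp).2 (p1 j' hq).1 (p1 j' hq).2 i i' e
  · rintro ⟨⟨a, i⟩, b, j⟩ _ ⟨p, hq, rfl⟩ h0
    simp only [End.mul_apply] at h0 ⊢
    have n1 : (N₂ ^ j) p ≠ 0 := fun e => h0 (by rw [e, map_zero])
    have n2 : p ≠ 0 := fun e => n1 (by rw [e, map_zero])
    exact A₁.norm (p1 j hq).1 (p1 j hq).2 (A₂.norm (End.mem_eigenspace_iff.1 hq.2.1) hq.2.2
      (hp a b p (End.mem_eigenspace_iff.1 hq.1.1) (End.mem_eigenspace_iff.1 hq.2.1) hq.1.2 hq.2.2
        n2) j n1) i h0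

/-- The harmonic space: `D` is the Laplacian. -/
theorem Pol.harmonic {h₁ h₂ N₁ N₂ d : End K V} {ψ : V →ₗ[K] V →ₗ[K] K} (P : Pol h₁ h₂ N₁ N₂ ψ)
    {s : K} (hs : s ≠ 0) (d₁ : h₁ * d - d * h₁ = d) (d₂ : h₂ * d - d * h₂ = d)
    (c₁ : N₁ * d = d * N₁) (c₂ : N₂ * d = d * N₂) (dd : d * d = 0)
    (ad : ∀ x y, ψ (d x) y = s * ψ x (d y)) :
    ∃ D : End K V, N₁ * D = D * N₁ ∧ N₂ * D = D * N₂ ∧ h₁ * D = D * h₁ ∧ h₂ * D = D * h₂ ∧
      (∀ x, D x = 0 → d x = 0) ∧ (∀ y, D (d y) = 0 → d y = 0) ∧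
      ∀ (a b : K) (z : V), h₁ z = a • z → h₂ z = b • z → d z = 0 →
        ∃ y, h₁ y = (a - 1) • y ∧ h₂ y = (b - 1) • y ∧ D (z - d y) = 0 := by
  let _ : Module ℚ V := Module.compHom V (algebraMap ℚ K)
  obtain ⟨M₁, a1, a2⟩ := P.L₁.exists_M
  obtain ⟨M₂, b1, b2⟩ := P.L₂.exists_M
  have T₁ : Tri h₁ N₁ M₁ := ⟨P.L₁, a1, a2⟩
  have T₂ : Tri h₂ N₂ M₂ := ⟨P.L₂, b1, b2⟩
  have m1 : M₁ * h₂ = h₂ * M₁ := T₁.comm_M P.hh P.hN₂.symm
  have m2 : M₁ * N₂ = N₂ * M₁ := T₁.comm_M P.hN₁ P.NN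
  have m3 : M₂ * h₁ = h₁ * M₂ := T₂.comm_M P.hh.symm P.hN₁.symm
  have m4 : M₂ * N₁ = N₁ * M₂ := T₂.comm_M P.hN₂ P.NN.symm
  set w₁ := weil N₁ M₁
  set w₂ := weil N₂ M₂
  have u1 : h₁ * w₂ = w₂ * h₁ := T₂.comm_w P.hh.symm P.hN₁.symm
  have u2 : N₁ * w₂ = w₂ * N₁ := T₂.comm_w P.hN₂ P.NN.symm
  have u3 : M₁ * w₂ = w₂ * M₁ := T₂.comm_w m1.symm m2.symm
  have v1 : h₂ * w₁ = w₁ * h₂ := T₁.comm_w P.hh P.hN₂.symm
  have v2 : N₂ * w₁ = w₁ * N₂ := T₁.comm_w P.hN₁ P.NN
  have v3 : M₂ * w₁ = w₁ * M₂ := T₁.comm_w m3.symm m4.symm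
  have ww : w₂ * w₁ = w₁ * w₂ := T₁.comm_w u1 u2
  set φ : V →ₗ[K] V →ₗ[K] K := ψ.compl₂ (w₁ * w₂) with hφ
  have adj : ∀ {f g : End K V} {c : K}, (∀ x y, ψ (f x) y = c * ψ x (f y)) →
      f * (w₁ * w₂) = w₁ * w₂ * g → ∀ x y, φ (f x) y = c * φ x (g y) := fun h1 h2 x y => by
    rw [hφ, LinearMap.compl₂_apply, LinearMap.compl₂_apply, h1, ← End.mul_apply, h2]; rfl
  have adj1 : ∀ {f g : End K V}, (∀ x y, ψ (f x) y = -ψ x (f y)) → f * w₁ = w₁ * (-g) →
      g * w₂ = w₂ * g → ∀ x y, φ (f x) y = φ x (g y) := fun {f g} h1 h2 h3 x y => by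
    rw [adj (g := -g) (c := -1) (by simpa using h1)
      (by rw [← mul_assoc, h2, mul_assoc, mul_assoc, neg_mul, h3, mul_neg w₂])]
    simp
  have adj2 : ∀ {f g : End K V}, (∀ x y, ψ (f x) y = -ψ x (f y)) → f * w₂ = w₂ * (-g) →
      f * w₁ = w₁ * f → ∀ x y, φ (f x) y = φ x (g y) := fun {f g} h1 h2 h3 x y => by
    rw [adj (g := -g) (c := -1) (by simpa using h1)
      (by rw [← mul_assoc, h3, mul_assoc, h2, mul_assoc])]
    simp
  have k₁ := T₁.skew P.sh₁ P.sN₁
  have k₂ := T₂.skew P.sh₂ P.sN₂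
  have A₁ : Adj φ h₁ N₁ M₁ :=
    ⟨T₁, adj1 P.sN₁ T₁.N_w u3, adj1 k₁ T₁.M_w u2, adj1 P.sh₁ T₁.h_w u1⟩
  have A₂ : Adj φ h₂ N₂ M₂ :=
    ⟨T₂, adj2 P.sN₂ T₂.N_w v2, adj2 k₂ T₂.M_w v3, adj2 P.sh₂ T₂.h_w v1⟩
  have pos := pos_of_adj P A₁ A₂ fun a b p ha hb a0 b0 p0 => by
    have e1 : w₁ ((N₂ ^ b) p) = (a.factorial : K)⁻¹ • (N₁ ^ a) ((N₂ ^ b) p) := T₁.w_prim
      (by rw [pow_comm_apply P.hN₁, ha, map_smul])
      (by rw [← End.mul_apply, ((show Commute N₁ N₂ from P.NN).pow_pow _ _).eq, End.mul_apply, a0,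
        map_zero])
    rw [hφ, LinearMap.compl₂_apply, End.mul_apply, T₂.w_prim hb b0, map_smul, e1, map_smul,
      map_smul, smul_eq_mul, smul_eq_mul]
    have := P.pos a b p ha hb a0 b0 p0
    positivity
  have br : ∀ {M f : End K V}, (∀ x y, ψ (M x) y = -ψ x (M y)) →
      (∀ x y, ψ (f x) y = s * ψ x (f y)) →
      ∀ x y, ψ ((M * f - f * M) x) y = s * ψ x ((M * f - f * M) y) := fun h1 h2 x y => by
    simp only [LinearMap.sub_apply, End.mul_apply, map_sub, h1, h2]; ring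
  have jac : ∀ {g M f : End K V}, M * g = g * M →
      g * (M * f - f * M) - (M * f - f * M) * g = M * (g * f - f * g) - (g * f - f * g) * M :=
    fun {g M f} h1 => by
      have : g * (M * f - f * M) - (M * f - f * M) * g - (M * (g * f - f * g) - (g * f - f * g) * M)
          = (g * M - M * g) * f - f * (g * M - M * g) := by noncomm_ring
      rw [← sub_eq_zero, this, h1]; simp
  set e₁ := M₁ * d - d * M₁ with he₁
  have f1 : h₂ * e₁ - e₁ * h₂ = e₁ := by rw [jac m1, d₂]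
  have f2 : N₂ * e₁ = e₁ * N₂ := by rw [← sub_eq_zero, jac m2, c₂]; simp
  set e := M₂ * e₁ - e₁ * M₂ with he
  have g1 : d * (w₁ * w₂) = w₁ * w₂ * e := by
    rw [← mul_assoc, T₁.d_w d₁ c₁, mul_assoc, T₂.d_w f1 f2, mul_assoc]
  have g2 : e * (w₁ * w₂) = w₁ * w₂ * d := by
    rw [← ww, ← mul_assoc, T₂.e_w f1 f2, mul_assoc, neg_mul, T₁.e_w d₁ c₁, mul_neg w₁, neg_neg,
      mul_assoc]
  obtain ⟨H1, H2, H3⟩ := hodge pos hs dd (adj ad g1) (adj (br k₂ (br k₁ ad)) g2)
  have q1 : h₁ * e - e * h₁ = (-1 : K) • e := by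
    rw [jac m3, T₁.h_br (r := 1) (by rw [d₁, one_smul]), mul_smul_comm, smul_mul_assoc, ← smul_sub]
    congr 1; norm_num
  have q2 : h₂ * e - e * h₂ = (-1 : K) • e := by
    rw [T₂.h_br (r := 1) (by rw [f1, one_smul])]; congr 1; norm_num
  have lap : ∀ {g : End K V}, g * (d * e + e * d) - (d * e + e * d) * g =
      (g * d - d * g) * e + d * (g * e - e * g) + ((g * e - e * g) * d + e * (g * d - d * g)) := by
    intro g; noncomm_ring
  have cN : ∀ {g M : End K V}, g * d = d * g → g * e - e * g = M * d - d * M →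
      g * (d * e + e * d) = (d * e + e * d) * g := fun {g M} h1 h2 => by
    have : d * (M * d - d * M) + (M * d - d * M) * d = M * (d * d) - d * d * M := by noncomm_ring
    rw [← sub_eq_zero, lap, h1, h2, sub_self, zero_mul, mul_zero, zero_add, add_zero, this, dd]
    simp
  have ch : ∀ {g : End K V}, g * d - d * g = d → g * e - e * g = (-1 : K) • e →
      g * (d * e + e * d) = (d * e + e * d) * g := fun h1 h2 => by
    rw [← sub_eq_zero, lap, h1, h2]; simp
  refine ⟨d * e + e * d, cN (M := M₂) c₁ (by rw [jac m4, T₁.N_br d₁ c₁]), cN c₂ (T₂.N_br f1 f2),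
    ch d₁ q1, ch d₂ q2, H1, H2, fun a b z ha hb dz => ?_⟩
  obtain ⟨y, hy, h0, -⟩ := H3 (h₁.eigenspace a ⊓ h₂.eigenspace b) (fun x hx =>
    ⟨End.mem_eigenspace_iff.2 (by
      rw [comm_apply (ch d₁ q1), End.mem_eigenspace_iff.1 hx.1, map_smul]),
    End.mem_eigenspace_iff.2 (by
      rw [comm_apply (ch d₂ q2), End.mem_eigenspace_iff.1 hx.2, map_smul])⟩) z
    ⟨End.mem_eigenspace_iff.2 ha, End.mem_eigenspace_iff.2 hb⟩ dz
  exact ⟨e y, by rw [deg_apply q1 (End.mem_eigenspace_iff.1 hy.1), sub_eq_add_neg],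
    by rw [deg_apply q2 (End.mem_eigenspace_iff.1 hy.2), sub_eq_add_neg], h0⟩

end HL2

end Hodge

noncomputable section Main

set_option linter.unusedSectionVars false

/-! Hard Lefschetz on the cohomology of a differential polarised bigraded Lefschetz structure
(Saito; Guillén and Navarro Aznar). -/

open Module HL2


namespace KH

variable {K M : Type*} [Field K] [LinearOrder K] [IsStrictOrderedRing K] [AddCommGroup M]
  [Module K M]

/-- A differential polarised bigraded Lefschetz structure on the pieces `A a b`. -/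
structure Str (A : ℤ → ℤ → Submodule K M) (N L d : Module.End K M)
    (ψ : M →ₗ[K] M →ₗ[K] K) : Prop where
  degN : ∀ a b, ∀ x ∈ A a b, N x ∈ A (a + 2) b
  degL : ∀ a b, ∀ x ∈ A a b, L x ∈ A a (b + 2)
  degd : ∀ a b, ∀ x ∈ A a b, d x ∈ A (a + 1) (b + 1)
  NL : ∀ a b, ∀ x ∈ A a b, N (L x) = L (N x)
  dN : ∀ a b, ∀ x ∈ A a b, d (N x) = N (d x)
  dL : ∀ a b, ∀ x ∈ A a b, d (L x) = L (d x)
  dd : ∀ a b, ∀ x ∈ A a b, d (d x) = 0
  skewN : ∀ a b a' b', ∀ x ∈ A a b, ∀ y ∈ A a' b', ψ (N x) y = -ψ x (N y)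
  skewL : ∀ a b a' b', ∀ x ∈ A a b, ∀ y ∈ A a' b', ψ (L x) y = -ψ x (L y)
  adjd : ∀ a b a' b', ∀ x ∈ A a b, ∀ y ∈ A a' b', ψ (d x) y = ψ x (d y)
  orth : ∀ a b a' b', ∀ x ∈ A a b, ∀ y ∈ A a' b', ¬(a + a' = 0 ∧ b + b' = 0) → ψ x y = 0
  nondeg : ∀ a b, ∀ x ∈ A a b, (∀ y ∈ A (-a) (-b), ψ x y = 0) → x = 0
  injN : ∀ (a : ℕ) (b : ℤ), ∀ x ∈ A (-a) b, (N ^ a) x = 0 → x = 0
  surjN : ∀ (a : ℕ) (b : ℤ), ∀ y ∈ A a b, ∃ x ∈ A (-a) b, (N ^ a) x = y
  injL : ∀ (a : ℤ) (b : ℕ), ∀ x ∈ A a (-b), (L ^ b) x = 0 → x = 0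
  surjL : ∀ (a : ℤ) (b : ℕ), ∀ y ∈ A a b, ∃ x ∈ A a (-b), (L ^ b) x = y
  pos : ∀ a b : ℕ, ∀ x ∈ A (-a) (-b), (N ^ (a + 1)) x = 0 → (L ^ (b + 1)) x = 0 → x ≠ 0 →
    0 < ψ x ((N ^ a) ((L ^ b) x))

variable {A : ℤ → ℤ → Submodule K M} {N L d : End K M} {ψ : M →ₗ[K] M →ₗ[K] K}

theorem top_of (hA : ⨆ a, ⨆ b, A a b = ⊤) {Q : Submodule K M}
    (hQ : ∀ a b, ∀ x ∈ A a b, x ∈ Q) : Q = ⊤ := by
  rw [eq_top_iff, ← hA]
  exact iSup₂_le hQ

theorem ext_of (hA : ⨆ a, ⨆ b, A a b = ⊤) {W : Type*} [AddCommGroup W] [Module K W]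
    {f g : M →ₗ[K] W} (hfg : ∀ a b, ∀ x ∈ A a b, f x = g x) : f = g := by
  rw [← LinearMap.eqLocus_eq_top]
  exact top_of hA hfg

theorem ext₂_of (hA : ⨆ a, ⨆ b, A a b = ⊤) {f g : M →ₗ[K] M →ₗ[K] K}
    (hfg : ∀ a b a' b', ∀ x ∈ A a b, ∀ y ∈ A a' b', f x y = g x y) (x y : M) : f x y = g x y := by
  rw [ext_of hA fun a b x hx => ext_of hA fun a' b' y hy => hfg a b a' b' x hx y hy]

/-- Projections onto the pieces. -/
structure Proj (A : ℤ → ℤ → Submodule K M) (π : ℤ → ℤ → End K M) : Prop where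
  span : ⨆ a, ⨆ b, A a b = ⊤
  app : ∀ a b a' b', ∀ x ∈ A a' b', π a b x = if a = a' ∧ b = b' then x else 0

namespace Proj

variable {π : ℤ → ℤ → End K M} (P : Proj A π)
include P

theorem swap : Proj (fun a b => A b a) fun a b => π b a :=
  ⟨by rw [iSup_comm]; exact P.span, fun a b a' b' x hx => by
    rw [P.app b a b' a' x hx]; simp only [and_comm]⟩

theorem mem (a b : ℤ) (x : M) : π a b x ∈ A a b := by
  have : (A a b).comap (π a b) = ⊤ := top_of P.span fun a' b' x hx => by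
    rw [Submodule.mem_comap, P.app a b a' b' x hx]
    split_ifs with h
    · rw [h.1, h.2]; exact hx
    · exact Submodule.zero_mem _
  exact (this ▸ Submodule.mem_top : x ∈ (A a b).comap (π a b))

theorem of_mem {Q : Submodule K M} {x : M} (h : ∀ a b, π a b x ∈ Q) : x ∈ Q := by
  classical
  have h1 : x ∈ ⨆ k : ℤ × ℤ, A k.1 k.2 := by rw [iSup_prod, P.span]; trivial
  obtain ⟨s, hs⟩ := Submodule.mem_iSup_iff_exists_finset.1 h1
  have h2 : (∑ k ∈ s, π k.1 k.2) x = x := (iSup₂_le fun j hj y hy => by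
    change (∑ k ∈ s, π k.1 k.2) y = y
    rw [LinearMap.sum_apply, Finset.sum_eq_single j, P.app _ _ _ _ y hy, if_pos ⟨rfl, rfl⟩]
    · intro k _ hk
      rw [P.app _ _ _ _ y hy, if_neg fun e => hk (Prod.ext e.1 e.2)]
    · exact fun e => absurd hj e :
    ⨆ k ∈ s, A k.1 k.2 ≤ LinearMap.eqLocus (∑ k ∈ s, π k.1 k.2) LinearMap.id) hs
  rw [← h2, LinearMap.sum_apply]
  exact Q.sum_mem fun k _ => h k.1 k.2

theorem zero {h : End K M} (hh : ∀ a b, ∀ x ∈ A a b, h x = (a : K) • x) {c : ℤ} {x : M}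
    (hx : h x = (c : K) • x) {a : ℤ} (b : ℤ) (hne : a ≠ c) : π a b x = 0 := by
  have h1 : π a b * h = (a : K) • π a b := ext_of P.span fun a' b' y hy => by
    rw [End.mul_apply, hh a' b' y hy, map_smul, LinearMap.smul_apply, P.app a b a' b' y hy]
    split_ifs with e
    · rw [e.1]
    · simp
  have h2 := LinearMap.congr_fun h1 x
  rw [End.mul_apply, hx, map_smul, LinearMap.smul_apply, ← sub_eq_zero, ← sub_smul] at h2
  exact (smul_eq_zero.1 h2).resolve_left (sub_ne_zero.2 (by exact_mod_cast hne.symm))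

theorem lef {h : End K M} (hh : ∀ a b, ∀ x ∈ A a b, h x = (a : K) • x)
    (deg : ∀ a b, ∀ x ∈ A a b, N x ∈ A (a + 2) b)
    (inj : ∀ (a : ℕ) (b : ℤ), ∀ x ∈ A (-a) b, (N ^ a) x = 0 → x = 0)
    (surj : ∀ (a : ℕ) (b : ℤ), ∀ y ∈ A a b, ∃ x ∈ A (-a) b, (N ^ a) x = y) : Lef h N := by
  have dp : ∀ (i : ℕ) a b, ∀ x ∈ A a b, (N ^ i) x ∈ A (a + 2 * i) b := fun i a b x hx => by
    induction i with
    | zero => simpa using hx
    | succ i ih =>
      rw [pow_succ', show a + 2 * ((i + 1 : ℕ) : ℤ) = a + 2 * i + 2 by push_cast; ring]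
      exact deg _ _ _ ih
  refine ⟨top_of P.span fun a b x hx => Submodule.mem_iSup_of_mem a
    (End.mem_eigenspace_iff.2 (hh a b x hx)), ext_of P.span fun a b x hx => ?_,
    fun a x hx h0 => ?_, fun a x hx => ?_⟩
  · rw [two_mul_eq, LinearMap.sub_apply, End.mul_apply, End.mul_apply, hh _ _ _ (deg a b x hx),
      hh a b x hx, map_smul, ← sub_smul, LinearMap.smul_apply]
    congr 1; push_cast; ring
  · refine (Submodule.mem_bot K).1 (P.of_mem fun a' b => (Submodule.mem_bot K).2 ?_)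
    by_cases e : a' = -a
    · subst e
      have h1 : N ^ a * π (-a) b = π a b * N ^ a := ext_of P.span fun a' b' y hy => by
        rw [End.mul_apply, End.mul_apply, P.app _ _ _ _ y hy, P.app _ _ _ _ _ (dp a a' b' y hy)]
        by_cases e : -(a : ℤ) = a' ∧ b = b'
        · rw [if_pos e, if_pos ⟨by omega, e.2⟩]
        · rw [if_neg e, if_neg fun e' => e ⟨by omega, e'.2⟩, map_zero]
      refine inj a b _ (P.mem _ _ x) ?_
      rw [← End.mul_apply, h1, End.mul_apply, h0, map_zero]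
    · exact P.zero hh (c := -a) (by simpa using hx) b e
  · have : x ∈ (h.eigenspace (-(a : K))).map (N ^ a) := P.of_mem fun a' b => by
      by_cases e : a' = a
      · subst e
        obtain ⟨y, hy, e⟩ := surj a b _ (P.mem _ _ x)
        exact ⟨y, End.mem_eigenspace_iff.2 (by simpa using hh _ _ y hy), e⟩
      · rw [P.zero hh (c := a) (by simpa using hx) b e]; exact Submodule.zero_mem _
    obtain ⟨y, hy, e⟩ := this
    exact ⟨y, End.mem_eigenspace_iff.1 hy, e⟩

end Proj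

theorem Str.exists_op (S : Str A N L d ψ) (hA : ⨆ a, ⨆ b, A a b = ⊤) (c : ℤ → ℤ → K) :
    ∃ f : End K M, ∀ a b, ∀ x ∈ A a b, f x = c a b • x := by
  have hi : iSupIndep fun k : ℤ × ℤ => A k.1 k.2 := iSupIndep_def.2 fun k =>
    Submodule.disjoint_def.2 fun x hx hx' => S.nondeg _ _ x hx fun y hy =>
      (iSup₂_le fun j hj z hz => S.orth _ _ _ _ z hz y hy
        fun e => hj (Prod.ext (by omega) (by omega)) :
        ⨆ j, ⨆ _ : j ≠ k, A j.1 j.2 ≤ LinearMap.ker (ψ.flip y)) hx'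
  have hI := DirectSum.isInternal_submodule_of_iSupIndep_of_iSup_eq_top hi
    (by rw [iSup_prod]; exact hA)
  set e := LinearEquiv.ofBijective (DirectSum.coeLinearMap fun k : ℤ × ℤ => A k.1 k.2) hI
  refine ⟨DirectSum.toModule K (ℤ × ℤ) M (fun k => c k.1 k.2 • (A k.1 k.2).subtype) ∘ₗ
    e.symm.toLinearMap, fun a b x hx => ?_⟩
  have : e.symm x = DirectSum.lof K (ℤ × ℤ) (fun k => A k.1 k.2) (a, b) ⟨x, hx⟩ :=
    e.symm_apply_eq.2 (DirectSum.coeLinearMap_lof _ (a, b) ⟨x, hx⟩).symm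
  rw [LinearMap.comp_apply, LinearEquiv.coe_toLinearMap, this, DirectSum.toModule_lof]
  rfl

/-- The Laplacian, when the pieces span. -/
theorem Str.lap_top (S : Str A N L d ψ) (hA : ⨆ a, ⨆ b, A a b = ⊤) [FiniteDimensional K M] :
    ∃ D : End K M, N * D = D * N ∧ L * D = D * L ∧ (∀ a b, ∀ x ∈ A a b, D x ∈ A a b) ∧
      (∀ x, D x = 0 → d x = 0) ∧ (∀ y, D (d y) = 0 → d y = 0) ∧
      ∀ a b, ∀ z ∈ A a b, d z = 0 → ∃ y ∈ A (a - 1) (b - 1), D (z - d y) = 0 := by
  obtain ⟨h₁, e₁⟩ := S.exists_op hA fun a _ => a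
  obtain ⟨h₂, e₂⟩ := S.exists_op hA fun _ b => b
  choose π hπ using fun a b : ℤ => S.exists_op hA fun a' b' => if a = a' ∧ b = b' then 1 else 0
  have P : Proj A π := ⟨hA, fun a b a' b' x hx => by
    rw [hπ a b a' b' x hx]; split_ifs <;> simp⟩
  have e₂' : ∀ b a, ∀ x ∈ A a b, h₂ x = (b : K) • x := fun b a => e₂ a b
  have back : ∀ (a b : ℤ) (x : M), h₁ x = (a : K) • x → h₂ x = (b : K) • x → x ∈ A a b :=
    fun a b x h1 h2 => P.of_mem fun a' b' => by
      by_cases ea : a' = a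
      · by_cases eb : b' = b
        · rw [← ea, ← eb]; exact P.mem _ _ x
        · rw [P.swap.zero e₂' h2 a' eb]; exact Submodule.zero_mem _
      · rw [P.zero e₁ h1 b' ea]; exact Submodule.zero_mem _
  have sk : ∀ {f : End K M} {c : K},
      (∀ a b a' b', ∀ x ∈ A a b, ∀ y ∈ A a' b', ψ (f x) y = c * ψ x (f y)) →
      ∀ x y, ψ (f x) y = c * ψ x (f y) := fun {f c} h x y =>
    ext₂_of hA (f := ψ ∘ₗ f) (g := c • ψ.compl₂ f) h x y
  have sk' : ∀ {f : End K M},
      (∀ a b a' b', ∀ x ∈ A a b, ∀ y ∈ A a' b', ψ (f x) y = -ψ x (f y)) →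
      ∀ x y, ψ (f x) y = -ψ x (f y) := fun h x y => by
    simpa using sk (c := -1) (by simpa using h) x y
  have sh : ∀ {h : End K M} (c : ℤ → ℤ → ℤ), (∀ a b, ∀ x ∈ A a b, h x = (c a b : K) • x) →
      (∀ a b, c (-a) (-b) = -c a b) → ∀ x y, ψ (h x) y = -ψ x (h y) := fun c h1 h2 =>
    sk' fun a b a' b' x hx y hy => by
      rw [h1 a b x hx, h1 a' b' y hy, map_smul, map_smul, LinearMap.smul_apply]
      by_cases e : a + a' = 0 ∧ b + b' = 0
      · rw [show a' = -a by omega, show b' = -b by omega, h2]; simp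
      · simp [S.orth a b a' b' x hx y hy e]
  have Q : Pol h₁ h₂ N L ψ :=
    { L₁ := P.lef e₁ S.degN S.injN S.surjN
      L₂ := P.swap.lef e₂' (fun b a => S.degL a b) (fun b a => S.injL a b) fun b a => S.surjL a b
      span := top_of hA fun a b x hx => Submodule.mem_iSup_of_mem (a, b)
        ⟨End.mem_eigenspace_iff.2 (e₁ a b x hx), End.mem_eigenspace_iff.2 (e₂ a b x hx)⟩
      hh := ext_of hA fun a b x hx => by
        simp only [End.mul_apply, e₁ a b x hx, e₂ a b x hx, map_smul]; rw [smul_comm]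
      hN₁ := ext_of hA fun a b x hx => by
        simp only [End.mul_apply, e₁ a b x hx, e₁ _ _ _ (S.degL a b x hx), map_smul]
      hN₂ := ext_of hA fun a b x hx => by
        simp only [End.mul_apply, e₂ a b x hx, e₂ _ _ _ (S.degN a b x hx), map_smul]
      NN := ext_of hA S.NL
      sh₁ := sh (fun a _ => a) e₁ fun _ _ => rfl
      sh₂ := sh (fun _ b => b) e₂ fun _ _ => rfl
      sN₁ := sk' S.skewN
      sN₂ := sk' S.skewL
      pos := fun a b p h1 h2 => S.pos a b p (back _ _ p (by simpa using h1) (by simpa using h2)) }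
  obtain ⟨D, c1, c2, c3, c4, k1, k2, k3⟩ := Q.harmonic (d := d) (s := 1) one_ne_zero
    (ext_of hA fun a b x hx => by
      simp [e₁ a b x hx, e₁ _ _ _ (S.degd a b x hx), add_smul])
    (ext_of hA fun a b x hx => by
      simp [e₂ a b x hx, e₂ _ _ _ (S.degd a b x hx), add_smul])
    (ext_of hA fun a b x hx => (S.dN a b x hx).symm)
    (ext_of hA fun a b x hx => (S.dL a b x hx).symm) (ext_of hA S.dd)
    (sk (by simpa using S.adjd))
  refine ⟨D, c1, c2, fun a b x hx => back a b _ ?_ ?_, k1, k2, fun a b z hz dz => ?_⟩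
  · rw [comm_apply c3, e₁ a b x hx, map_smul]
  · rw [comm_apply c4, e₂ a b x hx, map_smul]
  · obtain ⟨y, y1, y2, h0⟩ := k3 a b z (e₁ a b z hz) (e₂ a b z hz) dz
    exact ⟨y, back _ _ y (by simpa using y1) (by simpa using y2), h0⟩

/-- Harmonic elements: a subspace `H` of cycles that meets the boundaries in zero, represents
every homogeneous class, and is stable under `N`, `L` and their Lefschetz inverses. -/
theorem Str.harmonic (S : Str A N L d ψ) [FiniteDimensional K ↥(⨆ a, ⨆ b, A a b)] :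
    ∃ H : Submodule K M, (∀ x ∈ H, d x = 0) ∧ (∀ x ∈ H, N x ∈ H) ∧ (∀ x ∈ H, L x ∈ H) ∧
      (∀ a b, ∀ y ∈ A a b, d y ∈ H → d y = 0) ∧
      (∀ (a : ℕ) (b : ℤ), ∀ x ∈ A (-a) b, (N ^ a) x ∈ H → x ∈ H) ∧
      (∀ (a : ℤ) (b : ℕ), ∀ x ∈ A a (-b), (L ^ b) x ∈ H → x ∈ H) ∧
      ∀ a b, ∀ z ∈ A a b, d z = 0 → ∃ y ∈ A (a - 1) (b - 1), z - d y ∈ H := by
  set T : Submodule K M := ⨆ a, ⨆ b, A a b with hT
  have le : ∀ {a b x}, x ∈ A a b → x ∈ T := fun {a b x} hx =>
    Submodule.mem_iSup_of_mem a (Submodule.mem_iSup_of_mem b hx)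
  have st : ∀ {f : End K M}, (∀ a b, ∀ x ∈ A a b, f x ∈ T) → ∀ x ∈ T, f x ∈ T := fun {f} h x hx =>
    (iSup₂_le h : T ≤ T.comap f) hx
  have tN := st fun a b x hx => le (S.degN a b x hx)
  have tL := st fun a b x hx => le (S.degL a b x hx)
  have td := st fun a b x hx => le (S.degd a b x hx)
  have pw : ∀ {f : End K M} (h : ∀ x ∈ T, f x ∈ T) (i : ℕ) (x : T),
      (((f.restrict h ^ i) x : T) : M) = (f ^ i) x := fun h i x => by
    rw [Module.End.pow_restrict]; rfl
  have S' : Str (fun a b => (A a b).comap T.subtype) (N.restrict tN) (L.restrict tL)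
      (d.restrict td) (ψ.compl₁₂ T.subtype T.subtype) :=
    { degN := fun a b x hx => S.degN a b x hx
      degL := fun a b x hx => S.degL a b x hx
      degd := fun a b x hx => S.degd a b x hx
      NL := fun a b x hx => Subtype.ext (S.NL a b x hx)
      dN := fun a b x hx => Subtype.ext (S.dN a b x hx)
      dL := fun a b x hx => Subtype.ext (S.dL a b x hx)
      dd := fun a b x hx => Subtype.ext (S.dd a b x hx)
      skewN := fun a b a' b' x hx y hy => S.skewN a b a' b' x hx y hy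
      skewL := fun a b a' b' x hx y hy => S.skewL a b a' b' x hx y hy
      adjd := fun a b a' b' x hx y hy => S.adjd a b a' b' x hx y hy
      orth := fun a b a' b' x hx y hy => S.orth a b a' b' x hx y hy
      nondeg := fun a b x hx h => Subtype.ext (S.nondeg a b x hx fun y hy => h ⟨y, le hy⟩ hy)
      injN := fun a b x hx h =>
        Subtype.ext (S.injN a b x hx (by rw [← pw tN, h]; rfl))
      surjN := fun a b y hy => by
        obtain ⟨x, hx, e⟩ := S.surjN a b y hy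
        exact ⟨⟨x, le hx⟩, hx, Subtype.ext (by rw [pw]; exact e)⟩
      injL := fun a b x hx h =>
        Subtype.ext (S.injL a b x hx (by rw [← pw tL, h]; rfl))
      surjL := fun a b y hy => by
        obtain ⟨x, hx, e⟩ := S.surjL a b y hy
        exact ⟨⟨x, le hx⟩, hx, Subtype.ext (by rw [pw]; exact e)⟩
      pos := fun a b x hx h1 h2 h0 => by
        have := S.pos a b x hx (by rw [← pw tN, h1]; rfl) (by rw [← pw tL, h2]; rfl)
          fun e => h0 (Subtype.ext e)
        rwa [← pw tL, ← pw tN] at this }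
  obtain ⟨D, c1, c2, c3, k1, k2, k3⟩ := S'.lap_top (by
    apply Submodule.map_injective_of_injective T.injective_subtype
    simp only [Submodule.map_iSup, Submodule.map_comap_subtype, Submodule.map_top,
      Submodule.range_subtype]
    exact iSup_congr fun a => iSup_congr fun b => inf_eq_right.2 fun x hx => le hx)
  have mk : ∀ x : T, (x : M) ∈ (LinearMap.ker D).map T.subtype ↔ D x = 0 := fun x =>
    ⟨fun ⟨y, hy, e⟩ => Subtype.ext e ▸ hy, fun h => ⟨x, h, rfl⟩⟩
  refine ⟨(LinearMap.ker D).map T.subtype, ?_, ?_, ?_, fun a b y hy h => ?_, fun a b x hx h => ?_,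
    fun a b x hx h => ?_, fun a b z hz dz => ?_⟩
  · rintro _ ⟨x, hx, rfl⟩
    exact congrArg Subtype.val (k1 x hx)
  · rintro _ ⟨x, hx, rfl⟩
    exact (mk (N.restrict tN x)).2 (by rw [← comm_apply c1, LinearMap.mem_ker.1 hx, map_zero])
  · rintro _ ⟨x, hx, rfl⟩
    exact (mk (L.restrict tL x)).2 (by rw [← comm_apply c2, LinearMap.mem_ker.1 hx, map_zero])
  · exact congrArg Subtype.val (k2 ⟨y, le hy⟩ ((mk (d.restrict td ⟨y, le hy⟩)).1 h))
  · refine (mk ⟨x, le hx⟩).2 (S'.injN a b _ (c3 _ _ _ hx) ?_)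
    rw [← pow_comm_apply c1.symm]
    exact (mk _).1 (by rw [pw]; exact h)
  · refine (mk ⟨x, le hx⟩).2 (S'.injL a b _ (c3 _ _ _ hx) ?_)
    rw [← pow_comm_apply c2.symm]
    exact (mk _).1 (by rw [pw]; exact h)
  · obtain ⟨y, hy, h0⟩ := k3 a b ⟨z, le hz⟩ hz (Subtype.ext dz)
    exact ⟨y, hy, (mk _).2 h0⟩

theorem Str.degL_pow (S : Str A N L d ψ) (i : ℕ) {a b : ℤ} {x : M} (hx : x ∈ A a b) :
    (L ^ i) x ∈ A a (b + 2 * i) ∧ d ((L ^ i) x) = (L ^ i) (d x) := by
  induction i with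
  | zero => simpa using hx
  | succ i ih =>
    rw [pow_succ', show b + 2 * ((i + 1 : ℕ) : ℤ) = b + 2 * i + 2 by push_cast; ring]
    exact ⟨S.degL _ _ _ ih.1, by rw [End.mul_apply, S.dL _ _ _ ih.1, ih.2]; rfl⟩

/-- Hard Lefschetz for `L` on the cohomology of `d`: injectivity. -/
theorem Str.inj (S : Str A N L d ψ) [FiniteDimensional K ↥(⨆ a, ⨆ b, A a b)] (a : ℤ) (b : ℕ)
    (x : M) (hx : x ∈ A a (-b)) (dx : d x = 0) (h : (L ^ b) x ∈ (A (a - 1) (b - 1)).map d) :
    x ∈ (A (a - 1) (-b - 1)).map d := by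
  obtain ⟨H, -, -, hL, h0, -, -, hz⟩ := S.harmonic
  obtain ⟨y, hy, hH⟩ := hz _ _ x hx dx
  obtain ⟨u, hu, e⟩ := h
  obtain ⟨y1, y2⟩ := S.degL_pow b hy
  rw [show -(b : ℤ) - 1 + 2 * b = b - 1 by ring] at y1
  have h1 : (L ^ b) (x - d y) = d (u - (L ^ b) y) := by rw [map_sub, map_sub, e, y2]
  have h2 : ∀ i : ℕ, (L ^ i) (x - d y) ∈ H := fun i => by
    induction i with
    | zero => exact hH
    | succ i ih => rw [pow_succ']; exact hL _ ih
  have h3 : d y ∈ A a (-b) := by simpa using S.degd _ _ y hy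
  have h4 := S.injL a b _ ((A _ _).sub_mem hx h3)
    (h1.trans (h0 _ _ _ ((A _ _).sub_mem hu y1) (h1 ▸ h2 b)))
  exact ⟨y, hy, (sub_eq_zero.1 h4).symm⟩

/-- Hard Lefschetz for `L` on the cohomology of `d`: surjectivity. -/
theorem Str.surj (S : Str A N L d ψ) [FiniteDimensional K ↥(⨆ a, ⨆ b, A a b)] (a : ℤ) (b : ℕ)
    (y : M) (hy : y ∈ A a b) (dy : d y = 0) :
    ∃ x ∈ A a (-b), d x = 0 ∧ y - (L ^ b) x ∈ (A (a - 1) (b - 1)).map d := by
  obtain ⟨H, hd, -, -, -, -, hL, hz⟩ := S.harmonic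
  obtain ⟨u, hu, hH⟩ := hz _ _ y hy dy
  have h3 : d u ∈ A a b := by simpa using S.degd _ _ u hu
  obtain ⟨x, hx, e⟩ := S.surjL a b _ ((A _ _).sub_mem hy h3)
  exact ⟨x, hx, hd x (hL a b x hx (e ▸ hH)), u, hu, by rw [e, sub_sub_cancel]⟩

end KH

end Main

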