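import Pool.Agent.Lib.MP_e9c0f3_ag.K2.EBas
import Pool.Agent.Lib.MP_e9c0f3_ag.K2.HL2

/-! The first page is a polarised bigraded Lefschetz structure. -/

open ExteriorAlgebra KH
open scoped Classical

set_option linter.unusedSectionVars false

noncomputable section

namespace K2

variable {N : Type} [AddCommGroup N] [Module ℝ N] {De : Finset (Finset N)} {t : Module.Dual ℝ N}
  {d : ℕ} {hh : N → ℝ} {φ : Finset N → Module.Dual ℝ (Po N)} {μ : Finset N → Module.Dual ℝ N}

namespace ES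

open MvPolynomial

/-- The sign `(-1) ^ degree`. -/
def par : Po N →ₐ[ℝ] Po N := aeval fun v => -X v

theorem par_hom {a : Po N} {k : ℕ} (ha : a.IsHomogeneous k) : par a = (-1 : ℝ) ^ k • a := by
  conv_lhs => rw [a.as_sum, map_sum]
  conv_rhs => rw [a.as_sum, Finset.smul_sum]
  refine Finset.sum_congr rfl fun m hm => ?_
  rw [par, aeval_monomial, monomial_eq, ha.degree_eq_sum_deg_support hm, Finsupp.prod,
    Finsupp.prod, ← Finset.prod_pow_eq_pow_sum, smul_eq_C_mul, map_prod, algebraMap_eq,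
    mul_left_comm, ← Finset.prod_mul_distrib]
  congr 1
  refine Finset.prod_congr rfl fun v _ => ?_
  rw [map_pow, ← mul_pow]; simp

theorem par_Ic {β : Finset N} {a : Po N} (ha : a ∈ Ic De β) : par a ∈ Ic De β := by
  refine (Ideal.span_le.2 ?_ : Ic De β ≤ (Ic De β).comap (par (N := N))) ha
  rintro g hg
  have h1 : g ∈ Ic De β := Ideal.subset_span hg
  obtain ⟨k, hk⟩ : ∃ k, g.IsHomogeneous k := by
    rcases hg with ⟨S, -, rfl⟩ | ⟨m, rfl⟩
    exacts [⟨_, xs_hom S⟩, ⟨_, lin_hom _⟩]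
  change par g ∈ Ic De β
  rw [par_hom hk, smul_eq_C_mul]
  exact Ideal.mul_mem_left _ _ h1

theorem mx_mx (a b : Po N) (ψ : Module.Dual ℝ (Po N)) : mx a (mx b ψ) = mx (b * a) ψ :=
  LinearMap.ext fun c => by simp [mul_assoc]

theorem mx_eq_zero {a : Po N} {ψ : Module.Dual ℝ (Po N)} : mx a ψ = 0 ↔ Ann ψ a :=
  ⟨fun h b => LinearMap.congr_fun h b, fun h => LinearMap.ext h⟩

theorem exists_rep (φ : Module.Dual ℝ (Po N)) : ∃ r : Module.Dual ℝ (Po N) →ₗ[ℝ] Po N,
    ∀ a, Ann φ (r (mx a φ) - a) := by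
  let f : Po N →ₗ[ℝ] Module.Dual ℝ (Po N) :=
    { toFun := fun a => mx a φ
      map_add' := fun a b => LinearMap.ext fun c => by simp [add_mul]
      map_smul' := fun c a => LinearMap.ext fun b => by simp }
  obtain ⟨g, hg⟩ := f.rangeRestrict.exists_rightInverse_of_surjective f.range_rangeRestrict
  obtain ⟨r, hr⟩ := LinearMap.exists_extend g
  refine ⟨r, fun a => mx_eq_zero.1 ?_⟩
  have h1 : r (f a) = g ⟨f a, a, rfl⟩ := LinearMap.congr_fun hr ⟨f a, a, rfl⟩
  have h2 : f (g ⟨f a, a, rfl⟩) = f a :=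
    congrArg Subtype.val (LinearMap.congr_fun hg ⟨f a, a, rfl⟩)
  change f (r (f a) - a) = 0
  rw [map_sub, h1, h2, sub_self]

/-- The pairing of two functionals on the star of a face. -/
def pr (φ : Module.Dual ℝ (Po N)) : Module.Dual ℝ (Po N) →ₗ[ℝ] Module.Dual ℝ (Po N) →ₗ[ℝ] ℝ :=
  (LinearMap.lcomp ℝ ℝ ((par (N := N)).toLinearMap ∘ₗ (exists_rep φ).choose))

theorem pr_eq (h : Dat De t d hh φ) {β : Finset N} (hβ : Fi De t β) {ψ : Module.Dual ℝ (Po N)}
    (hψ : ∀ a ∈ Ic De β, ψ a = 0) {a : Po N} {k : ℕ} (ha : a.IsHomogeneous k) :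
    pr (φ β) ψ (mx a (φ β)) = (-1) ^ k * ψ a := by
  have h1 := hψ _ (par_Ic ((h.pd β hβ _).1 ((exists_rep (φ β)).choose_spec a)))
  rw [map_sub, map_sub, sub_eq_zero, par_hom ha, map_smul] at h1
  exact h1

theorem rep (h : Dat De t d hh φ) {β : Finset N} (hβ : Fi De t β) {ψ : Module.Dual ℝ (Po N)}
    {s : ℕ} (hψ : ψ ∈ Md De β s) : ψ = 0 ∨ ∃ (k : ℕ) (a : Po N), s + k + β.card = d + 1 ∧
      a.IsHomogeneous k ∧ ψ = mx a (φ β) := by
  have hc := h.card_le β hβ.1
  by_cases hs : d + 1 - β.card < s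
  · rw [md_high (h.hom β hβ) (h.pd β hβ) hs] at hψ
    exact Or.inl hψ
  · obtain ⟨k, hk⟩ := Nat.exists_eq_add_of_le (not_lt.1 hs)
    obtain ⟨a, ha, e⟩ := md_rep h.fan (hk ▸ h.hom β hβ) (h.pd β hβ) hψ
    exact Or.inr ⟨k, a, by omega, ha, e⟩

theorem mx_mem (h : Dat De t d hh φ) {β : Finset N} (hβ : Fi De t β) {a : Po N} {s k : ℕ}
    (hs : s + k + β.card = d + 1) (ha : a.IsHomogeneous k) : mx a (φ β) ∈ Md De β s :=
  mx_Md ha ⟨fun b hb => by simpa using (h.pd β hβ b).2 hb 1,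
    (show d + 1 - β.card = s + k by omega) ▸ h.hom β hβ⟩

theorem eq_zero (h : Dat De t d hh φ) {β : Finset N} (hβ : Fi De t β) {ψ : Module.Dual ℝ (Po N)}
    {s : ℕ} (hψ : ψ ∈ Md De β s)
    (h0 : ∀ a : Po N, a.IsHomogeneous s → pr (φ β) ψ (mx a (φ β)) = 0) : ψ = 0 := by
  refine LinearMap.ext fun a => ?_
  rw [← sum_homogeneousComponent a, map_sum]
  refine Finset.sum_eq_zero fun k _ => ?_
  have hk := homogeneousComponent_isHomogeneous k a
  by_cases e : k = s
  · subst e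
    have := h0 _ hk
    rw [pr_eq h hβ hψ.1 hk] at this
    exact (mul_eq_zero.1 this).resolve_left (pow_ne_zero _ (by norm_num))
  · exact hψ.2 k e _ hk

theorem LE_pow (b : ℕ) (x : Ec N) (i : ℕ × Finset N) :
    (LE De hh ^ b : Module.End ℝ _) x i = mx (lin De hh ^ b) (x i) := by
  induction b with
  | zero => exact LinearMap.ext fun c => by simp
  | succ b ih => rw [pow_succ', Module.End.mul_apply, LE, co_apply, ← LE, ih, mx_mx, pow_succ]

theorem NE_pow (a : ℕ) (x : Ec N) (j : ℕ) (β : Finset N) :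
    (NE ^ a : Module.End ℝ _) x (j, β) = x (j + a, β) := by
  induction a generalizing j with
  | zero => rfl
  | succ a ih => rw [pow_succ', Module.End.mul_apply, NE_apply, ih]; congr 2; omega

theorem md_inj (h : Dat De t d hh φ) {β : Finset N} (hβ : Fi De t β) {ψ : Module.Dual ℝ (Po N)}
    {s b : ℕ} (hψ : ψ ∈ Md De β s) (hb : d + 1 + b = β.card + 2 * s)
    (h0 : mx (lin De hh ^ b) ψ = 0) : ψ = 0 := by
  rcases rep h hβ hψ with e | ⟨k, a, hk, ha, rfl⟩
  · exact e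
  rw [mx_mx, mul_comm, mx_eq_zero, show b = d + 1 - β.card - 2 * k by omega] at h0
  exact mx_eq_zero.2 ((h.hr β hβ).hl ha (by omega) h0)

theorem md_surj (h : Dat De t d hh φ) {β : Finset N} (hβ : Fi De t β) {ψ : Module.Dual ℝ (Po N)}
    {s b : ℕ} (hψ : ψ ∈ Md De β s) (hb : d + 1 = β.card + 2 * s + b) :
    ∃ ψ' ∈ Md De β (s + b), mx (lin De hh ^ b) ψ' = ψ := by
  have := Md_finite h.fan β s
  have := Md_finite h.fan β (s + b)
  have hl : (lin De hh ^ b).IsHomogeneous b := by simpa using (lin_hom hh).pow b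
  let T : Md De β (s + b) →ₗ[ℝ] Md De β s := (mx (lin De hh ^ b)).restrict fun _ h => mx_Md hl h
  have hT : Function.Injective T := (injective_iff_map_eq_zero _).2 fun x hx =>
    Subtype.ext (md_inj h hβ x.2 (by omega) (congrArg Subtype.val hx))
  let U : Md De β s →ₗ[ℝ] Module.Dual ℝ (Md De β (s + b)) :=
    (pr (φ β)).compl₁₂ (Md De β s).subtype (Md De β (s + b)).subtype
  have hU : Function.Injective U := (injective_iff_map_eq_zero _).2 fun x hx =>
    Subtype.ext (eq_zero h hβ x.2 fun a ha =>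
      LinearMap.congr_fun hx ⟨mx a (φ β), mx_mem h hβ (by omega) ha⟩)
  have h1 := LinearMap.finrank_le_finrank_of_injective hT
  have h2 := LinearMap.finrank_le_finrank_of_injective hU
  rw [Subspace.dual_finrank_eq] at h2
  obtain ⟨y, hy⟩ := (LinearMap.injective_iff_surjective_of_finrank_eq_finrank
    (le_antisymm h1 h2)).1 hT ⟨ψ, hψ⟩
  exact ⟨y, y.2, congrArg Subtype.val hy⟩

/-- The polarisation. -/
def Ps (De : Finset (Finset N)) (t : Module.Dual ℝ N) (d : ℕ)
    (φ : Finset N → Module.Dual ℝ (Po N)) : Ec N →ₗ[ℝ] Ec N →ₗ[ℝ] ℝ :=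
  Finsupp.lsum ℝ fun i => if Fi De t i.2 ∧ i.1 < i.2.card then
    ((-1 : ℝ) ^ (d + i.1)) • (pr (φ i.2)).compl₂ (Finsupp.lapply (i.2.card - 1 - i.1, i.2)) else 0

theorem Ps_single (j : ℕ) (β : Finset N) (ψ : Module.Dual ℝ (Po N)) (y : Ec N) :
    Ps De t d φ (Finsupp.single (j, β) ψ) y = if Fi De t β ∧ j < β.card then
      (-1) ^ (d + j) * pr (φ β) ψ (y (β.card - 1 - j, β)) else 0 := by
  rw [Ps, Finsupp.lsum_single]
  split_ifs <;> rfl

theorem Ps_ss (j j' : ℕ) (β β' : Finset N) (ψ ψ' : Module.Dual ℝ (Po N)) :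
    Ps De t d φ (Finsupp.single (j, β) ψ) (Finsupp.single (j', β') ψ') =
      if Fi De t β ∧ β' = β ∧ j + j' + 1 = β.card then (-1) ^ (d + j) * pr (φ β) ψ ψ' else 0 := by
  rw [Ps_single]
  by_cases c : Fi De t β ∧ β' = β ∧ j + j' + 1 = β.card
  · obtain ⟨c1, rfl, c2⟩ := c
    rw [if_pos ⟨c1, by omega⟩, if_pos ⟨c1, rfl, c2⟩, show β'.card - 1 - j = j' by omega,
      Finsupp.single_eq_same]
  · rw [if_neg c]
    split_ifs with c'
    · rw [Finsupp.single_eq_of_ne, map_zero, mul_zero]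
      intro e
      obtain ⟨e1, e2⟩ := Prod.mk.inj e
      exact c ⟨c'.1, e2.symm, by omega⟩
    · rfl

theorem Ps_right {j j' : ℕ} {β : Finset N} (hβ : Fi De t β) (hj : j + j' + 1 = β.card) (x : Ec N)
    (ψ' : Module.Dual ℝ (Po N)) : Ps De t d φ x (Finsupp.single (j', β) ψ') =
      (-1) ^ (d + j) * pr (φ β) (x (j, β)) ψ' := by
  induction x using Finsupp.induction_linear with
  | zero => simp
  | add x y hx hy => simp only [map_add, LinearMap.add_apply, Finsupp.add_apply, hx, hy, mul_add]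
  | single i ψ =>
    obtain ⟨i, γ⟩ := i
    rw [Ps_ss]
    split_ifs with c
    · obtain ⟨-, rfl, c⟩ := c
      rw [show i = j by omega, Finsupp.single_eq_same]
    · rw [Finsupp.single_eq_of_ne, map_zero, LinearMap.zero_apply, mul_zero]
      intro e
      obtain ⟨rfl, rfl⟩ := Prod.mk.inj e
      exact c ⟨hβ, rfl, hj⟩

/-- Two bilinear forms agree on `EA × EA` when they agree on single components. -/
theorem ext₂ (h : Dat De t d hh φ) {F G : Ec N →ₗ[ℝ] Ec N →ₗ[ℝ] ℝ} {a b a' b' : ℤ}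
    (H : ∀ (j : ℕ) (β : Finset N) (s : ℕ) (ψ : Module.Dual ℝ (Po N)) (j' : ℕ) (β' : Finset N)
      (s' k : ℕ) (c : Po N), Fi De t β → j < β.card → (β.card : ℤ) - 1 - 2 * j = a →
      (d : ℤ) + 1 - β.card - 2 * s = b → ψ ∈ Md De β s → Fi De t β' → j' < β'.card →
      (β'.card : ℤ) - 1 - 2 * j' = a' → (d : ℤ) + 1 - β'.card - 2 * s' = b' →
      s' + k + β'.card = d + 1 → c.IsHomogeneous k →
      F (Finsupp.single (j, β) ψ) (Finsupp.single (j', β') (mx c (φ β'))) =
        G (Finsupp.single (j, β) ψ) (Finsupp.single (j', β') (mx c (φ β'))))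
    {x y : Ec N} (hx : x ∈ EA De t d a b) (hy : y ∈ EA De t d a' b') : F x y = G x y := by
  rw [← sub_eq_zero, ← Submodule.mem_bot ℝ]
  refine map_mem_of_EA ((F - G).flip y) (fun j β s ψ h1 h2 h3 h4 h5 => ?_) hx
  refine map_mem_of_EA ((F - G) (Finsupp.single (j, β) ψ))
    (fun j' β' s' ψ' k1 k2 k3 k4 k5 => ?_) hy
  rcases rep h k1 k5 with rfl | ⟨k, c, hk, hc, rfl⟩
  · simp
  · exact (Submodule.mem_bot ℝ).2
      (sub_eq_zero.2 (H j β s ψ j' β' s' k c h1 h2 h3 h4 h5 k1 k2 k3 k4 hk hc))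

theorem skewN {j j' : ℕ} {β β' : Finset N} (ψ ψ' : Module.Dual ℝ (Po N)) (hj : j < β.card)
    (hj' : j' < β'.card) :
    Ps De t d φ (NE (Finsupp.single (j, β) ψ)) (Finsupp.single (j', β') ψ') =
      -Ps De t d φ (Finsupp.single (j, β) ψ) (NE (Finsupp.single (j', β') ψ')) := by
  cases j with
  | zero =>
    cases j' with
    | zero => simp [NE_single_zero]
    | succ j' =>
      rw [NE_single_zero, NE_single_succ, Ps_ss, if_neg]; · simp
      rintro ⟨-, rfl, c⟩; omega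
  | succ j =>
    cases j' with
    | zero =>
      rw [NE_single_zero, NE_single_succ, Ps_ss, if_neg]; · simp
      rintro ⟨-, rfl, c⟩; omega
    | succ j' =>
      rw [NE_single_succ, NE_single_succ, Ps_ss, Ps_ss,
        show j + 1 + j' + 1 = j + (j' + 1) + 1 by omega]
      split_ifs
      · rw [← add_assoc, pow_succ]; ring
      · simp

theorem fi_insert {β : Finset N} {z : N} (hβ : Fi De t β)
    (hz : z ∈ (fp t (vx De) \ β).filter (insert · β ∈ De)) : Fi De t (insert z β) ∧ z ∉ β := by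
  simp only [fp, Finset.mem_filter, Finset.mem_sdiff] at hz
  exact ⟨⟨hz.2, Finset.insert_nonempty _ _, fun v hv =>
    (Finset.mem_insert.1 hv).elim (fun e => e ▸ hz.1.1.2) (hβ.2.2 v)⟩, hz.1.2⟩

theorem mem_res {β : Finset N} {z : N} (hβ : Fi De t (insert z β)) (hz : z ∉ β) :
    z ∈ (fp t (vx De) \ β).filter (insert · β ∈ De) := by
  simp only [fp, vx, Finset.mem_filter, Finset.mem_sdiff, Finset.mem_biUnion, id]
  exact ⟨⟨⟨⟨_, hβ.1, Finset.mem_insert_self _ _⟩, hβ.2.2 z (Finset.mem_insert_self _ _)⟩, hz⟩, hβ.1⟩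

/-- A sum over restrictions and a sum over Gysin maps have at most one matching term. -/
theorem sum_match {β β' : Finset N} (hβ : Fi De t β) (hβ' : Fi De t β') (f g : N → ℝ)
    (hf : ∀ z, z ∉ β → β' ≠ insert z β → f z = 0) (hg : ∀ u ∈ β', β'.erase u ≠ β → g u = 0)
    (hfg : ∀ z, z ∉ β → β' = insert z β → f z = g z) :
    ∑ z ∈ (fp t (vx De) \ β).filter (insert · β ∈ De), f z = ∑ u ∈ β', g u := by
  by_cases c : ∃ z, z ∉ β ∧ β' = insert z β
  · obtain ⟨z, hz, rfl⟩ := c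
    rw [Finset.sum_eq_single_of_mem z (mem_res hβ' hz), Finset.sum_eq_single_of_mem z
      (Finset.mem_insert_self _ _), hfg z hz rfl]
    · intro u hu hne
      refine hg u hu fun e => hz (e ▸ Finset.mem_erase.2 ⟨hne.symm, Finset.mem_insert_self _ _⟩)
    · intro u hu hne
      refine hf u (fi_insert hβ hu).2 fun e => hz ?_
      exact (Finset.mem_insert.1 (e ▸ Finset.mem_insert_self z β)).resolve_left hne.symm
  · rw [Finset.sum_eq_zero fun z hz => hf z (fi_insert hβ hz).2 fun e =>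
      c ⟨z, (fi_insert hβ hz).2, e⟩, Finset.sum_eq_zero fun u hu => hg u hu fun e =>
      c ⟨u, e ▸ Finset.notMem_erase _ _, by rw [← e, Finset.insert_erase hu]⟩]

/-- The Gysin part of the differential. -/
def gy (j : ℕ) (β : Finset N) (ψ : Module.Dual ℝ (Po N)) : Ec N :=
  ∑ y ∈ β, (if j = 0 then 0 else sg (β.erase y) y) • Finsupp.single (j - 1, β.erase y) ψ

theorem dE_single (j : ℕ) (β : Finset N) (ψ : Module.Dual ℝ (Po N)) :
    dE De t (Finsupp.single (j, β) ψ) = ∑ x ∈ (fp t (vx De) \ β).filter (insert · β ∈ De),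
      (-sg β x) • Finsupp.single (j, insert x β) (mx (X x) ψ) + gy j β ψ := by
  cases j with
  | zero => simp [dE_single_zero, gy]
  | succ j => simp [dE_single_succ, gy]

theorem adjd (h : Dat De t d hh φ) {j j' s k : ℕ} {β β' : Finset N} {ψ : Module.Dual ℝ (Po N)}
    {c : Po N} (hβ : Fi De t β) (hj : j < β.card) (hψ : ψ ∈ Md De β s) (hβ' : Fi De t β')
    (hj' : j' < β'.card) (hc : c.IsHomogeneous k) :
    Ps De t d φ (dE De t (Finsupp.single (j, β) ψ)) (Finsupp.single (j', β') (mx c (φ β'))) =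
      Ps De t d φ (Finsupp.single (j, β) ψ) (dE De t (Finsupp.single (j', β') (mx c (φ β')))) := by
  rw [dE_single, dE_single, map_add, map_add, LinearMap.add_apply, add_comm (Ps De t d φ _ _)]
  simp only [gy, map_sum, map_smul, LinearMap.sum_apply, LinearMap.smul_apply, smul_eq_mul, Ps_ss]
  congr 1
  · refine (sum_match hβ' hβ _ _ (fun z _ hz => ?_) (fun u _ hu => ?_) fun z hz e => ?_).symm
    · rw [if_neg fun a => hz a.2.1.symm, mul_zero]
    · rw [if_neg (c := _ ∧ _) fun a => hu a.2.1.symm, mul_zero]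
    · subst e
      rw [Finset.erase_insert hz, Finset.card_insert_of_notMem hz]
      rw [Finset.card_insert_of_notMem hz] at hj
      cases j with
      | zero => rw [if_neg fun a => by omega]; simp
      | succ j =>
        rw [if_neg (Nat.succ_ne_zero j), Nat.add_sub_cancel]
        by_cases e : j + j' + 1 = β'.card
        · rw [if_pos ⟨hβ, rfl, by omega⟩, if_pos ⟨hβ', rfl, e⟩, mx_mx, mul_comm c, ← mx_mx,
            ← h.comp β' z hβ' hβ hz, pr_eq h hβ hψ.1 hc, pr_eq h hβ' (fun a ha =>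
              hψ.1 a (Ic_mono h.fan (Finset.subset_insert _ _) ha)) hc, ← add_assoc, pow_succ]
          ring
        · rw [if_neg fun a => e (by omega), if_neg fun a => e a.2.2]; simp
  · refine sum_match hβ hβ' _ _ (fun z _ hz => ?_) (fun u _ hu => ?_) fun z hz e => ?_
    · rw [if_neg fun a => hz a.2.1, mul_zero]
    · rw [if_neg (c := _ ∧ _) fun a => hu a.2.1, mul_zero]
    · subst e
      rw [Finset.erase_insert hz, Finset.card_insert_of_notMem hz]
      cases j' with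
      | zero => rw [if_neg fun a => by omega]; simp
      | succ j' =>
        rw [if_neg (Nat.succ_ne_zero j'), Nat.add_sub_cancel]
        by_cases e : j + j' + 1 = β.card
        · rw [if_pos ⟨hβ', rfl, by omega⟩, if_pos ⟨hβ, rfl, e⟩,
            pr_eq h hβ' (ψ := mx (X z) ψ) (fun a ha => hψ.1 _ (X_mul_Ic hz ha)) hc,
            h.comp β z hβ hβ' hz, mx_mx,
            pr_eq h hβ hψ.1 ((isHomogeneous_X ℝ z).mul hc), mx_apply, pow_add (-1 : ℝ) 1]
          ring
        · rw [if_neg fun a => e (by omega), if_neg fun a => e a.2.2]; simp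

theorem pos (h : Dat De t d hh φ) (a b : ℕ) {x : Ec N} (hx : x ∈ EA De t d (-a) (-b))
    (h1 : (NE ^ (a + 1) : Module.End ℝ _) x = 0) (h2 : (LE De hh ^ (b + 1) : Module.End ℝ _) x = 0)
    (h0 : x ≠ 0) :
    0 < Ps De t d φ x ((NE ^ a : Module.End ℝ _) ((LE De hh ^ b : Module.End ℝ _) x)) := by
  set y := (NE ^ a : Module.End ℝ _) ((LE De hh ^ b : Module.End ℝ _) x) with hy
  rw [← Finsupp.sum_single x, Finsupp.sum, map_sum, LinearMap.sum_apply]
  refine Finset.sum_pos (fun i hi => ?_) (Finsupp.support_nonempty_iff.2 h0)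
  obtain ⟨j, β⟩ := i
  have n0 := Finsupp.mem_support_iff.1 hi
  obtain ⟨hβ, hj, ha, s, hb, hψ⟩ := (EA_apply hx j β).resolve_left n0
  have ja : j = a := by
    by_contra c
    have := NE_pow (a + 1) x (j - (a + 1)) β
    rw [h1, show j - (a + 1) + (a + 1) = j by omega] at this
    exact n0 this.symm
  subst ja
  obtain ⟨k, c, hk, hc, e⟩ := (rep h hβ hψ).resolve_left n0
  have hl : (lin De hh ^ b).IsHomogeneous b := by simpa using (lin_hom hh).pow b
  have eb : d + 1 - β.card - 2 * k = b := by omega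
  have h3 := LE_pow (De := De) (hh := hh) (b + 1) x (j, β)
  rw [h2, e, mx_mx, mul_comm] at h3
  have h4 := h.hr β hβ k c hc (by omega) (eb ▸ mx_eq_zero.1 h3.symm)
    fun a => n0 (e.trans (mx_eq_zero.2 a))
  rw [Ps_single, if_pos ⟨hβ, hj⟩, hy, NE_pow, show β.card - 1 - j + j = j by omega, LE_pow,
    e, mx_mx, pr_eq h hβ (e ▸ hψ).1 (hc.mul hl), mx_apply, ← mul_assoc, ← pow_add,
    show d + j + (k + b) = 2 * (k + b + j) + k by omega, pow_add, pow_mul, ← mul_assoc c]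
  simpa [eb] using h4

end ES

open ES

theorem LE_inj (h : Dat De t d hh φ) (a : ℤ) (b : ℕ) {x : Ec N} (hx : x ∈ EA De t d a (-b))
    (h0 : (LE De hh ^ b : Module.End ℝ _) x = 0) : x = 0 := by
  refine Finsupp.ext fun ⟨j, β⟩ => ?_
  rcases EA_apply hx j β with e | ⟨hβ, -, -, s, hb, hψ⟩
  · exact e
  · exact md_inj h hβ hψ (b := b) (by omega) (by rw [← LE_pow, h0]; rfl)

theorem LE_surj (h : Dat De t d hh φ) (a : ℤ) (b : ℕ) {x : Ec N} (hx : x ∈ EA De t d a b) :
    ∃ y ∈ EA De t d a (-b), (LE De hh ^ b : Module.End ℝ _) y = x := by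
  refine map_mem_of_EA LinearMap.id
    (S := (EA De t d a (-b)).map (LE De hh ^ b : Module.End ℝ (Ec N)))
    (fun j β s ψ hβ hj ha hb hψ => ?_) hx
  obtain ⟨ψ', h1, rfl⟩ := md_surj h hβ hψ (b := b) (by omega)
  refine ⟨_, single_mem_EA hβ hj ha (by push_cast; omega) h1, Finsupp.ext fun i => ?_⟩
  rw [LE_pow, LinearMap.id_apply]
  by_cases e : i = (j, β)
  · simp [e]
  · simp [Finsupp.single_eq_of_ne e]

theorem exists_str (h : Dat De t d hh φ)
    (dd : ∀ a b, ∀ x ∈ EA De t d a b, dE De t (dE De t x) = 0) :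
    ∃ Ψ : Ec N →ₗ[ℝ] Ec N →ₗ[ℝ] ℝ, Str (EA De t d) NE (LE De hh) (dE De t) Ψ := by
  refine ⟨Ps De t d φ, fun _ _ _ => NE_EA, fun _ _ _ => LE_EA, fun _ _ _ => dE_EA h.fan,
    fun _ _ x _ => NE_LE x, fun _ _ x _ => dE_NE x, fun _ _ x _ => dE_LE x, dd,
    fun a b a' b' x hx y hy => ?_, fun a b a' b' x hx y hy => ?_, fun a b a' b' x hx y hy => ?_,
    fun a b a' b' x hx y hy c => ?_, fun a b x hx h0 => ?_, fun a b _ => NE_inj a b,
    fun a b _ => NE_surj a b, fun a b _ => LE_inj h a b, fun a b _ => LE_surj h a b,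
    fun a b _ => pos h a b⟩
  · exact ext₂ h (F := Ps De t d φ ∘ₗ NE) (G := -(Ps De t d φ).compl₂ NE)
      (fun j β s ψ j' β' s' k c _ h2 _ _ _ _ k2 _ _ _ _ => skewN _ _ h2 k2) hx hy
  · refine ext₂ h (F := Ps De t d φ ∘ₗ LE De hh) (G := -(Ps De t d φ).compl₂ (LE De hh))
      (fun j β s ψ j' β' s' k c h1 _ _ _ h5 _ _ _ _ _ hc => ?_) hx hy
    simp only [LinearMap.comp_apply, LinearMap.neg_apply, LinearMap.compl₂_apply, LE, co_single,
      Ps_ss]
    split_ifs with e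
    · rw [e.2.1, pr_eq h h1 (ψ := mx (lin De hh) ψ)
        (fun a ha => h5.1 _ (Ideal.mul_mem_left _ _ ha)) hc, mx_mx,
        pr_eq h h1 h5.1 (hc.mul (lin_hom hh)), mx_apply, mul_comm c, pow_succ]
      ring
    · simp
  · exact ext₂ h (F := Ps De t d φ ∘ₗ dE De t) (G := (Ps De t d φ).compl₂ (dE De t))
      (fun j β s ψ j' β' s' k c h1 h2 _ _ h5 k1 k2 _ _ _ hc => adjd h h1 h2 h5 k1 k2 hc) hx hy
  · refine ext₂ h (F := Ps De t d φ) (G := 0)
      (fun j β s ψ j' β' s' k c' h1 _ h3 h4 h5 _ _ k3 k4 hk hc => ?_) hx hy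
    rw [Ps_ss]
    split_ifs with e
    · obtain ⟨-, rfl, e⟩ := e
      rw [pr_eq h h1 h5.1 hc, h5.2 k (fun e' => c ⟨by omega, by omega⟩) _ hc]; simp
    · rfl
  · refine Finsupp.ext fun ⟨j, β⟩ => ?_
    rcases EA_apply hx j β with e | ⟨hβ, hj, ha, s, hb, hψ⟩
    · exact e
    rcases rep h hβ hψ with e | ⟨k, -, hk, -, -⟩
    · exact e
    refine eq_zero h hβ hψ fun c hc => ?_
    have := h0 _ (single_mem_EA (j := β.card - 1 - j) (s := k) hβ (by omega) (by omega) (by omega)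
      (mx_mem h hβ (by omega) hc))
    rw [Ps_right (j := j) hβ (by omega)] at this
    exact (mul_eq_zero.1 this).resolve_left (pow_ne_zero _ (by norm_num))

end K2
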