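import Pool.Agent.Lib.MP_e9c0f3_ag.K2.TConc
import Pool.Agent.Lib.MP_e9c0f3_ag.K2.EStr
import Pool.Agent.Lib.MP_e9c0f3_ag.K2.Aug

/-! Hard Lefschetz for the cubical complex of the special fibre. -/

open ExteriorAlgebra KH
open scoped Classical

noncomputable section

namespace K2

variable {N : Type} [AddCommGroup N] [Module ℝ N] {De : Finset (Finset N)} {t : Module.Dual ℝ N}
  {d : ℕ} {hh : N → ℝ} {φ : Finset N → Module.Dual ℝ (Po N)} {μ : Finset N → Module.Dual ℝ N}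

theorem khl_cast {a b a' b' : ℤ} {x : Ec N} (hx : x ∈ EA De t d a b) (ha : a = a') (hb : b = b') :
    x ∈ EA De t d a' b' := ha ▸ hb ▸ hx

/-- The first page as a family of complexes. -/
def khlE (h : Pre De t) (hμ : Loc De hh μ) (hc : ∀ s ∈ De, s.card ≤ d + 1) : Cx ℝ (Ec N) where
  C p q := EA De t d ((p : ℤ) - q) ((d : ℤ) - p - q)
  Z := ⊥
  D := dE De t
  L := LE De hh
  ZC _ _ := bot_le
  DZ := (concT h hμ hc 0).dZ
  DD p _ _ hx := (concT h hμ hc p).dd hx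
  DC p := (concT h hμ hc p).dE
  D0 p := (concT h hμ hc p).d0
  LZ x hx := by rw [(Submodule.mem_bot ℝ).1 hx, map_zero]; exact zero_mem _
  LC _ _ _ hx := khl_cast (LE_EA hx) (by push_cast; ring) (by push_cast; ring)
  DL := ⟨1, fun _ _ x _ => by rw [one_smul, dE_LE, sub_self]; exact zero_mem _⟩

theorem khl_Bd (h : Pre De t) (hμ : Loc De hh μ) (hc : ∀ s ∈ De, s.card ≤ d + 1) (p q : ℕ)
    {a b : ℤ} (ha : (p : ℤ) - q = a) (hb : (d : ℤ) - p - q = b) :
    ((khlE h hμ hc).row p).Bd q = (EA De t d (a - 1) (b - 1)).map (dE De t) := by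
  have e1 : a - 1 = (p : ℤ) - (q + 1 : ℕ) := by push_cast; omega
  have e2 : b - 1 = (d : ℤ) - p - (q + 1 : ℕ) := by push_cast; omega
  rw [e1, e2]
  exact sup_bot_eq _

theorem khl_E (h : Dat De t d hh φ) (hμ : Loc De hh μ) : (khlE h.toPre hμ h.card_le).HL d := by
  obtain ⟨Ψ, S⟩ := exists_str h fun a b x hx => by
    by_cases h0 : x = 0
    · rw [h0, map_zero, map_zero]
    obtain ⟨p, q, rfl, rfl⟩ := EA_deg hx h0
    exact (Submodule.mem_bot ℝ).1 ((concT h.toPre hμ h.card_le p).dd hx)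
  have := EA_finite (t := t) (d := d) h.fan
  intro p q j hd
  have a1 : ((p + j : ℕ) : ℤ) - (q + j : ℕ) = (p : ℤ) - q := by push_cast; ring
  have b1 : (d : ℤ) - (p + j : ℕ) - (q + j : ℕ) = -(j : ℤ) := by push_cast; omega
  have b2 : (d : ℤ) - p - q = (j : ℤ) := by omega
  rw [khl_Bd h.toPre hμ h.card_le p q rfl b2, khl_Bd h.toPre hμ h.card_le (p + j) (q + j) a1 b1]
  refine ⟨fun z hz hb => S.inj _ j z (khl_cast hz.1 a1 b1) ((Submodule.mem_bot ℝ).1 hz.2) hb,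
    fun z hz => ?_⟩
  obtain ⟨x, hx, dx, e⟩ := S.surj _ j z (khl_cast hz.1 rfl b2) ((Submodule.mem_bot ℝ).1 hz.2)
  exact ⟨x, ⟨khl_cast hx a1.symm b1.symm, (Submodule.mem_bot ℝ).2 dx⟩, e⟩

theorem k_HL (h : Dat De t d hh φ) (hμ : Loc De hh μ) : (cxK h.toPre hμ).HL d :=
  (aug_HL h.toPre hμ d).1 ((Cx.HL_of_conc (cxT h.toPre hμ) (khlE h.toPre hμ h.card_le) (WT De t)
    (iE De) (concT h.toPre hμ h.card_le)
    (fun _ _ _ x hx => mem_Pw.2 fun j => LK_VV h.fan hμ (mem_Pw.1 hx.2 j))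
    (fun p q _ hw => t_L h.toPre hμ d p q (khl_cast hw (by push_cast; ring) (by push_cast; ring)))
    d).2 (khl_E h hμ))

end K2
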