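import Pool.Agent.Lib.MP_e9c0f3_ag.K2.BM

/-! Local vanishing for the cubical complex of the special fibre. -/

open ExteriorAlgebra KH
open scoped Classical

noncomputable section

namespace K2

variable {N : Type} [AddCommGroup N] [Module ℝ N] {De : Finset (Finset N)} {t : Module.Dual ℝ N}
  {d : ℕ} {hh : N → ℝ} {φ : Finset N → Module.Dual ℝ (Po N)} {μ : Finset N → Module.Dual ℝ N}

/-- Cubes whose bottom face has a vertex at height one other than `y`. -/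
def KB (t : Module.Dual ℝ N) (y : N) : Submodule ℝ (Kc N) :=
  Pw fun i => if fp t i.1 = {y} then ⊥ else ⊤

theorem kl_top {P : Prop} [Decidable P] {A : Submodule ℝ (Om N)} {w : Om N} :
    w ∈ (if P then A else ⊤) ↔ (P → w ∈ A) := by
  split_ifs with h <;> simp [h]

theorem kl_bot {P : Prop} [Decidable P] {A : Submodule ℝ (Om N)} {w : Om N} :
    w ∈ (if P then A else ⊥) ↔ w ∈ A ∧ (¬P → w = 0) := by
  split_ifs with h
  · simp [h]
  · simpa [h] using fun e => e ▸ zero_mem A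

theorem kl_bd {G H : Ix N → Submodule ℝ (Om N)}
    (h : ∀ γ η, ∀ x ∈ η \ γ, ∀ w ∈ G (γ, η),
      cx x w ∈ H (γ, η.erase x) ∧ cx x w ∈ H (insert x γ, η))
    {z : Kc N} (hz : z ∈ Pw G) : bd z ∈ Pw H :=
  map_mem_of_Pw bd (fun ⟨γ, η⟩ w hw => by
    rw [bd_single]
    exact Submodule.sum_mem _ fun x hx =>
      sub_mem (single_mem_Pw (h γ η x hx w hw).1) (single_mem_Pw (h γ η x hx w hw).2)) hz

theorem kl_bd_co {f : Om N →ₗ[ℝ] Om N} (hf : ∀ x w, cx x (f w) = f (cx x w)) (z : Kc N) :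
    bd (co f z) = co f (bd z) := by
  induction z using Finsupp.induction_linear with
  | zero => simp
  | add a b ha hb => simp only [map_add, ha, hb]
  | single i w =>
    obtain ⟨γ, η⟩ := i
    simp only [co_single, bd_single, map_sum, map_sub, hf]

theorem kl_mem {p q : ℕ} {c : Kc N} : c ∈ Cub De t p q ⊓ LinearMap.ker (co (kx t)) ↔
    ∀ i, c i ∈ (if Ok De t i ∧ (i.2 \ i.1).card = q then Co De i.2 (i.2 \ i.1) p else ⊥) ∧
      kx t (c i) = 0 := by
  simp only [Submodule.mem_inf, Cub, mem_Pw, LinearMap.mem_ker, Finsupp.ext_iff, co_apply,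
    forall_and, Finsupp.coe_zero, Pi.zero_apply]

theorem kl_zero {p q : ℕ} {x : Kc N} (hx : x ∈ KC De t p q) {i : Ix N} (hi : ¬Ok De t i) :
    x i = 0 := by
  obtain ⟨c, hc, z, hz, rfl⟩ := Submodule.mem_sup.1 hx
  have h1 := (kl_mem.1 hc i).1
  have h2 := mem_Pw.1 hz i
  rw [if_neg fun h => hi h.1, Submodule.mem_bot] at h1
  rw [if_neg hi, Submodule.mem_bot] at h2
  rw [Finsupp.add_apply, h1, h2, add_zero]

theorem kl_ZK {z : Kc N} (hz : z ∈ ZK De t) (i : Ix N) : z i ∈ Jd (ip t i.1) := by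
  have h := mem_Pw.1 hz i
  split_ifs at h
  · exact h
  · rw [(Submodule.mem_bot ℝ).1 h]; exact zero_mem _

theorem kl_bd_KC (h : Fn De) {p q : ℕ} {x : Kc N} (hx : x ∈ KC De t p (q + 1)) :
    bd x ∈ KC De t p q := by
  obtain ⟨c, hc, z, hz, rfl⟩ := Submodule.mem_sup.1 hx
  rw [map_add]
  refine Submodule.add_mem_sup ⟨bd_Cub h hc.1, ?_⟩ (bd_ZK h hz)
  have := bd_kx t c
  rw [LinearMap.mem_ker.1 hc.2, map_zero] at this
  exact neg_eq_zero.1 this.symm

theorem kl_fp {γ : Finset N} {v : N} : v ∈ fp t γ ↔ v ∈ γ ∧ t v = 1 := Finset.mem_filter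

theorem kl_ip {γ : Finset N} {v : N} : v ∈ ip t γ ↔ v ∈ γ ∧ t v ≠ 1 := Finset.mem_filter

theorem kl_step (h : Pre De t) {A γ : Finset N} {y : N} (hD : γ ∈ De) (hγ : fp t γ = {y})
    {p q : ℕ} (hq : q < p) {x : Kc N} (hx : x ∈ KC De t p q) (hb : bd x ∈ BN (A ∪ γ) γ (ip t γ))
    (hl : ∀ γ' η, γ' ⊂ γ → A ∪ γ ⊆ η → x (γ', η) ∈ Jd (ip t γ)) :
    ∃ u ∈ KC De t p (q + 1), (∀ i : Ix N, i.1 ≠ γ → u i = 0) ∧
      x - bd u ∈ BN (A ∪ γ) γ (ip t γ) := by
  obtain ⟨c, hc, z, hz, rfl⟩ := Submodule.mem_sup.1 hx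
  have hy : y ∈ γ ∧ t y = 1 := kl_fp.1 (hγ ▸ Finset.mem_singleton_self y)
  have hv : ∀ v ∈ γ, t v = 1 → v = y := fun v h1 h2 =>
    Finset.mem_singleton.1 (hγ ▸ kl_fp.2 ⟨h1, h2⟩)
  have he : γ.erase y = ip t γ := by
    ext v
    rw [Finset.mem_erase, kl_ip]
    exact ⟨fun a => ⟨a.2, fun b => a.1 (hv v a.2 b)⟩, fun a => ⟨fun b => a.2 (b ▸ hy.2), a.1⟩⟩
  set c1 : Kc N := c.filter fun i => i.1 = γ ∧ A ∪ γ ⊆ i.2 with hc1
  have m1 : c1 ∈ BC De (A ∪ γ) γ p q := mem_Pw.2 fun ⟨γ', η⟩ => by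
    rw [hc1, Finsupp.filter_apply]
    by_cases h1 : γ' = γ ∧ A ∪ γ ⊆ η
    · rw [if_pos h1]
      obtain ⟨rfl, h1⟩ := h1
      have := kl_bot.1 (kl_mem.1 hc (γ', η)).1
      exact kl_bot.2 ⟨this.1, fun h2 => this.2 fun a => h2 ⟨rfl, h1, a.1.2.1, a.2⟩⟩
    · rw [if_neg h1]; exact zero_mem _
  have m2 : c + z - c1 ∈ Pw fun i : Ix N =>
      if i.1 ⊆ γ ∧ A ∪ γ ⊆ i.2 then Jd (ip t γ) else ⊤ := mem_Pw.2 fun ⟨γ', η⟩ => kl_top.2 fun h1 => by
    rw [Finsupp.sub_apply, hc1, Finsupp.filter_apply]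
    rcases h1.1.eq_or_ssubset with rfl | h2
    · rw [if_pos ⟨rfl, h1.2⟩, Finsupp.add_apply, add_sub_cancel_left]
      exact kl_ZK hz _
    · rw [if_neg fun a => h2.ne a.1, sub_zero]
      exact hl _ _ h2 h1.2
  have m3 : bd (c + z - c1) ∈ BN (A ∪ γ) γ (ip t γ) :=
    kl_bd (fun γ' η v _ w hw =>
      ⟨kl_top.2 fun a => cx_Vp v (kl_top.1 hw ⟨a.1.subset, a.2.trans (η.erase_subset v)⟩),
        kl_top.2 fun a => cx_Vp v (kl_top.1 hw
          ⟨(Finset.subset_insert v γ').trans a.1.subset, a.2⟩)⟩) m2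
  have m4 : bd c1 ∈ BN (A ∪ γ) γ γ := by
    have := sub_mem hb m3
    rw [map_sub, sub_sub_cancel] at this
    exact mem_Pw.2 fun i => kl_top.2 fun a =>
      Vp_mono (Finset.filter_subset _ _) 1 (kl_top.1 (mem_Pw.1 this i) a)
  obtain ⟨u, hu, h1⟩ := mem_map_sup.1 (bm_shift h.fan
    (fun β hβ a => h.res β hβ ⟨y, kl_fp.2 ⟨a (Finset.mem_union_right _ hy.1), hy.2⟩⟩)
    Finset.subset_union_right Finset.subset_union_right (by omega) m1 m4)
  let Q : Om N →ₗ[ℝ] Om N := kx t ∘ₗ LinearMap.mulLeft ℝ (ev y)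
  have hQ : ∀ w, Q w = kx t (ev y * w) := fun _ => rfl
  refine ⟨co Q u, Submodule.mem_sup_left (kl_mem.2 fun ⟨γ', η⟩ => ?_), fun i hi => ?_, ?_⟩
  · rw [co_apply, hQ]
    refine ⟨?_, kx_kx _ _⟩
    have := mem_Pw.1 hu (γ', η)
    split_ifs at this with h2
    · obtain ⟨rfl, h3, h4, h5⟩ := h2
      have h6 : γ' ⊆ η := Finset.subset_union_right.trans h3
      rw [if_pos ⟨⟨h6, h4, y, kl_fp.2 hy⟩, h5⟩]
      exact kx_Co _ (ev_Co (h6 hy.1) this)
    · rw [(Submodule.mem_bot ℝ).1 this, mul_zero, map_zero]; exact zero_mem _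
  · have := mem_Pw.1 hu i
    rw [if_neg fun a => hi a.1, Submodule.mem_bot] at this
    rw [co_apply, this, map_zero]
  · have e1 : co Q c1 = c1 := by
      ext i
      rw [co_apply, hQ, kx_ev_mul, hy.2, one_smul, hc1, Finsupp.filter_apply]
      split_ifs
      · rw [(kl_mem.1 hc i).2, mul_zero, sub_zero]
      · rw [map_zero, mul_zero, sub_zero]
    have e2 : c + z - bd (co Q u) = (c + z - c1) + co Q (c1 - bd u) := by
      rw [kl_bd_co fun v w => by rw [hQ, hQ, cx_kx, cx_ev_mul, map_neg, neg_neg], map_sub (co Q), e1]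
      abel
    rw [e2]
    refine add_mem (mem_Pw.2 fun i => kl_top.2 fun a => kl_top.1 (mem_Pw.1 m2 i) ⟨a.1.subset, a.2⟩)
      (mem_Pw.2 fun i => kl_top.2 fun a => ?_)
    rw [co_apply, hQ, ← he]
    exact proj_Jd hy.2 (fun v h2 h3 => (h.t01 γ hD v h2).resolve_right fun b => h3 (hv v h2 b))
      (kl_top.1 (mem_Pw.1 h1 i) a)

/-- Vanishing on the cubes whose bottom face has `y` as its only vertex at height one. -/
theorem q_van (h : Pre De t) {A : Finset N} (hA : ∀ v ∈ A, t v = 1) {y : N} (hy : y ∈ A)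
    {p q : ℕ} (hq : q < p) {x : Kc N} (hx : x ∈ KC De t p q)
    (hb : bd x ∈ ZK De t ⊔ KA A ⊔ KB t y) :
    x ∈ (KC De t p (q + 1)).map bd ⊔ (ZK De t ⊔ KA A ⊔ KB t y) := by
  have key : ∀ s : Finset (Finset N), (∀ γ ∈ s, γ ∈ De ∧ fp t γ = {y}) →
      (∀ γ ∈ s, ∀ γ' ⊆ γ, y ∈ γ' → γ' ∈ s) →
      ∃ u ∈ KC De t p (q + 1), ∀ γ ∈ s, x - bd u ∈ BN (A ∪ γ) γ (ip t γ) := by
    intro s
    induction s using Finset.induction_on_max_value (Finset.card : Finset N → ℕ) with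
    | empty => exact fun _ _ => ⟨0, zero_mem _, by simp⟩
    | insert a s ha hm ih =>
      intro h1 h2
      obtain ⟨u, hu, hW⟩ := ih (fun γ hγ => h1 γ (Finset.mem_insert_of_mem hγ)) fun γ hγ γ' a1 a2 =>
        (Finset.mem_insert.1 (h2 γ (Finset.mem_insert_of_mem hγ) γ' a1 a2)).elim
          (fun e => by rwa [Finset.eq_of_subset_of_card_le a1 (e ▸ hm γ hγ)]) id
      have hx' := sub_mem hx (kl_bd_KC h.fan hu)
      obtain ⟨a1, a2⟩ := h1 a (Finset.mem_insert_self a s)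
      obtain ⟨u', hu', h3, h4⟩ := kl_step h (A := A) a1 a2 hq hx' (by
        rw [map_sub, bd_bd, sub_zero]
        refine (sup_le (sup_le ?_ ?_) ?_ : _ ≤ BN (A ∪ a) a (ip t a)) hb <;>
          refine fun z hz => mem_Pw.2 fun i => kl_top.2 fun b => ?_
        · exact b.1 ▸ kl_ZK hz i
        · rw [(Submodule.mem_bot ℝ).1 (kl_top.1 (mem_Pw.1 hz i)
            (Finset.subset_union_left.trans b.2))]
          exact zero_mem _
        · rw [(Submodule.mem_bot ℝ).1 (kl_top.1 (mem_Pw.1 hz i) (b.1 ▸ a2))]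
          exact zero_mem _) fun γ' η b1 b2 => by
        by_cases b3 : y ∈ γ'
        · have b4 := (Finset.mem_insert.1 (h2 a (Finset.mem_insert_self a s) γ' b1.1 b3)).resolve_left
            b1.ne
          exact Vp_mono (Finset.filter_subset_filter _ b1.1) 1 (kl_top.1 (mem_Pw.1 (hW γ' b4) (γ', η))
            ⟨rfl, (Finset.union_subset_union_right b1.1).trans b2⟩)
        · rw [kl_zero hx' fun ⟨_, _, v, b4⟩ => b3 (by
            have b5 : v ∈ fp t a := Finset.filter_subset_filter _ b1.1 b4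
            rw [a2, Finset.mem_singleton] at b5
            exact b5 ▸ (kl_fp.1 b4).1)]
          exact zero_mem _
      refine ⟨u + u', add_mem hu hu', fun γ hγ => ?_⟩
      rw [map_add, ← sub_sub]
      rcases Finset.mem_insert.1 hγ with rfl | hγ
      · exact h4
      refine sub_mem (hW γ hγ) (kl_bd (G := fun i => if i.1 ≠ a then ⊥ else ⊤)
        (fun γ' η v hv w hw => ?_) (mem_Pw.2 fun i => kl_top.2 (h3 i)))
      by_cases e : γ' = a
      · refine ⟨kl_top.2 fun b => absurd ((e.symm.trans b.1).symm ▸ hγ) ha, kl_top.2 fun b => ?_⟩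
        have b1 := hm γ hγ
        rw [← show insert v γ' = γ from b.1, Finset.card_insert_of_notMem (Finset.mem_sdiff.1 hv).2,
          e] at b1
        omega
      · rw [(Submodule.mem_bot ℝ).1 (kl_top.1 hw e), map_zero]
        exact ⟨zero_mem _, zero_mem _⟩
  obtain ⟨u, hu, hW⟩ := key (De.filter (fp t · = {y})) (fun γ hγ => Finset.mem_filter.1 hγ)
    fun γ hγ γ' a1 a2 => by
      obtain ⟨b1, b2⟩ := Finset.mem_filter.1 hγ
      exact Finset.mem_filter.2 ⟨h.fan.down γ b1 γ' a1, Finset.Subset.antisymm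
        (b2 ▸ Finset.filter_subset_filter _ a1)
        (Finset.singleton_subset_iff.2 (kl_fp.2 ⟨a2, hA y hy⟩))⟩
  refine mem_map_sup.2 ⟨u, hu, ?_⟩
  have hx' := sub_mem hx (kl_bd_KC h.fan hu)
  rw [ZK, KA, KB, ← Pw_sup, ← Pw_sup]
  refine mem_Pw.2 fun i => ?_
  by_cases a1 : Ok De t i
  swap
  · rw [kl_zero hx' a1]; exact zero_mem _
  by_cases a2 : A ⊆ i.2
  swap
  · exact Submodule.mem_sup_left (Submodule.mem_sup_right (kl_top.2 fun b => absurd b a2))
  by_cases a3 : fp t i.1 = {y}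
  swap
  · exact Submodule.mem_sup_right (kl_top.2 fun b => absurd b a3)
  refine Submodule.mem_sup_left (Submodule.mem_sup_left ?_)
  rw [if_pos a1]
  exact kl_top.1 (mem_Pw.1 (hW i.1 (Finset.mem_filter.2 ⟨h.fan.down _ a1.2.1 _ a1.1, a3⟩)) i)
    ⟨rfl, Finset.union_subset a2 a1.1⟩

/-- The contraction in the direction of `y`. -/
def klH (y : N) : Kc N →ₗ[ℝ] Kc N :=
  Finsupp.lsum ℝ fun i => if y ∈ i.1 then
    -(Finsupp.lsingle (i.1.erase y, i.2) ∘ₗ LinearMap.mulLeft ℝ (ep y)) else 0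

theorem klH_single (y : N) (γ η : Finset N) (w : Om N) : klH y (Finsupp.single (γ, η) w) =
    if y ∈ γ then -Finsupp.single (γ.erase y, η) (ep y * w) else 0 := by
  rw [klH, Finsupp.lsum_single]
  split_ifs <;> rfl

theorem kl_htpy {y : N} {γ η : Finset N} (hη : y ∈ η) {w : Om N} (h1 : y ∈ γ → cx y w = 0)
    (h2 : y ∉ γ → ep y * cx y w = w) :
    Finsupp.single (γ, η) w - bd (klH y (Finsupp.single (γ, η) w)) -
      klH y (bd (Finsupp.single (γ, η) w)) =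
      if y ∈ γ then Finsupp.single (γ.erase y, η.erase y) w else 0 := by
  rw [bd_single, map_sum]
  simp only [map_sub, klH_single]
  split_ifs with h
  · have e : η \ γ.erase y = insert y (η \ γ) := by
      ext v
      simp only [Finset.mem_sdiff, Finset.mem_erase, Finset.mem_insert]
      by_cases a : v = y <;> simp [a, hη]
    rw [map_neg, bd_single, e, Finset.sum_insert (by simp [h]), cx_ep_mul, if_pos rfl, h1 h, mul_zero,
      sub_zero, Finset.insert_erase h, sub_neg_eq_add, ← add_assoc, add_sub_cancel, add_sub_assoc,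
      ← Finset.sum_sub_distrib, Finset.sum_eq_zero, add_zero]
    intro v hv
    have a : v ≠ y := fun a => (Finset.mem_sdiff.1 hv).2 (a ▸ h)
    rw [cx_ep_mul, if_neg a, zero_sub, if_pos (Finset.mem_insert_of_mem h),
      Finset.erase_insert_of_ne a, Finsupp.single_neg, Finsupp.single_neg, sub_self]
  · rw [map_zero, sub_zero, Finset.sum_eq_single_of_mem y (Finset.mem_sdiff.2 ⟨hη, h⟩),
      if_pos (Finset.mem_insert_self y γ), Finset.erase_insert h, h2 h, zero_sub, neg_neg, sub_self]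
    intro v _ a
    rw [if_neg (by simp [h, a.symm]), sub_self]

theorem k_loc (h : Pre De t) {A : Finset N} (hA : ∀ v ∈ A, t v = 1) (h0 : A.Nonempty) {p q : ℕ}
    (hq : q < p) : (cxKA h A p).Cy q ≤ (cxKA h A p).Bd q := by
  obtain ⟨y, hy⟩ := h0
  intro x hx
  obtain ⟨x1, h1, a, ha, rfl⟩ := Submodule.mem_sup.1 (show x ∈ KC De t p q ⊔ KA A from hx.1)
  have hb : bd x1 ∈ ZK De t ⊔ KA A := by
    have := sub_mem (show bd (x1 + a) ∈ ZK De t ⊔ KA A from hx.2)
      (Submodule.mem_sup_right (bd_KA ha))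
    rwa [map_add, add_sub_cancel_right] at this
  obtain ⟨u, hu, h2⟩ := mem_map_sup.1 (q_van h hA hy hq h1 (Submodule.mem_sup_left hb))
  obtain ⟨c, hc, z, hz, e⟩ := Submodule.mem_sup.1 (sub_mem h1 (kl_bd_KC h.fan hu))
  set c1 : Kc N := c.filter fun i => fp t i.1 ≠ {y} ∧ A ⊆ i.2 with hc1
  have m1 : c1 ∈ Pw fun i : Ix N =>
      if Ok De t i ∧ (i.2 \ i.1).card = q ∧ ¬fp t i.1 ⊆ {y} ∧ A ⊆ i.2 then
        Co De i.2 (i.2 \ i.1) p ⊓ LinearMap.ker (kx t) else ⊥ := mem_Pw.2 fun i => by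
    rw [hc1, Finsupp.filter_apply]
    obtain ⟨a1, a2⟩ := kl_mem.1 hc i
    by_cases b : fp t i.1 ≠ {y} ∧ A ⊆ i.2
    · rw [if_pos b]
      exact kl_bot.2 ⟨⟨(kl_bot.1 a1).1, a2⟩, fun b1 => (kl_bot.1 a1).2 fun b2 =>
        b1 ⟨b2.1, b2.2, fun b3 => b.1 (b2.1.2.2.subset_singleton_iff.1 b3), b.2⟩⟩
    · rw [if_neg b]; exact zero_mem _
  have h3 : x1 - bd u - c1 ∈ ZK De t ⊔ KA A := by
    rw [ZK, KA, KB, ← Pw_sup, ← Pw_sup] at h2
    rw [ZK, KA, ← Pw_sup]
    refine mem_Pw.2 fun i => ?_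
    rw [Finsupp.sub_apply, hc1, Finsupp.filter_apply]
    by_cases a2 : A ⊆ i.2
    swap
    · exact Submodule.mem_sup_right (kl_top.2 fun b => absurd b a2)
    by_cases a3 : fp t i.1 = {y}
    · have := mem_Pw.1 h2 i
      rw [if_pos a3, sup_bot_eq] at this
      rwa [if_neg fun b : fp t i.1 ≠ {y} ∧ A ⊆ i.2 => b.1 a3, sub_zero]
    · rw [if_pos (⟨a3, a2⟩ : fp t i.1 ≠ {y} ∧ A ⊆ i.2), ← e, Finsupp.add_apply, add_sub_cancel_left]
      exact Submodule.mem_sup_left (mem_Pw.1 hz i)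
  have h4 : bd c1 ∈ ZK De t ⊔ KA A := by
    have := sub_mem hb ((cxKA h A p).DZ _ h3)
    change bd x1 - bd (x1 - bd u - c1) ∈ ZK De t ⊔ KA A at this
    rwa [map_sub, map_sub, bd_bd, sub_zero, sub_sub_cancel] at this
  have h5 : c1 - bd (klH y c1) - klH y (bd c1) ∈ KA A :=
    map_mem_of_Pw (LinearMap.id - bd ∘ₗ klH y - klH y ∘ₗ bd) (fun ⟨γ, η⟩ w hw => by
      split_ifs at hw with b
      · change Finsupp.single (γ, η) w - bd (klH y _) - klH y (bd _) ∈ _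
        rw [kl_htpy (b.2.2.2 hy) (fun b1 => cx_Co_not (fun b2 => (Finset.mem_sdiff.1 b2).2 b1) hw.1)
          fun b1 => ep_cx_Co (Finset.mem_sdiff.2 ⟨b.2.2.2 hy, b1⟩) hw.1]
        split_ifs
        · exact single_mem_Pw (kl_top.2 fun b1 => absurd (b1 hy) (η.notMem_erase y))
        · exact zero_mem _
      · rw [(Submodule.mem_bot ℝ).1 hw, Finsupp.single_zero, map_zero]; exact zero_mem _) m1
  have ok : ∀ γ η, Ok De t (γ, η) → ¬fp t γ ⊆ {y} → Ok De t (γ.erase y, η) := by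
    intro γ η b1 b2
    obtain ⟨v, b3, b4⟩ := Finset.not_subset.1 b2
    exact ⟨(γ.erase_subset y).trans b1.1, b1.2.1, v, kl_fp.2
      ⟨Finset.mem_erase.2 ⟨by simpa using b4, (kl_fp.1 b3).1⟩, (kl_fp.1 b3).2⟩⟩
  have h6 : klH y (bd c1) ∈ ZK De t ⊔ KA A := by
    have m2 : bd c1 ∈ Pw fun i : Ix N => if fp t i.1 ⊆ {y} then (⊥ : Submodule ℝ (Om N)) else ⊤ := by
      refine kl_bd (fun γ η v _ w hw => ?_) m1
      split_ifs at hw with b
      · exact ⟨kl_top.2 fun b1 => absurd b1 b.2.2.1, kl_top.2 fun b1 =>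
          absurd ((Finset.filter_subset_filter _ (γ.subset_insert v)).trans b1) b.2.2.1⟩
      · rw [(Submodule.mem_bot ℝ).1 hw, map_zero]; exact ⟨zero_mem _, zero_mem _⟩
    rw [ZK, KA, ← Pw_sup] at h4 ⊢
    have m3 := Submodule.mem_inf.2 ⟨h4, m2⟩
    rw [← Pw_inf] at m3
    refine map_mem_of_Pw (klH y) (fun ⟨γ, η⟩ w hw => ?_) m3
    rw [klH_single]
    split_ifs with b
    swap
    · exact zero_mem _
    refine neg_mem (single_mem_Pw ?_)
    by_cases b1 : A ⊆ η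
    swap
    · exact Submodule.mem_sup_right (kl_top.2 fun b2 => absurd b2 b1)
    by_cases b2 : fp t γ ⊆ {y}
    · rw [(Submodule.mem_bot ℝ).1 (kl_top.1 hw.2 b2), mul_zero]; exact zero_mem _
    have b3 := hw.1
    rw [if_pos b1, sup_bot_eq] at b3
    split_ifs at b3 with b4
    · refine Submodule.mem_sup_left ?_
      rw [if_pos (ok γ η b4 b2)]
      refine mul_mem_Vp _ (Vp_mono (fun v hv => ?_) 1 b3)
      rw [kl_ip] at hv ⊢
      exact ⟨Finset.mem_erase.2 ⟨fun b5 => hv.2 (b5 ▸ hA y hy), hv.1⟩, hv.2⟩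
    · rw [(Submodule.mem_bot ℝ).1 b3, mul_zero]; exact zero_mem _
  have h7 : klH y c1 ∈ Cub De t p (q + 1) ⊓ LinearMap.ker (co (kx t)) := by
    refine map_mem_of_Pw (klH y) (fun ⟨γ, η⟩ w hw => ?_) m1
    split_ifs at hw with b
    swap
    · rw [(Submodule.mem_bot ℝ).1 hw, Finsupp.single_zero, map_zero]; exact zero_mem _
    rw [klH_single]
    split_ifs with b1
    swap
    · exact zero_mem _
    have e : η \ γ.erase y = insert y (η \ γ) := by
      ext v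
      simp only [Finset.mem_sdiff, Finset.mem_erase, Finset.mem_insert]
      by_cases a : v = y <;> simp [a, b.2.2.2 hy]
    have b2 : y ∉ η \ γ := fun b2 => (Finset.mem_sdiff.1 b2).2 b1
    refine neg_mem ⟨single_mem_Pw ?_, LinearMap.mem_ker.2 ?_⟩
    · rw [if_pos ⟨ok γ η b.1 b.2.2.1, by rw [e, Finset.card_insert_of_notMem b2, b.2.1]⟩, e]
      exact ep_Co b2 hw.1
    · rw [co_single, kx_ep_mul, LinearMap.mem_ker.1 hw.2, mul_zero, neg_zero,
        Finsupp.single_zero]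
  refine Cx1.mem_Bd.2 ⟨u + klH y c1, Submodule.mem_sup_left (add_mem hu (Submodule.mem_sup_left h7)),
    mem_of_eq (add_mem (add_mem (add_mem h3 (Submodule.mem_sup_right h5)) h6)
      (Submodule.mem_sup_right ha)) ?_⟩
  change x1 + a - bd (u + klH y c1) = _
  rw [map_add]
  abel

end K2
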