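import Pool.Agent.Lib.MP_e9c0f3_ag.K2.RQI

/-! The collapse and the Lefschetz operators. -/

open ExteriorAlgebra H5T Matrix KH
open scoped Classical

noncomputable section

namespace K2

variable {n : ℕ} {X : TropCx n} {r : Kc (Nn n) →ₗ[ℝ] Fc n} {hh : Nn n → ℝ}
  {μ : Finset (Nn n) → Module.Dual ℝ (Nn n)} {m : Set (Pt n) → Fin n → ℚ} {h : (Fin n → ℚ) → ℚ}

theorem rl_sum (M : Finset (Nn n) → Module.Dual ℝ (Nn n)) (γ η : Finset (Nn n)) (w : Om (Nn n)) :
    bd (Th (fun i => M i.2) (Finsupp.single (γ, η) w)) +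
      Th (fun i => M i.2) (bd (Finsupp.single (γ, η) w)) =
      ∑ x ∈ η \ γ, Finsupp.single (γ, η.erase x) (kx (M (η.erase x) - M η) (cx x w)) := by
  rw [Th_single, bd_single, bd_single, map_sum, ← Finset.sum_add_distrib]
  refine Finset.sum_congr rfl fun x _ => ?_
  rw [map_sub, Th_single, Th_single, cx_kx, kx_sub, Finsupp.single_sub, Finsupp.single_neg,
    Finsupp.single_neg]
  abel

theorem rl_top {η : Finset (Nn n)} (hη : η ∈ DX X) (h0 : (fp tt η).Nonempty) {x : Nn n}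
    (hx : x ≠ vv X (top X η)) : top X (η.erase x) = top X η := by
  obtain ⟨h1, h2, h3, -⟩ := top_spec hη h0
  apply Set.Subset.antisymm
  · rintro y ⟨σ, ⟨hσ, hv⟩, hy⟩
    exact h3 σ hσ (Finset.mem_of_mem_erase hv) hy
  · intro y hy
    exact ⟨_, ⟨h1, Finset.mem_erase.2 ⟨hx.symm, h2⟩⟩, hy⟩

theorem rl_cells {l : List (Set (Pt n))} {σ : Set (Pt n)} (hl : X.Flag l σ) :
    l.toFinset ⊆ X.cells := fun ρ hρ => (hl.2 ρ (List.mem_toFinset.1 hρ)).1

theorem rl_head {l : List (Set (Pt n))} {σ τ : Set (Pt n)} (hl : X.Flag (τ :: l) σ)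
    (K : Finset (Fin n → ℚ)) : top X (fc X (τ :: l).toFinset K) = τ := by
  refine top_fc (rl_cells hl) (by simp) fun ρ hρ => ?_
  rcases List.mem_cons.1 (List.mem_toFinset.1 hρ) with rfl | hρ
  · exact subset_rfl
  · exact (List.rel_of_pairwise_cons hl.1 hρ).subset

theorem rl_erase {l : List (Set (Pt n))} {σ τ : Set (Pt n)} (hl : X.Flag (τ :: l) σ)
    (K : Finset (Fin n → ℚ)) :
    (fc X (τ :: l).toFinset K).erase (vv X τ) = fc X l.toFinset K := by
  rw [← fc_erase_vv (rl_cells hl) (hl.2 τ (by simp)).1, List.toFinset_cons, Finset.erase_insert]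
  simpa using (List.nodup_cons.1 (flag_nodup hl)).1

theorem rl_tail {l : List (Set (Pt n))} {σ τ : Set (Pt n)} (hl : X.Flag (τ :: l) σ) :
    X.Flag l σ := ⟨hl.1.of_cons, fun ρ hρ => hl.2 ρ (List.mem_cons_of_mem _ hρ)⟩

theorem rl_pos (hr : RS X r) (m : Set (Pt n) → Fin n → ℚ) {a b : List (Set (Pt n))}
    {τ y σ : Set (Pt n)} (hf : X.Flag (τ :: a ++ y :: b) σ) (K : Finset (Fin n → ℚ))
    (w : Om (Nn n)) :
    r (Finsupp.single (fc X (y :: b).toFinset K, fc X (a ++ y :: b).toFinset K)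
      (kx (dv (m (top X (fc X (a ++ y :: b).toFinset K))) - dv (m τ)) (cx (vv X τ) w))) =
      (-1 : ℝ) ^ (a.length + 1) • lefR m (r (Finsupp.single
        (fc X (y :: b).toFinset K, fc X (τ :: a ++ y :: b).toFinset K) w)) := by
  rw [hr.pos a b y σ K _ (rl_tail hf), hr.pos (τ :: a) b y σ K w hf, cs_kx, map_smul, sc_kx,
    List.length_map]
  have key : ∀ (ρ : Set (Pt n)) (l : List (Set (Pt n))) (β : Ex (Nn n)),
      Finsupp.single (ρ :: l) ((-1 : ℝ) ^ a.length • ct (dv (m ρ) - dv (m τ)) β) =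
        (-1 : ℝ) ^ (a.length + 1) • lefR m (Finsupp.single (τ :: ρ :: l) β) := by
    intro ρ l β
    rw [lefR, cap_two, Finsupp.smul_single, LinearMap.restrictScalars_apply, ct_sub, ct_sub,
      pow_succ, mul_neg_one, neg_smul, ← smul_neg, neg_sub]
  cases a with
  | nil =>
    have hf' : X.Flag (τ :: y :: b) σ := hf
    rw [List.nil_append (y :: b), rl_head (rl_tail hf') K]
    exact key y [] (sc (cs [] (cx (vv X τ) w)))
  | cons ρ a =>
    have hf' : X.Flag (τ :: ρ :: (a ++ y :: b)) σ := hf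
    rw [List.cons_append (as := a) (bs := y :: b), rl_head (rl_tail hf') K]
    exact key ρ (a ++ [y]) (sc (cs ((ρ :: a).map (vv X)) (cx (vv X τ) w)))

theorem rl_card {a b : List (Set (Pt n))} {σ : Set (Pt n)} (hf : X.Flag (a ++ b) σ)
    (K : Finset (Fin n → ℚ)) :
    (fc X (a ++ b).toFinset K \ fc X b.toFinset K).card = a.length := by
  have hb : b.toFinset ⊆ (a ++ b).toFinset := by simp
  have hn := flag_nodup hf
  rw [Finset.card_sdiff_of_subset ((fc_subset (hb.trans (rl_cells hf)) (rl_cells hf)).2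
    ⟨hb, subset_rfl⟩), card_fc (rl_cells hf), card_fc (hb.trans (rl_cells hf)),
    List.toFinset_card_of_nodup hn, List.toFinset_card_of_nodup hn.of_append_right,
    List.length_append]
  omega

theorem RS.lef_single (hr : RS X r) (m : Set (Pt n) → Fin n → ℚ) {i : Ix (Nn n)}
    (hi : Ok (DX X) tt i) (w : Om (Nn n)) :
    r (bd (Th (fun i => dv (m (top X i.2))) (Finsupp.single i w)) +
      Th (fun i => dv (m (top X i.2))) (bd (Finsupp.single i w))) =
      (-1 : ℝ) ^ (i.2 \ i.1).card • lefR m (r (Finsupp.single i w)) := by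
  obtain ⟨γ, η⟩ := i
  obtain ⟨h1, h2, h3⟩ : γ ⊆ η ∧ η ∈ DX X ∧ (fp tt γ).Nonempty := hi
  have h0 : (fp tt η).Nonempty := h3.mono (cb_fp h1)
  obtain ⟨t1, t2, t3, -⟩ := top_spec h2 h0
  rw [rl_sum (fun η => dv (m (top X η)))]
  have hz : ∀ x ∈ η \ γ, x ≠ vv X (top X η) → Finsupp.single (γ, η.erase x)
      (kx (dv (m (top X (η.erase x))) - dv (m (top X η))) (cx x w)) = 0 := fun x _ hx => by
    rw [rl_top h2 h0 hx, kx_sub, sub_self, Finsupp.single_zero]
  by_cases P : ∃ (a b : List (Set (Pt n))) (y σ : Set (Pt n)) (K : Finset (Fin n → ℚ)),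
      X.Flag (a ++ y :: b) σ ∧
      (γ, η) = (fc X (y :: b).toFinset K, fc X (a ++ y :: b).toFinset K)
  · obtain ⟨a, b, y, σ, K, hf, e⟩ := P
    obtain ⟨rfl, rfl⟩ := Prod.mk.inj e
    cases a with
    | nil =>
      rw [hr.pos [] b y σ K w hf]
      simp [lefR]
    | cons τ a =>
      have hτ : vv X τ ∈ fc X (τ :: a ++ y :: b).toFinset K \ fc X (y :: b).toFinset K := by
        have hc := (hf.2 τ (by simp)).1
        refine Finset.mem_sdiff.2 ⟨(vv_mem_fc (rl_cells hf) hc).2 (by simp), fun h => ?_⟩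
        rw [vv_mem_fc (fun ρ hρ => rl_cells hf (by
          simp only [List.mem_toFinset, List.mem_append] at hρ ⊢; exact Or.inr hρ)) hc] at h
        exact (List.nodup_cons.1 (flag_nodup hf)).1
          (List.mem_append_right _ (List.mem_toFinset.1 h))
      have et : top X (fc X (τ :: a ++ y :: b).toFinset K) = τ := rl_head hf K
      rw [et] at hz ⊢
      rw [Finset.sum_eq_single_of_mem _ hτ hz, rl_card hf]
      have ee : (fc X (τ :: a ++ y :: b).toFinset K).erase (vv X τ) =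
        fc X (a ++ y :: b).toFinset K := rl_erase hf K
      rw [ee]
      exact rl_pos hr m hf K w
  · rw [hr.neg _ w P, map_zero, smul_zero, map_sum]
    refine Finset.sum_eq_zero fun x hx => ?_
    by_cases e : x = vv X (top X η)
    · subst e
      refine hr.neg _ _ ?_
      rintro ⟨a, b, y, σ, K, hf, e0⟩
      obtain ⟨rfl, e⟩ := Prod.mk.inj e0
      refine P ⟨top X η :: a, b, y, top X η, K, ⟨List.pairwise_cons.2 ⟨fun ρ hρ => ?_, hf.1⟩,
        fun ρ hρ => ?_⟩, ?_⟩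
      · have hc := (hf.2 ρ hρ).1
        have hm := (vv_mem_fc (J := K) (rl_cells hf) hc).2 (List.mem_toFinset.2 hρ)
        rw [← e, Finset.mem_erase] at hm
        exact ⟨t3 ρ hc hm.2, fun h => hm.1 (by rw [(t3 ρ hc hm.2).antisymm h])⟩
      · rcases List.mem_cons.1 hρ with rfl | hρ
        · exact ⟨t1, subset_rfl⟩
        · have hc := (hf.2 ρ hρ).1
          have hm := (vv_mem_fc (J := K) (rl_cells hf) hc).2 (List.mem_toFinset.2 hρ)
          rw [← e, Finset.mem_erase] at hm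
          exact ⟨hc, t3 ρ hc hm.2⟩
      · rw [List.cons_append, List.toFinset_cons (a := top X η), fc_insert_vv, ← e,
          Finset.insert_erase t2]
    · rw [hz x hx e, map_zero]

theorem rl_Th {G H : Ix (Nn n) → Submodule ℝ (Om (Nn n))} (M : Ix (Nn n) → Module.Dual ℝ (Nn n))
    (hG : ∀ i, ∀ a ∈ G i, kx (M i) a ∈ H i) {z : Kc (Nn n)} (hz : z ∈ Pw G) : Th M z ∈ Pw H :=
  map_mem_of_Pw _ (fun i a ha => by rw [Th_single]; exact single_mem_Pw (hG i a ha)) hz

theorem rl_Th_kx (M : Ix (Nn n) → Module.Dual ℝ (Nn n)) (t : Module.Dual ℝ (Nn n))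
    (z : Kc (Nn n)) : co (kx t) (Th M z) = -Th M (co (kx t) z) := by
  induction z using Finsupp.induction_linear with
  | zero => simp
  | add u v hu hv => simp only [map_add, hu, hv, neg_add]
  | single i w => rw [Th_single, co_single, co_single, Th_single, kx_comm, Finsupp.single_neg]

theorem rl_Th_sub (M M' : Ix (Nn n) → Module.Dual ℝ (Nn n)) (z : Kc (Nn n)) :
    Th (fun i => M i - M' i) z = Th M z - Th M' z := by
  induction z using Finsupp.induction_linear with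
  | zero => simp
  | add u v hu hv => simp only [map_add, hu, hv]; abel
  | single i w => rw [Th_single, Th_single, Th_single, kx_sub, Finsupp.single_sub]

theorem rl_dv (u v : Fin n → ℚ) : dv u (rr v) = ((u ⬝ᵥ v : ℚ) : ℝ) := by
  simp [dv, rr, rv, dotProduct]

theorem rl_ZK (hμ : Loc (DX X) hh μ) (hm : Slo X m h) (e : ∀ ρ, hh (rr ρ) = h ρ) {z : Kc (Nn n)}
    (hz : z ∈ ZK (DX X) tt) : Th (fun i => μ i.1 - dv (m (top X i.2))) z ∈ ZK (DX X) tt := by
  refine rl_Th _ (fun i a ha => ?_) hz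
  split_ifs at ha ⊢ with o
  · refine kx_Vp_of_zero (fun v hv => ?_) ha
    have hγ := DX_down _ o.2.1 _ o.1
    obtain ⟨t1, -, -, t4⟩ := top_spec o.2.1 (o.2.2.mono (cb_fp o.1))
    obtain ⟨l, J, -, e'⟩ := mem_DX.1 hγ
    have hv' := Finset.mem_filter.1 hv
    rw [e', ip_fc] at hv
    obtain ⟨ρ, -, rfl⟩ := Finset.mem_image.1 hv
    rw [LinearMap.sub_apply, hμ _ hγ _ hv'.1, e, ← hm _ t1 ρ (t4 ρ (o.1 hv'.1)), rl_dv]
    exact sub_self _
  · rw [(Submodule.mem_bot ℝ).1 ha, map_zero]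
    exact Submodule.zero_mem _

theorem RS.lef (hr : RS X r) (hP : Pre (DX X) tt) (hg : GCo X) (hμ : Loc (DX X) hh μ)
    (hm : Slo X m h) (e : ∀ ρ, hh (rr ρ) = h ρ) (p q : ℕ) : ∃ s : ℤˣ,
    ∀ x ∈ ((cxK hP hμ).row (p + 1)).Cy (q + 1), r.toAddMonoidHom ((cxK hP hμ).L x) -
      s • (cxF hm).L (r.toAddMonoidHom x) ∈ ((cxF hm).row p).Bd q := by
  refine ⟨(-1) ^ q, fun x hx => ?_⟩
  set T := Th (fun i : Ix (Nn n) => dv (m (top X i.2))) with hT
  set D := Th (fun i : Ix (Nn n) => μ i.1 - dv (m (top X i.2))) with hD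
  have sg : ∀ y : Fc n, ((-1 : ℤˣ) ^ q) • y = (-1 : ℝ) ^ q • y := fun y => by
    rcases Nat.even_or_odd q with h | h <;> simp [h.neg_one_pow]
  obtain ⟨y, hy, z, hz, rfl⟩ := Submodule.mem_sup.1 (show x ∈ KC (DX X) tt (p + 1) (q + 1) from hx.1)
  have h1 : D (y + z) ∈ KC (DX X) tt p (q + 1) := by
    rw [map_add]
    refine Submodule.add_mem_sup ⟨rl_Th _ (fun i a ha => ?_) hy.1, ?_⟩ (rl_ZK hμ hm e hz)
    · split_ifs at ha ⊢
      · exact kx_Co _ ha
      · rw [(Submodule.mem_bot ℝ).1 ha, map_zero]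
        exact Submodule.zero_mem _
    · rw [SetLike.mem_coe, LinearMap.mem_ker, hD, rl_Th_kx, LinearMap.mem_ker.1 hy.2, map_zero,
        neg_zero]
  have h2 : bd (D (y + z)) + D (bd (y + z)) ∈ ((cxK hP hμ).row p).Bd q :=
    Submodule.add_mem_sup ⟨_, h1, rfl⟩ (rl_ZK hμ hm e hx.2)
  have h3 := (hr.mor_row hP hg hμ hm p).map_Bd h2
  have h4 : r (bd (T y) + T (bd y)) = (-1 : ℝ) ^ (q + 1) • lefR m (r y) := by
    let F : Kc (Nn n) →ₗ[ℚ] Fc n := (r ∘ₗ (bd ∘ₗ T + T ∘ₗ bd)).restrictScalars ℚ -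
      (((-1 : ℝ) ^ (q + 1) • LinearMap.id : Fc n →ₗ[ℝ] Fc n).restrictScalars ℚ) ∘ₗ lefR m ∘ₗ
        r.restrictScalars ℚ
    rw [← Finsupp.sum_single y, Finsupp.sum]
    simp only [map_sum, ← Finset.sum_add_distrib, Finset.smul_sum]
    refine Finset.sum_congr rfl fun i _ => ?_
    have hi := mem_Pw.1 hy.1 i
    split_ifs at hi with o
    · rw [hr.lef_single m o.1, o.2]
    · rw [(Submodule.mem_bot ℝ).1 hi]
      simp
  have h5 : r (bd (T z) + T (bd z)) - (-1 : ℝ) ^ (q + 1) • lefR m (r z) ∈ FZ X := by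
    have sm : ∀ (k : ℕ) (u : Fc n), u ∈ FZ X → (-1 : ℝ) ^ k • u ∈ FZ X := fun k u hu => by
      rcases Nat.even_or_odd k with h | h <;> simpa [h.neg_one_pow] using hu
    refine Submodule.sub_mem _ ?_ (sm _ _ (lefR_FZ hm (hr.map_ZK hz)))
    rw [← Finsupp.sum_single z, Finsupp.sum]
    simp only [map_sum, ← Finset.sum_add_distrib]
    refine Submodule.sum_mem _ fun i _ => ?_
    have hi := mem_Pw.1 hz i
    have hs : Finsupp.single i (z i) ∈ ZK (DX X) tt := single_mem_Pw hi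
    split_ifs at hi with o
    · rw [hr.lef_single m o]
      exact sm _ _ (lefR_FZ hm (hr.map_ZK hs))
    · rw [(Submodule.mem_bot ℝ).1 hi]
      simp
  change r (LK μ (y + z)) - _ • lefR m (r (y + z)) ∈ _
  have h6 := ((cxF hm).row p).Z_le_Bd q h5
  refine mem_of_eq (Submodule.neg_mem _ (Submodule.add_mem _ h3 h6)) ?_
  have h7 : ∀ u, D u = Th (fun i => μ i.1) u - T u := fun u => rl_Th_sub _ _ u
  rw [sg, LK_eq, LinearMap.toAddMonoidHom_coe, h7, h7]
  simp only [map_add, map_sub, map_neg, pow_succ, mul_neg_one, neg_smul, smul_add] at h4 ⊢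
  rw [← add_neg_eq_zero, neg_neg] at h4
  rw [← sub_eq_zero, ← neg_eq_zero, ← h4]
  abel

end K2
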