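import Pool.Agent.Lib.MP_e9c0f3_ag.K2.GAll
import Pool.Agent.Lib.MP_e9c0f3_ag.K2.RL
import Pool.Agent.Lib.MP_e9c0f3_ag.K2.Desc
import Pool.Agent.Lib.MP_e9c0f3_ag.K2.KHL
import Pool.Agent.Lib.MP_e9c0f3_ag.K2.KLoc

/-! Local vanishing and hard Lefschetz for smooth projective complexes. -/

open ExteriorAlgebra H5T Matrix KH
open scoped Classical

noncomputable section

namespace K2

variable {n : ℕ} {X : TropCx n} {d : ℕ}

theorem kaehler (hS : X.Smooth d) (hP : X.Proj) : X.LocVan ∧ ∃ m, X.HardLef d m := by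
  obtain ⟨f, h, m, c, hp⟩ := exists_PJ hP
  obtain ⟨hh, φ, hD, e⟩ := exists_dat hp hS
  have hg : GCo X := gco hp hS hD.card_le fun β hβ _ => DX_pure hp hS β hβ
  obtain ⟨r, hr⟩ := exists_RS X
  refine ⟨desc_LV fun l h0 hl p q hq y hy => ?_, ?_⟩
  · obtain ⟨x, hx, a⟩ := (hr.qi hD.toPre hg hl p q).2 y hy
    have hA : ∀ v ∈ fc X l.toFinset ∅, tt v = 1 := fun v hv => by
      rcases mem_fc.1 hv with ⟨σ, -, rfl⟩ | ⟨_, h, -⟩
      · rfl
      · simp at h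
    have hn : (fc X l.toFinset ∅).Nonempty := by
      obtain ⟨σ, hσ⟩ := List.exists_mem_of_ne_nil l h0
      exact ⟨vv X σ, mem_fc.2 (Or.inl ⟨σ, by simpa using hσ, rfl⟩)⟩
    have b := (hr.mor hD.toPre hg hl p).map_Bd (k_loc hD.toPre hA hn hq hx)
    simpa using Submodule.add_mem _ a b
  · choose! μ hμ using fun γ hγ => hD.fan.onto γ hγ hh
    have hm : Slo X (fun σ => m σ (X.ray σ)) h := fun σ hσ ρ hρ =>
      (((hp σ hσ _ subset_rfl σ hσ).2 ρ hρ).2).2 hρ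
    exact ⟨_, desc_HL hm (fun σ hσ => finrank_tang (fun σ hσ => (hS σ hσ).1) hD.card_le hσ)
      ((Cx.HL_of_qi _ _ _ (hr.mor_row hD.toPre hg hμ hm) (hr.qi_row hD.toPre hg hμ hm)
        (hr.lef hD.toPre hg hμ hm e) d).1 (k_HL hD hμ))⟩

end K2
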