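import Pool.Agent.Lib.MP_e9c0f3_ag.K2.GSup

/-! The multi-tangent spaces of the cone and of the complex. -/

open ExteriorAlgebra H5T Matrix KH
open scoped Classical

noncomputable section

namespace K2

variable {n : ℕ} {X : TropCx n} {f : Pt n → ℝ} {h : (Fin n → ℚ) → ℚ}
  {m : Set (Pt n) → Finset (Fin n → ℚ) → Fin n → ℚ} {c : Set (Pt n) → Finset (Fin n → ℚ) → ℝ}
  {l l' : Finset (Set (Pt n))} {J J' : Finset (Fin n → ℚ)} {σ ρ τ : Set (Pt n)}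
  {η β : Finset (Nn n)} {d : ℕ}

/-- A convex cone that is covered by finitely many subspaces lies in one of them. -/
theorem span_le_of_cover {V ι : Type*} [AddCommGroup V] [Module ℝ V] {P : Set V} (h0 : 0 ∈ P)
    (ha : ∀ x ∈ P, ∀ y ∈ P, x + y ∈ P) (hs : ∀ x ∈ P, ∀ a : ℝ, 0 ≤ a → a • x ∈ P)
    (I : Finset ι) (U : ι → Submodule ℝ V) (hc : ∀ x ∈ P, ∃ i ∈ I, x ∈ U i) :
    ∃ i ∈ I, Submodule.span ℝ P ≤ U i := by
  by_contra hn
  have key : ∀ S : Finset ι, S ⊆ I → ∃ x ∈ P, ∀ i ∈ S, x ∉ U i := by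
    intro S
    induction S using Finset.induction_on with
    | empty => exact fun _ => ⟨0, h0, by simp⟩
    | insert i S hi ih =>
      intro hS
      obtain ⟨x, hx, h1⟩ := ih ((Finset.subset_insert _ _).trans hS)
      obtain ⟨p, hp, h2⟩ : ∃ p ∈ P, p ∉ U i := by
        by_contra hp
        push Not at hp
        exact hn ⟨i, hS (Finset.mem_insert_self _ _), Submodule.span_le.2 hp⟩
      by_contra hb
      push Not at hb
      choose j hj hj' using fun t : ℕ => hb (x + (t : ℝ) • p) (ha _ hx _ (hs _ hp _ t.cast_nonneg))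
      obtain ⟨s, t, hst, e⟩ :=
        Finite.exists_ne_map_eq_of_infinite fun t => (⟨j t, hj t⟩ : (insert i S : Finset ι))
      have e' : j s = j t := congrArg Subtype.val e
      have h3 : p ∈ U (j t) := by
        have h4 := sub_mem (e' ▸ hj' s) (hj' t)
        rw [add_sub_add_left_eq_sub, ← sub_smul] at h4
        exact (Submodule.smul_mem_iff _ (sub_ne_zero.2 (Nat.cast_injective.ne hst))).1 h4
      rcases Finset.mem_insert.1 (hj t) with h5 | h5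
      · exact h2 (h5 ▸ h3)
      · exact h1 _ h5 ((Submodule.add_mem_iff_left _ ((U _).smul_mem _ h3)).1 (hj' t))
  obtain ⟨x, hx, h1⟩ := key I le_rfl
  obtain ⟨i, hi, h2⟩ := hc x hx
  exact h1 i hi h2

theorem gc_pt (hσ : σ ∈ X.cells) : X.pt σ ∈ σ := intrinsicInterior_subset (X.pt_mem σ hσ)

theorem gc_convex (hτ : τ ∈ X.cells) : Convex ℝ τ := by
  obtain ⟨S, rfl⟩ := X.poly τ hτ
  intro x hx y hy a b ha hb hab g hg
  rw [dotProduct_add, dotProduct_smul, dotProduct_smul, smul_eq_mul, smul_eq_mul]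
  have h1 := mul_le_mul_of_nonneg_left (hx g hg) ha
  have h2 := mul_le_mul_of_nonneg_left (hy g hg) hb
  have h3 : g.2 = a * g.2 + b * g.2 := by rw [← add_mul, hab, one_mul]
  linarith

/-- The directions of a cell lie in one of finitely many subspaces that cover them. -/
theorem gc_cover (hτ : τ ∈ X.cells) {p : Pt n} (hp : p ∈ τ) {ι : Type*} (I : Finset ι)
    (U : ι → Submodule ℝ (Pt n)) (hc : ∀ x ∈ τ, ∃ i ∈ I, x - p ∈ U i) :
    ∃ i ∈ I, ∀ x ∈ τ, x - p ∈ U i := by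
  refine (span_le_of_cover (P := {v | ∃ x ∈ τ, ∃ a : ℝ, 0 ≤ a ∧ v = a • (x - p)})
    ⟨p, hp, 0, le_rfl, by simp⟩ ?_ ?_ I U ?_).imp fun i h1 =>
      ⟨h1.1, fun x hx => h1.2 (Submodule.subset_span ⟨x, hx, 1, zero_le_one, by simp⟩)⟩
  · rintro _ ⟨x, hx, a, ha, rfl⟩ _ ⟨y, hy, b, hb, rfl⟩
    rcases (add_nonneg ha hb).eq_or_lt with h0 | h0
    · obtain rfl : a = 0 := by linarith
      obtain rfl : b = 0 := by linarith
      exact ⟨p, hp, 0, le_rfl, by simp⟩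
    · refine ⟨(a / (a + b)) • x + (b / (a + b)) • y, gc_convex hτ hx hy (by positivity)
        (by positivity) (by field_simp), a + b, h0.le, ?_⟩
      ext i
      simp only [Pi.add_apply, Pi.smul_apply, Pi.sub_apply, smul_eq_mul]
      field_simp
      ring
  · rintro _ ⟨x, hx, a, ha, rfl⟩ b hb
    exact ⟨x, hx, b * a, mul_nonneg hb ha, smul_smul _ _ _⟩
  · rintro _ ⟨x, hx, a, -, rfl⟩
    obtain ⟨i, hi, h1⟩ := hc x hx
    exact ⟨i, hi, (U i).smul_mem _ h1⟩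

theorem gc_vs {p : Pt n} (hp : p ∈ τ) {U : Submodule ℝ (Pt n)} (h : ∀ x ∈ τ, x - p ∈ U) :
    vectorSpan ℝ τ ≤ U := by
  rw [vectorSpan_eq_span_vsub_set_right ℝ hp, Submodule.span_le]
  rintro _ ⟨x, hx, rfl⟩
  exact h x hx

theorem gc_Tc_smul {v : Pt n} (hv : v ∈ X.Tc σ) {t : ℝ} (ht : 0 ≤ t) : t • v ∈ X.Tc σ := by
  obtain ⟨τ, h1, h2, x, hx, c, a, hc, ha, rfl⟩ := hv
  refine ⟨τ, h1, h2, x, hx, t * c, t • a, mul_nonneg ht hc, smul_nonneg ht ha, ?_⟩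
  rw [smul_add, smul_smul, Finset.smul_sum]
  simp only [smul_smul, Pi.smul_apply, smul_eq_mul]

theorem gc_Tc_add (hs : ∀ r ∈ X.ray σ, ∀ v ∈ X.Tc σ, v + rv r ∈ X.Tc σ) {v : Pt n}
    (hv : v ∈ X.Tc σ) {t : ℝ} (ht : 0 < t) (S : Finset (Fin n → ℚ)) (hS : S ⊆ X.ray σ) :
    v + ∑ r ∈ S, t • rv r ∈ X.Tc σ := by
  induction S using Finset.induction_on with
  | empty => simpa using hv
  | insert r S hr ih =>
    have h1 := gc_Tc_smul (hs r (hS (Finset.mem_insert_self _ _)) _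
      (gc_Tc_smul (ih ((Finset.subset_insert _ _).trans hS)) (inv_nonneg.2 ht.le))) ht.le
    rw [smul_add, smul_inv_smul₀ ht.ne'] at h1
    rw [Finset.sum_insert hr, add_comm (t • rv r), ← add_assoc]
    exact h1

/-- On the cone of `τ` at `pt σ` the minorant of `τ` is the largest one. -/
theorem gc_max (hp : PJ X f h m c) (hσ : σ ∈ X.cells) (hτ : τ ∈ X.cells) (hs : σ ⊆ τ)
    {x : Pt n} (hx : x ∈ τ) {b : ℝ} (hb : 0 ≤ b) {a : (Fin n → ℚ) → ℝ} (ha : 0 ≤ a) :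
    rv (m σ (X.ray σ)) ⬝ᵥ (b • (x - X.pt σ) + ∑ r ∈ X.ray τ, a r • rv r) ≤
      rv (m τ (X.ray τ)) ⬝ᵥ (b • (x - X.pt σ) + ∑ r ∈ X.ray τ, a r • rv r) := by
  have h1 := ((hp σ hσ _ le_rfl τ hτ).1 x hx).1
  have h2 := ((hp σ hσ _ le_rfl σ hσ).1 _ (gc_pt hσ)).2.2 (gc_pt hσ)
  have h3 := ((hp τ hτ _ le_rfl τ hτ).1 x hx).2.2 hx
  have h4 := ((hp τ hτ _ le_rfl σ hσ).1 _ (gc_pt hσ)).2.2 (hs (gc_pt hσ))
  simp only [dotProduct_add, dotProduct_smul, dotProduct_sub, dotProduct_sum, smul_eq_mul,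
    G33.rv_dot]
  refine add_le_add (mul_le_mul_of_nonneg_left (by linarith) hb)
    (Finset.sum_le_sum fun r hr => mul_le_mul_of_nonneg_left ?_ (ha r))
  rw [((hp τ hτ _ le_rfl τ hτ).2 r hr).2.2 hr]
  exact_mod_cast ((hp σ hσ _ le_rfl τ hτ).2 r hr).1

/-- Every cell through `σ` is parallel to one that has all the rays of `σ`. -/
theorem exists_full_ray (hp : PJ X f h m c) (hσ : σ ∈ X.cells)
    (hs : ∀ r ∈ X.ray σ, ∀ v ∈ X.Tc σ, v + rv r ∈ X.Tc σ) (hτ : τ ∈ X.cells) (hστ : σ ⊆ τ) :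
    ∃ τ' ∈ X.cells, σ ⊆ τ' ∧ X.ray τ' = X.ray σ ∧ UR X τ ≤ UR X τ' := by
  refine (gc_cover hτ (hστ (gc_pt hσ))
    (X.cells.filter fun ρ => σ ⊆ ρ ∧ X.ray ρ = X.ray σ)
    (fun ρ => vectorSpan ℝ ρ ⊔ Submodule.span ℝ (rv '' (X.ray ρ : Set (Fin n → ℚ)))) ?_).elim
      fun τ' ⟨h1, h2⟩ => ?_
  swap
  · obtain ⟨h3, h4, h5⟩ := Finset.mem_filter.1 h1
    refine ⟨τ', h3, h4, h5, Submodule.map_mono (sup_le (gc_vs (hστ (gc_pt hσ)) h2)
      (le_sup_of_le_right (Submodule.span_mono (Set.image_mono ?_))))⟩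
    rw [h5]
    exact X.ray_anti τ hτ σ hσ hστ
  intro x hx
  have ev : ∀ᶠ t : ℝ in Filter.atTop, 0 < t ∧ ∀ ρ ∈ X.cells, ∀ r ∈ X.ray σ,
      (0 : ℝ) < ((h r - m ρ (X.ray ρ) ⬝ᵥ r : ℚ) : ℝ) →
      rv (m ρ (X.ray ρ)) ⬝ᵥ (x - X.pt σ) - rv (m σ (X.ray σ)) ⬝ᵥ (x - X.pt σ) <
        t * ((h r - m ρ (X.ray ρ) ⬝ᵥ r : ℚ) : ℝ) := by
    refine (Filter.eventually_gt_atTop 0).and ((Filter.eventually_all_finset _).2 fun ρ _ =>
      (Filter.eventually_all_finset _).2 fun r _ => ?_)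
    by_cases h0 : (0 : ℝ) < ((h r - m ρ (X.ray ρ) ⬝ᵥ r : ℚ) : ℝ)
    · exact ((Filter.tendsto_id.atTop_mul_const h0).eventually_gt_atTop _).mono fun t ht _ => ht
    · exact Filter.Eventually.of_forall fun t h1 => absurd h1 h0
  obtain ⟨t, ht, H⟩ := ev.exists
  have h0 : x - X.pt σ ∈ X.Tc σ := ⟨τ, hτ, hστ, x, hx, 1, 0, zero_le_one, le_rfl, by simp⟩
  obtain ⟨ρ, hρ, hσρ, y, hy, b, a, hb, ha, e⟩ := gc_Tc_add hs h0 ht _ le_rfl
  have h1 := gc_max hp hσ hρ hσρ hy hb ha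
  rw [← e] at h1
  simp only [dotProduct_add, dotProduct_smul, dotProduct_sum, smul_eq_mul, G33.rv_dot] at h1
  have h2 : X.ray ρ = X.ray σ := by
    refine (X.ray_anti ρ hρ σ hσ hσρ).antisymm fun r hr => ?_
    by_contra hn
    have h3 := (hp ρ hρ _ le_rfl σ hσ).2
    have h4 : (0 : ℝ) < ((h r - m ρ (X.ray ρ) ⬝ᵥ r : ℚ) : ℝ) := by
      exact_mod_cast sub_pos.2 ((h3 r hr).1.lt_of_ne fun e' => hn ((h3 r hr).2.1 e'))
    have h5 := H ρ hρ r hr h4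
    have h6 : t * ((h r - m ρ (X.ray ρ) ⬝ᵥ r : ℚ) : ℝ) ≤
        ∑ r ∈ X.ray σ, t * ((h r - m ρ (X.ray ρ) ⬝ᵥ r : ℚ) : ℝ) :=
      Finset.single_le_sum (f := fun r => t * ((h r - m ρ (X.ray ρ) ⬝ᵥ r : ℚ) : ℝ))
        (fun r hr => mul_nonneg ht.le (by exact_mod_cast sub_nonneg.2 (h3 r hr).1)) hr
    have h7 : ∑ r ∈ X.ray σ, t * ((h r - m ρ (X.ray ρ) ⬝ᵥ r : ℚ) : ℝ) =
        ∑ r ∈ X.ray σ, t * ((m σ (X.ray σ) ⬝ᵥ r : ℚ) : ℝ) -
          ∑ r ∈ X.ray σ, t * ((m ρ (X.ray ρ) ⬝ᵥ r : ℚ) : ℝ) := by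
      rw [← Finset.sum_sub_distrib]
      refine Finset.sum_congr rfl fun r hr => ?_
      rw [((hp σ hσ _ le_rfl σ hσ).2 r hr).2.2 hr]
      push_cast
      ring
    linarith
  refine ⟨ρ, Finset.mem_filter.2 ⟨hρ, hσρ, h2⟩, ?_⟩
  rw [eq_sub_of_add_eq e, add_sub_assoc, ← h2]
  refine Submodule.add_mem_sup (Submodule.smul_mem _ _ (vsub_mem_vectorSpan ℝ hy (hσρ (gc_pt hσ))))
    (sub_mem ?_ ?_) <;>
  exact Submodule.sum_mem _ fun r hr => Submodule.smul_mem _ _ (Submodule.subset_span ⟨r, hr, rfl⟩)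

theorem span_inf_le (hη : η ∈ DX X) (h0 : (fp tt η).Nonempty) :
    Submodule.span ℝ (η : Set (Nn n)) ⊓ LinearMap.ker tt ≤ UR X (top X η) := by
  obtain ⟨h1, -, h3, h4⟩ := top_spec hη h0
  have key : Submodule.span ℝ (η : Set (Nn n)) ≤ (UR X (top X η)).comap
      (LinearMap.id - (tt : Module.Dual ℝ (Nn n)).smulRight (vv X (top X η))) := by
    rw [Submodule.span_le]
    intro v hv
    obtain ⟨ρ, hρ, rfl | ⟨r, -, rfl⟩⟩ := mem_vx_DX.1
      (show v ∈ vx (DX X) by simp only [vx, Finset.mem_biUnion]; exact ⟨η, hη, hv⟩)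
    · refine ⟨X.pt ρ - X.pt (top X η), Submodule.mem_sup_left
        (vsub_mem_vectorSpan ℝ (h3 ρ hρ hv (gc_pt hρ)) (gc_pt h1)), ?_⟩
      simp [vv, tt]
    · refine ⟨rv r, Submodule.mem_sup_right (Submodule.subset_span ⟨r, h4 r hv, rfl⟩), ?_⟩
      simp [rr, tt]
  rintro x ⟨hx, ht⟩
  have h5 := key hx
  rw [Submodule.mem_comap, LinearMap.sub_apply, LinearMap.smulRight_apply,
    LinearMap.mem_ker.1 ht, zero_smul, sub_zero] at h5
  exact h5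

theorem gc_UR_ker (τ : Set (Pt n)) : UR X τ ≤ LinearMap.ker tt := by
  rintro _ ⟨x, -, rfl⟩
  rfl

/-- The cone over `τ` lies in the span of a chain of cells through `σ`. -/
theorem gc_full (hb : ∀ σ ∈ X.cells, Bornology.IsBounded σ) (hσ : σ ∈ X.cells)
    (hτ : τ ∈ X.cells) (hs : σ ⊆ τ) : ∃ l, σ ∈ l ∧ Adm X l ∅ ∧ (∀ ρ ∈ l, ρ ⊆ τ) ∧
      ∀ x ∈ τ, ((1, x) : Nn n) ∈ Submodule.span ℝ (vv X '' (l : Set (Set (Pt n)))) := by
  refine (gc_cover hτ (hs (gc_pt hσ))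
    (X.cells.powerset.filter fun l => σ ∈ l ∧ Adm X l ∅ ∧ ∀ ρ ∈ l, ρ ⊆ τ)
    (fun l => (Submodule.span ℝ (vv X '' (l : Set (Set (Pt n))))).comap
      (LinearMap.inr ℝ ℝ (Pt n))) ?_).elim fun l ⟨h1, h2⟩ => ?_
  swap
  · obtain ⟨-, h3, h4, h5⟩ := Finset.mem_filter.1 h1
    refine ⟨l, h3, h4, h5, fun x hx => ?_⟩
    have h6 := add_mem (Submodule.mem_comap.1 (h2 x hx))
      (Submodule.subset_span (Set.mem_image_of_mem (vv X) h3))
    simpa [vv] using h6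
  intro x hx
  obtain ⟨l, h1, h2, h3, a, -, e⟩ := cover_at hb hσ hτ hs hx
  refine ⟨l, Finset.mem_filter.2 ⟨Finset.mem_powerset.2 h2.1, h1, h2, h3⟩, ?_⟩
  rw [Submodule.mem_comap, e, map_sum]
  refine Submodule.sum_mem _ fun ρ hρ => ?_
  have h6 := Submodule.smul_mem _ (a ρ) (sub_mem
    (Submodule.subset_span (R := ℝ) (Set.mem_image_of_mem (vv X) (Finset.mem_coe.2 hρ)))
    (Submodule.subset_span (Set.mem_image_of_mem (vv X) (Finset.mem_coe.2 h1))))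
  simpa [vv] using h6

/-- Every chain of cells in `τ` extends to one whose span contains the cone over `τ`. -/
theorem gc_ext (hb : ∀ σ ∈ X.cells, Bornology.IsBounded σ) (k : ℕ) :
    ∀ (l : Finset (Set (Pt n))) (τ : Set (Pt n)), l.card = k → l ⊆ X.cells →
      IsChain (· ⊆ ·) (l : Set (Set (Pt n))) → τ ∈ X.cells → (∀ ρ ∈ l, ρ ⊆ τ) →
      ∃ l', l ⊆ l' ∧ l' ⊆ X.cells ∧ IsChain (· ⊆ ·) (l' : Set (Set (Pt n))) ∧ (∀ ρ ∈ l', ρ ⊆ τ) ∧
        ∀ x ∈ τ, ((1, x) : Nn n) ∈ Submodule.span ℝ (vv X '' (l' : Set (Set (Pt n)))) := by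
  induction k with
  | zero =>
    intro l τ hk _ _ hτ _
    obtain ⟨l', -, h2, h3, h4⟩ := gc_full hb hτ hτ le_rfl
    exact ⟨l', by simp [Finset.card_eq_zero.1 hk], h2.1, h2.2.1, h3, h4⟩
  | succ k ih =>
    intro l τ hk hl hc hτ hs
    obtain ⟨σ, hσ⟩ := Finset.exists_maximal (s := l) (Finset.card_pos.1 (by omega))
    have hm : ∀ ρ ∈ l, ρ ⊆ σ := fun ρ hρ => (hc.total hρ hσ.1).elim id fun e => hσ.2 hρ e
    obtain ⟨l₁, a1, a2, a3, a4, a5⟩ := ih (l.erase σ) σ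
      (by rw [Finset.card_erase_of_mem hσ.1]; omega) ((Finset.erase_subset _ _).trans hl)
      (hc.mono (Finset.coe_subset.2 (Finset.erase_subset _ _))) (hl hσ.1)
      fun ρ hρ => hm ρ (Finset.mem_of_mem_erase hρ)
    obtain ⟨l₂, b1, b2, b3, b4⟩ := gc_full hb (hl hσ.1) hτ (hs σ hσ.1)
    refine ⟨l₁ ∪ l₂.filter (σ ⊆ ·), fun ρ hρ => ?_,
      Finset.union_subset a2 ((Finset.filter_subset _ _).trans b2.1), ?_, fun ρ hρ => ?_,
      fun x hx => Submodule.span_le.2 ?_ (b4 x hx)⟩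
    · by_cases e : ρ = σ
      · exact Finset.mem_union_right _ (Finset.mem_filter.2 ⟨e ▸ b1, e ▸ le_rfl⟩)
      · exact Finset.mem_union_left _ (a1 (Finset.mem_erase.2 ⟨e, hρ⟩))
    · intro ρ hρ ρ' hρ' hne
      rcases Finset.mem_union.1 hρ with h1 | h1 <;> rcases Finset.mem_union.1 hρ' with h2 | h2
      · exact a3 h1 h2 hne
      · exact Or.inl ((a4 ρ h1).trans (Finset.mem_filter.1 h2).2)
      · exact Or.inr ((a4 ρ' h2).trans (Finset.mem_filter.1 h1).2)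
      · exact b2.2.1 (Finset.mem_filter.1 h1).1 (Finset.mem_filter.1 h2).1 hne
    · rcases Finset.mem_union.1 hρ with h1 | h1
      · exact (a4 ρ h1).trans (hs σ hσ.1)
      · exact b3 ρ (Finset.mem_filter.1 h1).1
    · rintro _ ⟨ρ, hρ, rfl⟩
      rcases b2.2.1.total hρ b1 with h1 | h1
      · exact Submodule.span_mono (Set.image_mono (Finset.coe_subset.2 Finset.subset_union_left))
          (a5 _ (h1 (gc_pt (b2.1 hρ))))
      · exact Submodule.subset_span ⟨ρ, Finset.mem_coe.2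
          (Finset.mem_union_right _ (Finset.mem_filter.2 ⟨hρ, h1⟩)), rfl⟩

theorem gc_UR_le (hτ : τ ∈ X.cells)
    (h : ∀ x ∈ τ, ((1, x) : Nn n) ∈ Submodule.span ℝ (vv X '' (l : Set (Set (Pt n))))) :
    UR X τ ≤ Submodule.span ℝ (fc X l (X.ray τ) : Set (Nn n)) := by
  have h1 : Submodule.span ℝ (vv X '' (l : Set (Set (Pt n)))) ≤
      Submodule.span ℝ (fc X l (X.ray τ) : Set (Nn n)) := by
    refine Submodule.span_mono ?_
    rintro _ ⟨ρ, hρ, rfl⟩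
    exact Finset.mem_coe.2 (mem_fc.2 (Or.inl ⟨ρ, hρ, rfl⟩))
  rw [UR, Submodule.map_le_iff_le_comap]
  refine sup_le (gc_vs (gc_pt hτ) fun x hx => ?_) (Submodule.span_le.2 ?_)
  · have h2 := sub_mem (h1 (h x hx)) (h1 (h _ (gc_pt hτ)))
    simpa using h2
  · rintro _ ⟨r, hr, rfl⟩
    exact Submodule.subset_span (Finset.mem_coe.2 (rr_mem_fc.2 hr))

theorem finrank_UR (hb : ∀ σ ∈ X.cells, Bornology.IsBounded σ)
    (hc : ∀ s ∈ DX X, s.card ≤ d + 1) (hτ : τ ∈ X.cells) :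
    Module.finrank ℝ (UR X τ) ≤ d := by
  obtain ⟨l, h1, h2, h3, h4⟩ := gc_full hb hτ hτ le_rfl
  have h5 := hc _ (mem_DX.2 ⟨l, X.ray τ, ⟨h2.1, h2.2.1, τ, hτ, h3, le_rfl⟩, rfl⟩)
  have h6 : UR X τ < Submodule.span ℝ (fc X l (X.ray τ) : Set (Nn n)) := by
    refine (gc_UR_le hτ h4).lt_of_ne fun e => ?_
    have h7 : vv X τ ∈ UR X τ := by
      rw [e]
      exact Submodule.subset_span (Finset.mem_coe.2 (mem_fc.2 (Or.inl ⟨τ, h1, rfl⟩)))
    simpa using gc_UR_ker τ h7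
  have h8 := Submodule.finrank_lt_finrank_of_lt h6
  have h9 := finrank_span_finset_le_card (R := ℝ) (fc X l (X.ray τ))
  rw [Set.finrank] at h9
  omega

theorem finrank_tang (hb : ∀ σ ∈ X.cells, Bornology.IsBounded σ)
    (hc : ∀ s ∈ DX X, s.card ≤ d + 1) (hτ : τ ∈ X.cells) :
    Module.finrank ℚ (tang τ) ≤ d := by
  let b := Module.finBasis ℚ (tang τ)
  have h1 : LinearIndependent ℚ fun i => (b i : Fin n → ℚ) :=
    b.linearIndependent.map' (tang τ).subtype (Submodule.ker_subtype _)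
  have h2 : LinearIndependent ℝ fun i => rv (b i : Fin n → ℚ) :=
    (linearIndependent_algebraMap_comp_iff (S := ℝ)).2 h1
  have h3 := h2.map' (LinearMap.inr ℝ ℝ (Pt n)) (LinearMap.ker_eq_bot.2 LinearMap.inr_injective)
  have h4 : LinearIndependent ℝ fun i => (⟨LinearMap.inr ℝ ℝ (Pt n) (rv (b i : Fin n → ℚ)),
      Submodule.mem_map_of_mem (Submodule.mem_sup_left (b i).2)⟩ : UR X τ) :=
    LinearIndependent.of_comp (UR X τ).subtype h3
  have h5 := h4.fintype_card_le_finrank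
  rw [Fintype.card_fin] at h5
  exact h5.trans (finrank_UR hb hc hτ)

theorem gc_wg_ker {V : Type} [AddCommGroup V] [Module ℝ V] {g : Module.Dual ℝ V}
    {T : Submodule ℝ V} (hT : T ≤ LinearMap.ker g) (p : ℕ) : wg T p ≤ LinearMap.ker (ct g) := by
  intro w hw
  rw [LinearMap.mem_ker]
  refine Submodule.pow_induction_on_left _ (C := fun w => ct g w = 0)
    (fun r => CliffordAlgebra.contractLeft_algebraMap _ g r)
    (fun x y hx hy => by rw [map_add, hx, hy, add_zero]) ?_ hw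
  rintro _ ⟨v, hv, rfl⟩ x hx
  rw [ct_mul, hx, LinearMap.mem_ker.1 (hT hv), zero_smul, mul_zero, sub_zero]

theorem gco (hp : PJ X f h m c) (hS : X.Smooth d) (hc : ∀ s ∈ DX X, s.card ≤ d + 1)
    (pure : ∀ β ∈ DX X, (fp tt β).Nonempty → ∃ η ∈ DX X, β ⊆ η ∧ η.card = d + 1) :
    GCo X := by
  have _ := hc
  have _ := pure
  intro η hη h0 p
  obtain ⟨h1, h2, h3, h4⟩ := top_spec hη h0
  refine le_antisymm ?_ (le_inf ?_ ?_)
  · have key : FF (DX X) p η ≤ (GR X p (top X η)).comap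
        (ct tt ∘ₗ LinearMap.mulLeft ℝ (ι ℝ (vv X (top X η)))) := by
      refine iSup₂_le fun θ hθ => iSup_le fun hs w hw => ?_
      have h5 : (fp tt θ).Nonempty := h0.mono (Finset.filter_subset_filter _ hs)
      obtain ⟨g1, -, g3, -⟩ := top_spec hθ h5
      have h6 := wg_mono (span_inf_le hθ h5) p
        (ct_wg tt (om_wg_mul (Submodule.subset_span (Finset.mem_coe.2 (hs h2))) hw))
      exact Submodule.mem_iSup_of_mem _ (Submodule.mem_iSup_of_mem g1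
        (Submodule.mem_iSup_of_mem (g3 _ h1 (hs h2)) h6))
    rintro w ⟨hw, hk⟩
    have h7 := key hw
    rw [Submodule.mem_comap, LinearMap.comp_apply, LinearMap.mulLeft_apply, ct_mul,
      LinearMap.mem_ker.1 hk, mul_zero, sub_zero, tt_vv, one_smul] at h7
    exact h7
  · refine iSup₂_le fun τ hτ => iSup_le fun hs => ?_
    obtain ⟨τ', a1, a2, a3, a4⟩ := exists_full_ray hp h1 (hS _ h1).2.1 hτ hs
    obtain ⟨l, J, hA, e⟩ := mem_DX.1 hη
    obtain ⟨l', b1, b2, b3, b4, b5⟩ := gc_ext (fun σ hσ => (hS σ hσ).1) _ l τ' rfl hA.1 hA.2.1 a1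
      fun ρ hρ => (h3 ρ (hA.1 hρ) (e ▸ mem_fc.2 (Or.inl ⟨ρ, hρ, rfl⟩))).trans a2
    refine (wg_mono (a4.trans (gc_UR_le a1 b5)) p).trans
      (le_iSup₂_of_le (fc X l' (X.ray τ'))
        (mem_DX.2 ⟨l', _, ⟨b2, b3, τ', a1, b4, le_rfl⟩, rfl⟩) (le_iSup_of_le ?_ le_rfl))
    rw [e, fc_subset hA.1 b2, a3]
    exact ⟨b1, fun r hr => h4 r (e ▸ rr_mem_fc.2 hr)⟩
  · exact iSup₂_le fun τ _ => iSup_le fun _ => gc_wg_ker (gc_UR_ker τ) p

end K2
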