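import Pool.Agent.Lib.MP_e9c0f3_ag.K2.MW
import Pool.Agent.Lib.MP_e9c0f3_ag.KH.Ext

/-! From the package for links to the package for closed stars. -/

open scoped Classical

noncomputable section

namespace KH

open Tr

variable {N : Type} [AddCommGroup N] [Module ℝ N] {La : Du N}
  {De : Finset (Finset N)} {t : Finset N} {l : N → ℝ} {m : Module.Dual ℝ N}
  {k : ℕ} {φ : Pol N →ₗ[ℝ] ℝ}

/-- A degree map of the closed star of `t`. -/
structure ValidAt (La : Du N) (De : Finset (Finset N)) (t : Finset N) (k : ℕ)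
    (φ : Pol N →ₗ[ℝ] ℝ) : Prop where
  pure : ∀ s ∈ link De t, ∃ u ∈ link De t, s ⊆ u ∧ u.card = k
  hom : ∀ j, j ≠ k → ∀ a ∈ Hom N j, φ a = 0
  kill : Ic La De t ≤ ann φ
  pos : ∀ s ∈ link De t, s.card = k → 0 < φ (mon s)

theorem ValidAt.link (hD : Down De) (h : ValidAt La De t k φ) :
    Valid (res La t) (link De t) k (φ ∘ₗ (kil t).toLinearMap) where
  pure := h.pure
  hom j hj _ ha := h.hom j hj _ (kil_hom ha)
  kill a ha b := by
    have := h.kill (kil_mem_Ic hD ha) (kil t b)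
    rwa [← map_mul] at this
  pos s hs hc := by
    have := h.pos s hs hc
    rwa [LinearMap.comp_apply, AlgHom.toLinearMap_apply, kil_mon, if_pos (mem_link.1 hs).1]

/-- Poincaré duality on the closed star -/
theorem ValidAt.pd (hD : Down De) (ht : t ∈ De) (hon : Onto La t) (h : ValidAt La De t k φ)
    (hp : PD0 (res La t) (KH.link De t)) : ann φ = Ic La De t := by
  refine le_antisymm (fun p hp' => ?_) h.kill
  obtain ⟨g, -, g2, g3⟩ := exists_subs ht hon
  have h1 := Jd_le_Ic (t := t) hD (g3 p)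
  have h2 := (mem_ann_congr (h.kill h1)).1 hp'
  have h3 := kil_mem_Ic hD (hp _ _ (h.link hD) (show subs t g p ∈ _ from fun b => by
    rw [LinearMap.comp_apply, AlgHom.toLinearMap_apply, map_mul (kil t), g2]
    exact h2 _))
  rw [g2] at h3
  simpa using Ideal.add_mem _ h1 h3

theorem ValidAt.hr_iff (hD : Down De) (ht : t ∈ De) (hon : Onto La t) (h : ValidAt La De t k φ)
    (hm : m ∈ La) (hm' : ∀ v ∈ t, m v = l v) :
    HR (Hom N) (φ ∘ₗ (kil t).toLinearMap) k (lin (KH.link De t) fun v => l v - m v) ↔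
      HR (Hom N) φ k (lin De l) := by
  obtain ⟨g, g1, g2, g3⟩ := exists_subs ht hon
  have g4 : ∀ a, (φ ∘ₗ (kil t).toLinearMap) (subs t g a) = φ a := fun a => by
    rw [LinearMap.comp_apply, AlgHom.toLinearMap_apply, g2]
    exact (deg_congr (h.kill (Jd_le_Ic hD (g3 a)))).symm
  have g5 : ∀ y, ∃ a, y - subs t g a ∈ ann (φ ∘ₗ (kil t).toLinearMap) := fun y =>
    ⟨kil t y, fun b => by
      rw [LinearMap.comp_apply, AlgHom.toLinearMap_apply, map_mul (kil t), map_sub, g2,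
        ← subs_zero, subs_subs fun _ _ => map_zero _, sub_self, zero_mul, map_zero]⟩
  rw [← subs_lin (g := g), transfer_HR gr_mv (h.link hD).dat (subs_hom g1) g4 g5]
  refine (HR_congr (h.kill ?_)).symm
  have := add_mem (lin_sub_link (La := La) hD (t := t) (l := fun v => l v - m v)
    fun v hv => by rw [hm' v hv, sub_self]) (lin_mem_Ic hm)
  rwa [lin_sub, sub_add_eq_add_sub, sub_add_cancel] at this

/-- the Hodge–Riemann relations on the closed star -/
theorem ValidAt.hr (hF : Fan La De) (ht : t ∈ De) (h : ValidAt La De t k φ)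
    (hp : HR0 (res La t) (KH.link De t)) (hl : Cvx La De l) : HR (Hom N) φ k (lin De l) := by
  obtain ⟨m, a, b, -⟩ := hl t ht
  exact (h.hr_iff hF.down ht (hF.onto t ht) a b).1 (hp _ _ (h.link hF.down) _ (hl.link hF a b))

end KH

open ExteriorAlgebra

namespace K2

variable {N : Type} [AddCommGroup N] [Module ℝ N] {De : Finset (Finset N)} {β : Finset N}

theorem gd_sp (u : Finset N) : KH.sp (⊤ : KH.Du N) u = Submodule.span ℝ (u : Set N) := by
  rw [KH.sp, KH.perp, Submodule.dualCoannihilator_top, sup_bot_eq]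

theorem gd_F (k : ℕ) (s : Finset N) : KH.F ⊤ De k s = FF De k s := by
  simp only [KH.F, FF, wg, gd_sp]

theorem gd_J (s : Finset N) : KH.J ⊤ s = JE s := by
  refine le_antisymm (Submodule.mul_le.2 ?_) (iSup₂_le fun x hx => ?_)
  · rintro _ ⟨x, hx, rfl⟩ b -
    rw [gd_sp] at hx
    induction hx using Submodule.span_induction with
    | mem x hx => exact Submodule.mem_iSup_of_mem x (Submodule.mem_iSup_of_mem hx ⟨b, rfl⟩)
    | zero => simp
    | add x y _ _ hx hy =>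
      rw [map_add, add_mul]
      exact add_mem hx hy
    | smul c x _ hx =>
      rw [map_smul, smul_mul_assoc]
      exact Submodule.smul_mem _ _ hx
  · rintro _ ⟨b, rfl⟩
    exact KH.ι_mul_mem_J (KH.mem_sp_of_mem hx) b

theorem gd_Ic : KH.Ic ⊤ De β = Ic De β := by
  unfold KH.Ic Ic
  congr 2
  ext a
  exact ⟨fun ⟨m, _, e⟩ => ⟨m, e⟩, fun ⟨m, e⟩ => ⟨m, trivial, e⟩⟩

theorem gd_rd_single (s : Finset N) (a : Ex N) :
    rd β (Finsupp.single s a) = ∑ v ∈ s \ β, Finsupp.single (s.erase v) (ι ℝ v * a) := by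
  simp [rd]

theorem gd_rd {z : Finset N →₀ Ex N}
    (hz : z ∈ Pw fun s => if s ∈ De ∧ β ⊆ s then (⊤ : Submodule ℝ (Ex N)) else ⊥) {r : Finset N}
    (hr : β ⊆ r) : rd β z r = KH.dR De z r := by
  let f : (Finset N →₀ Ex N) →ₗ[ℝ] Ex N := Finsupp.lapply r ∘ₗ rd β -
    ∑ v ∈ KH.nb De r, LinearMap.mulLeft ℝ (ι ℝ v) ∘ₗ Finsupp.lapply (insert v r)
  have hf : ∀ z, f z = rd β z r - KH.dR De z r := fun z => by
    simp [f, KH.dR, LinearMap.sum_apply]
  have := map_mem_of_Pw f (S := ⊥) (fun s a ha => ?_) hz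
  · rwa [hf, Submodule.mem_bot, sub_eq_zero] at this
  by_cases hs : s ∈ De ∧ β ⊆ s
  swap
  · rw [if_neg hs, Submodule.mem_bot] at ha
    simp [ha]
  rw [hf, Submodule.mem_bot, sub_eq_zero, gd_rd_single, Finsupp.finsetSum_apply, KH.dR]
  simp only [Finsupp.single_apply, mul_ite, mul_zero]
  rw [← Finset.sum_filter, ← Finset.sum_filter]
  refine Finset.sum_congr ?_ fun _ _ => rfl
  ext v
  simp only [Finset.mem_filter, Finset.mem_sdiff, KH.mem_nb]
  constructor
  · rintro ⟨⟨h1, -⟩, rfl⟩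
    rw [Finset.insert_erase h1]
    exact ⟨⟨Finset.notMem_erase _ _, hs.1⟩, rfl⟩
  · rintro ⟨⟨h1, -⟩, rfl⟩
    exact ⟨⟨Finset.mem_insert_self _ _, fun h => h1 (hr h)⟩, Finset.erase_insert h1⟩

theorem gd_rd_mem (hD : KH.Down De) {p q : ℕ} {z : Finset N →₀ Ex N} (hz : z ∈ RC De β p (q + 1)) :
    rd β z ∈ Pw fun s => if s ∈ De ∧ β ⊆ s ∧ (s \ β).card = q then (⊤ : Submodule ℝ (Ex N))
      else ⊥ := by
  refine map_mem_of_Pw (rd β) (fun s a ha => ?_) hz
  split_ifs at ha with hs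
  swap
  · rw [Submodule.mem_bot] at ha
    simp [ha]
  rw [gd_rd_single]
  refine Submodule.sum_mem _ fun v hv => single_mem_Pw ?_
  obtain ⟨h1, h2⟩ := Finset.mem_sdiff.1 hv
  rw [if_pos]
  · trivial
  refine ⟨hD _ hs.1 _ (Finset.erase_subset _ _), fun x hx =>
    Finset.mem_erase.2 ⟨fun e => h2 (e ▸ hx), hs.2.1 hx⟩, ?_⟩
  rw [Finset.erase_sdiff_comm, Finset.card_erase_of_mem hv, hs.2.2.1, Nat.add_sub_cancel]

theorem gd_RC_le {p q : ℕ} : RC De β p q ≤
    Pw fun s => if s ∈ De ∧ β ⊆ s then (⊤ : Submodule ℝ (Ex N)) else ⊥ :=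
  Pw_mono fun s => by
    split_ifs with h1 h2
    · exact le_top
    · exact absurd ⟨h1.1, h1.2.1⟩ h2
    · exact bot_le
    · exact le_rfl

/-- the two forms of exactness of the residue complex agree -/
theorem res_of_RESat (hD : KH.Down De) (h : KH.RESat ⊤ De β) : Res De β := by
  intro p q hq z hz hd
  obtain ⟨j, rfl⟩ : ∃ j, p = q + (j + 1) := ⟨p - q - 1, by omega⟩
  have hc : ∀ s, β ⊆ s → ((s \ β).card = q ↔ s.card = q + β.card) := fun s hs => by
    have := Finset.card_sdiff_add_card_eq_card hs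
    omega
  have hc' : ∀ s, β ⊆ s → ((s \ β).card = q + 1 ↔ s.card = q + β.card + 1) := fun s hs => by
    have := Finset.card_sdiff_add_card_eq_card hs
    omega
  obtain ⟨y, y0, y1, y2⟩ := h (q + β.card) j z (fun s hs hβ hk => by
      have := mem_Pw.1 hz s
      rwa [if_pos ⟨hs, hβ, (hc s hβ).2 hk, by omega⟩, Nat.add_sub_cancel_left, ← gd_F] at this)
    (fun r hr hβ _ => by
      have := mem_Pw.1 hd r
      rwa [if_pos ⟨hr, hβ⟩, gd_rd (gd_RC_le hz) hβ, ← gd_J] at this)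
  let y' : Finset N →₀ Ex N := Finsupp.onFinset De
    (fun s => if s ∈ De ∧ β ⊆ s ∧ (s \ β).card = q + 1 then y s else 0) fun s hs => by
      by_contra h'
      exact hs (if_neg fun h'' => h' h''.1)
  have hy : y' ∈ RC De β (q + (j + 1)) (q + 1) := mem_Pw.2 fun s => by
    rw [Finsupp.onFinset_apply]
    by_cases hs : s ∈ De ∧ β ⊆ s ∧ (s \ β).card = q + 1
    · rw [if_pos hs, if_pos ⟨hs.1, hs.2.1, hs.2.2, by omega⟩, ← gd_F,
        show q + (j + 1) - (q + 1) = j by omega]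
      exact y1 s hs.1 ((hc' s hs.2.1).1 hs.2.2)
    · rw [if_neg hs]
      exact zero_mem _
  refine Submodule.mem_sup.2 ⟨rd β y', ⟨y', hy, rfl⟩, z - rd β y', mem_Pw.2 fun s => ?_, by abel⟩
  by_cases hs : s ∈ De ∧ β ⊆ s ∧ (s \ β).card = q
  · rw [if_pos ⟨hs.1, hs.2.1⟩, Finsupp.sub_apply, gd_rd (gd_RC_le hy) hs.2.1, ← gd_J,
      KH.dR_congr (z := y) fun v hv => ?_]
    · exact y2 s hs.1 hs.2.1 ((hc s hs.2.1).1 hs.2.2)
    obtain ⟨h1, h2⟩ := KH.mem_nb.1 hv
    have h3 : β ⊆ insert v s := hs.2.1.trans (Finset.subset_insert _ _)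
    rw [Finsupp.onFinset_apply, if_pos ⟨h2, h3, (hc' _ h3).2
      (by rw [Finset.card_insert_of_notMem h1, (hc s hs.2.1).1 hs.2.2])⟩]
  · have a1 := mem_Pw.1 hz s
    have a2 := mem_Pw.1 (gd_rd_mem hD hy) s
    rw [if_neg fun h' => hs ⟨h'.1, h'.2.1, h'.2.2.1⟩, Submodule.mem_bot] at a1
    rw [if_neg hs, Submodule.mem_bot] at a2
    rw [Finsupp.sub_apply, a1, a2, sub_zero]
    exact zero_mem _

theorem gd_fn (hF : KH.Fan ⊤ De) : Fn De :=
  ⟨hF.down, fun t ht f => (hF.onto t ht f).imp fun _ h => h.2⟩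

theorem gd_good {t : Module.Dual ℝ N} (hD : KH.Down De)
    (h : ∀ v, {v} ∈ De → t v = 1 → KH.GOOD (KH.res ⊤ {v}) (KH.link De {v})) (hβ : β ∈ De)
    (h0 : (fp t β).Nonempty) : KH.Good0 (KH.res ⊤ β) (KH.link De β) := by
  obtain ⟨v, hv⟩ := h0
  obtain ⟨h1, h2⟩ := Finset.mem_filter.1 hv
  have hd : Disjoint (β.erase v) {v} := by simp
  have e : β.erase v ∪ {v} = β := by
    rw [Finset.union_comm, ← Finset.insert_eq, Finset.insert_erase h1]
  have := h v (hD _ hβ _ (by simpa using h1)) h2 (β.erase v) (KH.mem_link.2 ⟨hd, e.symm ▸ hβ⟩)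
  rwa [KH.res_res, KH.link_link hd, e] at this

/-- a balanced weight gives degree maps of the closed stars -/
theorem gd_validAt {d : ℕ} (hF : KH.Fan ⊤ De) (hc : β.card ≤ d + 1)
    (pure : ∀ s ∈ De, β ⊆ s → ∃ u ∈ De, s ⊆ u ∧ u.card = d + 1) {w : Finset N → ℝ}
    (pos : ∀ u ∈ De, β ⊆ u → u.card = d + 1 → 0 < w u)
    (bal : ∀ τ ∈ De, β ⊆ τ → τ.card = d → ∀ m : Module.Dual ℝ N, (∀ v ∈ τ, m v = 0) →
      ∑ x ∈ KH.nb De τ, m x * w (insert x τ) = 0) :
    ∃ φ, KH.ValidAt ⊤ De β (d + 1 - β.card) φ ∧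
      ∀ η ∈ De, β ⊆ η → η.card = d + 1 → φ (xs (η \ β)) = w η := by
  obtain ⟨φ, h1, h2, h3⟩ := KH.exists_functional hF (t := β) (k := d + 1 - β.card)
    (c := fun s => w (s ∪ β)) (fun s hs hk m _ hm => by
      obtain ⟨a, b⟩ := KH.mem_link.1 hs
      simp only [Finset.insert_union]
      refine bal _ b Finset.subset_union_right ?_ m hm
      rw [Finset.card_union_of_disjoint a]
      omega)
  have lk : ∀ η ∈ De, β ⊆ η → η \ β ∈ KH.link De β := fun η a b =>
    KH.mem_link.2 ⟨Finset.sdiff_disjoint, by rwa [Finset.sdiff_union_of_subset b]⟩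
  refine ⟨φ, ⟨fun s hs => ?_, h1, h2, fun s hs hk => ?_⟩, fun η a b c => ?_⟩
  · obtain ⟨a, b⟩ := KH.mem_link.1 hs
    obtain ⟨u, hu, h4, h5⟩ := pure _ b Finset.subset_union_right
    have h6 : β ⊆ u := Finset.subset_union_right.trans h4
    exact ⟨u \ β, lk u hu h6, Finset.subset_sdiff.2 ⟨Finset.subset_union_left.trans h4, a⟩,
      by rw [Finset.card_sdiff_of_subset h6, h5]⟩
  · obtain ⟨a, b⟩ := KH.mem_link.1 hs
    rw [h3 s hs hk]
    refine pos _ b Finset.subset_union_right ?_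
    rw [Finset.card_union_of_disjoint a]
    omega
  · have := h3 _ (lk η a b) (by rw [Finset.card_sdiff_of_subset b, c])
    rwa [Finset.sdiff_union_of_subset b] at this

open KH in
/-- There is no degree map on `De` itself: the weight is balanced only at the faces that have a
vertex at height one. -/
theorem dat_of {t : Module.Dual ℝ N} {d : ℕ} {hh : N → ℝ}
    (hF : Fan ⊤ De) (t01 : ∀ s ∈ De, ∀ v ∈ s, t v = 0 ∨ t v = 1)
    (hc : ∀ s ∈ De, s.card ≤ d + 1) (pure : ∀ β ∈ De, ∃ η ∈ De, β ⊆ η ∧ η.card = d + 1)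
    (ω : Finset N → ℝ) (pos : ∀ η ∈ De, η.card = d + 1 → (fp t η).Nonempty → 0 < ω η)
    (bal : ∀ τ ∈ De, τ.card = d → (fp t τ).Nonempty → ∀ μ : Module.Dual ℝ N,
      (∀ v ∈ τ, μ v = 0) → ∑ v ∈ nb De τ, μ v * ω (insert v τ) = 0)
    (good : ∀ β ∈ De, (fp t β).Nonempty → Good0 (res ⊤ β) (link De β)) (hx : Cvx ⊤ De hh) :
    ∃ φ, Dat De t d hh φ := by
  have up : ∀ {β s : Finset N}, (fp t β).Nonempty → β ⊆ s → (fp t s).Nonempty :=
    fun h0 hs => h0.mono (Finset.filter_subset_filter _ hs)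
  have ex : ∀ β ∈ De, (fp t β).Nonempty → ∃ φ, KH.ValidAt ⊤ De β (d + 1 - β.card) φ ∧
      ∀ η ∈ De, β ⊆ η → η.card = d + 1 → φ (xs (η \ β)) = ω η := fun β hβ h0 =>
    gd_validAt hF (hc β hβ) (fun s a _ => pure s a) (fun s a b c => pos s a c (up h0 b))
      fun s a b c => bal s a c (up h0 b)
  choose! φ V val using ex
  have fi : ∀ {β}, Fi De t β → (fp t β).Nonempty := fun ⟨_, ⟨v, hv⟩, h1⟩ =>
    ⟨v, Finset.mem_filter.2 ⟨hv, h1 v hv⟩⟩
  have md : ∀ β ∈ De, (fp t β).Nonempty → φ β ∈ Md De β (d + 1 - β.card) := fun β hβ h0 =>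
    ⟨fun a ha => KH.deg_of_ann ((V β hβ h0).kill (gd_Ic (De := De) (β := β) ▸ ha)),
      (V β hβ h0).hom⟩
  refine ⟨φ, ⟨gd_fn hF, t01, fun β hβ h0 => res_of_RESat hF.down (KH.RES.at hF hβ
    (good β hβ h0 _ _ ((V β hβ h0).link hF.down)).2.2)⟩, hc, fun β b => (V β b.1 (fi b)).hom,
    fun β b a => ?_, fun β x b b' hxβ => ?_, fun β b k a ha hk h1 h2 => ?_⟩
  · rw [← gd_Ic, ← (V β b.1 (fi b)).pd hF.down b.1 (hF.onto β b.1)
      fun d deg hv => (good β b.1 (fi b) d deg hv).2.1]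
    exact Iff.rfl
  · have c1 := hc _ b'.1
    have m1 := md _ b'.1 (fi b')
    have m2 := md _ b.1 (fi b)
    rw [Finset.card_insert_of_notMem hxβ] at c1 m1
    rw [show d + 1 - β.card = d + 1 - (β.card + 1) + 1 by omega] at m2
    rw [← sub_eq_zero]
    refine mw_ext (gd_fn hF) (sub_mem m1 (mx_X_Md (gd_fn hF) m2 hxβ)) fun η hη hs hk => ?_
    have c2 : η.card = d + 1 := by
      have := Finset.card_sdiff_add_card_eq_card hs
      rw [Finset.card_insert_of_notMem hxβ] at this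
      omega
    have e : η \ β = insert x (η \ insert x β) := by
      rw [Finset.sdiff_insert, Finset.insert_erase
        (Finset.mem_sdiff.2 ⟨hs (Finset.mem_insert_self _ _), hxβ⟩)]
    rw [LinearMap.sub_apply, mx_apply, ← xs_insert (by simp), ← e, val _ b'.1 (fi b') η hη hs c2,
      val _ b.1 (fi b) η hη ((Finset.subset_insert _ _).trans hs) c2, sub_self]
  · have := (V β b.1 (fi b)).hr hF b.1 (fun d deg hv => (good β b.1 (fi b) d deg hv).1) hx
      k hk a ha h1 h2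
    rwa [mul_comm (KH.lin De hh ^ _)] at this

end K2
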