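import Pool.Agent.Lib.MP_e9c0f3_ag.K2.GW
import Pool.Agent.Lib.MP_e9c0f3_ag.K2.GDat
import Pool.Agent.Lib.MP_e9c0f3_ag.K2.GCoe
import Pool.Agent.Lib.MP_e9c0f3_ag.KH.Main

/-! The cone over a smooth projective complex has the package at all faces at height one. -/

open ExteriorAlgebra H5T Matrix KH
open scoped Classical

noncomputable section

namespace K2

variable {n : ℕ} {X : TropCx n} {f : Pt n → ℝ} {h : (Fin n → ℚ) → ℚ}
  {m : Set (Pt n) → Finset (Fin n → ℚ) → Fin n → ℚ} {c : Set (Pt n) → Finset (Fin n → ℚ) → ℝ}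
  {d : ℕ}

theorem DX_good (hp : PJ X f h m c) (hS : X.Smooth d) {β : Finset (Nn n)} (hβ : β ∈ DX X)
    (h0 : (fp tt β).Nonempty) : Good0 (res ⊤ β) (link (DX X) β) := by
  obtain ⟨hσ, hv, -⟩ := top_spec hβ h0
  generalize top X β = σ at hσ hv
  obtain ⟨k, M, A, hM, -, -, hA, hs, -⟩ := chart hS hσ
  have e : β.erase (vv X σ) ∪ {vv X σ} = β := by
    rw [Finset.union_comm, ← Finset.insert_eq, Finset.insert_erase hv]
  have hd : Disjoint (β.erase (vv X σ)) {vv X σ} := by simp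
  have := good_of_berg M hM A hA ((DX_fan hp).link (vv_mem_DX hσ)) hs (β.erase (vv X σ))
    (mem_link.2 ⟨hd, e.symm ▸ hβ⟩)
  rwa [res_res, link_link hd, e] at this

theorem exists_dat (hp : PJ X f h m c) (hS : X.Smooth d) :
    ∃ hh φ, Dat (DX X) tt d hh φ ∧ ∀ r, hh (rr r) = h r := by
  obtain ⟨hh, h1, h2⟩ := exists_cvx hp
  obtain ⟨ω, pos, bal⟩ := exists_weight hp hS
  obtain ⟨φ, hφ⟩ := dat_of (DX_fan hp) DX_t01 (DX_card hp hS) (DX_pure hp hS) ω pos bal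
    (fun β hβ h0 => DX_good hp hS hβ h0) h1
  exact ⟨hh, φ, hφ, h2⟩

end K2
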