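import Pool.Agent.Lib.MP_e9c0f3_ag.K2.GFan
import Pool.Agent.Lib.MP_e9c0f3_ag.KH.Defs

/-! The barycentric subdivision is projective. -/

open ExteriorAlgebra H5T Matrix KH Filter Topology
open scoped Classical

noncomputable section

namespace K2

variable {n : ℕ} {X : TropCx n} {f : Pt n → ℝ} {h : (Fin n → ℚ) → ℚ}
  {m : Set (Pt n) → Finset (Fin n → ℚ) → Fin n → ℚ} {c : Set (Pt n) → Finset (Fin n → ℚ) → ℝ}
  {l l' : Finset (Set (Pt n))} {J J' : Finset (Fin n → ℚ)} {σ ρ τ : Set (Pt n)}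
  {η β : Finset (Nn n)} {d : ℕ}

/-- The number of cells through a point. -/
def gaN (X : TropCx n) (x : Pt n) : ℕ := (X.cells.filter (x ∈ ·)).card

theorem gaN_pos (hρ : ρ ∈ X.cells) : 0 < gaN X (X.pt ρ) :=
  Finset.card_pos.2 ⟨ρ, Finset.mem_filter.2 ⟨hρ, gf_pt hρ⟩⟩

theorem gaN_lt (hρ : ρ ∈ X.cells) (hσ : σ ∈ X.cells) (h1 : ρ ⊆ σ) (h2 : ρ ≠ σ) :
    gaN X (X.pt σ) < gaN X (X.pt ρ) := by
  refine Finset.card_lt_card ⟨fun τ hτ => ?_, fun e => ?_⟩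
  · obtain ⟨a, b⟩ := Finset.mem_filter.1 hτ
    exact Finset.mem_filter.2 ⟨a, cmp_pt hσ a b (h1 (gf_pt hρ))⟩
  · exact h2 (h1.antisymm (cmp_pt hσ hρ
      (Finset.mem_filter.1 (e (Finset.mem_filter.2 ⟨hρ, gf_pt hρ⟩))).2))

theorem ga_pow {a b : ℕ} (hab : a < b) :
    Tendsto (fun ε : ℝ => ε ^ b / ε ^ a) (𝓝[>] 0) (𝓝 0) := by
  have h1 : Tendsto (fun ε : ℝ => ε ^ (b - a)) (𝓝[>] 0) (𝓝 0) := by
    have := ((continuous_pow (b - a)).tendsto (0 : ℝ)).mono_left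
      (nhdsWithin_le_nhds (s := Set.Ioi 0))
    rwa [zero_pow (by omega)] at this
  refine h1.congr' ?_
  filter_upwards [self_mem_nhdsWithin] with ε hε
  rw [pow_sub₀ _ (ne_of_gt hε) hab.le, div_eq_mul_inv]

theorem ga_up {g : ℝ → ℝ} {a b : ℕ} {L : ℝ} (hab : a < b)
    (hg : Tendsto (fun ε : ℝ => g ε / ε ^ b) (𝓝[>] 0) (𝓝 L)) :
    Tendsto (fun ε : ℝ => g ε / ε ^ a) (𝓝[>] 0) (𝓝 0) := by
  have h1 := hg.mul (ga_pow hab)
  rw [mul_zero] at h1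
  refine h1.congr' ?_
  filter_upwards [self_mem_nhdsWithin] with ε hε
  have : ε ^ b ≠ 0 := pow_ne_zero _ (ne_of_gt hε)
  field_simp

theorem gfLam_vv_le (hp : PJ X f h m c) (hσ : σ ∈ X.cells) (hJ : J ⊆ X.ray σ)
    (hρ : ρ ∈ X.cells) : gfLam m c σ J (vv X ρ) ≤ f (X.pt ρ) := by
  rw [gfLam_vv]
  exact ((hp σ hσ J hJ ρ hρ).1 _ (gf_pt hρ)).1

theorem gfLam_rr_le (hp : PJ X f h m c) (hσ : σ ∈ X.cells) (hJ : J ⊆ X.ray σ)
    {r : Fin n → ℚ} (hρ : ρ ∈ X.cells) (hr : r ∈ X.ray ρ) : gfLam m c σ J (rr r) ≤ h r := by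
  rw [gfLam_rr, Rat.cast_le]
  exact ((hp σ hσ J hJ ρ hρ).2 _ hr).1

theorem ga_chain (hp : PJ X f h m c) (hl : l ⊆ X.cells)
    (hc : IsChain (· ⊆ ·) (l : Set (Set (Pt n)))) (hs : σ ∈ l) (ht : ∀ ρ ∈ l, ρ ⊆ σ)
    (hJ : J ⊆ X.ray σ) : ∃ ν : ℝ → Module.Dual ℝ (Nn n), (∀ ε, ∀ r ∈ J, ν ε (rr r) = 0) ∧
      (∀ ε, ∀ ρ ∈ l, ν ε (vv X ρ) = ε ^ gaN X (X.pt ρ)) ∧
      (∀ v, ∃ L, Tendsto (fun ε => ν ε v / ε ^ gaN X (X.pt σ)) (𝓝[>] 0) (𝓝 L)) ∧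
      ∀ ρ ∈ X.cells, ρ ⊆ σ → ρ ∉ l → ∀ᶠ ε in 𝓝[>] 0, ε ^ gaN X (X.pt ρ) < ν ε (vv X ρ) := by
  induction l using Finset.strongInduction generalizing σ with
  | H l ih =>
    have hσ := hl hs
    obtain ⟨ν, D, p1, p2, p3, p4, p5, p6, p7⟩ : ∃ (ν : ℝ → Module.Dual ℝ (Nn n))
        (D : Module.Dual ℝ (Nn n)), (∀ ε, ∀ r ∈ J, ν ε (rr r) = 0) ∧
        (∀ ε, ∀ ρ ∈ l.erase σ, ν ε (vv X ρ) = ε ^ gaN X (X.pt ρ)) ∧
        (∀ v, Tendsto (fun ε => ν ε v / ε ^ gaN X (X.pt σ)) (𝓝[>] 0) (𝓝 0)) ∧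
        (∀ r ∈ J, D (rr r) = 0) ∧ (∀ ρ ∈ l.erase σ, D (vv X ρ) = 0) ∧ 0 < D (vv X σ) ∧
        ∀ ρ ∈ X.cells, ρ ⊆ σ → ρ ∉ l → 0 < D (vv X ρ) ∨
          (D (vv X ρ) = 0 ∧ ∀ᶠ ε in 𝓝[>] 0, ε ^ gaN X (X.pt ρ) < ν ε (vv X ρ)) := by
      rcases (l.erase σ).eq_empty_or_nonempty with e | h1
      · exact ⟨fun _ => 0, tt, by simp, by simp [e], by simp, by simp, by simp [e], by simp,
          fun _ _ _ _ => Or.inl (by simp)⟩
      have hl' := (Finset.erase_subset σ l).trans hl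
      have hc' := hc.mono (Finset.coe_subset.2 (Finset.erase_subset σ l))
      obtain ⟨s, hs', h4⟩ := gf_max h1 hc'
      have hss := ht s (Finset.mem_of_mem_erase hs')
      have hne := (Finset.mem_erase.1 hs').1
      have hJ' : J ⊆ X.ray s := hJ.trans (X.ray_anti σ hσ s (hl' hs') hss)
      obtain ⟨ν, q1, q2, q3, q4⟩ := ih (l.erase σ) (Finset.erase_ssubset hs) hl' hc' hs' h4 hJ'
      have hD : ∀ ρ ∈ X.cells, ρ ⊆ σ → (gfLam m c σ J - gfLam m c s J) (vv X ρ) =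
          f (X.pt ρ) - gfLam m c s J (vv X ρ) := fun ρ hρ a => by
        rw [LinearMap.sub_apply, (gfLam_vv_iff hp hσ hJ hρ).2 a]
      have hD0 : ∀ ρ ∈ X.cells, ρ ⊆ s → (gfLam m c σ J - gfLam m c s J) (vv X ρ) = 0 :=
        fun ρ hρ a => by rw [hD ρ hρ (a.trans hss), (gfLam_vv_iff hp (hl' hs') hJ' hρ).2 a, sub_self]
      have hD1 : ∀ ρ ∈ X.cells, ρ ⊆ σ → ¬ρ ⊆ s → 0 < (gfLam m c σ J - gfLam m c s J) (vv X ρ) :=
        fun ρ hρ a b => by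
          rw [hD ρ hρ a, sub_pos]
          exact lt_of_le_of_ne (gfLam_vv_le hp (hl' hs') hJ' hρ)
            fun e => b ((gfLam_vv_iff hp (hl' hs') hJ' hρ).1 e)
      refine ⟨ν, gfLam m c σ J - gfLam m c s J, q1, q2, fun v => ?_, fun r hr => ?_,
        fun ρ hρ => hD0 ρ (hl' hρ) (h4 ρ hρ), hD1 σ hσ subset_rfl fun a => hne (hss.antisymm a),
        fun ρ hρ a b => ?_⟩
      · obtain ⟨L, hL⟩ := q3 v
        exact ga_up (gaN_lt (hl' hs') hσ hss hne) hL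
      · rw [LinearMap.sub_apply, (gfLam_rr_iff hp hσ hJ hσ (hJ hr)).2 hr,
          (gfLam_rr_iff hp (hl' hs') hJ' hσ (hJ hr)).2 hr, sub_self]
      · by_cases e : ρ ⊆ s
        · exact Or.inr ⟨hD0 ρ hρ e, q4 ρ hρ e fun k => b (Finset.mem_of_mem_erase k)⟩
        · exact Or.inl (hD1 ρ hρ a e)
    have hlim : ∀ v, Tendsto (fun ε => (ν ε + ((ε ^ gaN X (X.pt σ) - ν ε (vv X σ)) /
        D (vv X σ)) • D) v / ε ^ gaN X (X.pt σ)) (𝓝[>] 0) (𝓝 (D v / D (vv X σ))) := by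
      intro v
      have h1 := (p3 v).add
        (((tendsto_const_nhds (x := (1 : ℝ))).sub (p3 (vv X σ))).mul_const (D v / D (vv X σ)))
      rw [zero_add, sub_zero, one_mul] at h1
      refine h1.congr' ?_
      filter_upwards [self_mem_nhdsWithin] with ε hε
      have : ε ^ gaN X (X.pt σ) ≠ 0 := pow_ne_zero _ (ne_of_gt hε)
      rw [LinearMap.add_apply, LinearMap.smul_apply, smul_eq_mul]
      field_simp
    refine ⟨fun ε => ν ε + ((ε ^ gaN X (X.pt σ) - ν ε (vv X σ)) / D (vv X σ)) • D,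
      fun ε r hr => ?_, fun ε ρ hρ => ?_, fun v => ⟨_, hlim v⟩, fun ρ hρ a b => ?_⟩
    · simp [p1 ε r hr, p4 r hr]
    · rw [LinearMap.add_apply, LinearMap.smul_apply, smul_eq_mul]
      by_cases e : ρ = σ
      · rw [e, div_mul_cancel₀ _ p6.ne', add_sub_cancel]
      · have k := Finset.mem_erase.2 ⟨e, hρ⟩
        rw [p2 ε ρ k, p5 ρ k, mul_zero, add_zero]
    · rcases p7 ρ hρ a b with k | ⟨k1, k2⟩
      · have h1 := (ga_pow (gaN_lt hρ hσ a fun e => b (e ▸ hs))).eventually_lt (hlim (vv X ρ))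
          (div_pos k p6)
        filter_upwards [h1, self_mem_nhdsWithin] with ε h2 hε
        exact (div_lt_div_iff_of_pos_right (pow_pos hε _)).1 h2
      · refine k2.mono fun ε h2 => ?_
        rwa [LinearMap.add_apply, LinearMap.smul_apply, k1, smul_zero, add_zero]

theorem ga_face (hp : PJ X f h m c) (hA : Adm X l J) : ∀ᶠ ε : ℝ in 𝓝[>] 0,
    ∃ μ : Module.Dual ℝ (Nn n), (∀ ρ ∈ l, μ (vv X ρ) = f (X.pt ρ) - ε ^ gaN X (X.pt ρ)) ∧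
      (∀ r ∈ J, μ (rr r) = h r) ∧
      (∀ ρ ∈ X.cells, ρ ∉ l → μ (vv X ρ) < f (X.pt ρ) - ε ^ gaN X (X.pt ρ)) ∧
      ∀ ρ ∈ X.cells, ∀ r ∈ X.ray ρ, r ∉ J → μ (rr r) < h r := by
  obtain ⟨hl, hc, σ, hσ, h1, hJ⟩ := hA
  rcases l.eq_empty_or_nonempty with rfl | h0
  · filter_upwards [Ioo_mem_nhdsGT one_pos] with ε hε
    refine ⟨gfLam m c σ J - (2 : ℝ) • tt, by simp, fun r hr => ?_, fun ρ hρ _ => ?_,
      fun ρ hρ r hr k => ?_⟩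
    · simpa using (gfLam_rr_iff hp hσ hJ hσ (hJ hr)).2 hr
    · have h2 := gfLam_vv_le hp hσ hJ hρ
      have h3 : ε ^ gaN X (X.pt ρ) ≤ 1 := pow_le_one₀ hε.1.le hε.2.le
      simp only [LinearMap.sub_apply, LinearMap.smul_apply, tt_vv, smul_eq_mul]
      linarith
    · simpa using lt_of_le_of_ne (gfLam_rr_le hp hσ hJ hρ hr)
        fun e => k ((gfLam_rr_iff hp hσ hJ hρ hr).1 e)
  obtain ⟨s, hs, h2⟩ := gf_max h0 hc
  have hs' := hl hs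
  have hJ' : J ⊆ X.ray s := hJ.trans (X.ray_anti σ hσ s hs' (h1 s hs))
  obtain ⟨ν, q1, q2, q3, q4⟩ := ga_chain hp hl hc hs h2 hJ'
  have q5 : ∀ v, Tendsto (fun ε => ν ε v) (𝓝[>] 0) (𝓝 0) := fun v => by
    obtain ⟨L, hL⟩ := q3 v
    simpa using ga_up (gaN_pos hs') hL
  have e1 : ∀ᶠ ε : ℝ in 𝓝[>] 0, ∀ ρ ∈ X.cells, ρ ∉ l →
      (gfLam m c s J - ν ε) (vv X ρ) < f (X.pt ρ) - ε ^ gaN X (X.pt ρ) := by
    refine (Finset.eventually_all _).2 fun ρ hρ => ?_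
    by_cases b : ρ ∈ l
    · exact Eventually.of_forall fun _ k => absurd b k
    by_cases a : ρ ⊆ s
    · refine (q4 ρ hρ a b).mono fun ε k _ => ?_
      rw [LinearMap.sub_apply, (gfLam_vv_iff hp hs' hJ' hρ).2 a]
      linarith
    · have k := lt_of_le_of_ne (gfLam_vv_le hp hs' hJ' hρ)
        fun e => a ((gfLam_vv_iff hp hs' hJ' hρ).1 e)
      have k1 : Tendsto (fun ε : ℝ => ε ^ gaN X (X.pt ρ)) (𝓝[>] 0) (𝓝 0) := by
        simpa using ga_pow (gaN_pos hρ)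
      exact (((q5 (vv X ρ)).const_sub _).eventually_lt (k1.const_sub _) (by simpa using k)).mono
        fun ε k _ => k
  have e2 : ∀ᶠ ε : ℝ in 𝓝[>] 0, ∀ ρ ∈ X.cells, ∀ r ∈ X.ray ρ, r ∉ J →
      (gfLam m c s J - ν ε) (rr r) < h r := by
    refine (Finset.eventually_all _).2 fun ρ hρ => (Finset.eventually_all _).2 fun r hr => ?_
    by_cases b : r ∈ J
    · exact Eventually.of_forall fun _ k => absurd b k
    have k := lt_of_le_of_ne (gfLam_rr_le hp hs' hJ' hρ hr)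
      fun e => b ((gfLam_rr_iff hp hs' hJ' hρ hr).1 e)
    exact (((q5 (rr r)).const_sub _).eventually_lt tendsto_const_nhds (by simpa using k)).mono
      fun ε k _ => k
  filter_upwards [e1, e2] with ε k1 k2
  refine ⟨gfLam m c s J - ν ε, fun ρ hρ => ?_, fun r hr => ?_, k1, k2⟩
  · rw [LinearMap.sub_apply, (gfLam_vv_iff hp hs' hJ' (hl hρ)).2 (h2 ρ hρ), q2 ε ρ hρ]
  · rw [LinearMap.sub_apply, (gfLam_rr_iff hp hs' hJ' hs' (hJ' hr)).2 hr, q1 ε r hr, sub_zero]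

theorem exists_cvx (hp : PJ X f h m c) : ∃ hh : Nn n → ℝ, Cvx ⊤ (DX X) hh ∧
    ∀ r, hh (rr r) = h r := by
  let hh : ℝ → Nn n → ℝ := fun ε =>
    Function.extend rr (fun r => (h r : ℝ)) fun v => f v.2 - ε ^ gaN X v.2
  have h1 : ∀ ε r, hh ε (rr r) = h r := fun ε r => rr_inj.extend_apply _ _ r
  have h2 : ∀ ε ρ, hh ε (vv X ρ) = f (X.pt ρ) - ε ^ gaN X (X.pt ρ) := fun ε ρ =>
    Function.extend_apply' _ _ _ fun ⟨r, e⟩ => vv_ne_rr ρ r e.symm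
  have h3 : ∀ᶠ ε : ℝ in 𝓝[>] 0, Cvx ⊤ (DX X) (hh ε) := by
    refine (Finset.eventually_all _).2 fun t ht => ?_
    obtain ⟨l, J, hA, rfl⟩ := mem_DX.1 ht
    refine (ga_face hp hA).mono fun ε ⟨μ, k1, k2, k3, k4⟩ =>
      ⟨μ, Submodule.mem_top, fun v hv => ?_, fun v hv hn => ?_⟩
    · rcases mem_fc.1 hv with ⟨ρ, hρ, rfl⟩ | ⟨r, hr, rfl⟩
      · rw [h2, k1 ρ hρ]
      · rw [h1, k2 r hr]
    · obtain ⟨ρ, hρ, rfl | ⟨r, hr, rfl⟩⟩ := mem_vx_DX.1 hv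
      · rw [h2]
        exact k3 ρ hρ fun a => hn ((vv_mem_fc hA.1 hρ).2 a)
      · rw [h1]
        exact k4 ρ hρ r hr fun a => hn (rr_mem_fc.2 a)
  obtain ⟨ε, hε⟩ := h3.exists
  exact ⟨hh ε, hε, h1 ε⟩

end K2
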