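import Pool.Agent.Lib.MP_e9c0f3_ag.K2.GSup
import Pool.Agent.Lib.MP_e9c0f3_ag.K2.GAmp

/-! The local charts of a smooth complex. -/

open ExteriorAlgebra H5T Matrix KH
open scoped Classical

noncomputable section

namespace K2

variable {n : ℕ} {X : TropCx n} {f : Pt n → ℝ} {h : (Fin n → ℚ) → ℚ}
  {m : Set (Pt n) → Finset (Fin n → ℚ) → Fin n → ℚ} {c : Set (Pt n) → Finset (Fin n → ℚ) → ℝ}
  {σ : Set (Pt n)} {d : ℕ}

/-- The integral vectors at height zero. -/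
def LZ (n : ℕ) : Set (Nn n) := {y | y.1 = 0 ∧ ∀ i, ∃ z : ℤ, y.2 i = z}

theorem mem_perp_vv {y : Nn n} :
    y ∈ perp (res ⊤ {vv X σ}) ↔ ∃ a : ℝ, y = a • vv X σ := by
  rw [mem_perp]
  constructor
  · intro H
    refine ⟨y.1, Prod.ext (by simp [vv]) (funext fun i => ?_)⟩
    have := H (LinearMap.proj i ∘ₗ LinearMap.snd ℝ ℝ (Pt n) - X.pt σ i • tt)
      (mem_res.2 ⟨Submodule.mem_top, by simp [vv, tt]⟩)
    simp only [LinearMap.sub_apply, LinearMap.comp_apply, LinearMap.snd_apply,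
      LinearMap.proj_apply, LinearMap.smul_apply, tt, LinearMap.fst_apply, smul_eq_mul] at this
    simp only [vv, Prod.smul_snd, Pi.smul_apply, smul_eq_mul]
    linarith
  · rintro ⟨a, rfl⟩ k hk
    rw [map_smul, (mem_res.1 hk).2 _ (Finset.mem_singleton_self _), smul_zero]

theorem vv_mem_DX (hσ : σ ∈ X.cells) : {vv X σ} ∈ DX X :=
  mem_DX.2 ⟨{σ}, ∅, ⟨by simpa using hσ, by simp, σ, hσ, by simp, by simp⟩, by simp [fc]⟩

theorem DX_fan (hp : PJ X f h m c) : Fan ⊤ (DX X) :=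
  ⟨DX_down, fun t ht g => let ⟨k, hk⟩ := (DX_fn hp).onto t ht g; ⟨k, Submodule.mem_top, hk⟩,
    let ⟨hh, h1, _⟩ := exists_cvx hp; ⟨hh, h1⟩⟩

/-- The chart at a cell, in the form used for fans; `A x = (0, A₀ (x (some ·) - x none))`. -/
theorem chart (hS : X.Smooth d) (hσ : σ ∈ X.cells) :
    ∃ (k : ℕ) (M : Matroid (Option (Fin k))) (A : (Option (Fin k) → ℝ) →ₗ[ℝ] Nn n),
      M.E = Set.univ ∧ M.IsFlat ∅ ∧ M.eRank = d + 1 ∧
      (∀ x, A x ∈ perp (res ⊤ {vv X σ}) ↔ ∀ i j, x i = x j) ∧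
      supp (res ⊤ {vv X σ}) (link (DX X) {vv X σ}) =
        {y | ∃ x : Option (Fin k) → ℝ, (∀ c, M.IsFlat {i | c ≤ x i}) ∧
          y - A x ∈ perp (res ⊤ {vv X σ})} ∧
      (∀ x : Option (Fin k) → ℤ, A (fun e => x e) ∈ LZ n) ∧
      ∀ i j, ∃ μ : Module.Dual ℝ (Nn n), (∀ y ∈ LZ n, ∃ z : ℤ, μ y = z) ∧
        ∀ x, μ (A x) = x i - x j := by
  obtain ⟨-, -, k, M, A₀, P, hE, hr, hPA, hT⟩ := hS σ hσ
  let A : (Option (Fin k) → ℝ) →ₗ[ℝ] Nn n := LinearMap.inr ℝ ℝ (Pt n) ∘ₗ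
    (A₀.map (Int.cast : ℤ → ℝ)).mulVecLin ∘ₗ
      LinearMap.pi fun i =>
        LinearMap.proj (R := ℝ) (φ := fun _ : Option (Fin k) => ℝ) (some i) -
        LinearMap.proj (R := ℝ) (φ := fun _ : Option (Fin k) => ℝ) none
  have hA : ∀ x, A x = (0, A₀.map (Int.cast : ℤ → ℝ) *ᵥ fun i => x (some i) - x none) :=
    fun x => rfl
  have hP : ∀ z : Fin k → ℝ,
      P.map (Int.cast : ℤ → ℝ) *ᵥ (A₀.map (Int.cast : ℤ → ℝ) *ᵥ z) = z := fun z => by
    have h1 : P.map (Int.cast : ℤ → ℝ) * A₀.map (Int.cast : ℤ → ℝ) = 1 := by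
      have h2 := Matrix.map_mul (L := P) (M := A₀) (f := Int.castRingHom ℝ)
      rw [hPA, Matrix.map_one _ (map_zero _) (map_one _)] at h2
      exact h2.symm
    rw [mulVec_mulVec, h1, one_mulVec]
  refine ⟨k, M, A, hE, ?_, hr, fun x => ?_, ?_, fun x => ⟨rfl, fun i => ?_⟩, ?_⟩
  · have h0 : (0 : Pt n) ∈ X.Tc σ :=
      ⟨σ, hσ, subset_rfl, _, gf_pt hσ, 0, 0, le_rfl, le_rfl, by simp⟩
    rw [hT] at h0
    obtain ⟨z, hz, -⟩ := h0
    obtain ⟨b, hb⟩ := Finite.exists_le fun i : Option (Fin k) => (i.elim 0 z : ℝ)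
    convert hz (b + 1) using 1
    refine (Set.eq_empty_of_forall_notMem fun (i : Option (Fin k)) hi => ?_).symm
    have h2 : b + 1 ≤ (i.elim 0 z : ℝ) := hi
    linarith [hb i]
  · rw [mem_perp_vv, hA]
    constructor
    · rintro ⟨a, e⟩
      have h1 : a = 0 := by simpa [vv] using (congrArg Prod.fst e).symm
      have h2 := hP fun i => x (some i) - x none
      rw [show (A₀.map (Int.cast : ℤ → ℝ) *ᵥ fun i => x (some i) - x none) = 0 by
        simpa [h1] using congrArg Prod.snd e, mulVec_zero] at h2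
      have h3 : ∀ i, x i = x none := fun i => by
        cases i with
        | none => rfl
        | some i => exact sub_eq_zero.1 (congrFun h2 i).symm
      exact fun i j => (h3 i).trans (h3 j).symm
    · intro H
      refine ⟨0, ?_⟩
      have h1 : (fun i => x (some i) - x none) = 0 := funext fun i => sub_eq_zero.2 (H _ _)
      rw [h1, mulVec_zero, zero_smul]
      rfl
  · rw [supp_link (fun σ hσ => (hS σ hσ).1) hσ, hT]
    ext y
    simp only [Set.mem_ofPred_eq, mem_perp_vv, hA]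
    constructor
    · rintro ⟨z, hz, e⟩
      refine ⟨fun i => i.elim 0 z, hz, y.1, Prod.ext (by simp [vv]) ?_⟩
      simp only [Option.elim_some, Option.elim_none, sub_zero, Prod.snd_sub, vv, Prod.smul_snd]
      rw [← e, sub_sub_cancel]
    · rintro ⟨x, hx, a, e⟩
      have h1 : y.1 = a := by simpa [vv] using congrArg Prod.fst e
      have h2 := congrArg Prod.snd e
      simp only [Prod.snd_sub, vv, Prod.smul_snd] at h2
      refine ⟨fun i => x (some i) - x none, fun b => ?_, by rw [h1, ← h2, sub_sub_cancel]⟩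
      convert hx (b + x none) using 1
      ext i
      cases i <;> simp [le_sub_iff_add_le]
  · refine ⟨∑ j, A₀ i j * (x (some j) - x none), ?_⟩
    simp [hA, mulVec, dotProduct]
  · have H : ∀ i, ∃ μ : Module.Dual ℝ (Nn n), (∀ y ∈ LZ n, ∃ z : ℤ, μ y = z) ∧
        ∀ x, μ (A x) = x i - x none := by
      rintro (_ | i)
      · exact ⟨0, fun _ _ => ⟨0, by simp⟩, by simp⟩
      refine ⟨LinearMap.proj i ∘ₗ (P.map (Int.cast : ℤ → ℝ)).mulVecLin ∘ₗ
        LinearMap.snd ℝ ℝ (Pt n), fun y hy => ?_, fun x => congrFun (hP _) i⟩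
      choose z hz using hy.2
      exact ⟨∑ j, P i j * z j, by simp [mulVec, dotProduct, hz]⟩
    intro i j
    obtain ⟨μ, h1, h2⟩ := H i
    obtain ⟨ν, h3, h4⟩ := H j
    refine ⟨μ - ν, fun y hy => ?_, fun x => by rw [LinearMap.sub_apply, h2, h4]; ring⟩
    obtain ⟨a, ha⟩ := h1 y hy
    obtain ⟨b, hb⟩ := h3 y hy
    exact ⟨a - b, by rw [LinearMap.sub_apply, ha, hb, Int.cast_sub]⟩

end K2
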