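import Pool.Agent.Lib.MP_e9c0f3_ag.K2.SDefs
import Pool.Agent.Lib.MP_e9c0f3_ag.K2.Cube
import Pool.Agent.Lib.MP_e9c0f3_ag.H5T.Cmp

/-! The cone over the barycentric subdivision of a complex. -/

open ExteriorAlgebra H5T Matrix
open scoped Classical

noncomputable section

namespace K2

/-- The space of the cone. -/
abbrev Nn (n : ℕ) := ℝ × Pt n

/-- The instance that the files on general fans use. -/
@[reducible] instance nnDec (n : ℕ) : DecidableEq (Nn n) :=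
  fun a b => Classical.propDecidable (a = b)

variable {n : ℕ} (X : TropCx n)

/-- The height. -/
def tt : Module.Dual ℝ (Nn n) := LinearMap.fst ℝ ℝ (Pt n)

/-- The vertex of a cell. -/
def vv (σ : Set (Pt n)) : Nn n := (1, X.pt σ)

/-- The vertex of a ray. -/
def rr (r : Fin n → ℚ) : Nn n := (0, rv r)

/-- The face given by a set of cells and a set of rays. -/
def fc (l : Finset (Set (Pt n))) (J : Finset (Fin n → ℚ)) : Finset (Nn n) :=
  l.image (vv X) ∪ J.image rr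

/-- `l` is a chain of cells inside the cell `σ` and `J` is a set of rays of `σ`. -/
def Adm (l : Finset (Set (Pt n))) (J : Finset (Fin n → ℚ)) : Prop :=
  l ⊆ X.cells ∧ IsChain (· ⊆ ·) (l : Set (Set (Pt n))) ∧
    ∃ σ ∈ X.cells, (∀ ρ ∈ l, ρ ⊆ σ) ∧ J ⊆ X.ray σ

/-- The faces of the cone. -/
def DX : Finset (Finset (Nn n)) :=
  ((X.cells.powerset ×ˢ (X.cells.biUnion X.ray).powerset).filter fun p => Adm X p.1 p.2).image
    fun p => fc X p.1 p.2

/-- The largest cell of a face. -/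
def top (η : Finset (Nn n)) : Set (Pt n) := ⋃₀ {σ | σ ∈ X.cells ∧ vv X σ ∈ η}

/-- The directions of the polyhedron `τ + cone (ray τ)`. -/
def UR (τ : Set (Pt n)) : Submodule ℝ (Nn n) :=
  (vectorSpan ℝ τ ⊔ Submodule.span ℝ (rv '' (X.ray τ : Set (Fin n → ℚ)))).map
    (LinearMap.inr ℝ ℝ (Pt n))

/-- The real multi-tangent space at a cell. -/
def GR (p : ℕ) (σ : Set (Pt n)) : Submodule ℝ (Ex (Nn n)) :=
  ⨆ τ ∈ X.cells, ⨆ _ : σ ⊆ τ, wg (UR X τ) p

/-- The real ideal of the rays at a cell. -/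
def IR (σ : Set (Pt n)) : Submodule ℝ (Ex (Nn n)) := JE ((X.ray σ).image rr)

/-- The coefficients at a face depend only on its largest cell. -/
def GCo : Prop := ∀ η ∈ DX X, (fp tt η).Nonempty → ∀ p,
  FF (DX X) p η ⊓ LinearMap.ker (ct tt) = GR X p (top X η)

/-- A rational vector as a real linear form on the cone. -/
def dv (v : Fin n → ℚ) : Module.Dual ℝ (Nn n) :=
  dotProductBilin ℝ ℝ (rv v) ∘ₗ LinearMap.snd ℝ ℝ (Pt n)

/-- A rational vector as a rational linear form. -/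
def dq (v : Fin n → ℚ) : Module.Dual ℚ (Fin n → ℚ) := dotProductBilin ℚ ℚ v

/-- The data of `Proj`, chosen. -/
def PJ (f : Pt n → ℝ) (h : (Fin n → ℚ) → ℚ) (m : Set (Pt n) → Finset (Fin n → ℚ) → Fin n → ℚ)
    (c : Set (Pt n) → Finset (Fin n → ℚ) → ℝ) : Prop :=
  ∀ σ ∈ X.cells, ∀ J ⊆ X.ray σ, ∀ ρ ∈ X.cells,
    (∀ x ∈ ρ, rv (m σ J) ⬝ᵥ x + c σ J ≤ f x ∧ (rv (m σ J) ⬝ᵥ x + c σ J = f x ↔ x ∈ σ)) ∧
    ∀ r ∈ X.ray ρ, m σ J ⬝ᵥ r ≤ h r ∧ (m σ J ⬝ᵥ r = h r ↔ r ∈ J)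

theorem exists_PJ {X : TropCx n} (h : X.Proj) : ∃ f h m c, PJ X f h m c := by
  obtain ⟨f, h, H⟩ := h
  choose! m c H using H
  exact ⟨f, h, m, c, H⟩

/-- Remove the orientation symbols of a list, head first. -/
def cs : List (Nn n) → Om (Nn n) →ₗ[ℝ] Om (Nn n)
  | [] => LinearMap.id
  | x :: a => cs a ∘ₗ cx x

/-- Chains on flags with real coefficients. -/
abbrev Fc (n : ℕ) := List (Set (Pt n)) →₀ Ex (Nn n)

/-- `r` collapses cubes to flags. -/
structure RS (r : Kc (Nn n) →ₗ[ℝ] Fc n) : Prop where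
  pos : ∀ (a b : List (Set (Pt n))) (y σ : Set (Pt n)) (K : Finset (Fin n → ℚ)) (w : Om (Nn n)),
    X.Flag (a ++ y :: b) σ →
    r (Finsupp.single (fc X (y :: b).toFinset K, fc X (a ++ y :: b).toFinset K) w) =
      Finsupp.single (a ++ [y]) (sc (cs (a.map (vv X)) w))
  neg : ∀ (i : Ix (Nn n)) (w : Om (Nn n)),
    (¬∃ (a b : List (Set (Pt n))) (y σ : Set (Pt n)) (K : Finset (Fin n → ℚ)),
      X.Flag (a ++ y :: b) σ ∧
      i = (fc X (y :: b).toFinset K, fc X (a ++ y :: b).toFinset K)) →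
    r (Finsupp.single i w) = 0

/-- Real chains on flags. -/
def FC (p q : ℕ) : Submodule ℚ (Fc n) :=
  X.C X.Flag (fun σ => (GR X p σ).restrictScalars ℚ) q

/-- Real null chains on flags. -/
def FZ : Submodule ℚ (Fc n) := X.Z X.Flag fun σ => (IR X σ).restrictScalars ℚ

/-- Chains on the lists that do not contain `φ`. -/
def FA (φ : List (Set (Pt n))) : Submodule ℚ (Fc n) := Finsupp.supported _ ℚ {l | ¬φ ⊆ l}

/-- The real Lefschetz operator on flags. -/
def lefR (m : Set (Pt n) → Fin n → ℚ) : Module.End ℚ (Fc n) :=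
  cap fun σ ρ => (ct (dv (m σ) - dv (m ρ))).restrictScalars ℚ

/-- The slopes agree on the rays. -/
def Slo (m : Set (Pt n) → Fin n → ℚ) (h : (Fin n → ℚ) → ℚ) : Prop :=
  ∀ σ ∈ X.cells, ∀ r ∈ X.ray σ, m σ ⬝ᵥ r = h r

end K2
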