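import Pool.Agent.Lib.MP_e9c0f3_ag.K2.GDefs

/-! The faces of the cone over the barycentric subdivision. -/

open ExteriorAlgebra H5T Matrix KH
open scoped Classical

noncomputable section

namespace K2

variable {n : ℕ} {X : TropCx n} {f : Pt n → ℝ} {h : (Fin n → ℚ) → ℚ}
  {m : Set (Pt n) → Finset (Fin n → ℚ) → Fin n → ℚ} {c : Set (Pt n) → Finset (Fin n → ℚ) → ℝ}
  {l l' : Finset (Set (Pt n))} {J J' : Finset (Fin n → ℚ)} {σ ρ τ : Set (Pt n)}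
  {η β : Finset (Nn n)} {d : ℕ}

@[simp] theorem tt_vv (σ : Set (Pt n)) : tt (vv X σ) = 1 := rfl

@[simp] theorem tt_rr (r : Fin n → ℚ) : tt (rr r : Nn n) = 0 := rfl

theorem gf_pt (hσ : σ ∈ X.cells) : X.pt σ ∈ σ := intrinsicInterior_subset (X.pt_mem σ hσ)

theorem gf_pt_iff (hσ : σ ∈ X.cells) (hρ : ρ ∈ X.cells) : X.pt σ ∈ ρ ↔ σ ⊆ ρ :=
  ⟨cmp_pt hσ hρ, fun h => h (gf_pt hσ)⟩

theorem gf_max (h0 : l.Nonempty) (hc : IsChain (· ⊆ ·) (l : Set (Set (Pt n)))) :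
    ∃ s ∈ l, ∀ ρ ∈ l, ρ ⊆ s := by
  obtain ⟨s, hs⟩ := l.exists_maximal h0
  exact ⟨s, hs.1, fun ρ hρ => (hc.total hρ hs.1).elim id fun h => hs.2 hρ h⟩

theorem vv_inj (hσ : σ ∈ X.cells) (hρ : ρ ∈ X.cells) (e : vv X σ = vv X ρ) : σ = ρ := by
  have e' : X.pt σ = X.pt ρ := congrArg Prod.snd e
  exact (cmp_pt hσ hρ (e' ▸ gf_pt hρ)).antisymm (cmp_pt hρ hσ (e' ▸ gf_pt hσ))

theorem rr_inj : Function.Injective (rr : (Fin n → ℚ) → Nn n) := by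
  intro a b e
  funext i
  have h1 : rv a i = rv b i := congrFun (congrArg Prod.snd e) i
  rw [G33.rv_apply, G33.rv_apply] at h1
  exact_mod_cast h1

theorem vv_ne_rr (σ : Set (Pt n)) (r : Fin n → ℚ) : vv X σ ≠ rr r := fun e =>
  one_ne_zero (congrArg Prod.fst e)

theorem vv_mem_fc (hl : l ⊆ X.cells) (hσ : σ ∈ X.cells) : vv X σ ∈ fc X l J ↔ σ ∈ l := by
  simp only [fc, Finset.mem_union, Finset.mem_image]
  constructor
  · rintro (⟨ρ, hρ, e⟩ | ⟨r, -, e⟩)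
    · exact vv_inj (hl hρ) hσ e ▸ hρ
    · exact absurd e.symm (vv_ne_rr _ _)
  · exact fun h => Or.inl ⟨σ, h, rfl⟩

theorem rr_mem_fc {r : Fin n → ℚ} : rr r ∈ fc X l J ↔ r ∈ J := by
  simp only [fc, Finset.mem_union, Finset.mem_image]
  constructor
  · rintro (⟨ρ, -, e⟩ | ⟨r', hr, e⟩)
    · exact absurd e (vv_ne_rr _ _)
    · exact rr_inj e ▸ hr
  · exact fun h => Or.inr ⟨r, h, rfl⟩

theorem mem_fc {v : Nn n} : v ∈ fc X l J ↔ (∃ σ ∈ l, v = vv X σ) ∨ ∃ r ∈ J, v = rr r := by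
  simp only [fc, Finset.mem_union, Finset.mem_image, eq_comm]

theorem fc_subset (hl : l ⊆ X.cells) (hl' : l' ⊆ X.cells) :
    fc X l J ⊆ fc X l' J' ↔ l ⊆ l' ∧ J ⊆ J' :=
  ⟨fun h => ⟨fun _ hσ => (vv_mem_fc hl' (hl hσ)).1 (h ((vv_mem_fc hl (hl hσ)).2 hσ)),
    fun _ hr => rr_mem_fc.1 (h (rr_mem_fc.2 hr))⟩,
    fun h => Finset.union_subset_union (Finset.image_subset_image h.1)
      (Finset.image_subset_image h.2)⟩

theorem fc_inj (hl : l ⊆ X.cells) (hl' : l' ⊆ X.cells) (e : fc X l J = fc X l' J') :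
    l = l' ∧ J = J' :=
  ⟨((fc_subset hl hl').1 e.le).1.antisymm ((fc_subset hl' hl).1 e.ge).1,
    ((fc_subset hl hl').1 e.le).2.antisymm ((fc_subset hl' hl).1 e.ge).2⟩

theorem exists_of_subset_fc {S : Finset (Nn n)} (hS : S ⊆ fc X l J) :
    ∃ l' ⊆ l, ∃ J' ⊆ J, S = fc X l' J' := by
  refine ⟨l.filter (vv X · ∈ S), Finset.filter_subset _ _, J.filter (rr · ∈ S),
    Finset.filter_subset _ _, Finset.ext fun v => ⟨fun hv => ?_, fun hv => ?_⟩⟩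
  · rcases mem_fc.1 (hS hv) with ⟨σ, hσ, rfl⟩ | ⟨r, hr, rfl⟩
    · exact mem_fc.2 (Or.inl ⟨σ, Finset.mem_filter.2 ⟨hσ, hv⟩, rfl⟩)
    · exact mem_fc.2 (Or.inr ⟨r, Finset.mem_filter.2 ⟨hr, hv⟩, rfl⟩)
  · rcases mem_fc.1 hv with ⟨σ, hσ, rfl⟩ | ⟨r, hr, rfl⟩
    · exact (Finset.mem_filter.1 hσ).2
    · exact (Finset.mem_filter.1 hr).2

theorem card_fc (hl : l ⊆ X.cells) : (fc X l J).card = l.card + J.card := by
  rw [fc, Finset.card_union_of_disjoint, Finset.card_image_of_injective _ rr_inj,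
    Finset.card_image_of_injOn fun a ha b hb e => vv_inj (hl ha) (hl hb) e]
  rw [Finset.disjoint_left]
  intro v h1 h2
  obtain ⟨σ, -, rfl⟩ := Finset.mem_image.1 h1
  obtain ⟨r, -, e⟩ := Finset.mem_image.1 h2
  exact vv_ne_rr _ _ e.symm

theorem fp_fc : fp tt (fc X l J) = fc X l ∅ := by
  ext v
  simp only [fp, Finset.mem_filter, mem_fc]
  constructor
  · rintro ⟨h | ⟨r, -, rfl⟩, h1⟩
    · exact Or.inl h
    · simp at h1
  · rintro (⟨σ, hσ, rfl⟩ | ⟨r, hr, -⟩)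
    · exact ⟨Or.inl ⟨σ, hσ, rfl⟩, rfl⟩
    · simp at hr

theorem ip_fc : ip tt (fc X l J) = J.image rr := by
  ext v
  simp only [ip, Finset.mem_filter, mem_fc, Finset.mem_image]
  constructor
  · rintro ⟨⟨σ, -, rfl⟩ | ⟨r, hr, rfl⟩, h1⟩
    · exact absurd rfl h1
    · exact ⟨r, hr, rfl⟩
  · rintro ⟨r, hr, rfl⟩
    exact ⟨Or.inr ⟨r, hr, rfl⟩, by simp⟩

theorem fc_insert_vv : fc X (insert σ l) J = insert (vv X σ) (fc X l J) := by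
  rw [fc, fc, Finset.image_insert, Finset.insert_union]

theorem fc_insert_rr {r : Fin n → ℚ} : fc X l (insert r J) = insert (rr r) (fc X l J) := by
  rw [fc, fc, Finset.image_insert, Finset.union_insert]

theorem fc_erase_vv (hl : l ⊆ X.cells) (hσ : σ ∈ X.cells) :
    fc X (l.erase σ) J = (fc X l J).erase (vv X σ) := by
  ext v
  simp only [Finset.mem_erase, mem_fc]
  constructor
  · rintro (⟨ρ, ⟨h1, h2⟩, rfl⟩ | ⟨r, hr, rfl⟩)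
    · exact ⟨fun e => h1 (vv_inj (hl h2) hσ e), Or.inl ⟨ρ, h2, rfl⟩⟩
    · exact ⟨(vv_ne_rr _ _).symm, Or.inr ⟨r, hr, rfl⟩⟩
  · rintro ⟨h1, ⟨ρ, h2, rfl⟩ | h2⟩
    · exact Or.inl ⟨ρ, ⟨fun e => h1 (e ▸ rfl), h2⟩, rfl⟩
    · exact Or.inr h2

theorem fc_erase_rr {r : Fin n → ℚ} : fc X l (J.erase r) = (fc X l J).erase (rr r) := by
  ext v
  simp only [Finset.mem_erase, mem_fc]
  constructor
  · rintro (⟨ρ, h2, rfl⟩ | ⟨r', ⟨h1, h2⟩, rfl⟩)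
    · exact ⟨vv_ne_rr _ _, Or.inl ⟨ρ, h2, rfl⟩⟩
    · exact ⟨fun e => h1 (rr_inj e), Or.inr ⟨r', h2, rfl⟩⟩
  · rintro ⟨h1, h2 | ⟨r', h2, rfl⟩⟩
    · exact Or.inl h2
    · exact Or.inr ⟨r', ⟨fun e => h1 (e ▸ rfl), h2⟩, rfl⟩

theorem fc_sdiff (hl : l ⊆ X.cells) (hl' : l' ⊆ X.cells) :
    fc X l J \ fc X l' J' = fc X (l \ l') (J \ J') := by
  ext v
  rw [Finset.mem_sdiff]
  constructor
  · rintro ⟨h1, h2⟩
    rcases mem_fc.1 h1 with ⟨σ, hσ, rfl⟩ | ⟨r, hr, rfl⟩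
    · exact mem_fc.2 (Or.inl ⟨σ, Finset.mem_sdiff.2
        ⟨hσ, fun a => h2 ((vv_mem_fc hl' (hl hσ)).2 a)⟩, rfl⟩)
    · exact rr_mem_fc.2 (Finset.mem_sdiff.2 ⟨hr, fun a => h2 (rr_mem_fc.2 a)⟩)
  · intro h1
    rcases mem_fc.1 h1 with ⟨σ, hσ, rfl⟩ | ⟨r, hr, rfl⟩
    · obtain ⟨a, b⟩ := Finset.mem_sdiff.1 hσ
      exact ⟨(vv_mem_fc hl (hl a)).2 a, fun e => b ((vv_mem_fc hl' (hl a)).1 e)⟩
    · obtain ⟨a, b⟩ := Finset.mem_sdiff.1 hr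
      exact ⟨rr_mem_fc.2 a, fun e => b (rr_mem_fc.1 e)⟩

theorem mem_DX : η ∈ DX X ↔ ∃ l J, Adm X l J ∧ η = fc X l J := by
  simp only [DX, Finset.mem_image, Finset.mem_filter, Finset.mem_product, Finset.mem_powerset]
  constructor
  · rintro ⟨p, ⟨-, hp⟩, rfl⟩
    exact ⟨_, _, hp, rfl⟩
  · rintro ⟨l, J, hA, rfl⟩
    obtain ⟨σ, hσ, -, hJ⟩ := hA.2.2
    exact ⟨(l, J), ⟨⟨hA.1, hJ.trans (Finset.subset_biUnion_of_mem _ hσ)⟩, hA⟩, rfl⟩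

theorem fc_mem_DX (hl : l ⊆ X.cells) : fc X l J ∈ DX X ↔ Adm X l J := by
  refine ⟨fun h => ?_, fun h => mem_DX.2 ⟨l, J, h, rfl⟩⟩
  obtain ⟨l', J', hA, e⟩ := mem_DX.1 h
  obtain ⟨rfl, rfl⟩ := fc_inj hl hA.1 e
  exact hA

theorem Adm.mono (h : Adm X l J) (hl : l' ⊆ l) (hJ : J' ⊆ J) : Adm X l' J' := by
  obtain ⟨h1, h2, σ, hσ, h3, h4⟩ := h
  exact ⟨hl.trans h1, h2.mono (Finset.coe_subset.2 hl), σ, hσ, fun ρ hρ => h3 ρ (hl hρ),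
    hJ.trans h4⟩

theorem DX_down : ∀ t ∈ DX X, ∀ s ⊆ t, s ∈ DX X := by
  intro t ht s hs
  obtain ⟨l, J, hA, rfl⟩ := mem_DX.1 ht
  obtain ⟨l', h1, J', h2, rfl⟩ := exists_of_subset_fc hs
  exact mem_DX.2 ⟨l', J', hA.mono h1 h2, rfl⟩

theorem DX_t01 : ∀ s ∈ DX X, ∀ v ∈ s, tt v = 0 ∨ tt v = 1 := by
  intro t ht v hv
  obtain ⟨l, J, -, rfl⟩ := mem_DX.1 ht
  rcases mem_fc.1 hv with ⟨σ, -, rfl⟩ | ⟨r, -, rfl⟩
  · exact Or.inr rfl
  · exact Or.inl rfl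

theorem top_fc (hl : l ⊆ X.cells) (hσ : σ ∈ l) (h : ∀ ρ ∈ l, ρ ⊆ σ) :
    top X (fc X l J) = σ := by
  refine Set.Subset.antisymm (Set.sUnion_subset fun ρ hρ => ?_)
    (Set.subset_sUnion_of_mem ⟨hl hσ, (vv_mem_fc hl (hl hσ)).2 hσ⟩)
  exact h ρ ((vv_mem_fc hl hρ.1).1 hρ.2)

theorem gf_top (hη : η ∈ DX X) (h0 : (fp tt η).Nonempty) : ∃ l J s, Adm X l J ∧ η = fc X l J ∧
    s ∈ l ∧ (∀ ρ ∈ l, ρ ⊆ s) ∧ J ⊆ X.ray s ∧ top X η = s := by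
  obtain ⟨l, J, hA, rfl⟩ := mem_DX.1 hη
  have h1 : l.Nonempty := by
    rw [fp_fc] at h0
    obtain ⟨v, hv⟩ := h0
    rcases mem_fc.1 hv with ⟨σ, hσ, -⟩ | ⟨r, hr, -⟩
    · exact ⟨σ, hσ⟩
    · simp at hr
  obtain ⟨s, hs, h2⟩ := gf_max h1 hA.2.1
  obtain ⟨σ, hσ, h3, h4⟩ := hA.2.2
  exact ⟨l, J, s, hA, rfl, hs, h2, h4.trans (X.ray_anti σ hσ s (hA.1 hs) (h3 s hs)),
    top_fc hA.1 hs h2⟩

/-- A face with a vertex at height one has a largest cell. -/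
theorem top_spec (hη : η ∈ DX X) (h0 : (fp tt η).Nonempty) : top X η ∈ X.cells ∧
    vv X (top X η) ∈ η ∧ (∀ ρ ∈ X.cells, vv X ρ ∈ η → ρ ⊆ top X η) ∧
    ∀ r, rr r ∈ η → r ∈ X.ray (top X η) := by
  obtain ⟨l, J, s, hA, rfl, hs, h2, h3, e⟩ := gf_top hη h0
  rw [e]
  exact ⟨hA.1 hs, (vv_mem_fc hA.1 (hA.1 hs)).2 hs, fun ρ hρ h => h2 ρ ((vv_mem_fc hA.1 hρ).1 h),
    fun r hr => h3 (rr_mem_fc.1 hr)⟩

theorem insert_rr_mem (hη : η ∈ DX X) (h0 : (fp tt η).Nonempty) {r : Fin n → ℚ}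
    (hr : r ∈ X.ray (top X η)) : insert (rr r) η ∈ DX X := by
  obtain ⟨l, J, s, hA, rfl, hs, h2, h3, e⟩ := gf_top hη h0
  rw [e] at hr
  rw [← fc_insert_rr]
  exact mem_DX.2 ⟨_, _, ⟨hA.1, hA.2.1, s, hA.1 hs, h2, Finset.insert_subset hr h3⟩, rfl⟩

theorem top_insert_rr (η : Finset (Nn n)) (r : Fin n → ℚ) :
    top X (insert (rr r) η) = top X η := by
  simp only [top, Finset.mem_insert, vv_ne_rr, false_or]

theorem top_erase_rr (η : Finset (Nn n)) (r : Fin n → ℚ) : top X (η.erase (rr r)) = top X η := by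
  simp only [top, Finset.mem_erase, ne_eq, vv_ne_rr, not_false_eq_true, true_and]

/-- A chain of cells is the set of members of a unique flag. -/
theorem exists_flag (hl : l ⊆ X.cells) (hc : IsChain (· ⊆ ·) (l : Set (Set (Pt n))))
    (h : ∀ ρ ∈ l, ρ ⊆ σ) : ∃ a : List (Set (Pt n)), X.Flag a σ ∧ a.toFinset = l := by
  induction l using Finset.strongInduction with
  | H l ih =>
    rcases l.eq_empty_or_nonempty with rfl | h0
    · exact ⟨[], ⟨List.Pairwise.nil, by simp⟩, rfl⟩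
    obtain ⟨s, hs, h2⟩ := gf_max h0 hc
    obtain ⟨a, ha, e⟩ := ih (l.erase s) (Finset.erase_ssubset hs)
      ((Finset.erase_subset _ _).trans hl) (hc.mono (Finset.coe_subset.2 (Finset.erase_subset _ _)))
      fun ρ hρ => h ρ (Finset.mem_of_mem_erase hρ)
    refine ⟨s :: a, ⟨List.pairwise_cons.2 ⟨fun ρ hρ => ?_, ha.1⟩, fun ρ hρ => ?_⟩, ?_⟩
    · have h3 := Finset.mem_erase.1 (e ▸ List.mem_toFinset.2 hρ)
      exact (h2 ρ h3.2).ssubset_of_ne h3.1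
    · rcases List.mem_cons.1 hρ with rfl | hρ
      · exact ⟨hl hs, h _ hs⟩
      · exact ha.2 ρ hρ
    · rw [List.toFinset_cons, e, Finset.insert_erase hs]

theorem flag_unique {a b : List (Set (Pt n))} (ha : X.Flag a σ) (hb : X.Flag b ρ)
    (e : a.toFinset = b.toFinset) : a = b := by
  have h1 : a.Pairwise (· > ·) := ha.1
  have h2 : b.Pairwise (· > ·) := hb.1
  exact h1.eq_of_mem_iff h2 fun x => by rw [← List.mem_toFinset, e, List.mem_toFinset]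

theorem flag_nodup {a : List (Set (Pt n))} (ha : X.Flag a σ) : a.Nodup :=
  ha.1.imp fun h => (ne_of_ssubset h).symm

theorem flag_adm {a : List (Set (Pt n))} (ha : X.Flag a σ) (hσ : σ ∈ X.cells)
    (hJ : J ⊆ X.ray σ) : Adm X a.toFinset J := by
  refine ⟨fun ρ hρ => (ha.2 ρ (List.mem_toFinset.1 hρ)).1, ?_, σ, hσ,
    fun ρ hρ => (ha.2 ρ (List.mem_toFinset.1 hρ)).2, hJ⟩
  have h1 : a.Pairwise fun x y => x ⊆ y ∨ y ⊆ x := ha.1.imp fun h => Or.inr h.subset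
  have : Std.Symm fun x y : Set (Pt n) => x ⊆ y ∨ y ⊆ x := ⟨fun _ _ h => h.symm⟩
  intro x hx y hy hne
  exact h1.forall (List.mem_toFinset.1 hx) (List.mem_toFinset.1 hy) hne

theorem mem_vx_DX {v : Nn n} : v ∈ vx (DX X) ↔
    ∃ σ ∈ X.cells, v = vv X σ ∨ ∃ r ∈ X.ray σ, v = rr r := by
  simp only [vx, Finset.mem_biUnion, id]
  constructor
  · rintro ⟨t, ht, hv⟩
    obtain ⟨l, J, hA, rfl⟩ := mem_DX.1 ht
    rcases mem_fc.1 hv with ⟨σ, hσ, rfl⟩ | ⟨r, hr, rfl⟩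
    · exact ⟨σ, hA.1 hσ, Or.inl rfl⟩
    · obtain ⟨σ, hσ, -, hJ⟩ := hA.2.2
      exact ⟨σ, hσ, Or.inr ⟨r, hJ hr, rfl⟩⟩
  · rintro ⟨σ, hσ, hv⟩
    refine ⟨fc X {σ} (X.ray σ), mem_DX.2 ⟨_, _, ⟨by simpa using hσ, by simp, σ, hσ, by simp,
      subset_rfl⟩, rfl⟩, mem_fc.2 ?_⟩
    rcases hv with rfl | hv
    · exact Or.inl ⟨σ, by simp, rfl⟩
    · exact Or.inr hv

/-- The minorant of `σ + cone J` as a linear form on the cone. -/
def gfLam (m : Set (Pt n) → Finset (Fin n → ℚ) → Fin n → ℚ)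
    (c : Set (Pt n) → Finset (Fin n → ℚ) → ℝ) (σ : Set (Pt n)) (J : Finset (Fin n → ℚ)) :
    Module.Dual ℝ (Nn n) := dv (m σ J) + c σ J • tt

theorem gfLam_vv : gfLam m c σ J (vv X ρ) = rv (m σ J) ⬝ᵥ X.pt ρ + c σ J := by
  simp [gfLam, dv, vv, tt]

theorem gfLam_rr (r : Fin n → ℚ) : gfLam m c σ J (rr r) = ((m σ J ⬝ᵥ r : ℚ) : ℝ) := by
  simp [gfLam, dv, rr, tt, G33.rv_dot]

theorem gfLam_vv_iff (hp : PJ X f h m c) (hσ : σ ∈ X.cells) (hJ : J ⊆ X.ray σ)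
    (hρ : ρ ∈ X.cells) : gfLam m c σ J (vv X ρ) = f (X.pt ρ) ↔ ρ ⊆ σ := by
  rw [gfLam_vv, ((hp σ hσ J hJ ρ hρ).1 _ (gf_pt hρ)).2, gf_pt_iff hρ hσ]

theorem gfLam_rr_iff (hp : PJ X f h m c) (hσ : σ ∈ X.cells) (hJ : J ⊆ X.ray σ)
    {r : Fin n → ℚ} (hρ : ρ ∈ X.cells) (hr : r ∈ X.ray ρ) :
    gfLam m c σ J (rr r) = h r ↔ r ∈ J := by
  rw [gfLam_rr, Rat.cast_inj, ((hp σ hσ J hJ ρ hρ).2 _ hr).2]

theorem gf_onto_insert {S : Finset (Nn n)} {v : Nn n} (μ : Module.Dual ℝ (Nn n))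
    (h1 : ∀ u ∈ S, μ u = 0) (h2 : μ v ≠ 0)
    (hS : ∀ g : Nn n → ℝ, ∃ k : Module.Dual ℝ (Nn n), ∀ u ∈ S, k u = g u) (g : Nn n → ℝ) :
    ∃ k : Module.Dual ℝ (Nn n), ∀ u ∈ insert v S, k u = g u := by
  obtain ⟨k, hk⟩ := hS g
  refine ⟨k + ((g v - k v) / μ v) • μ, fun u hu => ?_⟩
  rw [LinearMap.add_apply, LinearMap.smul_apply, smul_eq_mul]
  rcases Finset.mem_insert.1 hu with rfl | hu
  · rw [div_mul_cancel₀ _ h2, add_sub_cancel]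
  · rw [h1 u hu, hk u hu, mul_zero, add_zero]

theorem gf_onto_chain (hp : PJ X f h m c) (hl : l ⊆ X.cells)
    (hc : IsChain (· ⊆ ·) (l : Set (Set (Pt n)))) (g : Nn n → ℝ) :
    ∃ k : Module.Dual ℝ (Nn n), ∀ u ∈ fc X l ∅, k u = g u := by
  induction l using Finset.strongInduction generalizing g with
  | H l ih =>
    rcases l.eq_empty_or_nonempty with rfl | h0
    · exact ⟨0, by simp [fc]⟩
    obtain ⟨s, hs, h2⟩ := gf_max h0 hc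
    have hl' := (Finset.erase_subset s l).trans hl
    have hc' := hc.mono (Finset.coe_subset.2 (Finset.erase_subset s l))
    have h3 := ih (l.erase s) (Finset.erase_ssubset hs) hl' hc'
    rw [← Finset.insert_erase hs, fc_insert_vv]
    rcases (l.erase s).eq_empty_or_nonempty with e | h1
    · exact gf_onto_insert tt (by simp [e, fc]) (by simp) h3 g
    obtain ⟨s', hs', h4⟩ := gf_max h1 hc'
    refine gf_onto_insert (gfLam m c s ∅ - gfLam m c s' ∅) (fun u hu => ?_) ?_ h3 g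
    · rcases mem_fc.1 hu with ⟨ρ, hρ, rfl⟩ | ⟨r, hr, -⟩
      · rw [LinearMap.sub_apply, (gfLam_vv_iff hp (hl hs) (Finset.empty_subset _) (hl' hρ)).2
          (h2 ρ (Finset.mem_of_mem_erase hρ)),
          (gfLam_vv_iff hp (hl' hs') (Finset.empty_subset _) (hl' hρ)).2 (h4 ρ hρ), sub_self]
      · simp at hr
    · rw [LinearMap.sub_apply,
        (gfLam_vv_iff hp (hl hs) (Finset.empty_subset _) (hl hs)).2 subset_rfl, sub_ne_zero]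
      intro e
      have h5 := (gfLam_vv_iff hp (hl' hs') (Finset.empty_subset _) (hl hs)).1 e.symm
      exact (Finset.mem_erase.1 hs').1 ((h2 s' (Finset.mem_of_mem_erase hs')).antisymm h5)

/-- The faces are linearly independent: triangular systems of differences of minorants. -/
theorem DX_fn (hp : PJ X f h m c) : Fn (DX X) := by
  refine ⟨DX_down, fun t ht => ?_⟩
  obtain ⟨l, J, ⟨hl, hc, σ, hσ, h1, hJ⟩, rfl⟩ := mem_DX.1 ht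
  clear ht
  induction J using Finset.induction_on with
  | empty => exact gf_onto_chain hp hl hc
  | insert r J hr ih =>
    have hJ' : J ⊆ X.ray σ := (Finset.subset_insert _ _).trans hJ
    have hr' : r ∈ X.ray σ := hJ (Finset.mem_insert_self _ _)
    rw [fc_insert_rr]
    refine gf_onto_insert (gfLam m c σ (insert r J) - gfLam m c σ J) (fun u hu => ?_) ?_ (ih hJ')
    · rw [LinearMap.sub_apply, sub_eq_zero]
      rcases mem_fc.1 hu with ⟨ρ, hρ, rfl⟩ | ⟨r', h2, rfl⟩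
      · rw [(gfLam_vv_iff hp hσ hJ (hl hρ)).2 (h1 ρ hρ),
          (gfLam_vv_iff hp hσ hJ' (hl hρ)).2 (h1 ρ hρ)]
      · rw [(gfLam_rr_iff hp hσ hJ hσ (hJ' h2)).2 (Finset.mem_insert_of_mem h2),
          (gfLam_rr_iff hp hσ hJ' hσ (hJ' h2)).2 h2]
    · rw [LinearMap.sub_apply, (gfLam_rr_iff hp hσ hJ hσ hr').2 (Finset.mem_insert_self _ _),
        sub_ne_zero]
      exact fun e => hr ((gfLam_rr_iff hp hσ hJ' hσ hr').1 e.symm)

end K2
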