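import Pool.Agent.Lib.MP_e9c0f3_ag.K2.GChart
import Pool.Agent.Lib.MP_e9c0f3_ag.KH.Pure

/-! The cone over a smooth complex is pure. -/

open ExteriorAlgebra H5T Matrix KH
open scoped Classical

noncomputable section

namespace K2

variable {n : ℕ} {X : TropCx n} {f : Pt n → ℝ} {h : (Fin n → ℚ) → ℚ}
  {m : Set (Pt n) → Finset (Fin n → ℚ) → Fin n → ℚ} {c : Set (Pt n) → Finset (Fin n → ℚ) → ℝ}
  {σ : Set (Pt n)} {d : ℕ}

theorem link_pure (hp : PJ X f h m c) (hS : X.Smooth d) (hσ : σ ∈ X.cells) :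
    ∀ s ∈ link (DX X) {vv X σ}, ∃ u ∈ link (DX X) {vv X σ}, s ⊆ u ∧ u.card = d := by
  obtain ⟨k, M, A, h1, -, h2, h3, h4, -⟩ := chart hS hσ
  exact pure_of_berg M h1 h2 A h3 ((DX_fan hp).link (vv_mem_DX hσ)) h4

theorem DX_pure (hp : PJ X f h m c) (hS : X.Smooth d) :
    ∀ β ∈ DX X, ∃ η ∈ DX X, β ⊆ η ∧ η.card = d + 1 := by
  intro β hβ
  obtain ⟨l, J, ⟨a1, a2, σ, a3, a4, a5⟩, rfl⟩ := mem_DX.1 hβ
  have h1 : fc X (insert σ l) J ∈ DX X := by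
    refine mem_DX.2 ⟨_, J, ⟨Finset.insert_subset a3 a1, ?_, σ, a3, fun ρ hρ => ?_, a5⟩, rfl⟩
    · rw [Finset.coe_insert]
      exact a2.insert fun ρ hρ _ => Or.inr (a4 ρ hρ)
    · rcases Finset.mem_insert.1 hρ with rfl | k
      exacts [Set.Subset.refl _, a4 ρ k]
  rw [fc_insert_vv, Finset.insert_eq, Finset.union_comm] at h1
  obtain ⟨u, u1, u2, u3⟩ := link_pure hp hS a3 _ (sdiff_mem_link h1)
  obtain ⟨b1, b2⟩ := mem_link.1 u1
  refine ⟨_, b2, fun v hv => ?_, by rw [Finset.card_union_of_disjoint b1, u3, Finset.card_singleton]⟩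
  by_cases k : v ∈ ({vv X σ} : Finset (Nn n))
  · exact Finset.mem_union_right _ k
  · exact Finset.mem_union_left _ (u2 (Finset.mem_sdiff.2 ⟨hv, k⟩))

theorem DX_card (hp : PJ X f h m c) (hS : X.Smooth d) : ∀ s ∈ DX X, s.card ≤ d + 1 := fun s hs =>
  let ⟨_, _, h1, h2⟩ := DX_pure hp hS s hs
  h2 ▸ Finset.card_le_card h1

end K2
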