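import Pool.Agent.Lib.MP_e9c0f3_ag.K2.GFan
import Pool.Agent.Lib.MP_e9c0f3_ag.KH.Link

/-! The support of the link of a vertex is the tangent cone. -/

open ExteriorAlgebra H5T Matrix KH
open scoped Classical

noncomputable section

namespace K2

variable {n : ℕ} {X : TropCx n} {f : Pt n → ℝ} {h : (Fin n → ℚ) → ℚ}
  {m : Set (Pt n) → Finset (Fin n → ℚ) → Fin n → ℚ} {c : Set (Pt n) → Finset (Fin n → ℚ) → ℝ}
  {l l' : Finset (Set (Pt n))} {J J' : Finset (Fin n → ℚ)} {σ ρ τ : Set (Pt n)}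
  {η β : Finset (Nn n)} {d : ℕ}

theorem gs_pt (hσ : σ ∈ X.cells) : X.pt σ ∈ σ := intrinsicInterior_subset (X.pt_mem σ hσ)

theorem gs_face (hσ : σ ∈ X.cells) {u y : Pt n} {b : ℝ} (hge : ∀ x ∈ σ, b ≤ u ⬝ᵥ x) (hy : y ∈ σ)
    (e : u ⬝ᵥ y = b) : {x ∈ σ | u ⬝ᵥ x = b} ∈ X.cells := by
  refine X.face_mem σ hσ _ (fun _ => ⟨LinearMap.toContinuousLinearMap
    (-(dotProductBilin ℝ ℝ u)), ?_⟩) ⟨y, hy, e⟩
  ext x
  simp only [Set.mem_ofPred_eq, LinearMap.coe_toContinuousLinearMap', LinearMap.neg_apply,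
    dotProductBilin_apply_apply, neg_le_neg_iff]
  exact and_congr_right fun hx => ⟨fun k z hz => k ▸ hge z hz,
    fun k => le_antisymm (e ▸ k y hy) (hge x hx)⟩

theorem gs_ind {P : Set (Pt n) → Prop}
    (h : ∀ σ ∈ X.cells, (∀ ρ ∈ X.cells, ρ ⊂ σ → P ρ) → P σ) (hσ : σ ∈ X.cells) : P σ := by
  induction hn : (X.cells.filter (· ⊆ σ)).card using Nat.strong_induction_on generalizing σ with
  | _ k ih =>
    refine h σ hσ fun ρ hρ hlt => ih _ (hn ▸ Finset.card_lt_card ⟨fun x hx => ?_, fun k => ?_⟩)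
      hρ rfl
    · exact Finset.mem_filter.2 ⟨(Finset.mem_filter.1 hx).1, (Finset.mem_filter.1 hx).2.trans hlt.1⟩
    · exact hlt.2 (Finset.mem_filter.1 (k (Finset.mem_filter.2 ⟨hσ, subset_rfl⟩))).2

theorem gs_adm (h : Adm X l J') (hτ : τ ∈ X.cells) (hl : ∀ ρ ∈ l, ρ ⊆ τ) (hJ : J ⊆ X.ray τ) :
    Adm X (insert τ l) J := by
  refine ⟨Finset.insert_subset hτ h.1, ?_, τ, hτ, fun ρ hρ => ?_, hJ⟩
  · rw [Finset.coe_insert]
    exact h.2.1.insert fun ρ hρ _ => Or.inr (hl ρ hρ)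
  · rcases Finset.mem_insert.1 hρ with rfl | k
    exacts [subset_rfl, hl ρ k]

theorem gs_sum {M : Type*} [AddCommGroup M] [Module ℝ M] (hτ : τ ∉ l) (b s : ℝ)
    (a : Set (Pt n) → ℝ) (g : Set (Pt n) → M) :
    ∑ ρ ∈ insert τ l, (if ρ = τ then b else s * a ρ) • g ρ = b • g τ + s • ∑ ρ ∈ l, a ρ • g ρ := by
  rw [Finset.sum_insert hτ, if_pos rfl, Finset.smul_sum]
  exact congrArg _ (Finset.sum_congr rfl fun ρ hρ => by
    rw [if_neg (ne_of_mem_of_not_mem hρ hτ), mul_smul])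

theorem gs_nonneg {b s : ℝ} {a : Set (Pt n) → ℝ} (hb : 0 ≤ b) (hs : 0 ≤ s) (ha : 0 ≤ a) :
    0 ≤ fun ρ => if ρ = τ then b else s * a ρ := fun ρ => by
  dsimp only
  split_ifs
  exacts [hb, mul_nonneg hs (ha ρ)]

theorem gs_slack (S : Finset ((Fin n → ℚ) × ℝ)) {p w : Pt n} (hp : ∀ h ∈ S, h.2 ≤ rv h.1 ⬝ᵥ p)
    (hw : ∀ h ∈ S, rv h.1 ⬝ᵥ p = h.2 → 0 ≤ rv h.1 ⬝ᵥ w) :
    ∃ e : ℝ, 0 < e ∧ ∀ h ∈ S, h.2 ≤ rv h.1 ⬝ᵥ (p + e • w) := by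
  obtain ⟨e, he, h1⟩ := G33.slack (S.filter fun h => rv h.1 ⬝ᵥ p ≠ h.2) (p := p) (w := w)
    (fun h hh => hp h (Finset.mem_filter.1 hh).1) fun h hh k => absurd k (Finset.mem_filter.1 hh).2
  refine ⟨e, he, fun h hh => ?_⟩
  by_cases k : rv h.1 ⬝ᵥ p = h.2
  · rw [dotProduct_add, dotProduct_smul, k]
    exact le_add_of_nonneg_right (mul_nonneg he.le (hw h hh k))
  · exact h1 h (Finset.mem_filter.2 ⟨hh, k⟩)

/-- A ray from `pt σ` leaves `σ` through a proper face. -/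
theorem gs_exit (hb : Bornology.IsBounded σ) (hσ : σ ∈ X.cells) {x : Pt n} (hx : x ∈ σ)
    (hne : x ≠ X.pt σ) : ∃ ρ ∈ X.cells, ρ ⊂ σ ∧ ∃ t : ℝ, 1 ≤ t ∧ X.pt σ + t • (x - X.pt σ) ∈ ρ := by
  obtain ⟨S, hS⟩ := X.poly σ hσ
  have hm : ∀ y, y ∈ σ ↔ ∀ h ∈ S, h.2 ≤ rv h.1 ⬝ᵥ y := fun y => by
    nth_rewrite 1 [hS]
    rfl
  have hp := gs_pt hσ
  generalize X.pt σ = p at hp hne ⊢
  obtain ⟨w, rfl⟩ : ∃ w, x = p + w := ⟨x - p, by abel⟩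
  rw [add_sub_cancel_left]
  have hw : 0 < ‖w‖ := norm_pos_iff.2 fun k => hne (by rw [k, add_zero])
  have hn : (S.filter fun h => rv h.1 ⬝ᵥ w < 0).Nonempty := by
    by_contra k
    obtain ⟨R, hR⟩ := hb.exists_norm_le
    have h0 : 0 ≤ R := (norm_nonneg p).trans (hR p hp)
    have h1 : 0 ≤ (R + ‖p‖ + 1) / ‖w‖ := by positivity
    have h2 := hR (p + ((R + ‖p‖ + 1) / ‖w‖) • w) ((hm _).2 fun h hh => by
      rw [dotProduct_add, dotProduct_smul]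
      exact le_add_of_le_of_nonneg ((hm p).1 hp h hh)
        (mul_nonneg h1 (not_lt.1 fun k' => k ⟨h, Finset.mem_filter.2 ⟨hh, k'⟩⟩)))
    have h3 := norm_sub_le (p + ((R + ‖p‖ + 1) / ‖w‖) • w) p
    rw [add_sub_cancel_left, norm_smul, Real.norm_of_nonneg h1, div_mul_cancel₀ _ hw.ne'] at h3
    linarith
  obtain ⟨h, hh, hmin⟩ := Finset.exists_min_image _
    (fun h : (Fin n → ℚ) × ℝ => (rv h.1 ⬝ᵥ p - h.2) / -(rv h.1 ⬝ᵥ w)) hn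
  obtain ⟨h1, h2⟩ := Finset.mem_filter.1 hh
  have h3 := (hm _).1 hx h h1
  rw [dotProduct_add] at h3
  have h4 : 1 ≤ (rv h.1 ⬝ᵥ p - h.2) / -(rv h.1 ⬝ᵥ w) := (one_le_div (by linarith)).2 (by linarith)
  have h5 : p + ((rv h.1 ⬝ᵥ p - h.2) / -(rv h.1 ⬝ᵥ w)) • w ∈ σ := (hm _).2 fun g hg => by
    rw [dotProduct_add, dotProduct_smul, smul_eq_mul]
    by_cases k : rv g.1 ⬝ᵥ w < 0
    · have := (le_div_iff₀ (neg_pos.2 k)).1 (hmin g (Finset.mem_filter.2 ⟨hg, k⟩))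
      linarith
    · exact le_add_of_le_of_nonneg ((hm p).1 hp g hg) (mul_nonneg (by linarith) (not_lt.1 k))
  have h6 : rv h.1 ⬝ᵥ (p + ((rv h.1 ⬝ᵥ p - h.2) / -(rv h.1 ⬝ᵥ w)) • w) = h.2 := by
    rw [dotProduct_add, dotProduct_smul, smul_eq_mul]
    field_simp [h2.ne]
    ring
  exact ⟨_, gs_face hσ (fun y hy => (hm y).1 hy h h1) h5 h6,
    ⟨Set.sep_subset _ _, fun k => by linarith [(k hp).2]⟩, _, h4, h5, h6⟩

/-- A direction at `pt σ` splits into the direction to `pt τ` and a direction of a proper face. -/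
theorem gs_split (hσ : σ ∈ X.cells) (hτ : τ ∈ X.cells) (hs : σ ⊂ τ) {x : Pt n} (hx : x ∈ τ) :
    ∃ ρ ∈ X.cells, σ ⊆ ρ ∧ ρ ⊂ τ ∧ ∃ y ∈ ρ, ∃ b s : ℝ, 0 ≤ b ∧ 0 ≤ s ∧
      x - X.pt σ = b • (X.pt τ - X.pt σ) + s • (y - X.pt σ) := by
  obtain ⟨S, hS⟩ := X.poly τ hτ
  have hm : ∀ y, y ∈ τ ↔ ∀ h ∈ S, h.2 ≤ rv h.1 ⬝ᵥ y := fun y => by
    nth_rewrite 1 [hS]
    rfl
  have hp := hs.1 (gs_pt hσ)
  have hq := gs_pt hτ
  have hn : (S.filter fun h => rv h.1 ⬝ᵥ X.pt σ = h.2 ∧ h.2 < rv h.1 ⬝ᵥ X.pt τ).Nonempty := by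
    have hE := X.inter_face τ hτ σ hσ
    rw [Set.inter_eq_right.2 hs.1] at hE
    obtain ⟨h, h1, h2, h3⟩ := G33.cutter S hS hs hE (gs_pt hσ) (X.pt_mem τ hτ)
    exact ⟨h, Finset.mem_filter.2 ⟨h1, h2, ((hm _).1 hq h h1).lt_of_ne h3.symm⟩⟩
  obtain ⟨h, hh, hmin⟩ := Finset.exists_min_image _
    (fun h : (Fin n → ℚ) × ℝ => (rv h.1 ⬝ᵥ x - h.2) / (rv h.1 ⬝ᵥ X.pt τ - h.2)) hn
  obtain ⟨h1, h2, h3⟩ := Finset.mem_filter.1 hh
  have h4 : 0 ≤ (rv h.1 ⬝ᵥ x - h.2) / (rv h.1 ⬝ᵥ X.pt τ - h.2) :=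
    div_nonneg (sub_nonneg.2 ((hm x).1 hx h h1)) (sub_pos.2 h3).le
  have h7 : (rv h.1 ⬝ᵥ x - h.2) / (rv h.1 ⬝ᵥ X.pt τ - h.2) * (rv h.1 ⬝ᵥ X.pt τ - h.2) =
      rv h.1 ⬝ᵥ x - h.2 := div_mul_cancel₀ _ (sub_pos.2 h3).ne'
  generalize (rv h.1 ⬝ᵥ x - h.2) / (rv h.1 ⬝ᵥ X.pt τ - h.2) = b at hmin h4 h7
  obtain ⟨e, he, h5⟩ := gs_slack S (w := x - X.pt σ - b • (X.pt τ - X.pt σ)) ((hm _).1 hp)
    fun g hg k => by
      rw [dotProduct_sub, dotProduct_smul, dotProduct_sub, dotProduct_sub, k, smul_eq_mul]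
      rcases ((hm _).1 hq g hg).lt_or_eq with k' | k'
      · exact sub_nonneg.2 ((le_div_iff₀ (sub_pos.2 k')).1
          (hmin g (Finset.mem_filter.2 ⟨hg, k, k'⟩)))
      · rw [← k', sub_self, mul_zero, sub_zero]
        exact sub_nonneg.2 ((hm x).1 hx g hg)
  have h6 : rv h.1 ⬝ᵥ (X.pt σ + e • (x - X.pt σ - b • (X.pt τ - X.pt σ))) = h.2 := by
    rw [dotProduct_add, dotProduct_smul, dotProduct_sub, dotProduct_smul, dotProduct_sub,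
      dotProduct_sub, h2, smul_eq_mul, smul_eq_mul, h7, sub_self, mul_zero, add_zero]
  have h8 := gs_face hτ (fun y hy => (hm y).1 hy h h1) ((hm _).2 h5) h6
  refine ⟨_, h8, cmp_pt hσ h8 ⟨hp, h2⟩, ⟨Set.sep_subset _ _, fun k => h3.ne' (k hq).2⟩, _,
    ⟨(hm _).2 h5, h6⟩, b, e⁻¹, h4, (inv_pos.2 he).le, ?_⟩
  rw [add_sub_cancel_left, inv_smul_smul₀ he.ne']
  abel

/-- A bounded cell is covered by its barycentric simplices. -/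
theorem cover_down (hb : ∀ σ ∈ X.cells, Bornology.IsBounded σ) (hσ : σ ∈ X.cells) {x : Pt n}
    (hx : x ∈ σ) : ∃ l, Adm X l ∅ ∧ (∀ ρ ∈ l, ρ ⊆ σ) ∧ ∃ a : Set (Pt n) → ℝ, 0 ≤ a ∧
      ∑ ρ ∈ l, a ρ = 1 ∧ x = ∑ ρ ∈ l, a ρ • X.pt ρ := by
  revert x
  refine gs_ind (P := fun σ => ∀ {x : Pt n}, x ∈ σ → ∃ l, Adm X l ∅ ∧ (∀ ρ ∈ l, ρ ⊆ σ) ∧
    ∃ a : Set (Pt n) → ℝ, 0 ≤ a ∧ ∑ ρ ∈ l, a ρ = 1 ∧ x = ∑ ρ ∈ l, a ρ • X.pt ρ)
    (fun σ hσ ih x hx => ?_) hσ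
  by_cases hne : x = X.pt σ
  · exact ⟨{σ}, ⟨Finset.singleton_subset_iff.2 hσ, by simp, σ, hσ, by simp, by simp⟩, by simp,
      1, zero_le_one, by simp, by simpa⟩
  obtain ⟨ρ, hρ, hlt, t, ht, hy⟩ := gs_exit (hb σ hσ) hσ hx hne
  obtain ⟨l, l1, l2, a, a1, a2, a3⟩ := ih ρ hρ hlt hy
  have l3 : σ ∉ l := fun k => hlt.2 (l2 σ k)
  have t0 : 0 < t := by linarith
  have l4 := gs_adm l1 hσ (fun ρ' k => (l2 ρ' k).trans hlt.1) (Finset.empty_subset _)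
  refine ⟨insert σ l, l4, fun ρ' k => ?_, _, gs_nonneg (τ := σ)
    (sub_nonneg.2 (inv_le_one_of_one_le₀ ht)) (inv_pos.2 t0).le a1, ?_, ?_⟩
  · rcases Finset.mem_insert.1 k with rfl | k
    exacts [subset_rfl, (l2 ρ' k).trans hlt.1]
  · simpa [a2] using gs_sum l3 (1 - t⁻¹) t⁻¹ a fun _ => (1 : ℝ)
  · rw [gs_sum l3, ← a3, smul_add, inv_smul_smul₀ t0.ne', sub_smul, one_smul]
    abel

/-- Near `pt σ` a cell is covered by the barycentric simplices through `pt σ`. -/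
theorem cover_at (hb : ∀ σ ∈ X.cells, Bornology.IsBounded σ) (hσ : σ ∈ X.cells)
    (hτ : τ ∈ X.cells) (hs : σ ⊆ τ) {x : Pt n} (hx : x ∈ τ) :
    ∃ l, σ ∈ l ∧ Adm X l ∅ ∧ (∀ ρ ∈ l, ρ ⊆ τ) ∧ ∃ a : Set (Pt n) → ℝ, 0 ≤ a ∧
      x - X.pt σ = ∑ ρ ∈ l, a ρ • (X.pt ρ - X.pt σ) := by
  revert hs x
  refine gs_ind (P := fun τ => σ ⊆ τ → ∀ {x : Pt n}, x ∈ τ → ∃ l, σ ∈ l ∧ Adm X l ∅ ∧
    (∀ ρ ∈ l, ρ ⊆ τ) ∧ ∃ a : Set (Pt n) → ℝ, 0 ≤ a ∧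
      x - X.pt σ = ∑ ρ ∈ l, a ρ • (X.pt ρ - X.pt σ)) (fun τ hτ ih hs x hx => ?_) hτ
  rcases hs.eq_or_ssubset with rfl | hs
  · obtain ⟨l, l1, l2, a, a1, a2, a3⟩ := cover_down hb hσ hx
    refine ⟨insert σ l, Finset.mem_insert_self _ _, gs_adm l1 hσ l2 (Finset.empty_subset _),
      fun ρ k => ?_, a, a1, ?_⟩
    · rcases Finset.mem_insert.1 k with rfl | k
      exacts [subset_rfl, l2 ρ k]
    · rw [Finset.sum_insert_of_eq_zero_if_notMem fun _ => by rw [sub_self, smul_zero]]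
      simp only [smul_sub, Finset.sum_sub_distrib, ← Finset.sum_smul, a2, ← a3, one_smul]
  · obtain ⟨ρ, hρ, h1, h2, y, hy, b, s, hb', hs', e⟩ := gs_split hσ hτ hs hx
    obtain ⟨l, l0, l1, l2, a, a1, a3⟩ := ih ρ hρ h2 h1 hy
    refine ⟨insert τ l, Finset.mem_insert_of_mem l0,
      gs_adm l1 hτ (fun ρ' k => (l2 ρ' k).trans h2.1) (Finset.empty_subset _), fun ρ' k => ?_, _,
      gs_nonneg (τ := τ) hb' hs' a1, ?_⟩
    · rcases Finset.mem_insert.1 k with rfl | k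
      exacts [subset_rfl, (l2 ρ' k).trans h2.1]
    · rw [gs_sum fun k => h2.2 (l2 τ k), ← a3, e]

theorem gs_convex (hσ : σ ∈ X.cells) : Convex ℝ σ := by
  obtain ⟨S, rfl⟩ := X.poly σ hσ
  intro x hx y hy a b ha hb hab h hh
  rw [dotProduct_add, dotProduct_smul, dotProduct_smul, smul_eq_mul, smul_eq_mul]
  have := add_le_add (mul_le_mul_of_nonneg_left (hx h hh) ha)
    (mul_le_mul_of_nonneg_left (hy h hh) hb)
  rwa [← add_mul, hab, one_mul] at this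

/-- The tangent cone of one polyhedron. -/
def gsT (X : TropCx n) (σ τ : Set (Pt n)) : Set (Pt n) :=
  {v | ∃ x ∈ τ, ∃ (c : ℝ) (a : (Fin n → ℚ) → ℝ), 0 ≤ c ∧ 0 ≤ a ∧
    v = c • (x - X.pt σ) + ∑ r ∈ X.ray τ, a r • rv r}

theorem gsT_add (hτ : τ ∈ X.cells) {v w : Pt n} (hv : v ∈ gsT X σ τ) (hw : w ∈ gsT X σ τ) :
    v + w ∈ gsT X σ τ := by
  obtain ⟨x, hx, b, a, hb, ha, rfl⟩ := hv
  obtain ⟨x', hx', b', a', hb', ha', rfl⟩ := hw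
  rcases (add_nonneg hb hb').eq_or_lt with k | k
  · obtain rfl : b = 0 := by linarith
    obtain rfl : b' = 0 := by linarith
    exact ⟨x, hx, 0, a + a', le_rfl, add_nonneg ha ha', by
      simp [add_smul, Finset.sum_add_distrib]⟩
  · refine ⟨_, gs_convex hτ hx hx' (div_nonneg hb k.le) (div_nonneg hb' k.le)
      (by rw [← add_div, div_self k.ne']), b + b', a + a', k.le, add_nonneg ha ha', ?_⟩
    simp only [Pi.add_apply, add_smul (a _), Finset.sum_add_distrib]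
    match_scalars <;> field_simp <;> ring

theorem gs_cone_add {N : Type} [AddCommGroup N] [Module ℝ N] {La : Du N} {s : Finset N} {x y : N}
    (hx : x ∈ cone La s) (hy : y ∈ cone La s) : x + y ∈ cone La s := by
  obtain ⟨a, ha, e⟩ := hx
  obtain ⟨b, hb, e'⟩ := hy
  exact ⟨fun v => a v + b v, fun v => add_nonneg (ha v) (hb v), fun m hm => by
    simp only [map_add, e m hm, e' m hm, add_mul, Finset.sum_add_distrib]⟩

theorem gs_cone_smul {N : Type} [AddCommGroup N] [Module ℝ N] {La : Du N} {s : Finset N} {x : N}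
    {b : ℝ} (hb : 0 ≤ b) (hx : x ∈ cone La s) : b • x ∈ cone La s := by
  obtain ⟨a, ha, e⟩ := hx
  exact ⟨fun v => b * a v, fun v => mul_nonneg hb (ha v), fun m hm => by
    simp only [map_smul, e m hm, smul_eq_mul, mul_assoc, Finset.mul_sum]⟩

theorem gs_cone_apex {N : Type} [AddCommGroup N] [Module ℝ N] {La : Du N} (s : Finset N) (v : N)
    (b : ℝ) : b • v ∈ cone (res La {v}) s :=
  ⟨fun _ => 0, fun _ => le_rfl, fun m hm => by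
    simp [(mem_res.1 hm).2 v (Finset.mem_singleton_self v)]⟩

theorem supp_link (hb : ∀ σ ∈ X.cells, Bornology.IsBounded σ) (hσ : σ ∈ X.cells) :
    supp (res ⊤ {vv X σ}) (link (DX X) {vv X σ}) = {y | y.2 - y.1 • X.pt σ ∈ X.Tc σ} := by
  ext y
  constructor
  · rintro ⟨s, hs, b, hb', e⟩
    obtain ⟨l, J, ⟨l1, -, τ, hτ, l2, l3⟩, e'⟩ := mem_DX.1 (mem_link.1 hs).2
    have h0 : ∀ u, u ∈ s ∨ u = vv X σ → u ∈ fc X l J := fun u hu => by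
      rw [← e']
      simpa only [Finset.mem_union, Finset.mem_singleton] using hu
    have h1 : σ ⊆ τ := l2 σ ((vv_mem_fc l1 hσ).1 (h0 _ (Or.inr rfl)))
    have h2 : y.2 - y.1 • X.pt σ = ∑ u ∈ s, b u • (u.2 - u.1 • X.pt σ) := by
      ext i
      simpa using e (LinearMap.proj i ∘ₗ
        (LinearMap.snd ℝ ℝ (Pt n) - (LinearMap.fst ℝ ℝ (Pt n)).smulRight (X.pt σ)))
        (mem_res.2 ⟨trivial, by simp [vv]⟩)
    refine ⟨τ, hτ, h1, (?_ : _ ∈ gsT X σ τ)⟩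
    rw [h2]
    refine Finset.sum_induction _ _ (fun _ _ => gsT_add hτ)
      ⟨_, gs_pt hτ, 0, 0, le_rfl, le_rfl, by simp⟩ fun u hu => ?_
    rcases mem_fc.1 (h0 u (Or.inl hu)) with ⟨ρ, k, rfl⟩ | ⟨r, k, rfl⟩
    · exact ⟨_, l2 ρ k (gs_pt (l1 k)), _, 0, hb' (vv X ρ), le_rfl, by simp [vv]⟩
    · refine ⟨_, gs_pt hτ, 0, Pi.single r (b (rr r)), le_rfl, Pi.single_nonneg.2 (hb' _), ?_⟩
      simp [rr, Pi.single_apply, l3 k]
  · rintro ⟨τ, hτ, h1, x, hx, b, a, hb', ha, e⟩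
    obtain ⟨l, l0, l1, l2, a', a1, a3⟩ := cover_at hb hσ hτ h1 hx
    have l3 : l.erase σ ⊆ X.cells := (Finset.erase_subset _ _).trans l1.1
    refine ⟨fc X (l.erase σ) (X.ray τ), mem_link.2 ⟨by simp [vv_mem_fc l3 hσ], ?_⟩, ?_⟩
    · convert (fc_mem_DX l1.1).2 ⟨l1.1, l1.2.1, τ, hτ, l2, subset_rfl⟩ using 1
      conv_rhs => rw [← Finset.insert_erase l0, fc_insert_vv]
      ext u
      simp only [Finset.mem_union, Finset.mem_singleton, Finset.mem_insert, or_comm]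
    · have h2 : y = y.1 • vv X σ + (∑ ρ ∈ l, (b * a' ρ) • (vv X ρ + (-1 : ℝ) • vv X σ) +
          ∑ r ∈ X.ray τ, a r • rr r) := by
        refine Prod.ext ?_ ?_
        · simp [vv, rr, Prod.fst_sum]
        · rw [sub_eq_iff_eq_add'] at e
          rw [e, a3]
          simp [vv, rr, Prod.snd_sum, Finset.smul_sum, mul_smul, sub_eq_add_neg]
      rw [h2]
      have z := gs_cone_apex (La := ⊤) (fc X (l.erase σ) (X.ray τ)) (vv X σ)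
      have z0 := z 0
      rw [zero_smul] at z0
      refine gs_cone_add (z _) (gs_cone_add
        (Finset.sum_induction _ _ (fun _ _ => gs_cone_add) z0 fun ρ k =>
          gs_cone_smul (mul_nonneg hb' (a1 ρ)) (gs_cone_add ?_ (z _)))
        (Finset.sum_induction _ _ (fun _ _ => gs_cone_add) z0 fun r k =>
          gs_cone_smul (ha r) (mem_cone_self (rr_mem_fc.2 k))))
      by_cases k' : ρ = σ
      · simpa [k'] using z 1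
      · exact mem_cone_self ((vv_mem_fc l3 (l1.1 k)).2 (Finset.mem_erase.2 ⟨k', k⟩))

end K2
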