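import Pool.Agent.Lib.MP_e9c0f3_ag.K2.GPure
import Pool.Agent.Lib.MP_e9c0f3_ag.KH.Wt

/-! The fundamental class of a smooth complex. -/

open ExteriorAlgebra H5T Matrix KH
open scoped Classical

noncomputable section

namespace K2

variable {n : ℕ} {X : TropCx n} {f : Pt n → ℝ} {h : (Fin n → ℚ) → ℚ}
  {m : Set (Pt n) → Finset (Fin n → ℚ) → Fin n → ℚ} {c : Set (Pt n) → Finset (Fin n → ℚ) → ℝ}
  {σ : Set (Pt n)} {d k : ℕ}

/-- The integral chart at the point `p`. -/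
def gwB (p : Pt n) (A : Matrix (Fin n) (Fin k) ℤ) : (Option (Fin k) → ℝ) →ₗ[ℝ] Nn n :=
  (LinearMap.proj none).prod ((LinearMap.proj none).smulRight p +
    (A.map (Int.cast : ℤ → ℝ)).mulVecLin ∘ₗ
      (LinearMap.funLeft ℝ ℝ some - LinearMap.funLeft ℝ ℝ fun _ => none))

theorem gwB_apply (p : Pt n) (A : Matrix (Fin n) (Fin k) ℤ) (x : Option (Fin k) → ℝ) :
    gwB p A x =
      (x none, x none • p + A.map (Int.cast : ℤ → ℝ) *ᵥ fun i => x (some i) - x none) := rfl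

/-- The integral linear forms. -/
def gwZ (n : ℕ) : Set (Module.Dual ℝ (Nn n)) := Set.range fun z : Fin n → ℤ => dv fun i => z i

theorem gw_dv (p : Pt n) (A : Matrix (Fin n) (Fin k) ℤ) (z : Fin n → ℤ) (x : Option (Fin k) → ℝ) :
    dv (fun i => (z i : ℚ)) (gwB p A x) = ((fun i => (z i : ℝ)) ⬝ᵥ p) * x none +
      ∑ j, ((z ᵥ* A) j : ℝ) * (x (some j) - x none) := by
  have e : rv (fun i => (z i : ℚ)) = fun i => (z i : ℝ) := funext fun i => by simp [rv]
  have : dv (fun i => (z i : ℚ)) (gwB p A x) = (fun i => (z i : ℝ)) ⬝ᵥ (gwB p A x).2 := by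
    rw [← e]; rfl
  rw [this, gwB_apply, dotProduct_add, dotProduct_smul, dotProduct_mulVec, smul_eq_mul, mul_comm]
  congr 1
  refine Finset.sum_congr rfl fun j _ => ?_
  simp [vecMul, dotProduct]

theorem gw_chart (p : Pt n) {A : Matrix (Fin n) (Fin k) ℤ} {P : Matrix (Fin k) (Fin n) ℤ}
    (hP : P * A = 1) : Wt.Chart tt (gwZ n) (gwB p A) none where
  ht _ := rfl
  int := by
    rintro _ ⟨z, rfl⟩
    refine ⟨(fun i => (z i : ℝ)) ⬝ᵥ p - ∑ j, ((z ᵥ* A) j : ℝ), fun i => i.elim 0 (z ᵥ* A),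
      fun x => ?_⟩
    rw [gw_dv, Fintype.sum_option]
    simp only [Option.elim, mul_sub, sub_mul, Finset.sum_sub_distrib, Finset.sum_mul]
    simp only [Int.cast_zero]
    ring
  sub := by
    rintro (_ | j)
    · refine ⟨_, ⟨0, rfl⟩, -1, fun x => ?_⟩
      rw [gw_dv]
      simp [dotProduct]
    · refine ⟨_, ⟨P j, rfl⟩, (fun i => (P j i : ℝ)) ⬝ᵥ p - 1, fun x => ?_⟩
      have e : P j ᵥ* A = Pi.single j 1 := by
        rw [show P j ᵥ* A = (P * A) j from rfl, hP]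
        ext i
        simp [one_apply, Pi.single_apply, eq_comm]
      rw [gw_dv, e]
      simp [Pi.single_apply]
      ring

/-- The weight of a facet is the inverse of its lattice volume. -/
theorem exists_weight (hp : PJ X f h m c) (hS : X.Smooth d) : ∃ ω : Finset (Nn n) → ℝ,
    (∀ η ∈ DX X, η.card = d + 1 → (fp tt η).Nonempty → 0 < ω η) ∧
    ∀ τ ∈ DX X, τ.card = d → (fp tt τ).Nonempty → ∀ μ : Module.Dual ℝ (Nn n),
      (∀ v ∈ τ, μ v = 0) → ∑ v ∈ nb (DX X) τ, μ v * ω (insert v τ) = 0 := by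
  refine ⟨Wt.wt tt (gwZ n), fun η _ _ _ => Wt.wt_pos η, fun τ hτ hd h0 μ hμ => ?_⟩
  obtain ⟨hσ, hv, -⟩ := top_spec hτ h0
  generalize top X τ = σ at hσ hv
  obtain ⟨-, -, k, M, A, P, hM, -, hP, hT⟩ := hS σ hσ
  have hC := gw_chart (X.pt σ) hP
  refine Wt.wt_bal hM (DX_fan hp) hC (fun x y e => funext fun i => ?_) ?_ ?_ hτ hv
    (fun s hs _ => hd ▸ DX_card hp hS s hs) hμ
  · obtain ⟨μ, -, c, hc⟩ := hC.sub i
    have h1 := hc x
    rw [e, hc y, ← hC.ht x, e, hC.ht y] at h1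
    exact (add_left_cancel h1).symm
  · simp [gwB_apply, vv, ← Pi.zero_def]
  · rw [supp_link (fun σ hσ => (hS σ hσ).1) hσ, hT]
    ext y
    constructor
    · rintro ⟨z, hz, e⟩
      refine ⟨_, Wt.Bg.add_const (M := M) hz y.1, ?_⟩
      simp [gwB_apply, ← e]
    · rintro ⟨x, hx, rfl⟩
      refine ⟨fun i => x (some i) - x none, ?_, by simp [gwB_apply]⟩
      convert Wt.Bg.add_const hx (-x none) using 1
      refine Iff.of_eq (congrArg (Wt.Bg M) (funext ?_))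
      rintro (_ | i)
      · simp
      · simp [sub_eq_add_neg]

end K2
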