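import Pool.Agent.Lib.MP_e9c0f3_ag.K2.Dec
import Pool.Agent.Lib.MP_e9c0f3_ag.K2.Yhom

/-! The homology of the graded pieces of the vanishing filtration. -/

open ExteriorAlgebra KH
open scoped Classical

noncomputable section

namespace K2

variable {N : Type} [AddCommGroup N] [Module ℝ N] {De : Finset (Finset N)} {t : Module.Dual ℝ N}

theorem grx_Fb {i : ℕ} {β : Finset N} (hβ : β ∈ Fb De t i) : Fi De t β ∧ β.card = i :=
  (Finset.mem_filter.1 hβ).2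

theorem grx_YC {β : Finset N} {s q : ℕ} {z : Kc N} (hz : z ∈ YC De β s q) :
    z ∈ Pw fun j => if OkY De β j then (⊤ : Submodule ℝ (Om N)) else ⊥ := by
  refine Pw_mono (fun j => ?_) hz
  by_cases hj : OkY De β j
  · rw [if_pos hj]; exact le_top
  · rw [if_neg hj, if_neg fun h => hj h.1]

theorem grx_cyc (h : Fn De) {P q i : ℕ} (hi : 1 ≤ i) (hP : i ≤ P) {x : Kc N}
    (hx : x ∈ Cub De t P q ⊓ VV De t i) (hb : bd x ∈ VV De t (i + 1)) :
    ∃ y : Finset N → Kc N, (∀ β ∈ Fb De t i, y β ∈ (cxY h β (P - i)).Cy q) ∧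
      x - ∑ β ∈ Fb De t i, mr β (y β) ∈ VV De t (i + 1) := by
  obtain ⟨y, hy, hz⟩ := decA h hi hx
  simp only [if_pos hP] at hy
  have h1 : ∑ β ∈ Fb De t i, mr β (bd (y β)) ∈ VV De t (i + 1) := by
    have e : ∑ β ∈ Fb De t i, mr β (bd (y β)) =
        bd x - bd (x - ∑ β ∈ Fb De t i, mr β (y β)) := by
      simp only [map_sub, map_sum, bd_mr, sub_sub_cancel]
    rw [e]
    exact Submodule.sub_mem _ hb (ZK_le_VV _ (bd_ZK h hz))
  have h2 := decB h (y := fun β => bd (y β)) (fun β _ => by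
    cases q with
    | zero => rw [bd_YC0 (hy β)]; exact Submodule.zero_mem _
    | succ q => exact grx_YC (bd_YC h (hy β))) h1
  exact ⟨y, fun β hβ => ⟨Submodule.mem_sup_left (hy β), h2 β hβ⟩, ZK_le_VV _ hz⟩

theorem grx_bd (h : Fn De) {s q i : ℕ} {z : Finset N → Kc N}
    (hz : ∀ β ∈ Fb De t i, z β ∈ (cxY h β s).Bd q) :
    ∑ β ∈ Fb De t i, mr β (z β) ∈
      (Cub De t (s + i) (q + 1) ⊓ VV De t i).map bd ⊔ VV De t (i + 1) := by
  refine Submodule.sum_mem _ fun β hβ => ?_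
  obtain ⟨hF, hc⟩ := grx_Fb hβ
  obtain ⟨u, hu, hv⟩ := mem_map_sup.1 (hz β hβ)
  obtain ⟨a, ha, b, hb, rfl⟩ := Submodule.mem_sup.1 hu
  refine mem_map_sup.2 ⟨mr β a, hc ▸ mr_YC hF ha, ?_⟩
  have h1 : z β - bd a ∈ YZ De β := by
    have e : z β - bd a = (z β - bd (a + b)) + bd b := by rw [map_add]; abel
    rw [e]
    exact Submodule.add_mem _ hv (bd_YZ h hb)
  rw [bd_mr, ← map_sub]
  exact hc ▸ mr_YZ hF h1

theorem gr_ne (h : Pre De t) {P q i : ℕ} (hi : 1 ≤ i) (hq : q + i ≠ P) {x : Kc N}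
    (hx : x ∈ Cub De t P q ⊓ VV De t i) (hb : bd x ∈ VV De t (i + 1)) :
    x ∈ (Cub De t P (q + 1) ⊓ VV De t i).map bd ⊔ VV De t (i + 1) := by
  by_cases hP : i ≤ P
  · obtain ⟨y, hy, hz⟩ := grx_cyc h.fan hi hP hx hb
    have h1 := grx_bd h.fan (t := t) (i := i) (z := y) fun β hβ => by
      obtain ⟨hF, -⟩ := grx_Fb hβ
      obtain ⟨v, hv⟩ := hF.2.1
      exact y_ne h.fan (h.res β hF.1 ⟨v, Finset.mem_filter.2 ⟨hv, hF.2.2 v hv⟩⟩) (by omega)
        (hy β hβ)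
    rw [Nat.sub_add_cancel hP] at h1
    have h2 := Submodule.add_mem _ (Submodule.mem_sup_right hz) h1
    rwa [sub_add_cancel] at h2
  · obtain ⟨y, hy, hz⟩ := decA h.fan hi hx
    simp only [if_neg hP, Submodule.mem_bot] at hy
    simp only [hy, map_zero, Finset.sum_const_zero, sub_zero] at hz
    exact Submodule.mem_sup_right (ZK_le_VV _ hz)

theorem gr_surj (h : Fn De) {q i : ℕ} (hi : 1 ≤ i) {x : Kc N}
    (hx : x ∈ Cub De t (q + i) q ⊓ VV De t i) (hb : bd x ∈ VV De t (i + 1)) :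
    ∃ ψ : Finset N → Module.Dual ℝ (Po N), (∀ β ∈ Fb De t i, ψ β ∈ Md De β q) ∧
      x - ∑ β ∈ Fb De t i, mr β (io De β (ψ β)) ∈
        (Cub De t (q + i) (q + 1) ⊓ VV De t i).map bd ⊔ VV De t (i + 1) := by
  obtain ⟨y, hy, hz⟩ := grx_cyc h hi (Nat.le_add_left i q) hx hb
  rw [Nat.add_sub_cancel] at hy
  have h1 : ∀ β, ∃ ψ : Module.Dual ℝ (Po N), β ∈ Fb De t i →
      ψ ∈ Md De β q ∧ y β - io De β ψ ∈ (cxY h β q).Bd q := fun β => by
    by_cases hβ : β ∈ Fb De t i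
    · obtain ⟨ψ, h1, h2⟩ := y_surj h (grx_Fb hβ).1.1 (hy β hβ)
      exact ⟨ψ, fun _ => ⟨h1, h2⟩⟩
    · exact ⟨0, fun h' => absurd h' hβ⟩
  choose ψ hψ using h1
  refine ⟨ψ, fun β hβ => (hψ β hβ).1, ?_⟩
  have h2 := grx_bd h (t := t) (i := i) (z := fun β => y β - io De β (ψ β))
    fun β hβ => (hψ β hβ).2
  have h3 := Submodule.add_mem _ (Submodule.mem_sup_right hz) h2
  simp only [map_sub, Finset.sum_sub_distrib] at h3
  rwa [sub_add_sub_cancel] at h3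

theorem gr_inj (h : Fn De) {q i : ℕ} (hi : 1 ≤ i) {ψ : Finset N → Module.Dual ℝ (Po N)}
    (hψ : ∀ β ∈ Fb De t i, ψ β ∈ Md De β q)
    (h0 : ∑ β ∈ Fb De t i, mr β (io De β (ψ β)) ∈
      (Cub De t (q + i) (q + 1) ⊓ VV De t i).map bd ⊔ VV De t (i + 1)) :
    ∀ β ∈ Fb De t i, ψ β = 0 := by
  obtain ⟨u, hu, hv⟩ := mem_map_sup.1 h0
  obtain ⟨y, hy, hz⟩ := decA h hi hu
  simp only [if_pos (Nat.le_add_left i q), Nat.add_sub_cancel] at hy
  have h1 : ∑ β ∈ Fb De t i, mr β (io De β (ψ β) - bd (y β)) ∈ VV De t (i + 1) := by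
    have e : ∑ β ∈ Fb De t i, mr β (io De β (ψ β) - bd (y β)) =
        (∑ β ∈ Fb De t i, mr β (io De β (ψ β)) - bd u) +
          bd (u - ∑ β ∈ Fb De t i, mr β (y β)) := by
      simp only [map_sub, map_sum, bd_mr, Finset.sum_sub_distrib, sub_add_sub_cancel]
    rw [e]
    exact Submodule.add_mem _ hv (ZK_le_VV _ (bd_ZK h hz))
  have h2 := decB h (y := fun β => io De β (ψ β) - bd (y β)) (fun β hβ =>
    Submodule.sub_mem _ (grx_YC (io_YC (hψ β hβ))) (grx_YC (bd_YC h (hy β)))) h1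
  exact fun β hβ => y_inj h (hψ β hβ)
    (mem_map_sup.2 ⟨y β, Submodule.mem_sup_left (hy β), h2 β hβ⟩)

end K2
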