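import Pool.Agent.Lib.MP_e9c0f3_ag.K2.GFan
import Pool.Agent.Lib.MP_e9c0f3_ag.H5T.FlagGood
import Pool.Agent.Lib.MP_e9c0f3_ag.H5T.Brid

/-! The collapse of cubes to flags. -/

open ExteriorAlgebra H5T Matrix KH
open scoped Classical

noncomputable section

namespace K2

variable {n : ℕ} {X : TropCx n} {r : Kc (Nn n) →ₗ[ℝ] Fc n} {φ : List (Set (Pt n))} {p q : ℕ}
  {m : Set (Pt n) → Fin n → ℚ} {h : (Fin n → ℚ) → ℚ}

theorem rd_le_GR {σ τ : Set (Pt n)} (hτ : τ ∈ X.cells) (h : σ ⊆ τ) (p : ℕ) :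
    wg (UR X τ) p ≤ GR X p σ :=
  le_iSup_of_le τ (le_iSup_of_le hτ (le_iSup_of_le h le_rfl))

theorem GR_anti {σ ρ : Set (Pt n)} (h : ρ ⊆ σ) (p : ℕ) : GR X p σ ≤ GR X p ρ :=
  iSup_le fun _ => iSup_le fun hτ => iSup_le fun e => rd_le_GR hτ (h.trans e) p

theorem IR_anti {σ ρ : Set (Pt n)} (hσ : σ ∈ X.cells) (hρ : ρ ∈ X.cells) (h : ρ ⊆ σ) :
    IR X σ ≤ IR X ρ := JE_mono (Finset.image_subset_image (X.ray_anti σ hσ ρ hρ h))

theorem ct_GR (μ : Module.Dual ℝ (Nn n)) {σ : Set (Pt n)} {b : Ex (Nn n)}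
    (h : b ∈ GR X (p + 1) σ) : ct μ b ∈ GR X p σ :=
  (show GR X (p + 1) σ ≤ (GR X p σ).comap (ct μ) from iSup_le fun _ => iSup_le fun hτ =>
    iSup_le fun e _ hb => rd_le_GR hτ e p (wg_mono inf_le_left _ (ct_wg μ hb))) h

theorem rd_head {σ τ : Set (Pt n)} {l : List (Set (Pt n))} (h : X.Flag (σ :: l) τ) :
    X.Flag (σ :: l) σ :=
  ⟨h.1, fun ρ hρ => ⟨(h.2 ρ hρ).1, (List.mem_cons.1 hρ).elim (fun e => e.le)
    fun e => ((List.pairwise_cons.1 h.1).1 ρ e).subset⟩⟩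

theorem rd_sup {G : Set (Pt n) → Submodule ℝ (Ex (Nn n))} {l : List (Set (Pt n))} {Q : Prop}
    {P : Set (Pt n) → Prop} (hG : ∀ σ ∈ X.cells, ∀ ρ ∈ X.cells, ρ ⊆ σ → G σ ≤ G ρ)
    (hP : ∀ σ, P σ ↔ X.Flag l σ ∧ Q) (hl : Q → l ≠ []) {b : Ex (Nn n)} :
    (b ∈ ⨆ σ ∈ X.cells, ⨆ _ : P σ, (G σ).restrictScalars ℚ) ↔
      b = 0 ∨ ∃ σ l', l = σ :: l' ∧ X.Flag l σ ∧ Q ∧ b ∈ G σ := by
  constructor
  · intro hb
    by_cases e : ∃ σ, P σ
    · obtain ⟨τ, hτ⟩ := e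
      obtain ⟨h1, h2⟩ := (hP τ).1 hτ
      obtain ⟨σ, l', rfl⟩ := List.exists_cons_of_ne_nil (hl h2)
      refine Or.inr ⟨σ, l', rfl, rd_head h1, h2, ?_⟩
      refine FG.map_iSup_mem (S := (G σ).restrictScalars ℚ) LinearMap.id (fun ρ hρ h3 c hc => ?_) hb
      have h4 := ((hP ρ).1 h3).1.2 σ List.mem_cons_self
      exact hG ρ hρ σ h4.1 h4.2 hc
    · exact Or.inl (FG.map_iSup_mem (S := ⊥) LinearMap.id (fun ρ _ h3 => absurd ⟨ρ, h3⟩ e) hb)
  · rintro (rfl | ⟨σ, l', rfl, h1, h2, h3⟩)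
    · exact Submodule.zero_mem _
    · exact FG.mem_iSup_of (h1.2 σ List.mem_cons_self).1 ((hP σ).2 ⟨h1, h2⟩) h3

/-- Membership in `FC`, flag by flag. -/
theorem mem_FC {z : Fc n} : z ∈ FC X p q ↔ ∀ l, z l = 0 ∨ ∃ σ l', l = σ :: l' ∧ X.Flag l σ ∧
    l'.length = q ∧ z l ∈ GR X p σ := by
  refine mem_Ch.trans (forall_congr' fun l => (rd_sup (Q := l.length = q + 1)
    (fun _ _ _ _ e => GR_anti e p) (fun _ => Iff.rfl) (by rintro e rfl; simp at e)).trans ?_)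
  refine or_congr_right (exists₂_congr fun σ l' => and_congr_right ?_)
  rintro rfl
  rw [List.length_cons, add_left_inj]

/-- Membership in `FZ`, flag by flag. -/
theorem mem_FZ {z : Fc n} : z ∈ FZ X ↔ ∀ l, l = [] ∨ z l = 0 ∨ ∃ σ l', l = σ :: l' ∧
    X.Flag l σ ∧ z l ∈ IR X σ := by
  refine mem_Ch.trans (forall_congr' fun l => ?_)
  by_cases e : l = []
  · simp [e]
  · rw [if_neg e, rd_sup (l := l) (Q := True) (fun _ hσ _ hρ => IR_anti hσ hρ) (fun _ => by simp)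
      fun _ => e]
    simp only [e, false_or, true_and]

theorem bd_FA {z : Fc n} (hz : z ∈ FA φ) : H5T.bd z ∈ FA φ := by
  rw [FA, supported_eq_Ch] at hz ⊢
  refine bd_mem_Ch (fun l l' h1 _ => ?_) hz
  by_cases e : φ ⊆ l'
  · rw [if_neg (not_not.2 (List.Subset.trans e h1.subset))]
    exact bot_le
  · rw [if_pos e]
    exact le_top

theorem rd_msup {R E : Type*} [Ring R] [AddCommGroup E] [Module R E] (f : E →+ Fc n)
    {A B : Submodule R E} {C : Submodule ℚ (Fc n)} (hA : ∀ x ∈ A, f x ∈ C) (hB : ∀ x ∈ B, f x ∈ C)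
    {x : E} (hx : x ∈ A ⊔ B) : f x ∈ C := by
  obtain ⟨a, ha, b, hb, rfl⟩ := Submodule.mem_sup.1 hx
  rw [map_add]
  exact add_mem (hA a ha) (hB b hb)

theorem rd_bd_FC {z : Fc n} (hz : z ∈ FC X p (q + 1)) : H5T.bd z ∈ FC X p q :=
  bd_mem_Ch (fun _ _ h1 h2 _ hβ => FG.map_iSup_mem LinearMap.id (fun _ hσ hP _ hβ =>
    FG.mem_iSup_of hσ ⟨FG.flag_sub hP.1 h1, by have := hP.2; omega⟩ hβ) hβ) hz

theorem rd_bd_FC0 {z : Fc n} (hz : z ∈ FC X p 0) : H5T.bd z ∈ FZ X := by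
  refine bd_mem_Ch (fun l l' _ h2 _ hβ => FG.map_iSup_mem LinearMap.id (fun _ _ hP _ _ => ?_) hβ) hz
  rw [if_pos (List.length_eq_zero_iff.1 (by have := hP.2; omega))]
  trivial

theorem rd_bd_ZA {z : Fc n} (hz : z ∈ FZ X ⊔ FA φ) : H5T.bd z ∈ FZ X ⊔ FA φ :=
  rd_msup H5T.bd.toAddMonoidHom (fun _ e => Submodule.mem_sup_left (FG.bd_Z e))
    (fun _ e => Submodule.mem_sup_right (bd_FA e)) hz

/-- Real chains on flags, localised at `φ`. -/
def cxF1 (X : TropCx n) (p : ℕ) (φ : List (Set (Pt n))) : Cx1 ℚ (Fc n) where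
  C q := FC X p q ⊔ (FZ X ⊔ FA φ)
  Z := FZ X ⊔ FA φ
  D := H5T.bd
  ZC _ := le_sup_right
  DZ _ hx := rd_bd_ZA hx
  DD _ x _ := by rw [H5T.bd_bd]; exact Submodule.zero_mem _
  DC _ _ hx := rd_msup H5T.bd.toAddMonoidHom (fun _ e => Submodule.mem_sup_left (rd_bd_FC e))
    (fun _ e => Submodule.mem_sup_right (rd_bd_ZA e)) hx
  D0 _ hx := rd_msup H5T.bd.toAddMonoidHom (fun _ e => Submodule.mem_sup_left (rd_bd_FC0 e))
    (fun _ e => rd_bd_ZA e) hx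

theorem rd_dv_rr (v r : Fin n → ℚ) : dv v (rr r) = ((v ⬝ᵥ r : ℚ) : ℝ) := by
  simp [dv, rr, G33.rv_dot]

theorem lefR_FZ (hm : Slo X m h) {z : Fc n} (hz : z ∈ FZ X) : lefR m z ∈ FZ X := by
  refine map_mem_of_Ch (lefR m) (fun l β hβ => ?_) hz
  rcases l with _ | ⟨x, _ | ⟨y, l⟩⟩
  · simp [lefR]
  · simp [lefR]
  rw [lefR, cap_two]
  refine single_mem_Ch ?_
  rw [if_neg (List.cons_ne_nil _ _)] at hβ ⊢
  refine FG.map_iSup_mem _ (fun σ hσ hP β hβ => FG.mem_iSup_of hσ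
    (FG.flag_sub hP (List.sublist_cons_self _ _)) (ct_JE (fun v hv => ?_) hβ)) hβ
  obtain ⟨d, hd, rfl⟩ := Finset.mem_image.1 hv
  obtain ⟨h1, h2⟩ := hP.2 x (by simp)
  obtain ⟨h3, h4⟩ := hP.2 y (by simp)
  rw [LinearMap.sub_apply, rd_dv_rr, rd_dv_rr, hm x h1 d (X.ray_anti σ hσ x h1 h2 hd),
    hm y h3 d (X.ray_anti σ hσ y h3 h4 hd), sub_self]

theorem rd_lef_FC {z : Fc n} (hz : z ∈ FC X (p + 1) (q + 1)) : lefR m z ∈ FC X p q := by
  refine map_mem_of_Ch (lefR m) (fun l β hβ => ?_) hz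
  rcases l with _ | ⟨x, _ | ⟨y, l⟩⟩
  · simp [lefR]
  · simp [lefR]
  rw [lefR, cap_two]
  exact single_mem_Ch (FG.map_iSup_mem _ (fun σ hσ hP β hβ => FG.mem_iSup_of hσ
    ⟨FG.flag_sub hP.1 (List.sublist_cons_self _ _), Nat.succ.inj hP.2⟩ (ct_GR _ hβ)) hβ)

/-- Real chains on flags with the Lefschetz operator. -/
def cxF (hm : Slo X m h) : Cx ℚ (Fc n) where
  C p q := FC X p q ⊔ FZ X
  Z := FZ X
  D := H5T.bd
  L := lefR m
  ZC _ _ := le_sup_right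
  DZ _ hx := FG.bd_Z hx
  DD _ _ x _ := by rw [H5T.bd_bd]; exact Submodule.zero_mem _
  DC _ _ _ hx := rd_msup H5T.bd.toAddMonoidHom (fun _ e => Submodule.mem_sup_left (rd_bd_FC e))
    (fun _ e => Submodule.mem_sup_right (FG.bd_Z e)) hx
  D0 _ _ hx := rd_msup H5T.bd.toAddMonoidHom (fun _ e => rd_bd_FC0 e) (fun _ e => FG.bd_Z e) hx
  LZ _ hx := lefR_FZ hm hx
  LC _ _ _ hx := rd_msup (lefR m).toAddMonoidHom (fun _ e => Submodule.mem_sup_left (rd_lef_FC e))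
    (fun _ e => Submodule.mem_sup_right (lefR_FZ hm e)) hx
  DL := ⟨-1, fun _ _ x _ => by
    rw [Units.neg_smul, one_smul, sub_neg_eq_add]
    refine FG.bd_cap _ (fun x y w β => ?_) x
    simp only [LinearMap.restrictScalars_apply, ct_sub]
    abel⟩

theorem rd_cells {l : List (Set (Pt n))} {σ : Set (Pt n)} (h : X.Flag l σ) :
    l.toFinset ⊆ X.cells := fun ρ hρ => (h.2 ρ (List.mem_toFinset.1 hρ)).1

theorem exists_RS (X : TropCx n) : ∃ r, RS X r := by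
  let P : Ix (Nn n) → List (Set (Pt n)) × Set (Pt n) → Prop := fun i c =>
    ∃ (b : List (Set (Pt n))) (σ : Set (Pt n)) (K : Finset (Fin n → ℚ)),
      X.Flag (c.1 ++ c.2 :: b) σ ∧
      i = (fc X (c.2 :: b).toFinset K, fc X (c.1 ++ c.2 :: b).toFinset K)
  refine ⟨Finsupp.lsum ℝ fun i => if h : ∃ c, P i c then
    Finsupp.lsingle (h.choose.1 ++ [h.choose.2]) ∘ₗ sc.toLinearMap ∘ₗ cs (h.choose.1.map (vv X))
    else 0, fun a b y σ K w hF => ?_, fun i w hi => ?_⟩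
  · have h : ∃ c, P (fc X (y :: b).toFinset K, fc X (a ++ y :: b).toFinset K) c :=
      ⟨(a, y), b, σ, K, hF, rfl⟩
    rw [Finsupp.lsum_single, dif_pos h]
    obtain ⟨b', σ', K', hF', e⟩ := h.choose_spec
    generalize h.choose = c at hF' e
    rw [Prod.mk.injEq] at e
    have s1 := FG.flag_sub hF (List.sublist_append_right a _)
    have s2 := FG.flag_sub hF' (List.sublist_append_right c.1 _)
    have e1 := flag_unique s1 s2 (fc_inj (rd_cells s1) (rd_cells s2) e.1).1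
    have e2 := flag_unique hF hF' (fc_inj (rd_cells hF) (rd_cells hF') e.2).1
    rw [← e1, List.append_cancel_right_eq] at e2
    rw [← e2, ← (List.cons.inj e1).1]
    rfl
  · rw [Finsupp.lsum_single, dif_neg fun ⟨c, b, σ, K, e⟩ => hi ⟨c.1, b, c.2, σ, K, e⟩]
    rfl

/-- The cubes of the special fibre, in terms of flags. -/
theorem ok_iff {i : Ix (Nn n)} : Ok (DX X) tt i ↔ ∃ l l' J K, Adm X l J ∧ l' ⊆ l ∧ l'.Nonempty ∧
    K ⊆ J ∧ i = (fc X l' K, fc X l J) := by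
  have e : ∀ l K, (fp tt (fc X l K)).Nonempty ↔ l.Nonempty := fun l K => by
    rw [fp_fc, fc, Finset.image_empty, Finset.union_empty, Finset.image_nonempty]
  constructor
  · rintro ⟨h1, h2, h3⟩
    obtain ⟨l, J, hA, e1⟩ := mem_DX.1 h2
    obtain ⟨l', h4, K, h5, e2⟩ := exists_of_subset_fc (e1 ▸ h1)
    exact ⟨l, l', J, K, hA, h4, (e l' K).1 (e2 ▸ h3), h5, Prod.ext e2 e1⟩
  · rintro ⟨l, l', J, K, hA, h1, h2, h3, rfl⟩
    exact ⟨(fc_subset (h1.trans hA.1) hA.1).2 ⟨h1, h3⟩, mem_DX.2 ⟨l, J, hA, rfl⟩, (e l' K).2 h2⟩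

theorem cs_cx (a : List (Nn n)) (i : ℕ) (hi : i < a.length) (w : Om (Nn n)) :
    cs (a.eraseIdx i) (cx a[i] w) = (-1 : ℝ) ^ i • cs a w := by
  induction a generalizing i w with
  | nil => simp at hi
  | cons x a ih =>
    cases i with
    | zero => rw [pow_zero, one_smul]; rfl
    | succ i =>
      have hi' : i < a.length := Nat.lt_of_succ_lt_succ hi
      change cs (a.eraseIdx i) (cx x (cx a[i] w)) = _ • cs a (cx x w)
      rw [cx_comm, map_neg, ih, pow_succ, mul_neg_one, neg_smul]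

theorem cs_kx (a : List (Nn n)) (μ : Module.Dual ℝ (Nn n)) (w : Om (Nn n)) :
    cs a (kx μ w) = (-1 : ℝ) ^ a.length • kx μ (cs a w) := by
  induction a generalizing w with
  | nil => rw [List.length_nil, pow_zero, one_smul]; rfl
  | cons x a ih =>
    change cs a (cx x (kx μ w)) = _ • kx μ (cs a (cx x w))
    rw [cx_kx, map_neg, ih, List.length_cons, pow_succ, mul_neg_one, neg_smul]

theorem cs_Jd (a : List (Nn n)) {S : Finset (Nn n)} {w : Om (Nn n)} (h : w ∈ Jd S) :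
    cs a w ∈ Jd S := by
  induction a generalizing w with
  | nil => exact h
  | cons x a ih => exact ih (cx_Vp x h)

theorem sc_cs_eps {a : List (Nn n)} (ha : a.Nodup) : ∃ s : ℝ, s * s = 1 ∧
    ∀ b : Ex (Nn n), sc (cs a (eps a.toFinset * emb b)) = s • b := by
  obtain ⟨s, h1, h2⟩ := eps_list ha
  refine ⟨s, h1, fun b => ?_⟩
  rw [h2, smul_mul_assoc, map_smul, map_smul]
  congr 1
  clear h2
  induction a with
  | nil => rw [List.map_nil, List.prod_nil, one_mul]; exact sc_emb b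
  | cons x a ih =>
    rw [List.nodup_cons] at ha
    change sc (cs a (cx x _)) = b
    rw [List.map_cons, List.prod_cons, mul_assoc, cx_ep_mul, if_pos rfl, cx_mul_emb,
      om_cx_list ha.1, zero_mul, mul_zero, sub_zero, ih ha.2]

/-- `y` is the largest cell of `g`, and `a` lists the cells of `η` above `y`. -/
structure RdUp (X : TropCx n) (a : List (Set (Pt n))) (y : Set (Pt n)) (g η : Finset (Nn n)) :
    Prop where
  fl : X.Flag a Set.univ
  cy : y ∈ X.cells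
  sub : g ⊆ η
  mem : η ∈ DX X
  yg : vv X y ∈ g
  tp : ∀ ρ ∈ X.cells, vv X ρ ∈ g → ρ ⊆ y
  up : ∀ ρ ∈ X.cells, vv X ρ ∈ η ∧ y ⊂ ρ ↔ ρ ∈ a

section up
variable {a a1 a2 : List (Set (Pt n))} {y ρ : Set (Pt n)} {g η : Finset (Nn n)} {x : Nn n}

theorem rd_mem {σ : Set (Pt n)} (ha : X.Flag a σ) (hρ : ρ ∈ X.cells) :
    vv X ρ ∈ (a.map (vv X)).toFinset ↔ ρ ∈ a := by
  rw [List.mem_toFinset, List.mem_map]
  exact ⟨fun ⟨τ, h1, e⟩ => vv_inj (ha.2 τ h1).1 hρ e ▸ h1, fun h1 => ⟨ρ, h1, rfl⟩⟩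

theorem rd_nodup {σ : Set (Pt n)} (ha : X.Flag a σ) : (a.map (vv X)).Nodup :=
  (flag_nodup ha).map_on fun ρ h1 τ h2 => vv_inj (ha.2 ρ h1).1 (ha.2 τ h2).1

theorem rd_up (h : Ok (DX X) tt (g, η)) : ∃ a y, RdUp X a y g η := by
  obtain ⟨h1, h2, h3⟩ := h
  obtain ⟨h4, h5, h6, -⟩ := top_spec (DX_down _ h2 _ h1) h3
  obtain ⟨l, J, hA, rfl⟩ := mem_DX.1 h2
  obtain ⟨a, h7, e⟩ := exists_flag (X := X) (l := l.filter (top X g ⊂ ·)) (σ := Set.univ)
    ((Finset.filter_subset _ _).trans hA.1)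
    (hA.2.1.mono (Finset.coe_subset.2 (Finset.filter_subset _ _))) fun _ _ => Set.subset_univ _
  refine ⟨a, _, h7, h4, h1, h2, h5, h6, fun ρ hρ => ?_⟩
  rw [vv_mem_fc hA.1 hρ, ← List.mem_toFinset, e, Finset.mem_filter]

theorem RdUp.sd (h : RdUp X a y g η) : (a.map (vv X)).toFinset ⊆ η \ g := by
  intro v hv
  obtain ⟨ρ, hρ, rfl⟩ := List.mem_map.1 (List.mem_toFinset.1 hv)
  have h1 := (h.fl.2 ρ hρ).1
  have h2 := (h.up ρ h1).2 hρ
  exact Finset.mem_sdiff.2 ⟨h2.1, fun e => h2.2.2 (h.tp ρ h1 e)⟩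

theorem RdUp.val (h : RdUp X a y g η) (hr : RS X r) (u : Om (Nn n)) :
    r (Finsupp.single (g, η) u) = if η \ g ⊆ (a.map (vv X)).toFinset then
      Finsupp.single (a ++ [y]) (sc (cs (a.map (vv X)) u)) else 0 := by
  split_ifs with e
  · obtain ⟨l, J, hA, rfl⟩ := mem_DX.1 h.mem
    obtain ⟨l', h1, K, h2, rfl⟩ := exists_of_subset_fc h.sub
    have h3 := h1.trans hA.1
    obtain ⟨b, h4, rfl⟩ := exists_flag (σ := y) h3 (hA.2.1.mono (Finset.coe_subset.2 h1))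
      fun ρ hρ => h.tp ρ (h3 hρ) ((vv_mem_fc h3 (h3 hρ)).2 hρ)
    have h5 := List.mem_toFinset.1 ((vv_mem_fc h3 h.cy).1 h.yg)
    obtain ⟨y', b, rfl⟩ := List.exists_cons_of_ne_nil (List.ne_nil_of_mem h5)
    obtain rfl : y' = y := (h4.2 y' List.mem_cons_self).2.antisymm ((rd_head h4).2 y h5).2
    obtain rfl : K = J := h2.antisymm fun d hd => by
      by_contra h6
      obtain ⟨ρ, -, e'⟩ := List.mem_map.1 (List.mem_toFinset.1
        (e (Finset.mem_sdiff.2 ⟨rr_mem_fc.2 hd, fun e' => h6 (rr_mem_fc.1 e')⟩)))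
      exact vv_ne_rr _ _ e'
    obtain rfl : l = (a ++ y' :: b).toFinset := by
      ext ρ
      rw [List.toFinset_append, Finset.mem_union]
      refine ⟨fun hρ => or_iff_not_imp_right.2 fun h6 => ?_, fun hρ => hρ.elim (fun hρ => ?_) (@h1 ρ)⟩
      · exact List.mem_toFinset.2 ((rd_mem h.fl (hA.1 hρ)).1 (e (Finset.mem_sdiff.2
          ⟨(vv_mem_fc hA.1 (hA.1 hρ)).2 hρ, fun e' => h6 ((vv_mem_fc h3 (hA.1 hρ)).1 e')⟩)))
      · have h6 := rd_cells h.fl hρ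
        exact (vv_mem_fc hA.1 h6).1 ((h.up ρ h6).2 (List.mem_toFinset.1 hρ)).1
    refine hr.pos a b y' Set.univ K u ⟨List.pairwise_append.2 ⟨h.fl.1, h4.1, fun ρ hρ τ hτ => ?_⟩,
      fun ρ hρ => ⟨hA.1 (List.mem_toFinset.2 hρ), Set.subset_univ _⟩⟩
    exact (h4.2 τ hτ).2.trans_ssubset ((h.up ρ (h.fl.2 ρ hρ).1).2 hρ).2
  · refine hr.neg _ u fun ⟨a', b, y', σ, K, hF, e'⟩ => e fun v hv => ?_
    obtain ⟨rfl, rfl⟩ := Prod.mk.inj e'
    have s1 := FG.flag_sub hF (List.sublist_append_right a' _)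
    obtain ⟨h1, h2⟩ := Finset.mem_sdiff.1 hv
    rcases mem_fc.1 h1 with ⟨ρ, hρ, rfl⟩ | ⟨d, hd, rfl⟩
    · have h3 := rd_cells hF hρ
      rw [vv_mem_fc (rd_cells s1) h3] at h2
      rw [List.toFinset_append, Finset.mem_union, or_iff_left h2, List.mem_toFinset] at hρ
      have h4 := List.mem_toFinset.1 ((vv_mem_fc (rd_cells s1) h.cy).1 h.yg)
      exact (rd_mem h.fl h3).2 ((h.up ρ h3).1 ⟨h1, (List.pairwise_append.1 hF.1).2.2 ρ hρ y h4⟩)
    · exact absurd (rr_mem_fc.2 hd) h2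

theorem rd_cmp {τ : Set (Pt n)} (h : η ∈ DX X) (hρ : ρ ∈ X.cells) (hτ : τ ∈ X.cells)
    (h1 : vv X ρ ∈ η) (h2 : vv X τ ∈ η) (e : ¬ρ ⊆ τ) : τ ⊂ ρ := by
  obtain ⟨l, J, hA, rfl⟩ := mem_DX.1 h
  exact ⟨(hA.2.1.total ((vv_mem_fc hA.1 hρ).1 h1) ((vv_mem_fc hA.1 hτ).1 h2)).resolve_left e, e⟩

theorem RdUp.low (h : RdUp X a y g η) (hr : RS X r) (hx : x ∈ η \ g)
    (hx' : x ∉ (a.map (vv X)).toFinset) (u : Om (Nn n)) :
    r (Finsupp.single (g, η.erase x) u) = r (Finsupp.single (insert x g, η) u) := by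
  obtain ⟨h1, h2⟩ := Finset.mem_sdiff.1 hx
  have e1 : RdUp X a y g (η.erase x) := ⟨h.fl, h.cy, cb_sub h.sub h2,
    DX_down _ h.mem _ (Finset.erase_subset _ _), h.yg, h.tp, fun ρ hρ =>
      ⟨fun e => (h.up ρ hρ).1 ⟨Finset.mem_of_mem_erase e.1, e.2⟩, fun e =>
        ⟨Finset.mem_erase.2 ⟨fun e' => hx' (e' ▸ (rd_mem h.fl hρ).2 e), ((h.up ρ hρ).2 e).1⟩,
          ((h.up ρ hρ).2 e).2⟩⟩⟩
  have e2 : RdUp X a y (insert x g) η := ⟨h.fl, h.cy, Finset.insert_subset h1 h.sub, h.mem,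
    Finset.mem_insert_of_mem h.yg, fun ρ hρ e => (Finset.mem_insert.1 e).elim (fun e' => by
      subst e'
      by_contra h3
      exact hx' ((rd_mem h.fl hρ).2 ((h.up ρ hρ).1 ⟨h1, rd_cmp h.mem hρ h.cy h1 (h.sub h.yg) h3⟩)))
      (h.tp ρ hρ), h.up⟩
  rw [e1.val hr, e2.val hr, cb_e1, cb_e2]

theorem RdUp.hi (h : RdUp X (a1 ++ ρ :: a2) y g η) (hr : RS X r) (u : Om (Nn n)) :
    r (Finsupp.single (g, η.erase (vv X ρ)) u) - r (Finsupp.single (insert (vv X ρ) g, η) u) =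
      if η \ g ⊆ ((a1 ++ ρ :: a2).map (vv X)).toFinset then
        Finsupp.single (a1 ++ a2 ++ [y]) (sc (cs ((a1 ++ a2).map (vv X)) u)) -
          if a2 = [] then Finsupp.single (a1 ++ [ρ]) (sc (cs (a1.map (vv X)) u)) else 0
      else 0 := by
  have m0 : ρ ∈ a1 ++ ρ :: a2 := by simp
  have h0 := (h.fl.2 ρ m0).1
  obtain ⟨h1, h2⟩ := (h.up ρ h0).2 m0
  obtain ⟨-, p2, p3⟩ := List.pairwise_append.1 h.fl.1
  have p4 : ∀ τ ∈ a1, ρ ⊂ τ := fun τ hτ => p3 τ hτ ρ List.mem_cons_self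
  have p5 : ∀ τ ∈ a2, τ ⊂ ρ := (List.pairwise_cons.1 p2).1
  have s1 := FG.flag_sub h.fl ((List.sublist_cons_self ρ a2).append_left a1)
  have s2 := FG.flag_sub h.fl (List.sublist_append_left a1 _)
  have e1 : RdUp X (a1 ++ a2) y g (η.erase (vv X ρ)) := by
    refine ⟨s1, h.cy, cb_sub h.sub fun e => h2.2 (h.tp ρ h0 e),
      DX_down _ h.mem _ (Finset.erase_subset _ _), h.yg, h.tp, fun τ hτ => ?_⟩
    rw [Finset.mem_erase, and_assoc, h.up τ hτ, List.mem_append, List.mem_append, List.mem_cons]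
    refine ⟨fun e => e.2.imp_right fun e' => e'.resolve_left fun e' => e.1 (e' ▸ rfl),
      fun e => ⟨fun e' => ?_, e.imp_right Or.inr⟩⟩
    rw [vv_inj hτ h0 e'] at e
    exact e.elim (fun e => (p4 ρ e).ne rfl) fun e => (p5 ρ e).ne rfl
  have e2 : RdUp X a1 ρ (insert (vv X ρ) g) η := by
    refine ⟨s2, h0, Finset.insert_subset h1 h.sub, h.mem, Finset.mem_insert_self _ _,
      fun τ hτ e => (Finset.mem_insert.1 e).elim (fun e' => (vv_inj hτ h0 e').le)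
        fun e' => (h.tp τ hτ e').trans h2.1, fun τ hτ => ⟨fun e => ?_, fun e =>
          ⟨((h.up τ hτ).2 (List.mem_append_left _ e)).1, p4 τ e⟩⟩⟩
    refine (List.mem_append.1 ((h.up τ hτ).1 ⟨e.1, h2.trans e.2⟩)).resolve_right fun e' => ?_
    exact (List.mem_cons.1 e').elim (fun e' => e.2.ne e'.symm) fun e' => e.2.2 (p5 τ e').1
  have c1 : (η \ g).erase (vv X ρ) ⊆ ((a1 ++ a2).map (vv X)).toFinset ↔
      η \ g ⊆ ((a1 ++ ρ :: a2).map (vv X)).toFinset := by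
    rw [← Finset.subset_insert_iff, List.map_append, List.map_append, List.map_cons,
      List.toFinset_append, List.toFinset_append, List.toFinset_cons, Finset.union_insert]
  rw [e1.val hr, e2.val hr, cb_e1, cb_e2]
  rcases a2 with _ | ⟨τ, a2⟩
  · rw [List.append_nil] at c1
    rw [List.append_nil, if_pos rfl]
    simp only [c1]
    split_ifs
    · rfl
    · exact sub_self _
  · have m1 : τ ∈ a1 ++ ρ :: τ :: a2 := by simp
    have h3 := (h.fl.2 τ m1).1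
    have h4 := p5 τ List.mem_cons_self
    rw [if_neg (List.cons_ne_nil _ _), sub_zero, if_neg (t := Finsupp.single (a1 ++ [ρ]) _), sub_zero]
    · simp only [c1]
    · exact fun e => (p4 τ ((rd_mem s2 h3).1 (e (Finset.mem_erase.2
        ⟨fun e' => h4.ne (vv_inj h3 h0 e'), h.sd ((rd_mem h.fl h3).2 m1)⟩)))).2 h4.1

theorem RdUp.flag (h : RdUp X a y g η) : top X η ∈ X.cells ∧ X.Flag (a ++ [y]) (top X η) ∧
    ∀ d, rr d ∈ η → d ∈ X.ray (top X η) := by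
  obtain ⟨h1, -, h2, h3⟩ := top_spec h.mem ⟨vv X y, Finset.mem_filter.2 ⟨h.sub h.yg, rfl⟩⟩
  refine ⟨h1, ⟨List.pairwise_append.2 ⟨h.fl.1, List.pairwise_singleton _ _, fun ρ hρ τ hτ => ?_⟩,
    fun ρ hρ => ?_⟩, h3⟩
  · rw [List.mem_singleton.1 hτ]
    exact ((h.up ρ (h.fl.2 ρ hρ).1).2 hρ).2
  · rcases List.mem_append.1 hρ with e | e
    · have := (h.fl.2 ρ e).1
      exact ⟨this, h2 ρ this ((h.up ρ this).2 e).1⟩
    · rw [List.mem_singleton.1 e]
      exact ⟨h.cy, h2 y h.cy (h.sub h.yg)⟩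

end up

theorem rd_sgn (i : ℕ) (l : List (Set (Pt n))) (b : Ex (Nn n)) :
    (Finsupp.single l ((-1 : ℝ) ^ i • b) : Fc n) = (-1 : ℚ) ^ i • Finsupp.single l b := by
  rcases Nat.even_or_odd i with e | e
  · rw [e.neg_one_pow, e.neg_one_pow, one_smul, one_smul]
  · rw [e.neg_one_pow, e.neg_one_pow, neg_one_smul, neg_one_smul, Finsupp.single_neg]

/-- `r` commutes with the boundary, up to the empty list. -/
theorem RS.bd_single (hr : RS X r) {i : Ix (Nn n)} (hi : Ok (DX X) tt i) (w : Om (Nn n)) :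
    ∃ b, r (bd (Finsupp.single i w)) - H5T.bd (r (Finsupp.single i w)) =
      Finsupp.single [] b := by
  obtain ⟨g, η⟩ := i
  obtain ⟨a, y, h⟩ := rd_up hi
  have e0 : r (bd (Finsupp.single (g, η) w)) = ∑ i : Fin a.length,
      (r (Finsupp.single (g, η.erase (vv X a[i])) (cx (vv X a[i]) w)) -
        r (Finsupp.single (insert (vv X a[i]) g, η) (cx (vv X a[i]) w))) := by
    rw [K2.bd_single, map_sum, ← Finset.sum_subset h.sd fun x hx hx' => by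
      rw [map_sub, h.low hr hx hx', sub_self], List.sum_toFinset _ (rd_nodup h.fl), List.map_map,
      ← Fin.sum_univ_fun_getElem]
    exact Finset.sum_congr rfl fun i _ => map_sub r _ _
  have e1 : ∀ i : Fin a.length, a.take i ++ a[i] :: a.drop (i + 1) = a := fun i => by
    rw [Fin.getElem_fin, List.getElem_cons_drop, List.take_append_drop]
  have e2 := fun i : Fin a.length => RdUp.hi ((e1 i).symm ▸ h) hr (cx (vv X a[i]) w)
  rw [e0, Finset.sum_congr rfl fun i _ => e2 i, h.val hr]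
  simp only [e1]
  split_ifs with e
  swap
  · exact ⟨0, by simp⟩
  have e3 : ∀ i : Fin a.length, sc (cs ((a.eraseIdx i).map (vv X)) (cx (vv X a[i]) w)) =
      (-1 : ℝ) ^ (i : ℕ) • sc (cs (a.map (vv X)) w) := fun i => by
    rw [← map_smul, ← cs_cx _ i (by simp), List.eraseIdx_map, List.getElem_map]
    rfl
  generalize sc (cs (a.map (vv X)) w) = β at e3
  rw [H5T.bd_single, List.length_append, List.length_singleton, Finset.sum_range_succ,
    Finset.sum_range, Finset.sum_sub_distrib]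
  have e4 : ∀ i : Fin a.length, (Finsupp.single (a.take i ++ a.drop (i + 1) ++ [y])
      (sc (cs ((a.take i ++ a.drop (i + 1)).map (vv X)) (cx (vv X a[i]) w))) : Fc n) =
      (-1 : ℚ) ^ (i : ℕ) • Finsupp.single ((a ++ [y]).eraseIdx i) β := fun i => by
    rw [← List.eraseIdx_eq_take_drop_succ, e3, rd_sgn, List.eraseIdx_append_of_lt_length i.2]
  rw [Finset.sum_congr rfl fun i _ => e4 i, sub_sub, add_left_comm, sub_add_cancel_left,
    List.eraseIdx_append_of_length_le le_rfl, Nat.sub_self, List.eraseIdx_zero, List.tail_cons,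
    List.append_nil]
  rcases Nat.eq_zero_or_pos a.length with e5 | e5
  · obtain rfl := List.length_eq_zero_iff.1 e5
    exact ⟨-β, by simp⟩
  · refine ⟨0, ?_⟩
    obtain ⟨k, hk⟩ : ∃ k, a.length = k + 1 := ⟨a.length - 1, by omega⟩
    have e6 : a.drop (k + 1) = [] := List.drop_eq_nil_iff.2 hk.le
    have e7 := e1 ⟨k, by omega⟩
    have e8 := e3 ⟨k, by omega⟩
    rw [List.eraseIdx_eq_take_drop_succ, e6, List.append_nil] at e8
    rw [e6] at e7
    rw [Finset.sum_eq_single ⟨k, by omega⟩ (fun i _ e9 => if_neg fun e' => e9 (Fin.ext (by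
      have := List.drop_eq_nil_iff.1 e'
      have := i.2
      change (i : ℕ) = k
      omega))) (fun e9 => absurd (Finset.mem_univ _) e9), if_pos e6, e7, e8, rd_sgn,
      show (-1 : ℚ) ^ a.length = (-1) ^ k * -1 by rw [hk, pow_succ], mul_neg_one, neg_smul, add_neg_cancel, neg_zero, Finsupp.single_zero]

theorem rd_Pw {G : Ix (Nn n) → Submodule ℝ (Om (Nn n))} (f : Kc (Nn n) →+ Fc n)
    {S : Submodule ℚ (Fc n)} (h : ∀ i, ∀ a ∈ G i, f (Finsupp.single i a) ∈ S) {z : Kc (Nn n)}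
    (hz : z ∈ Pw G) : f z ∈ S := by
  rw [← Finsupp.sum_single z, Finsupp.sum, map_sum]
  exact S.sum_mem fun i _ => h i _ (mem_Pw.1 hz i)

theorem RS.map_ZK (hr : RS X r) {z : Kc (Nn n)} (hz : z ∈ ZK (DX X) tt) : r z ∈ FZ X := by
  refine rd_Pw r.toAddMonoidHom (fun ⟨g, η⟩ w hw => ?_) hz
  rcases cb_ite hw with rfl | ⟨o, hw⟩
  · simp
  obtain ⟨a, y, h⟩ := rd_up o
  obtain ⟨h1, h2, h3⟩ := h.flag
  rw [LinearMap.toAddMonoidHom_coe, h.val hr]
  split_ifs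
  · refine single_mem_Ch ?_
    rw [if_neg (by simp)]
    refine FG.mem_iSup_of h1 h2 (JE_mono (fun v hv => ?_) (sc_Jd (cs_Jd _ hw)))
    obtain ⟨h4, h5⟩ := Finset.mem_filter.1 hv
    obtain ⟨l, J, -, e⟩ := mem_DX.1 h.mem
    rcases mem_fc.1 (e ▸ h.sub h4) with ⟨ρ, -, rfl⟩ | ⟨d, -, rfl⟩
    · exact absurd rfl h5
    · exact Finset.mem_image_of_mem _ (h3 d (h.sub h4))
  · exact Submodule.zero_mem _

theorem RS.map_KC (hr : RS X r) (hg : GCo X) {z : Kc (Nn n)} (hz : z ∈ KC (DX X) tt p q) :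
    r z ∈ FC X p q ⊔ FZ X := by
  refine rd_msup r.toAddMonoidHom (fun z hz => Submodule.mem_sup_left ?_)
    (fun _ e => Submodule.mem_sup_right (hr.map_ZK e)) hz
  refine rd_Pw (G := fun i => (if Ok (DX X) tt i ∧ (i.2 \ i.1).card = q then
    Co (DX X) i.2 (i.2 \ i.1) p else ⊥) ⊓ LinearMap.ker (kx tt)) r.toAddMonoidHom
    (fun ⟨g, η⟩ w hw => ?_) (mem_Pw.2 fun i => ⟨mem_Pw.1 hz.1 i, ?_⟩)
  · rcases cb_ite hw.1 with rfl | ⟨o, h0⟩
    · simp
    obtain ⟨a, y, h⟩ := rd_up o.1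
    obtain ⟨h1, h2, -⟩ := h.flag
    obtain ⟨b, hb, rfl⟩ := mem_Co.1 h0
    have h3 : ct tt b = 0 := by
      have e := LinearMap.mem_ker.1 hw.2
      rw [kx_eps_mul, kx_emb, smul_eq_zero, or_iff_right (by simp)] at e
      simpa [JE] using eps_mul_Jd (γ := ∅) (e ▸ Submodule.zero_mem _)
    have h4 : b ∈ GR X p (top X η) :=
      hg η h.mem ⟨vv X y, Finset.mem_filter.2 ⟨h.sub h.yg, rfl⟩⟩ p ▸ ⟨hb, h3⟩
    rw [LinearMap.toAddMonoidHom_coe, h.val hr]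
    split_ifs with e
    · obtain ⟨s, -, hs⟩ := sc_cs_eps (rd_nodup h.fl)
      have e' := e.antisymm h.sd
      have e2 := o.2
      dsimp only at e2 ⊢
      rw [e', List.toFinset_card_of_nodup (rd_nodup h.fl), List.length_map] at e2
      rw [e', hs]
      exact single_mem_Ch (FG.mem_iSup_of h1 ⟨h2, by simp [e2]⟩ (Submodule.smul_mem (GR X p _) s h4))
    · exact Submodule.zero_mem _
  · have := DFunLike.congr_fun (LinearMap.mem_ker.1 hz.2) i
    rwa [K2.co_apply] at this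

theorem RS.map_KA (hr : RS X r) (hφ : ∀ ρ ∈ φ, ρ ∈ X.cells) {z : Kc (Nn n)}
    (hz : z ∈ KA (fc X φ.toFinset ∅)) : r z ∈ FA φ := by
  refine rd_Pw r.toAddMonoidHom (fun i w hw => ?_) hz
  split_ifs at hw with e
  · rw [(Submodule.mem_bot ℝ).1 hw]
    simp
  rw [LinearMap.toAddMonoidHom_coe]
  by_cases c : ∃ (a b : List (Set (Pt n))) (y σ : Set (Pt n)) (K : Finset (Fin n → ℚ)),
      X.Flag (a ++ y :: b) σ ∧ i = (fc X (y :: b).toFinset K, fc X (a ++ y :: b).toFinset K)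
  · obtain ⟨a, b, y, σ, K, hF, rfl⟩ := c
    rw [hr.pos a b y σ K w hF]
    refine Finsupp.single_mem_supported ℚ _ fun e' => e ((fc_subset
      (fun ρ hρ => hφ ρ (List.mem_toFinset.1 hρ)) (rd_cells hF)).2 ⟨fun ρ hρ => ?_, by simp⟩)
    have := e' (List.mem_toFinset.1 hρ)
    simp only [List.mem_toFinset, List.mem_append, List.mem_cons] at this ⊢
    tauto
  · rw [hr.neg i w c]
    exact Submodule.zero_mem _

theorem RS.mor (hr : RS X r) (hP : Pre (DX X) tt) (hg : GCo X) (hφ : ∀ ρ ∈ φ, ρ ∈ X.cells)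
    (p : ℕ) : Mor (cxKA hP (fc X φ.toFinset ∅) p) (cxF1 X p φ) r.toAddMonoidHom := by
  refine ⟨fun q x hx => rd_msup _ (fun _ e => (sup_le_sup_left le_sup_left _ :
      FC X p q ⊔ FZ X ≤ FC X p q ⊔ (FZ X ⊔ FA φ)) (hr.map_KC hg e))
      (fun _ e => Submodule.mem_sup_right (Submodule.mem_sup_right (hr.map_KA hφ e))) hx,
    fun x hx => rd_msup _ (fun _ e => Submodule.mem_sup_left (hr.map_ZK e))
      (fun _ e => Submodule.mem_sup_right (hr.map_KA hφ e)) hx, fun q => ⟨1, fun x hx => ?_⟩⟩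
  rw [one_smul]
  refine rd_msup (r.toAddMonoidHom.comp bd.toAddMonoidHom -
    H5T.bd.toAddMonoidHom.comp r.toAddMonoidHom) (fun z hz => Submodule.mem_sup_left ?_)
    (fun z hz => Submodule.mem_sup_right
      (sub_mem (hr.map_KA hφ (bd_KA hz)) (bd_FA (hr.map_KA hφ hz)))) hx
  refine rd_Pw (G := fun i => if Ok (DX X) tt i then ⊤ else ⊥) _ (fun i w hw => ?_)
    ((sup_le (inf_le_left.trans (cb_le fun _ _ hw => (cb_ite hw).imp_right fun o =>
      cb_ite' o.1.1 trivial)) (cb_le fun _ _ hw => (cb_ite hw).imp_right fun o =>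
        cb_ite' o.1 trivial) : KC (DX X) tt p q ≤ Pw fun i => if Ok (DX X) tt i then ⊤ else ⊥) hz)
  rcases cb_ite hw with rfl | ⟨o, -⟩
  · simp
  obtain ⟨b, e⟩ := hr.bd_single o w
  change r (bd (Finsupp.single i w)) - H5T.bd (r (Finsupp.single i w)) ∈ FZ X
  rw [e]
  exact FG.single_nil_mem _ b

/-- The filtration of cubical chains by the number of vertices at height one of the top face. -/
def WK (X : TropCx n) (A : Finset (Nn n)) (k : ℕ) : Submodule ℝ (Kc (Nn n)) :=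
  (Pw fun i => if (fp tt i.2).card ≤ k then ⊤ else ⊥) ⊔ (ZK (DX X) tt ⊔ KA A)

/-- The filtration of chains on flags by the length. -/
def WF (X : TropCx n) (φ : List (Set (Pt n))) (k : ℕ) : Submodule ℚ (Fc n) :=
  Finsupp.supported _ ℚ {l | l.length ≤ k} ⊔ (FZ X ⊔ FA φ)

/-- Chains on the cubes at level `k` whose bottom face has all rays of the largest cell. -/
def KF (X : TropCx n) (p q k : ℕ) : Submodule ℝ (Kc (Nn n)) :=
  Pw fun i => if Ok (DX X) tt i ∧ (i.2 \ i.1).card = q ∧ (fp tt i.2).card = k ∧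
      ∀ ρ ∈ X.ray (top X i.2), rr ρ ∈ i.1 then
    Co (DX X) i.2 (i.2 \ i.1) p ⊓ LinearMap.ker (kx tt) else ⊥

end K2
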