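import Pool.Agent.Lib.MP_e9c0f3_ag.K2.RDef
import Pool.Agent.Lib.MP_e9c0f3_ag.K2.KLoc

/-! The cubical subdivision of a simplex relative to its boundary. -/

open ExteriorAlgebra H5T Matrix KH
open scoped Classical

noncomputable section

namespace K2

variable {n : ℕ} {X : TropCx n} {r : Kc (Nn n) →ₗ[ℝ] Fc n} {φ : List (Set (Pt n))} {p q k : ℕ}

section Aux

variable {A γ η : Finset (Nn n)} {a L : List (Set (Pt n))} {y σ : Set (Pt n)}
  {J K : Finset (Fin n → ℚ)} {w : Om (Nn n)}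

theorem rf_WK : WK X A k = Pw fun i => if k < (fp tt i.2).card ∧ A ⊆ i.2 then
    (if Ok (DX X) tt i then Jd (ip tt i.1) else ⊥) else ⊤ := by
  rw [WK, ZK, KA, ← Pw_sup, ← Pw_sup]
  refine congrArg Pw (funext fun i => ?_)
  by_cases h1 : (fp tt i.2).card ≤ k
  · simp [h1, not_lt.2 h1]
  · by_cases h2 : A ⊆ i.2 <;> simp [h1, h2, not_le.1 h1]

theorem rf_low (h : (fp tt η).card ≤ k) (γ : Finset (Nn n)) (w : Om (Nn n)) :
    Finsupp.single (γ, η) w ∈ WK X A k :=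
  Submodule.mem_sup_left (single_mem_Pw (by rw [if_pos h]; trivial))

theorem rf_erase {v : Nn n} (hv : v ∈ η) (h1 : tt v = 1) (h : (fp tt η).card = k + 1) :
    (fp tt (η.erase v)).card ≤ k := by
  rw [fp, Finset.filter_erase, Finset.card_erase_of_mem (Finset.mem_filter.2 ⟨hv, h1⟩)]
  exact Nat.sub_le_of_le_add h.le

/-- The vertex of the smallest cell of a face. -/
def rfY (X : TropCx n) (η : Finset (Nn n)) : Nn n := vv X (⋂₀ {σ | σ ∈ X.cells ∧ vv X σ ∈ η})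

theorem rf_cells (hL : X.Flag L σ) : L.toFinset ⊆ X.cells :=
  fun ρ h => (hL.2 ρ (List.mem_toFinset.1 h)).1

theorem rf_last (hL : X.Flag (a ++ [y]) σ) {ρ : Set (Pt n)} (h : ρ ∈ a) : y ⊂ ρ :=
  (List.pairwise_append.1 hL.1).2.2 ρ h y (by simp)

theorem rf_Y (hL : X.Flag (a ++ [y]) σ) : rfY X (fc X (a ++ [y]).toFinset J) = vv X y := by
  have h := (hL.2 y (by simp)).1
  refine congrArg _ (Set.Subset.antisymm
    (Set.sInter_subset_of_mem (And.intro h ((vv_mem_fc (rf_cells hL) h).2 (by simp))))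
    (Set.subset_sInter fun ρ hρ => ?_))
  rcases List.mem_append.1 (List.mem_toFinset.1 ((vv_mem_fc (rf_cells hL) hρ.1).1 hρ.2)) with k | k
  · exact (rf_last hL k).1
  · rw [List.mem_singleton.1 k]

theorem rf_face (hη : η ∈ DX X) (h0 : (fp tt η).Nonempty) :
    ∃ a y σ J, X.Flag (a ++ [y]) σ ∧ η = fc X (a ++ [y]).toFinset J := by
  obtain ⟨l, J, ⟨l1, l2, σ, -, l3, -⟩, rfl⟩ := mem_DX.1 hη
  obtain ⟨L, hL, rfl⟩ := exists_flag l1 l2 l3
  rcases L.eq_nil_or_concat' with rfl | ⟨a, y, rfl⟩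
  · rw [fp_fc] at h0
    simp [fc] at h0
  · exact ⟨a, y, σ, J, hL, rfl⟩

theorem rf_Y_mem (hη : η ∈ DX X) (h0 : (fp tt η).Nonempty) : rfY X η ∈ η := by
  obtain ⟨a, y, σ, J, hL, rfl⟩ := rf_face hη h0
  rw [rf_Y hL]
  exact mem_fc.2 (Or.inl ⟨y, by simp, rfl⟩)

theorem rf_card (hL : X.Flag L σ) : (fp tt (fc X L.toFinset J)).card = L.length := by
  rw [fp_fc, card_fc (rf_cells hL), List.toFinset_card_of_nodup (flag_nodup hL)]
  rfl

theorem rf_top (hL : X.Flag (σ :: L) σ) : top X (fc X (σ :: L).toFinset J) = σ :=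
  top_fc (rf_cells hL) (by simp) fun ρ h => (hL.2 ρ (List.mem_toFinset.1 h)).2

theorem rf_top_fp (η : Finset (Nn n)) : top X (fp tt η) = top X η := by simp [top, fp]

theorem rf_nodup (hL : X.Flag L σ) : (L.map (vv X)).Nodup :=
  (flag_nodup hL).map_on fun x hx y hy => vv_inj (hL.2 x hx).1 (hL.2 y hy).1

theorem rf_sdiff (hL : X.Flag (a ++ [y]) σ) :
    fc X (a ++ [y]).toFinset J \ fc X [y].toFinset J = (a.map (vv X)).toFinset := by
  rw [fc_sdiff (rf_cells hL) fun ρ h => rf_cells hL (by simp at h; simp [h]), sdiff_self]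
  ext v
  simp only [mem_fc, Finset.mem_sdiff, List.mem_toFinset, List.mem_append, List.mem_singleton,
    List.mem_map, Finset.bot_eq_empty, Finset.notMem_empty, false_and, exists_false, or_false]
  exact ⟨fun ⟨ρ, h, e⟩ => ⟨ρ, h.1.resolve_right h.2, e.symm⟩,
    fun ⟨ρ, h, e⟩ => ⟨ρ, ⟨Or.inl h, (rf_last hL h).ne'⟩, e.symm⟩⟩

/-- The cubes whose bottom face has all rays of the largest cell. -/
def rfC (X : TropCx n) (q k : ℕ) (i : Ix (Nn n)) : Prop :=
  Ok (DX X) tt i ∧ (i.2 \ i.1).card = q ∧ (fp tt i.2).card = k ∧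
    ∀ ρ ∈ X.ray (top X i.2), rr ρ ∈ i.1

theorem rfC.ne (h : rfC X q k (γ, η)) : (fp tt η).Nonempty :=
  h.1.2.2.mono (Finset.filter_subset_filter _ h.1.1)

theorem rfC.rr_mem (h : rfC X q k (γ, η)) {ρ : Fin n → ℚ} (hρ : rr ρ ∈ η) : rr ρ ∈ γ :=
  h.2.2.2 ρ ((top_spec h.1.2.1 h.ne).2.2.2 ρ hρ)

theorem rfC.fin (h : rfC X q k (γ, η)) {v : Nn n} (hv : v ∈ η \ γ) : tt v = 1 := by
  obtain ⟨h1, h2⟩ := Finset.mem_sdiff.1 hv
  obtain ⟨l, J, -, (rfl : η = _)⟩ := mem_DX.1 h.1.2.1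
  rcases mem_fc.1 h1 with ⟨ρ, -, rfl⟩ | ⟨ρ, -, rfl⟩
  exacts [rfl, absurd (h.rr_mem h1) h2]

theorem rfC.ray {l : Finset (Set (Pt n))} (h : rfC X q k (γ, fc X l J)) :
    J = X.ray (top X (fc X l ∅)) := by
  rw [← fp_fc (J := J), rf_top_fp]
  exact Finset.Subset.antisymm (fun ρ k => (top_spec h.1.2.1 h.ne).2.2.2 ρ (rr_mem_fc.2 k))
    fun ρ k => rr_mem_fc.1 (h.1.1 (h.2.2.2 ρ k))

theorem rfC.bot (h : rfC X q k (γ, fc X (a ++ [y]).toFinset J))
    (h1 : fp tt γ ⊆ {vv X y}) : γ = fc X [y].toFinset J := by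
  ext v
  simp only [mem_fc, List.mem_toFinset, List.mem_singleton, exists_eq_left]
  constructor
  · intro hv
    rcases mem_fc.1 (h.1.1 hv) with ⟨ρ, -, rfl⟩ | k
    exacts [Or.inl (Finset.mem_singleton.1 (h1 (kl_fp.2 ⟨hv, rfl⟩))), Or.inr k]
  · rintro (rfl | ⟨ρ, k, rfl⟩)
    · obtain ⟨u, hu⟩ := h.1.2.2
      exact Finset.mem_singleton.1 (h1 hu) ▸ (kl_fp.1 hu).1
    · exact h.rr_mem (rr_mem_fc.2 k)

theorem rf_KF {x : Kc (Nn n)} : x ∈ KF X p q k ↔ ∀ i, x i ∈ if rfC X q k i then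
    Co (DX X) i.2 (i.2 \ i.1) p ⊓ LinearMap.ker (kx tt) else ⊥ := by
  rw [KF, mem_Pw]
  refine forall_congr' fun i => ?_
  unfold rfC
  congr!

theorem rf_apply (hr : RS X r) (hL : X.Flag (a ++ [y]) σ) {x : Kc (Nn n)}
    (hx : x ∈ KF X p q (a.length + 1))
    (hJ : J = X.ray (top X (fc X (a ++ [y]).toFinset ∅))) :
    r x (a ++ [y]) =
      sc (cs (a.map (vv X)) (x (fc X [y].toFinset J, fc X (a ++ [y]).toFinset J))) := by
  rw [← sub_eq_zero]
  refine (Submodule.mem_bot ℝ).1 (map_mem_of_Pw (Finsupp.lapply (a ++ [y]) ∘ₗ r -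
    sc.toLinearMap ∘ₗ cs (a.map (vv X)) ∘ₗ
      Finsupp.lapply (fc X [y].toFinset J, fc X (a ++ [y]).toFinset J)) (fun i w hw => ?_) hx)
  change r (Finsupp.single i w) (a ++ [y]) - sc (cs _ (Finsupp.single i w _)) ∈ _
  rw [Submodule.mem_bot, sub_eq_zero]
  by_cases e : i = (fc X [y].toFinset J, fc X (a ++ [y]).toFinset J)
  · rw [e, hr.pos a [] y σ J w hL, Finsupp.single_eq_same, Finsupp.single_eq_same]
  rw [Finsupp.single_eq_of_ne' e, map_zero, map_zero]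
  split_ifs at hw with hc
  swap
  · rw [(Submodule.mem_bot ℝ).1 hw, Finsupp.single_zero, map_zero, Finsupp.zero_apply]
  by_cases h : ∃ (a b : List (Set (Pt n))) (y σ : Set (Pt n)) (K : Finset (Fin n → ℚ)),
      X.Flag (a ++ y :: b) σ ∧ i = (fc X (y :: b).toFinset K, fc X (a ++ y :: b).toFinset K)
  swap
  · rw [hr.neg i w h, Finsupp.zero_apply]
  obtain ⟨a', b, y', σ', K, h1, rfl⟩ := h
  rw [hr.pos a' b y' σ' K w h1]
  refine Finsupp.single_eq_of_ne' fun h2 => e ?_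
  obtain ⟨rfl, h3⟩ := List.append_inj' h2 rfl
  obtain rfl : y' = y := by simpa using h3
  have h4 := hc.2.2.1
  rw [rf_card h1, List.length_append, List.length_cons] at h4
  obtain rfl : b = [] := List.length_eq_zero_iff.1 (by omega)
  rw [hJ, ← rfC.ray hc]

/-- The contraction in the direction of the smallest cell. -/
def rfH (X : TropCx n) : Kc (Nn n) →ₗ[ℝ] Kc (Nn n) :=
  Finsupp.lsum ℝ fun i => klH (rfY X i.2) ∘ₗ Finsupp.lsingle i

theorem rfH_single (γ η : Finset (Nn n)) (w : Om (Nn n)) :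
    rfH X (Finsupp.single (γ, η) w) = klH (rfY X η) (Finsupp.single (γ, η) w) := by
  rw [rfH, Finsupp.lsum_single]
  rfl

theorem rf_klH_low (h : (fp tt η).card ≤ k) (v : Nn n) (γ : Finset (Nn n)) (w : Om (Nn n)) :
    klH v (Finsupp.single (γ, η) w) ∈ WK X A k := by
  rw [klH_single]
  split_ifs
  exacts [neg_mem (rf_low h _ _), zero_mem _]

theorem rf_ok {v : Nn n} (h : Ok (DX X) tt (γ, η)) (h1 : ¬fp tt γ ⊆ {v}) :
    Ok (DX X) tt (γ.erase v, η) := by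
  obtain ⟨u, b3, b4⟩ := Finset.not_subset.1 h1
  exact ⟨(γ.erase_subset v).trans h.1, h.2.1, u, kl_fp.2
    ⟨Finset.mem_erase.2 ⟨by simpa using b4, (kl_fp.1 b3).1⟩, (kl_fp.1 b3).2⟩⟩

theorem rf_htpy (h : rfC X q (k + 1) (γ, η)) (hw : w ∈ Co (DX X) η (η \ γ) p) :
    Finsupp.single (γ, η) w - bd (rfH X (Finsupp.single (γ, η) w)) -
      rfH X (bd (Finsupp.single (γ, η) w)) ∈ WK X A k := by
  have hy := rf_Y_mem h.1.2.1 h.ne
  have h1 := kl_htpy hy (γ := γ) (fun b1 => cx_Co_not (fun b2 => (Finset.mem_sdiff.1 b2).2 b1) hw)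
    fun b1 => ep_cx_Co (Finset.mem_sdiff.2 ⟨hy, b1⟩) hw
  have h2 : klH (rfY X η) (bd (Finsupp.single (γ, η) w)) -
      rfH X (bd (Finsupp.single (γ, η) w)) ∈ WK X A k := by
    rw [bd_single, map_sum, map_sum, ← Finset.sum_sub_distrib]
    refine Submodule.sum_mem _ fun v hv => ?_
    have := rf_erase (Finset.mem_sdiff.1 hv).1 (h.fin hv) h.2.2.1
    rw [map_sub, map_sub, rfH_single, rfH_single, sub_sub_sub_cancel_right]
    exact sub_mem (rf_klH_low this _ _ _) (rf_klH_low this _ _ _)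
  refine mem_of_eq (add_mem ?_ h2) (by rw [rfH_single, sub_add_sub_cancel])
  rw [h1]
  split_ifs
  exacts [rf_low (rf_erase hy rfl h.2.2.1) _ _, zero_mem _]

end Aux

theorem rq_fin (hr : RS X r) (hP : Pre (DX X) tt) (hφ : ∀ ρ ∈ φ, ρ ∈ X.cells) {x : Kc (Nn n)}
    (hx : x ∈ KF X p q (k + 1)) (hb : bd x ∈ WK X (fc X φ.toFinset ∅) k) (h0 : r x ∈ WF X φ k) :
    x ∈ (KF X p (q + 1) (k + 1)).map bd ⊔ WK X (fc X φ.toFinset ∅) k := by
  set x1 : Kc (Nn n) := x.filter fun i => ¬fp tt i.1 ⊆ {rfY X i.2} with hx1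
  have m1 : x1 ∈ Pw fun i : Ix (Nn n) => if rfC X q (k + 1) i ∧ ¬fp tt i.1 ⊆ {rfY X i.2} then
      Co (DX X) i.2 (i.2 \ i.1) p ⊓ LinearMap.ker (kx tt) else ⊥ := mem_Pw.2 fun i => by
    rw [hx1, Finsupp.filter_apply]
    have := kl_bot.1 (rf_KF.1 hx i)
    by_cases b1 : fp tt i.1 ⊆ {rfY X i.2}
    · rw [if_neg (not_not.2 b1)]; exact zero_mem _
    · rw [if_pos b1]
      exact kl_bot.2 ⟨this.1, fun b2 => this.2 fun b => b2 ⟨b, b1⟩⟩
  have h3 : x - x1 ∈ ZK (DX X) tt ⊔ KA (fc X φ.toFinset ∅) := by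
    rw [ZK, KA, ← Pw_sup]
    refine mem_Pw.2 fun ⟨γ, η⟩ => ?_
    rw [Finsupp.sub_apply, hx1, Finsupp.filter_apply]
    by_cases b1 : fp tt γ ⊆ {rfY X η}
    swap
    · rw [if_pos b1, sub_self]; exact zero_mem _
    rw [if_neg (not_not.2 b1), sub_zero]
    by_cases b2 : fc X φ.toFinset ∅ ⊆ η
    swap
    · exact Submodule.mem_sup_right (kl_top.2 fun b => absurd b b2)
    obtain ⟨b3, b4⟩ := kl_bot.1 (rf_KF.1 hx (γ, η))
    by_cases b5 : rfC X q (k + 1) (γ, η)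
    swap
    · rw [b4 b5]; exact zero_mem _
    refine Submodule.mem_sup_left ?_
    rw [if_pos b5.1]
    obtain ⟨a, y, σ, J, hL, rfl⟩ := rf_face b5.1.2.1 b5.ne
    rw [rf_Y hL] at b1
    obtain rfl := b5.bot b1
    have c1 : k = a.length := by simpa using b5.2.2.1.symm.trans (rf_card hL)
    subst c1
    obtain ⟨b, -, e⟩ := mem_Co.1 b3.1
    obtain ⟨s, s1, s2⟩ := sc_cs_eps (List.nodup_append.1 (List.map_append ▸ rf_nodup hL)).1
    have c2 := rf_apply hr hL hx b5.ray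
    rw [e, rf_sdiff hL, s2] at c2
    have c3 : r x (a ++ [y]) ∈ JE (J.image rr) := by
      obtain ⟨z1, d1, z, hz, d⟩ := Submodule.mem_sup.1 h0
      obtain ⟨z2, d2, z3, d3, rfl⟩ := Submodule.mem_sup.1 hz
      rw [← d, Finsupp.add_apply, Finsupp.add_apply,
        (Finsupp.mem_supported' _ _).1 d1 _ (by simp), zero_add,
        (Finsupp.mem_supported' _ _).1 d3 _ (not_not.2 fun ρ hρ => List.mem_toFinset.1
          (((fc_subset (fun ρ h => hφ ρ (List.mem_toFinset.1 h)) (rf_cells hL)).1 b2).1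
            (List.mem_toFinset.2 hρ))), add_zero]
      rcases mem_FZ.1 d2 (a ++ [y]) with d4 | d4 | ⟨τ, l', d4, d5, d6⟩
      · simp at d4
      · rw [d4]; exact zero_mem _
      · rw [b5.ray, d4, rf_top (d4 ▸ d5)]
        exact d4 ▸ d6
    rw [e, ip_fc]
    refine mul_mem_Vp _ (emb_JE ?_)
    have := Submodule.smul_mem _ s (c2 ▸ c3)
    rwa [smul_smul, s1, one_smul] at this
  have h4 : bd x1 ∈ WK X (fc X φ.toFinset ∅) k := by
    have := sub_mem hb (Submodule.mem_sup_right ((cxKA hP _ p).DZ _ h3))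
    change bd x - bd (x - x1) ∈ _ at this
    rwa [map_sub, sub_sub_cancel] at this
  have h5 : x1 - bd (rfH X x1) - rfH X (bd x1) ∈ WK X (fc X φ.toFinset ∅) k :=
    map_mem_of_Pw (LinearMap.id - bd ∘ₗ rfH X - rfH X ∘ₗ bd) (fun ⟨γ, η⟩ w hw => by
      split_ifs at hw with b
      · exact rf_htpy b.1 hw.1
      · rw [(Submodule.mem_bot ℝ).1 hw, Finsupp.single_zero, map_zero]; exact zero_mem _) m1
  have h6 : rfH X (bd x1) ∈ WK X (fc X φ.toFinset ∅) k := by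
    have m2 : bd x1 ∈ Pw fun i : Ix (Nn n) =>
        if k < (fp tt i.2).card ∧ fp tt i.1 ⊆ {rfY X i.2} then
          (⊥ : Submodule ℝ (Om (Nn n))) else ⊤ := by
      refine kl_bd (fun γ η v hv w hw => ?_) m1
      by_cases b : rfC X q (k + 1) (γ, η) ∧ ¬fp tt γ ⊆ {rfY X η}
      · exact ⟨kl_top.2 fun b1 => absurd b1.1
          (not_lt.2 (rf_erase (Finset.mem_sdiff.1 hv).1 (b.1.fin hv) b.1.2.2.1)),
          kl_top.2 fun b1 =>
            absurd ((Finset.filter_subset_filter _ (γ.subset_insert v)).trans b1.2) b.2⟩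
      · rw [(kl_bot.1 hw).2 b, map_zero]; exact ⟨zero_mem _, zero_mem _⟩
    rw [rf_WK] at h4
    have m3 := Submodule.mem_inf.2 ⟨h4, m2⟩
    rw [← Pw_inf] at m3
    refine map_mem_of_Pw (rfH X) (fun ⟨γ, η⟩ w hw => ?_) m3
    rw [rfH_single, klH_single]
    split_ifs with b
    swap
    · exact zero_mem _
    rw [rf_WK]
    refine neg_mem (single_mem_Pw (kl_top.2 fun b1 => ?_))
    by_cases b2 : fp tt γ ⊆ {rfY X η}
    · rw [(Submodule.mem_bot ℝ).1 (kl_top.1 hw.2 ⟨b1.1, b2⟩), mul_zero]; exact zero_mem _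
    obtain ⟨b3, b4⟩ := kl_bot.1 (kl_top.1 hw.1 b1)
    by_cases b5 : Ok (DX X) tt (γ, η)
    · rw [if_pos (rf_ok b5 b2)]
      refine mul_mem_Vp _ (Vp_mono (fun v hv => ?_) 1 b3)
      rw [kl_ip] at hv ⊢
      exact ⟨Finset.mem_erase.2 ⟨fun b5 => hv.2 (b5 ▸ rfl), hv.1⟩, hv.2⟩
    · rw [b4 b5, mul_zero]; exact zero_mem _
  have h7 : rfH X x1 ∈ KF X p (q + 1) (k + 1) := by
    refine map_mem_of_Pw (rfH X) (fun ⟨γ, η⟩ w hw => ?_) m1
    by_cases b : rfC X q (k + 1) (γ, η) ∧ ¬fp tt γ ⊆ {rfY X η}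
    swap
    · rw [(kl_bot.1 hw).2 b, Finsupp.single_zero, map_zero]; exact zero_mem _
    replace hw := (kl_bot.1 hw).1
    rw [rfH_single, klH_single]
    split_ifs with b1
    swap
    · exact zero_mem _
    have e : η \ γ.erase (rfY X η) = insert (rfY X η) (η \ γ) := by
      ext v
      simp only [Finset.mem_sdiff, Finset.mem_erase, Finset.mem_insert]
      by_cases a : v = rfY X η <;> simp [a, b.1.1.1 b1]
    have b2 : rfY X η ∉ η \ γ := fun b2 => (Finset.mem_sdiff.1 b2).2 b1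
    refine neg_mem (single_mem_Pw ?_)
    rw [if_pos ⟨rf_ok b.1.1 b.2, by rw [e, Finset.card_insert_of_notMem b2, b.1.2.1], b.1.2.2.1,
      fun ρ hρ => Finset.mem_erase.2 ⟨(vv_ne_rr _ _).symm, b.1.2.2.2 ρ hρ⟩⟩, e]
    refine ⟨ep_Co b2 hw.1, LinearMap.mem_ker.2 ?_⟩
    rw [kx_ep_mul, LinearMap.mem_ker.1 hw.2, mul_zero, neg_zero]
  refine mem_map_sup.2 ⟨_, h7, mem_of_eq
    (add_mem (add_mem (Submodule.mem_sup_right h3) h5) h6) ?_⟩
  abel

/-- The fundamental chain of a flag. -/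
theorem rq_fund (hr : RS X r) (hg : GCo X) {σ : Set (Pt n)} {l : List (Set (Pt n))}
    (hl : X.Flag (σ :: l) σ) {b : Ex (Nn n)} (hb : b ∈ GR X p σ) :
    ∃ x ∈ KF X p l.length (l.length + 1), bd x ∈ WK X ∅ l.length ∧
      r x = Finsupp.single (σ :: l) b := by
  have hσ := (hl.2 σ (by simp)).1
  have h1 : fc X (σ :: l).toFinset (X.ray σ) ∈ DX X :=
    (fc_mem_DX (rf_cells hl)).2 (flag_adm hl hσ subset_rfl)
  have h2 : (fp tt (fc X (σ :: l).toFinset (X.ray σ))).card = l.length + 1 := rf_card hl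
  have h3 : top X (fc X (σ :: l).toFinset (X.ray σ)) = σ := rf_top hl
  have h4 := hg _ h1 (Finset.card_pos.1 (by omega)) p
  rw [h3] at h4
  rw [← h4] at hb
  have h5 : fc X (σ :: l).toFinset (X.ray σ) \ fc X ∅ (X.ray σ) =
      fp tt (fc X (σ :: l).toFinset (X.ray σ)) := by
    rw [fc_sdiff (rf_cells hl) (Finset.empty_subset _), fp_fc, sdiff_self, Finset.sdiff_empty]
    rfl
  obtain ⟨a, y, e⟩ := (σ :: l).eq_nil_or_concat'.resolve_left (by simp)
  have h6 : (vv X y :: a.map (vv X)).toFinset = fp tt (fc X (σ :: l).toFinset (X.ray σ)) := by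
    rw [fp_fc, e]
    ext v
    simp [mem_fc, eq_comm, or_comm]
  obtain ⟨s, s1, s2⟩ := sc_cs_eps (a := vv X y :: a.map (vv X))
    ((List.perm_append_singleton _ _).nodup_iff.1 (by
      have := rf_nodup (e ▸ hl)
      rwa [List.map_append] at this))
  rw [h6] at s2
  generalize hη : fc X (σ :: l).toFinset (X.ray σ) = η at *
  have hw : s • (eps (fp tt η) * emb b) ∈ Co (DX X) η (fp tt η) p :=
    Submodule.smul_mem _ _ (mem_Co.2 ⟨b, hb.1, rfl⟩)
  have hk : kx tt (s • (eps (fp tt η) * emb b)) = 0 := by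
    rw [map_smul, kx_eps_mul, kx_emb, LinearMap.mem_ker.1 hb.2, map_zero, mul_zero, smul_zero,
      smul_zero]
  have hs : sc (cs (a.map (vv X)) (cx (vv X y) (s • (eps (fp tt η) * emb b)))) = b := by
    change sc (cs (vv X y :: a.map (vv X)) _) = b
    rw [map_smul, map_smul, s2, smul_smul, s1, one_smul]
  generalize s • (eps (fp tt η) * emb b) = w at hw hk hs
  refine ⟨∑ v ∈ fp tt η, Finsupp.single (insert v (fc X ∅ (X.ray σ)), η) (cx v w),
    Submodule.sum_mem _ fun v hv => single_mem_Pw ?_, ?_, ?_⟩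
  · have k1 : η \ insert v (fc X ∅ (X.ray σ)) = (fp tt η).erase v := by
      rw [Finset.sdiff_insert, h5]
    rw [if_pos ⟨⟨Finset.insert_subset (kl_fp.1 hv).1 (hη ▸ (fc_subset (Finset.empty_subset _)
      (rf_cells hl)).2 ⟨Finset.empty_subset _, subset_rfl⟩), h1, v,
      kl_fp.2 ⟨Finset.mem_insert_self _ _, (kl_fp.1 hv).2⟩⟩,
      by rw [k1, Finset.card_erase_of_mem hv, h2]; rfl, h2,
      fun ρ hρ => Finset.mem_insert_of_mem (rr_mem_fc.2 (h3 ▸ hρ))⟩, k1]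
    refine ⟨cx_Co hv hw, LinearMap.mem_ker.2 ?_⟩
    rw [← neg_eq_zero, ← cx_kx, hk, map_zero]
  · have k1 := bd_bd (Finsupp.single (fc X ∅ (X.ray σ), η) w)
    rw [bd_single, h5, Finset.sum_sub_distrib, map_sub, sub_eq_zero] at k1
    rw [← k1, map_sum]
    refine Submodule.sum_mem _ fun v hv => ?_
    have k2 := rf_erase (kl_fp.1 hv).1 (kl_fp.1 hv).2 h2
    rw [bd_single]
    exact Submodule.sum_mem _ fun u _ => sub_mem (rf_low ((Finset.card_le_card
      (Finset.filter_subset_filter _ (Finset.erase_subset _ _))).trans k2) _ _) (rf_low k2 _ _)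
  · rw [e] at hl hη
    have hy : vv X y ∈ fp tt η := h6 ▸ by simp
    rw [map_sum, Finset.sum_eq_single_of_mem _ hy, e, ← hs, ← hη, ← fc_insert_vv]
    · exact hr.pos a [] y σ _ _ hl
    · intro v hv hne
      refine hr.neg _ _ fun ⟨a', b', y', σ', K, k1, k2⟩ => ?_
      obtain ⟨k3, k4⟩ := Prod.mk.inj k2
      have k5 : ∀ ρ ∈ y' :: b', vv X ρ = v := fun ρ hρ => by
        have : vv X ρ ∈ insert v (fc X ∅ (X.ray σ)) :=
          k3 ▸ mem_fc.2 (Or.inl ⟨ρ, List.mem_toFinset.2 hρ, rfl⟩)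
        simpa [mem_fc, vv_ne_rr] using this
      have k6 := (fc_inj (rf_cells hl) (rf_cells k1) (hη.trans k4)).1
      have k7 : y ∈ y' :: b' := by
        have k8 := congrArg List.getLast? (flag_unique hl k1 k6)
        rw [List.getLast?_concat, List.getLast?_append_cons] at k8
        exact List.mem_of_getLast? k8.symm
      exact hne (k5 y k7).symm

end K2
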