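import Pool.Agent.Lib.MP_e9c0f3_ag.K2.RRay
import Pool.Agent.Lib.MP_e9c0f3_ag.K2.RFin

/-! The collapse is a quasi-isomorphism. -/

open ExteriorAlgebra H5T Matrix KH
open scoped Classical

noncomputable section

namespace K2

variable {n : ℕ} {X : TropCx n} {r : Kc (Nn n) →ₗ[ℝ] Fc n} {φ : List (Set (Pt n))} {p q k : ℕ}

theorem fil_K (hP : Pre (DX X) tt) (A : Finset (Nn n)) (p : ℕ) :
    Fil (cxKA hP A p) (WK X A) where
  mono _ _ h := sup_le_sup_right (cb_le fun _ _ hw => (cb_ite hw).imp_right fun o =>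
    cb_ite' (o.1.trans h) Submodule.mem_top) _
  ZW := le_sup_right
  lo q := by
    rintro x ⟨h1, h2⟩
    obtain ⟨u', hu', v, hv, rfl⟩ := Submodule.mem_sup.1 h1
    obtain ⟨u, hu, z, hz, rfl⟩ := Submodule.mem_sup.1 hu'
    have hzv : z + v ∈ ZK (DX X) tt ⊔ KA A := Submodule.add_mem_sup hz hv
    rw [add_assoc] at h2 ⊢
    refine add_mem ?_ hzv
    have h3 : u ∈ WK X A 0 := by simpa using sub_mem h2 (Submodule.mem_sup_right hzv)
    rw [WK, ZK, KA, ← Pw_sup, ← Pw_sup] at h3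
    change u ∈ ZK (DX X) tt ⊔ KA A
    rw [ZK, KA, ← Pw_sup]
    refine mem_Pw.2 fun i => ?_
    rcases cb_ite (mem_Pw.1 hu.1 i) with e | ⟨o, -⟩
    · rw [e]
      exact zero_mem _
    have := mem_Pw.1 h3 i
    rwa [if_neg (not_le.2 (o.1.2.2.mono (cb_fp o.1.1)).card_pos), bot_sup_eq] at this
  hi := ⟨(DX X).sup Finset.card, fun q => sup_le (sup_le (inf_le_left.trans (le_sup_of_le_left
    (cb_le fun _ _ hw => (cb_ite hw).imp_right fun o => cb_ite'
      ((Finset.card_filter_le _ _).trans (Finset.le_sup (f := Finset.card) o.1.1.2.1))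
      Submodule.mem_top))) (le_sup_of_le_right le_sup_left)) (le_sup_of_le_right le_sup_right)⟩
  DW _ _ _ hx := ry_bd_W hP hx.2

theorem rq_mem_sup {k : ℕ} {z : Fc n} :
    z ∈ Finsupp.supported (Ex (Nn n)) ℚ {l : List (Set (Pt n)) | l.length ≤ k} ↔
      ∀ l : List (Set (Pt n)), k < l.length → z l = 0 := by
  rw [Finsupp.mem_supported']
  exact forall_congr' fun l => imp_congr_left (not_le (a := l.length))

theorem rq_WF_mono (X : TropCx n) (φ : List (Set (Pt n))) : Monotone (WF X φ) := fun _ _ h =>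
  sup_le_sup_right (Finsupp.supported_mono fun _ hl => le_trans hl h) _

theorem rq_bd_WF (X : TropCx n) (p : ℕ) {z : Fc n} (hz : z ∈ WF X φ (k + 1)) :
    H5T.bd z ∈ WF X φ k := by
  obtain ⟨u, hu, v, hv, rfl⟩ := Submodule.mem_sup.1 hz
  rw [map_add]
  refine Submodule.add_mem_sup ?_ ((cxF1 X p φ).DZ v hv)
  rw [supported_eq_Ch] at hu ⊢
  refine bd_mem_Ch (fun l l' _ h => ?_) hu
  split_ifs with h1 h2
  · exact le_rfl
  · omega
  · exact bot_le
  · exact le_rfl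

theorem fil_F (X : TropCx n) (p : ℕ) (φ : List (Set (Pt n))) : Fil (cxF1 X p φ) (WF X φ) where
  mono := rq_WF_mono X φ
  ZW := le_sup_right
  lo q := inf_le_right.trans (sup_le (fun z hz => Submodule.mem_sup_left (mem_FZ.2 fun l => by
    by_cases h : l = []
    · exact Or.inl h
    · exact Or.inr (Or.inl (rq_mem_sup.1 hz l (List.length_pos_iff.2 h))))) le_rfl)
  hi := ⟨X.cells.card, fun q => sup_le_sup_right (fun z hz => rq_mem_sup.2 fun l hl => by
    rcases mem_FC.1 hz l with e | ⟨σ, l', -, hf, -⟩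
    · exact e
    · have := Finset.card_le_card (show l.toFinset ⊆ X.cells from fun ρ hρ =>
        (hf.2 ρ (List.mem_toFinset.1 hρ)).1)
      rw [List.toFinset_card_of_nodup (flag_nodup hf)] at this
      omega) _⟩
  DW _ _ _ hx := rq_bd_WF X p (rq_WF_mono X φ (Nat.le_succ _) hx.2)

theorem RS.map_WK (hr : RS X r) (hφ : ∀ ρ ∈ φ, ρ ∈ X.cells) {z : Kc (Nn n)}
    (hz : z ∈ WK X (fc X φ.toFinset ∅) k) : r z ∈ WF X φ k := by
  obtain ⟨u, hu, v', hv', rfl⟩ := Submodule.mem_sup.1 hz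
  obtain ⟨v, hv, y, hy, rfl⟩ := Submodule.mem_sup.1 hv'
  rw [map_add, map_add]
  refine Submodule.add_mem_sup ?_ (Submodule.add_mem_sup (hr.map_ZK hv) (hr.map_KA hφ hy))
  rw [← Finsupp.sum_single u, Finsupp.sum, map_sum]
  refine Submodule.sum_mem _ fun i _ => ?_
  rcases cb_ite (mem_Pw.1 hu i) with e | ⟨o, -⟩
  · simp [e]
  by_cases hi : ∃ (a b : List (Set (Pt n))) (y σ : Set (Pt n)) (K : Finset (Fin n → ℚ)),
      X.Flag (a ++ y :: b) σ ∧ i = (fc X (y :: b).toFinset K, fc X (a ++ y :: b).toFinset K)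
  · obtain ⟨a, b, y, σ, K, hf, rfl⟩ := hi
    rw [hr.pos a b y σ K _ hf]
    refine Finsupp.single_mem_supported ℚ _ ?_
    rw [fp_fc, card_fc fun ρ hρ => (hf.2 ρ (List.mem_toFinset.1 hρ)).1,
      List.toFinset_card_of_nodup (flag_nodup hf)] at o
    simp only [Set.mem_ofPred_eq, List.length_append, List.length_cons, List.length_nil] at o ⊢
    omega
  · rw [hr.neg i _ hi]
    exact zero_mem _

theorem rq_KF_le (hP : Pre (DX X) tt) (A : Finset (Nn n)) :
    KF X p q k ≤ (cxKA hP A p).C q ⊓ WK X A k :=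
  le_trans (cb_le fun _ _ hw => (cb_ite hw).imp_right fun o =>
    cb_ite' ⟨o.1.1, o.1.2.1, o.1.2.2.1, by simp⟩ o.2) (ry_le hP)

theorem rq_lift (hr : RS X r) (hg : GCo X) {y : Fc n} (hy : y ∈ FC X p q) :
    ∃ x ∈ KF X p q (q + 1), bd x ∈ WK X ∅ q ∧ r x = y := by
  rw [← Finsupp.sum_single y, Finsupp.sum]
  refine Finset.sum_induction _ (fun y => ∃ x ∈ KF X p q (q + 1), bd x ∈ WK X ∅ q ∧ r x = y)
    ?_ ⟨0, zero_mem _, by simp, map_zero _⟩ fun l _ => ?_
  · rintro _ _ ⟨a, a1, a2, rfl⟩ ⟨b, b1, b2, rfl⟩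
    exact ⟨a + b, add_mem a1 b1, by rw [map_add]; exact add_mem a2 b2, map_add _ _ _⟩
  · rcases mem_FC.1 hy l with e | ⟨σ, l', rfl, hf, rfl, hb⟩
    · exact ⟨0, zero_mem _, by simp, by simp [e]⟩
    · exact rq_fund hr hg hf hb

theorem rq_drop {y : Fc n} (hy : y ∈ FC X p q) (hq : q ≠ k) (h : y ∈ WF X φ (k + 1)) :
    y ∈ WF X φ k := by
  rw [WF, FZ, TropCx.Z, FA, supported_eq_Ch, supported_eq_Ch, ← Ch_sup, ← Ch_sup, mem_Ch] at h ⊢
  intro l
  rcases mem_FC.1 hy l with e | ⟨σ, l', rfl, -, hl, -⟩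
  · rw [e]
    exact zero_mem _
  · have e : (σ :: l').length ≤ k + 1 ↔ (σ :: l').length ≤ k := by
      rw [List.length_cons]
      omega
    convert h (σ :: l') using 3
    exact e.symm

theorem RS.qi (hr : RS X r) (hP : Pre (DX X) tt) (hg : GCo X) (hφ : ∀ ρ ∈ φ, ρ ∈ X.cells)
    (p q : ℕ) : QI (cxKA hP (fc X φ.toFinset ∅) p) (cxF1 X p φ) r.toAddMonoidHom q := by
  have hm := hr.mor hP hg hφ p
  have hA : ∀ v ∈ fc X φ.toFinset ∅, tt v = 1 := fun v hv => by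
    rcases mem_fc.1 hv with ⟨σ, -, rfl⟩ | ⟨_, h, -⟩
    · rfl
    · simp at h
  refine filt_qi hm (fil_K hP _ p) (fil_F X p φ) (fun _ _ _ hx => hr.map_WK hφ hx.2)
    (fun q m x hx hb h => ?_) (fun q m y hy _ => ?_) q
  · have h1 : r x ∈ WF X φ m := by
      obtain ⟨u, hu, e⟩ := mem_map_sup.1 h
      exact mem_of_eq (add_mem e (rq_bd_WF X p hu.2)) (sub_add_cancel _ _).symm
    obtain ⟨y, hy, h2⟩ := rq_ray hP hg hA hx hb
    obtain ⟨u, hu, h3⟩ := mem_map_sup.1 h2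
    have h4 : bd y ∈ WK X (fc X φ.toFinset ∅) m := by
      have := sub_mem hb (ry_bd_W hP h3)
      rwa [map_sub, map_sub, bd_bd, sub_zero, show (cxKA hP _ p).D x = bd x from rfl,
        sub_sub_cancel] at this
    have h5 : r (bd u) ∈ WF X φ m := by
      obtain ⟨s, hs⟩ := hm.hD (q + 1)
      have := add_mem (Submodule.mem_sup_right (hs u hu.1) : _ ∈ WF X φ m)
        (sgn_mem s (rq_bd_WF X p (hr.map_WK hφ hu.2)))
      exact mem_of_eq this (sub_add_cancel _ _).symm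
    have h6 : r y ∈ WF X φ m := by
      have := sub_mem (sub_mem h1 h5) (hr.map_WK hφ h3)
      exact mem_of_eq this (by rw [map_sub, map_sub]; abel)
    obtain ⟨v, hv, h7⟩ := mem_map_sup.1 (rq_fin hr hP hφ hy h4 h6)
    refine mem_map_sup.2 ⟨u + v, add_mem hu (rq_KF_le hP _ hv), mem_of_eq (add_mem h3 h7) ?_⟩
    change x - bd (u + v) = _
    rw [map_add]
    abel
  · obtain ⟨h1, h2⟩ := hy
    obtain ⟨u, hu, z, hz, rfl⟩ := Submodule.mem_sup.1 h1
    have hz' : ∀ j, z ∈ WF X φ j := fun j => Submodule.mem_sup_right hz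
    by_cases hq : q = m
    · subst hq
      obtain ⟨x, x1, x2, rfl⟩ := rq_lift hr hg hu
      refine ⟨x, rq_KF_le hP _ x1, ?_, Submodule.mem_sup_right (by simpa using hz' q)⟩
      have : WK X ∅ q ≤ WK X (fc X φ.toFinset ∅) q := by
        rw [WK, KA_empty]
        exact sup_le_sup_left (sup_le_sup_left bot_le _) _
      exact this x2
    · refine ⟨0, zero_mem _, by simp, Submodule.mem_sup_right ?_⟩
      rw [map_zero, sub_zero]
      exact add_mem (rq_drop hu hq (by simpa using sub_mem h2 (hz' (m + 1)))) (hz' m)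

theorem rq_ext {R M : Type*} [Ring R] [AddCommGroup M] [Module R M] {A B : Cx1 R M}
    (h1 : ∀ q, A.C q = B.C q) (h2 : A.Z = B.Z) (h3 : A.D = B.D) : A = B := by
  cases A
  cases B
  obtain rfl := funext h1
  cases h2
  cases h3
  rfl

theorem rq_FA_nil : FA ([] : List (Set (Pt n))) = ⊥ := by
  rw [FA]
  simp

variable {hh : Nn n → ℝ} {μ : Finset (Nn n) → Module.Dual ℝ (Nn n)} {m : Set (Pt n) → Fin n → ℚ}
  {h : (Fin n → ℚ) → ℚ}

theorem rq_rowK (hP : Pre (DX X) tt) (hμ : Loc (DX X) hh μ) (p : ℕ) :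
    (cxK hP hμ).row p = cxKA hP (fc X ([] : List (Set (Pt n))).toFinset ∅) p := by
  have e : KA (fc X ([] : List (Set (Pt n))).toFinset ∅) = ⊥ := by
    rw [← KA_empty]
    simp [fc]
  refine rq_ext (fun q => ?_) ?_ rfl
  · change KC _ _ p q = KC _ _ p q ⊔ KA _
    rw [e, sup_bot_eq]
  · change ZK _ _ = ZK _ _ ⊔ KA _
    rw [e, sup_bot_eq]

theorem rq_rowF (hm : Slo X m h) (p : ℕ) : (cxF hm).row p = cxF1 X p [] := by
  refine rq_ext (fun q => ?_) ?_ rfl
  · change FC X p q ⊔ FZ X = FC X p q ⊔ (FZ X ⊔ FA [])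
    rw [rq_FA_nil, sup_bot_eq]
  · change FZ X = FZ X ⊔ FA []
    rw [rq_FA_nil, sup_bot_eq]

theorem RS.mor_row (hr : RS X r) (hP : Pre (DX X) tt) (hg : GCo X) (hμ : Loc (DX X) hh μ)
    (hm : Slo X m h) (p : ℕ) :
    Mor ((cxK hP hμ).row p) ((cxF hm).row p) r.toAddMonoidHom := by
  rw [rq_rowK, rq_rowF]
  exact hr.mor hP hg (φ := []) (by simp) p

theorem RS.qi_row (hr : RS X r) (hP : Pre (DX X) tt) (hg : GCo X) (hμ : Loc (DX X) hh μ)
    (hm : Slo X m h) (p q : ℕ) :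
    QI ((cxK hP hμ).row p) ((cxF hm).row p) r.toAddMonoidHom q := by
  rw [rq_rowK, rq_rowF]
  exact hr.qi hP hg (φ := []) (by simp) p q

end K2
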