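import Pool.Agent.Lib.MP_e9c0f3_ag.K2.RDef

/-! Pushing cubes to infinity along the rays. -/

open ExteriorAlgebra H5T Matrix KH
open scoped Classical

noncomputable section

namespace K2

variable {n : ℕ} {X : TropCx n} {A : Finset (Nn n)} {p q k : ℕ}

/-- Chains at level `k` whose bottom faces contain the rays of `S` that the largest cell has. -/
def ryG (X : TropCx n) (p q k : ℕ) (S : Finset (Fin n → ℚ)) : Submodule ℝ (Kc (Nn n)) :=
  Pw fun i => if Ok (DX X) tt i ∧ (i.2 \ i.1).card = q ∧ (fp tt i.2).card = k ∧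
      ∀ ρ ∈ S, ρ ∈ X.ray (top X i.2) → rr ρ ∈ i.1 then
    Co (DX X) i.2 (i.2 \ i.1) p ⊓ LinearMap.ker (kx tt) else ⊥

/-- Chains of level at most `k`. -/
def ryL (n k : ℕ) : Submodule ℝ (Kc (Nn n)) :=
  Pw fun i => if (fp tt i.2).card ≤ k then ⊤ else ⊥

/-- The homotopy. -/
def ryH (X : TropCx n) (ρ : Fin n → ℚ) : Kc (Nn n) →ₗ[ℝ] Kc (Nn n) :=
  Finsupp.lsum ℝ fun i => if ρ ∈ X.ray (top X i.2) ∧ rr ρ ∉ i.2 then
    Finsupp.lsingle (i.1, insert (rr ρ) i.2) ∘ₗ LinearMap.mulLeft ℝ (ep (rr ρ)) else 0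

/-- The push along a ray. -/
def ryP (X : TropCx n) (ρ : Fin n → ℚ) : Kc (Nn n) →ₗ[ℝ] Kc (Nn n) :=
  Finsupp.lsum ℝ fun i => if ρ ∈ X.ray (top X i.2) ∧ rr ρ ∉ i.1 then
    (if rr ρ ∈ i.2 then 0 else Finsupp.lsingle (insert (rr ρ) i.1, insert (rr ρ) i.2))
    else Finsupp.lsingle i

theorem ryH_single (ρ : Fin n → ℚ) (g h : Finset (Nn n)) (w : Om (Nn n)) :
    ryH X ρ (Finsupp.single (g, h) w) = if ρ ∈ X.ray (top X h) ∧ rr ρ ∉ h then
      Finsupp.single (g, insert (rr ρ) h) (ep (rr ρ) * w) else 0 := by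
  rw [ryH, Finsupp.lsum_single]
  split_ifs <;> rfl

theorem ryP_single (ρ : Fin n → ℚ) (g h : Finset (Nn n)) (w : Om (Nn n)) :
    ryP X ρ (Finsupp.single (g, h) w) = if ρ ∈ X.ray (top X h) ∧ rr ρ ∉ g then
      (if rr ρ ∈ h then 0 else Finsupp.single (insert (rr ρ) g, insert (rr ρ) h) w)
      else Finsupp.single (g, h) w := by
  rw [ryP, Finsupp.lsum_single]
  split_ifs <;> rfl

theorem ry_fp_insert (ρ : Fin n → ℚ) (h : Finset (Nn n)) : fp tt (insert (rr ρ) h) = fp tt h := by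
  rw [fp, Finset.filter_insert, if_neg (by simp), fp]

theorem ry_fp_erase {h : Finset (Nn n)} {x : Nn n} (hx : x ∈ h) (h1 : tt x = 1) :
    (fp tt (h.erase x)).card + 1 = (fp tt h).card := by
  rw [fp, Finset.filter_erase]
  exact Finset.card_erase_add_one (Finset.mem_filter.2 ⟨hx, h1⟩)

theorem ry_top_erase {h : Finset (Nn n)} (hh : h ∈ DX X) {x : Nn n} (hx : x ∈ h) (h1 : tt x ≠ 1) :
    top X (h.erase x) = top X h := by
  obtain ⟨l, J, -, rfl⟩ := mem_DX.1 hh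
  rcases mem_fc.1 hx with ⟨σ, -, rfl⟩ | ⟨r, -, rfl⟩
  · exact absurd rfl h1
  · exact top_erase_rr _ _

theorem ry_single_L {g h : Finset (Nn n)} (hk : (fp tt h).card ≤ k) (w : Om (Nn n)) :
    Finsupp.single (g, h) w ∈ ryL n k :=
  single_mem_Pw (cb_ite' hk Submodule.mem_top)

theorem ryH_L (ρ : Fin n → ℚ) {z : Kc (Nn n)} (hz : z ∈ ryL n k) : ryH X ρ z ∈ ryL n k := by
  refine map_mem_of_Pw _ (fun ⟨g, h⟩ w hw => ?_) hz
  rcases cb_ite hw with rfl | ⟨o, -⟩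
  · simp
  rw [ryH_single]
  split_ifs
  · exact ry_single_L (by rwa [ry_fp_insert]) _
  · exact zero_mem _

theorem ry_ok {g h : Finset (Nn n)} (o : Ok (DX X) tt (g, h)) {ρ : Fin n → ℚ}
    (hρ : ρ ∈ X.ray (top X h)) : Ok (DX X) tt (g, insert (rr ρ) h) :=
  ⟨o.1.trans (Finset.subset_insert _ _), insert_rr_mem o.2.1 (o.2.2.mono (cb_fp o.1)) hρ, o.2.2⟩

theorem ryH_W (hA : ∀ v ∈ A, tt v = 1) (ρ : Fin n → ℚ) {z : Kc (Nn n)} (hz : z ∈ WK X A k) :
    ryH X ρ z ∈ WK X A k := by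
  refine cb_sup _ (fun z hz => Submodule.mem_sup_left (ryH_L ρ hz))
    (fun z hz => Submodule.mem_sup_right (cb_sup _ (fun z hz => Submodule.mem_sup_left ?_)
      (fun z hz => Submodule.mem_sup_right ?_) hz)) hz
  · refine map_mem_of_Pw _ (fun ⟨g, h⟩ w hw => ?_) hz
    rcases cb_ite hw with rfl | ⟨o, hw⟩
    · simp
    rw [ryH_single]
    split_ifs with c
    · exact single_mem_Pw (cb_ite' (ry_ok o c.1) (mul_mem_Vp _ hw))
    · exact zero_mem _
  · refine map_mem_of_Pw _ (fun ⟨g, h⟩ w hw => ?_) hz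
    by_cases hAh : A ⊆ h
    · rw [if_pos hAh, Submodule.mem_bot] at hw
      simp [hw]
    rw [ryH_single]
    split_ifs
    · refine single_mem_Pw ?_
      rw [if_neg]
      · trivial
      refine fun h' => hAh fun v hv => (Finset.mem_insert.1 (h' hv)).resolve_left ?_
      rintro rfl
      simpa using hA _ hv
    · exact zero_mem _

theorem ry_bd_W (hP : Pre (DX X) tt) {z : Kc (Nn n)} (hz : z ∈ WK X A k) : bd z ∈ WK X A k := by
  refine cb_sup _ (fun z hz => Submodule.mem_sup_left ?_)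
    (fun z hz => Submodule.mem_sup_right (cb_sup _
      (fun z hz => Submodule.mem_sup_left (bd_ZK hP.fan hz))
      (fun z hz => Submodule.mem_sup_right (bd_KA hz)) hz)) hz
  refine cb_bd (fun γ η w hw => (cb_ite hw).imp_right fun ⟨o, _⟩ x _ _ => ⟨?_, ?_⟩) hz
  · exact cb_ite' ((Finset.card_le_card (cb_fp (Finset.erase_subset _ _))).trans o)
      Submodule.mem_top
  · exact cb_ite' o Submodule.mem_top

/-- adding a ray of the largest cell does not change the coefficients -/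
theorem ry_Co (hg : GCo X) {g h S : Finset (Nn n)} (o : Ok (DX X) tt (g, h)) {ρ : Fin n → ℚ}
    (hρ : ρ ∈ X.ray (top X h)) {w : Om (Nn n)} (hw : w ∈ Co (DX X) h S p) (h0 : kx tt w = 0) :
    w ∈ Co (DX X) (insert (rr ρ) h) S p := by
  obtain ⟨b, hb, rfl⟩ := mem_Co.1 hw
  have hne : (fp tt h).Nonempty := o.2.2.mono (cb_fp o.1)
  have h1 : ct tt b = 0 := by
    rw [kx_eps_mul, kx_emb, smul_eq_zero] at h0
    have h2 : eps S * emb (ct tt b) ∈ Jd (∅ : Finset (Nn n)) := by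
      rw [h0.resolve_left (pow_ne_zero _ (by norm_num))]
      exact zero_mem _
    simpa [JE] using eps_mul_Jd h2
  have h2 : b ∈ GR X p (top X h) := hg h o.2.1 hne p ▸ ⟨hb, h1⟩
  rw [← top_insert_rr h ρ, ← hg _ (ry_ok o hρ).2.1 (by rwa [ry_fp_insert]) p] at h2
  exact mem_Co.2 ⟨b, h2.1, rfl⟩

theorem ryH_G (hg : GCo X) (ρ : Fin n → ℚ) {S : Finset (Fin n → ℚ)} {z : Kc (Nn n)}
    (hz : z ∈ ryG X p q k S) : ryH X ρ z ∈ ryG X p (q + 1) k ∅ := by
  refine map_mem_of_Pw _ (fun ⟨g, h⟩ w hw => ?_) hz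
  rcases cb_ite hw with rfl | ⟨⟨o, hq, hk, -⟩, hw, h0⟩
  · simp
  rw [ryH_single]
  split_ifs with c
  swap
  · exact zero_mem _
  have h1 : rr ρ ∉ h \ g := fun a => c.2 (Finset.mem_sdiff.1 a).1
  have e : insert (rr ρ) h \ g = insert (rr ρ) (h \ g) :=
    Finset.insert_sdiff_of_notMem _ fun a => c.2 (o.1 a)
  refine single_mem_Pw (cb_ite' ⟨ry_ok o c.1, ?_, by rwa [ry_fp_insert], by simp⟩ ⟨?_, ?_⟩)
  · rw [e, Finset.card_insert_of_notMem h1, hq]
  · rw [e]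
    exact ep_Co h1 (ry_Co hg o c.1 hw h0)
  · change kx tt (ep (rr ρ) * w) = 0
    rw [kx_ep_mul, show kx tt w = 0 from h0, mul_zero, neg_zero]

theorem ryP_G (hg : GCo X) (ρ : Fin n → ℚ) {S : Finset (Fin n → ℚ)} {z : Kc (Nn n)}
    (hz : z ∈ ryG X p q k S) : ryP X ρ z ∈ ryG X p q k (insert ρ S) := by
  refine map_mem_of_Pw _ (fun ⟨g, h⟩ w hw => ?_) hz
  rcases cb_ite hw with rfl | ⟨⟨o, hq, hk, hS⟩, hw, h0⟩
  · simp
  rw [ryP_single]
  split_ifs with c c'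
  · exact zero_mem _
  · have e : insert (rr ρ) h \ insert (rr ρ) g = h \ g := by
      rw [Finset.insert_sdiff_insert, Finset.sdiff_insert_of_notMem c']
    refine single_mem_Pw (cb_ite' ⟨⟨Finset.insert_subset_insert _ o.1, (ry_ok o c.1).2.1,
      by rw [ry_fp_insert]; exact o.2.2⟩, by rwa [e], by rwa [ry_fp_insert], fun σ hσ h1 => ?_⟩
      ⟨?_, h0⟩)
    · rw [top_insert_rr] at h1
      rcases Finset.mem_insert.1 hσ with rfl | hσ
      · exact Finset.mem_insert_self _ _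
      · exact Finset.mem_insert_of_mem (hS σ hσ h1)
    · rw [e]
      exact ry_Co hg o c.1 hw h0
  · refine single_mem_Pw (cb_ite' ⟨o, hq, hk, fun σ hσ h1 => ?_⟩ ⟨hw, h0⟩)
    rcases Finset.mem_insert.1 hσ with rfl | hσ
    · by_contra h2
      exact c ⟨h1, h2⟩
    · exact hS σ hσ h1

/-- the homotopy formula, modulo chains of lower level -/
theorem ry_htpy (ρ : Fin n → ℚ) {S : Finset (Fin n → ℚ)} {z : Kc (Nn n)}
    (hz : z ∈ ryG X p q (k + 1) S) :
    bd (ryH X ρ z) + ryH X ρ (bd z) - (z - ryP X ρ z) ∈ ryL n k := by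
  refine map_mem_of_Pw (bd ∘ₗ ryH X ρ + ryH X ρ ∘ₗ bd - (LinearMap.id - ryP X ρ))
    (fun ⟨g, h⟩ w hw => ?_) hz
  rcases cb_ite hw with rfl | ⟨⟨o, -, hk, -⟩, hw, -⟩
  · simp
  have hk' : (fp tt h).card = k + 1 := hk
  have hL : ∀ x ∈ h \ g, tt x = 1 → ∀ u, ryH X ρ (Finsupp.single (g, h.erase x) u) ∈ ryL n k :=
    fun x hx h1 u => ryH_L ρ (ry_single_L (by
      have := ry_fp_erase (Finset.mem_sdiff.1 hx).1 h1
      omega) _)
  have hT : ∀ x ∈ h \ g, tt x ≠ 1 → top X (h.erase x) = top X h := fun x hx h1 =>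
    ry_top_erase o.2.1 (Finset.mem_sdiff.1 hx).1 h1
  change bd (ryH X ρ (Finsupp.single (g, h) w)) + ryH X ρ (bd (Finsupp.single (g, h) w)) -
    (Finsupp.single (g, h) w - ryP X ρ (Finsupp.single (g, h) w)) ∈ ryL n k
  rw [bd_single, map_sum, ryP_single, ryH_single]
  by_cases c1 : ρ ∈ X.ray (top X h)
  swap
  · rw [if_neg fun a => c1 a.1, if_neg fun a => c1 a.1, map_zero, zero_add, sub_self, sub_zero]
    refine Submodule.sum_mem _ fun x hx => ?_
    rw [map_sub, ryH_single ρ _ h, if_neg fun a => c1 a.1, sub_zero]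
    by_cases h1 : tt x = 1
    · exact hL x hx h1 _
    · rw [ryH_single, hT x hx h1, if_neg fun a => c1 a.1]
      exact zero_mem _
  by_cases c2 : rr ρ ∈ h
  · rw [if_neg fun a => a.2 c2, map_zero, zero_add, if_pos c2]
    have e : ∀ x ∈ h \ g, ryH X ρ (Finsupp.single (g, h.erase x) (cx x w) -
        Finsupp.single (insert x g, h) (cx x w)) =
        if x = rr ρ then Finsupp.single (g, h) w else 0 := by
      intro x hx
      rw [map_sub, ryH_single ρ _ h, if_neg fun a => a.2 c2, sub_zero, ryH_single]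
      by_cases h1 : x = rr ρ
      · subst h1
        rw [top_erase_rr, if_pos ⟨c1, Finset.notMem_erase _ _⟩, if_pos rfl,
          Finset.insert_erase c2, ep_cx_Co hx hw]
      · rw [if_neg fun a => a.2 (Finset.mem_erase.2 ⟨Ne.symm h1, c2⟩), if_neg h1]
    rw [Finset.sum_congr rfl e, Finset.sum_ite_eq']
    by_cases c3 : rr ρ ∈ g
    · rw [if_neg fun a => (Finset.mem_sdiff.1 a).2 c3, if_neg fun a => a.2 c3, sub_self, sub_zero]
      exact zero_mem _
    · rw [if_pos (Finset.mem_sdiff.2 ⟨c2, c3⟩), if_pos ⟨c1, c3⟩, sub_zero, sub_self]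
      exact zero_mem _
  have c3 : rr ρ ∉ g := fun a => c2 (o.1 a)
  have c4 : rr ρ ∉ h \ g := fun a => c2 (Finset.mem_sdiff.1 a).1
  rw [if_pos ⟨c1, c2⟩, if_pos ⟨c1, c3⟩, if_neg c2, bd_single, Finset.insert_sdiff_of_notMem _ c3,
    Finset.sum_insert c4, cx_ep_mul, if_pos rfl, cx_Co_not c4 hw, mul_zero, sub_zero,
    Finset.erase_insert c2, add_assoc, add_sub_cancel_left, ← Finset.sum_add_distrib]
  refine Submodule.sum_mem _ fun x hx => ?_
  have hne : x ≠ rr ρ := fun e => c4 (e ▸ hx)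
  rw [cx_ep_mul, if_neg hne, zero_sub, map_sub, ryH_single ρ _ h, if_pos ⟨c1, c2⟩,
    Finsupp.single_neg, Finsupp.single_neg, Finset.erase_insert_of_ne hne.symm]
  have e : ∀ a b c : Kc (Nn n), -a - -b + (c - b) = c - a := fun a b c => by abel
  rw [e]
  by_cases h1 : tt x = 1
  · refine sub_mem (hL x hx h1 _) (ry_single_L ?_ _)
    have := ry_fp_erase (Finset.mem_sdiff.1 hx).1 h1
    rw [ry_fp_insert]
    omega
  · rw [ryH_single, hT x hx h1, if_pos ⟨c1, fun a => c2 (Finset.mem_of_mem_erase a)⟩, sub_self]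
    exact zero_mem _

theorem ry_ind (hP : Pre (DX X) tt) (hg : GCo X) (hA : ∀ v ∈ A, tt v = 1) {x : Kc (Nn n)}
    (hx : x ∈ ryG X p q (k + 1) ∅) (hb : bd x ∈ WK X A k) (S : Finset (Fin n → ℚ)) :
    ∃ y ∈ ryG X p q (k + 1) S, x - y ∈ (ryG X p (q + 1) (k + 1) ∅).map bd ⊔ WK X A k := by
  induction S using Finset.induction_on with
  | empty => exact ⟨x, hx, by simp⟩
  | insert ρ S _ ih =>
    obtain ⟨y, hy, h⟩ := ih
    have hy' : bd y ∈ WK X A k := by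
      obtain ⟨_, ⟨u, -, rfl⟩, v, hv, e⟩ := Submodule.mem_sup.1 h
      have : bd y = bd x - bd v := by
        rw [← map_sub, eq_comm, ← sub_eq_zero, ← map_sub, sub_right_comm, ← e,
          add_sub_cancel_right, bd_bd]
      rw [this]
      exact sub_mem hb (ry_bd_W hP hv)
    refine ⟨ryP X ρ y, ryP_G hg ρ hy, ?_⟩
    have e : x - ryP X ρ y = x - y + (bd (ryH X ρ y) + (ryH X ρ (bd y) -
        (bd (ryH X ρ y) + ryH X ρ (bd y) - (y - ryP X ρ y)))) := by abel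
    rw [e]
    exact add_mem h (Submodule.add_mem_sup ⟨_, ryH_G hg ρ hy, rfl⟩
      (sub_mem (ryH_W hA ρ hy') (Submodule.mem_sup_left (ry_htpy ρ hy))))

theorem ry_le (hP : Pre (DX X) tt) : ryG X p q k ∅ ≤ (cxKA hP A p).C q ⊓ WK X A k := by
  intro z hz
  refine ⟨Submodule.mem_sup_left (Submodule.mem_sup_left ⟨?_, ?_⟩), Submodule.mem_sup_left ?_⟩
  · exact cb_le (fun _ _ hw => (cb_ite hw).imp_right fun o => cb_ite' ⟨o.1.1, o.1.2.1⟩ o.2.1) hz
  · refine Finsupp.ext fun i => ?_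
    rw [co_apply]
    rcases cb_ite (mem_Pw.1 hz i) with e | ⟨-, -, e⟩
    · rw [e, map_zero]
      rfl
    · exact e
  · exact cb_le (fun _ _ hw => (cb_ite hw).imp_right fun o =>
      cb_ite' o.1.2.2.1.le Submodule.mem_top) hz

theorem ry_split (hP : Pre (DX X) tt) {x : Kc (Nn n)}
    (hx : x ∈ (cxKA hP A p).C q ⊓ WK X A (k + 1)) : x ∈ ryG X p q (k + 1) ∅ ⊔ WK X A k := by
  obtain ⟨h1, h2⟩ := hx
  obtain ⟨u', hu', v, hv, rfl⟩ := Submodule.mem_sup.1 h1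
  obtain ⟨u, hu, z, hz, rfl⟩ := Submodule.mem_sup.1 hu'
  have hzv : ∀ j, z + v ∈ WK X A j := fun j =>
    Submodule.mem_sup_right (Submodule.add_mem_sup hz hv)
  rw [add_assoc] at h2 ⊢
  refine add_mem ?_ (Submodule.mem_sup_right (hzv k))
  have h3 : u ∈ WK X A (k + 1) := by simpa using sub_mem h2 (hzv (k + 1))
  rw [WK, ZK, KA, ← Pw_sup, ← Pw_sup] at h3
  rw [← Finsupp.sum_single u, Finsupp.sum]
  refine Submodule.sum_mem _ fun i _ => ?_
  by_cases hk : (fp tt i.2).card = k + 1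
  · rcases cb_ite (mem_Pw.1 hu.1 i) with e | ⟨o, hw⟩
    · simp [e]
    refine Submodule.mem_sup_left (single_mem_Pw (cb_ite' ⟨o.1, o.2, hk, by simp⟩ ⟨hw, ?_⟩))
    have := DFunLike.congr_fun (LinearMap.mem_ker.1 hu.2) i
    rwa [co_apply] at this
  · refine Submodule.mem_sup_right ?_
    rw [WK, ZK, KA, ← Pw_sup, ← Pw_sup]
    refine single_mem_Pw ?_
    have := mem_Pw.1 h3 i
    have e : (fp tt i.2).card ≤ k + 1 ↔ (fp tt i.2).card ≤ k := by omega
    simpa only [e] using this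

theorem rq_ray (hP : Pre (DX X) tt) (hg : GCo X) (hA : ∀ v ∈ A, tt v = 1) {x : Kc (Nn n)}
    (hx : x ∈ (cxKA hP A p).C q ⊓ WK X A (k + 1)) (hb : bd x ∈ WK X A k) :
    ∃ y ∈ KF X p q (k + 1),
      x - y ∈ ((cxKA hP A p).C (q + 1) ⊓ WK X A (k + 1)).map bd ⊔ WK X A k := by
  obtain ⟨u, hu, v, hv, rfl⟩ := Submodule.mem_sup.1 (ry_split hP hx)
  have hb' : bd u ∈ WK X A k := by
    simpa using sub_mem hb (ry_bd_W hP hv)
  obtain ⟨y, hy, h⟩ := ry_ind hP hg hA hu hb' (X.cells.biUnion X.ray)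
  refine ⟨y, cb_le (fun i w hw => (cb_ite hw).imp_right fun o => cb_ite'
    ⟨o.1.1, o.1.2.1, o.1.2.2.1, fun ρ hρ => o.1.2.2.2 ρ (Finset.mem_biUnion.2
      ⟨_, (top_spec o.1.1.2.1 (o.1.1.2.2.mono (cb_fp o.1.1.1))).1, hρ⟩) hρ⟩ o.2) hy, ?_⟩
  rw [add_sub_right_comm]
  refine add_mem ?_ (Submodule.mem_sup_right hv)
  obtain ⟨_, ⟨a, ha, rfl⟩, b, hb, e⟩ := Submodule.mem_sup.1 h
  exact e ▸ Submodule.add_mem_sup ⟨a, ry_le hP ha, rfl⟩ hb

end K2
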