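import Pool.Agent.Lib.MP_e9c0f3_ag.K2.SDefs

/-! Vector matroids, and the parallel connection of circuits. -/

open Module Submodule
open scoped Classical

noncomputable section

namespace H5T.SC

theorem rank_indep {E V : Type} [Finite E] [AddCommGroup V] [Module ℚ V] {g : E → V} {I : Set E}
    (h : LinearIndepOn ℚ g I) : finrank ℚ (span ℚ (g '' I)) = I.ncard := by
  have := Fintype.ofFinite I
  have := finrank_span_eq_card (R := ℚ) (b := fun i : I => g i) h
  rw [← Set.image_eq_range] at this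
  rw [this, ← Nat.card_coe_set_eq, Nat.card_eq_fintype_card]

/-- The matroid of a finite family of vectors. -/
theorem vec_matroid {E V : Type} [Finite E] [AddCommGroup V] [Module ℚ V] (g : E → V) :
    ∃ M : Matroid E, M.E = Set.univ ∧ M.eRank = finrank ℚ (span ℚ (Set.range g)) ∧
      ∀ F, M.IsFlat F ↔ ∀ e, g e ∈ span ℚ (g '' F) → e ∈ F := by
  obtain ⟨M, hE, hI⟩ : ∃ M : Matroid E, M.E = Set.univ ∧
      ∀ I, M.Indep I ↔ LinearIndepOn ℚ g I := by
    refine ⟨(IndepMatroid.ofFinite (E := Set.univ) Set.finite_univ (fun I => LinearIndepOn ℚ g I)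
      (linearIndepOn_empty _ _) (fun I J hJ h => hJ.mono h) (fun I J hI hJ h => ?_)
      fun _ _ => Set.subset_univ _).matroid, by simp, fun I => by simp⟩
    by_contra hn
    have hle : span ℚ (g '' J) ≤ span ℚ (g '' I) := by
      rw [span_le]
      rintro _ ⟨e, he, rfl⟩
      by_contra h1
      refine hn ⟨e, he, fun h2 => h1 (subset_span ⟨e, h2, rfl⟩), ?_⟩
      exact linearIndepOn_insert_iff.2 ⟨hI, fun h2 => absurd h2 h1⟩
    have : FiniteDimensional ℚ (span ℚ (g '' I)) :=
      FiniteDimensional.span_of_finite ℚ (Set.toFinite _)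
    have := finrank_mono hle
    rw [rank_indep hI, rank_indep hJ] at this
    omega
  have h1 : ∀ I, M.Indep I → ∀ e, e ∈ M.closure I ↔ g e ∈ span ℚ (g '' I) := fun I hi e => by
    rw [hi.mem_closure_iff', hI, linearIndepOn_insert_iff, hE]
    refine ⟨fun h => ?_, fun h => ⟨trivial, fun h2 => h2.2 h⟩⟩
    by_contra h2
    exact h2 (subset_span ⟨e, h.2 ⟨(hI I).1 hi, fun h3 => absurd h3 h2⟩, rfl⟩)
  have h2 : ∀ F e, e ∈ M.closure F ↔ g e ∈ span ℚ (g '' F) := fun F e => by
    obtain ⟨I, hb⟩ := M.exists_isBasis F (hE ▸ Set.subset_univ _)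
    rw [← hb.closure_eq_closure, h1 I hb.indep]
    refine ⟨fun h => span_mono (Set.image_mono hb.subset) h, fun h => (span_le.2 ?_) h⟩
    rintro _ ⟨f, hf, rfl⟩
    exact (h1 I hb.indep f).1 (hb.subset_closure hf)
  refine ⟨M, hE, ?_, fun F => ?_⟩
  · obtain ⟨B, hB⟩ := M.exists_isBase
    have : span ℚ (Set.range g) = span ℚ (g '' B) := by
      refine le_antisymm (span_le.2 ?_) (span_mono (Set.image_subset_range _ _))
      rintro _ ⟨e, rfl⟩
      exact (h2 B e).1 (by rw [hB.closure_eq, hE]; trivial)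
    rw [← hB.encard_eq_eRank, this, rank_indep ((hI B).1 hB.indep), (Set.toFinite B).cast_ncard_eq]
  · rw [Matroid.isFlat_iff_closure_eq]
    refine ⟨fun h e he => h ▸ (h2 F e).2 he, fun h => Set.Subset.antisymm
      (fun e he => h e ((h2 F e).1 he)) (M.subset_closure F (hE ▸ Set.subset_univ _))⟩

variable {k c : ℕ}

/-- The circuit of colour `i`. -/
def circ (κ : Fin k → Option (Fin c)) (i : Fin c) : Set (Option (Fin k)) :=
  {e | ∀ a, e = some a → κ a = some i}

/-- The relations of the circuits. -/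
def rel (κ : Fin k → Option (Fin c)) : (Option (Fin k) → ℚ) →ₗ[ℚ] (Fin c → ℚ) :=
  LinearMap.pi fun i => ∑ a with κ a = some i, LinearMap.proj (some a) - LinearMap.proj none

theorem rel_apply (κ : Fin k → Option (Fin c)) (y : Option (Fin k) → ℚ) (i : Fin c) :
    rel κ y i = ∑ a with κ a = some i, y (some a) - y none := by
  simp [rel, LinearMap.sum_apply]

theorem rel_some (κ : Fin k → Option (Fin c)) (a : Fin k) (i : Fin c) :
    rel κ (Pi.single (some a) 1) i = if κ a = some i then 1 else 0 := by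
  simp [rel_apply, Pi.single_apply, Finset.sum_ite_eq']

theorem rel_none (κ : Fin k → Option (Fin c)) (i : Fin c) : rel κ (Pi.single none 1) i = -1 := by
  simp [rel_apply]

theorem rel_surj {κ : Fin k → Option (Fin c)} (hκ : ∀ i, ∃ a, κ a = some i) :
    LinearMap.range (rel κ) = ⊤ := by
  rw [eq_top_iff, ← (Pi.basisFun ℚ (Fin c)).span_eq, span_le]
  rintro _ ⟨i, rfl⟩
  obtain ⟨a, ha⟩ := hκ i
  refine ⟨Pi.single (some a) 1, funext fun j => ?_⟩
  simp [rel_some, ha, Pi.single_apply, eq_comm]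

/-- A vector of the kernel that avoids `F` and is not zero at `e`. -/
theorem exists_ker {κ : Fin k → Option (Fin c)} {F : Set (Option (Fin k))}
    (h : ∀ i, ∀ e ∈ circ κ i, e ∉ F → ∃ e' ∈ circ κ i, e' ≠ e ∧ e' ∉ F) {e : Option (Fin k)}
    (he : e ∉ F) : ∃ y, rel κ y = 0 ∧ (∀ f ∈ F, y f = 0) ∧ y e ≠ 0 := by
  have h0 : none ∉ F → ∃ y, rel κ y = 0 ∧ (∀ f ∈ F, y f = 0) ∧ y none = 1 := fun hn => by
    have : ∀ i, ∃ a, κ a = some i ∧ some a ∉ F := fun i => by
      obtain ⟨e', h1, h2, h3⟩ := h i none (fun _ h => by cases h) hn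
      obtain ⟨a, rfl⟩ := Option.ne_none_iff_exists'.1 h2
      exact ⟨a, h1 a rfl, h3⟩
    choose r hr hF using this
    refine ⟨Pi.single none 1 + ∑ i, Pi.single (some (r i)) 1, funext fun j => ?_, fun f hf => ?_,
      by simp [Finset.sum_apply]⟩
    · simp [map_sum, Finset.sum_apply, rel_none, rel_some, hr]
    · have : f ≠ none := fun e => hn (e ▸ hf)
      have h2 : ∀ i, f ≠ some (r i) := fun i e => hF i (e ▸ hf)
      simp [Finset.sum_apply, this, h2]
  rcases e with _ | a
  · obtain ⟨y, h1, h2, h3⟩ := h0 he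
    exact ⟨y, h1, h2, by simp [h3]⟩
  have hs : ∀ b, some b ∉ F → ∀ f ∈ F,
      (Pi.single (some b) 1 : Option (Fin k) → ℚ) f = 0 := fun b hb f hf =>
    Pi.single_eq_of_ne (fun e : f = some b => hb (e ▸ hf)) _
  rcases hi : κ a with _ | i
  · exact ⟨Pi.single (some a) 1, funext fun j => by simp [rel_some, hi], hs a he, by simp⟩
  have two : ∀ b, κ b = some i → b ≠ a → some b ∉ F →
      ∃ y, rel κ y = 0 ∧ (∀ f ∈ F, y f = 0) ∧ y (some a) ≠ 0 := fun b h1 h2 h3 =>
    ⟨Pi.single (some a) 1 - Pi.single (some b) 1, funext fun j => by simp [rel_some, hi, h1],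
      fun f hf => by simp [hs a he f hf, hs b h3 f hf], by simp [h2.symm]⟩
  obtain ⟨e', h1, h2, h3⟩ := h i (some a) (fun b hb => by cases hb; exact hi) he
  rcases e' with _ | b
  swap
  · exact two b (h1 b rfl) (fun e => h2 (e ▸ rfl)) h3
  obtain ⟨y, y1, y2, y3⟩ := h0 h3
  by_cases y4 : y (some a) = 0
  swap
  · exact ⟨y, y1, y2, y4⟩
  have y5 := congrFun y1 i
  rw [rel_apply, y3, Pi.zero_apply, sub_eq_zero] at y5
  obtain ⟨b, hb, hb0⟩ := Finset.exists_ne_zero_of_sum_ne_zero (y5.trans_ne one_ne_zero)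
  exact two b (Finset.mem_filter.1 hb).2 (fun e => hb0 (e ▸ y4)) fun hf => hb0 (y2 _ hf)

/-- The parallel connection of circuits at the point `none`, with free elements. -/
theorem par_matroid {κ : Fin k → Option (Fin c)} (hκ : ∀ i, ∃ a, κ a = some i) :
    c ≤ k ∧ ∃ M : Matroid (Option (Fin k)), M.E = Set.univ ∧ M.eRank = (k - c : ℕ) + 1 ∧
      ∀ x, x ∈ Berg M ↔ ∀ i, ∀ e ∈ circ κ i, ∃ e' ∈ circ κ i, e' ≠ e ∧ x e' ≤ x e := by
  have hc : c ≤ k := by
    choose r hr using hκ
    simpa using Fintype.card_le_of_injective r fun i j e =>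
      Option.some_injective _ ((hr i).symm.trans (e ▸ hr j))
  let Y := LinearMap.ker (rel κ)
  let g : Option (Fin k) → Dual ℚ Y := fun e => (LinearMap.proj e).comp Y.subtype
  obtain ⟨M, hE, hr, hF⟩ := vec_matroid g
  have hfl : ∀ F, M.IsFlat F ↔
      ∀ i, ∀ e ∈ circ κ i, e ∉ F → ∃ e' ∈ circ κ i, e' ≠ e ∧ e' ∉ F := fun F => by
    rw [hF]
    refine ⟨fun h i e he hn => ?_, fun h e he => ?_⟩
    · by_contra hc
      have hin : ∀ e' ∈ circ κ i, e' ≠ e → g e' ∈ span ℚ (g '' F) := fun e' h1 h2 =>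
        subset_span ⟨e', by_contra fun h3 => hc ⟨e', h1, h2, h3⟩, rfl⟩
      have hs : ∑ a with κ a = some i, g (some a) = g none := by
        ext y
        have := congrFun (LinearMap.mem_ker.1 y.2) i
        rw [rel_apply, Pi.zero_apply, sub_eq_zero] at this
        simpa [g, LinearMap.sum_apply] using this
      refine hn (h e ?_)
      rcases e with _ | a
      · rw [← hs]
        exact sum_mem fun a ha => hin _ (fun b hb => by
          cases hb; exact (Finset.mem_filter.1 ha).2) (by simp)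
      · rw [← Finset.add_sum_erase _ _ (Finset.mem_filter.2 ⟨Finset.mem_univ a, he a rfl⟩)] at hs
        rw [eq_sub_of_add_eq hs]
        refine sub_mem (hin _ (fun _ h => by cases h) (by simp)) (sum_mem fun b hb => hin _
          (fun b' hb' => ?_) (by simpa using (Finset.mem_erase.1 hb).1))
        cases hb'
        exact (Finset.mem_filter.1 (Finset.mem_erase.1 hb).2).2
    · by_contra hn
      obtain ⟨y, y1, y2, y3⟩ := exists_ker h hn
      have : span ℚ (g '' F) ≤ LinearMap.ker (Dual.eval ℚ Y ⟨y, y1⟩) := by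
        rw [span_le]
        rintro _ ⟨f, hf, rfl⟩
        exact y2 f hf
      exact y3 (this he)
  refine ⟨hc, M, hE, ?_, fun x => ?_⟩
  · have h1 : span ℚ (Set.range g) = ⊤ := by
      rw [eq_top_iff]
      intro φ _
      obtain ⟨ψ, rfl⟩ := LinearMap.exists_extend φ
      have : ψ ∘ₗ Y.subtype = ∑ e, ψ (fun j => if e = j then 1 else 0) • g e := by
        ext y
        conv_lhs => rw [LinearMap.comp_apply, LinearMap.pi_apply_eq_sum_univ]
        simp [g, LinearMap.sum_apply, mul_comm]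
      rw [this]
      exact sum_mem fun e _ => smul_mem _ _ (subset_span ⟨e, rfl⟩)
    have h2 := LinearMap.finrank_range_add_finrank_ker (rel κ)
    rw [rel_surj hκ] at h2
    simp only [finrank_top, finrank_fintype_fun_eq_card, Fintype.card_fin,
      Fintype.card_option] at h2
    rw [hr, h1, finrank_top, Subspace.dual_finrank_eq]
    have : finrank ℚ Y = k - c + 1 := by
      change finrank ℚ (LinearMap.ker (rel κ)) = _
      omega
    rw [this]
    norm_cast
  · simp only [Berg, Set.mem_ofPred_eq, hfl, not_le]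
    refine ⟨fun h i e he => ?_, fun h t i e he hx => ?_⟩
    · by_contra hn
      have : ∀ᶠ t in nhdsWithin (x e) (Set.Ioi (x e)), ∀ e', x e < x e' → t < x e' :=
        Filter.eventually_all.2 fun e' => Filter.eventually_imp_distrib_left.2 fun h =>
          (gt_mem_nhds h |> mem_nhdsWithin_of_mem_nhds)
      obtain ⟨t, h1, h2⟩ := (this.and self_mem_nhdsWithin).exists
      obtain ⟨e', h3, h4, h5⟩ := h t i e he h2
      exact hn ⟨e', h3, h4, not_lt.1 fun h6 => lt_asymm h5 (h1 e' h6)⟩
    · obtain ⟨e', h1, h2, h3⟩ := h i e he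
      exact ⟨e', h1, h2, h3.trans_lt hx⟩

end H5T.SC
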