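import Pool.Agent.Lib.MP_e9c0f3_ag.K2.SDefs
import Pool.Agent.Lib.MP_e9c0f3_ag.CI.BlkA

/-! Simple complete intersections: the cells, and projectivity. -/

open Matrix
open scoped Classical

noncomputable section

namespace H5T.SC

variable {n m s c : ℕ} {b : Fin n → Fin m} {col : Fin s → Fin c} {ex : Fin s → Fin n → ℚ}
  {co : Fin s → ℝ} {R : ℝ} {X : TropCx n} {σ : Set (Pt n)}

theorem pt_mem (hσ : σ ∈ X.cells) : X.pt σ ∈ σ := intrinsicInterior_subset (X.pt_mem σ hσ)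

theorem cell_iff (h : X.IsCI b col ex co R) (hσ : σ ∈ X.cells) (x : Pt n) :
    x ∈ σ ↔ tops col ex co (X.pt σ) ⊆ tops col ex co x ∧ (∀ i, rv (fan b i) ⬝ᵥ x ≤ R) ∧
      ∀ j, rv (fan b j) ⬝ᵥ X.pt σ = R → rv (fan b j) ⬝ᵥ x = R := by
  obtain ⟨-, τ, J, hτ, e⟩ := (h.2.2.2.1 σ).1 hσ
  have m : ∀ y, y ∈ σ ↔ τ ⊆ tops col ex co y ∧ (∀ i, rv (fan b i) ⬝ᵥ y ≤ R) ∧
      ∀ j ∈ J, rv (fan b j) ⬝ᵥ y = R := fun y => by rw [e]; rfl
  have hp := (m _).1 (pt_mem hσ)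
  refine ⟨fun hx => ⟨fun a ha => ?_, ((m x).1 hx).2.1, fun j hj => ?_⟩,
    fun hx => (m x).2 ⟨hp.1.trans hx.1, hx.2.1, fun j hj => hx.2.2 j (hp.2.2 j hj)⟩⟩
  · obtain ⟨a', ha', hc⟩ := (hτ (col a)).nonempty
    have hc : col a' = col a := hc
    have := G33.tight (X.pt_mem σ hσ) (u := rv (ex a') - rv (ex a)) (c := co a - co a')
      (fun y hy => by
        rw [sub_dotProduct]
        linarith [((m y).1 hy).1 ha' a hc.symm])
      (by
        rw [sub_dotProduct]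
        linarith [hp.1 ha' a hc.symm, ha a' hc]) x hx
    rw [sub_dotProduct] at this
    intro a'' h''
    linarith [((m x).1 hx).1 ha' a'' (h''.trans hc.symm)]
  · have := G33.tight (X.pt_mem σ hσ) (u := -rv (fan b j)) (c := -R)
      (fun y hy => by
        rw [neg_dotProduct]
        linarith [((m y).1 hy).2.1 j]) (by rw [neg_dotProduct, hj]) x hx
    rw [neg_dotProduct] at this
    linarith

theorem box (h : X.IsCI b col ex co R) (hσ : σ ∈ X.cells) {x : Pt n} (hx : x ∈ σ) (i) :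
    rv (fan b i) ⬝ᵥ x ≤ R := ((cell_iff h hσ x).1 hx).2.1 i

theorem two (h : X.IsCI b col ex co R) (hσ : σ ∈ X.cells) (i : Fin c) :
    (tops col ex co (X.pt σ) ∩ col ⁻¹' {i}).Nontrivial := by
  obtain ⟨-, τ, J, hτ, e⟩ := (h.2.2.2.1 σ).1 hσ
  have hp := pt_mem hσ
  have : τ ⊆ tops col ex co (X.pt σ) := (e.subset hp).1
  exact (hτ i).mono (Set.inter_subset_inter_left _ this)

theorem mem_ray (h : X.IsCI b col ex co R) (hσ : σ ∈ X.cells) {r : Fin n → ℚ} :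
    r ∈ X.ray σ ↔ ∃ j, rv (fan b j) ⬝ᵥ X.pt σ = R ∧ fan b j = r := by
  rw [← Finset.mem_coe, h.2.2.2.2 σ hσ]
  exact ⟨fun ⟨j, h1, h2⟩ => ⟨j, h1 _ (pt_mem hσ), h2⟩,
    fun ⟨j, h1, h2⟩ => ⟨j, fun x hx => ((cell_iff h hσ x).1 hx).2.2 j h1, h2⟩⟩

/-- The maximal monomials are extremal in the directions of the rays. -/
theorem face (h : X.IsCI b col ex co R) (hσ : σ ∈ X.cells) {r : Fin n → ℚ} (hr : r ∈ X.ray σ)
    {a : Fin s} (ha : a ∈ tops col ex co (X.pt σ)) {a' : Fin s} (hc : col a' = col a) :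
    ex a' ⬝ᵥ r ≤ ex a ⬝ᵥ r := by
  obtain ⟨j, hj, rfl⟩ := (mem_ray h hσ).1 hr
  exact h.2.2.1 _ j (box h hσ (pt_mem hσ)) hj a ha a' hc

theorem obtuse (b : Fin n → Fin m) {j l : Fin m ⊕ Fin n} (h : j ≠ l) :
    fan b j ⬝ᵥ fan b l ≤ 0 := by
  refine Finset.sum_nonpos fun k _ => ?_
  rcases j with t | i <;> rcases l with u | i' <;>
    simp only [fan, Sum.elim_inl, Sum.elim_inr, Pi.neg_apply, Pi.single_apply] <;>
    split_ifs <;> simp_all

/-- Prescribed nonnegative products with the facets through a point. -/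
theorem exists_eps (b : Fin n → Fin m) (hR : 0 < R) (x : Pt n) (y : Fin m ⊕ Fin n → ℚ)
    (hy : ∀ j, 0 ≤ y j) : ∃ ε : Fin m ⊕ Fin n → ℚ, (∀ j, 0 ≤ ε j) ∧
      (∀ j, rv (fan b j) ⬝ᵥ x ≠ R → ε j = 0) ∧
      ∀ l, rv (fan b l) ⬝ᵥ x = R → ∑ j, ε j * fan b j ⬝ᵥ fan b l = y l := by
  have : ∀ j, ∃ μ : Fin m ⊕ Fin n → ℚ, (∀ i, 0 ≤ μ i) ∧ (∀ i, rv (fan b i) ⬝ᵥ x ≠ R → μ i = 0) ∧
      ∀ l, rv (fan b l) ⬝ᵥ x = R →
        ∑ i, μ i * fan b i ⬝ᵥ fan b l = if j = l then 1 else 0 := fun j => by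
    by_cases hj : rv (fan b j) ⬝ᵥ x = R
    · obtain ⟨μ, h1, h2, h3, h4⟩ := Cis.blk_cut (c := 0) (α := Empty) b Empty.elim Empty.elim
        Empty.elim hR x j hj
      refine ⟨μ, h1, h2, fun l hl => ?_⟩
      have e : ∑ i, μ i * fan b i ⬝ᵥ fan b l = bfan b l ⬝ᵥ ∑ i, μ i • bfan b i := by
        rw [dotProduct_comm, sum_dotProduct]
        simp only [smul_dotProduct, smul_eq_mul]
        rfl
      rw [e]
      split_ifs with h5
      · exact h5 ▸ h3
      · exact h4 l hl (Ne.symm h5)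
    · exact ⟨0, fun _ => le_rfl, fun _ _ => rfl, fun l hl => by
        rw [if_neg fun e : j = l => hj (e ▸ hl)]
        simp⟩
  choose μ h1 h2 h3 using this
  refine ⟨fun i => ∑ j, y j * μ j i, fun i => Finset.sum_nonneg fun j _ =>
    mul_nonneg (hy j) (h1 j i), fun i hi => by simp [h2 _ i hi], fun l hl => ?_⟩
  simp only [Finset.sum_mul, mul_assoc]
  rw [Finset.sum_comm]
  simp [← Finset.mul_sum, h3 _ l hl]

/-- The sum over all monomials of the maximum of their colour. -/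
def smax {K : Type} [LinearOrder K] [AddCommMonoid K] (col : Fin s → Fin c) (φ : Fin s → K) : K :=
  ∑ a, (Finset.univ.filter (col · = col a)).sup' ⟨a, by simp⟩ φ

theorem smax_spec {K : Type} [LinearOrder K] [AddCommGroup K] [IsOrderedAddMonoid K]
    (φ : Fin s → K) {g : Fin s → Fin s} (hg : ∀ a, col (g a) = col a) :
    ∑ a, φ (g a) ≤ smax col φ ∧
      (∑ a, φ (g a) = smax col φ ↔ ∀ a a', col a' = col (g a) → φ a' ≤ φ (g a)) := by
  have h1 : ∀ a ∈ (Finset.univ : Finset (Fin s)),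
      φ (g a) ≤ (Finset.univ.filter (col · = col a)).sup' ⟨a, by simp⟩ φ := fun a _ =>
    Finset.le_sup' φ (by simp [hg])
  refine ⟨Finset.sum_le_sum h1, (Finset.sum_eq_sum_iff_of_le h1).trans
    ⟨fun h a a' ha => ?_, fun h a _ => (h1 a (Finset.mem_univ a)).antisymm ?_⟩⟩
  · rw [h a (Finset.mem_univ a)]
    exact Finset.le_sup' φ (by simp [ha, hg])
  · exact Finset.sup'_le _ _ fun a' ha' => h a a' (by simpa [hg] using ha')

/-- A simple complete intersection is projective. -/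
theorem proj (h : X.IsCI b col ex co R) : X.Proj := by
  refine ⟨fun x => smax col fun a => rv (ex a) ⬝ᵥ x + co a,
    fun r => (smax col fun a => ex a ⬝ᵥ r) + 1, fun σ hσ J hJ => ?_⟩
  obtain ⟨g, g1, g2, g3⟩ : ∃ g : Fin s → Fin s, (∀ a, col (g a) = col a) ∧
      (∀ a, g a ∈ tops col ex co (X.pt σ)) ∧ ∀ a ∈ tops col ex co (X.pt σ), g a = a := by
    choose f f1 f2 using fun i => (two h hσ i).nonempty
    refine ⟨fun a => if a ∈ tops col ex co (X.pt σ) then a else f (col a), fun a => ?_,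
      fun a => ?_, fun a ha => if_pos ha⟩
    · dsimp only
      split_ifs
      exacts [rfl, f2 _]
    · dsimp only
      split_ifs with ha
      exacts [ha, f1 _]
  obtain ⟨ε, e1, e2, e3⟩ := exists_eps b h.1 (X.pt σ) (fun j => if fan b j ∈ J then 1 else 1 / 2)
    fun j => by split_ifs <;> norm_num
  have e4 : ∀ l, ε l = 0 → ∑ j, ε j * fan b j ⬝ᵥ fan b l ≤ 0 := fun l hl =>
    Finset.sum_nonpos fun j _ => by
      by_cases e : j = l
      · simp [e, hl]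
      · exact mul_nonpos_of_nonneg_of_nonpos (e1 j) (obtuse b e)
  have e5 : ∀ l, rv (fan b l) ⬝ᵥ X.pt σ = R → ε l ≠ 0 := fun l hl e => by
    have := e4 l e
    rw [e3 l hl] at this
    split_ifs at this <;> norm_num at this
  refine ⟨∑ a, ex (g a) + ∑ j, ε j • fan b j, ∑ a, co (g a) - ∑ j, ε j * R,
    fun ρ hρ => ⟨fun x hx => ?_, fun r hr => ?_⟩⟩
  · obtain ⟨s1, s2⟩ := smax_spec (fun a => rv (ex a) ⬝ᵥ x + co a) g1
    have t1 : ∀ j ∈ (Finset.univ : Finset (Fin m ⊕ Fin n)),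
        ε j * rv (fan b j) ⬝ᵥ x ≤ ε j * R := fun j _ =>
      mul_le_mul_of_nonneg_left (box h hρ hx j) (by exact_mod_cast e1 j)
    have t2 := Finset.sum_le_sum t1
    have t3 := Finset.sum_eq_sum_iff_of_le t1
    have e : rv (∑ a, ex (g a) + ∑ j, ε j • fan b j) ⬝ᵥ x + (∑ a, co (g a) - ∑ j, ε j * R) =
        ∑ a, (rv (ex (g a)) ⬝ᵥ x + co (g a)) +
          (∑ j, ε j * rv (fan b j) ⬝ᵥ x - ∑ j, ε j * R) := by
      simp only [map_add, map_sum, map_smul, add_dotProduct, sum_dotProduct, smul_dotProduct,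
        Finset.sum_add_distrib, Rat.smul_def]
      ring
    rw [e, cell_iff h hσ]
    refine ⟨by linarith, fun t => ⟨fun a ha => ?_, box h hρ hx, fun j hj => ?_⟩, fun t => ?_⟩
    · have := s2.1 (by linarith) a
      rwa [g3 a ha] at this
    · exact mul_left_cancel₀ (by exact_mod_cast e5 j hj) (t3.1 (by linarith) j (Finset.mem_univ _))
    · rw [s2.2 fun a => t.1 (g2 a), t3.2 fun j _ => ?_, sub_self, add_zero]
      by_cases hj : rv (fan b j) ⬝ᵥ X.pt σ = R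
      · rw [t.2.2 j hj]
      · simp [e2 j hj]
  · obtain ⟨s1, s2⟩ := smax_spec (fun a => ex a ⬝ᵥ r) g1
    have e : (∑ a, ex (g a) + ∑ j, ε j • fan b j) ⬝ᵥ r =
        ∑ a, ex (g a) ⬝ᵥ r + ∑ j, ε j * fan b j ⬝ᵥ r := by
      simp only [add_dotProduct, sum_dotProduct, smul_dotProduct, smul_eq_mul]
    rw [e]
    by_cases hs : r ∈ X.ray σ
    · rw [s2.2 fun a a' ha => face h hσ hs (g2 a) ha]
      obtain ⟨l, hl, rfl⟩ := (mem_ray h hσ).1 hs
      rw [e3 l hl]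
      split_ifs with hm <;> norm_num [hm]
    · obtain ⟨l, -, rfl⟩ := (mem_ray h hρ).1 hr
      have := e4 l (e2 l fun hl => hs ((mem_ray h hσ).2 ⟨l, hl, rfl⟩))
      exact ⟨by linarith, fun t => by linarith, fun t => absurd (hJ t) hs⟩

end H5T.SC
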