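import Pool.Agent.Lib.MP_e9c0f3_ag.K2.SCB

/-! Simple complete intersections: the tangent cones. -/

open Matrix Filter Topology
open scoped Classical

noncomputable section

namespace H5T.SC

/-- A feasible complementarity problem with an obtuse matrix has a solution. -/
theorem lcp {ι : Type} [Fintype ι] (G : ι → ι → ℝ) (hG : ∀ j k, j ≠ k → G j k ≤ 0) (J : Set ι)
    (q a₀ : ι → ℝ) (h0 : 0 ≤ a₀) (hf : ∀ k ∈ J, q k ≤ ∑ j, a₀ j * G j k) (hJ : ∀ j ∉ J, a₀ j = 0) :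
    ∃ a : ι → ℝ, 0 ≤ a ∧ (∀ k ∈ J, q k ≤ ∑ j, a j * G j k) ∧
      ∀ k, a k ≠ 0 → k ∈ J ∧ q k = ∑ j, a j * G j k := by
  have hK : IsCompact (Set.Icc 0 a₀ ∩ ⋂ k ∈ J, {a : ι → ℝ | q k ≤ ∑ j, a j * G j k}) :=
    isCompact_Icc.inter_right (isClosed_biInter fun k _ =>
      isClosed_le continuous_const (by fun_prop))
  obtain ⟨a, ⟨⟨h1, h2⟩, h3⟩, hm⟩ := hK.exists_isMinOn ⟨a₀, ⟨h0, le_rfl⟩, by simpa using hf⟩
    (f := fun a => ∑ j, a j) (by fun_prop)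
  simp only [Set.mem_iInter, Set.mem_ofPred_eq] at h3
  refine ⟨a, h1, h3, fun k hk => ?_⟩
  have hkJ : k ∈ J := by_contra fun h => hk (le_antisymm ((h2 k).trans_eq (hJ k h)) (h1 k))
  refine ⟨hkJ, (h3 k hkJ).eq_of_not_lt fun hl => ?_⟩
  have e1 : ∀ᶠ t in 𝓝 (0 : ℝ), t < a k := gt_mem_nhds ((h1 k).lt_of_ne' hk)
  have e2 : ∀ᶠ t in 𝓝 (0 : ℝ), q k < ∑ j, a j * G j k - t * G k k :=
    (continuousAt_const (y := q k)).eventually_lt (by fun_prop) (by simpa using hl)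
  obtain ⟨t, ⟨t1, t2⟩, t3⟩ := (((e1.and e2).filter_mono nhdsWithin_le_nhds).and
    (self_mem_nhdsWithin (s := Set.Ioi (0 : ℝ)))).exists
  have t3 : 0 < t := t3
  have hs : ∀ φ : ι → ℝ, ∑ j, (a - Pi.single k t : ι → ℝ) j * φ j = ∑ j, a j * φ j - t * φ k :=
    fun φ => by simp [sub_mul, Pi.single_apply]
  have := hm (a := a - Pi.single k t) ⟨⟨fun j => ?_, fun j => ?_⟩, ?_⟩
  · have h4 := hs fun _ => 1
    simp only [mul_one] at h4
    simp only [Set.mem_ofPred_eq, h4] at this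
    linarith
  · have := h1 j
    by_cases e : j = k
    · simpa [e] using t1.le
    · simpa [e] using this
  · have := h2 j
    by_cases e : j = k
    · subst e
      simp only [Pi.sub_apply, Pi.single_eq_same]
      linarith
    · simpa [e] using this
  · simp only [Set.mem_iInter, Set.mem_ofPred_eq]
    intro l hl
    rw [hs fun j => G j l]
    by_cases e : k = l
    · exact e ▸ t2.le
    · nlinarith [h3 l hl, hG k l e]

variable {n m s c : ℕ} {b : Fin n → Fin m} {col : Fin s → Fin c} {ex : Fin s → Fin n → ℚ}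
  {co : Fin s → ℝ} {R : ℝ} {X : TropCx n} {σ : Set (Pt n)}

/-- The maximum over the monomials in `τ` of every colour is attained twice. -/
def Loc (col : Fin s → Fin c) (ex : Fin s → Fin n → ℚ) (τ : Set (Fin s)) : Set (Pt n) :=
  {v | ∀ a ∈ τ, ∃ a' ∈ τ, a' ≠ a ∧ col a' = col a ∧ rv (ex a) ⬝ᵥ v ≤ rv (ex a') ⬝ᵥ v}

theorem face_real (h : X.IsCI b col ex co R) (hσ : σ ∈ X.cells) {r : Fin n → ℚ}
    (hr : r ∈ X.ray σ) {a : Fin s} (ha : a ∈ tops col ex co (X.pt σ)) {a' : Fin s}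
    (hc : col a' = col a) : rv (ex a') ⬝ᵥ rv r ≤ rv (ex a) ⬝ᵥ rv r := by
  rw [G33.rv_dot, G33.rv_dot]
  exact_mod_cast face h hσ hr ha hc

theorem tc_le (h : X.IsCI b col ex co R) (hσ : σ ∈ X.cells) :
    X.Tc σ ⊆ Loc col ex (tops col ex co (X.pt σ)) := by
  rintro _ ⟨η, hη, hs, x, hx, t, w, ht, hw, rfl⟩ a ha
  obtain ⟨a', ⟨h1, h2⟩, h3⟩ := (two h hη (col a)).exists_ne a
  have h2 : col a' = col a := h2
  have h4 := ((cell_iff h hη _).1 (hs (pt_mem hσ))).1 h1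
  refine ⟨a', h4, h3, h2, ?_⟩
  simp only [dotProduct_add, dotProduct_smul, dotProduct_sub, dotProduct_sum, smul_eq_mul]
  refine add_le_add (mul_le_mul_of_nonneg_left ?_ ht) (Finset.sum_le_sum fun r hr =>
    mul_le_mul_of_nonneg_left (face_real h hη hr h1 h2.symm) (hw r))
  linarith [((cell_iff h hη _).1 hx).1 h1 a h2.symm, ha a' h2]

theorem le_tc (h : X.IsCI b col ex co R) (hσ : σ ∈ X.cells) :
    Loc col ex (tops col ex co (X.pt σ)) ⊆ X.Tc σ := by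
  intro v hv
  choose y hy using fun j => exists_rat_gt (max 0 (rv (fan b j) ⬝ᵥ v))
  obtain ⟨ε, e1, e2, e3⟩ := exists_eps b h.1 (X.pt σ) y fun j => by
    exact_mod_cast ((le_max_left _ _).trans_lt (hy j)).le
  obtain ⟨w, w0, w1, w2⟩ := lcp (fun j k => rv (fan b k) ⬝ᵥ rv (fan b j))
    (fun j k e => by
      rw [G33.rv_dot]
      exact_mod_cast obtuse b e.symm)
    {j | rv (fan b j) ⬝ᵥ X.pt σ = R} (fun j => rv (fan b j) ⬝ᵥ v) (fun j => ε j)
    (fun j => Rat.cast_nonneg.2 (e1 j))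
    (fun k hk => by
      refine ((le_max_right _ _).trans_lt (hy k)).le.trans_eq ?_
      simp only [← e3 k hk, G33.rv_dot, dotProduct_comm (fan b k)]
      push_cast
      rfl)
    fun j hj => by simp [e2 j hj]
  obtain ⟨u, hu⟩ : ∃ u, u = v - ∑ j, w j • rv (fan b j) := ⟨_, rfl⟩
  have hd : ∀ z : Pt n, z ⬝ᵥ u = z ⬝ᵥ v - ∑ j, w j * z ⬝ᵥ rv (fan b j) := fun z => by
    simp only [hu, dotProduct_sub, dotProduct_sum, dotProduct_smul, smul_eq_mul]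
  have c1 : ∀ (z z' : Pt n) (k k' : ℝ), ∀ᶠ t in 𝓝 (0 : ℝ), z ⬝ᵥ X.pt σ + k < z' ⬝ᵥ X.pt σ + k' →
      z ⬝ᵥ (X.pt σ + t • u) + k < z' ⬝ᵥ (X.pt σ + t • u) + k' := fun z z' k k' =>
    eventually_imp_distrib_left.2 fun hl => ContinuousAt.eventually_lt (by fun_prop) (by fun_prop)
      (by simpa using hl)
  obtain ⟨t, ⟨t1, t2⟩, t3⟩ := ((((eventually_all.2 fun j => c1 (rv (fan b j)) 0 0 R).and
    (eventually_all.2 fun a => eventually_all.2 fun a' =>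
      c1 (rv (ex a)) (rv (ex a')) (co a) (co a'))).filter_mono nhdsWithin_le_nhds).and
    (self_mem_nhdsWithin (s := Set.Ioi (0 : ℝ)))).exists
  have t3 : 0 < t := t3
  simp only [zero_dotProduct, add_zero, zero_add] at t1
  obtain ⟨x, hx⟩ : ∃ x, x = X.pt σ + t • u := ⟨_, rfl⟩
  have hxd : ∀ z : Pt n, z ⬝ᵥ x = z ⬝ᵥ X.pt σ + t * z ⬝ᵥ u := fun z => by
    simp only [hx, dotProduct_add, dotProduct_smul, smul_eq_mul]
  rw [← hx] at t1 t2
  have hp := box h hσ (pt_mem hσ)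
  have x1 : ∀ j, rv (fan b j) ⬝ᵥ x ≤ R := fun j => by
    rcases (hp j).eq_or_lt with e | e
    · rw [hxd, e, hd]
      nlinarith [w1 j e]
    · exact (t1 j e).le
  have x2 : tops col ex co x ⊆ tops col ex co (X.pt σ) := fun a ha a' hc =>
    not_lt.1 fun hl => (t2 a a' hl).not_ge (ha a' hc)
  have x3 : ∀ j, rv (fan b j) ⬝ᵥ x = R → rv (fan b j) ⬝ᵥ X.pt σ = R := fun j hj =>
    (hp j).eq_of_not_lt fun hl => (t1 j hl).ne hj
  have x4 : ∀ i, (tops col ex co x ∩ col ⁻¹' {i}).Nontrivial := fun i => by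
    obtain ⟨a₀, -, h0⟩ := (two h hσ i).nonempty
    obtain ⟨a, ha, hm⟩ := (Finset.univ.filter (col · = i)).exists_max_image
      (fun a => rv (ex a) ⬝ᵥ x + co a) ⟨a₀, by simpa using h0⟩
    have hi : col a = i := by simpa using ha
    have h1 : a ∈ tops col ex co x := fun a' h' => hm a' (by simp [h', hi])
    obtain ⟨a', h2, h3, h4, h5⟩ := hv a (x2 h1)
    refine ⟨a', ⟨fun a'' h'' => (h1 a'' (h''.trans h4)).trans ?_, h4.trans hi⟩, a, ⟨h1, hi⟩, h3⟩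
    have h6 : ∑ j, w j * rv (ex a') ⬝ᵥ rv (fan b j) ≤ ∑ j, w j * rv (ex a) ⬝ᵥ rv (fan b j) :=
      Finset.sum_le_sum fun j _ => by
        by_cases e : w j = 0
        · simp [e]
        · exact mul_le_mul_of_nonneg_left
            (face_real h hσ ((mem_ray h hσ).2 ⟨j, (w2 j e).1, rfl⟩) (x2 h1) h4) (w0 j)
    rw [hxd, hxd, hd, hd]
    nlinarith [h2 a h4.symm]
  obtain ⟨η, hη⟩ : ∃ η, η = {y | tops col ex co x ⊆ tops col ex co y ∧
    (∀ i, rv (fan b i) ⬝ᵥ y ≤ R) ∧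
      ∀ j ∈ {j | rv (fan b j) ⬝ᵥ x = R}, rv (fan b j) ⬝ᵥ y = R} := ⟨_, rfl⟩
  have hxη : x ∈ η := hη ▸ ⟨subset_rfl, x1, fun j hj => hj⟩
  have hc : η ∈ X.cells := (h.2.2.2.1 η).2 ⟨⟨x, hxη⟩, _, _, x4, hη⟩
  have hr : ∀ j, w j ≠ 0 → fan b j ∈ X.ray η := fun j hj => by
    rw [← Finset.mem_coe, h.2.2.2.2 η hc]
    refine ⟨j, fun y hy => (hη.subset hy).2.2 j ?_, rfl⟩
    have := (w2 j hj).1
    change _ = R at this ⊢
    rw [hxd, this, hd, (w2 j hj).2]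
    simp
  refine ⟨η, hc, fun y hy => ?_, x, hxη, t⁻¹, fun r => ∑ j with fan b j = r, w j,
    inv_nonneg.2 t3.le, fun r => Finset.sum_nonneg fun j _ => w0 j, ?_⟩
  · have := (cell_iff h hσ y).1 hy
    exact hη ▸ ⟨x2.trans this.1, this.2.1, fun j hj => this.2.2 j (x3 j hj)⟩
  · rw [hx, add_sub_cancel_left, inv_smul_smul₀ t3.ne', hu]
    simp only [Finset.sum_smul, Finset.sum_filter, ite_smul, zero_smul]
    rw [Finset.sum_comm, ← sub_eq_iff_eq_add', sub_sub_cancel]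
    refine Finset.sum_congr rfl fun j _ => ?_
    rw [Finset.sum_ite_eq]
    split_ifs with e
    · rfl
    · rw [of_not_not (mt (hr j) e), zero_smul]

theorem tc_eq (h : X.IsCI b col ex co R) (hσ : σ ∈ X.cells) :
    X.Tc σ = Loc col ex (tops col ex co (X.pt σ)) := (tc_le h hσ).antisymm (le_tc h hσ)

theorem tc_add (h : X.IsCI b col ex co R) (hσ : σ ∈ X.cells) :
    ∀ r ∈ X.ray σ, ∀ v ∈ X.Tc σ, v + rv r ∈ X.Tc σ := by
  rw [tc_eq h hσ]
  intro r hr v hv a ha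
  obtain ⟨a', h1, h2, h3, h4⟩ := hv a ha
  refine ⟨a', h1, h2, h3, ?_⟩
  rw [dotProduct_add, dotProduct_add]
  exact add_le_add h4 (face_real h hσ hr h1 h3.symm)

end H5T.SC
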