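import Pool.Agent.Lib.MP_e9c0f3_ag.K2.SCA
import Pool.Agent.Lib.MP_e9c0f3_ag.K2.SCC

/-! Complete intersections with a unimodular Cayley triangulation are smooth and projective. -/

open Matrix Module
open scoped Classical

noncomputable section

namespace H5T.SC

/-- Integral vectors with a dual family are rows of a unimodular matrix. -/
theorem complete {n : ℕ} {T : Type} [Fintype T] (δ w : T → Fin n → ℤ)
    (h : ∀ a a', δ a' ⬝ᵥ w a = if a' = a then 1 else 0) :
    ∃ (P A : Matrix (Fin n) (Fin n) ℤ) (e : T → Fin n), Function.Injective e ∧ P * A = 1 ∧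
      ∀ a, P (e a) = δ a := by
  let D : (Fin n → ℤ) →ₗ[ℤ] (T → ℤ) := Matrix.mulVecLin (Matrix.of δ)
  let W : (T → ℤ) →ₗ[ℤ] (Fin n → ℤ) := Matrix.vecMulLinear (Matrix.of w)
  have hDW : ∀ y, D (W y) = y := fun y => by
    have : Matrix.of δ * (Matrix.of w)ᵀ = 1 := by
      ext a' a
      rw [one_apply, ← h]
      rfl
    simp only [D, W, mulVecLin_apply, vecMulLinear_apply]
    rw [← mulVec_transpose, mulVec_mulVec, this, one_mulVec]
  let Q : (Fin n → ℤ) →ₗ[ℤ] LinearMap.ker D :=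
    (LinearMap.id - W ∘ₗ D).codRestrict _ fun v => by simp [hDW]
  have hb : Function.Bijective (D.prod Q) := by
    refine ⟨(injective_iff_map_eq_zero _).2 fun v hv => ?_, fun ⟨y, k⟩ => ⟨W y + k, ?_⟩⟩
    · have h1 : D v = 0 := congrArg Prod.fst hv
      have h2 : v - W (D v) = 0 := congrArg (fun z => (z.2 : Fin n → ℤ)) hv
      simpa [h1] using h2
    · have hk : D k = 0 := k.2
      refine Prod.ext (by simp [hDW, hk]) (Subtype.ext ?_)
      change W y + k - W (D (W y + k)) = k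
      simp [hDW, hk]
  let Φ := (LinearEquiv.ofBijective _ hb).trans (((LinearEquiv.refl ℤ _).prodCongr
    (finBasis ℤ (LinearMap.ker D)).equivFun).trans (LinearEquiv.sumArrowLequivProdArrow _ _ ℤ ℤ).symm)
  have hc := Φ.finrank_eq
  rw [finrank_fintype_fun_eq_card, finrank_fintype_fun_eq_card, Fintype.card_fin] at hc
  let e := Fintype.equivFinOfCardEq hc.symm
  let Ψ := Φ.trans (LinearEquiv.funCongrLeft ℤ ℤ e.symm)
  refine ⟨LinearMap.toMatrix' Ψ.toLinearMap, LinearMap.toMatrix' Ψ.symm.toLinearMap,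
    fun a => e (.inl a), e.injective.comp Sum.inl_injective, ?_, fun a => funext fun j => ?_⟩
  · rw [← LinearMap.toMatrix'_comp]
    simp
  · simp [Ψ, Φ, D, LinearMap.toMatrix'_apply, LinearMap.funLeft_apply]

variable {n m s c : ℕ} {b : Fin n → Fin m} {col : Fin s → Fin c} {co : Fin s → ℝ} {R : ℝ}
  {X : TropCx n}

theorem chart {ex : Fin s → Fin n → ℤ} {τ : Set (Fin s)} (h2 : ∀ i, (τ ∩ col ⁻¹' {i}).Nontrivial)
    (hu : ∀ a ∈ τ, ∃ (y : Fin c → ℤ) (w : Fin n → ℤ), ∀ a' ∈ τ,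
      y (col a') + ex a' ⬝ᵥ w = if a' = a then 1 else 0) :
    ∃ (M : Matroid (Option (Fin n))) (A P : Matrix (Fin n) (Fin n) ℤ), M.E = Set.univ ∧
      M.eRank = (n - c : ℕ) + 1 ∧ P * A = 1 ∧ Loc col (fun a i => (ex a i : ℚ)) τ =
        {v | ∃ z : Fin n → ℝ, (fun i => i.elim 0 z) ∈ Berg M ∧
          v = A.map (Int.cast : ℤ → ℝ) *ᵥ z} := by
  choose r r1 r2 using fun i => (h2 i).nonempty
  have r2 : ∀ i, col (r i) = i := r2
  choose! y w hw using hu
  obtain ⟨P, A, e, he, hPA, hP⟩ := complete (T := {a // a ∈ τ ∧ a ≠ r (col a)})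
    (fun a => ex (r (col a)) - ex a) (fun a => -w a) fun a a' => by
      have h1 := hw a a.2.1 a' a'.2.1
      have h3 := hw a a.2.1 _ (r1 (col a'))
      rw [if_neg fun e => a.2.2 (by rw [← e, r2]), r2] at h3
      simp only [dotProduct_neg, sub_dotProduct, Subtype.ext_iff]
      linarith
  let κ : Fin n → Option (Fin c) := Function.extend e (fun a => some (col a)) fun _ => none
  have k1 : ∀ a, κ (e a) = some (col a) := fun a => he.extend_apply _ _ a
  have k2 : ∀ j i, κ j = some i → ∃ a, e a = j ∧ col a = i := fun j i hj => by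
    by_cases h : ∃ a, e a = j
    · obtain ⟨a, rfl⟩ := h
      exact ⟨a, rfl, Option.some_injective _ ((k1 a).symm.trans hj)⟩
    · simp [κ, Function.extend_apply' _ _ _ h] at hj
  obtain ⟨-, M, hE, hr, hB⟩ := par_matroid (κ := κ) fun i => by
    obtain ⟨a, ⟨h1, h3⟩, h4⟩ := (h2 i).exists_ne (r i)
    have h3 : col a = i := h3
    exact ⟨e ⟨a, h1, h3 ▸ h4⟩, (k1 _).trans (congrArg some h3)⟩
  let φ : Fin s → Option (Fin n) := fun a =>
    if h : a ∈ τ ∧ a ≠ r (col a) then some (e ⟨a, h⟩) else none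
  have p0 : ∀ i, φ (r i) = none := fun i => dif_neg fun h => h.2 (by rw [r2])
  have p1 : ∀ a, φ a ∈ circ κ (col a) := fun a j hj => by
    simp only [φ] at hj
    split_ifs at hj with h
    cases hj
    exact k1 _
  have p2 : ∀ i, ∀ o ∈ circ κ i, ∃ a ∈ τ, col a = i ∧ φ a = o := fun i o ho => by
    rcases o with _ | j
    · exact ⟨r i, r1 i, r2 i, p0 i⟩
    · obtain ⟨a, rfl, h⟩ := k2 j i (ho j rfl)
      exact ⟨a, a.2.1, h, dif_pos a.2⟩
  have p3 : ∀ a ∈ τ, ∀ a' ∈ τ, col a' = col a → φ a' = φ a → a' = a := fun a ha a' ha' hc h => by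
    simp only [φ] at h
    split_ifs at h with h1 h3 h3
    · exact congrArg Subtype.val (he (Option.some_injective _ h))
    · rw [of_not_not (mt (And.intro ha) h3), of_not_not (mt (And.intro ha') h1), hc]
  have p4 : ∀ (v : Pt n), ∀ a ∈ τ, (φ a).elim 0 (P.map (Int.cast : ℤ → ℝ) *ᵥ v) =
      rv (fun i => (ex (r (col a)) i : ℚ)) ⬝ᵥ v - rv (fun i => (ex a i : ℚ)) ⬝ᵥ v :=
    fun v a ha => by
      simp only [φ]
      split_ifs with h
      · simp [mulVec, dotProduct, hP, G33.rv_apply, sub_mul]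
      · rw [← of_not_not (mt (And.intro ha) h)]
        simp
  have m1 : ∀ B C : Matrix (Fin n) (Fin n) ℤ, B * C = 1 → ∀ v : Pt n,
      B.map (Int.cast : ℤ → ℝ) *ᵥ C.map (Int.cast : ℤ → ℝ) *ᵥ v = v := fun B C h v => by
    rw [mulVec_mulVec, ← show (B * C).map (Int.cast : ℤ → ℝ) = B.map Int.cast * C.map Int.cast from
      Matrix.map_mul (f := Int.castRingHom ℝ), h]
    simp
  have key : ∀ v, v ∈ Loc col (fun a i => (ex a i : ℚ)) τ ↔
      (fun i : Option (Fin n) => i.elim 0 (P.map (Int.cast : ℤ → ℝ) *ᵥ v)) ∈ Berg M := fun v => by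
    rw [hB]
    refine ⟨fun h i o ho => ?_, fun h a ha => ?_⟩
    · obtain ⟨a, ha, rfl, rfl⟩ := p2 i o ho
      obtain ⟨a', h1, h3, h4, h5⟩ := h a ha
      refine ⟨φ a', h4 ▸ p1 a', fun e => h3 (p3 a ha a' h1 h4 e), ?_⟩
      rw [p4 v a ha, p4 v a' h1, h4]
      linarith
    · obtain ⟨o, h1, h3, h4⟩ := h _ _ (p1 a)
      obtain ⟨a', ha', hc, rfl⟩ := p2 _ o h1
      refine ⟨a', ha', fun e => h3 (e ▸ rfl), hc, ?_⟩
      rw [p4 v a ha, p4 v a' ha', hc] at h4
      linarith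
  refine ⟨M, A, P, hE, hr, hPA, Set.ext fun v => ⟨fun hv => ⟨_, (key v).1 hv,
    (m1 A P (mul_eq_one_comm.1 hPA) v).symm⟩, ?_⟩⟩
  rintro ⟨z, hz, rfl⟩
  rwa [key, m1 P A hPA]

/-- A complete intersection with a unimodular Cayley triangulation is smooth. -/
theorem smooth {ex : Fin s → Fin n → ℤ} (h : X.IsCI b col (fun a i => ex a i) co R)
    (hu : ∀ x, ∀ a ∈ tops col (fun a i => ex a i) co x, ∃ (y : Fin c → ℤ) (w : Fin n → ℤ),
      ∀ a' ∈ tops col (fun a i => ex a i) co x,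
        y (col a') + ex a' ⬝ᵥ w = if a' = a then 1 else 0) : X.Smooth (n - c) := fun σ hσ => by
  refine ⟨(Cis.blk_bdd b col (fun a i => ex a i) co R).subset fun x hx => box h hσ hx,
    tc_add h hσ, n, ?_⟩
  rw [tc_eq h hσ]
  exact chart (two h hσ) (hu _)

end H5T.SC
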