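import Pool.Agent.Lib.MP_e9c0f3_ag.K2.SCD
import Pool.Agent.Lib.MP_e9c0f3_ag.CI.Ex

/-! Smooth hypersurfaces of all degrees in tropical projective space. -/

open Matrix Filter
open scoped Classical

noncomputable section

namespace H5T.SC

variable {n m s c : ℕ}

theorem cell_cis {b : Fin n → Fin m} {col : Fin s → Fin c} {ex : Fin s → Fin n → ℚ}
    {co : Fin s → ℝ} {R : ℝ} (σ : Set (Pt n)) :
    (∃ τ J, (∀ i, 2 ≤ (τ.filter ((Cis.blk b col ex co R).col · = i)).card) ∧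
      σ = (Cis.blk b col ex co R).cell τ J) ↔
    ∃ (τ : Set (Fin s)) (J : Set (Fin m ⊕ Fin n)), (∀ i, (τ ∩ col ⁻¹' {i}).Nontrivial) ∧
      σ = {x | τ ⊆ tops col ex co x ∧ (∀ i, rv (fan b i) ⬝ᵥ x ≤ R) ∧
        ∀ j ∈ J, rv (fan b j) ⬝ᵥ x = R} := by
  have e : ∀ (τ : Finset (Fin s)) i, 2 ≤ (τ.filter ((Cis.blk b col ex co R).col · = i)).card ↔
      ((τ : Set (Fin s)) ∩ col ⁻¹' {i}).Nontrivial := fun τ i => by
    rw [Nat.succ_le_iff, Finset.one_lt_card_iff_nontrivial, Finset.Nontrivial, Finset.coe_filter]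
    rfl
  constructor
  · rintro ⟨τ, J, hτ, rfl⟩
    refine ⟨τ, J, fun i => (e _ i).1 (hτ i), ?_⟩
    ext x
    exact ⟨fun h => ⟨h.2.1, h.1, h.2.2⟩, fun h => ⟨h.2.1, h.1, h.2.2⟩⟩
  · rintro ⟨τ, J, hτ, rfl⟩
    refine ⟨τ.toFinset, J.toFinset, fun i => (e _ i).2 (by simpa using hτ i), ?_⟩
    ext x
    simp only [Cis.cell, Set.mem_toFinset, Set.mem_ofPred_eq]
    exact ⟨fun h => ⟨h.2.1, h.1, h.2.2⟩, fun h => ⟨h.2.1, h.1, h.2.2⟩⟩

/-- An integral dual family gives linear independence. -/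
theorem indep_of_dual {col : Fin s → Fin c} {ex : Fin s → Fin n → ℤ} {τ : Set (Fin s)}
    (hu : ∀ a ∈ τ, ∃ (y : Fin c → ℤ) (w : Fin n → ℤ), ∀ a' ∈ τ,
      y (col a') + ex a' ⬝ᵥ w = if a' = a then 1 else 0) :
    LinearIndependent ℚ fun a : τ =>
      ((Pi.single (col a) 1 : Fin c → ℚ), fun i => (ex a i : ℚ)) := by
  rw [Fintype.linearIndependent_iff]
  intro g hg a
  obtain ⟨y, w, h⟩ := hu a a.2
  have h1 := congrArg (fun z : (Fin c → ℚ) × (Fin n → ℚ) =>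
    z.1 ⬝ᵥ (fun i => (y i : ℚ)) + z.2 ⬝ᵥ fun i => (w i : ℚ)) hg
  have h2 : ∀ a' : τ, g a' * y (col a') + g a' * (fun i => (ex a' i : ℚ)) ⬝ᵥ (fun i => (w i : ℚ)) =
      if a' = a then g a' else 0 := fun a' => by
    have := congrArg (Int.cast : ℤ → ℚ) (h a' a'.2)
    simp only [dotProduct, Subtype.ext_iff] at this ⊢
    push_cast at this
    rw [← mul_add, this, mul_ite, mul_one, mul_zero]
  simp only [Prod.fst_sum, Prod.snd_sum, Prod.smul_fst, Prod.smul_snd, sum_dotProduct,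
    smul_dotProduct, single_dotProduct, one_mul, smul_eq_mul, ← Finset.sum_add_distrib, h2] at h1
  simpa using h1

/-- Unimodular data with products of simplices as Newton polytopes give smooth projective
complete intersections. -/
theorem exists_smooth (b : Fin n → Fin m) (col : Fin s → Fin c) (ex : Fin s → Fin n → ℤ)
    (co : Fin s → ℝ) (δ : Fin c → Fin m → ℚ) (h0 : ∀ a k, 0 ≤ ex a k)
    (h1 : ∀ a t, (fun i => (ex a i : ℚ)) ⬝ᵥ fan b (.inl t) ≤ δ (col a) t)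
    (v : ∀ (i : Fin c) (κ : Fin m → Option (Fin n)), ∃ a, col a = i ∧
      (fun k => (ex a k : ℚ)) = fun k => if κ (b k) = some k then δ i (b k) else 0)
    (hu : ∀ x, ∀ a ∈ tops col (fun a i => ex a i) co x, ∃ (y : Fin c → ℤ) (w : Fin n → ℤ),
      ∀ a' ∈ tops col (fun a i => ex a i) co x,
        y (col a') + ex a' ⬝ᵥ w = if a' = a then 1 else 0) :
    ∀ᶠ R in atTop, ∃ X : TropCx n, X.IsCI b col (fun a i => ex a i) co R ∧
      X.Smooth (n - c) ∧ X.Proj := by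
  filter_upwards [Cis.blk_face b col (fun a i => ex a i) co δ
    (fun a k => Int.cast_nonneg (h0 a k)) h1 v, eventually_gt_atTop 0] with R hf hR
  have hG : (Cis.blk b col (fun a i => ex a i) co R).Good :=
    ⟨Cis.blk_bdd b col _ co R, fun x _ => indep_of_dual (hu x), hf,
      fun x _ j hj => Cis.blk_cut b col _ co hR x j hj⟩
  obtain ⟨X, hX⟩ := hG.exists_cx
  have h : X.IsCI b col (fun a i => ex a i) co R := ⟨hR, fun x => indep_of_dual (hu x),
    fun x j hx hj a ha => hf x hx j a hj ha, fun σ => by rw [hX.1, cell_cis], hX.2⟩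
  exact ⟨X, h, smooth h hu, proj h⟩

/-- In a chain whose differences are indicator vectors, lying above a member is affine. -/
theorem chain_up {e : Fin s → Fin n → ℤ} {τ : Set (Fin s)}
    (h : ∀ a ∈ τ, ∀ a' ∈ τ, e a ≤ e a' ∨ e a' ≤ e a)
    (h1 : ∀ a ∈ τ, ∀ a' ∈ τ, ∀ k, e a k ≤ e a' k + 1) {a : Fin s} (ha : a ∈ τ) :
    ∃ (y : ℤ) (w : Fin n → ℤ), ∀ a' ∈ τ, y + e a' ⬝ᵥ w = if e a < e a' then 1 else 0 := by
  by_cases hn : ∃ a' ∈ τ, e a < e a'
  swap
  · exact ⟨0, 0, fun a' ha' => by simp [show ¬ e a < e a' from fun h => hn ⟨a', ha', h⟩]⟩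
  obtain ⟨u, ⟨u1, u2⟩, hm⟩ := (Set.toFinite {a' ∈ τ | e a < e a'}).exists_minimalFor e _ hn
  obtain ⟨k, hk⟩ := (Pi.lt_def.1 u2).2
  refine ⟨-e a k, Pi.single k 1, fun a' ha' => ?_⟩
  rw [dotProduct_single, mul_one]
  split_ifs with hl
  · have : e u ≤ e a' := (h u u1 a' ha').elim id fun h => hm ⟨ha', hl⟩ h
    linarith [this k, h1 a' ha' a ha k]
  · have : e a' ≤ e a := (h a ha a' ha').elim (fun h => (h.eq_of_not_lt hl).ge) id
    linarith [this k, h1 u u1 a' ha' k]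

theorem chain_dual {e : Fin s → Fin n → ℤ} (he : Function.Injective e) {τ : Set (Fin s)}
    (h : ∀ a ∈ τ, ∀ a' ∈ τ, e a ≤ e a' ∨ e a' ≤ e a)
    (h1 : ∀ a ∈ τ, ∀ a' ∈ τ, ∀ k, e a k ≤ e a' k + 1) {a : Fin s} (ha : a ∈ τ) :
    ∃ (y : ℤ) (w : Fin n → ℤ), ∀ a' ∈ τ, y + e a' ⬝ᵥ w = if a' = a then 1 else 0 := by
  obtain ⟨y, w, h2⟩ := chain_up h h1 ha
  obtain ⟨y', w', h3⟩ := chain_up (e := fun a => -e a) (τ := τ)
    (fun a ha a' ha' => by simpa using (h a ha a' ha').symm)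
    (fun a ha a' ha' k => by
      simp only [Pi.neg_apply]
      linarith [h1 a' ha' a ha k]) ha
  refine ⟨1 - y - y', w' - w, fun a' ha' => ?_⟩
  have h4 := h2 a' ha'
  have h5 := h3 a' ha'
  simp only [neg_dotProduct, neg_lt_neg_iff] at h5
  rw [dotProduct_sub]
  by_cases e0 : a' = a
  · subst e0
    simp only [lt_self_iff_false, if_false, if_true] at h4 h5 ⊢
    linarith
  · have hne : e a ≠ e a' := fun h => e0 (he h).symm
    rcases h a ha a' ha' with h6 | h6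
    · rw [if_pos (h6.lt_of_ne hne)] at h4
      rw [if_neg h6.not_gt] at h5
      rw [if_neg e0]
      linarith
    · rw [if_neg h6.not_gt] at h4
      rw [if_pos (h6.lt_of_ne hne.symm)] at h5
      rw [if_neg e0]
      linarith

theorem mid_sq {a b a' b' : ℤ} (h : a' + b' = a + b) (h1 : a' ≤ b' + 1) (h2 : b' ≤ a' + 1) :
    a' ^ 2 + b' ^ 2 ≤ a ^ 2 + b ^ 2 ∧ (b + 1 < a → a' ^ 2 + b' ^ 2 + 2 ≤ a ^ 2 + b ^ 2) := by
  obtain ⟨t, rfl⟩ : ∃ t, a = a' + t := ⟨a - a', by ring⟩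
  obtain rfl : b = b' - t := by linarith
  have h3 : a' = b' - 1 ∨ a' = b' ∨ a' = b' + 1 := by omega
  have h4 : t ≤ -1 ∨ t = 0 ∨ t = 1 ∨ 2 ≤ t := by omega
  rcases h3 with rfl | rfl | rfl <;> rcases h4 with h4 | rfl | rfl | h4 <;>
    exact ⟨by nlinarith, fun h5 => by nlinarith⟩

/-- The quadratic form that defines a unimodular triangulation. -/
def stair (v : Fin n → ℤ) : ℤ := ∑ i, v i ^ 2 + ∑ i, ∑ j, (v i - v j) ^ 2

theorem stair_mid (v v' : Fin n → ℤ) (h : (∃ i, v' i + 1 < v i) ∨ ∃ i j, v' i < v i ∧ v j < v' j) :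
    stair (fun i => (v i + v' i + 1) / 2) + stair (fun i => (v i + v' i) / 2) + 2 ≤
      stair v + stair v' := by
  have a1 : ∀ i, _ := fun i => mid_sq (a := v i) (b := v' i) (a' := (v i + v' i + 1) / 2)
    (b' := (v i + v' i) / 2) (by omega) (by omega) (by omega)
  have a2 : ∀ i j, _ := fun i j => mid_sq (a := v i - v j) (b := v' i - v' j)
    (a' := (v i + v' i + 1) / 2 - (v j + v' j + 1) / 2)
    (b' := (v i + v' i) / 2 - (v j + v' j) / 2) (by omega) (by omega) (by omega)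
  have key : ∀ {ι : Type} [Fintype ι] (f g : ι → ℤ), (∀ i, f i ≤ g i) →
      ∑ i, f i ≤ ∑ i, g i ∧ ∀ i, f i + 2 ≤ g i → ∑ i, f i + 2 ≤ ∑ i, g i := fun f g hfg =>
    ⟨Finset.sum_le_sum fun i _ => hfg i, fun i hi => by
      rw [← Finset.add_sum_erase _ f (Finset.mem_univ i),
        ← Finset.add_sum_erase _ g (Finset.mem_univ i)]
      linarith [Finset.sum_le_sum (s := Finset.univ.erase i) fun j _ => hfg j]⟩
  obtain ⟨b1, b2⟩ := key _ _ fun i => (a1 i).1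
  obtain ⟨c1, c2⟩ := key (ι := Fin n × Fin n) _ _ fun p => (a2 p.1 p.2).1
  simp only [Finset.sum_add_distrib, Fintype.sum_prod_type] at b1 b2 c1 c2
  unfold stair
  rcases h with ⟨i, hi⟩ | ⟨i, j, hi, hj⟩
  · linarith [b2 i ((a1 i).2 hi)]
  · linarith [c2 (i, j) ((a2 i j).2 (by omega))]

/-- Partial sums. -/
def ps (v : Fin n → ℤ) (k : ℕ) : ℤ := ∑ i : Fin n with i.val < k, v i

theorem ps_zero (v : Fin n → ℤ) : ps v 0 = 0 := by simp [ps]

theorem ps_top (v : Fin n → ℤ) : ps v n = ∑ i, v i := by simp [ps]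

theorem ps_succ (v : Fin n → ℤ) (i : Fin n) : ps v (i + 1) = ps v i + v i := by
  have : (Finset.univ.filter fun j : Fin n => j.val < i + 1) =
      insert i (Finset.univ.filter fun j : Fin n => j.val < i) := by
    ext j
    simp only [Finset.mem_filter, Finset.mem_univ, true_and, Finset.mem_insert, Fin.ext_iff]
    omega
  rw [ps, this, Finset.sum_insert (by simp), add_comm, ps]

theorem ps_diff (g : ℕ → ℤ) (h : g 0 = 0) :
    ∀ k ≤ n, ps (fun i : Fin n => g (i + 1) - g i) k = g k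
  | 0, _ => by rw [ps_zero, h]
  | k + 1, hk => by
    rw [ps_succ _ ⟨k, hk⟩, ps_diff g h k (by omega)]
    simp

theorem ps_inj {v v' : Fin n → ℤ} (h : ∀ i : Fin n, ps v (i + 1) = ps v' (i + 1)) : v = v' := by
  have : ∀ k ≤ n, ps v k = ps v' k := fun k hk => by
    rcases k with _ | k
    · rw [ps_zero, ps_zero]
    · exact h ⟨k, hk⟩
  funext i
  linarith [ps_succ v i, ps_succ v' i, h i, this i i.2.le]

theorem stair_tops {δ : ℕ} {ex : Fin s → Fin n → ℤ}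
    (hr : ∀ v, v ∈ Set.range ex ↔ (∀ k, 0 ≤ v k) ∧ ∑ k, v k ≤ δ) {co : Fin s → ℝ}
    (hc : ∀ a, |co a + stair fun k : Fin n => ps (ex a) (k + 1)| < 1 / 2) {x : Pt n}
    {a a' : Fin s} (ha : a ∈ tops (fun _ => (0 : Fin 1)) (fun a i => ex a i) co x)
    (ha' : a' ∈ tops (fun _ => (0 : Fin 1)) (fun a i => ex a i) co x) :
    ¬ ((∃ i : Fin n, ps (ex a') (i + 1) + 1 < ps (ex a) (i + 1)) ∨ ∃ i j : Fin n,
      ps (ex a') (i + 1) < ps (ex a) (i + 1) ∧ ps (ex a) (j + 1) < ps (ex a') (j + 1)) := fun h => by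
  obtain ⟨r1, r2⟩ := (hr _).1 ⟨a, rfl⟩
  obtain ⟨r3, r4⟩ := (hr _).1 ⟨a', rfl⟩
  have mid : ∀ t : ℤ, 0 ≤ t → t ≤ 1 → ∃ u, (∀ i, ex u i =
      (ps (ex a) (i + 1) + ps (ex a') (i + 1) + t) / 2 - (ps (ex a) i + ps (ex a') i + t) / 2) ∧
      ∀ k ≤ n, ps (ex u) k = (ps (ex a) k + ps (ex a') k + t) / 2 := fun t t0 t1 => by
    have e := ps_diff (n := n) (fun k => (ps (ex a) k + ps (ex a') k + t) / 2) (by
      simp only [ps_zero]
      omega)
    obtain ⟨u, hu⟩ := (hr fun i => (ps (ex a) (i + 1) + ps (ex a') (i + 1) + t) / 2 -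
        (ps (ex a) i + ps (ex a') i + t) / 2).2 ⟨fun i => by
      have := r1 i
      have := r3 i
      simp only [ps_succ]
      omega, by
      rw [← ps_top, e n le_rfl, ps_top, ps_top]
      omega⟩
    exact ⟨u, congrFun hu, hu ▸ e⟩
  obtain ⟨u, u1, u2⟩ := mid 1 zero_le_one le_rfl
  obtain ⟨u', u3, u4⟩ := mid 0 le_rfl zero_le_one
  have h1 := stair_mid _ _ h
  simp only [add_zero] at u4
  simp only [fun i : Fin n => (u2 (i + 1) i.2).symm, fun i : Fin n => (u4 (i + 1) i.2).symm] at h1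
  have h2 := (Int.cast_le (R := ℝ)).2 h1
  push_cast at h2
  have h3 : rv (fun i => (ex u i : ℚ)) ⬝ᵥ x + rv (fun i => (ex u' i : ℚ)) ⬝ᵥ x =
      rv (fun i => (ex a i : ℚ)) ⬝ᵥ x + rv (fun i => (ex a' i : ℚ)) ⬝ᵥ x := by
    rw [← add_dotProduct, ← add_dotProduct, ← map_add, ← map_add]
    congr 2
    funext i
    have : ex u i + ex u' i = ex a i + ex a' i := by
      simp only [u1, u3, ps_succ]
      omega
    simp only [Pi.add_apply]
    exact_mod_cast this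
  linarith [ha u rfl, ha' u' rfl, abs_lt.1 (hc a), abs_lt.1 (hc a'), abs_lt.1 (hc u),
    abs_lt.1 (hc u')]

/-- Smooth projective hypersurfaces of degree `δ` in tropical projective space. -/
theorem exists_hypersurface {δ : ℕ} {ex : Fin s → Fin n → ℤ} (hi : Function.Injective ex)
    (hr : ∀ v, v ∈ Set.range ex ↔ (∀ k, 0 ≤ v k) ∧ ∑ k, v k ≤ δ) {co : Fin s → ℝ}
    (hc : ∀ a, |co a + (∑ k, (∑ i with i ≤ k, ex a i) ^ 2 +
      ∑ k, ∑ l, (∑ i with i ≤ k, ex a i - ∑ i with i ≤ l, ex a i) ^ 2 : ℤ)| < 1 / 2) :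
    ∀ᶠ R in atTop, ∃ X : TropCx n,
      X.IsCI (fun _ => (0 : Fin 1)) (fun _ => (0 : Fin 1)) (fun a i => ex a i) co R ∧
      X.Smooth (n - 1) ∧ X.Proj := by
  have e : ∀ (v : Fin n → ℤ) (k : Fin n), ∑ i with i ≤ k, v i = ps v (k + 1) := fun v k => by
    simp only [ps, Nat.lt_succ_iff, Fin.le_def]
  simp only [e] at hc
  refine exists_smooth _ _ ex co (fun _ _ => δ) (fun a k => ((hr _).1 ⟨a, rfl⟩).1 k)
    (fun a t => ?_) (fun i κ => ?_) fun x a ha => ?_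
  · have := (Int.cast_le (R := ℚ)).2 ((hr _).1 ⟨a, rfl⟩).2
    simpa [fan, dotProduct, Subsingleton.elim 0 t] using this
  · obtain ⟨a, ha⟩ := (hr fun k => if κ 0 = some k then δ else 0).2 ⟨fun k => by
      split_ifs <;> simp, by
      rcases κ 0 with _ | k <;> simp⟩
    exact ⟨a, Subsingleton.elim _ _, funext fun k => by simp [ha]⟩
  · obtain ⟨y, w, h⟩ := chain_dual (e := fun a (k : Fin n) => ps (ex a) (k + 1))
      (fun a a' h => hi (ps_inj (congrFun h))) (fun a ha a' ha' => by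
      by_contra hn
      simp only [Pi.le_def, not_or, not_forall, not_le] at hn
      obtain ⟨⟨i, h1⟩, j, h2⟩ := hn
      exact stair_tops hr hc ha ha' (Or.inr ⟨i, j, h1, h2⟩))
      (fun a ha a' ha' k => not_lt.1 fun h => stair_tops hr hc ha ha' (Or.inl ⟨k, h⟩)) ha
    refine ⟨fun _ => y, fun i => ∑ k with i ≤ k, w k, fun a' ha' => ?_⟩
    rw [← h a' ha']
    simp only [← e, dotProduct, Finset.sum_filter, Finset.sum_mul, Finset.mul_sum, ite_mul, mul_ite,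
      zero_mul, mul_zero]
    rw [Finset.sum_comm]

end H5T.SC
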