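import Pool.Agent.Lib.MP_e9c0f3_ag.H5T.Defs

/-! Smooth projective tropical varieties. -/

open Matrix

noncomputable section

namespace H5T

variable {n : ℕ}

/-- The Bergman fan of a matroid: all superlevel sets are flats. -/
def Berg {E : Type} (M : Matroid E) : Set (E → ℝ) := {x | ∀ c, M.IsFlat {i | c ≤ x i}}

/-- The tangent cone at `pt σ` of the union of the polyhedra `η + cone (ray η)`. -/
def TropCx.Tc (X : TropCx n) (σ : Set (Pt n)) : Set (Pt n) :=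
  {v | ∃ η ∈ X.cells, σ ⊆ η ∧ ∃ x ∈ η, ∃ (c : ℝ) (a : (Fin n → ℚ) → ℝ), 0 ≤ c ∧ 0 ≤ a ∧
    v = c • (x - X.pt σ) + ∑ r ∈ X.ray η, a r • rv r}

/-- Smooth of dimension `d`: the cells are bounded, the ends are cut off far out, and every tangent
cone is, in integral coordinates, the Bergman fan of a matroid of rank `d + 1`, modulo the
constant vectors. -/
def TropCx.Smooth (X : TropCx n) (d : ℕ) : Prop :=
  ∀ σ ∈ X.cells, Bornology.IsBounded σ ∧ (∀ r ∈ X.ray σ, ∀ v ∈ X.Tc σ, v + rv r ∈ X.Tc σ) ∧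
    ∃ (k : ℕ) (M : Matroid (Option (Fin k))) (A : Matrix (Fin n) (Fin k) ℤ)
      (P : Matrix (Fin k) (Fin n) ℤ), M.E = Set.univ ∧ M.eRank = d + 1 ∧ P * A = 1 ∧
      X.Tc σ = {v | ∃ z : Fin k → ℝ, (fun i => i.elim 0 z) ∈ Berg M ∧
        v = A.map (Int.cast : ℤ → ℝ) *ᵥ z}

/-- Projective: there is a strictly convex piecewise linear function with rational slopes. It has
the values `f` on the cells and the slopes `h` on the rays, and every polyhedron `σ + cone J` is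
the set of points where some affine minorant touches it. -/
def TropCx.Proj (X : TropCx n) : Prop :=
  ∃ (f : Pt n → ℝ) (h : (Fin n → ℚ) → ℚ), ∀ σ ∈ X.cells, ∀ J ⊆ X.ray σ,
    ∃ (m : Fin n → ℚ) (c : ℝ), ∀ ρ ∈ X.cells,
      (∀ x ∈ ρ, rv m ⬝ᵥ x + c ≤ f x ∧ (rv m ⬝ᵥ x + c = f x ↔ x ∈ σ)) ∧
      ∀ r ∈ X.ray ρ, m ⬝ᵥ r ≤ h r ∧ (m ⬝ᵥ r = h r ↔ r ∈ J)

end H5T
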