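import Pool.Agent.Lib.MP_e9c0f3_ag.K2.SDefs
import Pool.Agent.Lib.MP_e9c0f3_ag.H5T.Example
import Pool.Agent.Lib.MP_e9c0f3_ag.H5T.Cmp

/-! The tropical projective line is smooth and projective. -/

open H5T Matrix

noncomputable section

namespace K2

theorem sx_univ {X : TropCx 1} {σ : Set (Pt 1)}
    (h1 : ∃ v ∈ X.Tc σ, 0 < v 0) (h2 : ∃ v ∈ X.Tc σ, v 0 < 0) : X.Tc σ = Set.univ := by
  have sm : ∀ v ∈ X.Tc σ, ∀ t : ℝ, 0 ≤ t → t • v ∈ X.Tc σ := by
    rintro _ ⟨η, hη, hs, x, hx, c, a, hc, ha, rfl⟩ t ht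
    refine ⟨η, hη, hs, x, hx, t * c, t • a, mul_nonneg ht hc, smul_nonneg ht ha, ?_⟩
    simp only [smul_add, Finset.smul_sum, smul_smul, Pi.smul_apply, smul_eq_mul]
  refine Set.eq_univ_of_forall fun u => ?_
  have key : ∀ v ∈ X.Tc σ, v 0 ≠ 0 → 0 ≤ u 0 / v 0 → u ∈ X.Tc σ := fun v hv h0 h => by
    convert sm v hv _ h using 1
    funext i
    rw [Subsingleton.elim i 0]
    simp [h0]
  obtain ⟨v, hv, p⟩ := h1
  obtain ⟨w, hw, q⟩ := h2
  rcases le_total 0 (u 0) with h | h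
  · exact key v hv p.ne' (div_nonneg h p.le)
  · exact key w hw q.ne (div_nonneg_of_nonpos h q.le)

theorem sx_pt {X : TropCx 1} {σ η : Set (Pt 1)} (hη : η ∈ X.cells) (h : σ ⊆ η) {x : Pt 1}
    (hx : x ∈ η) : x - X.pt σ ∈ X.Tc σ := ⟨η, hη, h, x, hx, 1, 0, zero_le_one, le_rfl, by simp⟩

theorem sx_ray {X : TropCx 1} {σ : Set (Pt 1)} (hσ : σ ∈ X.cells) {r : Fin 1 → ℚ}
    (h : X.ray σ = {r}) : rv r ∈ X.Tc σ :=
  ⟨σ, hσ, subset_rfl, _, intrinsicInterior_subset (X.pt_mem σ hσ), 0, 1, le_rfl, zero_le_one,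
    by simp [h]⟩

theorem line_smooth (a : ℝ) (ha : 0 < a) : ∃ X : TropCx 1,
    {x : Pt 1 | 0 ≤ x 0 ∧ x 0 ≤ a} ∈ X.cells ∧ X.Smooth 1 ∧ X.Proj ∧
      ¬ X.Cyc 1 1 ≤ X.B X.Flag 1 1 := by
  obtain ⟨X, H, r1, r2, r3⟩ := exists_line a ha
  refine ⟨X, H.cs, fun σ hσ => ?_, ?_, H.not_B⟩
  · have mem := fun σ hσ => intrinsicInterior_subset (X.pt_mem σ hσ)
    have p0 : X.pt {x | x 0 = 0} 0 = 0 := mem _ H.cv
    have pa : X.pt {x | x 0 = a} 0 = a := mem _ H.cw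
    have hT : X.Tc σ = Set.univ := by
      rcases (H.hc σ).1 hσ with rfl | rfl | rfl
      · refine sx_univ ⟨_, sx_pt H.cs subset_rfl (x := fun _ => a) ⟨ha.le, le_rfl⟩, ?_⟩
          ⟨_, sx_pt H.cs subset_rfl (x := fun _ => 0) ⟨le_rfl, ha.le⟩, ?_⟩
        · exact sub_pos.2 (lt_of_le_of_ne (mem _ H.cs).2 fun e => H.sw (cmp_pt H.cs H.cw e))
        · exact sub_neg.2 (lt_of_le_of_ne (mem _ H.cs).1 fun e => H.sv (cmp_pt H.cs H.cv e.symm))
      · exact sx_univ ⟨_, sx_pt H.cs H.vs (x := fun _ => a) ⟨ha.le, le_rfl⟩, by simpa [p0] using ha⟩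
          ⟨_, sx_ray H.cv r2, by simp [rv]⟩
      · exact sx_univ ⟨_, sx_ray H.cw r3, by simp [rv]⟩
          ⟨_, sx_pt H.cs H.ws (x := fun _ => 0) ⟨le_rfl, ha.le⟩, by simpa [pa] using ha⟩
    refine ⟨(Metric.isBounded_closedBall (x := 0) (r := a)).subset fun x hx => ?_,
      fun _ _ _ _ => hT ▸ trivial, 1, Matroid.freeOn Set.univ, 1, 1, rfl, ?_, by simp, ?_⟩
    · have := H.sub hσ hx
      rw [mem_closedBall_zero_iff, pi_norm_le_iff_of_nonneg ha.le]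
      intro i
      rw [Subsingleton.elim i 0, Real.norm_eq_abs, abs_of_nonneg this.1]
      exact this.2
    · rw [Matroid.eRank_freeOn, Set.encard_univ]
      simp
      rfl
    · rw [hT]
      symm
      refine Set.eq_univ_of_forall fun v => ⟨v, fun c => ?_, by simp⟩
      rw [Matroid.isFlat_iff_closure_eq, Matroid.freeOn_closure_eq, Set.inter_univ]
  · have main : ∀ (σ : Set (Pt 1)) (J : Finset (Fin 1 → ℚ)) (s : ℚ) (c : ℝ),
        (∀ x : Pt 1, 0 ≤ x 0 → x 0 ≤ a → s * x 0 + c ≤ 0 ∧ (s * x 0 + c = 0 ↔ x ∈ σ)) →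
        -s ≤ 1 → s ≤ 1 → (-s = 1 ↔ -1 ∈ J) → (s = 1 ↔ 1 ∈ J) →
        ∃ (m : Fin 1 → ℚ) (c : ℝ), ∀ ρ ∈ X.cells,
          (∀ x ∈ ρ, rv m ⬝ᵥ x + c ≤ 0 ∧ (rv m ⬝ᵥ x + c = 0 ↔ x ∈ σ)) ∧
          ∀ r ∈ X.ray ρ, m ⬝ᵥ r ≤ 1 ∧ (m ⬝ᵥ r = 1 ↔ r ∈ J) := by
      intro σ J s c h1 h2 h3 h4 h5
      refine ⟨fun _ => s, c, fun ρ hρ => ⟨fun x hx => ?_, fun r hr => ?_⟩⟩
      · rw [ex_dot]
        exact h1 x (H.sub hρ hx).1 (H.sub hρ hx).2
      · rcases (H.hc ρ).1 hρ with rfl | rfl | rfl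
        · simp [r1] at hr
        · rw [r2, Finset.mem_singleton] at hr
          subst hr
          simpa [dotProduct] using ⟨h2, h4⟩
        · rw [r3, Finset.mem_singleton] at hr
          subst hr
          simpa [dotProduct] using ⟨h3, h5⟩
    have ne : (-1 : Fin 1 → ℚ) ≠ 1 := fun h => by have := congrFun h 0; norm_num at this
    refine ⟨fun _ => 0, fun _ => 1, fun σ hσ J hJ => ?_⟩
    rcases (H.hc σ).1 hσ with rfl | rfl | rfl
    · rw [r1, Finset.subset_empty] at hJ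
      subst hJ
      exact main _ _ 0 0 (fun x h1 h2 => by simp [h1, h2]) (by simp) (by simp) (by simp) (by simp)
    · rw [r2, Finset.subset_singleton_iff] at hJ
      rcases hJ with rfl | rfl
      · exact main _ _ (-1 / 2) 0 (fun x h1 h2 => ⟨by push_cast; linarith, by simp⟩) (by norm_num)
          (by norm_num) (by norm_num) (by norm_num)
      · exact main _ _ (-1) 0 (fun x h1 h2 => ⟨by push_cast; linarith, by simp⟩) (by norm_num)
          (by norm_num) (by norm_num) (by norm_num [ne.symm])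
    · rw [r3, Finset.subset_singleton_iff] at hJ
      rcases hJ with rfl | rfl
      · exact main _ _ (1 / 2) (-a / 2) (fun x h1 h2 => ⟨by push_cast; linarith,
          by push_cast; exact ⟨fun h => by change x 0 = a; linarith,
            fun h => by have : x 0 = a := h; linarith⟩⟩) (by norm_num)
          (by norm_num) (by norm_num) (by norm_num)
      · exact main _ _ 1 (-a) (fun x h1 h2 => ⟨by push_cast; linarith,
          by push_cast; exact ⟨fun h => by change x 0 = a; linarith,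
            fun h => by have : x 0 = a := h; linarith⟩⟩) (by norm_num)
          (by norm_num) (by norm_num [ne]) (by norm_num)

end K2
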