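import Pool.Agent.Lib.MP_e9c0f3_ag.K2.Gr
import Pool.Agent.Lib.MP_e9c0f3_ag.K2.Comm
import Pool.Agent.Lib.MP_e9c0f3_ag.K2.EBas

/-! The weight filtration of the double complex. -/

open ExteriorAlgebra KH
open scoped Classical

noncomputable section

namespace K2

variable {N : Type} [AddCommGroup N] [Module ℝ N] {De : Finset (Finset N)} {t : Module.Dual ℝ N}
  {d : ℕ} {hh : N → ℝ} {φ : Finset N → Module.Dual ℝ (Po N)} {μ : Finset N → Module.Dual ℝ N}

theorem iE_single (j : ℕ) (β : Finset N) (ψ : Module.Dual ℝ (Po N)) :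
    iE De (Finsupp.single (j, β) ψ) = Finsupp.single j (mr β (io De β ψ)) := by
  rw [iE, Finsupp.lsum_single]; rfl

theorem tc_kx_VV0 {z : Kc N} (hz : z ∈ VV De t 0) : co (kx t) z ∈ VV De t 0 := by
  refine mem_Pw.2 fun i => ?_
  have h := mem_Pw.1 hz i
  rw [co_apply]
  split_ifs at h ⊢ with hc
  · exact Submodule.mem_sup_left Submodule.mem_top
  · rw [(Submodule.mem_bot ℝ).1 h, map_zero]; exact zero_mem _

theorem DT_WT (h : Pre De t) {r : ℤ} {x : Tc N} (hx : x ∈ WT De t r) (j : ℕ) :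
    co (kx t) (x (j + 1)) ∈ VV De t (r + 1 + 2 * j + 1).toNat := by
  have h1 := mem_Pw.1 hx (j + 1)
  by_cases hr : 0 ≤ r + 1 + 2 * j + 1
  · rw [show (r + 2 * ((j + 1 : ℕ) : ℤ) + 1).toNat = (r + 1 + 2 * j + 1).toNat + 1 by omega] at h1
    exact kx_VV h h1
  · rw [show (r + 1 + 2 * j + 1).toNat = 0 by omega]
    exact tc_kx_VV0 (VV_anti (Nat.zero_le _) h1)

theorem tc_ZW (r : ℤ) : ZT De t ≤ WT De t r := Pw_mono fun _ => ZK_le_VV _

theorem tc_anti : Antitone (WT De t) := fun _ _ hr =>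
  Pw_mono fun _ => VV_anti (Int.toNat_le_toNat (by omega))

theorem tc_sub (h : Pre De t) {r : ℤ} {x : Tc N} (hx : x ∈ WT De t r) :
    DT t x - co bd x ∈ WT De t (r + 1) := by
  refine mem_Pw.2 fun j => ?_
  rw [Finsupp.sub_apply, DT_apply, co_apply, add_sub_cancel_left]
  exact DT_WT h hx j

theorem tc_DW (h : Pre De t) {r : ℤ} {x : Tc N} (hx : x ∈ WT De t r) : DT t x ∈ WT De t r := by
  have h1 : co bd x ∈ WT De t r := mem_Pw.2 fun j => by
    rw [co_apply]; exact bd_VV h.fan (mem_Pw.1 hx j)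
  exact mem_of_eq (add_mem (tc_anti (by omega) (tc_sub h hx)) h1) (sub_add_cancel _ _).symm

theorem tc_mem {p q : ℕ} {x : Tc N} (hx : x ∈ TC De t p q) (j : ℕ) :
    ∃ y ∈ (if j ≤ q then Cub De t (p + j + 1) (q - j) ⊓ VV De t (j + 1) else ⊥),
      x j - y ∈ ZK De t := by
  obtain ⟨y, hy, z, hz, rfl⟩ := Submodule.mem_sup.1 hx
  exact ⟨y j, mem_Pw.1 hy j, by
    rw [Finsupp.add_apply, add_sub_cancel_left]; exact mem_Pw.1 hz j⟩

theorem tc_single_W {r : ℤ} {i j : ℕ} (hi : (r + 2 * j + 1).toNat ≤ i) {z : Kc N}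
    (hz : z ∈ VV De t i) : Finsupp.single j z ∈ WT De t r := single_mem_Pw (VV_anti hi hz)

theorem tc_single_Z (r : ℤ) (j : ℕ) {z : Kc N} (hz : z ∈ ZK De t) :
    Finsupp.single j z ∈ WT De t r := single_mem_Pw (ZK_le_VV _ hz)

theorem tc_single {r : ℤ} {p Q P c i j : ℕ} (hi : r + 2 * j + 1 = i) (hj : j + 1 ≤ i)
    (hP : P = p + j + 1) (hc : c + j = Q) {z : Kc N} (hz : z ∈ Cub De t P c ⊓ VV De t i) :
    Finsupp.single j z ∈ TC De t p Q ⊓ WT De t r := by
  refine ⟨Submodule.mem_sup_left (single_mem_Pw ?_), tc_single_W (by omega) hz.2⟩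
  rw [if_pos (by omega), ← hP, show Q - j = c by omega]
  exact ⟨hz.1, VV_anti hj hz.2⟩

/-- A boundary in a graded piece of the vanishing filtration gives a boundary in the graded
piece of the weight filtration. -/
theorem tc_lift (h : Pre De t) {r : ℤ} {p Q P c i j : ℕ} (hi : r + 2 * j + 1 = i) (hj : j + 1 ≤ i)
    (hP : P = p + j + 1) (hc : c + j = Q) {a : Kc N}
    (ha : a ∈ (Cub De t P c ⊓ VV De t i).map bd ⊔ VV De t (i + 1)) :
    Finsupp.single j a ∈ (TC De t p Q ⊓ WT De t r).map (DT t) ⊔ WT De t (r + 1) := by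
  obtain ⟨z, hz, hv⟩ := mem_map_sup.1 ha
  have h1 := tc_single hi hj hP hc hz
  refine mem_map_sup.2 ⟨_, h1, ?_⟩
  refine mem_of_eq (sub_mem (tc_single_W (r := r + 1) (j := j) (by omega) hv) (tc_sub h h1.2)) ?_
  rw [co_single, Finsupp.single_sub]; abel

/-- The components of a cycle of a graded piece. -/
theorem tc_comp (h : Pre De t) {p q : ℕ} {r : ℤ} {x : Tc N}
    (hx : x ∈ TC De t p q ⊓ WT De t r) (hb : DT t x ∈ WT De t (r + 1)) (j : ℕ) :
    Finsupp.single j (x j) ∈ WT De t (r + 1) ∨ ∃ i : ℕ, r + 2 * j + 1 = i ∧ j + 1 ≤ i ∧ j ≤ q ∧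
      ∃ y ∈ Cub De t (p + j + 1) (q - j) ⊓ VV De t i, bd y ∈ VV De t (i + 1) ∧
        Finsupp.single j (x j) - Finsupp.single j y ∈ WT De t (r + 1) := by
  obtain ⟨y, hy, hz⟩ := tc_mem hx.1 j
  have h1 : Finsupp.single j (x j) - Finsupp.single j y ∈ WT De t (r + 1) := by
    rw [← Finsupp.single_sub]; exact tc_single_Z _ _ hz
  split_ifs at hy with hq
  · by_cases hr : 0 ≤ r + j
    · obtain ⟨i, hi⟩ : ∃ i : ℕ, r + 2 * j + 1 = i := ⟨(r + 2 * j + 1).toNat, by omega⟩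
      have h2 : x j ∈ VV De t i := VV_anti (by omega) (mem_Pw.1 hx.2 j)
      have h3 : co bd x ∈ WT De t (r + 1) :=
        mem_of_eq (sub_mem hb (tc_sub h hx.2)) (sub_sub_cancel _ _).symm
      have h4 : bd (x j) ∈ VV De t (i + 1) := by
        have := mem_Pw.1 h3 j
        rw [co_apply] at this
        exact VV_anti (by omega) this
      refine .inr ⟨i, hi, by omega, hq, y, ⟨hy.1, ?_⟩, ?_, h1⟩
      · exact mem_of_eq (sub_mem h2 (ZK_le_VV i hz)) (sub_sub_cancel _ _).symm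
      · refine mem_of_eq (sub_mem h4 (ZK_le_VV _ (bd_ZK h.fan hz))) ?_
        rw [map_sub, sub_sub_cancel]
    · exact .inl (mem_of_eq (add_mem h1 (tc_single_W (by omega) hy.2)) (sub_add_cancel _ _).symm)
  · rw [(Submodule.mem_bot ℝ).1 hy, Finsupp.single_zero, sub_zero] at h1
    exact .inl h1

theorem tc_sum {S : Submodule ℝ (Tc N)} {x : Tc N} (h : ∀ j, Finsupp.single j (x j) ∈ S) :
    x ∈ S := by
  rw [← Finsupp.sum_single x, Finsupp.sum]
  exact S.sum_mem fun j _ => h j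

theorem t_conc (h : Pre De t) (p q : ℕ) {r : ℤ} (hr : r ≠ (p : ℤ) - q) {x : Tc N}
    (hx : x ∈ TC De t p q ⊓ WT De t r) (hb : DT t x ∈ WT De t (r + 1)) :
    x ∈ (TC De t p (q + 1) ⊓ WT De t r).map (DT t) ⊔ WT De t (r + 1) := by
  refine tc_sum fun j => ?_
  rcases tc_comp h hx hb j with h1 | ⟨i, hi, hj, hq, y, hy, hb', h1⟩
  · exact Submodule.mem_sup_right h1
  · have h2 := gr_ne h (by omega) (by omega) hy hb'
    exact mem_of_eq (add_mem (Submodule.mem_sup_right h1) (tc_lift h hi hj rfl (by omega) h2))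
      (sub_add_cancel _ _).symm

theorem tc_Fb {i : ℕ} {β : Finset N} : β ∈ Fb De t i ↔ Fi De t β ∧ β.card = i := by
  rw [Fb, Finset.mem_filter]
  exact ⟨fun h => h.2, fun h => ⟨h.1.1, h⟩⟩

theorem tc_single_sum {ι : Type*} (s : Finset ι) (j : ℕ) (f : ι → Kc N) :
    Finsupp.single j (∑ i ∈ s, f i) = ∑ i ∈ s, (Finsupp.single j (f i) : Tc N) :=
  map_sum (Finsupp.lsingle j : Kc N →ₗ[ℝ] Tc N) f s

theorem tc_single_smul (j : ℕ) (c : ℝ) (a : Kc N) :
    Finsupp.single j (c • a) = c • (Finsupp.single j a : Tc N) :=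
  map_smul (Finsupp.lsingle j : Kc N →ₗ[ℝ] Tc N) c a

theorem tc_map_sup {S : Submodule ℝ (Ec N)} {T : Submodule ℝ (Tc N)} {x : Tc N} :
    x ∈ S.map (iE De) ⊔ T ↔ ∃ y ∈ S, x - iE De y ∈ T := by
  constructor
  · intro h
    obtain ⟨_, ⟨y, hy, rfl⟩, z, hz, rfl⟩ := Submodule.mem_sup.mp h
    exact ⟨y, hy, by rwa [add_sub_cancel_left]⟩
  · rintro ⟨y, hy, h⟩
    exact Submodule.mem_sup.mpr ⟨_, ⟨y, hy, rfl⟩, _, h, by abel⟩

theorem t_surj (h : Pre De t) (d p q : ℕ) {x : Tc N}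
    (hx : x ∈ TC De t p q ⊓ WT De t ((p : ℤ) - q)) (hb : DT t x ∈ WT De t ((p : ℤ) - q + 1)) :
    ∃ w ∈ EA De t d ((p : ℤ) - q) ((d : ℤ) - p - q), x - iE De w ∈
      (TC De t p (q + 1) ⊓ WT De t ((p : ℤ) - q)).map (DT t) ⊔ WT De t ((p : ℤ) - q + 1) := by
  refine tc_map_sup.1 (tc_sum fun j => ?_)
  rcases tc_comp h hx hb j with h1 | ⟨i, hi, hj, hq, y, hy, hb', h1⟩
  · exact Submodule.mem_sup_right (Submodule.mem_sup_right h1)
  · have e : p + j + 1 = q - j + i := by omega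
    rw [e] at hy
    obtain ⟨ψ, hψ, h2⟩ := gr_surj h.fan (by omega) hy hb'
    refine tc_map_sup.2 ⟨∑ β ∈ Fb De t i, Finsupp.single (j, β) (ψ β),
      Submodule.sum_mem _ fun β hβ => ?_, ?_⟩
    · obtain ⟨b1, b2⟩ := tc_Fb.1 hβ
      exact single_mem_EA b1 (by omega) (by omega) (by omega) (hψ β hβ)
    · refine mem_of_eq (add_mem (Submodule.mem_sup_right h1)
        (tc_lift h hi hj e.symm (by omega) h2)) ?_
      rw [map_sum, Finsupp.single_sub, tc_single_sum]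
      simp only [iE_single]
      abel

theorem tc_iE_apply {a b : ℤ} {w : Ec N} (hw : w ∈ EA De t d a b) {i j : ℕ}
    (hi : a + 2 * j + 1 = i) : iE De w j = ∑ β ∈ Fb De t i, mr β (io De β (w (j, β))) := by
  have key := map_mem_of_EA (M := Kc N) (S := ⊥)
    ((Finsupp.lapply j : Tc N →ₗ[ℝ] Kc N) ∘ₗ iE De - ∑ β ∈ Fb De t i, mr β ∘ₗ io De β ∘ₗ
      (Finsupp.lapply (j, β) : Ec N →ₗ[ℝ] Module.Dual ℝ (Po N)))
    (fun j' β' s ψ h1 h2 h3 _ _ => ?_) hw
  · rw [Submodule.mem_bot, LinearMap.sub_apply, sub_eq_zero, LinearMap.sum_apply] at key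
    exact key
  · rw [Submodule.mem_bot, LinearMap.sub_apply, sub_eq_zero, LinearMap.sum_apply]
    simp only [LinearMap.comp_apply, Finsupp.lapply_apply, iE_single]
    by_cases e : j' = j
    · subst e
      rw [Finsupp.single_eq_same, Finset.sum_eq_single_of_mem β' (tc_Fb.2 ⟨h1, by omega⟩),
        Finsupp.single_eq_same]
      intro β _ hne
      rw [Finsupp.single_eq_of_ne (by simpa using hne), map_zero, map_zero]
    · rw [Finsupp.single_eq_of_ne (Ne.symm e)]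
      refine (Finset.sum_eq_zero fun β _ => ?_).symm
      rw [Finsupp.single_eq_of_ne (by simp [Ne.symm e]), map_zero, map_zero]

theorem t_inj (h : Pre De t) (d p q : ℕ) {w : Ec N}
    (hw : w ∈ EA De t d ((p : ℤ) - q) ((d : ℤ) - p - q)) (h0 : iE De w ∈
      (TC De t p (q + 1) ⊓ WT De t ((p : ℤ) - q)).map (DT t) ⊔ WT De t ((p : ℤ) - q + 1)) :
    w = 0 := by
  ext ⟨j, β⟩ : 1
  rcases EA_apply hw j β with h1 | ⟨b1, b2, b3, s, b4, -⟩
  · exact h1
  obtain ⟨y, hy, hv⟩ := mem_map_sup.1 h0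
  obtain ⟨z, hz, hz'⟩ := tc_mem hy.1 j
  rw [if_pos (by omega), show p + j + 1 = s + β.card by omega,
    show q + 1 - j = s + 1 by omega] at hz
  have hi : (p : ℤ) - q + 2 * j + 1 = β.card := by omega
  have h2 : y j ∈ VV De t β.card := VV_anti (by omega) (mem_Pw.1 hy.2 j)
  have h3 : iE De w j - bd (y j) ∈ VV De t (β.card + 1) := by
    have := mem_Pw.1 (add_mem hv (tc_sub h hy.2)) j
    rw [sub_add_sub_cancel, Finsupp.sub_apply, co_apply] at this
    exact VV_anti (by omega) this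
  rw [tc_iE_apply hw hi] at h3
  refine gr_inj h.fan (q := s) (i := β.card) (ψ := fun γ => w (j, γ)) (by omega)
    (fun γ hγ => ?_) (mem_map_sup.2 ⟨z, ⟨hz.1, ?_⟩, ?_⟩) β (tc_Fb.2 ⟨b1, rfl⟩)
  · have hc := (tc_Fb.1 hγ).2
    rcases EA_apply hw j γ with h1 | ⟨-, -, -, s', c4, c5⟩
    · rw [h1]; exact zero_mem _
    · rwa [show s = s' by omega]
  · exact mem_of_eq (sub_mem h2 (ZK_le_VV _ hz')) (sub_sub_cancel _ _).symm
  · refine mem_of_eq (add_mem h3 (ZK_le_VV _ (bd_ZK h.fan hz'))) ?_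
    rw [map_sub]; abel

theorem t_iC (d p q : ℕ) {w : Ec N} (hw : w ∈ EA De t d ((p : ℤ) - q) ((d : ℤ) - p - q)) :
    iE De w ∈ TC De t p q ⊓ WT De t ((p : ℤ) - q) := by
  refine map_mem_of_EA (iE De) (fun j β s ψ h1 h2 h3 h4 h5 => ?_) hw
  rw [iE_single]
  exact tc_single (by omega) (by omega) (by omega) (by omega) (mr_YC h1 (io_YC h5))

theorem t_comm (h : Pre De t) (d p q : ℕ) {w : Ec N}
    (hw : w ∈ EA De t d ((p : ℤ) - q) ((d : ℤ) - p - q)) : DT t (iE De w) - iE De (dE De t w) ∈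
      (TC De t p q ⊓ WT De t ((p : ℤ) - q + 1)).map (DT t) ⊔ WT De t ((p : ℤ) - q + 2) := by
  rw [show (p : ℤ) - q + 2 = (p : ℤ) - q + 1 + 1 by ring]
  refine map_mem_of_EA (DT t ∘ₗ iE De - iE De ∘ₗ dE De t) (fun j β s ψ h1 h2 h3 h4 h5 => ?_) hw
  rw [LinearMap.sub_apply, LinearMap.comp_apply, LinearMap.comp_apply, iE_single]
  have k1 := tc_single_Z ((p : ℤ) - q + 1 + 1) j (bd_io h h1 h5)
  rw [Finsupp.single_add, tc_single_sum] at k1
  simp only [tc_single_smul] at k1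
  cases j with
  | zero =>
    refine mem_of_eq (Submodule.mem_sup_right k1) ?_
    rw [DT_single_zero, dE_single_zero, map_sum]
    simp only [map_smul, iE_single, neg_smul, map_neg, Finset.sum_neg_distrib, sub_neg_eq_add]
  | succ j =>
    have k2 := tc_single_W (r := (p : ℤ) - q + 1 + 1) (j := j) (by omega) (kx_io h h1 ψ)
    rw [Finsupp.single_sub, tc_single_sum] at k2
    simp only [tc_single_smul] at k2
    have k3 : ∑ y ∈ β, sg (β.erase y) y • (Finsupp.single j (mr (β.erase y) (io De β ψ)) -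
        (Finsupp.single j (mr (β.erase y) (io De (β.erase y) ψ)) : Tc N)) ∈
        (TC De t p q ⊓ WT De t ((p : ℤ) - q + 1)).map (DT t) ⊔ WT De t ((p : ℤ) - q + 1 + 1) := by
      refine Submodule.sum_mem _ fun y hy => Submodule.smul_mem _ _ ?_
      have hc := Finset.card_erase_add_one hy
      have hF : Fi De t (β.erase y) := ⟨h.fan.down _ h1.1 _ (Finset.erase_subset _ _),
        Finset.card_pos.mp (by omega), fun v hv => h1.2.2 v (Finset.mem_of_mem_erase hv)⟩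
      have e := Finset.insert_erase hy
      have g := gysin h hF (x := y) (s := s) (ψ := ψ) (Finset.notMem_erase y β)
        (by rw [e]; exact h1.1) (by rw [e]; exact h5)
      rw [e] at g
      rw [← Finsupp.single_sub]
      exact tc_lift h (by omega) (by omega) (by omega) (by omega) g
    refine mem_of_eq (add_mem (Submodule.mem_sup_right (add_mem k1 k2)) k3) ?_
    rw [DT_single_succ, dE_single_succ, map_add, map_sum, map_sum]
    simp only [map_smul, iE_single, neg_smul, map_neg, Finset.sum_neg_distrib, smul_sub,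
      Finset.sum_sub_distrib]
    abel

theorem t_L (h : Pre De t) (hμ : Loc De hh μ) (d p q : ℕ) {w : Ec N}
    (hw : w ∈ EA De t d ((p : ℤ) - q) ((d : ℤ) - (p + 1) - (q + 1))) :
    co (LK μ) (iE De w) - iE De (LE De hh w) ∈
      (TC De t p (q + 1) ⊓ WT De t ((p : ℤ) - q)).map (DT t) ⊔ WT De t ((p : ℤ) - q + 1) := by
  refine map_mem_of_EA (co (LK μ) ∘ₗ iE De - iE De ∘ₗ LE De hh)
    (fun j β s ψ h1 h2 h3 h4 h5 => ?_) hw
  rw [LinearMap.sub_apply, LinearMap.comp_apply, LinearMap.comp_apply, iE_single, LE, co_single,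
    co_single, iE_single, ← Finsupp.single_sub]
  cases s with
  | zero =>
    rw [mx_Md_lt (lin_hom hh) h5 one_pos, LK_Cub0 μ (mr_YC h1 (io_YC h5)).1, map_zero, map_zero,
      sub_zero, Finsupp.single_zero]
    exact zero_mem _
  | succ s => exact tc_lift h (by omega) (by omega) (by omega) (by omega) (LK_io h hμ h1 h5)

theorem concT (h : Pre De t) (hμ : Loc De hh μ) (hc : ∀ s ∈ De, s.card ≤ d + 1) (p : ℕ) :
    Conc ((cxT h hμ).row p) (WT De t) p (fun q => EA De t d ((p : ℤ) - q) ((d : ℤ) - p - q)) ⊥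
      (dE De t) (iE De) where
  anti := tc_anti
  ZW := tc_ZW
  DW _ _ _ hx := tc_DW h hx.2
  lo := ⟨-d, fun q x hx => mem_Pw.2 fun j => by
    obtain ⟨y, hy, hz⟩ := tc_mem (show x ∈ TC De t p q from hx) j
    refine mem_of_eq (add_mem (ZK_le_VV _ hz) (?_ : y ∈ _)) (sub_add_cancel _ _).symm
    split_ifs at hy with hq
    · by_cases hj : j ≤ d
      · exact VV_anti (by omega) hy.2
      · exact ZK_le_VV _ (VV_le_ZK h.fan (fun s hs => by have := hc s hs; omega) hy.2)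
    · rw [(Submodule.mem_bot ℝ).1 hy]; exact zero_mem _⟩
  hi := ⟨d + 1, fun _ x hx => mem_Pw.2 fun j =>
    VV_le_ZK h.fan (fun s hs => by have := hc s hs; omega) (mem_Pw.1 hx.2 j)⟩
  ZE _ := bot_le
  dZ w hw := by rw [(Submodule.mem_bot ℝ).1 hw, map_zero]; exact zero_mem _
  dE q w hw := by
    have := dE_EA h.fan hw
    rwa [show (p : ℤ) - ((q + 1 : ℕ) : ℤ) + 1 = p - q by push_cast; ring,
      show (d : ℤ) - p - ((q + 1 : ℕ) : ℤ) + 1 = d - p - q by push_cast; ring] at this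
  d0 w hw := (Submodule.mem_bot ℝ).2 (dE_zero (d := d) (p := p) (by simpa using hw))
  iZ w hw := by rw [(Submodule.mem_bot ℝ).1 hw, map_zero]; exact zero_mem _
  iC q _ hw := t_iC d p q hw
  conc q _ hr _ hx hb := t_conc h p q hr hx hb
  surj q _ hx hb := t_surj h d p q hx hb
  inj q _ hw h0 := (Submodule.mem_bot ℝ).2 (t_inj h d p q hw h0)
  comm q _ hw := t_comm h d p q hw

end K2
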