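import Pool.Agent.Lib.MP_e9c0f3_ag.K2.Cube

/-! The residue complex is the first page of the cubical complex of a star. -/

open ExteriorAlgebra KH
open scoped Classical

noncomputable section

namespace K2

variable {N : Type} [AddCommGroup N] [Module ℝ N] {De : Finset (Finset N)} {t : Module.Dual ℝ N}

/-- The filtration by the size of the top face. -/
def WY (De : Finset (Finset N)) (β : Finset N) (r : ℤ) : Submodule ℝ (Kc N) :=
  (Pw fun i => if OkY De β i ∧ ((i.2 \ β).card : ℤ) ≤ -r then ⊤ else ⊥) ⊔ YZ De β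

theorem rs_single (β η : Finset N) (b : Ex N) :
    rs β (Finsupp.single η b) = Finsupp.single (β, η) (pis (η \ β) * emb b) := by
  rw [rs, Finsupp.lsum_single]
  rfl

theorem rd_single (β η : Finset N) (b : Ex N) :
    rd β (Finsupp.single η b) = ∑ v ∈ η \ β, Finsupp.single (η.erase v) (ι ℝ v * b) := by
  rw [rd, Finsupp.lsum_single, LinearMap.sum_apply]
  rfl

/-- To map a family cut out by a condition into a submodule, check the single components. -/
theorem yl_map {ι' E M : Type*} [AddCommGroup E] [Module ℝ E] [AddCommGroup M] [Module ℝ M]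
    {c : ι' → Prop} [DecidablePred c] {G : ι' → Submodule ℝ E} (f : (ι' →₀ E) →ₗ[ℝ] M)
    {S : Submodule ℝ M} (h : ∀ i, c i → ∀ a ∈ G i, f (Finsupp.single i a) ∈ S) {z : ι' →₀ E}
    (hz : z ∈ Pw fun i => if c i then G i else ⊥) : f z ∈ S := by
  refine map_mem_of_Pw f (fun i a ha => ?_) hz
  by_cases hc : c i
  · rw [if_pos hc] at ha
    exact h i hc a ha
  · rw [if_neg hc, Submodule.mem_bot] at ha
    rw [ha, Finsupp.single_zero, map_zero]
    exact zero_mem _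

theorem yl_single {ι' E : Type*} [AddCommGroup E] [Module ℝ E] {c : ι' → Prop} [DecidablePred c]
    {G : ι' → Submodule ℝ E} {i : ι'} {a : E} (hc : c i) (ha : a ∈ G i) :
    Finsupp.single i a ∈ Pw fun i => if c i then G i else ⊥ :=
  single_mem_Pw (by rwa [if_pos hc])

theorem yl_sup {M M' : Type*} [AddCommGroup M] [Module ℝ M] [AddCommGroup M'] [Module ℝ M']
    (f : M →ₗ[ℝ] M') {A B : Submodule ℝ M} {S : Submodule ℝ M'} (hA : ∀ x ∈ A, f x ∈ S)
    (hB : ∀ x ∈ B, f x ∈ S) {x : M} (hx : x ∈ A ⊔ B) : f x ∈ S := by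
  obtain ⟨a, ha, b, hb, rfl⟩ := Submodule.mem_sup.1 hx
  rw [map_add]
  exact add_mem (hA a ha) (hB b hb)

variable {β γ η : Finset N} {w : Om N} {x : N}

/-- The part of the filtration without null chains. -/
def ylW (De : Finset (Finset N)) (β : Finset N) (r : ℤ) : Submodule ℝ (Kc N) :=
  Pw fun i => if OkY De β i ∧ ((i.2 \ β).card : ℤ) ≤ -r then ⊤ else ⊥

theorem ylW_le (r : ℤ) : ylW De β r ≤ WY De β r := le_sup_left

theorem yl_ZW (r : ℤ) : YZ De β ≤ WY De β r := le_sup_right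

theorem ylW_single {r : ℤ} (h1 : OkY De β (γ, η)) (h2 : ((η \ β).card : ℤ) ≤ -r) (w : Om N) :
    Finsupp.single (γ, η) w ∈ ylW De β r := yl_single ⟨h1, h2⟩ Submodule.mem_top

theorem yl_Z_single (h1 : OkY De β (γ, η)) (h2 : w ∈ Jd γ) :
    Finsupp.single (γ, η) w ∈ YZ De β := yl_single (G := fun i : Ix N => Jd i.1) h1 h2

theorem yl_ok_erase (h : Fn De) (h1 : OkY De β (γ, η)) (hx : x ∉ γ) : OkY De β (γ, η.erase x) :=
  ⟨h1.1, Finset.subset_erase.2 ⟨h1.2.1, hx⟩, h.down _ h1.2.2 _ (Finset.erase_subset _ _)⟩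

omit [AddCommGroup N] [Module ℝ N] in
theorem yl_ok_insert (h1 : OkY De β (γ, η)) (hx : x ∈ η) : OkY De β (insert x γ, η) :=
  ⟨h1.1.trans (Finset.subset_insert _ _), Finset.insert_subset hx h1.2.1, h1.2.2⟩

omit [AddCommGroup N] [Module ℝ N] in
theorem yl_ok_low (h1 : OkY De β (γ, η)) (hx : x ∉ β) : OkY De β (γ.erase x, η) :=
  ⟨Finset.subset_erase.2 ⟨h1.1, hx⟩, (Finset.erase_subset _ _).trans h1.2.1, h1.2.2⟩

omit [AddCommGroup N] [Module ℝ N] in
theorem yl_card_erase (hx : x ∈ η \ β) : (η.erase x \ β).card + 1 = (η \ β).card := by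
  rw [Finset.erase_sdiff_comm, Finset.card_erase_add_one hx]

/-- The part of the boundary that keeps the top face. -/
def ylB : Kc N →ₗ[ℝ] Kc N :=
  Finsupp.lsum ℝ fun i => ∑ x ∈ i.2 \ i.1, Finsupp.lsingle (insert x i.1, i.2) ∘ₗ cx x

theorem ylB_single (γ η : Finset N) (w : Om N) : ylB (Finsupp.single (γ, η) w) =
    ∑ x ∈ η \ γ, Finsupp.single (insert x γ, η) (cx x w) := by
  rw [ylB, Finsupp.lsum_single, LinearMap.sum_apply]
  rfl

theorem yl_low (h : Fn De) {r : ℤ} {z : Kc N} (hz : z ∈ ylW De β r) :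
    bd z + ylB z ∈ ylW De β (r + 1) := by
  refine yl_map (bd + ylB) (fun i hi a _ => ?_) hz
  obtain ⟨γ, η⟩ := i
  rw [LinearMap.add_apply, bd_single, ylB_single, Finset.sum_sub_distrib, sub_add_cancel]
  refine Submodule.sum_mem _ fun y hy => ?_
  rw [Finset.mem_sdiff] at hy
  have h1 := yl_card_erase (Finset.mem_sdiff.2 ⟨hy.1, fun e => hy.2 (hi.1.1 e)⟩)
  have h2 : ((η \ β).card : ℤ) ≤ -r := hi.2
  exact ylW_single (yl_ok_erase h hi.1 hy.2) (by omega) _

theorem yl_anti : Antitone (ylW De β) := fun r r' hr => Pw_mono fun i => by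
  split_ifs with h1 h2
  · exact le_rfl
  · exact absurd ⟨h1.1, by have := h1.2; omega⟩ h2
  · exact bot_le
  · exact bot_le

theorem yl_DW (h : Fn De) {r : ℤ} {z : Kc N} (hz : z ∈ WY De β r) : bd z ∈ WY De β r := by
  refine yl_sup bd (fun z hz => ylW_le r ?_) (fun z hz => yl_ZW r (bd_YZ h hz)) hz
  have h1 : ylB z ∈ ylW De β r := by
    refine yl_map ylB (fun i hi a _ => ?_) hz
    obtain ⟨γ, η⟩ := i
    rw [ylB_single]
    exact Submodule.sum_mem _ fun y hy =>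
      ylW_single (yl_ok_insert hi.1 (Finset.mem_sdiff.1 hy).1) hi.2 _
  have h2 := sub_mem (yl_anti (show r ≤ r + 1 by omega) (yl_low h hz)) h1
  rwa [add_sub_cancel_right] at h2

/-- The local contraction along `x`. -/
def ylH (β : Finset N) (M : Finset N → Module.Dual ℝ N) (x : N) : Kc N →ₗ[ℝ] Kc N :=
  Finsupp.lsum ℝ fun i => if x ∈ i.1 \ β then Finsupp.lsingle (i.1.erase x, i.2) ∘ₗ
    LinearMap.mulLeft ℝ (ep x) ∘ₗ kx (M i.2) ∘ₗ LinearMap.mulLeft ℝ (ev x) else 0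

/-- The projector along `x`. -/
def ylP (β : Finset N) (M : Finset N → Module.Dual ℝ N) (x : N) : Kc N →ₗ[ℝ] Kc N :=
  Finsupp.lsum ℝ fun i => if x ∈ i.1 \ β then 0 else Finsupp.lsingle i ∘ₗ
    if x ∈ i.2 \ β then LinearMap.mulLeft ℝ (ev x) ∘ₗ kx (M i.2) else LinearMap.id

variable {M : Finset N → Module.Dual ℝ N}

theorem ylH_pos (hx : x ∈ γ \ β) : ylH β M x (Finsupp.single (γ, η) w) =
    Finsupp.single (γ.erase x, η) (ep x * kx (M η) (ev x * w)) := by
  rw [ylH, Finsupp.lsum_single, if_pos hx]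
  rfl

theorem ylH_neg (hx : x ∉ γ \ β) : ylH β M x (Finsupp.single (γ, η) w) = 0 := by
  rw [ylH, Finsupp.lsum_single, if_neg hx]
  rfl

theorem ylP_zero (hx : x ∈ γ \ β) : ylP β M x (Finsupp.single (γ, η) w) = 0 := by
  rw [ylP, Finsupp.lsum_single, if_pos hx]
  rfl

theorem ylP_pos (hx : x ∉ γ \ β) (hx' : x ∈ η \ β) : ylP β M x (Finsupp.single (γ, η) w) =
    Finsupp.single (γ, η) (ev x * kx (M η) w) := by
  rw [ylP, Finsupp.lsum_single, if_neg hx, if_pos hx']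
  rfl

theorem ylP_neg (hx : x ∉ γ \ β) (hx' : x ∉ η \ β) :
    ylP β M x (Finsupp.single (γ, η) w) = Finsupp.single (γ, η) w := by
  rw [ylP, Finsupp.lsum_single, if_neg hx, if_neg hx']
  rfl

theorem ylH_W {r : ℤ} {z : Kc N}
    (hz : z ∈ ylW De β r) : ylH β M x z ∈ ylW De β r := by
  refine yl_map _ (fun i hi a _ => ?_) hz
  obtain ⟨γ, η⟩ := i
  by_cases hx : x ∈ γ \ β
  · rw [ylH_pos hx]
    exact ylW_single (yl_ok_low hi.1 (Finset.mem_sdiff.1 hx).2) hi.2 _
  · rw [ylH_neg hx]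
    exact zero_mem _

theorem ylH_WY (hM : ∀ η ∈ De, ∀ v ∈ η, M η v = if v = x then 1 else 0) {r : ℤ} {z : Kc N}
    (hz : z ∈ WY De β r) : ylH β M x z ∈ WY De β r := by
  refine yl_sup _ (fun z hz => ylW_le r (ylH_W hz)) (fun z hz => yl_ZW r ?_) hz
  refine yl_map (G := fun i : Ix N => Jd i.1) _ (fun i hi a ha => ?_) hz
  obtain ⟨γ, η⟩ := i
  by_cases hx : x ∈ γ \ β
  · rw [ylH_pos hx]
    rw [Finset.mem_sdiff] at hx
    refine yl_Z_single (yl_ok_low hi hx.2) (mul_mem_Vp _ (proj_Jd ?_ (fun v hv hne => ?_) ha))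
    · rw [hM η hi.2.2 x (hi.2.1 hx.1), if_pos rfl]
    · rw [hM η hi.2.2 v (hi.2.1 hv), if_neg hne]
  · rw [ylH_neg hx]
    exact zero_mem _

theorem ylH_YC {s q : ℕ} {z : Kc N} (hz : z ∈ YC De β s q) : ylH β M x z ∈ YC De β s (q + 1) := by
  refine yl_map (G := fun i : Ix N => Co De i.2 (i.2 \ i.1) s) _ (fun i hi a ha => ?_) hz
  obtain ⟨γ, η⟩ := i
  by_cases hx : x ∈ γ \ β
  · rw [ylH_pos hx]
    rw [Finset.mem_sdiff] at hx
    have h1 : x ∈ η := hi.1.2.1 hx.1
    have h2 : x ∉ η \ γ := fun e => (Finset.mem_sdiff.1 e).2 hx.1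
    have h3 : η \ γ.erase x = insert x (η \ γ) := Finset.sdiff_erase h1
    refine yl_single (G := fun i : Ix N => Co De i.2 (i.2 \ i.1) s) ⟨yl_ok_low hi.1 hx.2, ?_⟩ ?_
    · show (η \ γ.erase x).card = q + 1
      rw [h3, Finset.card_insert_of_notMem h2]
      exact congrArg (· + 1) hi.2
    · show _ ∈ Co De η (η \ γ.erase x) s
      rw [h3]
      exact ep_Co h2 (kx_Co _ (ev_Co h1 ha))
  · rw [ylH_neg hx]
    exact zero_mem _

theorem yl_cx_Q (m : Module.Dual ℝ N) (x y : N) (w : Om N) :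
    cx y (kx m (ev x * w)) = kx m (ev x * cx y w) := by
  rw [cx_kx, cx_ev_mul, map_neg, neg_neg]

theorem yl_ep_Q (m : Module.Dual ℝ N) (x y : N) (w : Om N) :
    ep y * kx m (ev x * w) = kx m (ev x * (ep y * w)) := by
  have e : ev x * (ep y * w) = -(ep y * (ev x * w)) := by
    rw [← mul_assoc, ← mul_assoc, ep_ev, neg_mul, neg_neg]
  rw [e, map_neg, kx_ep_mul, neg_neg]

/-- The homotopy formula on one cube. -/
theorem yl_htpy (hM : ∀ η ∈ De, ∀ v ∈ η, M η v = if v = x then 1 else 0) {s q : ℕ} {z : Kc N}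
    (hz : z ∈ YC De β s q) :
    z - ylP β M x z - ylB (ylH β M x z) - ylH β M x (ylB z) ∈ YZ De β := by
  refine yl_map (G := fun i : Ix N => Co De i.2 (i.2 \ i.1) s)
    (LinearMap.id - ylP β M x - ylB ∘ₗ ylH β M x - ylH β M x ∘ₗ ylB) (fun i hi a ha => ?_) hz
  obtain ⟨γ, η⟩ := i
  have ok : OkY De β (γ, η) := hi.1
  have ha' : a ∈ Co De η (η \ γ) s := ha
  show Finsupp.single (γ, η) a - ylP β M x _ - ylB (ylH β M x _) - ylH β M x (ylB _) ∈ _
  rw [ylB_single γ, map_sum]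
  by_cases hx : x ∈ γ \ β
  · have hx' := Finset.mem_sdiff.1 hx
    have h1 : x ∈ η := ok.2.1 hx'.1
    have h2 : x ∉ η \ γ := fun e => (Finset.mem_sdiff.1 e).2 hx'.1
    have h3 : M η x = 1 := by rw [hM η ok.2.2 x h1, if_pos rfl]
    have h4 : ∀ y ∈ η \ γ, ylH β M x (Finsupp.single (insert y γ, η) (cx y a)) =
        -Finsupp.single (insert y (γ.erase x), η) (cx y (ep x * kx (M η) (ev x * a))) := by
      intro y hy
      have hne : y ≠ x := fun e => h2 (e ▸ hy)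
      rw [ylH_pos (Finset.mem_sdiff.2 ⟨Finset.mem_insert_of_mem hx'.1, hx'.2⟩),
        Finset.erase_insert_of_ne hne, cx_ep_mul, if_neg hne, zero_sub, Finsupp.single_neg,
        neg_neg, yl_cx_Q]
    rw [ylP_zero hx, ylH_pos hx, ylB_single, Finset.sdiff_erase h1, Finset.sum_insert h2,
      Finset.sum_congr rfl h4, Finset.sum_neg_distrib, Finset.insert_erase hx'.1, cx_ep_mul,
      if_pos rfl, yl_cx_Q, cx_Co_not h2 ha', mul_zero, map_zero, mul_zero, sub_zero, sub_zero,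
      kx_ev_mul, h3, one_smul, Finsupp.single_sub]
    refine mem_of_eq (yl_Z_single ok (ev_mul_Jd (Submodule.subset_span hx'.1) (kx (M η) a))) ?_
    abel
  · rw [ylH_neg hx, map_zero, sub_zero]
    by_cases hx' : x ∈ η \ β
    · have h0 := Finset.mem_sdiff.1 hx'
      have h1 : x ∉ γ := fun e => hx (Finset.mem_sdiff.2 ⟨e, h0.2⟩)
      have h2 : x ∈ η \ γ := Finset.mem_sdiff.2 ⟨h0.1, h1⟩
      have h3 : M η x = 1 := by rw [hM η ok.2.2 x h0.1, if_pos rfl]
      rw [ylP_pos hx hx', Finset.sum_eq_single_of_mem x h2 fun y _ hne => ylH_neg fun e => by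
        rcases Finset.mem_insert.1 (Finset.mem_sdiff.1 e).1 with e' | e'
        exacts [hne e'.symm, h1 e']]
      rw [ylH_pos (Finset.mem_sdiff.2 ⟨Finset.mem_insert_self _ _, h0.2⟩), Finset.erase_insert h1,
        yl_ep_Q, ep_cx_Co h2 ha', kx_ev_mul, h3, one_smul, Finsupp.single_sub, sub_self]
      exact zero_mem _
    · rw [ylP_neg hx hx', sub_self, Finset.sum_eq_zero fun y hy => ylH_neg fun e => hx' ?_,
        sub_zero]
      · exact zero_mem _
      · rw [Finset.mem_sdiff] at e ⊢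
        exact ⟨Finset.insert_subset (Finset.mem_sdiff.1 hy).1 ok.2.1 e.1, e.2⟩

/-- Elements killed by the vectors of `U`. -/
def ylA (U : Finset N) : Submodule ℝ (Om N) where
  carrier := {w | ∀ x ∈ U, ev x * w = 0}
  add_mem' := fun ha hb x hx => by rw [mul_add, ha x hx, hb x hx, add_zero]
  zero_mem' := fun x _ => mul_zero _
  smul_mem' := fun c _ ha x hx => by rw [mul_smul_comm, ha x hx, smul_zero]

/-- Chains on which the vertices of `T` have been treated. -/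
def ylG (De : Finset (Finset N)) (β : Finset N) (s q m : ℕ) (T : Finset N) :
    Submodule ℝ (Kc N) :=
  Pw fun i => if OkY De β i ∧ (i.2 \ i.1).card = q ∧ (i.2 \ β).card ≤ m ∧ Disjoint (i.1 \ β) T
    then Co De i.2 (i.2 \ i.1) s ⊓ ylA (T ∩ (i.2 \ i.1)) else ⊥

theorem ylG_YC {s q m : ℕ} {T : Finset N} : ylG De β s q m T ≤ YC De β s q := Pw_mono fun i => by
  split_ifs with h1 h2
  · exact inf_le_left
  · exact absurd ⟨h1.1, h1.2.1⟩ h2
  · exact bot_le
  · exact bot_le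

theorem ylG_W {s q m : ℕ} {T : Finset N} : ylG De β s q m T ≤ ylW De β (-m) := Pw_mono fun i => by
  split_ifs with h1 h2
  · exact le_top
  · exact absurd ⟨h1.1, by have := h1.2.2.1; omega⟩ h2
  · exact bot_le
  · exact bot_le

theorem yl_ev_kx {m : Module.Dual ℝ N} {y : N} (hm : m y = 0) (hw : ev y * w = 0) :
    ev y * kx m w = 0 := by
  have h1 := kx_ev_mul m y w
  rw [hw, map_zero, hm, zero_smul, zero_sub] at h1
  exact neg_eq_zero.1 h1.symm

theorem yl_pi_Co {S : Finset N} {s : ℕ} (m : Module.Dual ℝ N) (hx : x ∈ η)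
    (hw : w ∈ Co De η S s) : ev x * kx m w ∈ Co De η S s := by
  cases s with
  | zero => rw [kx_Co_zero m hw, mul_zero]; exact zero_mem _
  | succ s => exact ev_Co hx (kx_Co m hw)

theorem ylP_G (hM : ∀ η ∈ De, ∀ v ∈ η, M η v = if v = x then 1 else 0) {s q m : ℕ} {T : Finset N}
    {z : Kc N} (hz : z ∈ ylG De β s q m T) : ylP β M x z ∈ ylG De β s q m (insert x T) := by
  refine yl_map (G := fun i : Ix N => Co De i.2 (i.2 \ i.1) s ⊓ ylA (T ∩ (i.2 \ i.1))) _
    (fun i hi a ha => ?_) hz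
  obtain ⟨γ, η⟩ := i
  have ok : OkY De β (γ, η) := hi.1
  by_cases hx : x ∈ γ \ β
  · rw [ylP_zero hx]
    exact zero_mem _
  have hc : OkY De β (γ, η) ∧ (η \ γ).card = q ∧ (η \ β).card ≤ m ∧
      Disjoint (γ \ β) (insert x T) :=
    ⟨ok, hi.2.1, hi.2.2.1, Finset.disjoint_insert_right.2 ⟨hx, hi.2.2.2⟩⟩
  by_cases hx' : x ∈ η \ β
  · rw [ylP_pos hx hx']
    refine yl_single (G := fun i : Ix N => Co De i.2 (i.2 \ i.1) s ⊓
      ylA (insert x T ∩ (i.2 \ i.1))) hc ⟨yl_pi_Co _ (Finset.mem_sdiff.1 hx').1 ha.1, ?_⟩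
    intro y hy
    rw [Finset.mem_inter, Finset.mem_insert] at hy
    by_cases hne : y = x
    · rw [hne, ← mul_assoc, ev_sq, zero_mul]
    · have h1 : M η y = 0 := by rw [hM η ok.2.2 y (Finset.mem_sdiff.1 hy.2).1, if_neg hne]
      have h2 := yl_ev_kx h1 (ha.2 y (Finset.mem_inter.2 ⟨hy.1.resolve_left hne, hy.2⟩))
      rw [← mul_assoc, ev_ev, neg_mul, mul_assoc, h2, mul_zero, neg_zero]
  · rw [ylP_neg hx hx']
    refine yl_single (G := fun i : Ix N => Co De i.2 (i.2 \ i.1) s ⊓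
      ylA (insert x T ∩ (i.2 \ i.1))) hc ⟨ha.1, ?_⟩
    intro y hy
    rw [Finset.mem_inter, Finset.mem_insert] at hy
    refine ha.2 y (Finset.mem_inter.2 ⟨hy.1.resolve_left fun e => hx' ?_, hy.2⟩)
    have h1 := Finset.mem_sdiff.1 hy.2
    exact e ▸ Finset.mem_sdiff.2 ⟨h1.1, fun e' => h1.2 (ok.1 e')⟩

theorem yl_step (h : Fn De) (hM : ∀ η ∈ De, ∀ v ∈ η, M η v = if v = x then 1 else 0) {s q : ℕ}
    {r : ℤ} {z : Kc N} (h1 : z ∈ YC De β s q) (h2 : z ∈ ylW De β r)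
    (hb : bd z ∈ WY De β (r + 1)) : z - ylP β M x z ∈
      ((YC De β s (q + 1) ⊔ YZ De β) ⊓ WY De β r).map bd ⊔ WY De β (r + 1) := by
  refine mem_map_sup.2 ⟨-ylH β M x z, neg_mem ⟨Submodule.mem_sup_left (ylH_YC h1),
    ylW_le r (ylH_W h2)⟩, ?_⟩
  refine mem_of_eq (sub_mem (add_mem (add_mem (yl_ZW _ (yl_htpy hM h1))
    (ylW_le _ (yl_low h (ylH_W (M := M) (x := x) h2))))
    (ylW_le _ (ylH_W (M := M) (x := x) (yl_low h h2)))) (ylH_WY hM hb)) ?_
  rw [map_neg, map_add]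
  abel

theorem yl_iter (h : Fn De) {s q m : ℕ} {z : Kc N} (hz : z ∈ ylG De β s q m ∅)
    (hb : bd z ∈ WY De β (-m + 1)) (T : Finset N) : ∃ z' ∈ ylG De β s q m T,
      bd z' ∈ WY De β (-m + 1) ∧ z - z' ∈
        ((YC De β s (q + 1) ⊔ YZ De β) ⊓ WY De β (-m)).map bd ⊔ WY De β (-m + 1) := by
  induction T using Finset.induction_on with
  | empty => exact ⟨z, hz, hb, by rw [sub_self]; exact zero_mem _⟩
  | insert x T _ ih =>
    obtain ⟨z', h1, h2, h3⟩ := ih
    choose! M hM using fun η (hη : η ∈ De) => h.dual hη x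
    have h4 := yl_step h hM (ylG_YC h1) (ylG_W h1) h2
    refine ⟨ylP β M x z', ylP_G hM h1, ?_, mem_of_eq (add_mem h3 h4) (by abel)⟩
    obtain ⟨y, -, h5⟩ := mem_map_sup.1 h4
    have h6 := sub_mem h2 (yl_DW h h5)
    rwa [map_sub, map_sub, bd_bd, sub_zero, sub_sub_cancel] at h6

/-- A coefficient killed by the vectors of `T` is a multiple of their product. -/
theorem yl_div (h : Fn De) (hη : η ∈ De) {S : Finset N} (T : Finset N) : T ⊆ η → ∀ (s : ℕ)
    (w : Om N), w ∈ Co De η S s → w ∈ ylA T →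
      w = 0 ∨ T.card ≤ s ∧ ∃ b ∈ FF De (s - T.card) η, w = eps S * evs T * emb b := by
  induction T using Finset.induction_on with
  | empty =>
    intro _ s w hw _
    obtain ⟨b, hb, e⟩ := mem_Co.1 hw
    exact Or.inr ⟨Nat.zero_le _, b, hb, by rw [evs_empty, mul_one, e]⟩
  | insert x T hx ih =>
    intro hT s w hw ha
    obtain ⟨m, hm⟩ := h.dual hη x
    have h1 : m x = 1 := by rw [hm x (hT (Finset.mem_insert_self _ _)), if_pos rfl]
    have h2 : w = ev x * kx m w := by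
      have := kx_ev_mul m x w
      rw [ha x (Finset.mem_insert_self _ _), map_zero, h1, one_smul] at this
      exact sub_eq_zero.1 this.symm
    cases s with
    | zero => exact Or.inl (by rw [h2, kx_Co_zero m hw, mul_zero])
    | succ s =>
      have h3 : kx m w ∈ ylA T := fun y hy => yl_ev_kx
        (by rw [hm y (hT (Finset.mem_insert_of_mem hy)), if_neg fun e : y = x => hx (e ▸ hy)])
        (ha y (Finset.mem_insert_of_mem hy))
      rcases ih ((Finset.subset_insert _ _).trans hT) s _ (kx_Co m hw) h3 with h4 | ⟨h4, b, hb, e⟩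
      · exact Or.inl (by rw [h2, h4, mul_zero])
      · rw [Finset.card_insert_of_notMem hx, Nat.add_sub_add_right]
        refine Or.inr ⟨by omega, ((-1 : ℝ) ^ S.card * sg T x) • b, Submodule.smul_mem _ _ hb, ?_⟩
        rw [h2, e, ← mul_assoc, ← mul_assoc, ev_mul_eps, evs_insert hx, map_smul]
        simp only [smul_mul_assoc, mul_smul_comm, smul_smul, mul_assoc]
        rw [sg_sq, mul_one]

theorem yl_fin (h : Fn De) {s q m : ℕ} {z : Kc N} (hz : z ∈ ylG De β s q m (vx De)) :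
    z ∈ (RC De β s q ⊓ if q = m then ⊤ else ⊥).map (rs β) ⊔ WY De β (-m + 1) := by
  refine yl_map (G := fun i : Ix N => Co De i.2 (i.2 \ i.1) s ⊓ ylA (vx De ∩ (i.2 \ i.1)))
    LinearMap.id (fun i hi a ha => ?_) hz
  obtain ⟨γ, η⟩ := i
  have ok : OkY De β (γ, η) := hi.1
  have hv : η ⊆ vx De := fun v hv => mem_vx.2 ⟨η, ok.2.2, hv⟩
  have e : γ = β := by
    refine Finset.Subset.antisymm (fun v hv' => by_contra fun hn => ?_) ok.1
    exact Finset.disjoint_left.1 hi.2.2.2 (Finset.mem_sdiff.2 ⟨hv', hn⟩) (hv (ok.2.1 hv'))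
  subst e
  have hq : (η \ γ).card = q := hi.2.1
  have hm : (η \ γ).card ≤ m := hi.2.2.1
  rw [LinearMap.id_apply]
  by_cases hqm : q = m
  swap
  · exact Submodule.mem_sup_right (ylW_le _ (ylW_single ok (by omega) _))
  have ha2 : a ∈ ylA (η \ γ) := fun y hy =>
    ha.2 y (Finset.mem_inter.2 ⟨hv (Finset.mem_sdiff.1 hy).1, hy⟩)
  rcases yl_div h ok.2.2 (η \ γ) Finset.sdiff_subset s a ha.1 ha2 with h1 | ⟨h1, b, hb, e⟩
  · rw [h1, Finsupp.single_zero]
    exact zero_mem _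
  obtain ⟨c, hc, e'⟩ := pis_eq (η \ γ)
  rw [hq] at h1 hb
  refine Submodule.mem_sup_left ⟨Finsupp.single η (c • b), ⟨yl_single
    (G := fun s' : Finset N => FF De (s - q) s') ⟨ok.2.2, ok.2.1, hq, h1⟩
    (Submodule.smul_mem _ _ hb), by rw [if_pos hqm]; trivial⟩, ?_⟩
  rw [rs_single, e, e', map_smul, smul_mul_assoc, mul_smul_comm, smul_smul, hc, one_smul]

theorem yl_split {s q m : ℕ} {x : Kc N} (hx : x ∈ (YC De β s q ⊔ YZ De β) ⊓ WY De β (-m)) :
    x ∈ ylG De β s q m ∅ ⊔ YZ De β := by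
  rw [WY, YC, YZ, ← Pw_sup, ← Pw_sup, ← Pw_inf] at hx
  rw [ylG, YZ, ← Pw_sup]
  refine Pw_mono (fun i => ?_) hx
  by_cases h1 : OkY De β i ∧ ((i.2 \ β).card : ℤ) ≤ -(-m)
  · refine inf_le_left.trans (sup_le_sup_right ?_ _)
    split_ifs with h2 h3
    · exact le_inf le_rfl fun w _ y hy => absurd hy (by simp)
    · exact absurd ⟨h2.1, h2.2, by have := h1.2; omega, Finset.disjoint_empty_right _⟩ h3
    · exact bot_le
    · exact bot_le
  · rw [if_neg h1, bot_sup_eq]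
    exact inf_le_right.trans le_sup_right

/-- The local contraction: a chain of filtration `m` whose boundary has lower filtration is
homologous to a residue chain, which vanishes unless `q = m`. -/
theorem yloc (h : Fn De) (β : Finset N) (s q m : ℕ) {x : Kc N}
    (hx : x ∈ (YC De β s q ⊔ YZ De β) ⊓ WY De β (-m)) (hb : bd x ∈ WY De β (-m + 1)) :
    ∃ w ∈ RC De β s q, (q ≠ m → w = 0) ∧ x - rs β w ∈
      ((YC De β s (q + 1) ⊔ YZ De β) ⊓ WY De β (-m)).map bd ⊔ WY De β (-m + 1) := by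
  obtain ⟨z, hz, u, hu, rfl⟩ := Submodule.mem_sup.1 (yl_split hx)
  have hb' : bd z ∈ WY De β (-m + 1) := by
    have := sub_mem hb (yl_ZW _ (bd_YZ h hu))
    rwa [map_add, add_sub_cancel_right] at this
  obtain ⟨z', h1, -, h2⟩ := yl_iter h hz hb' (vx De)
  obtain ⟨_, ⟨w, hw, rfl⟩, y, h3, rfl⟩ := Submodule.mem_sup.1 (yl_fin h h1)
  refine ⟨w, hw.1, fun hne => ?_, mem_of_eq (add_mem (add_mem h2 (Submodule.mem_sup_right h3))
    (Submodule.mem_sup_right (yl_ZW _ hu))) (by abel)⟩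
  have := hw.2
  rwa [if_neg hne] at this

theorem yl_ι_JE {S : Finset N} (v : N) {b : Ex N} (hb : b ∈ JE S) :
    ι ℝ v * b ∈ JE (S.erase v) := by
  have : JE S ≤ (JE (S.erase v)).comap (LinearMap.mulLeft ℝ (ι ℝ v)) := by
    refine iSup₂_le fun y hy => ?_
    rintro _ ⟨c, rfl⟩
    show ι ℝ v * (ι ℝ y * c) ∈ JE (S.erase v)
    by_cases e : y = v
    · rw [e, ← mul_assoc, ι_sq_zero, zero_mul]
      exact zero_mem _
    · rw [← mul_assoc, eq_neg_of_add_eq_zero_left (ι_add_mul_swap v y), neg_mul, mul_assoc]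
      exact neg_mem (ι_mul_JE (Submodule.subset_span (Finset.mem_erase.2 ⟨e, hy⟩)) _)
  exact this hb

theorem yl_dZ (h : Fn De) {u : Finset N →₀ Ex N} (hu : u ∈ RZ De β) : rd β u ∈ RZ De β := by
  refine yl_map (G := fun s : Finset N => JE s) _ (fun η hη b hb => ?_) hu
  rw [rd_single]
  refine Submodule.sum_mem _ fun v hv => yl_single (G := fun s : Finset N => JE s)
    ⟨h.down _ hη.1 _ (Finset.erase_subset _ _),
      Finset.subset_erase.2 ⟨hη.2, (Finset.mem_sdiff.1 hv).2⟩⟩ (yl_ι_JE v hb)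

theorem yl_dC (h : Fn De) {s q : ℕ} {u : Finset N →₀ Ex N} (hu : u ∈ RC De β s (q + 1)) :
    rd β u ∈ RC De β s q := by
  refine yl_map (G := fun s' : Finset N => FF De (s - (q + 1)) s') _ (fun η hη b hb => ?_) hu
  rw [rd_single]
  refine Submodule.sum_mem _ fun v hv => ?_
  have h1 := yl_card_erase hv
  have h2 := hη.2.2
  refine yl_single (G := fun s' : Finset N => FF De (s - q) s')
    ⟨h.down _ hη.1 _ (Finset.erase_subset _ _),
      Finset.subset_erase.2 ⟨hη.2.1, (Finset.mem_sdiff.1 hv).2⟩, by omega, by omega⟩ ?_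
  rw [show s - q = s - (q + 1) + 1 by omega]
  exact FF_anti (Finset.erase_subset _ _) _ (ι_mul_FF (Finset.mem_sdiff.1 hv).1 hb)

theorem yl_d0 {s : ℕ} {u : Finset N →₀ Ex N} (hu : u ∈ RC De β s 0) : rd β u ∈ RZ De β := by
  refine yl_map (G := fun s' : Finset N => FF De (s - 0) s') _ (fun η hη b _ => ?_) hu
  rw [rd_single, Finset.card_eq_zero.1 hη.2.2.1, Finset.sum_empty]
  exact zero_mem _

theorem yl_iZ {u : Finset N →₀ Ex N} (hu : u ∈ RZ De β) : rs β u ∈ YZ De β := by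
  refine yl_map (G := fun s : Finset N => JE s) _ (fun η hη b hb => ?_) hu
  rw [rs_single]
  exact yl_Z_single ⟨Finset.Subset.refl _, hη.2, hη.1⟩ (pis_mul_JE hb)

theorem yl_iC {s q : ℕ} {u : Finset N →₀ Ex N} (hu : u ∈ RC De β s q) :
    rs β u ∈ YC De β s q ⊓ ylW De β (-q) := by
  refine yl_map (G := fun s' : Finset N => FF De (s - q) s') _ (fun η hη b hb => ?_) hu
  rw [rs_single]
  have ok : OkY De β (β, η) := ⟨Finset.Subset.refl _, hη.2.1, hη.1⟩
  have h1 := hη.2.2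
  refine ⟨yl_single (G := fun i : Ix N => Co De i.2 (i.2 \ i.1) s) ⟨ok, h1.1⟩ ?_,
    ylW_single ok (by omega) _⟩
  have h2 := pis_Co (S := η \ β) Finset.sdiff_subset hb
  rwa [show s - q + (η \ β).card = s by omega] at h2

theorem yl_comm {s q : ℕ} {u : Finset N →₀ Ex N} (hu : u ∈ RC De β s q) :
    bd (rs β u) - rs β (rd β u) ∈ YZ De β := by
  refine yl_map (G := fun s' : Finset N => FF De (s - q) s') (bd ∘ₗ rs β - rs β ∘ₗ rd β)
    (fun η hη b _ => ?_) hu
  show bd (rs β _) - rs β (rd β _) ∈ _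
  rw [rs_single, rd_single, bd_single, map_sum, ← Finset.sum_sub_distrib]
  refine Submodule.sum_mem _ fun v hv => ?_
  rw [rs_single, cx_pis_mul, if_pos hv, cx_emb, mul_zero, add_zero, Finset.erase_sdiff_comm,
    map_mul, emb_ι, ← mul_assoc, pis_comm _ (ev v), sub_sub_cancel_left, mul_assoc]
  exact neg_mem (yl_Z_single (yl_ok_insert ⟨Finset.Subset.refl _, hη.2.1, hη.1⟩
    (Finset.mem_sdiff.1 hv).1) (ev_mul_Jd (Submodule.subset_span (Finset.mem_insert_self _ _)) _))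

theorem yl_rs_apply (u : Finset N →₀ Ex N) (η : Finset N) :
    rs β u (β, η) = pis (η \ β) * emb (u η) := by
  induction u using Finsupp.induction_linear with
  | zero => rw [map_zero, Finsupp.zero_apply, Finsupp.zero_apply, map_zero, mul_zero]
  | add a b ha hb => rw [map_add, Finsupp.add_apply, Finsupp.add_apply, ha, hb, map_add, mul_add]
  | single η' b =>
    rw [rs_single]
    by_cases e : η' = η
    · rw [e, Finsupp.single_eq_same, Finsupp.single_eq_same]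
    · rw [Finsupp.single_eq_of_ne fun e' => e (congrArg Prod.snd e').symm,
        Finsupp.single_eq_of_ne (Ne.symm e), map_zero, mul_zero]

theorem yl_WY_apply {r : ℤ} {z : Kc N} (hz : z ∈ WY De β r) (hr : -r < (η \ β).card) :
    z (β, η) ∈ Jd β := by
  obtain ⟨a, ha, b, hb, rfl⟩ := Submodule.mem_sup.1 hz
  have h1 := mem_Pw.1 ha (β, η)
  rw [if_neg fun e => absurd e.2 (not_le.2 hr), Submodule.mem_bot] at h1
  have h2 := mem_Pw.1 hb (β, η)
  rw [Finsupp.add_apply, h1, zero_add]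
  split_ifs at h2
  · exact h2
  · rw [Submodule.mem_bot] at h2
    rw [h2]
    exact zero_mem _

theorem yl_bd_apply (h : Fn De) {r : ℤ} {z : Kc N} (hz : z ∈ WY De β r)
    (hr : -r ≤ (η \ β).card) : bd z (β, η) ∈ Jd β := by
  obtain ⟨a, ha, b, hb, rfl⟩ := Submodule.mem_sup.1 hz
  rw [map_add, Finsupp.add_apply]
  refine add_mem ?_ (yl_WY_apply (yl_ZW (r + 1) (bd_YZ h hb)) (by omega))
  have h1 := yl_WY_apply (η := η) (ylW_le _ (yl_low h ha)) (by omega)
  have h2 : Finsupp.lapply (R := ℝ) (β, η) (ylB a) ∈ Jd β := by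
    refine yl_map (Finsupp.lapply (R := ℝ) (β, η) ∘ₗ ylB) (fun i hi c _ => ?_) ha
    obtain ⟨γ', η'⟩ := i
    rw [LinearMap.comp_apply, ylB_single, map_sum]
    refine Submodule.sum_mem _ fun y hy => ?_
    rw [Finsupp.lapply_apply, Finsupp.single_eq_of_ne fun e => ?_]
    · exact zero_mem _
    · have e1 : β = insert y γ' := congrArg Prod.fst e
      exact (Finset.mem_sdiff.1 hy).2 (hi.1.1 (e1 ▸ Finset.mem_insert_self y γ'))
  rw [Finsupp.lapply_apply] at h2
  have h3 := sub_mem h1 h2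
  rwa [Finsupp.add_apply, add_sub_cancel_right] at h3

theorem yl_inj (h : Fn De) {s q : ℕ} {u : Finset N →₀ Ex N} (hu : u ∈ RC De β s q) {y : Kc N}
    (hy : y ∈ WY De β (0 - q)) (h0 : rs β u - bd y ∈ WY De β (0 - q + 1)) : u ∈ RZ De β := by
  refine mem_Pw.2 fun η => ?_
  have h1 := mem_Pw.1 hu η
  split_ifs at h1 with hc
  · rw [if_pos ⟨hc.1, hc.2.1⟩]
    have h2 := hc.2.2.1
    have h3 := add_mem (yl_WY_apply (η := η) h0 (by omega)) (yl_bd_apply (η := η) h hy (by omega))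
    rw [Finsupp.sub_apply, sub_add_cancel, yl_rs_apply] at h3
    exact pis_mul_Jd h hc.1 hc.2.1 h3
  · rw [Submodule.mem_bot] at h1
    rw [h1]
    exact zero_mem _

theorem yl_hi {r : ℤ} (hr : 0 < r) : WY De β r ≤ YZ De β :=
  sup_le (Pw_mono fun i => by
    rw [if_neg fun e => by have := e.2; omega]
    exact bot_le) le_rfl

theorem concY (h : Fn De) (β : Finset N) (s : ℕ) : Conc (cxY h β s) (WY De β) 0
    (fun q => RC De β s q ⊔ RZ De β) (RZ De β) (rd β) (rs β) where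
  anti := fun _ _ hr => sup_le_sup_right (yl_anti hr) _
  ZW := yl_ZW
  DW := fun _ _ _ hx => yl_DW h hx.2
  lo := ⟨-(vx De).card, fun q => sup_le (le_trans (Pw_mono fun i => by
    split_ifs with h1 h2
    · exact le_top
    · refine absurd ⟨h1.1, ?_⟩ h2
      have := Finset.card_le_card (Finset.sdiff_subset.trans
        (fun v hv => mem_vx.2 ⟨i.2, h1.1.2.2, hv⟩) : i.2 \ β ⊆ vx De)
      omega
    · exact bot_le
    · exact bot_le) (ylW_le _)) (yl_ZW _)⟩
  hi := ⟨1, fun _ => inf_le_right.trans (yl_hi one_pos)⟩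
  ZE := fun _ => le_sup_right
  dZ := fun _ hw => yl_dZ h hw
  dE := fun _ _ hw => yl_sup _ (fun _ hu => Submodule.mem_sup_left (yl_dC h hu))
    (fun _ hu => Submodule.mem_sup_right (yl_dZ h hu)) hw
  d0 := fun _ hw => yl_sup _ (fun _ hu => yl_d0 hu) (fun _ hu => yl_dZ h hu) hw
  iZ := fun _ hw => yl_iZ hw
  iC := fun q _ hw => yl_sup (S := (YC De β s q ⊔ YZ De β) ⊓ WY De β (0 - q)) _
    (fun _ hu => ⟨Submodule.mem_sup_left (yl_iC hu).1, by
      rw [zero_sub]; exact ylW_le _ (yl_iC hu).2⟩)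
    (fun _ hu => ⟨Submodule.mem_sup_right (yl_iZ hu), yl_ZW _ (yl_iZ hu)⟩) hw
  conc := fun q r hr x hx hb => by
    rcases le_or_gt r 0 with h1 | h1
    · obtain ⟨m, rfl⟩ : ∃ m : ℕ, r = -m := ⟨(-r).toNat, by omega⟩
      obtain ⟨w, -, h2, h3⟩ := yloc h β s q m hx hb
      rwa [h2 (by omega), map_zero, sub_zero] at h3
    · exact Submodule.mem_sup_right (yl_ZW _ (yl_hi h1 hx.2))
  surj := fun q x hx hb => by
    rw [zero_sub] at hx hb ⊢
    obtain ⟨w, h1, -, h3⟩ := yloc h β s q q hx hb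
    exact ⟨w, Submodule.mem_sup_left h1, h3⟩
  inj := fun q w hw h0 => by
    obtain ⟨u, hu, v, hv, rfl⟩ := Submodule.mem_sup.1 hw
    obtain ⟨y, hy, h1⟩ := mem_map_sup.1 h0
    refine add_mem (yl_inj h hu hy.2 (mem_of_eq (sub_mem h1 (yl_ZW _ (yl_iZ hv))) ?_)) hv
    rw [map_add]
    show rs β u - bd y = rs β u + rs β v - bd y - rs β v
    abel
  comm := fun q w hw => Submodule.mem_sup_right (yl_ZW _ (yl_sup (bd ∘ₗ rs β - rs β ∘ₗ rd β)
    (fun _ hu => yl_comm hu) (fun _ hu => sub_mem (bd_YZ h (yl_iZ hu)) (yl_iZ (yl_dZ h hu))) hw))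

end K2
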